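import Pool.Agent.Lib_MP_71c74a_pr.FieldOps

/-!
# Independent fields at the different scales
-/

open MeasureTheory ProbabilityTheory Set
open scoped ENNReal NNReal Topology

namespace Pool.Agent.Lib_MP_71c74a_pr

variable {d : ℕ}

/-- Independent Gaussian fields `φ j`, the `j`-th at scale `2^{-j}`. -/
structure Scales {Ω H : Type*} [MeasurableSpace Ω] [NormedAddCommGroup H]
    [InnerProductSpace ℝ H] (P : Measure Ω) (G : Eu d → H) (φ : ℕ → Eu d → Ω → ℝ) : Prop where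
  law : ∀ j, FieldLaw P G (fun x => φ j ((1 / 2 : ℝ) ^ j • x))
  indep : iIndepFun (fun j ω x => φ j x ω) P

lemma Scales.meas {Ω H : Type*} [MeasurableSpace Ω] [NormedAddCommGroup H]
    [InnerProductSpace ℝ H] {P : Measure Ω} {G : Eu d → H} {φ : ℕ → Eu d → Ω → ℝ}
    (h : Scales P G φ) (j : ℕ) (x : Eu d) : Measurable (φ j x) := by
  have := (h.law j).meas (((1 / 2 : ℝ) ^ j)⁻¹ • x)
  rwa [smul_smul, mul_inv_cancel₀ (by positivity), one_smul] at this

lemma Scales.smooth {Ω H : Type*} [MeasurableSpace Ω] [NormedAddCommGroup H]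
    [InnerProductSpace ℝ H] {P : Measure Ω} {G : Eu d → H} {φ : ℕ → Eu d → Ω → ℝ}
    (h : Scales P G φ) (j : ℕ) (ω : Ω) : ContDiff ℝ 1 (fun x => φ j x ω) := by
  have := ((h.law j).smooth ω).comp
    (by fun_prop : ContDiff ℝ 1 (fun x : Eu d => ((1 / 2 : ℝ) ^ j)⁻¹ • x))
  have e : ((fun x => φ j ((1 / 2 : ℝ) ^ j • x) ω) ∘ fun x : Eu d => ((1 / 2 : ℝ) ^ j)⁻¹ • x)
      = fun x => φ j x ω := by
    ext x
    simp only [Function.comp]
    rw [smul_smul, mul_inv_cancel₀ (by positivity), one_smul]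
  rwa [e] at this

lemma Scales.law_shift {Ω H : Type*} [MeasurableSpace Ω] [NormedAddCommGroup H]
    [InnerProductSpace ℝ H] {P : Measure Ω} {G : Eu d → H} {φ : ℕ → Eu d → Ω → ℝ}
    (h : Scales P G φ) {R₀ v₀ C : ℝ} (hG : CovLaw G R₀ v₀ C) (j : ℕ) (z' : Eu d) :
    FieldLaw P G (fun x => φ j (z' + (1 / 2 : ℝ) ^ j • x)) := by
  have := (h.law j).shift hG (((1 / 2 : ℝ) ^ j)⁻¹ • z')
  have e : (fun x => φ j ((1 / 2 : ℝ) ^ j • (((1 / 2 : ℝ) ^ j)⁻¹ • z' + x)))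
      = fun x => φ j (z' + (1 / 2 : ℝ) ^ j • x) := by
    ext x
    rw [smul_add, smul_smul, mul_inv_cancel₀ (by positivity), one_smul]
  rwa [e] at this

end Pool.Agent.Lib_MP_71c74a_pr
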