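import Pool.Agent.Lib_MP_71c74a_pr.Tests

/-!
# Operations on Gaussian fields
-/

open MeasureTheory ProbabilityTheory Set
open scoped ENNReal NNReal Topology

namespace Pool.Agent.Lib_MP_71c74a_pr

section Ops

variable {Ω E H H₁ : Type*} [MeasurableSpace Ω] [NormedAddCommGroup E]
  [NormedSpace ℝ E] [NormedAddCommGroup H] [InnerProductSpace ℝ H] [NormedAddCommGroup H₁]
  [InnerProductSpace ℝ H₁] {P : Measure Ω} {G : E → H} {G₁ : E → H₁} {ψ : E → Ω → ℝ}

omit [NormedAddCommGroup E] [NormedSpace ℝ E] in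
lemma norm_lc_sq (G : E → H) (a : E →₀ ℝ) :
    ‖lc G a‖ ^ 2 = ∑ x ∈ a.support, ∑ y ∈ a.support, a x * (a y * inner ℝ (G x) (G y)) := by
  rw [← real_inner_self_eq_norm_sq, lc, Finsupp.linearCombination_apply, Finsupp.sum, sum_inner]
  refine Finset.sum_congr rfl fun x _ => ?_
  rw [inner_sum]
  refine Finset.sum_congr rfl fun y _ => ?_
  rw [real_inner_smul_left, real_inner_smul_right]

omit [NormedAddCommGroup E] [NormedSpace ℝ E] in
lemma nnnorm_lc_congr (h : ∀ x y, inner ℝ (G₁ x) (G₁ y) = inner ℝ (G x) (G y)) (a : E →₀ ℝ) :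
    ‖lc G₁ a‖₊ = ‖lc G a‖₊ := by
  have h1 : ‖lc G₁ a‖ ^ 2 = ‖lc G a‖ ^ 2 := by
    rw [norm_lc_sq, norm_lc_sq]
    simp_rw [h]
  have h2 : ‖lc G₁ a‖ = ‖lc G a‖ := by
    rwa [sq_eq_sq₀ (norm_nonneg _) (norm_nonneg _)] at h1
  exact NNReal.eq h2

lemma FieldLaw.congr_inner (hψ : FieldLaw P G₁ ψ)
    (h : ∀ x y, inner ℝ (G₁ x) (G₁ y) = inner ℝ (G x) (G y)) : FieldLaw P G ψ where
  meas := hψ.meas
  smooth := hψ.smooth
  gauss a := by rw [hψ.gauss, nnnorm_lc_congr h]

lemma FieldLaw.comp (hψ : FieldLaw P G ψ) {f : E → E} (hf : ContDiff ℝ 1 f) :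
    FieldLaw P (fun x => G (f x)) (fun x => ψ (f x)) where
  meas x := hψ.meas (f x)
  smooth ω := (hψ.smooth ω).comp hf
  gauss a := by
    have h := hψ.gauss (a.mapDomain f)
    simp only [lc, Finsupp.linearCombination_mapDomain] at h
    exact h

lemma FieldLaw.shift {R₀ v₀ C : ℝ} (hG : CovLaw G R₀ v₀ C) (hψ : FieldLaw P G ψ) (b : E) :
    FieldLaw P G (fun x => ψ (b + x)) :=
  (hψ.comp (f := fun x => b + x) (by fun_prop)).congr_inner (fun x y => hG.stat b x y)

/-- Tests are measurable functions of the field. -/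
lemma measurable_lc_pi {E : Type*} (a : E →₀ ℝ) : Measurable (fun φ : E → ℝ => lc φ a) := by
  have : (fun φ : E → ℝ => lc φ a) = fun φ : E → ℝ => ∑ x ∈ a.support, a x * φ x := by
    ext φ
    simp [lc, Finsupp.linearCombination_apply, Finsupp.sum]
  rw [this]
  exact Finset.measurable_sum _ fun x _ => (measurable_pi_apply x).const_mul _

end Ops

section Lip

/-- Euclidean space. -/
abbrev Eu (d : ℕ) := EuclideanSpace ℝ (Fin d)

open Classical in
/-- The tests giving the difference quotients over the ball of radius two. -/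
noncomputable def lipT (d : ℕ) (m : ℕ) : Eu d →₀ ℝ :=
  if (‖TopologicalSpace.denseSeq (Eu d) m.unpair.1‖ < 2 ∧
      ‖TopologicalSpace.denseSeq (Eu d) m.unpair.2‖ < 2 ∧
      TopologicalSpace.denseSeq (Eu d) m.unpair.1 ≠ TopologicalSpace.denseSeq (Eu d) m.unpair.2)
  then (‖TopologicalSpace.denseSeq (Eu d) m.unpair.1
      - TopologicalSpace.denseSeq (Eu d) m.unpair.2‖)⁻¹
      • (Finsupp.single (TopologicalSpace.denseSeq (Eu d) m.unpair.1) 1
        - Finsupp.single (TopologicalSpace.denseSeq (Eu d) m.unpair.2) 1) else 0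

open TopologicalSpace

/-- The difference quotients of a continuously differentiable function are bounded. -/
lemma lipT_bdd {d : ℕ} {φ : Eu d → ℝ} (hφ : ContDiff ℝ 1 φ) :
    ∃ C, ∀ m, |lc φ (lipT d m)| ≤ C := by
  obtain ⟨K, hK⟩ := (hφ.locallyLipschitz.locallyLipschitzOn
    (s := Metric.closedBall (0 : Eu d) 2)).exists_lipschitzOnWith_of_compact
      (isCompact_closedBall _ _)
  refine ⟨K, fun m => ?_⟩
  unfold lipT
  split_ifs with h
  · obtain ⟨h1, h2, h3⟩ := h
    set p := denseSeq (Eu d) m.unpair.1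
    set q := denseSeq (Eu d) m.unpair.2
    have hpq : 0 < ‖p - q‖ := norm_pos_iff.2 (sub_ne_zero.2 h3)
    simp only [lc, map_smul, map_sub, Finsupp.linearCombination_single, smul_eq_mul, one_mul]
    rw [abs_mul, abs_inv, abs_norm, inv_mul_le_iff₀ hpq]
    have := hK.dist_le_mul p (by simpa using h1.le) q (by simpa using h2.le)
    rw [Real.dist_eq, dist_eq_norm] at this
    linarith
  · simp [lc]

/-- Bounds for the difference quotients give a Lipschitz bound. -/
lemma lip_of_lipT {d : ℕ} {φ : Eu d → ℝ} (hφ : Continuous φ) {C : ℝ} 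
    (h : ∀ m, |lc φ (lipT d m)| ≤ C) {p q : Eu d} (hp : ‖p‖ < 2) (hq : ‖q‖ < 2) :
    |φ p - φ q| ≤ C * ‖p - q‖ := by
  have hC : 0 ≤ C := (abs_nonneg _).trans (h 0)
  set S : Set (Eu d × Eu d) := {z | |φ z.1 - φ z.2| ≤ C * ‖z.1 - z.2‖} with hS
  have hSc : IsClosed S := by
    have c1 : Continuous fun z : Eu d × Eu d => |φ z.1 - φ z.2| := by fun_prop
    have c2 : Continuous fun z : Eu d × Eu d => C * ‖z.1 - z.2‖ := by fun_prop
    exact isClosed_le c1 c2
  set B : Set (Eu d × Eu d) := {z | ‖z.1‖ < 2 ∧ ‖z.2‖ < 2} with hB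
  have hBo : IsOpen B := by
    have c1 : Continuous fun z : Eu d × Eu d => ‖z.1‖ := by fun_prop
    have c2 : Continuous fun z : Eu d × Eu d => ‖z.2‖ := by fun_prop
    exact (isOpen_lt c1 continuous_const).inter (isOpen_lt c2 continuous_const)
  have hdense : Dense (range (denseSeq (Eu d)) ×ˢ range (denseSeq (Eu d))) :=
    (denseRange_denseSeq (Eu d)).prod (denseRange_denseSeq (Eu d))
  have hsub : B ∩ (range (denseSeq (Eu d)) ×ˢ range (denseSeq (Eu d))) ⊆ S := by
    rintro ⟨x, y⟩ ⟨⟨h1, h2⟩, ⟨i, hi⟩, ⟨j, hj⟩⟩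
    simp only at hi hj h1 h2
    subst hi hj
    have hm := h (Nat.pair i j)
    unfold lipT at hm
    rw [Nat.unpair_pair] at hm
    simp only at hm
    show |φ (denseSeq (Eu d) i) - φ (denseSeq (Eu d) j)|
      ≤ C * ‖denseSeq (Eu d) i - denseSeq (Eu d) j‖
    by_cases h3 : denseSeq (Eu d) i = denseSeq (Eu d) j
    · rw [h3]; simp
    · rw [if_pos ⟨h1, h2, h3⟩] at hm
      have hpq : 0 < ‖denseSeq (Eu d) i - denseSeq (Eu d) j‖ :=
        norm_pos_iff.2 (sub_ne_zero.2 h3)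
      simp only [lc, map_smul, map_sub, Finsupp.linearCombination_single, smul_eq_mul,
        one_mul] at hm
      rw [abs_mul, abs_inv, abs_norm, inv_mul_le_iff₀ hpq] at hm
      linarith
  have hcl : B ⊆ closure (B ∩ (range (denseSeq (Eu d)) ×ˢ range (denseSeq (Eu d)))) :=
    hdense.open_subset_closure_inter hBo
  have := hSc.closure_subset_iff.2 hsub (hcl (⟨hp, hq⟩ : (p, q) ∈ B))
  exact this

end Lip

end Pool.Agent.Lib_MP_71c74a_pr
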