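import Mathlib

/-!
# Finite nets in Euclidean balls
-/

namespace Pool.Agent.Lib_MP_71c74a_pr

/-- Euclidean norms are at most the sum of the absolute values of the coordinates. -/
lemma euclid_norm_le_sum {d : ℕ} (x : EuclideanSpace ℝ (Fin d)) : ‖x‖ ≤ ∑ i, |x i| := by
  have h : x = ∑ i, (x i) • (EuclideanSpace.single i (1 : ℝ) : EuclideanSpace ℝ (Fin d)) := by
    ext k
    simp [Finset.sum_apply, Pi.single_apply]
  calc ‖x‖ = ‖∑ i, (x i) • (EuclideanSpace.single i (1 : ℝ) : EuclideanSpace ℝ (Fin d))‖ := by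
        rw [← h]
    _ ≤ ∑ i, ‖(x i) • (EuclideanSpace.single i (1 : ℝ) : EuclideanSpace ℝ (Fin d))‖ :=
        norm_sum_le _ _
    _ = ∑ i, |x i| := by
        refine Finset.sum_congr rfl fun i _ => ?_
        rw [norm_smul, PiLp.norm_single, norm_one, mul_one, Real.norm_eq_abs]

/-- A finite net of a Euclidean ball. -/
lemma exists_net (d : ℕ) {r δ : ℝ} (hδ : 0 < δ) (hr : δ ≤ r) :
    ∃ F : Finset (EuclideanSpace ℝ (Fin d)), (F.card : ℝ) ≤ (5 * d * (r / δ)) ^ d ∧
      ∀ x : EuclideanSpace ℝ (Fin d), ‖x‖ ≤ r → ∃ b ∈ F, ‖x - b‖ ≤ δ := by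
  classical
  rcases Nat.eq_zero_or_pos d with hd | hd
  · subst hd
    refine ⟨{0}, by simp, fun x _ => ⟨0, by simp, ?_⟩⟩
    have : x = 0 := Subsingleton.elim _ _
    rw [this]; simp [hδ.le]
  have hd' : (1 : ℝ) ≤ d := by exact_mod_cast hd
  set η := δ / d with hη
  have hη0 : 0 < η := by positivity
  set m := ⌈r / η⌉₊ with hm
  set pt : (Fin d → Fin (2 * m + 1)) → EuclideanSpace ℝ (Fin d) :=
    fun k => WithLp.toLp 2 (fun i => η * ((k i : ℝ) - m)) with hpt
  refine ⟨Finset.univ.image pt, ?_, ?_⟩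
  · have h1 : (Finset.univ.image pt).card ≤ (2 * m + 1) ^ d := by
      refine Finset.card_image_le.trans ?_
      simp
    have h2 : ((2 * m + 1 : ℕ) : ℝ) ≤ 5 * d * (r / δ) := by
      have h3 : (m : ℝ) < r / η + 1 := Nat.ceil_lt_add_one (by
        have : 0 < r := lt_of_lt_of_le hδ hr
        positivity)
      have h4 : r / η = d * (r / δ) := by rw [hη]; field_simp
      have h5 : 1 ≤ r / δ := by rwa [one_le_div hδ]
      have h6 : 1 ≤ d * (r / δ) := by nlinarith
      push_cast
      rw [h4] at h3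
      linarith
    calc ((Finset.univ.image pt).card : ℝ) ≤ ((2 * m + 1 : ℕ) : ℝ) ^ d := by exact_mod_cast h1
      _ ≤ _ := by gcongr
  · intro x hx
    have hxi : ∀ i, |x i| ≤ r := fun i => by
      have := PiLp.norm_apply_le x i
      rw [Real.norm_eq_abs] at this
      exact this.trans hx
    have hfl : ∀ i, -(m : ℤ) ≤ ⌊x i / η⌋ ∧ ⌊x i / η⌋ ≤ m := by
      intro i
      have h1 : r / η ≤ m := Nat.le_ceil _
      constructor
      · rw [Int.le_floor]
        push_cast
        have h2 : -(r / η) ≤ x i / η := by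
          rw [← neg_div]
          gcongr
          exact (abs_le.1 (hxi i)).1
        linarith
      · have h2 : x i / η ≤ m := by
          refine le_trans ?_ h1
          gcongr
          exact (abs_le.1 (hxi i)).2
        have h3 : (⌊x i / η⌋ : ℝ) ≤ m := (Int.floor_le _).trans h2
        exact_mod_cast h3
    refine ⟨pt (fun i => ⟨(⌊x i / η⌋ + m).toNat, by have := hfl i; omega⟩),
      Finset.mem_image_of_mem _ (Finset.mem_univ _), ?_⟩
    refine (euclid_norm_le_sum _).trans ?_
    have h1 : ∀ i ∈ (Finset.univ : Finset (Fin d)),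
        |(x - pt (fun i => ⟨(⌊x i / η⌋ + m).toNat, by have := hfl i; omega⟩)) i| ≤ η := by
      intro i _
      have h2 := hfl i
      have h3 : (((⌊x i / η⌋ + m).toNat : ℕ) : ℝ) = (⌊x i / η⌋ : ℝ) + m := by
        have : (((⌊x i / η⌋ + m).toNat : ℕ) : ℤ) = ⌊x i / η⌋ + m := Int.toNat_of_nonneg (by omega)
        exact_mod_cast this
      have h4 : (x - pt (fun i => ⟨(⌊x i / η⌋ + m).toNat, by have := hfl i; omega⟩)) i
          = η * (x i / η - ⌊x i / η⌋) := by
        rw [PiLp.sub_apply, hpt]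
        simp only
        rw [h3]
        field_simp
        ring
      rw [h4, abs_of_nonneg (mul_nonneg hη0.le (sub_nonneg.2 (Int.floor_le _)))]
      have h5 := Int.lt_floor_add_one (x i / η)
      calc η * (x i / η - ⌊x i / η⌋) ≤ η * 1 := by
            apply mul_le_mul_of_nonneg_left _ hη0.le
            linarith
        _ = η := mul_one _
    refine (Finset.sum_le_sum h1).trans (le_of_eq ?_)
    rw [Finset.sum_const, Finset.card_univ, Fintype.card_fin, nsmul_eq_mul, hη]
    field_simp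

end Pool.Agent.Lib_MP_71c74a_pr
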