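import Pool.Agent.Lib_MP_71c74a_pr.Defs
import Pool.Agent.Lib_MP_71c74a_pr.FieldOps
import Pool.Agent.Lib_MP_71c74a_pr.Net

/-!
# The slab functions and their covariances
-/

open MeasureTheory ProbabilityTheory Set
open scoped ENNReal NNReal Topology

namespace Pool.Agent.Lib_MP_71c74a_pr

variable {d : ℕ} {K : Eu d → ℝ}

lemma volume_prod_isAddHaar (d : ℕ) : (volume : Measure (Eu d × ℝ)).IsAddHaarMeasure := by
  rw [Measure.volume_eq_prod]
  infer_instance

/-- The integrand restricted to the times in `[2^{-(j+1)}, 2^{-j})`. -/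
noncomputable def slab (K : Eu d → ℝ) (j : ℕ) (x : Eu d) (p : Eu d × ℝ) : ℝ :=
  if (1 / 2) ^ (j + 1) ≤ p.2 ∧ p.2 < (1 / 2) ^ j then
    K (p.2⁻¹ • (p.1 - x)) * p.2 ^ (-((d : ℝ) + 1) / 2) else 0

lemma cube_norm {r : ℝ} {x : Eu d} (hx : x ∈ cube d r) : ‖x‖ ≤ d * r := by
  refine (euclid_norm_le_sum x).trans ?_
  have : ∀ i ∈ (Finset.univ : Finset (Fin d)), |x i| ≤ r := fun i _ => (hx i).le
  refine (Finset.sum_le_sum this).trans (le_of_eq ?_)
  simp

/-- The kernel vanishes outside of a ball. -/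
lemma IsKernel.exists_radius (hK : IsKernel K) : ∃ r, 0 < r ∧ ∀ x, r < ‖x‖ → K x = 0 := by
  obtain ⟨r, hr, h⟩ := hK.supp
  refine ⟨d * r + 1, by positivity, fun x hx => h x fun hmem => ?_⟩
  have := cube_norm hmem
  linarith

lemma IsKernel.continuous (hK : IsKernel K) : Continuous K := hK.smooth.continuous

lemma IsKernel.hasCompactSupport (hK : IsKernel K) : HasCompactSupport K := by
  obtain ⟨r, _, h⟩ := hK.exists_radius
  apply HasCompactSupport.of_support_subset_isCompact (isCompact_closedBall (0 : Eu d) r)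
  intro x hx
  rw [mem_closedBall_zero_iff]
  by_contra hcon
  exact hx (h x (not_le.1 hcon))

lemma IsKernel.exists_lip (hK : IsKernel K) : ∃ Λ : ℝ, 0 < Λ ∧ ∀ x y, |K x - K y| ≤ Λ * ‖x - y‖ := by
  obtain ⟨C, hC⟩ := hK.smooth.lipschitzWith_of_hasCompactSupport hK.hasCompactSupport (by simp)
  refine ⟨C + 1, by positivity, fun x y => ?_⟩
  have := hC.dist_le_mul x y
  rw [Real.dist_eq, dist_eq_norm] at this
  have := norm_nonneg (x - y)
  linarith

lemma IsKernel.exists_bound (hK : IsKernel K) : ∃ B : ℝ, 0 < B ∧ ∀ x, K x ≤ B := by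
  obtain ⟨C, hC⟩ := hK.hasCompactSupport.exists_bound_of_continuous hK.continuous
  refine ⟨|C| + 1, by positivity, fun x => ?_⟩
  have h1 := hC x
  rw [Real.norm_eq_abs] at h1
  have := le_abs_self (K x)
  have := le_abs_self C
  linarith

lemma measurable_slab (hK : IsKernel K) (j : ℕ) (x : Eu d) : Measurable (slab K j x) := by
  unfold slab
  have hKm : Measurable K := hK.continuous.measurable
  refine Measurable.ite ?_ ?_ measurable_const
  · exact (measurableSet_le measurable_const measurable_snd).inter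
      (measurableSet_lt measurable_snd measurable_const)
  · fun_prop

lemma slab_nonneg (hK : IsKernel K) (j : ℕ) (x : Eu d) (p : Eu d × ℝ) : 0 ≤ slab K j x p := by
  unfold slab
  split_ifs with h
  · have : 0 < p.2 := lt_of_lt_of_le (by positivity) h.1
    exact mul_nonneg (hK.nonneg _) (Real.rpow_nonneg this.le _)
  · exact le_rfl

/-- The set outside of which the slab function vanishes. -/
def slabSet (d : ℕ) (ρ : ℝ) (j : ℕ) (x : Eu d) : Set (Eu d × ℝ) :=
  Metric.closedBall x ρ ×ˢ Icc ((1 / 2) ^ (j + 1)) 1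

lemma measure_slabSet_lt_top (ρ : ℝ) (j : ℕ) (x : Eu d) :
    (volume : Measure (Eu d × ℝ)) (slabSet d ρ j x) < ∞ := by
  apply IsCompact.measure_lt_top
  exact (isCompact_closedBall _ _).prod isCompact_Icc

lemma slab_eq_zero {r : ℝ} (hr0 : 0 < r) (hr : ∀ x, r < ‖x‖ → K x = 0) {j : ℕ} {x : Eu d}
    {p : Eu d × ℝ} (hp : p ∉ slabSet d r j x) : slab K j x p = 0 := by
  unfold slab
  split_ifs with h
  · have hp2 : 0 < p.2 := lt_of_lt_of_le (by positivity) h.1
    have hp1 : p.2 ≤ 1 := h.2.le.trans (pow_le_one₀ (by norm_num) (by norm_num))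
    have h1 : r < ‖p.2⁻¹ • (p.1 - x)‖ := by
      rw [norm_smul, norm_inv, Real.norm_eq_abs, abs_of_pos hp2, lt_inv_mul_iff₀ hp2]
      have h2 : r < ‖p.1 - x‖ := by
        by_contra hcon
        push Not at hcon
        apply hp
        refine ⟨?_, h.1, hp1⟩
        rwa [Metric.mem_closedBall, dist_eq_norm]
      nlinarith
    rw [hr _ h1, zero_mul]
  · rfl

lemma rpow_slab_le {j : ℕ} {t : ℝ} (h : (1 / 2) ^ (j + 1) ≤ t) :
    t ^ (-((d : ℝ) + 1) / 2) ≤ (((1 / 2) ^ (j + 1) : ℝ)) ^ (-((d : ℝ) + 1) / 2) := by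
  apply Real.rpow_le_rpow_of_nonpos (by positivity) h
  have : (0 : ℝ) ≤ d := Nat.cast_nonneg d
  linarith

lemma slab_le (hK : IsKernel K) {B : ℝ} (hB : ∀ x, K x ≤ B) (hB0 : 0 < B) (j : ℕ) (x : Eu d)
    (p : Eu d × ℝ) : slab K j x p ≤ B * (((1 / 2) ^ (j + 1) : ℝ)) ^ (-((d : ℝ) + 1) / 2) := by
  unfold slab
  split_ifs with h
  · have hp2 : 0 < p.2 := lt_of_lt_of_le (by positivity) h.1
    apply mul_le_mul (hB _) (rpow_slab_le h.1) (Real.rpow_nonneg hp2.le _) hB0.le
  · positivity

lemma integrable_slab_mul (hK : IsKernel K) (j j' : ℕ) (x x' : Eu d) :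
    Integrable (fun p => slab K j x p * slab K j' x' p) (volume : Measure (Eu d × ℝ)) := by
  obtain ⟨r, hr0, hr⟩ := hK.exists_radius
  obtain ⟨B, hB0, hB⟩ := hK.exists_bound
  set A := B * (((1 / 2) ^ (j + 1) : ℝ)) ^ (-((d : ℝ) + 1) / 2) with hA
  set A' := B * (((1 / 2) ^ (j' + 1) : ℝ)) ^ (-((d : ℝ) + 1) / 2) with hA'
  have hA0 : 0 ≤ A := by positivity
  have hSm : MeasurableSet (slabSet d r j x) :=
    Metric.isClosed_closedBall.measurableSet.prod measurableSet_Icc
  have hint : Integrable ((slabSet d r j x).indicator (fun _ => A * A'))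
      (volume : Measure (Eu d × ℝ)) := by
    rw [integrable_indicator_iff hSm]
    exact integrableOn_const (measure_slabSet_lt_top r j x).ne
  refine hint.mono' ((measurable_slab hK j x).mul (measurable_slab hK j' x')).aestronglyMeasurable
    (Filter.Eventually.of_forall fun p => ?_)
  by_cases hp : p ∈ slabSet d r j x
  · rw [indicator_of_mem hp, Real.norm_eq_abs,
      abs_of_nonneg (mul_nonneg (slab_nonneg hK j x p) (slab_nonneg hK j' x' p))]
    exact mul_le_mul (slab_le hK hB hB0 j x p) (slab_le hK hB hB0 j' x' p)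
      (slab_nonneg hK j' x' p) hA0
  · rw [indicator_of_notMem hp, slab_eq_zero hr0 hr hp]
    simp

lemma slab_of_nonpos (j : ℕ) (x : Eu d) {p : Eu d × ℝ} (hp : p.2 ≤ 0) : slab K j x p = 0 := by
  unfold slab
  rw [if_neg]
  intro h
  have : (0 : ℝ) < (1 / 2) ^ (j + 1) := by positivity
  linarith [h.1]

/-- Integrals of products of slab functions may be computed over the whole space. -/
lemma setIntegral_slab_mul (K : Eu d → ℝ) (j j' : ℕ) (x x' : Eu d) :
    ∫ p, slab K j x p * slab K j' x' p ∂(stMeasure d) = ∫ p, slab K j x p * slab K j' x' p := by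
  unfold stMeasure
  rw [setIntegral_eq_integral_of_forall_compl_eq_zero]
  intro p hp
  have : p.2 ≤ 0 := by
    by_contra hcon
    push Not at hcon
    exact hp ⟨mem_univ _, hcon⟩
  rw [slab_of_nonpos j x this, zero_mul]

lemma memLp_slab (hK : IsKernel K) (j : ℕ) (x : Eu d) : MemLp (slab K j x) 2 (stMeasure d) := by
  rw [memLp_two_iff_integrable_sq (measurable_slab hK j x).aestronglyMeasurable]
  have := (integrable_slab_mul hK j j x x).restrict (s := univ ×ˢ Ioi 0)
  refine this.congr (Filter.Eventually.of_forall fun p => ?_)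
  simp only
  ring

/-- The slab function as an element of the space of square integrable functions. -/
noncomputable def slabLp (hK : IsKernel K) (j : ℕ) (x : Eu d) : Lp ℝ 2 (stMeasure d) :=
  (memLp_slab hK j x).toLp (slab K j x)

lemma inner_slabLp (hK : IsKernel K) (j j' : ℕ) (x x' : Eu d) :
    inner ℝ (slabLp hK j x) (slabLp hK j' x') = ∫ p, slab K j x p * slab K j' x' p := by
  rw [← setIntegral_slab_mul, L2.inner_def]
  refine integral_congr_ae ?_
  filter_upwards [(memLp_slab hK j x).coeFn_toLp, (memLp_slab hK j' x').coeFn_toLp] with p h1 h2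
  show inner ℝ ((slabLp hK j x : Eu d × ℝ → ℝ) p) ((slabLp hK j' x' : Eu d × ℝ → ℝ) p) = _
  unfold slabLp
  rw [h1, h2]
  simp [mul_comm]

/-- Different scales are orthogonal. -/
lemma inner_slabLp_ne (hK : IsKernel K) {j j' : ℕ} (hjj' : j ≠ j') (x x' : Eu d) :
    inner ℝ (slabLp hK j x) (slabLp hK j' x') = 0 := by
  rw [inner_slabLp]
  have : ∀ p, slab K j x p * slab K j' x' p = 0 := by
    intro p
    unfold slab
    split_ifs with h1 h2
    · exfalso
      rcases lt_or_gt_of_ne hjj' with h | h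
      · have : (1 / 2 : ℝ) ^ j' ≤ (1 / 2) ^ (j + 1) :=
          pow_le_pow_of_le_one (by norm_num) (by norm_num) h
        linarith [h1.1, h2.2]
      · have : (1 / 2 : ℝ) ^ j ≤ (1 / 2) ^ (j' + 1) :=
          pow_le_pow_of_le_one (by norm_num) (by norm_num) h
        linarith [h1.2, h2.1]
    all_goals simp
  simp [this]

/-- Scaling. -/
lemma inner_slabLp_scale (hK : IsKernel K) (j : ℕ) (x x' : Eu d) :
    inner ℝ (slabLp hK j ((1 / 2 : ℝ) ^ j • x)) (slabLp hK j ((1 / 2 : ℝ) ^ j • x'))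
      = inner ℝ (slabLp hK 0 x) (slabLp hK 0 x') := by
  rw [inner_slabLp, inner_slabLp]
  set s : ℝ := (1 / 2) ^ j with hs
  have hs0 : 0 < s := by positivity
  have hpt : ∀ (y : Eu d) (q : Eu d × ℝ), slab K j (s • y) (s • q)
      = slab K 0 y q * s ^ (-((d : ℝ) + 1) / 2) := by
    intro y q
    unfold slab
    simp only [Prod.smul_fst, Prod.smul_snd, smul_eq_mul, zero_add, pow_one, pow_zero]
    have hiff : ((1 / 2 : ℝ) ^ (j + 1) ≤ s * q.2 ∧ s * q.2 < (1 / 2) ^ j)
        ↔ (1 / 2 ≤ q.2 ∧ q.2 < 1) := by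
      rw [pow_succ, ← hs]
      constructor
      · rintro ⟨h1, h2⟩
        exact ⟨le_of_mul_le_mul_left h1 hs0, by
          have : s * q.2 < s * 1 := by rwa [mul_one]
          exact lt_of_mul_lt_mul_left this hs0.le⟩
      · rintro ⟨h1, h2⟩
        exact ⟨mul_le_mul_of_nonneg_left h1 hs0.le, by
          have : s * q.2 < s * 1 := mul_lt_mul_of_pos_left h2 hs0
          rwa [mul_one] at this⟩
    by_cases h : (1 / 2 ≤ q.2 ∧ q.2 < 1)
    · rw [if_pos (hiff.2 h), if_pos h]
      have hq : 0 < q.2 := by linarith [h.1]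
      have e1 : (s * q.2)⁻¹ • (s • q.1 - s • y) = q.2⁻¹ • (q.1 - y) := by
        rw [← smul_sub, smul_smul]
        congr 1
        field_simp
      rw [e1, Real.mul_rpow hs0.le hq.le]
      ring
    · rw [if_neg (fun h' => h (hiff.1 h')), if_neg h, zero_mul]
  have hHaar := volume_prod_isAddHaar d
  have h := Measure.integral_comp_smul_of_nonneg (volume : Measure (Eu d × ℝ))
    (fun p => slab K j (s • x) p * slab K j (s • x') p) s (hR := hs0.le)
  have hfin : Module.finrank ℝ (Eu d × ℝ) = d + 1 := by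
    rw [Module.finrank_prod]; simp
  rw [hfin, smul_eq_mul] at h
  have h2 : ∫ q, slab K j (s • x) (s • q) * slab K j (s • x') (s • q)
      = (s ^ (d + 1))⁻¹ * ∫ q, slab K 0 x q * slab K 0 x' q := by
    rw [← integral_const_mul]
    refine integral_congr_ae (Filter.Eventually.of_forall fun q => ?_)
    simp only
    rw [hpt, hpt]
    have e2 : s ^ (-((d : ℝ) + 1) / 2) * s ^ (-((d : ℝ) + 1) / 2) = (s ^ (d + 1))⁻¹ := by
      rw [← Real.rpow_add hs0, ← Real.rpow_natCast, ← Real.rpow_neg hs0.le]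
      congr 1
      push_cast
      ring
    calc slab K 0 x q * s ^ (-((d : ℝ) + 1) / 2) * (slab K 0 x' q * s ^ (-((d : ℝ) + 1) / 2))
        = (s ^ (-((d : ℝ) + 1) / 2) * s ^ (-((d : ℝ) + 1) / 2))
          * (slab K 0 x q * slab K 0 x' q) := by ring
      _ = _ := by rw [e2]
  rw [h2] at h
  exact (mul_left_cancel₀ (by positivity) h).symm

/-- Translations. -/
lemma inner_slabLp_shift (hK : IsKernel K) (b x x' : Eu d) :
    inner ℝ (slabLp hK 0 (b + x)) (slabLp hK 0 (b + x'))
      = inner ℝ (slabLp hK 0 x) (slabLp hK 0 x') := by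
  rw [inner_slabLp, inner_slabLp]
  have hHaar := volume_prod_isAddHaar d
  have h := integral_sub_right_eq_self (μ := (volume : Measure (Eu d × ℝ)))
    (fun p => slab K 0 x p * slab K 0 x' p) (b, 0)
  rw [← h]
  refine integral_congr_ae (Filter.Eventually.of_forall fun p => ?_)
  have e : ∀ y, slab K 0 (b + y) p = slab K 0 y (p - (b, 0)) := by
    intro y
    unfold slab
    have e1 : (p - (b, (0 : ℝ))).2 = p.2 := by simp
    have e2 : (p - (b, (0 : ℝ))).1 - y = p.1 - (b + y) := by simp; abel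
    rw [e1, e2]
  simp only [e]

end Pool.Agent.Lib_MP_71c74a_pr
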