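import Pool.Agent.Lib_MP_71c74a_pr.GaussVec
import Pool.Agent.Lib_MP_71c74a_pr.ScalesDef
import Pool.Agent.Lib_MP_71c74a_pr.Slab

/-!
# From white noise to the fields
-/

open MeasureTheory ProbabilityTheory Set
open scoped ENNReal NNReal Topology

namespace Pool.Agent.Lib_MP_71c74a_pr

variable {d : ℕ} {Ω : Type*} [MeasurableSpace Ω] {P : Measure Ω}
  {W : (Eu d × ℝ → ℝ) → Ω → ℝ} {K : Eu d → ℝ} {h : ℕ → Eu d → Ω → ℝ}

lemma IsWhiteNoise.ae_zero (hW : IsWhiteNoise P W) {f : Eu d × ℝ → ℝ}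
    (hf : MemLp f 2 (stMeasure d)) (h0 : f =ᵐ[stMeasure d] 0) : W f =ᵐ[P] 0 := by
  have h1 := hW.law f hf
  have h2 : ∫ p, f p ^ 2 ∂(stMeasure d) = 0 := by
    rw [integral_eq_zero_of_ae]
    filter_upwards [h0] with p hp
    simp [hp]
  rw [h2, Real.toNNReal_zero, gaussianReal_zero_var] at h1
  have h3 : ∀ᵐ y ∂(P.map (W f)), y = 0 := by
    rw [h1, ae_dirac_eq]
    exact Filter.eventually_pure.2 rfl
  exact ae_of_ae_map (hW.meas f hf).aemeasurable h3

lemma IsWhiteNoise.congr_ae (hW : IsWhiteNoise P W) {f g : Eu d × ℝ → ℝ}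
    (hf : MemLp f 2 (stMeasure d)) (hg : MemLp g 2 (stMeasure d)) (hfg : f =ᵐ[stMeasure d] g) :
    W f =ᵐ[P] W g := by
  have hfg' : MemLp (fun p => 1 * f p + (-1) * g p) 2 (stMeasure d) :=
    (hf.const_mul 1).add (hg.const_mul (-1))
  have h1 := hW.lin f g 1 (-1) hf hg
  have h2 := hW.ae_zero hfg' (by
    filter_upwards [hfg] with p hp
    simp [hp])
  filter_upwards [h1, h2] with ω h3 h4
  rw [h4] at h3
  simp only [Pi.zero_apply, one_mul, neg_mul] at h3
  linarith

/-- Joint law of white noise integrals. -/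
lemma IsWhiteNoise.exists_rep (hW : IsWhiteNoise P W) {ι : Type*} {f : ι → Eu d × ℝ → ℝ}
    (hf : ∀ i, MemLp (f i) 2 (stMeasure d)) {Y : ι → Ω → ℝ} (hY : ∀ i, Y i =ᵐ[P] W (f i))
    (a : ι →₀ ℝ) :
    ∃ g, MemLp g 2 (stMeasure d) ∧ (fun ω => lc (fun i => Y i ω) a) =ᵐ[P] W g ∧
      g =ᵐ[stMeasure d] (lc (fun i => (hf i).toLp (f i)) a : Lp ℝ 2 (stMeasure d)) := by
  induction a using Finsupp.induction_linear with
  | zero =>
    refine ⟨0, MemLp.zero, ?_, ?_⟩
    · have := hW.ae_zero (f := (0 : Eu d × ℝ → ℝ)) MemLp.zero (Filter.EventuallyEq.rfl)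
      filter_upwards [this] with ω hω
      rw [hω]
      simp [lc]
    · simp only [lc, map_zero]
      exact (Lp.coeFn_zero ℝ 2 (stMeasure d)).symm
  | add a b iha ihb =>
    obtain ⟨g, hg1, hg2, hg3⟩ := iha
    obtain ⟨g', hg1', hg2', hg3'⟩ := ihb
    refine ⟨fun p => 1 * g p + 1 * g' p, (hg1.const_mul 1).add (hg1'.const_mul 1), ?_, ?_⟩
    · filter_upwards [hg2, hg2', hW.lin g g' 1 1 hg1 hg1'] with ω h1 h2 h3
      rw [h3, ← h1, ← h2]
      simp [lc]
    · simp only [lc, map_add]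
      filter_upwards [hg3, hg3', Lp.coeFn_add (lc (fun i => (hf i).toLp (f i)) a)
        (lc (fun i => (hf i).toLp (f i)) b)] with p h1 h2 h3
      rw [h3, Pi.add_apply, ← h1, ← h2]
      simp
  | single i r =>
    refine ⟨fun p => r * f i p + 0 * f i p, ((hf i).const_mul r).add ((hf i).const_mul 0), ?_, ?_⟩
    · filter_upwards [hY i, hW.lin (f i) (f i) r 0 (hf i) (hf i)] with ω h1 h2
      rw [h2, ← h1]
      simp [lc]
    · simp only [lc, Finsupp.linearCombination_single]
      filter_upwards [Lp.coeFn_smul r ((hf i).toLp (f i)), (hf i).coeFn_toLp] with p h1 h2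
      rw [h1, Pi.smul_apply, h2]
      simp

lemma IsWhiteNoise.map_lc (hW : IsWhiteNoise P W) {ι : Type*} {f : ι → Eu d × ℝ → ℝ}
    (hf : ∀ i, MemLp (f i) 2 (stMeasure d)) {Y : ι → Ω → ℝ} (hY : ∀ i, Y i =ᵐ[P] W (f i))
    (a : ι →₀ ℝ) :
    P.map (fun ω => lc (fun i => Y i ω) a)
      = gaussianReal 0 (‖lc (fun i => (hf i).toLp (f i)) a‖₊ ^ 2) := by
  obtain ⟨g, hg1, hg2, hg3⟩ := hW.exists_rep hf hY a
  rw [Measure.map_congr hg2, hW.law g hg1]
  congr 1
  set F : Lp ℝ 2 (stMeasure d) := lc (fun i => (hf i).toLp (f i)) a with hF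
  have h1 : ‖F‖ ^ 2 = ∫ p, g p ^ 2 ∂(stMeasure d) := by
    rw [← real_inner_self_eq_norm_sq, L2.inner_def]
    refine integral_congr_ae ?_
    filter_upwards [hg3] with p hp
    rw [hp]
    simp [sq]
  rw [← h1]
  ext
  simp

/-- The increments of the field. -/
noncomputable def incr (h : ℕ → Eu d → Ω → ℝ) (j : ℕ) (x : Eu d) (ω : Ω) : ℝ :=
  if j = 0 then h 1 x ω else h (j + 1) x ω - h j x ω

omit [MeasurableSpace Ω] in
lemma sum_incr (h : ℕ → Eu d → Ω → ℝ) (n : ℕ) (hn : 1 ≤ n) (x : Eu d) (ω : Ω) :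
    ∑ j ∈ Finset.range n, incr h j x ω = h n x ω := by
  induction n, hn using Nat.le_induction with
  | base => simp [incr]
  | succ n hn ih =>
    rw [Finset.sum_range_succ, ih, incr, if_neg (by omega)]
    ring

lemma integrand_sub (K : Eu d → ℝ) (j : ℕ) (x : Eu d) (p : Eu d × ℝ) :
    integrand K (j + 1) x p - integrand K j x p = slab K j x p := by
  unfold integrand slab
  have hpow : (1 / 2 : ℝ) ^ (j + 1) ≤ (1 / 2) ^ j :=
    pow_le_pow_of_le_one (by norm_num) (by norm_num) (Nat.le_succ j)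
  have hpow1 : (1 / 2 : ℝ) ^ j ≤ 1 := pow_le_one₀ (by norm_num) (by norm_num)
  by_cases h1 : (1 / 2 : ℝ) ^ (j + 1) ≤ p.2
  · by_cases h2 : p.2 < (1 / 2 : ℝ) ^ j
    · rw [if_pos ⟨h1, h2.le.trans hpow1⟩, if_neg (fun h => by linarith [h.1]), if_pos ⟨h1, h2⟩,
        sub_zero]
    · push Not at h2
      by_cases h3 : p.2 ≤ 1
      · rw [if_pos ⟨h1, h3⟩, if_pos ⟨h2, h3⟩, if_neg (fun h => by linarith [h.2]), sub_self]
      · rw [if_neg (fun h => h3 h.2), if_neg (fun h => h3 h.2), if_neg (fun h => by linarith [h.2]),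
          sub_zero]
  · rw [if_neg (fun h => h1 h.1), if_neg (fun h => h1 (hpow.trans h.1)), if_neg (fun h => h1 h.1),
      sub_zero]

/-- Times equal to one form a null set. -/
lemma integrand_zero_ae (K : Eu d → ℝ) (x : Eu d) : integrand K 0 x =ᵐ[stMeasure d] 0 := by
  have hnull : (stMeasure d) (univ ×ˢ {(1 : ℝ)}) = 0 := by
    unfold stMeasure
    refine le_antisymm ((Measure.restrict_le_self _).trans ?_) (zero_le)
    rw [Measure.volume_eq_prod, Measure.prod_prod]
    simp
  have : ∀ᵐ p ∂(stMeasure d), p ∉ (univ ×ˢ {(1 : ℝ)} : Set (Eu d × ℝ)) :=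
    measure_eq_zero_iff_ae_notMem.1 hnull
  filter_upwards [this] with p hp
  unfold integrand
  rw [if_neg, Pi.zero_apply]
  rintro ⟨h1, h2⟩
  apply hp
  simp only [pow_zero] at h1
  exact ⟨mem_univ _, le_antisymm h2 h1⟩

lemma memLp_integrand (hK : IsKernel K) (n : ℕ) (x : Eu d) :
    MemLp (integrand K n x) 2 (stMeasure d) := by
  induction n with
  | zero => exact MemLp.zero.ae_eq (integrand_zero_ae K x).symm
  | succ n ih =>
    have h1 := ih.add (memLp_slab hK n x)
    refine h1.ae_eq (Filter.Eventually.of_forall fun p => ?_)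
    have := integrand_sub K n x p
    simp only [Pi.add_apply]
    linarith

lemma incr_ae (hK : IsKernel K) (hW : IsWhiteNoise P W) (hh : IsField P K W h) (j : ℕ) (x : Eu d) :
    incr h j x =ᵐ[P] W (slab K j x) := by
  unfold incr
  rcases Nat.eq_zero_or_pos j with h0 | h0
  · subst h0
    simp only [if_true]
    refine (hh.eq 1 le_rfl x).trans ?_
    refine hW.congr_ae (memLp_integrand hK 1 x) (memLp_slab hK 0 x) ?_
    filter_upwards [integrand_zero_ae K x] with p hp
    have := integrand_sub K 0 x p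
    rw [hp] at this
    simp only [Pi.zero_apply, sub_zero, zero_add] at this
    exact this
  · have hj : ¬ j = 0 := by omega
    simp only [if_neg hj]
    have h1 := hW.lin (integrand K (j + 1) x) (integrand K j x) 1 (-1) (memLp_integrand hK _ x)
      (memLp_integrand hK _ x)
    have h2 : (fun p => 1 * integrand K (j + 1) x p + (-1) * integrand K j x p)
        = slab K j x := by
      ext p
      rw [← integrand_sub]
      ring
    rw [h2] at h1
    filter_upwards [h1, hh.eq (j + 1) (by omega) x, hh.eq j h0 x] with ω h3 h4 h5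
    rw [h3, h4, h5]
    ring

lemma lc_eq_sum' {ι : Type*} (u : ι → ℝ) (a : ι →₀ ℝ) : lc u a = ∑ x ∈ a.support, a x * u x := by
  simp [lc, Finsupp.linearCombination_apply, Finsupp.sum]

/-- The fields of the different scales. -/
theorem scales_of_noise (hK : IsKernel K) (hW : IsWhiteNoise P W) (hh : IsField P K W h) :
    Scales P (slabLp hK 0) (incr h) := by
  -- joint law
  have hjoint : ∀ a : (j : ℕ) × Eu d →₀ ℝ,
      P.map (fun ω => lc (fun i : (j : ℕ) × Eu d => incr h i.1 i.2 ω) a)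
        = gaussianReal 0 (‖lc (fun i : (j : ℕ) × Eu d => slabLp hK i.1 i.2) a‖₊ ^ 2) :=
    hW.map_lc (f := fun i : (j : ℕ) × Eu d => slab K i.1 i.2) (fun i => memLp_slab hK i.1 i.2)
      (fun i => incr_ae hK hW hh i.1 i.2)
  have hmeas : ∀ j x, Measurable (incr h j x) := by
    intro j x
    unfold incr
    rcases Nat.eq_zero_or_pos j with h0 | h0
    · subst h0
      simp only [if_true]
      exact hh.meas 1 le_rfl x
    · have hj : ¬ j = 0 := by omega
      simp only [if_neg hj]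
      exact (hh.meas (j + 1) (by omega) x).sub (hh.meas j h0 x)
  have hsmooth : ∀ j ω, ContDiff ℝ 1 (fun x => incr h j x ω) := by
    intro j ω
    unfold incr
    rcases Nat.eq_zero_or_pos j with h0 | h0
    · subst h0
      simp only [if_true]
      exact (hh.smooth 1 le_rfl ω).of_le (by exact_mod_cast le_top)
    · have hj : ¬ j = 0 := by omega
      simp only [if_neg hj]
      exact ((hh.smooth (j + 1) (by omega) ω).of_le (by exact_mod_cast le_top)).sub
        ((hh.smooth j h0 ω).of_le (by exact_mod_cast le_top))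
  refine ⟨fun j => ?_, ?_⟩
  · -- law of one field
    have h1 : FieldLaw P (slabLp hK j) (incr h j) := by
      refine ⟨hmeas j, hsmooth j, fun a => ?_⟩
      have := hjoint (a.mapDomain (fun x => (⟨j, x⟩ : (j : ℕ) × Eu d)))
      simp only [lc, Finsupp.linearCombination_mapDomain] at this
      exact this
    have h2 := h1.comp (f := fun x => (1 / 2 : ℝ) ^ j • x) (by fun_prop)
    exact h2.congr_inner (fun x y => inner_slabLp_scale hK j x y)
  · -- independence
    have hproc : IsGaussianProcess (fun (p : (j : ℕ) × Eu d) ω => incr h p.1 p.2 ω) P := by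
      refine ⟨fun I => ⟨?_⟩⟩
      exact isGaussian_vec (fun i => hmeas i.1 i.2) (fun a => ⟨_, hjoint a⟩) I
    have hprob := hproc.isProbabilityMeasure
    refine hproc.iIndepFun_of_covariance_eq_zero (X := fun j x => incr h j x)
      (fun j x => (hmeas j x).aemeasurable) ?_
    intro i j hij x y
    have hvar : ∀ a : (j : ℕ) × Eu d →₀ ℝ,
        Var[fun ω => lc (fun i : (j : ℕ) × Eu d => incr h i.1 i.2 ω) a; P]
          = ‖lc (fun i : (j : ℕ) × Eu d => slabLp hK i.1 i.2) a‖ ^ 2 := by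
      intro a
      have hm : Measurable (fun ω => lc (fun i : (j : ℕ) × Eu d => incr h i.1 i.2 ω) a) := by
        simp only [lc_eq_sum']
        exact Finset.measurable_sum _ fun i _ => (hmeas i.1 i.2).const_mul _
      have h1 := variance_map (X := id) (μ := P)
        (Y := fun ω => lc (fun i : (j : ℕ) × Eu d => incr h i.1 i.2 ω) a)
        aemeasurable_id hm.aemeasurable
      rw [hjoint, variance_id_gaussianReal] at h1
      have h2 : (id ∘ fun ω => lc (fun i : (j : ℕ) × Eu d => incr h i.1 i.2 ω) a)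
          = fun ω => lc (fun i : (j : ℕ) × Eu d => incr h i.1 i.2 ω) a := rfl
      rw [h2] at h1
      rw [← h1]
      simp
    have hL2 : ∀ i x, MemLp (incr h i x) 2 P := fun i x =>
      (hproc.hasGaussianLaw_eval ⟨i, x⟩).memLp_two
    have hadd := variance_add (hL2 i x) (hL2 j y)
    have v1 := hvar (Finsupp.single ⟨i, x⟩ 1)
    have v2 := hvar (Finsupp.single ⟨j, y⟩ 1)
    have v3 := hvar (Finsupp.single ⟨i, x⟩ 1 + Finsupp.single ⟨j, y⟩ 1)
    simp only [lc, map_add, Finsupp.linearCombination_single, one_smul] at v1 v2 v3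
    have e3 : (incr h i x + incr h j y) = fun ω => incr h i x ω + incr h j y ω := rfl
    rw [e3, v3] at hadd
    have e1 : Var[incr h i x; P] = ‖slabLp hK i x‖ ^ 2 := v1
    have e2 : Var[incr h j y; P] = ‖slabLp hK j y‖ ^ 2 := v2
    rw [e1, e2, norm_add_sq_real, inner_slabLp_ne hK hij] at hadd
    linarith

end Pool.Agent.Lib_MP_71c74a_pr
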