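import Pool.Agent.Lib_MP_71c74a_pr.Slab

/-!
# The covariance of the fields satisfies the standing assumptions
-/

open MeasureTheory ProbabilityTheory Set
open scoped ENNReal NNReal Topology

namespace Pool.Agent.Lib_MP_71c74a_pr

variable {d : ℕ} {K : Eu d → ℝ}

lemma IsKernel.exists_pos (hK : IsKernel K) : ∃ u, 0 < K u := by
  by_contra hcon
  push Not at hcon
  have h0 : ∀ x, K x = 0 := fun x => le_antisymm (hcon x) (hK.nonneg x)
  have := hK.norm_sq
  simp [h0] at this

lemma norm_slabLp_sq (hK : IsKernel K) (j : ℕ) (x : Eu d) :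
    ‖slabLp hK j x‖ ^ 2 = ∫ p, slab K j x p * slab K j x p := by
  rw [← real_inner_self_eq_norm_sq, inner_slabLp]

lemma v₀_pos (hK : IsKernel K) : 0 < ‖slabLp hK 0 0‖ ^ 2 := by
  rw [norm_slabLp_sq]
  obtain ⟨u, hu⟩ := hK.exists_pos
  have hint := integrable_slab_mul hK 0 0 0 0
  have hHaar := volume_prod_isAddHaar d
  rw [integral_pos_iff_support_of_nonneg
    (fun p => mul_nonneg (slab_nonneg hK 0 0 p) (slab_nonneg hK 0 0 p)) hint]
  set O : Set (Eu d × ℝ) := {p | 1 / 2 < p.2} ∩ {p | p.2 < 1} ∩ {p | 0 < K (p.2⁻¹ • p.1)} with hO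
  have hOo : IsOpen O := by
    have h1 : IsOpen ({p : Eu d × ℝ | 1 / 2 < p.2}) := isOpen_lt continuous_const continuous_snd
    have h2 : IsOpen ({p : Eu d × ℝ | p.2 < 1}) := isOpen_lt continuous_snd continuous_const
    have h3 : ContinuousOn (fun p : Eu d × ℝ => K (p.2⁻¹ • p.1))
        ({p : Eu d × ℝ | 1 / 2 < p.2} ∩ {p | p.2 < 1}) := by
      apply hK.continuous.comp_continuousOn
      have h4 : ContinuousOn (fun p : Eu d × ℝ => p.2⁻¹)
          ({p : Eu d × ℝ | 1 / 2 < p.2} ∩ {p | p.2 < 1}) := by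
        apply ContinuousOn.inv₀ continuous_snd.continuousOn
        rintro p ⟨hp, _⟩
        have : (1 / 2 : ℝ) < p.2 := hp
        linarith
      exact h4.smul continuous_fst.continuousOn
    exact h3.isOpen_inter_preimage (h1.inter h2) isOpen_Ioi
  have hOne : O.Nonempty := by
    refine ⟨((3 / 4 : ℝ) • u, 3 / 4), ⟨⟨?_, ?_⟩, ?_⟩⟩
    · show (1 / 2 : ℝ) < 3 / 4; norm_num
    · show (3 / 4 : ℝ) < 1; norm_num
    · show 0 < K ((3 / 4 : ℝ)⁻¹ • (3 / 4 : ℝ) • u)
      rw [smul_smul, inv_mul_cancel₀ (by norm_num), one_smul]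
      exact hu
  refine lt_of_lt_of_le (hOo.measure_pos _ hOne) (measure_mono ?_)
  rintro p ⟨⟨h1, h2⟩, h3⟩
  have h1' : (1 / 2 : ℝ) < p.2 := h1
  have h2' : p.2 < 1 := h2
  have h3' : 0 < K (p.2⁻¹ • p.1) := h3
  have hs : 0 < slab K 0 0 p := by
    unfold slab
    rw [if_pos ⟨by simpa using h1'.le, by simpa using h2'⟩, sub_zero]
    exact mul_pos h3' (Real.rpow_pos_of_pos (by linarith) _)
  exact (mul_pos hs hs).ne'

lemma slab_diff_sq (hK : IsKernel K) (x y : Eu d) :
    ‖slabLp hK 0 x - slabLp hK 0 y‖ ^ 2 = ∫ p, (slab K 0 x p - slab K 0 y p) ^ 2 := by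
  have i1 := integrable_slab_mul hK 0 0 x x
  have i2 := (integrable_slab_mul hK 0 0 x y).const_mul 2
  have i3 := integrable_slab_mul hK 0 0 y y
  have i12 : Integrable (fun p => slab K 0 x p * slab K 0 x p
      - 2 * (slab K 0 x p * slab K 0 y p)) (volume : Measure (Eu d × ℝ)) := i1.sub i2
  rw [norm_sub_sq_real, norm_slabLp_sq, norm_slabLp_sq, inner_slabLp, ← integral_const_mul,
    ← integral_sub i1 i2, ← integral_add i12 i3]
  refine integral_congr_ae (Filter.Eventually.of_forall fun p => ?_)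
  simp only
  ring

lemma slab_diff_le (hK : IsKernel K) : ∃ C, 0 < C ∧ ∀ x y,
    ‖slabLp hK 0 x - slabLp hK 0 y‖ ≤ C * ‖x - y‖ := by
  obtain ⟨r, hr0, hr⟩ := hK.exists_radius
  obtain ⟨Λ, hΛ0, hΛ⟩ := hK.exists_lip
  set A : ℝ := 2 * Λ * ((1 / 2 : ℝ)) ^ (-((d : ℝ) + 1) / 2) with hA
  have hA0 : 0 < A := by positivity
  set V : ℝ := (volume (slabSet d r 0 (0 : Eu d))).toReal with hV
  have hV0 : 0 ≤ V := ENNReal.toReal_nonneg
  have hHaar := volume_prod_isAddHaar d
  have hvol : ∀ x : Eu d, (volume (slabSet d r 0 x)).toReal = V := by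
    intro x
    rw [hV]
    congr 1
    have : slabSet d r 0 x = (fun p => p - (x, (0 : ℝ))) ⁻¹' slabSet d r 0 (0 : Eu d) := by
      ext p
      simp only [slabSet, mem_prod, Metric.mem_closedBall, mem_preimage, dist_eq_norm,
        Prod.fst_sub, Prod.snd_sub, sub_zero]
    rw [this]
    have h2 : (fun p : Eu d × ℝ => p - (x, (0 : ℝ))) = fun p => p + (-(x, (0 : ℝ))) := by
      ext p <;> simp [sub_eq_add_neg]
    rw [h2, measure_preimage_add_right]
  have hSm : ∀ x : Eu d, MeasurableSet (slabSet d r 0 x) := fun x =>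
    Metric.isClosed_closedBall.measurableSet.prod measurableSet_Icc
  refine ⟨A * √(2 * V) + 1, by positivity, fun x y => ?_⟩
  have hsq : ‖slabLp hK 0 x - slabLp hK 0 y‖ ^ 2 ≤ (A * √(2 * V) * ‖x - y‖) ^ 2 := by
    rw [slab_diff_sq]
    have hpt : ∀ p, (slab K 0 x p - slab K 0 y p) ^ 2
        ≤ (slabSet d r 0 x).indicator (fun _ => A ^ 2 * ‖x - y‖ ^ 2) p
          + (slabSet d r 0 y).indicator (fun _ => A ^ 2 * ‖x - y‖ ^ 2) p := by
      intro p
      have hnn : 0 ≤ A ^ 2 * ‖x - y‖ ^ 2 := by positivity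
      have hmain : (slab K 0 x p - slab K 0 y p) ^ 2 ≤ A ^ 2 * ‖x - y‖ ^ 2 := by
        rw [← mul_pow, ← sq_abs]
        apply pow_le_pow_left₀ (abs_nonneg _)
        unfold slab
        by_cases h : (1 / 2 : ℝ) ^ (0 + 1) ≤ p.2 ∧ p.2 < (1 / 2) ^ 0
        · rw [if_pos h, if_pos h]
          have hp2 : 0 < p.2 := lt_of_lt_of_le (by positivity) h.1
          have hp3 : 1 / 2 ≤ p.2 := by simpa using h.1
          rw [← sub_mul, abs_mul, abs_of_nonneg (Real.rpow_nonneg hp2.le _)]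
          have h1 := hΛ (p.2⁻¹ • (p.1 - x)) (p.2⁻¹ • (p.1 - y))
          have h2 : ‖p.2⁻¹ • (p.1 - x) - p.2⁻¹ • (p.1 - y)‖ ≤ 2 * ‖x - y‖ := by
            have e : p.2⁻¹ • (p.1 - x) - p.2⁻¹ • (p.1 - y) = p.2⁻¹ • (y - x) := by module
            rw [e, norm_smul, norm_inv, Real.norm_eq_abs, abs_of_pos hp2, norm_sub_rev]
            gcongr
            rw [inv_le_comm₀ hp2 (by norm_num)]
            linarith
          have h3 := rpow_slab_le (d := d) h.1
          calc |K (p.2⁻¹ • (p.1 - x)) - K (p.2⁻¹ • (p.1 - y))| * p.2 ^ (-((d : ℝ) + 1) / 2)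
              ≤ (Λ * (2 * ‖x - y‖)) * ((1 / 2 : ℝ) ^ (0 + 1)) ^ (-((d : ℝ) + 1) / 2) := by
                apply mul_le_mul _ h3 (Real.rpow_nonneg hp2.le _) (by positivity)
                exact h1.trans (mul_le_mul_of_nonneg_left h2 hΛ0.le)
            _ = A * ‖x - y‖ := by rw [hA, zero_add, pow_one]; ring
        · rw [if_neg h, if_neg h, sub_zero, abs_zero]
          positivity
      by_cases hpx : p ∈ slabSet d r 0 x
      · rw [indicator_of_mem hpx]
        have : 0 ≤ (slabSet d r 0 y).indicator (fun _ => A ^ 2 * ‖x - y‖ ^ 2) p :=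
          indicator_nonneg (fun _ _ => hnn) p
        linarith
      · by_cases hpy : p ∈ slabSet d r 0 y
        · rw [indicator_of_mem hpy, indicator_of_notMem hpx]
          linarith
        · rw [indicator_of_notMem hpx, indicator_of_notMem hpy, slab_eq_zero hr0 hr hpx,
            slab_eq_zero hr0 hr hpy]
          simp
    have hi : ∀ z : Eu d, Integrable ((slabSet d r 0 z).indicator
        (fun _ => A ^ 2 * ‖x - y‖ ^ 2)) (volume : Measure (Eu d × ℝ)) := fun z => by
      rw [integrable_indicator_iff (hSm z)]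
      exact integrableOn_const (measure_slabSet_lt_top r 0 z).ne
    have hI : ∀ z : Eu d, ∫ p, (slabSet d r 0 z).indicator (fun _ => A ^ 2 * ‖x - y‖ ^ 2) p
        = V * (A ^ 2 * ‖x - y‖ ^ 2) := fun z => by
      rw [integral_indicator_const _ (hSm z), measureReal_def, hvol, smul_eq_mul]
    calc ∫ p, (slab K 0 x p - slab K 0 y p) ^ 2
        ≤ ∫ p, ((slabSet d r 0 x).indicator (fun _ => A ^ 2 * ‖x - y‖ ^ 2) p
          + (slabSet d r 0 y).indicator (fun _ => A ^ 2 * ‖x - y‖ ^ 2) p) :=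
          integral_mono_of_nonneg (Filter.Eventually.of_forall fun p => sq_nonneg _)
            ((hi x).add (hi y)) (Filter.Eventually.of_forall hpt)
      _ = 2 * V * (A ^ 2 * ‖x - y‖ ^ 2) := by
          rw [integral_add (hi x) (hi y), hI, hI]; ring
      _ = (A * √(2 * V) * ‖x - y‖) ^ 2 := by
          have : √(2 * V) ^ 2 = 2 * V := Real.sq_sqrt (by positivity)
          calc 2 * V * (A ^ 2 * ‖x - y‖ ^ 2) = √(2 * V) ^ 2 * (A ^ 2 * ‖x - y‖ ^ 2) := by rw [this]
            _ = _ := by ring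
  have h1 := abs_le_of_sq_le_sq' hsq (by positivity)
  have h2 := norm_nonneg (x - y)
  linarith [h1.2]

/-- The covariance satisfies the standing assumptions. -/
theorem covLaw_slab (hK : IsKernel K) : ∃ R₀ v₀ C, CovLaw (slabLp hK 0) R₀ v₀ C := by
  obtain ⟨r, hr0, hr⟩ := hK.exists_radius
  obtain ⟨C, hC0, hC⟩ := slab_diff_le hK
  have hsame : ∀ x, ‖slabLp hK 0 x‖ ^ 2 = ‖slabLp hK 0 0‖ ^ 2 := fun x => by
    have := inner_slabLp_shift hK x 0 0
    rwa [add_zero, real_inner_self_eq_norm_sq, real_inner_self_eq_norm_sq] at this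
  refine ⟨2 * r + 1, ‖slabLp hK 0 0‖ ^ 2, C + ‖slabLp hK 0 0‖, by positivity, v₀_pos hK,
    by positivity, ?_, fun b x y => inner_slabLp_shift hK b x y, ?_, hsame, ?_, ?_⟩
  · intro x y
    rw [inner_slabLp]
    exact integral_nonneg fun p => mul_nonneg (slab_nonneg hK 0 x p) (slab_nonneg hK 0 y p)
  · intro x y hxy
    rw [inner_slabLp]
    have : ∀ p, slab K 0 x p * slab K 0 y p = 0 := by
      intro p
      by_contra hcon
      rw [mul_eq_zero, not_or] at hcon
      have h1 : p ∈ slabSet d r 0 x := by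
        by_contra h; exact hcon.1 (slab_eq_zero hr0 hr h)
      have h2 : p ∈ slabSet d r 0 y := by
        by_contra h; exact hcon.2 (slab_eq_zero hr0 hr h)
      have h3 := h1.1
      have h4 := h2.1
      rw [Metric.mem_closedBall, dist_eq_norm] at h3 h4
      have h5 := norm_sub_le_norm_sub_add_norm_sub x p.1 y
      rw [norm_sub_rev x p.1] at h5
      linarith
    simp [this]
  · intro x
    have h1 : ‖slabLp hK 0 x‖ = ‖slabLp hK 0 0‖ := by
      have := hsame x
      rwa [sq_eq_sq₀ (norm_nonneg _) (norm_nonneg _)] at this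
    rw [h1]
    linarith
  · intro x y
    refine (hC x y).trans ?_
    gcongr
    have := norm_nonneg (slabLp hK 0 0)
    linarith

end Pool.Agent.Lib_MP_71c74a_pr
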