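import Pool.Agent.Lib_MP_71c74a_pr.Kap

/-!
# Expectation of the multiscale cost
-/

open MeasureTheory ProbabilityTheory Set
open scoped ENNReal NNReal Topology

namespace Pool.Agent.Lib_MP_71c74a_pr

variable {d : ℕ}

open Classical in
/-- The weight on the straight route. -/
noncomputable def aS (ξ η : ℝ) (M : ℕ) (D : ℝ) (X Y : Eu d) (ψ : Eu d → ℝ) (v : Eu d) : ℝ≥0∞ :=
  if lc ψ (decT M D X Y) ≤ 0 then wt ξ η ψ v else 0

open Classical in
/-- The weight on the detour. -/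
noncomputable def aD (ξ η : ℝ) (M : ℕ) (D : ℝ) (X Y : Eu d) (ψ : Eu d → ℝ) (v : Eu d) : ℝ≥0∞ :=
  if lc ψ (decT M D X Y) ≤ 0 then 0 else wt ξ η ψ v

lemma measurable_aS (ξ η : ℝ) (M : ℕ) (D : ℝ) (X Y v : Eu d) :
    Measurable (fun ψ : Eu d → ℝ => aS ξ η M D X Y ψ v) := by
  unfold aS
  exact Measurable.ite (measurableSet_le (measurable_lc_pi _) measurable_const)
    (measurable_wt ξ η v) measurable_const

lemma measurable_aD (ξ η : ℝ) (M : ℕ) (D : ℝ) (X Y v : Eu d) :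
    Measurable (fun ψ : Eu d → ℝ => aD ξ η M D X Y ψ v) := by
  unfold aD
  exact Measurable.ite (measurableSet_le (measurable_lc_pi _) measurable_const)
    measurable_const (measurable_wt ξ η v)

/-- Sum over the small segments of a piece. -/
noncomputable def pcS (M : ℕ) (a : Eu d → ℝ≥0∞) (k : Eu d → Eu d → ℝ≥0∞) (p q : Eu d) : ℝ≥0∞ :=
  ∑ i ∈ Finset.range M, a (segPt M p q i) * k (segPt M p q i) (segPt M p q (i + 1))

lemma blk_eq (ξ η : ℝ) (M : ℕ) (D : ℝ) (ψ : Eu d → ℝ) (k : Eu d → Eu d → ℝ≥0∞) (X Y : Eu d) :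
    blk ξ η M D ψ k X Y = pcS M (aS ξ η M D X Y ψ) k X Y
      + (pcS M (aD ξ η M D X Y ψ) k X (crn₁ D X Y)
        + pcS M (aD ξ η M D X Y ψ) k (crn₁ D X Y) (crn₂ D X Y)
        + pcS M (aD ξ η M D X Y ψ) k (crn₂ D X Y) Y) := by
  unfold blk aS aD pcS pcC
  split_ifs with h <;> simp

variable {Ω : Type*} [MeasurableSpace Ω] {P : Measure Ω}

/-- Factorisation for a piece. -/
lemma lintegral_pcS_le {M : ℕ} {ψ : Ω → Eu d → ℝ} (hψ : Measurable ψ)
    {k : Ω → Eu d → Eu d → ℝ≥0∞} (hk : ∀ x y, Measurable fun ω => k ω x y) {Γ : ℝ≥0∞}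
    {p q : Eu d}
    (hfac : ∀ i < M, ∀ a : (Eu d → ℝ) → ℝ≥0∞, Measurable a →
      ∫⁻ ω, a (ψ ω) * k ω (segPt M p q i) (segPt M p q (i + 1)) ∂P
        ≤ (∫⁻ ω, a (ψ ω) ∂P) * (Γ * ENNReal.ofReal ‖segPt M p q (i + 1) - segPt M p q i‖))
    {a : (Eu d → ℝ) → Eu d → ℝ≥0∞} (ha : ∀ v, Measurable fun ψ => a ψ v) :
    ∫⁻ ω, pcS M (a (ψ ω)) (k ω) p q ∂P
      ≤ Γ * ∫⁻ ω, pcS M (a (ψ ω)) (fun x y => ENNReal.ofReal ‖y - x‖) p q ∂P := by
  unfold pcS
  have hm1 : ∀ i ∈ Finset.range M, Measurable (fun ω => a (ψ ω) (segPt M p q i)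
      * k ω (segPt M p q i) (segPt M p q (i + 1))) := fun i _ =>
    ((ha _).comp hψ).mul (hk _ _)
  have hm2 : ∀ i ∈ Finset.range M, Measurable (fun ω => a (ψ ω) (segPt M p q i)
      * ENNReal.ofReal ‖segPt M p q (i + 1) - segPt M p q i‖) := fun i _ =>
    ((ha _).comp hψ).mul_const _
  rw [lintegral_finsetSum _ hm1, lintegral_finsetSum _ hm2, Finset.mul_sum]
  refine Finset.sum_le_sum fun i hi => ?_
  refine (hfac i (Finset.mem_range.1 hi) (fun ψ => a ψ (segPt M p q i)) (ha _)).trans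
    (le_of_eq ?_)
  have hm3 : Measurable (fun ω => a (ψ ω) (segPt M p q i)) := (ha _).comp hψ
  rw [lintegral_mul_const _ hm3]
  ring

/-- Factorisation for a block. -/
lemma lintegral_blk_factor {ξ η : ℝ} {M : ℕ} {D : ℝ} {ψ : Ω → Eu d → ℝ} (hψ : Measurable ψ)
    {k : Ω → Eu d → Eu d → ℝ≥0∞} (hk : ∀ x y, Measurable fun ω => k ω x y) {Γ : ℝ≥0∞}
    {X Y : Eu d}
    (hfac : ∀ p q : Eu d, ((p = X ∧ q = Y) ∨ (p = X ∧ q = crn₁ D X Y)
        ∨ (p = crn₁ D X Y ∧ q = crn₂ D X Y) ∨ (p = crn₂ D X Y ∧ q = Y)) →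
      ∀ i < M, ∀ a : (Eu d → ℝ) → ℝ≥0∞, Measurable a →
      ∫⁻ ω, a (ψ ω) * k ω (segPt M p q i) (segPt M p q (i + 1)) ∂P
        ≤ (∫⁻ ω, a (ψ ω) ∂P) * (Γ * ENNReal.ofReal ‖segPt M p q (i + 1) - segPt M p q i‖)) :
    ∫⁻ ω, blk ξ η M D (ψ ω) (k ω) X Y ∂P
      ≤ Γ * ∫⁻ ω, blk ξ η M D (ψ ω) (fun x y => ENNReal.ofReal ‖y - x‖) X Y ∂P := by
  have hS := measurable_aS (d := d) ξ η M D X Y
  have hD := measurable_aD (d := d) ξ η M D X Y
  have hmeas : ∀ {a : (Eu d → ℝ) → Eu d → ℝ≥0∞}, (∀ v, Measurable fun ψ => a ψ v) →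
      ∀ {k : Ω → Eu d → Eu d → ℝ≥0∞}, (∀ x y, Measurable fun ω => k ω x y) → ∀ p q,
      Measurable (fun ω => pcS M (a (ψ ω)) (k ω) p q) := by
    intro a ha k hk p q
    unfold pcS
    exact Finset.measurable_sum _ fun i _ => ((ha _).comp hψ).mul (hk _ _)
  have hk0 : ∀ x y : Eu d, Measurable fun _ : Ω => ENNReal.ofReal ‖y - x‖ := fun x y =>
    measurable_const
  simp_rw [blk_eq]
  have hadd : ∀ {k : Ω → Eu d → Eu d → ℝ≥0∞}, (∀ x y, Measurable fun ω => k ω x y) →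
      Measurable (fun ω => pcS M (aD ξ η M D X Y (ψ ω)) (k ω) X (crn₁ D X Y)
        + pcS M (aD ξ η M D X Y (ψ ω)) (k ω) (crn₁ D X Y) (crn₂ D X Y)) := fun hk =>
    (hmeas hD hk _ _).add (hmeas hD hk _ _)
  rw [lintegral_add_left (hmeas hS hk _ _), lintegral_add_left (hadd hk),
    lintegral_add_left (hmeas hD hk _ _),
    lintegral_add_left (hmeas hS hk0 _ _), lintegral_add_left (hadd hk0),
    lintegral_add_left (hmeas hD hk0 _ _)]
  have t1 := lintegral_pcS_le (P := P) hψ hk (hfac X Y (Or.inl ⟨rfl, rfl⟩)) hS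
  have t2 := lintegral_pcS_le (P := P) hψ hk (hfac X (crn₁ D X Y) (Or.inr (Or.inl ⟨rfl, rfl⟩))) hD
  have t3 := lintegral_pcS_le (P := P) hψ hk (hfac (crn₁ D X Y) (crn₂ D X Y)
    (Or.inr (Or.inr (Or.inl ⟨rfl, rfl⟩)))) hD
  have t4 := lintegral_pcS_le (P := P) hψ hk (hfac (crn₂ D X Y) Y
    (Or.inr (Or.inr (Or.inr ⟨rfl, rfl⟩)))) hD
  rw [mul_add, mul_add, mul_add]
  exact add_le_add t1 (add_le_add (add_le_add t2 t3) t4)

variable {H : Type*} [NormedAddCommGroup H] [InnerProductSpace ℝ H] {G : Eu d → H}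
  {R₀ v₀ C : ℝ} {φ : ℕ → Eu d → Ω → ℝ}

/-- **Expectation of the multiscale cost.** -/
theorem kap_exp (hd : 2 ≤ d) (hG : CovLaw G R₀ v₀ C) (hφ : Scales P G φ) {ξ η l δ : ℝ} {M : ℕ}
    (hM : 0 < M) (hl : 0 < l) {J : ℕ → ℕ} {U : Finset ℕ} (hJmono : StrictMono J)
    (hJU : ∀ i, J i ∉ U)
    (hJM : ∀ r, 8 * M * (1 / 2 : ℝ) ^ J (r + 1) ≤ (1 / 2) ^ J r) (hδ : 0 < 1 - δ)
    (hblk : ∀ (X Y : Eu d), l / 2 ≤ ‖Y - X‖ → ‖Y - X‖ ≤ l →
      ∀ (P : Measure Ω) (ψ : Eu d → Ω → ℝ), FieldLaw P G ψ →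
      ∫⁻ ω, blk ξ η M R₀ (fun x => ψ x ω) (fun x y => ENNReal.ofReal ‖y - x‖) X Y ∂P
        ≤ ENNReal.ofReal ((1 - δ) * ‖Y - X‖)) (q : ℕ) :
    ∀ r (x y : Eu d), (q = 0 ∨ l * (1 / 2) ^ J r ≤ ‖y - x‖) →
      ∫⁻ ω, kap ξ η M R₀ l J U q r (fld φ ω) x y ∂P
        ≤ ENNReal.ofReal (Real.exp (ξ ^ 2 * v₀ / 2 * U.card) * (1 - δ) ^ q * ‖y - x‖) := by
  have hM' : (0 : ℝ) < M := by exact_mod_cast hM
  have hfm := hφ.measurable_fld
  induction q with
  | zero =>
    intro r x y _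
    have := hφ.lintegral_leaf hG ξ U x y
    simpa [kap] using this
  | succ q ih =>
    intro r x y hxy
    have hxy' : l * (1 / 2) ^ J r ≤ ‖y - x‖ := by
      rcases hxy with h | h
      · omega
      · exact h
    set s : ℝ := (1 / 2) ^ J r with hs
    have hs0 : 0 < s := by positivity
    set X := s⁻¹ • x with hX
    set Y := s⁻¹ • y with hY
    set A := Real.exp (ξ ^ 2 * v₀ / 2 * U.card) * (1 - δ) ^ q with hA
    have hA0 : 0 < A := by positivity
    have hXYn : ‖Y - X‖ = ‖y - x‖ / s := by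
      rw [hX, hY, ← smul_sub, norm_smul, norm_inv, Real.norm_eq_abs, abs_of_pos hs0]; ring
    have hXYl : l ≤ ‖Y - X‖ := by rw [hXYn, le_div_iff₀ hs0]; exact hxy'
    have hn : nBlk J l r x y = ⌈‖Y - X‖ / l⌉₊ := rfl
    set B := nBlk J l r x y with hB
    have hB1 : ‖Y - X‖ / l ≤ B := by rw [hn]; exact Nat.le_ceil _
    have hB2 : (B : ℝ) < ‖Y - X‖ / l + 1 := by
      rw [hn]; exact Nat.ceil_lt_add_one (by positivity)
    have hone : 1 ≤ ‖Y - X‖ / l := by rwa [one_le_div hl]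
    have hB0 : (0 : ℝ) < B := by linarith
    have hBpos : 0 < B := by exact_mod_cast hB0
    -- length of the blocks
    have hblen : ∀ i, ‖segPt B X Y (i + 1) - segPt B X Y i‖ = ‖Y - X‖ / B := fun i =>
      norm_segPt_succ X Y i
    have hb1 : l / 2 ≤ ‖Y - X‖ / B := by
      rw [le_div_iff₀ hB0]
      have : (B : ℝ) ≤ 2 * (‖Y - X‖ / l) := by linarith
      calc l / 2 * B ≤ l / 2 * (2 * (‖Y - X‖ / l)) := by gcongr
        _ = ‖Y - X‖ := by field_simp
    have hb2 : ‖Y - X‖ / B ≤ l := by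
      rw [div_le_iff₀ hB0]
      rw [div_le_iff₀ hl] at hB1
      linarith
    -- one block
    have hblock : ∀ X' Y' : Eu d, l / 2 ≤ ‖Y' - X'‖ → ‖Y' - X'‖ ≤ l →
        ∫⁻ ω, blk ξ η M R₀ (unitF J (fld φ ω) r) (fun x' y' =>
          kap ξ η M R₀ l J U q (r + 1) (fld φ ω) (s • x') (s • y')) X' Y' ∂P
        ≤ ENNReal.ofReal (A * s * ((1 - δ) * ‖Y' - X'‖)) := by
      intro X' Y' h1 h2
      have hfac := lintegral_blk_factor (P := P) (ξ := ξ) (η := η) (M := M) (D := R₀)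
        (ψ := fun ω => unitF J (fld φ ω) r) ((measurable_unitF J r).comp hfm)
        (k := fun ω x' y' => kap ξ η M R₀ l J U q (r + 1) (fld φ ω) (s • x') (s • y'))
        (fun x' y' => (measurable_kap ξ η M R₀ l J U q (r + 1) _ _).comp hfm)
        (Γ := ENNReal.ofReal (A * s)) (X := X') (Y := Y') ?_
      · refine hfac.trans ?_
        have h3 := hblk X' Y' h1 h2 P _ (hφ.law (J r))
        calc ENNReal.ofReal (A * s) * ∫⁻ ω, blk ξ η M R₀ (unitF J (fld φ ω) r)
              (fun x y => ENNReal.ofReal ‖y - x‖) X' Y' ∂P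
            ≤ ENNReal.ofReal (A * s) * ENNReal.ofReal ((1 - δ) * ‖Y' - X'‖) :=
              mul_le_mul_right h3 _
          _ = _ := (ENNReal.ofReal_mul (by positivity)).symm
      · intro p p' hpp i hi a ha
        have hL0 : 0 < ‖Y' - X'‖ := by linarith
        -- length of the piece
        have hplen : l / 8 ≤ ‖p' - p‖ := by
          rcases hpp with ⟨rfl, rfl⟩ | ⟨rfl, rfl⟩ | ⟨rfl, rfl⟩ | ⟨rfl, rfl⟩
          · linarith
          · rw [crn₁_sub]
            have := (norm_leg hd (v := Y' - p) (D := R₀) rfl hL0).1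
            linarith
          · rw [crn₂_sub_crn₁, norm_smul]
            norm_num
            linarith
          · rw [sub_crn₂, norm_neg]
            have := (norm_leg' hd (v := p' - X') (D := R₀) rfl hL0).1
            linarith
        -- independence
        have hdep := hφ.indep_factor (j₀ := J r)
          (T := U ∪ (Finset.Ico (r + 1) (r + 1 + q)).image J) ?_
          (a := fun g => a (fun x => g (s • x))) (ha.comp
            (measurable_pi_lambda _ fun x => measurable_pi_apply _))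
          (k := fun f => kap ξ η M R₀ l J U q (r + 1) f (s • segPt M p p' i)
            (s • segPt M p p' (i + 1))) (measurable_kap ξ η M R₀ l J U q (r + 1) _ _) ?_
        · have e1 : ∀ ω, a (unitF J (fld φ ω) r) = a (fun x => fld φ ω (J r) (s • x)) :=
            fun ω => rfl
          simp_rw [e1]
          rw [hdep]
          gcongr
          have hcond : q = 0 ∨ l * (1 / 2) ^ J (r + 1)
              ≤ ‖s • segPt M p p' (i + 1) - s • segPt M p p' i‖ := by
            right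
            rw [← smul_sub, norm_smul, norm_segPt_succ, Real.norm_eq_abs, abs_of_pos hs0]
            have h3 := hJM r
            rw [← hs] at h3
            calc l * (1 / 2) ^ J (r + 1)
                = (l / 8) / M * (8 * M * (1 / 2) ^ J (r + 1)) := by field_simp
              _ ≤ (‖p' - p‖ / M) * s := by gcongr
              _ = s * (‖p' - p‖ / M) := by ring
          refine (ih (r + 1) _ _ hcond).trans (le_of_eq ?_)
          rw [← ENNReal.ofReal_mul (by positivity), ← smul_sub, norm_smul, Real.norm_eq_abs,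
            abs_of_pos hs0, hA]
          congr 1
          ring
        · rw [Finset.mem_union, not_or]
          refine ⟨hJU r, fun hmem => ?_⟩
          rw [Finset.mem_image] at hmem
          obtain ⟨i', hi', heq⟩ := hmem
          rw [Finset.mem_Ico] at hi'
          have := hJmono.injective heq
          omega
        · intro f f' hff'
          apply kap_congr
          · intro j hj
            exact hff' j (Finset.mem_union_left _ hj)
          · intro i' h3 h4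
            exact hff' _ (Finset.mem_union_right _ (Finset.mem_image_of_mem J
              (Finset.mem_Ico.2 ⟨h3, h4⟩)))
    -- sum over the blocks
    have hkap : ∀ ω, kap ξ η M R₀ l J U (q + 1) r (fld φ ω) x y
        = ∑ i ∈ Finset.range B, blk ξ η M R₀ (unitF J (fld φ ω) r) (fun x' y' =>
          kap ξ η M R₀ l J U q (r + 1) (fld φ ω) (s • x') (s • y'))
          (segPt B X Y i) (segPt B X Y (i + 1)) := fun ω => rfl
    simp_rw [hkap]
    have hmb : ∀ i ∈ Finset.range B, Measurable (fun ω => blk ξ η M R₀ (unitF J (fld φ ω) r)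
        (fun x' y' => kap ξ η M R₀ l J U q (r + 1) (fld φ ω) (s • x') (s • y'))
          (segPt B X Y i) (segPt B X Y (i + 1))) := fun i _ =>
      measurable_blk ξ η M R₀ ((measurable_unitF J r).comp hfm)
        (fun x' y' => (measurable_kap ξ η M R₀ l J U q (r + 1) _ _).comp hfm) _ _
    rw [lintegral_finsetSum _ hmb]
    refine (Finset.sum_le_sum (g := fun _ => ENNReal.ofReal (A * s * ((1 - δ) * (‖Y - X‖ / B))))
      fun i _ => ?_).trans (le_of_eq ?_)
    · have := hblock (segPt B X Y i) (segPt B X Y (i + 1)) (by rw [hblen]; exact hb1)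
        (by rw [hblen]; exact hb2)
      rwa [hblen] at this
    · rw [Finset.sum_const, Finset.card_range, nsmul_eq_mul, ← ENNReal.ofReal_natCast,
        ← ENNReal.ofReal_mul (Nat.cast_nonneg _)]
      congr 1
      rw [hXYn, hA]
      field_simp
      ring

end Pool.Agent.Lib_MP_71c74a_pr
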