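import Pool.Agent.Lib_MP_71c74a_pr.Poly

/-!
# The multiscale cost is realised by a polygonal path
-/

open MeasureTheory ProbabilityTheory Set
open scoped ENNReal NNReal Topology

namespace Pool.Agent.Lib_MP_71c74a_pr

variable {d : ℕ}

/-- The tube of radius `ρ` around the segment from `x` to `y`. -/
def tube (x y : Eu d) (ρ : ℝ) : Set (Eu d) :=
  {p | ∃ θ ∈ Icc (0 : ℝ) 1, ‖p - (x + θ • (y - x))‖ ≤ ρ}

lemma wt_ne_top {ξ η : ℝ} (hξ : 0 ≤ ξ) (hη : 0 ≤ η) {ψ : Eu d → ℝ} (hψ : ContDiff ℝ 1 ψ)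
    (v : Eu d) : wt ξ η ψ v ≠ ∞ := by
  obtain ⟨C, hC⟩ := lipT_bdd (φ := fun x => ψ (v + x)) (hψ.comp (by fun_prop))
  refine ne_top_of_le_ne_top (b := ENNReal.ofReal (Real.exp (ξ * ψ v + ξ * η * C)))
    (by finiteness) ?_
  unfold wt
  refine iSup_le fun m => ENNReal.ofReal_le_ofReal ?_
  apply Real.exp_le_exp.2
  have := hC m
  have := mul_le_mul_of_nonneg_left this (mul_nonneg hξ hη)
  linarith

/-- The weight controls the field near `v`. -/
lemma field_le_of_wt {ξ η : ℝ} (hξ : 0 < ξ) (hη : 0 < η) (hη1 : η < 2) {ψ : Eu d → ℝ}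
    (hψ : ContDiff ℝ 1 ψ) (v : Eu d) :
    ∃ A, ENNReal.ofReal (Real.exp (ξ * A)) = wt ξ η ψ v ∧ ∀ u : Eu d, ‖u‖ ≤ η → ψ (v + u) ≤ A := by
  have hfin := wt_ne_top hξ.le hη.le hψ v
  have hpos : 0 < wt ξ η ψ v := by
    refine lt_of_lt_of_le ?_ (le_iSup (fun m => ENNReal.ofReal
      (Real.exp (ξ * ψ v + ξ * η * |lc (fun x => ψ (v + x)) (lipT d m)|))) 0)
    exact ENNReal.ofReal_pos.2 (Real.exp_pos _)
  have hr : 0 < (wt ξ η ψ v).toReal := ENNReal.toReal_pos hpos.ne' hfin
  set A := Real.log (wt ξ η ψ v).toReal / ξ with hA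
  have hexp : Real.exp (ξ * A) = (wt ξ η ψ v).toReal := by
    rw [hA, mul_div_cancel₀ _ hξ.ne', Real.exp_log hr]
  refine ⟨A, by rw [hexp, ENNReal.ofReal_toReal hfin], fun u hu => ?_⟩
  have hm : ∀ m, |lc (fun x => ψ (v + x)) (lipT d m)| ≤ (A - ψ v) / η := by
    intro m
    have h1 : ENNReal.ofReal (Real.exp (ξ * ψ v + ξ * η * |lc (fun x => ψ (v + x)) (lipT d m)|))
        ≤ wt ξ η ψ v := le_iSup (fun m => ENNReal.ofReal
          (Real.exp (ξ * ψ v + ξ * η * |lc (fun x => ψ (v + x)) (lipT d m)|))) m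
    have h2 := ENNReal.toReal_mono hfin h1
    rw [ENNReal.toReal_ofReal (Real.exp_pos _).le, ← hexp, Real.exp_le_exp] at h2
    rw [le_div_iff₀ hη]
    have h3 : ξ * (ψ v + η * |lc (fun x => ψ (v + x)) (lipT d m)|) ≤ ξ * A := by linarith
    have h4 := le_of_mul_le_mul_left h3 hξ
    linarith
  have hlip := lip_of_lipT (φ := fun x => ψ (v + x)) (by
    have := hψ.continuous
    fun_prop) hm (p := u) (q := 0) (by linarith) (by simp)
  simp only [add_zero, sub_zero] at hlip
  have hA0 : 0 ≤ (A - ψ v) / η := (abs_nonneg _).trans (hm 0)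
  have h5 : (A - ψ v) / η * ‖u‖ ≤ (A - ψ v) / η * η := mul_le_mul_of_nonneg_left hu hA0
  rw [div_mul_cancel₀ _ hη.ne'] at h5
  have := le_abs_self (ψ (v + u) - ψ v)
  linarith

lemma segPt_param {M : ℕ} (hM : 0 < M) (p q : Eu d) {i : ℕ} (hi : i < M) {θ : ℝ}
    (hθ : θ ∈ Icc (0 : ℝ) 1) :
    ∃ τ ∈ Icc (0 : ℝ) 1, segPt M p q i + θ • (segPt M p q (i + 1) - segPt M p q i)
      = p + τ • (q - p) := by
  have hM' : (0 : ℝ) < M := by exact_mod_cast hM
  have hi' : (i : ℝ) + 1 ≤ M := by exact_mod_cast hi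
  refine ⟨((i : ℝ) + θ) / M, ⟨?_, ?_⟩, ?_⟩
  · have := hθ.1
    positivity
  · rw [div_le_one hM']
    linarith [hθ.2]
  · rw [segPt_sub]
    unfold segPt
    have e : (((i + 1 : ℕ) : ℝ) - i) / M = 1 / M := by push_cast; ring
    rw [e, smul_smul, add_assoc, ← add_smul]
    congr 2
    ring

/-- The pieces of the two routes. -/
def IsRoutePiece (D : ℝ) (X Y p q : Eu d) : Prop :=
  (p = X ∧ q = Y) ∨ (p = X ∧ q = crn₁ D X Y)
        ∨ (p = crn₁ D X Y ∧ q = crn₂ D X Y) ∨ (p = crn₂ D X Y ∧ q = Y)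

/-- Routes stay within distance `D` of the straight segment. -/
lemma IsRoutePiece.near (hd : 2 ≤ d) {D : ℝ} (hD : 0 ≤ D) {X Y p q : Eu d}
    (h : IsRoutePiece D X Y p q) {τ : ℝ} (hτ : τ ∈ Icc (0 : ℝ) 1) :
    ∃ σ ∈ Icc (0 : ℝ) 1, ‖(p + τ • (q - p)) - (X + σ • (Y - X))‖ ≤ D := by
  have hp := (perp_spec hd (Y - X)).1
  have hτ0 := hτ.1
  have hτ1 := hτ.2
  rcases h with ⟨rfl, rfl⟩ | ⟨rfl, rfl⟩ | ⟨rfl, rfl⟩ | ⟨rfl, rfl⟩
  · exact ⟨τ, hτ, by simpa using hD⟩
  · refine ⟨τ / 4, ⟨by positivity, by linarith⟩, ?_⟩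
    have e : (p + τ • (crn₁ D p Y - p)) - (p + (τ / 4) • (Y - p))
        = (τ * D) • perp (Y - p) := by
      rw [crn₁_sub]; module
    rw [e, norm_smul, hp, mul_one, Real.norm_eq_abs, abs_of_nonneg (by positivity)]
    nlinarith
  · refine ⟨1 / 4 + τ / 2, ⟨by positivity, by linarith⟩, ?_⟩
    have e : (crn₁ D X Y + τ • (crn₂ D X Y - crn₁ D X Y)) - (X + (1 / 4 + τ / 2) • (Y - X))
        = D • perp (Y - X) := by
      rw [crn₂_sub_crn₁]; unfold crn₁; module
    rw [e, norm_smul, hp, mul_one, Real.norm_eq_abs, abs_of_nonneg hD]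
  · refine ⟨3 / 4 + τ / 4, ⟨by positivity, by linarith⟩, ?_⟩
    have e : (crn₂ D X q + τ • (q - crn₂ D X q)) - (X + (3 / 4 + τ / 4) • (q - X))
        = ((1 - τ) * D) • perp (q - X) := by
      unfold crn₂; module
    rw [e, norm_smul, hp, mul_one, Real.norm_eq_abs,
      abs_of_nonneg (mul_nonneg (by linarith) hD)]
    nlinarith

/-- Lengths of the pieces. -/
lemma IsRoutePiece.len (hd : 2 ≤ d) {D l : ℝ} (hD : 0 < D) {X Y p q : Eu d}
    (h : IsRoutePiece D X Y p q) (hL1 : l / 2 ≤ ‖Y - X‖) (hL2 : ‖Y - X‖ ≤ l)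
    (hL3 : 2 * D ≤ ‖Y - X‖) : l / 8 ≤ ‖q - p‖ ∧ ‖q - p‖ ≤ l := by
  have hL0 : 0 < ‖Y - X‖ := by linarith
  have hx : 2 * D ^ 2 / ‖Y - X‖ ≤ ‖Y - X‖ / 2 := by
    rw [div_le_iff₀ hL0]
    nlinarith
  rcases h with ⟨rfl, rfl⟩ | ⟨rfl, rfl⟩ | ⟨rfl, rfl⟩ | ⟨rfl, rfl⟩
  · constructor <;> linarith
  · rw [crn₁_sub]
    have := norm_leg hd (v := Y - p) (D := D) rfl hL0
    constructor <;> linarith [this.1, this.2]
  · rw [crn₂_sub_crn₁, norm_smul]
    norm_num
    constructor <;> linarith
  · rw [sub_crn₂, norm_neg]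
    have := norm_leg' hd (v := q - X) (D := D) rfl hL0
    constructor <;> linarith [this.1, this.2]

/-- **The multiscale cost is realised by a polygonal path.** -/
theorem kap_path (hd : 2 ≤ d) {ξ η l D : ℝ} (hξ : 0 < ξ) (hη : 0 < η) (hη1 : η < 2) {M : ℕ}
    (hM : 0 < M) (hl : 0 < l) (hD : 0 < D) (hDl : 4 * D ≤ l) {J : ℕ → ℕ} {U : Finset ℕ}
    (hJM : ∀ r, 8 * M * (1 / 2 : ℝ) ^ J (r + 1) ≤ (1 / 2) ^ J r)
    (hJη : ∀ r, l / M * (1 / 2) ^ J r + 2 * D * (1 / 2 : ℝ) ^ J (r + 1) ≤ η * (1 / 2) ^ J r)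
    {f : ℕ → Eu d → ℝ} (hf : ∀ j, ContDiff ℝ 1 (f j)) (q : ℕ) :
    ∀ r (x y : Eu d), (q = 0 ∨ l * (1 / 2) ^ J r ≤ ‖y - x‖) →
      Poly ξ (fun p => ∑ j ∈ U, f j p + ∑ i ∈ Finset.Ico r (r + q), f (J i) p)
        (tube x y (2 * D * (1 / 2) ^ J r)) x y (kap ξ η M D l J U q r f x y) := by
  have hM' : (0 : ℝ) < M := by exact_mod_cast hM
  have hM1 : (1 : ℝ) ≤ M := by exact_mod_cast hM
  induction q with
  | zero =>
    intro r x y _
    have h := Poly.leaf ξ U (fun j => (hf j).continuous) x y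
      (S := tube x y (2 * D * (1 / 2) ^ J r)) (fun θ hθ => ⟨θ, hθ, by simp; positivity⟩)
    simpa [kap] using h
  | succ q ih =>
    intro r x y hxy
    have hxy' : l * (1 / 2) ^ J r ≤ ‖y - x‖ := by
      rcases hxy with h | h
      · omega
      · exact h
    set s : ℝ := (1 / 2) ^ J r with hs
    set s' : ℝ := (1 / 2) ^ J (r + 1) with hs'
    have hs0 : 0 < s := by positivity
    have hs'0 : 0 < s' := by positivity
    have hss' : 8 * M * s' ≤ s := hJM r
    have hss8 : 8 * s' ≤ s := by nlinarith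
    set X := s⁻¹ • x with hX
    set Y := s⁻¹ • y with hY
    have hsX : s • X = x := by rw [hX, smul_smul, mul_inv_cancel₀ hs0.ne', one_smul]
    have hsY : s • Y = y := by rw [hY, smul_smul, mul_inv_cancel₀ hs0.ne', one_smul]
    have hXYn : ‖Y - X‖ = ‖y - x‖ / s := by
      rw [hX, hY, ← smul_sub, norm_smul, norm_inv, Real.norm_eq_abs, abs_of_pos hs0]; ring
    have hXYl : l ≤ ‖Y - X‖ := by rw [hXYn, le_div_iff₀ hs0]; exact hxy'
    have hn : nBlk J l r x y = ⌈‖Y - X‖ / l⌉₊ := rfl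
    set B := nBlk J l r x y with hB
    have hB1 : ‖Y - X‖ / l ≤ B := by rw [hn]; exact Nat.le_ceil _
    have hB2 : (B : ℝ) < ‖Y - X‖ / l + 1 := by
      rw [hn]; exact Nat.ceil_lt_add_one (by positivity)
    have hone : 1 ≤ ‖Y - X‖ / l := by rwa [one_le_div hl]
    have hB0 : (0 : ℝ) < B := by linarith
    have hBpos : 0 < B := by exact_mod_cast hB0
    have hb1 : l / 2 ≤ ‖Y - X‖ / B := by
      rw [le_div_iff₀ hB0]
      have : (B : ℝ) ≤ 2 * (‖Y - X‖ / l) := by linarith
      calc l / 2 * B ≤ l / 2 * (2 * (‖Y - X‖ / l)) := by gcongr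
        _ = ‖Y - X‖ := by field_simp
    have hb2 : ‖Y - X‖ / B ≤ l := by
      rw [div_le_iff₀ hB0]
      rw [div_le_iff₀ hl] at hB1
      linarith
    set F : Eu d → ℝ := fun p => ∑ j ∈ U, f j p + ∑ i ∈ Finset.Ico r (r + (q + 1)), f (J i) p
      with hF
    set F' : Eu d → ℝ := fun p => ∑ j ∈ U, f j p
      + ∑ i ∈ Finset.Ico (r + 1) (r + 1 + q), f (J i) p with hF'
    have hFF' : F = fun p => F' p + f (J r) p := by
      ext p
      rw [hF, hF']
      simp only
      rw [Finset.sum_eq_sum_Ico_succ_bot (by omega : r < r + (q + 1))]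
      have : r + (q + 1) = r + 1 + q := by omega
      rw [this]
      ring
    have hF'c : Continuous F' := by
      rw [hF']
      exact (continuous_finsetSum _ fun j _ => (hf j).continuous).add
        (continuous_finsetSum _ fun j _ => (hf _).continuous)
    -- one piece
    have hpiece : ∀ i < B, ∀ p p' : Eu d,
        IsRoutePiece D (segPt B X Y i) (segPt B X Y (i + 1)) p p' →
        Poly ξ F (tube x y (2 * D * s)) (s • p) (s • p')
          (pcC ξ η M (unitF J f r) (fun x' y' => kap ξ η M D l J U q (r + 1) f (s • x') (s • y'))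
            p p') := by
      intro i hi p p' hpp
      have hlen := hpp.len hd hD (l := l) (by rw [norm_segPt_succ]; exact hb1)
        (by rw [norm_segPt_succ]; exact hb2) (by rw [norm_segPt_succ]; linarith)
      unfold pcC
      have hchain : ∀ i' < M, Poly ξ F (tube x y (2 * D * s)) (s • segPt M p p' i')
          (s • segPt M p p' (i' + 1)) (wt ξ η (unitF J f r) (segPt M p p' i')
            * kap ξ η M D l J U q (r + 1) f (s • segPt M p p' i') (s • segPt M p p' (i' + 1))) := by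
        intro i' hi'
        set V := segPt M p p' i' with hV
        set V' := segPt M p p' (i' + 1) with hV'
        have hVV' : ‖V' - V‖ = ‖p' - p‖ / M := norm_segPt_succ p p' i'
        have hcond : q = 0 ∨ l * s' ≤ ‖s • V' - s • V‖ := by
          right
          rw [← smul_sub, norm_smul, hVV', Real.norm_eq_abs, abs_of_pos hs0]
          calc l * s' = (l / 8) / M * (8 * M * s') := by field_simp
            _ ≤ (‖p' - p‖ / M) * s := by gcongr; exact hlen.1
            _ = s * (‖p' - p‖ / M) := by ring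
        have hsub := ih (r + 1) (s • V) (s • V') hcond
        -- the field of level `r` on the small tube
        have hunit : ContDiff ℝ 1 (unitF J f r) := by
          unfold unitF
          exact (hf (J r)).comp (by fun_prop)
        obtain ⟨A, hAw, hAle⟩ := field_le_of_wt hξ hη hη1 hunit V
        have hfield : ∀ z ∈ tube (s • V) (s • V') (2 * D * s'), f (J r) z ≤ A := by
          rintro z ⟨θ, hθ, hz⟩
          have h1 := hAle (s⁻¹ • z - V) (by
            have e : s⁻¹ • z - V = s⁻¹ • (z - (s • V + θ • (s • V' - s • V)))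
                + θ • (V' - V) := by
              rw [smul_sub, smul_add, smul_smul, smul_comm s⁻¹ θ, smul_sub, smul_smul, smul_smul,
                inv_mul_cancel₀ hs0.ne', one_smul, one_smul]
              abel
            rw [e]
            refine (norm_add_le _ _).trans ?_
            rw [norm_smul, norm_smul, hVV', norm_inv, Real.norm_eq_abs, Real.norm_eq_abs,
              abs_of_pos hs0, abs_of_nonneg hθ.1]
            have h2 := hJη r
            rw [← hs, ← hs'] at h2
            have h3 : s⁻¹ * ‖z - (s • V + θ • (s • V' - s • V))‖ ≤ s⁻¹ * (2 * D * s') := by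
              gcongr
            have h4 : θ * (‖p' - p‖ / M) ≤ 1 * (l / M) := by
              gcongr
              · exact hθ.2
              · exact hlen.2
            have h5 : s⁻¹ * (l / M * s + 2 * D * s') ≤ s⁻¹ * (η * s) := by gcongr
            have h6 : s⁻¹ * (η * s) = η := by field_simp
            have h7 : s⁻¹ * (l / M * s + 2 * D * s') = l / M + s⁻¹ * (2 * D * s') := by
              field_simp
            rw [h6, h7] at h5
            linarith)
          have h2 : unitF J f r (V + (s⁻¹ • z - V)) = f (J r) z := by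
            unfold unitF
            congr 1
            rw [← hs, add_sub_cancel, smul_smul, mul_inv_cancel₀ hs0.ne', one_smul]
          rw [h2] at h1
          exact h1
        have hadd := hsub.add_field hξ.le hF'c (hf (J r)).continuous hfield
        rw [← hFF', hAw] at hadd
        refine hadd.mono ?_ le_rfl
        -- the small tube is inside the large tube
        rintro z ⟨θ, hθ, hz⟩
        obtain ⟨τ, hτ, hτe⟩ := segPt_param hM p p' hi' hθ
        obtain ⟨σ, hσ, hσn⟩ := hpp.near hd hD.le hτ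
        obtain ⟨τ', hτ', hτe'⟩ := segPt_param hBpos X Y hi hσ
        refine ⟨τ', hτ', ?_⟩
        have e1 : s • V + θ • (s • V' - s • V) = s • (p + τ • (p' - p)) := by
          rw [← hτe]; module
        have e2 : x + τ' • (y - x) = s • (X + τ' • (Y - X)) := by
          rw [← hsX, ← hsY]; module
        rw [e1] at hz
        rw [e2, ← hτe']
        have h1 := norm_sub_le_norm_sub_add_norm_sub z (s • (p + τ • (p' - p)))
          (s • (segPt B X Y i + σ • (segPt B X Y (i + 1) - segPt B X Y i)))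
        have h2 : ‖s • (p + τ • (p' - p))
            - s • (segPt B X Y i + σ • (segPt B X Y (i + 1) - segPt B X Y i))‖ ≤ s * D := by
          rw [← smul_sub, norm_smul, Real.norm_eq_abs, abs_of_pos hs0]
          gcongr
        nlinarith
      have hc := Poly.chain hchain
      have e0 : segPt M p p' 0 = p := by simp [segPt]
      have eM : segPt M p p' M = p' := by
        unfold segPt
        rw [div_self hM'.ne', one_smul]
        abel
      rwa [e0, eM] at hc
    -- one block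
    have hblock : ∀ i < B, Poly ξ F (tube x y (2 * D * s)) (s • segPt B X Y i)
        (s • segPt B X Y (i + 1)) (blk ξ η M D (unitF J f r)
          (fun x' y' => kap ξ η M D l J U q (r + 1) f (s • x') (s • y'))
          (segPt B X Y i) (segPt B X Y (i + 1))) := by
      intro i hi
      unfold blk
      split_ifs with h
      · exact hpiece i hi _ _ (Or.inl ⟨rfl, rfl⟩)
      · exact ((hpiece i hi _ _ (Or.inr (Or.inl ⟨rfl, rfl⟩))).trans
          (hpiece i hi _ _ (Or.inr (Or.inr (Or.inl ⟨rfl, rfl⟩))))).trans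
          (hpiece i hi _ _ (Or.inr (Or.inr (Or.inr ⟨rfl, rfl⟩))))
    have hall := Poly.chain hblock
    have e0 : s • segPt B X Y 0 = x := by simp [segPt, hsX]
    have eB : s • segPt B X Y B = y := by
      unfold segPt
      rw [div_self hB0.ne', one_smul]
      rw [show X + (Y - X) = Y by abel, hsY]
    rw [e0, eB] at hall
    exact hall

end Pool.Agent.Lib_MP_71c74a_pr
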