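import Pool.Agent.Lib_MP_71c74a_pr.Kap

/-!
# Polygonal paths
-/

open MeasureTheory ProbabilityTheory Set
open scoped ENNReal NNReal Topology

namespace Pool.Agent.Lib_MP_71c74a_pr

variable {d : ℕ}

/-- Cost of a straight segment in the field `F`. -/
noncomputable def segC (ξ : ℝ) (F : Eu d → ℝ) (x y : Eu d) : ℝ :=
  ‖y - x‖ * segAvg (fun p => Real.exp (ξ * F p)) x y

lemma segC_nonneg (ξ : ℝ) (F : Eu d → ℝ) (x y : Eu d) : 0 ≤ segC ξ F x y := by
  unfold segC segAvg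
  have : 0 ≤ ∫ θ in (0 : ℝ)..1, Real.exp (ξ * F (x + θ • (y - x))) :=
    intervalIntegral.integral_nonneg zero_le_one fun θ _ => (Real.exp_pos _).le
  positivity

/-- There is a polygonal path inside `S` from `x` to `y` of cost at most `c`. -/
def Poly (ξ : ℝ) (F : Eu d → ℝ) (S : Set (Eu d)) (x y : Eu d) (c : ℝ≥0∞) : Prop :=
  ∃ (N : ℕ) (v : ℕ → Eu d), v 0 = x ∧ v N = y ∧
    (∀ i < N, ∀ θ ∈ Icc (0 : ℝ) 1, v i + θ • (v (i + 1) - v i) ∈ S) ∧
    ∑ i ∈ Finset.range N, ENNReal.ofReal (segC ξ F (v i) (v (i + 1))) ≤ c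

lemma Poly.mono {ξ : ℝ} {F : Eu d → ℝ} {S S' : Set (Eu d)} {x y : Eu d} {c c' : ℝ≥0∞}
    (h : Poly ξ F S x y c) (hS : S ⊆ S') (hc : c ≤ c') : Poly ξ F S' x y c' := by
  obtain ⟨N, v, h0, hN, hmem, hsum⟩ := h
  exact ⟨N, v, h0, hN, fun i hi θ hθ => hS (hmem i hi θ hθ), hsum.trans hc⟩

lemma Poly.refl (ξ : ℝ) (F : Eu d → ℝ) (S : Set (Eu d)) (x : Eu d) : Poly ξ F S x x 0 :=
  ⟨0, fun _ => x, rfl, rfl, fun i hi => absurd hi (Nat.not_lt_zero i), by simp⟩

lemma Poly.trans {ξ : ℝ} {F : Eu d → ℝ} {S : Set (Eu d)} {x y z : Eu d} {c c' : ℝ≥0∞}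
    (h : Poly ξ F S x y c) (h' : Poly ξ F S y z c') : Poly ξ F S x z (c + c') := by
  obtain ⟨N, v, h0, hN, hmem, hsum⟩ := h
  obtain ⟨N', v', h0', hN', hmem', hsum'⟩ := h'
  set u : ℕ → Eu d := fun i => if i < N then v i else v' (i - N) with hu
  have hu1 : ∀ i ≤ N, u i = v i := by
    intro i hi
    rcases Nat.lt_or_ge i N with h | h
    · simp [hu, h]
    · have : i = N := le_antisymm hi h
      subst this
      simp [hu, h0', hN]
  have hu2 : ∀ i, u (N + i) = v' i := by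
    intro i
    simp [hu]
  refine ⟨N + N', u, by rw [hu1 0 (Nat.zero_le _), h0], by rw [hu2, hN'], ?_, ?_⟩
  · intro i hi θ hθ
    rcases Nat.lt_or_ge i N with h | h
    · rw [hu1 i h.le, hu1 (i + 1) h]
      exact hmem i h θ hθ
    · obtain ⟨j, rfl⟩ := Nat.exists_eq_add_of_le h
      rw [hu2, add_assoc, hu2]
      exact hmem' j (by omega) θ hθ
  · rw [Finset.sum_range_add]
    refine add_le_add (le_trans (le_of_eq ?_) hsum) (le_trans (le_of_eq ?_) hsum')
    · refine Finset.sum_congr rfl fun i hi => ?_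
      have hi' := Finset.mem_range.1 hi
      rw [hu1 i hi'.le, hu1 (i + 1) hi']
    · refine Finset.sum_congr rfl fun i _ => ?_
      rw [hu2, add_assoc, hu2]

lemma Poly.chain {ξ : ℝ} {F : Eu d → ℝ} {S : Set (Eu d)} {p : ℕ → Eu d} {c : ℕ → ℝ≥0∞} {M : ℕ}
    (h : ∀ i < M, Poly ξ F S (p i) (p (i + 1)) (c i)) :
    Poly ξ F S (p 0) (p M) (∑ i ∈ Finset.range M, c i) := by
  induction M with
  | zero => simpa using Poly.refl ξ F S (p 0)
  | succ M ih =>
    rw [Finset.sum_range_succ]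
    exact (ih fun i hi => h i (by omega)).trans (h M (by omega))

/-- Adding a field which is bounded above. -/
lemma Poly.add_field {ξ : ℝ} (hξ : 0 ≤ ξ) {F g : Eu d → ℝ} (hF : Continuous F)
    (hg : Continuous g) {S : Set (Eu d)} {x y : Eu d} {c : ℝ≥0∞} (h : Poly ξ F S x y c)
    {A : ℝ} (hA : ∀ p ∈ S, g p ≤ A) :
    Poly ξ (fun p => F p + g p) S x y (ENNReal.ofReal (Real.exp (ξ * A)) * c) := by
  obtain ⟨N, v, h0, hN, hmem, hsum⟩ := h
  refine ⟨N, v, h0, hN, hmem, ?_⟩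
  refine le_trans ?_ (mul_le_mul_right hsum _)
  rw [Finset.mul_sum]
  refine Finset.sum_le_sum fun i hi => ?_
  rw [← ENNReal.ofReal_mul (Real.exp_pos _).le]
  apply ENNReal.ofReal_le_ofReal
  unfold segC segAvg
  have h1 : ∫ θ in (0 : ℝ)..1, Real.exp (ξ * (F (v i + θ • (v (i + 1) - v i))
        + g (v i + θ • (v (i + 1) - v i))))
      ≤ ∫ θ in (0 : ℝ)..1, Real.exp (ξ * A) * Real.exp (ξ * F (v i + θ • (v (i + 1) - v i))) := by
    apply intervalIntegral.integral_mono_on zero_le_one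
    · exact Continuous.intervalIntegrable (by fun_prop) _ _
    · exact Continuous.intervalIntegrable (by fun_prop) _ _
    · intro θ hθ
      rw [← Real.exp_add]
      apply Real.exp_le_exp.2
      have := hA _ (hmem i (Finset.mem_range.1 hi) θ hθ)
      nlinarith
  rw [intervalIntegral.integral_const_mul] at h1
  calc ‖v (i + 1) - v i‖ * ∫ θ in (0 : ℝ)..1, Real.exp (ξ * (F (v i + θ • (v (i + 1) - v i))
        + g (v i + θ • (v (i + 1) - v i))))
      ≤ ‖v (i + 1) - v i‖ * (Real.exp (ξ * A)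
        * ∫ θ in (0 : ℝ)..1, Real.exp (ξ * F (v i + θ • (v (i + 1) - v i)))) := by gcongr
    _ = _ := by ring

/-- Riemann sums converge. -/
lemma tendsto_riem {g : Eu d → ℝ} (hg : Continuous g) (x y : Eu d) :
    Filter.Tendsto (fun N : ℕ => lc g (avgT N x y)) Filter.atTop (𝓝 (segAvg g x y)) := by
  have hcont : Continuous fun θ : ℝ => g (x + θ • (y - x)) := continuous_seg hg x y
  have huc : UniformContinuousOn (fun θ : ℝ => g (x + θ • (y - x))) (Icc 0 1) :=
    isCompact_Icc.uniformContinuousOn_of_continuous hcont.continuousOn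
  rw [Metric.tendsto_atTop]
  intro ε hε
  obtain ⟨δ, hδ, hunif⟩ := Metric.uniformContinuousOn_iff.1 huc (ε / 2) (by positivity)
  obtain ⟨N₀, hN₀⟩ := exists_nat_gt (1 / δ)
  refine ⟨N₀ + 1, fun N hN => ?_⟩
  have hN0 : 0 < N := by omega
  have hN' : (0 : ℝ) < N := by exact_mod_cast hN0
  have hlt : 1 / (N : ℝ) < δ := by
    rw [div_lt_iff₀ hN']
    have h1 : (N₀ : ℝ) < N := by exact_mod_cast (by omega : N₀ < N)
    rw [div_lt_iff₀ hδ] at hN₀
    nlinarith
  have h1 := riem_error hg hN0 (x := x) (y := y) (D := ε / 2) fun θ hθ θ' hθ' hd => by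
    have := hunif θ hθ θ' hθ' (by rw [Real.dist_eq]; exact lt_of_le_of_lt hd hlt)
    rw [Real.dist_eq] at this
    exact this.le
  rw [Real.dist_eq, abs_sub_comm]
  linarith

/-- The straight segment realises the leaf cost. -/
lemma Poly.leaf (ξ : ℝ) (U : Finset ℕ) {f : ℕ → Eu d → ℝ} (hf : ∀ j, Continuous (f j))
    (x y : Eu d) {S : Set (Eu d)} (hS : ∀ θ ∈ Icc (0 : ℝ) 1, x + θ • (y - x) ∈ S) :
    Poly ξ (fun p => ∑ j ∈ U, f j p) S x y (leaf ξ U f x y) := by
  refine ⟨1, fun i => if i = 0 then x else y, by simp, by simp, ?_, ?_⟩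
  · intro i hi θ hθ
    have : i = 0 := by omega
    subst this
    simpa using hS θ hθ
  · simp only [Finset.range_one, Finset.sum_singleton, if_true, zero_add, one_ne_zero, if_false]
    set g : Eu d → ℝ := fun p => Real.exp (ξ * ∑ j ∈ U, f j p) with hg
    have hgc : Continuous g := by
      have : Continuous fun p => ∑ j ∈ U, f j p := continuous_finsetSum _ fun j _ => hf j
      fun_prop
    have hlim := (tendsto_riem hgc x y).const_mul ‖y - x‖
    have hlim2 : Filter.Tendsto (fun N : ℕ => ENNReal.ofReal (‖y - x‖ * lc g (avgT N x y)))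
        Filter.atTop (𝓝 (ENNReal.ofReal (segC ξ (fun p => ∑ j ∈ U, f j p) x y))) :=
      (ENNReal.continuous_ofReal.tendsto _).comp hlim
    have hlim3 : Filter.Tendsto (fun N : ℕ => ENNReal.ofReal (‖y - x‖ / N)
        * ∑ i ∈ Finset.range N, ENNReal.ofReal (Real.exp (ξ * ∑ j ∈ U, f j (segPt N x y i))))
        Filter.atTop (𝓝 (ENNReal.ofReal (segC ξ (fun p => ∑ j ∈ U, f j p) x y))) := by
      refine hlim2.congr fun N => ?_
      rw [lc_avgT, ← ENNReal.ofReal_sum_of_nonneg (fun i _ => (Real.exp_pos _).le),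
        ← ENNReal.ofReal_mul (by positivity)]
      congr 1
      rw [smul_eq_mul, hg]
      ring
    exact (hlim3.liminf_eq).ge

end Pool.Agent.Lib_MP_71c74a_pr
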