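import Pool.Agent.Lib_MP_71c74a_pr.ChainBase

/-!
# The piecewise linear curve through a chain of points
-/

open MeasureTheory Set
open scoped Topology

namespace Pool.Agent.Lib_MP_71c74a_pr

variable {E : Type*} [NormedAddCommGroup E] [InnerProductSpace ℝ E]

/-- The clamp to the unit interval. -/
noncomputable def clamp (x : ℝ) : ℝ := max 0 (min 1 x)

lemma clamp_mono {x y : ℝ} (h : x ≤ y) : clamp x ≤ clamp y := by
  unfold clamp; gcongr

lemma clamp_of_one_le {x : ℝ} (h : 1 ≤ x) : clamp x = 1 := by
  unfold clamp; rw [min_eq_left h, max_eq_right zero_le_one]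

lemma clamp_of_nonpos {x : ℝ} (h : x ≤ 0) : clamp x = 0 := by
  unfold clamp; rw [min_eq_right (by linarith), max_eq_left h]

lemma clamp_of_mem {x : ℝ} (h0 : 0 ≤ x) (h1 : x ≤ 1) : clamp x = x := by
  unfold clamp; rw [min_eq_right h1, max_eq_right h0]

@[fun_prop]
lemma continuous_clamp : Continuous clamp := by
  unfold clamp; fun_prop

lemma sum_clamp (m : ℕ) (x : ℝ) :
    ∑ a ∈ Finset.range m, clamp (x - a) = max 0 (min (m : ℝ) x) := by
  induction m with
  | zero =>
    simp
  | succ m ih =>
    rw [Finset.sum_range_succ, ih]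
    push_cast
    have hm : (0 : ℝ) ≤ m := Nat.cast_nonneg m
    rcases le_total x 0 with h | h
    · rw [min_eq_right (by linarith), max_eq_left h, clamp_of_nonpos (by linarith),
        min_eq_right (by linarith), max_eq_left h, add_zero]
    rcases le_total x m with h' | h'
    · rw [min_eq_right h', max_eq_right h, clamp_of_nonpos (by linarith),
        min_eq_right (by linarith), max_eq_right h, add_zero]
    rcases le_total x (m + 1) with h'' | h''
    · rw [min_eq_left h', max_eq_right hm, clamp_of_mem (by linarith) (by linarith),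
        min_eq_right h'', max_eq_right h]
      ring
    · rw [min_eq_left h', max_eq_right hm, clamp_of_one_le (by linarith),
        min_eq_left h'', max_eq_right (by linarith)]

/-- The piecewise linear curve on `[0, 1]` through the points `z 0, …, z m`. -/
noncomputable def polyPath (z : ℕ → E) (m : ℕ) (τ : ℝ) : E :=
  z 0 + ∑ a ∈ Finset.range m, clamp (m * τ - a) • (z (a + 1) - z a)

lemma continuous_polyPath (z : ℕ → E) (m : ℕ) : Continuous (polyPath z m) := by
  unfold polyPath
  fun_prop

/-- The value on the `a`-th cell. -/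
lemma polyPath_cell (z : ℕ → E) {m a : ℕ} (ha : a < m) {τ : ℝ} (h0 : (a : ℝ) ≤ m * τ)
    (h1 : m * τ ≤ a + 1) : polyPath z m τ = z a + (m * τ - a) • (z (a + 1) - z a) := by
  unfold polyPath
  have hsplit : Finset.range m = Finset.range a ∪ Finset.Ico a m := by
    rw [Finset.range_eq_Ico, Finset.range_eq_Ico, Finset.Ico_union_Ico_eq_Ico (Nat.zero_le _) ha.le]
  have hdisj : Disjoint (Finset.range a) (Finset.Ico a m) := by
    rw [Finset.range_eq_Ico]; exact Finset.Ico_disjoint_Ico_consecutive 0 a m
  rw [hsplit, Finset.sum_union hdisj]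
  have s1 : ∑ b ∈ Finset.range a, clamp (m * τ - b) • (z (b + 1) - z b) = z a - z 0 := by
    rw [← Finset.sum_range_sub]
    refine Finset.sum_congr rfl fun b hb => ?_
    have hb' : b + 1 ≤ a := Finset.mem_range.1 hb
    have : ((b : ℝ) + 1) ≤ a := by exact_mod_cast hb'
    rw [clamp_of_one_le (by linarith), one_smul]
  have s2 : ∑ b ∈ Finset.Ico a m, clamp (m * τ - b) • (z (b + 1) - z b)
      = (m * τ - a) • (z (a + 1) - z a) := by
    rw [Finset.sum_eq_single a]
    · rw [clamp_of_mem (by linarith) (by linarith)]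
    · intro b hb hne
      have hb' : a + 1 ≤ b := by
        have := (Finset.mem_Ico.1 hb).1
        omega
      have : ((a : ℝ) + 1) ≤ b := by exact_mod_cast hb'
      rw [clamp_of_nonpos (by linarith), zero_smul]
    · intro h
      exact absurd (Finset.mem_Ico.2 ⟨le_rfl, ha⟩) h
  rw [s1, s2]
  abel

lemma polyPath_zero (z : ℕ → E) (m : ℕ) : polyPath z m 0 = z 0 := by
  unfold polyPath
  rw [Finset.sum_eq_zero, add_zero]
  intro a _
  rw [clamp_of_nonpos, zero_smul]
  have : (0 : ℝ) ≤ a := Nat.cast_nonneg a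
  simp

lemma polyPath_one (z : ℕ → E) (m : ℕ) : polyPath z m 1 = z m := by
  unfold polyPath
  have : ∑ a ∈ Finset.range m, clamp (m * 1 - a) • (z (a + 1) - z a) = z m - z 0 := by
    rw [← Finset.sum_range_sub]
    refine Finset.sum_congr rfl fun b hb => ?_
    have hb' : b + 1 ≤ m := Finset.mem_range.1 hb
    have : ((b : ℝ) + 1) ≤ m := by exact_mod_cast hb'
    rw [clamp_of_one_le (by linarith), one_smul]
  rw [this]
  abel

lemma polyPath_lip (z : ℕ → E) (m : ℕ) {r : ℝ} (hz : ∀ a < m, ‖z (a + 1) - z a‖ ≤ r)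
    (hr : 0 ≤ r) (τ τ' : ℝ) :
    ‖polyPath z m τ - polyPath z m τ'‖ ≤ m * r * |τ - τ'| := by
  wlog h : τ' ≤ τ generalizing τ τ'
  · rw [norm_sub_rev, abs_sub_comm]
    exact this τ' τ (le_of_not_ge h)
  unfold polyPath
  rw [add_sub_add_left_eq_sub, ← Finset.sum_sub_distrib]
  have hm : (0 : ℝ) ≤ m := Nat.cast_nonneg m
  calc ‖∑ a ∈ Finset.range m, (clamp (m * τ - a) • (z (a + 1) - z a)
        - clamp (m * τ' - a) • (z (a + 1) - z a))‖
      ≤ ∑ a ∈ Finset.range m, (clamp (m * τ - a) - clamp (m * τ' - a)) * r := by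
        refine norm_sum_le_of_le _ fun a ha => ?_
        rw [← sub_smul, norm_smul, Real.norm_of_nonneg]
        · exact mul_le_mul_of_nonneg_left (hz a (Finset.mem_range.1 ha))
            (sub_nonneg.2 (clamp_mono (by gcongr)))
        · exact sub_nonneg.2 (clamp_mono (by gcongr))
    _ = (max 0 (min (m : ℝ) (m * τ)) - max 0 (min (m : ℝ) (m * τ'))) * r := by
        rw [← Finset.sum_mul, Finset.sum_sub_distrib, sum_clamp, sum_clamp]
    _ ≤ (m * τ - m * τ') * r := by
        apply mul_le_mul_of_nonneg_right _ hr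
        have hmm : m * τ' ≤ m * τ := by gcongr
        rcases le_total (m * τ) 0 with h1 | h1
        · rw [min_eq_right (by linarith), max_eq_left h1, min_eq_right (by linarith),
            max_eq_left (by linarith)]
          linarith
        rcases le_total (m * τ') 0 with h2 | h2
        · rw [min_eq_right (a := (m : ℝ)) (b := m * τ') (by linarith), max_eq_left h2]
          rcases le_total (m : ℝ) (m * τ) with h3 | h3
          · rw [min_eq_left h3, max_eq_right hm]; linarith
          · rw [min_eq_right h3, max_eq_right h1]; linarith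
        rcases le_total (m : ℝ) (m * τ') with h3 | h3
        · rw [min_eq_left h3, min_eq_left (by linarith)]; linarith
        · rw [min_eq_right h3, max_eq_right h2]
          rcases le_total (m : ℝ) (m * τ) with h4 | h4
          · rw [min_eq_left h4, max_eq_right hm]; linarith
          · rw [min_eq_right h4, max_eq_right h1]
    _ = m * r * |τ - τ'| := by
        rw [abs_of_nonneg (by linarith)]; ring

/-- The average of `φ` along the curve is the mean of the segment averages. -/
lemma integral_polyPath {φ : E → ℝ} (hφ : Continuous φ) (z : ℕ → E) {m : ℕ} (hm : 0 < m) :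
    ∫ τ in (0 : ℝ)..1, φ (polyPath z m τ)
      = (∑ a ∈ Finset.range m, segAvg φ (z a) (z (a + 1))) / m := by
  have hm' : (0 : ℝ) < m := by exact_mod_cast hm
  have hcont : Continuous fun τ => φ (polyPath z m τ) := hφ.comp (continuous_polyPath z m)
  have h1 : ∫ τ in (0 : ℝ)..1, φ (polyPath z m τ)
      = ∑ a ∈ Finset.range m, ∫ τ in ((a : ℝ) / m)..(((a + 1 : ℕ) : ℝ) / m),
        φ (polyPath z m τ) := by
    have := intervalIntegral.sum_integral_adjacent_intervals
      (f := fun τ => φ (polyPath z m τ)) (μ := volume) (a := fun a : ℕ => (a : ℝ) / m) (n := m)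
      (fun k _ => hcont.intervalIntegrable _ _)
    rw [this]
    simp [hm'.ne']
  rw [h1, Finset.sum_div]
  refine Finset.sum_congr rfl fun a ha => ?_
  have ha' : a < m := Finset.mem_range.1 ha
  have h2 : ∫ τ in ((a : ℝ) / m)..(((a + 1 : ℕ) : ℝ) / m), φ (polyPath z m τ)
      = ∫ τ in ((a : ℝ) / m)..(((a + 1 : ℕ) : ℝ) / m),
        (fun θ => φ (z a + θ • (z (a + 1) - z a))) (m * τ - a) := by
    refine intervalIntegral.integral_congr fun τ hτ => ?_
    rw [uIcc_of_le (by gcongr; linarith)] at hτ
    have e1 : (a : ℝ) ≤ m * τ := by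
      have := hτ.1; rw [div_le_iff₀ hm'] at this; linarith
    have e2 : m * τ ≤ a + 1 := by
      have := hτ.2; rw [le_div_iff₀ hm'] at this; push_cast at this; linarith
    simp only
    rw [polyPath_cell z ha' e1 e2]
  rw [h2, intervalIntegral.integral_comp_mul_sub
    (f := fun θ => φ (z a + θ • (z (a + 1) - z a))) hm'.ne' (a : ℝ)]
  have e3 : (m : ℝ) * (a / m) - a = 0 := by field_simp; ring
  have e4 : (m : ℝ) * (((a + 1 : ℕ) : ℝ) / m) - a = 1 := by push_cast; field_simp; ring
  rw [e3, e4]
  unfold segAvg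
  rw [smul_eq_mul]
  field_simp

/-- The curve stays in a convex set containing the points. -/
lemma polyPath_mem {C : Set E} (hC : Convex ℝ C) (z : ℕ → E) {m : ℕ} (hm : 0 < m)
    (hz : ∀ a ≤ m, z a ∈ C) {τ : ℝ} (hτ : τ ∈ Icc (0 : ℝ) 1) : polyPath z m τ ∈ C := by
  have hm' : (0 : ℝ) < m := by exact_mod_cast hm
  rcases eq_or_lt_of_le hτ.2 with h | h
  · rw [h, polyPath_one]; exact hz m le_rfl
  · have h0 : 0 ≤ m * τ := by have := hτ.1; positivity
    have ha : ⌊(m : ℝ) * τ⌋₊ < m := by
      rw [Nat.floor_lt h0]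
      calc (m : ℝ) * τ < m * 1 := by gcongr
        _ = m := mul_one _
    have e1 := Nat.floor_le h0
    have e2 := (Nat.lt_floor_add_one ((m : ℝ) * τ)).le
    rw [polyPath_cell z ha e1 e2]
    exact hC.add_smul_sub_mem (hz _ ha.le) (hz _ ha) ⟨by linarith, by linarith⟩

end Pool.Agent.Lib_MP_71c74a_pr
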