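import Pool.Agent.Lib_MP_71c74a_pr.Defs
import Pool.Agent.Lib_MP_71c74a_pr.Poly
import Pool.Agent.Lib_MP_71c74a_pr.PolyPath

/-!
# Polygonal paths are piecewise continuously differentiable paths
-/

open MeasureTheory ProbabilityTheory Set
open scoped ENNReal NNReal Topology

namespace Pool.Agent.Lib_MP_71c74a_pr

variable {d : ℕ}

lemma polyPath_cell' (z : ℕ → Eu d) {N a : ℕ} (hN : 0 < N) (ha : a < N) {τ : ℝ}
    (h : τ ∈ Icc ((a : ℝ) / N) (((a + 1 : ℕ) : ℝ) / N)) :
    polyPath z N τ = z a + (N * τ - a) • (z (a + 1) - z a) := by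
  have hN' : (0 : ℝ) < N := by exact_mod_cast hN
  apply polyPath_cell z ha
  · have := h.1
    rw [div_le_iff₀ hN'] at this
    linarith
  · have := h.2
    rw [le_div_iff₀ hN'] at this
    push_cast at this
    linarith

lemma isPath_polyPath {S : Set (Eu d)} {z : ℕ → Eu d} {N : ℕ} (hN : 0 < N)
    (hS : ∀ i < N, ∀ θ ∈ Icc (0 : ℝ) 1, z i + θ • (z (i + 1) - z i) ∈ S) :
    IsPath S (z 0) (z N) (polyPath z N) := by
  have hN' : (0 : ℝ) < N := by exact_mod_cast hN
  refine ⟨polyPath_zero z N, polyPath_one z N, ?_, (continuous_polyPath z N).continuousOn, ?_⟩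
  · intro t ht
    obtain ⟨a, haN, ha⟩ : ∃ a < N, t ∈ Icc ((a : ℝ) / N) (((a + 1 : ℕ) : ℝ) / N) := by
      rcases eq_or_lt_of_le ht.2 with h1 | h1
      · refine ⟨N - 1, by omega, ?_⟩
        have e : ((N - 1 + 1 : ℕ) : ℝ) = N := by
          congr 1; omega
        rw [e, h1, div_self hN'.ne']
        refine ⟨?_, le_rfl⟩
        rw [div_le_one hN']
        exact_mod_cast Nat.sub_le N 1
      · have h2 : (N : ℝ) * t < N := by nlinarith
        have h3 : 0 ≤ (N : ℝ) * t := mul_nonneg hN'.le ht.1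
        refine ⟨⌊(N : ℝ) * t⌋₊, (Nat.floor_lt h3).2 h2, ?_, ?_⟩
        · rw [div_le_iff₀ hN']
          have := Nat.floor_le h3
          linarith
        · rw [le_div_iff₀ hN']
          push_cast
          have := (Nat.lt_floor_add_one ((N : ℝ) * t)).le
          linarith
    rw [polyPath_cell' z hN haN ha]
    apply hS a haN
    constructor
    · have := ha.1
      rw [div_le_iff₀ hN'] at this
      linarith
    · have := ha.2
      rw [le_div_iff₀ hN'] at this
      push_cast at this
      linarith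
  · refine ⟨N, fun i => (i : ℝ) / N, by simp, div_self hN'.ne', fun i _ => ?_, fun i hi => ?_⟩
    · show (i : ℝ) / N < ((i + 1 : ℕ) : ℝ) / N
      gcongr
      exact Nat.lt_succ_self i
    · have h1 : ContDiffOn ℝ 1 (fun τ : ℝ => z i + ((N : ℝ) * τ - i) • (z (i + 1) - z i))
          (Icc ((i : ℝ) / N) (((i + 1 : ℕ) : ℝ) / N)) := by
        apply ContDiff.contDiffOn
        fun_prop
      exact h1.congr fun τ hτ => polyPath_cell' z hN hi hτ

lemma pathLen_polyPath (ξ : ℝ) {F : Eu d → ℝ} (hF : Continuous F) (z : ℕ → Eu d) {N : ℕ}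
    (hN : 0 < N) :
    pathLen ξ F (polyPath z N) = ∑ i ∈ Finset.range N, segC ξ F (z i) (z (i + 1)) := by
  have hN' : (0 : ℝ) < N := by exact_mod_cast hN
  -- one cell
  have hcell : ∀ i < N, (∫ t in ((i : ℝ) / N)..(((i + 1 : ℕ) : ℝ) / N),
      Real.exp (ξ * F (polyPath z N t)) * ‖deriv (polyPath z N) t‖) = segC ξ F (z i) (z (i + 1)) ∧
      IntervalIntegrable (fun t => Real.exp (ξ * F (polyPath z N t)) * ‖deriv (polyPath z N) t‖)
        volume ((i : ℝ) / N) (((i + 1 : ℕ) : ℝ) / N) := by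
    intro i hi
    set a : ℝ := (i : ℝ) / N with ha
    set b : ℝ := ((i + 1 : ℕ) : ℝ) / N with hb
    have hab : a < b := by
      rw [ha, hb]; gcongr; exact Nat.lt_succ_self i
    set w := z (i + 1) - z i with hw
    set g : ℝ → ℝ := fun u => Real.exp (ξ * F (z i + u • w)) with hg
    have hgc : Continuous g := by rw [hg]; fun_prop
    have heq : ∀ t ∈ Ioo a b, Real.exp (ξ * F (polyPath z N t)) * ‖deriv (polyPath z N) t‖
        = (N * ‖w‖) * g (N * t - i) := by
      intro t ht
      have h1 : polyPath z N t = z i + (N * t - i) • w :=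
        polyPath_cell' z hN hi (Ioo_subset_Icc_self ht)
      have h2 : deriv (polyPath z N) t = (N : ℝ) • w := by
        have h3 : polyPath z N =ᶠ[𝓝 t] fun τ => z i + ((N : ℝ) * τ - i) • w := by
          filter_upwards [Ioo_mem_nhds ht.1 ht.2] with τ hτ
          exact polyPath_cell' z hN hi (Ioo_subset_Icc_self hτ)
        rw [h3.deriv_eq]
        have h4 : HasDerivAt (fun τ : ℝ => z i + ((N : ℝ) * τ - i) • w) ((N : ℝ) • w) t := by
          have h5 : HasDerivAt (fun τ : ℝ => (N : ℝ) * τ - i) (N : ℝ) t := by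
            simpa using ((hasDerivAt_id t).const_mul (N : ℝ)).sub_const (i : ℝ)
          exact (h5.smul_const w).const_add (z i)
        exact h4.deriv
      rw [h1, h2, norm_smul, Real.norm_eq_abs, Nat.abs_cast, hg]
      ring
    have hint0 : IntervalIntegrable (fun t => (N * ‖w‖) * g (N * t - i)) volume a b :=
      Continuous.intervalIntegrable (by fun_prop) _ _
    have hae : (fun t => (N * ‖w‖) * g (N * t - i)) =ᵐ[volume.restrict (uIoc a b)]
        fun t => Real.exp (ξ * F (polyPath z N t)) * ‖deriv (polyPath z N) t‖ := by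
      rw [uIoc_of_le hab.le, ← restrict_Ioo_eq_restrict_Ioc]
      refine (ae_restrict_iff' measurableSet_Ioo).2 (Filter.Eventually.of_forall fun t ht => ?_)
      exact (heq t ht).symm
    refine ⟨?_, hint0.congr_ae hae⟩
    have h1 : (∫ t in a..b, Real.exp (ξ * F (polyPath z N t)) * ‖deriv (polyPath z N) t‖)
        = ∫ t in a..b, (N * ‖w‖) * g (N * t - i) := by
      rw [intervalIntegral.integral_of_le hab.le, intervalIntegral.integral_of_le hab.le]
      rw [uIoc_of_le hab.le] at hae
      exact (integral_congr_ae hae).symm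
    rw [h1, intervalIntegral.integral_const_mul, intervalIntegral.integral_comp_mul_sub _ hN'.ne']
    have e1 : (N : ℝ) * a - i = 0 := by rw [ha]; field_simp; ring
    have e2 : (N : ℝ) * b - i = 1 := by rw [hb]; push_cast; field_simp; ring
    rw [e1, e2]
    unfold segC segAvg
    rw [← hw, smul_eq_mul]
    field_simp
    rfl
  unfold pathLen
  have hsplit : ∫ t in (0 : ℝ)..1, Real.exp (ξ * F (polyPath z N t)) * ‖deriv (polyPath z N) t‖
      = ∑ i ∈ Finset.range N, ∫ t in ((i : ℝ) / N)..(((i + 1 : ℕ) : ℝ) / N),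
        Real.exp (ξ * F (polyPath z N t)) * ‖deriv (polyPath z N) t‖ := by
    rw [intervalIntegral.sum_integral_adjacent_intervals (a := fun i : ℕ => (i : ℝ) / N)]
    · simp [hN'.ne']
    · intro i hi
      exact (hcell i hi).2
  rw [hsplit]
  exact Finset.sum_congr rfl fun i hi => (hcell i (Finset.mem_range.1 hi)).1

lemma pathLen_nonneg (ξ : ℝ) (F : Eu d → ℝ) (γ : ℝ → Eu d) : 0 ≤ pathLen ξ F γ := by
  unfold pathLen
  exact intervalIntegral.integral_nonneg zero_le_one fun t _ => by positivity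

/-- A polygonal path bounds the distance. -/
lemma Poly.expDist_le {ξ : ℝ} {F : Eu d → ℝ} (hF : Continuous F) {S : Set (Eu d)} {x y : Eu d}
    (hxy : x ≠ y) {c : ℝ≥0∞} (h : Poly ξ F S x y c) :
    ENNReal.ofReal (expDist ξ F S x y) ≤ c := by
  obtain ⟨N, v, h0, hN, hmem, hsum⟩ := h
  have hN0 : 0 < N := by
    rcases Nat.eq_zero_or_pos N with h | h
    · subst h
      exact absurd (h0.symm.trans hN) hxy
    · exact h
  have hpath := isPath_polyPath hN0 hmem
  rw [h0, hN] at hpath
  have hlen := pathLen_polyPath ξ hF v hN0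
  refine le_trans ?_ hsum
  rw [← ENNReal.ofReal_sum_of_nonneg (fun i _ => segC_nonneg ξ F _ _), ← hlen]
  apply ENNReal.ofReal_le_ofReal
  unfold expDist
  refine csInf_le ⟨0, ?_⟩ ⟨_, hpath, rfl⟩
  rintro L ⟨γ, _, rfl⟩
  exact pathLen_nonneg ξ F γ

end Pool.Agent.Lib_MP_71c74a_pr
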