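import Pool.Agent.Lib_MP_71c74a_pr.BlockNum
import Pool.Agent.Lib_MP_71c74a_pr.KapExp
import Pool.Agent.Lib_MP_71c74a_pr.KapPath
import Pool.Agent.Lib_MP_71c74a_pr.PolyIsPath

/-!
# The upper bound for the distance
-/

open MeasureTheory ProbabilityTheory Set
open scoped ENNReal NNReal Topology

namespace Pool.Agent.Lib_MP_71c74a_pr

variable {d : ℕ}

/-- The scales that are used. -/
def Jf (J₀ K₀ : ℕ) (i : ℕ) : ℕ := J₀ + K₀ * i

/-- The number of scales below `n` that are used. -/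
def nLev (J₀ K₀ n : ℕ) : ℕ := (n - J₀ + K₀ - 1) / K₀

lemma Jf_lt_iff {J₀ K₀ n i : ℕ} (hK : 0 < K₀) (hn : J₀ ≤ n) : Jf J₀ K₀ i < n ↔ i < nLev J₀ K₀ n := by
  unfold Jf nLev
  rw [← Nat.succ_le_iff, ← Nat.succ_le_iff, Nat.le_div_iff_mul_le hK]
  have h : (i + 1) * K₀ = K₀ * i + K₀ := by ring
  simp only [Nat.succ_eq_add_one]
  rw [h]
  omega

/-- The unused scales. -/
def Uf (J₀ K₀ n : ℕ) : Finset ℕ := Finset.range n \ (Finset.range (nLev J₀ K₀ n)).image (Jf J₀ K₀)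

lemma Jf_notMem {J₀ K₀ n : ℕ} (hK : 0 < K₀) (hn : J₀ ≤ n) (i : ℕ) : Jf J₀ K₀ i ∉ Uf J₀ K₀ n := by
  unfold Uf
  rw [Finset.mem_sdiff, not_and_or, not_not, Finset.mem_range, Jf_lt_iff hK hn]
  by_cases h : i < nLev J₀ K₀ n
  · right
    exact Finset.mem_image_of_mem _ (Finset.mem_range.2 h)
  · left
    exact h

lemma Jf_strictMono {J₀ K₀ : ℕ} (hK : 0 < K₀) : StrictMono (Jf J₀ K₀) := by
  intro a b hab
  unfold Jf
  have := Nat.mul_lt_mul_of_pos_left hab hK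
  omega

lemma sum_Uf {J₀ K₀ n : ℕ} (hK : 0 < K₀) (hn : J₀ ≤ n) (g : ℕ → ℝ) :
    ∑ j ∈ Uf J₀ K₀ n, g j + ∑ i ∈ Finset.Ico 0 (0 + nLev J₀ K₀ n), g (Jf J₀ K₀ i)
      = ∑ j ∈ Finset.range n, g j := by
  rw [zero_add, ← Finset.range_eq_Ico]
  have h1 : ∑ i ∈ Finset.range (nLev J₀ K₀ n), g (Jf J₀ K₀ i)
      = ∑ j ∈ (Finset.range (nLev J₀ K₀ n)).image (Jf J₀ K₀), g j := by
    rw [Finset.sum_image]
    intro a _ b _ hab
    exact (Jf_strictMono hK).injective hab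
  rw [h1]
  unfold Uf
  apply Finset.sum_sdiff
  intro j hj
  rw [Finset.mem_image] at hj
  obtain ⟨i, hi, rfl⟩ := hj
  rw [Finset.mem_range, Jf_lt_iff hK hn]
  exact Finset.mem_range.1 hi

lemma le_nLev {J₀ K₀ n : ℕ} (hK : 0 < K₀) (hn : J₀ ≤ n) :
    ((n : ℝ) - J₀) / K₀ ≤ nLev J₀ K₀ n := by
  have hK' : (0 : ℝ) < K₀ := by exact_mod_cast hK
  rw [div_le_iff₀ hK']
  have h1 : n - J₀ ≤ nLev J₀ K₀ n * K₀ := by
    unfold nLev
    have := Nat.div_add_mod (n - J₀ + K₀ - 1) K₀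
    have h2 := Nat.mod_lt (n - J₀ + K₀ - 1) hK
    have h3 := Nat.mul_comm ((n - J₀ + K₀ - 1) / K₀) K₀
    omega
  have h2 : ((n - J₀ : ℕ) : ℝ) ≤ nLev J₀ K₀ n * K₀ := by exact_mod_cast h1
  rwa [Nat.cast_sub hn] at h2

lemma tube_subset_cube {e : Eu d} (he : ‖e‖ = 1) {ρ : ℝ} (hρ : ρ < 1) : tube 0 e ρ ⊆ cube d 2 := by
  rintro p ⟨θ, hθ, hp⟩ i
  rw [zero_add, sub_zero] at hp
  have h1 : |p i| ≤ ‖p‖ := by
    have := PiLp.norm_apply_le p i
    rwa [Real.norm_eq_abs] at this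
  have h2 : ‖p‖ ≤ ‖p - θ • e‖ + ‖θ • e‖ := by
    have := norm_add_le (p - θ • e) (θ • e)
    rwa [sub_add_cancel] at this
  have h3 : ‖θ • e‖ ≤ 1 := by
    rw [norm_smul, he, mul_one, Real.norm_eq_abs, abs_of_nonneg hθ.1]
    exact hθ.2
  linarith

/-- With good probability the distance is small. -/
theorem upper_event (hd : 2 ≤ d) {Ω H : Type*} [MeasurableSpace Ω] [NormedAddCommGroup H]
    [InnerProductSpace ℝ H] {P : Measure Ω} {G : Eu d → H} {φ : ℕ → Eu d → Ω → ℝ}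
    {R₀ v₀ C : ℝ} (hG : CovLaw G R₀ v₀ C) (hφ : Scales P G φ) :
    ∃ c₁ x₁ : ℝ, 0 < c₁ ∧ 0 < x₁ ∧ x₁ ≤ 1 / 2 ∧ ∀ x, 0 < x → x ≤ x₁ → ∃ b : ℝ, ∀ᶠ n : ℕ in
      Filter.atTop, ∀ e : Eu d, ‖e‖ = 1 →
      P {ω | Real.exp (b - c₁ * x ^ 4 / Real.log (1 / x) * n)
        ≤ expDist (x ^ 3) (fun p => ∑ j ∈ Finset.range n, φ j p ω) (cube d 2) 0 e} ≤ 1 / 3 := by
  have hP := (hφ.law 0).isProbabilityMeasure
  have hR := hG.R₀_pos
  have hv := hG.v₀_pos
  obtain ⟨ε, hε⟩ := exists_adm (Ω := Ω) (hφ.law 0) hG.C_pos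
  obtain ⟨q, c, x₀, hq, hc, hx₀, hx₀1, hgain⟩ := block_gain hd hG hε
  set A : ℝ := 16 * q ^ 2 + 2 * R₀ with hA
  have hq2 : 1 ≤ q ^ 2 := one_le_pow₀ hq
  have hA16 : 16 ≤ A := by rw [hA]; linarith
  have hlog2 : 0 < Real.log 2 := Real.log_pos (by norm_num)
  set CK : ℝ := (Real.log A / Real.log 2 + 1) / Real.log 2 + 5 / Real.log 2 with hCK
  have hlogA : 0 ≤ Real.log A := Real.log_nonneg (by linarith)
  have hCK0 : 0 < CK := by positivity
  refine ⟨c / (2 * CK), min x₀ (c / (CK * v₀)), by positivity, lt_min hx₀ (by positivity),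
    (min_le_left _ _).trans hx₀1, fun x hx hxx => ?_⟩
  have hxx₀ : x ≤ x₀ := hxx.trans (min_le_left _ _)
  have hxc : x ≤ c / (CK * v₀) := hxx.trans (min_le_right _ _)
  have hx12 : x ≤ 1 / 2 := hxx₀.trans hx₀1
  obtain ⟨hδ, hgain'⟩ := hgain x hx hxx₀
  set l : ℝ := q ^ 2 / x ^ 2 with hl
  have hl0 : 0 < l := by positivity
  -- logarithm
  set Lx := Real.log (1 / x) with hLx
  have hLx2 : Real.log 2 ≤ Lx := by
    apply Real.log_le_log (by norm_num)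
    rw [le_div_iff₀ hx]; linarith
  have hLx0 : 0 < Lx := by linarith
  have hLxx : Lx ≤ 1 / x := by
    have := Real.log_le_sub_one_of_pos (by positivity : 0 < 1 / x)
    linarith
  -- the parameters
  set M : ℕ := ⌈l / x ^ 3⌉₊ with hM
  have hM1 : l / x ^ 3 ≤ M := Nat.le_ceil _
  have hx3 : x ^ 3 ≤ 1 / 8 := by
    calc x ^ 3 ≤ (1 / 2) ^ 3 := pow_le_pow_left₀ hx.le hx12 3
      _ = 1 / 8 := by norm_num
  have hx5 : x ^ 5 ≤ 1 := pow_le_one₀ hx.le (by linarith)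
  have hlx : l / x ^ 3 = q ^ 2 / x ^ 5 := by rw [hl]; field_simp
  have hone : 1 ≤ q ^ 2 / x ^ 5 := by
    rw [one_le_div (by positivity)]
    linarith
  have hM2 : (M : ℝ) ≤ 2 * (q ^ 2 / x ^ 5) := by
    have := Nat.ceil_lt_add_one (by positivity : 0 ≤ l / x ^ 3)
    rw [← hM, hlx] at this
    linarith
  have hM0' : (0 : ℝ) < M := by rw [hlx] at hM1; linarith
  have hM0 : 0 < M := by exact_mod_cast hM0'
  set K₀ : ℕ := ⌈Real.logb 2 (A / x ^ 5)⌉₊ with hK₀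
  have hAx : 16 ≤ A / x ^ 5 := by
    rw [le_div_iff₀ (by positivity)]
    nlinarith
  have hlb : 0 < Real.logb 2 (A / x ^ 5) := Real.logb_pos (by norm_num) (by linarith)
  have hK₀pos : 0 < K₀ := Nat.ceil_pos.2 hlb
  have hK₀' : (0 : ℝ) < K₀ := by exact_mod_cast hK₀pos
  have h2K : A / x ^ 5 ≤ 2 ^ K₀ := by
    have h1 : A / x ^ 5 = (2 : ℝ) ^ Real.logb 2 (A / x ^ 5) :=
      (Real.rpow_logb (by norm_num) (by norm_num) (by linarith)).symm
    calc A / x ^ 5 = (2 : ℝ) ^ Real.logb 2 (A / x ^ 5) := h1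
      _ ≤ (2 : ℝ) ^ (K₀ : ℝ) := Real.rpow_le_rpow_of_exponent_le (by norm_num) (Nat.le_ceil _)
      _ = 2 ^ K₀ := Real.rpow_natCast _ _
  have hK₀le : (K₀ : ℝ) ≤ CK * Lx := by
    have h1 : (K₀ : ℝ) < Real.logb 2 (A / x ^ 5) + 1 := Nat.ceil_lt_add_one hlb.le
    have h2 : Real.logb 2 (A / x ^ 5) = (Real.log A + 5 * Lx) / Real.log 2 := by
      unfold Real.logb
      rw [Real.log_div (by linarith) (by positivity), Real.log_pow, hLx, Real.log_div one_ne_zero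
        hx.ne', Real.log_one]
      push_cast
      ring
    rw [h2] at h1
    have h3 : Real.log A / Real.log 2 + 1 ≤ (Real.log A / Real.log 2 + 1) / Real.log 2 * Lx := by
      rw [div_mul_eq_mul_div, le_div_iff₀ hlog2]
      gcongr
    calc (K₀ : ℝ) ≤ (Real.log A + 5 * Lx) / Real.log 2 + 1 := h1.le
      _ = (Real.log A / Real.log 2 + 1) + 5 / Real.log 2 * Lx := by ring
      _ ≤ (Real.log A / Real.log 2 + 1) / Real.log 2 * Lx + 5 / Real.log 2 * Lx := by linarith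
      _ = CK * Lx := by rw [hCK]; ring
  obtain ⟨J₀, hJ₀⟩ : ∃ J₀ : ℕ, l ≤ 2 ^ J₀ := by
    obtain ⟨J₀, h⟩ := pow_unbounded_of_one_lt l (by norm_num : (1 : ℝ) < 2)
    exact ⟨J₀, h.le⟩
  have hlJ : l * (1 / 2) ^ J₀ ≤ 1 := by
    rw [one_div_pow, mul_one_div, div_le_one (by positivity)]
    exact hJ₀
  -- relation between the detour height and the block length
  have hDl : 4 * R₀ ≤ l := by
    obtain ⟨e, he, _⟩ := exists_perp hd (0 : Eu d)
    have hn : ‖(l / 2) • e - (0 : Eu d)‖ = l / 2 := by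
      rw [sub_zero, norm_smul, he, mul_one, Real.norm_eq_abs, abs_of_pos (by positivity)]
    have := (hgain' (2 * x ^ 3) (by positivity) le_rfl M hM0 0 ((l / 2) • e) (by rw [hn])
      (by rw [hn]; linarith)).1
    rw [hn] at this
    linarith
  have hJsucc : ∀ r, (1 / 2 : ℝ) ^ Jf J₀ K₀ (r + 1) = (1 / 2) ^ Jf J₀ K₀ r * (1 / 2) ^ K₀ := by
    intro r
    rw [← pow_add]
    have : Jf J₀ K₀ (r + 1) = Jf J₀ K₀ r + K₀ := by
      unfold Jf
      ring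
    rw [this]
  have h2K' : (1 / 2 : ℝ) ^ K₀ ≤ x ^ 5 / A := by
    rw [one_div_pow]
    rw [one_div_le (by positivity) (by positivity), one_div_div]
    exact h2K
  have hJM : ∀ r, 8 * M * (1 / 2 : ℝ) ^ Jf J₀ K₀ (r + 1) ≤ (1 / 2) ^ Jf J₀ K₀ r := by
    intro r
    rw [hJsucc]
    have h1 : 8 * (M : ℝ) * (1 / 2) ^ K₀ ≤ 1 := by
      calc 8 * (M : ℝ) * (1 / 2) ^ K₀ ≤ 8 * (2 * (q ^ 2 / x ^ 5)) * (x ^ 5 / A) := by gcongr
        _ = 16 * q ^ 2 / A := by field_simp; ring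
        _ ≤ 1 := by rw [div_le_one (by linarith), hA]; linarith
    have h2 : (0 : ℝ) < (1 / 2) ^ Jf J₀ K₀ r := by positivity
    calc 8 * (M : ℝ) * ((1 / 2) ^ Jf J₀ K₀ r * (1 / 2) ^ K₀)
        = (8 * (M : ℝ) * (1 / 2) ^ K₀) * (1 / 2) ^ Jf J₀ K₀ r := by ring
      _ ≤ 1 * (1 / 2) ^ Jf J₀ K₀ r := by gcongr
      _ = _ := one_mul _
  have hJη : ∀ r, l / M * (1 / 2) ^ Jf J₀ K₀ r + 2 * R₀ * (1 / 2 : ℝ) ^ Jf J₀ K₀ (r + 1)
      ≤ (2 * x ^ 3) * (1 / 2) ^ Jf J₀ K₀ r := by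
    intro r
    rw [hJsucc]
    have h1 : l / M ≤ x ^ 3 := by
      rw [div_le_iff₀ hM0']
      rw [div_le_iff₀ (by positivity)] at hM1
      linarith
    have h2 : 2 * R₀ * (1 / 2) ^ K₀ ≤ x ^ 3 := by
      calc 2 * R₀ * (1 / 2) ^ K₀ ≤ 2 * R₀ * (x ^ 5 / A) := by gcongr
        _ = (2 * R₀ / A) * x ^ 2 * x ^ 3 := by ring
        _ ≤ 1 * 1 * x ^ 3 := by
            gcongr
            · rw [div_le_one (by linarith), hA]
              nlinarith
            · exact pow_le_one₀ hx.le (by linarith)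
        _ = x ^ 3 := by ring
    have h3 : (0 : ℝ) < (1 / 2) ^ Jf J₀ K₀ r := by positivity
    calc l / M * (1 / 2) ^ Jf J₀ K₀ r + 2 * R₀ * ((1 / 2) ^ Jf J₀ K₀ r * (1 / 2) ^ K₀)
        = (l / M + 2 * R₀ * (1 / 2) ^ K₀) * (1 / 2) ^ Jf J₀ K₀ r := by ring
      _ ≤ (x ^ 3 + x ^ 3) * (1 / 2) ^ Jf J₀ K₀ r := by gcongr
      _ = _ := by ring
  -- the constant
  refine ⟨c * J₀ + Real.log 3, ?_⟩
  filter_upwards [Filter.eventually_ge_atTop J₀] with n hn e he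
  set m := nLev J₀ K₀ n with hm
  set κ : Ω → ℝ≥0∞ := fun ω => kap (x ^ 3) (2 * x ^ 3) M R₀ l (Jf J₀ K₀) (Uf J₀ K₀ n) m 0
    (fld φ ω) 0 e with hκ
  have hκm : Measurable κ := (measurable_kap _ _ _ _ _ _ _ _ _ _ _).comp hφ.measurable_fld
  have hcond : m = 0 ∨ l * (1 / 2) ^ Jf J₀ K₀ 0 ≤ ‖e - (0 : Eu d)‖ := by
    right
    rw [sub_zero, he]
    simpa [Jf] using hlJ
  -- expectation
  have hexp : ∫⁻ ω, κ ω ∂P ≤ ENNReal.ofReal (Real.exp (c * J₀ - c / (2 * CK) * x ^ 4 / Lx * n)) := by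
    refine (kap_exp hd hG hφ hM0 hl0 (Jf_strictMono hK₀pos) (Jf_notMem hK₀pos hn) hJM hδ
      (fun X Y h1 h2 P ψ hψ => (hgain' (2 * x ^ 3) (by positivity) le_rfl M hM0 X Y h1 h2).2 P ψ hψ)
      m 0 0 e hcond).trans (ENNReal.ofReal_le_ofReal ?_)
    rw [sub_zero, he, mul_one]
    have h1 : (1 - c * x ^ 4) ^ m ≤ Real.exp (-(c * x ^ 4) * m) := by
      have h0 : -(c * x ^ 4) * (m : ℝ) = m * (-(c * x ^ 4)) := by ring
      rw [h0, Real.exp_nat_mul]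
      apply pow_le_pow_left₀ hδ.le
      have := Real.add_one_le_exp (-(c * x ^ 4))
      linarith
    have h2 : ((Uf J₀ K₀ n).card : ℝ) ≤ n := by
      have : (Uf J₀ K₀ n).card ≤ n := by
        unfold Uf
        refine (Finset.card_le_card Finset.sdiff_subset).trans ?_
        rw [Finset.card_range]
      exact_mod_cast this
    calc Real.exp ((x ^ 3) ^ 2 * v₀ / 2 * (Uf J₀ K₀ n).card) * (1 - c * x ^ 4) ^ m
        ≤ Real.exp ((x ^ 3) ^ 2 * v₀ / 2 * n) * Real.exp (-(c * x ^ 4) * m) := by gcongr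
      _ = Real.exp ((x ^ 3) ^ 2 * v₀ / 2 * n + -(c * x ^ 4) * m) := (Real.exp_add _ _).symm
      _ ≤ Real.exp (c * J₀ - c / (2 * CK) * x ^ 4 / Lx * n) := by
          apply Real.exp_le_exp.2
          have h3 := le_nLev hK₀pos hn
          rw [← hm] at h3
          have h4 : c * x ^ 4 * (((n : ℝ) - J₀) / K₀) ≤ c * x ^ 4 * m := by gcongr
          have h5 : c * x ^ 4 * ((J₀ : ℝ) / K₀) ≤ c * J₀ := by
            have h6 : (1 : ℝ) ≤ K₀ := by exact_mod_cast hK₀pos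
            have h7 : (J₀ : ℝ) / K₀ ≤ J₀ := div_le_self (Nat.cast_nonneg _) h6
            have h8 : x ^ 4 ≤ 1 := pow_le_one₀ hx.le (by linarith)
            calc c * x ^ 4 * ((J₀ : ℝ) / K₀) ≤ c * 1 * J₀ := by gcongr
              _ = c * J₀ := by ring
          have h9 : (x ^ 3) ^ 2 * v₀ / 2 * n ≤ c * x ^ 4 * ((n : ℝ) / K₀) / 2 := by
            have h10 : x ^ 2 * v₀ * K₀ ≤ c := by
              calc x ^ 2 * v₀ * K₀ ≤ x ^ 2 * v₀ * (CK * Lx) := by gcongr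
                _ ≤ x ^ 2 * v₀ * (CK * (1 / x)) := by gcongr
                _ = x * (CK * v₀) := by field_simp
                _ ≤ c / (CK * v₀) * (CK * v₀) := by gcongr
                _ = c := by field_simp
            calc (x ^ 3) ^ 2 * v₀ / 2 * n = (x ^ 2 * v₀ * K₀) * (x ^ 4 * ((n : ℝ) / K₀) / 2) := by
                  field_simp
              _ ≤ c * (x ^ 4 * ((n : ℝ) / K₀) / 2) := by gcongr
              _ = _ := by ring
          have h11 : c / (2 * CK) * x ^ 4 / Lx * n ≤ c * x ^ 4 * ((n : ℝ) / K₀) / 2 := by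
            have h12 : (n : ℝ) / (CK * Lx) ≤ n / K₀ := by gcongr
            calc c / (2 * CK) * x ^ 4 / Lx * n = c * x ^ 4 / 2 * (n / (CK * Lx)) := by
                  field_simp
              _ ≤ c * x ^ 4 / 2 * (n / K₀) := by gcongr
              _ = _ := by ring
          have h13 : c * x ^ 4 * (((n : ℝ) - J₀) / K₀)
              = c * x ^ 4 * ((n : ℝ) / K₀) - c * x ^ 4 * ((J₀ : ℝ) / K₀) := by ring
          linarith
  -- pathwise
  have hpath : ∀ ω, ENNReal.ofReal (expDist (x ^ 3) (fun p => ∑ j ∈ Finset.range n, φ j p ω)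
      (cube d 2) 0 e) ≤ κ ω := by
    intro ω
    have h1 := kap_path hd (ξ := x ^ 3) (η := 2 * x ^ 3) (by positivity) (by positivity)
      (by linarith) hM0 hl0 hR hDl (U := Uf J₀ K₀ n) hJM hJη (f := fld φ ω)
      (fun j => hφ.smooth j ω) m 0 0 e hcond
    have h2 : (fun p => ∑ j ∈ Uf J₀ K₀ n, fld φ ω j p
        + ∑ i ∈ Finset.Ico 0 (0 + m), fld φ ω (Jf J₀ K₀ i) p)
        = fun p => ∑ j ∈ Finset.range n, φ j p ω := by
      ext p
      exact sum_Uf hK₀pos hn (fun j => φ j p ω)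
    rw [h2] at h1
    have h3 := h1.mono (tube_subset_cube he (by
      have : 2 * R₀ * (1 / 2) ^ Jf J₀ K₀ 0 ≤ 1 / 2 := by
        have h4 : 4 * R₀ * (1 / 2) ^ J₀ ≤ l * (1 / 2) ^ J₀ := by gcongr
        simp only [Jf, mul_zero, add_zero]
        linarith
      linarith)) le_rfl
    refine h3.expDist_le (continuous_finsetSum _ fun j _ => (hφ.smooth j ω).continuous) ?_
    intro h4
    rw [← h4, norm_zero] at he
    exact zero_ne_one he
  -- Markov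
  set B : ℝ := Real.exp (c * J₀ - c / (2 * CK) * x ^ 4 / Lx * n) with hB
  have hB0 : 0 < B := Real.exp_pos _
  have h3B : Real.exp (c * J₀ + Real.log 3 - c / (2 * CK) * x ^ 4 / Lx * n) = 3 * B := by
    rw [hB]
    have : c * J₀ + Real.log 3 - c / (2 * CK) * x ^ 4 / Lx * n
        = Real.log 3 + (c * J₀ - c / (2 * CK) * x ^ 4 / Lx * n) := by ring
    rw [this, Real.exp_add, Real.exp_log (by norm_num)]
  rw [h3B]
  have hsub : {ω | 3 * B ≤ expDist (x ^ 3) (fun p => ∑ j ∈ Finset.range n, φ j p ω)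
      (cube d 2) 0 e} ⊆ {ω | ENNReal.ofReal (3 * B) ≤ κ ω} := by
    intro ω hω
    exact (ENNReal.ofReal_le_ofReal hω).trans (hpath ω)
  refine (measure_mono hsub).trans ?_
  refine (meas_ge_le_lintegral_div hκm.aemeasurable (ENNReal.ofReal_pos.2 (by positivity)).ne'
    (by finiteness)).trans ?_
  calc (∫⁻ ω, κ ω ∂P) / ENNReal.ofReal (3 * B) ≤ ENNReal.ofReal B / ENNReal.ofReal (3 * B) := by
        gcongr
    _ = ENNReal.ofReal (B / (3 * B)) := (ENNReal.ofReal_div_of_pos (by positivity)).symm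
    _ = ENNReal.ofReal (1 / 3) := by
        congr 1
        field_simp
    _ = 1 / 3 := by
        rw [ENNReal.ofReal_div_of_pos (by norm_num), ENNReal.ofReal_one, ENNReal.ofReal_ofNat]

end Pool.Agent.Lib_MP_71c74a_pr
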