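import Pool.Agent.Lib_MP_71c74a_pr.LowerSharp

/-!
# The sharp rate in the lower bound for the distance
-/

open MeasureTheory ProbabilityTheory Set
open scoped ENNReal NNReal Topology

namespace Pool.Agent.Lib_MP_71c74a_pr

variable {d : ℕ}

/-- **With high probability all paths are long**, with the sharp rate. -/
theorem lower_event_sharp {Ω H : Type*} [MeasurableSpace Ω] [NormedAddCommGroup H]
    [InnerProductSpace ℝ H] {P : Measure Ω} {G : Eu d → H} {φ : ℕ → Eu d → Ω → ℝ}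
    {R₀ v₀ C : ℝ} (hG : CovLaw G R₀ v₀ C) (hφ : Scales P G φ) :
    ∃ A x₀ : ℝ, 0 < A ∧ 0 < x₀ ∧ x₀ ≤ 1 / 2 ∧ ∀ x : ℝ, 0 < x → x ≤ x₀ → ∃ b : ℝ,
      ∀ᶠ n : ℕ in Filter.atTop, ∃ E : Set Ω, P Eᶜ ≤ 1 / 4 ∧ ∀ ω ∈ E, ∀ (U : Set (Eu d))
        (w : Eu d) (γ : ℝ → Eu d), IsPath U 0 w γ → ‖w‖ = 1 →
        Real.exp (-b - A * x ^ 4 * n)
        ≤ pathLen (x ^ 3) (fun y => ∑ j ∈ Finset.range n, φ j y ω) γ := by
  obtain ⟨C₁, C₂, C', hC', hev⟩ := lower_event_aux hG hφ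
  have hLK := LK_nonneg d
  set c₂ := C₂ ^ 2 with hc₂
  set A : ℝ := 512 * (c₂ * ((d + 3 : ℕ) + C₁)) + C' * (8 + 8 * LK d + 384 * d)
    + 24 * C' * ((d + 3 : ℕ) : ℝ) + 147456 * (c₂ * ((d + 3 : ℕ) + C₁)) + 1
    + 513 * (6 * d + 21) * (1 + c₂ * ((d + 3 : ℕ) + C₁)) with hA
  have hA0 : 0 < A := by positivity
  -- threshold
  set x₀ : ℝ := 1 / (2 * (8 * d + 16)) with hx₀
  have hx₀0 : 0 < x₀ := by positivity
  have hx₀1 : x₀ ≤ 1 / 2 := by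
    rw [hx₀]
    apply one_div_le_one_div_of_le (by norm_num)
    have : (0 : ℝ) ≤ d := Nat.cast_nonneg d
    linarith
  refine ⟨A, x₀, hA0, hx₀0, hx₀1, fun x hx hxx => ?_⟩
  have hx1 : x ≤ 1 := by linarith
  have hd0 : (0 : ℝ) ≤ d := Nat.cast_nonneg d
  -- the number `k₀`
  have hxinv : 1 ≤ 1 / x ^ 2 := by
    rw [le_div_iff₀ (by positivity), one_mul]
    exact pow_le_one₀ hx.le hx1
  obtain ⟨m, hm1, hm2⟩ := exists_nat_pow_near hxinv (by norm_num : (1 : ℝ) < 2)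
  set k₀ := m + 1 with hk₀
  have hk0 : 0 < k₀ := by omega
  have h1 : (1 / 2 : ℝ) ^ k₀ ≤ x ^ 2 := by
    rw [one_div_pow, div_le_iff₀ (by positivity)]
    rw [div_lt_iff₀ (by positivity)] at hm2
    linarith
  have h2 : x ^ 2 ≤ 2 * (1 / 2) ^ k₀ := by
    have : (2 : ℝ) * (1 / 2) ^ k₀ = 1 / 2 ^ m := by
      rw [hk₀, one_div_pow, pow_succ]; field_simp
    rw [this, le_div_iff₀ (by positivity)]
    rw [le_div_iff₀ (by positivity)] at hm1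
    linarith
  -- `2^{k₀}` is large
  have hbig : 8 * (d : ℝ) + 16 ≤ 2 ^ k₀ := by
    have h3 : (1 : ℝ) ≤ x ^ 2 * 2 ^ k₀ := by
      rw [one_div_pow, div_le_iff₀ (by positivity)] at h1
      exact h1
    have h4 : x * (2 * (8 * d + 16)) ≤ 1 := by
      have : x * (2 * (8 * d + 16)) ≤ x₀ * (2 * (8 * d + 16)) := by gcongr
      rw [hx₀, one_div_mul_cancel (by positivity)] at this
      exact this
    have h5 : 0 < (2 : ℝ) ^ k₀ := by positivity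
    have h6 : x ^ 2 ≤ x := by nlinarith
    have h7 : 1 ≤ x * 2 ^ k₀ := by
      have : x ^ 2 * 2 ^ k₀ ≤ x * 2 ^ k₀ := by gcongr
      linarith
    by_contra hcon
    rw [not_le] at hcon
    have h8 : x * 2 ^ k₀ ≤ x * (8 * d + 16) := by gcongr
    have h9 : x * (2 * (8 * d + 16)) = 2 * (x * (8 * d + 16)) := by ring
    linarith
  have hk4 : 9 * (d : ℝ) + 16 ≤ 2 ^ (4 * k₀) := by
    have h3 : (2 : ℝ) ^ (k₀ + 1) ≤ 2 ^ (4 * k₀) := pow_le_pow_right₀ (by norm_num) (by omega)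
    rw [pow_succ] at h3
    linarith
  -- scaling relations
  have hvs := vs_pos
  have hv : vs ^ k₀ ≤ x := by
    apply le_of_sq_le_sq _ hx.le
    rw [← pow_mul, mul_comm, pow_mul, vs_sq]
    exact h1
  have hξκ : x ^ 3 * vs ^ k₀ ≤ x ^ 4 := by
    calc x ^ 3 * vs ^ k₀ ≤ x ^ 3 * x := by gcongr
      _ = x ^ 4 := by ring
  have hκ4 : x ^ 4 * 4 ^ k₀ ≤ 4 := by
    have h3 : (1 / 2 : ℝ) ^ k₀ * 2 ^ k₀ = 1 := by rw [← mul_pow]; norm_num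
    have h4 : (4 : ℝ) ^ k₀ = 2 ^ k₀ * 2 ^ k₀ := by rw [← mul_pow]; norm_num
    calc x ^ 4 * 4 ^ k₀ = (x ^ 2) ^ 2 * (2 ^ k₀ * 2 ^ k₀) := by rw [h4]; ring
      _ ≤ (2 * (1 / 2) ^ k₀) ^ 2 * (2 ^ k₀ * 2 ^ k₀) := by gcongr
      _ = 4 * ((1 / 2 : ℝ) ^ k₀ * 2 ^ k₀) ^ 2 := by ring
      _ = 4 := by rw [h3]; norm_num
  refine ⟨(k₀ + 1) + C' * (8 * k₀) * (8 + 8 * LK d + 384 * d) + 8 * k₀, ?_⟩
  filter_upwards [hev (x ^ 3) (x ^ 4) (4 * k₀) k₀ (by positivity) (by positivity) hξκ hκ4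
    (by linarith) hk4 le_rfl hk0] with n hn
  obtain ⟨E, N, hNn, _, hE, hpath⟩ := hn
  refine ⟨E, hE, fun ω hω U w γ hγ hw => le_trans ?_ (hpath ω hω U w γ hγ hw)⟩
  apply Real.exp_le_exp.2
  have h3 := expo_le (d := d) hC'.le C₁ (d + 3) hx hx1 hk0 h1 h2 (c₂ := c₂) (by positivity)
    (n := n) (N := N) (by omega)
  rw [← hA] at h3
  linarith

end Pool.Agent.Lib_MP_71c74a_pr
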