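import Pool.Agent.Lib_MP_71c74a_pr.KapG

/-!
# Expectation of the multiscale cost with exact weights
-/

open MeasureTheory ProbabilityTheory Set
open scoped ENNReal NNReal Topology

namespace Pool.Agent.Lib_MP_71c74a_pr

variable {d : ℕ} {Ω H : Type*} [MeasurableSpace Ω] [NormedAddCommGroup H]
  [InnerProductSpace ℝ H] {P : Measure Ω} {G : Eu d → H} {φ : ℕ → Eu d → Ω → ℝ} {R₀ v₀ C : ℝ}

/-- The cost only depends on the decision fields. -/
lemma kapG_congr (M : ℕ) (D l : ℝ) (J : ℕ → ℕ) (L : Eu d → Eu d → ℝ≥0∞) (q : ℕ) :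
    ∀ r (x y : Eu d) (f f' : ℕ → Eu d → ℝ), (∀ i, r ≤ i → i < r + q → f (J i) = f' (J i)) →
      kapG M D l J f L q r x y = kapG M D l J f' L q r x y := by
  induction q with
  | zero => intro r x y f f' _; rfl
  | succ q ih =>
    intro r x y f f' h
    unfold kapG
    have e1 : unitF J f r = unitF J f' r := by
      unfold unitF
      rw [h r le_rfl (by omega)]
    have e2 : (fun x' y' => kapG M D l J f L q (r + 1) ((1 / 2 : ℝ) ^ J r • x')
        ((1 / 2 : ℝ) ^ J r • y'))
        = (fun x' y' => kapG M D l J f' L q (r + 1) ((1 / 2 : ℝ) ^ J r • x')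
        ((1 / 2 : ℝ) ^ J r • y')) := by
      ext x' y'
      exact ih (r + 1) _ _ f f' (fun i hi1 hi2 => h i (by omega) (by omega))
    rw [e1, e2]

/-- Absorbing a factor into the weight. -/
lemma mul_kapG_leafN (M : ℕ) (D l : ℝ) (J : ℕ → ℕ) (f : ℕ → Eu d → ℝ) (N : ℕ)
    (g : Eu d → ℝ≥0∞) (c : ℝ≥0∞) (q r : ℕ) (x y : Eu d) :
    c * kapG M D l J f (leafN N g) q r x y
      = kapG M D l J f (leafN N (fun p => c * g p)) q r x y := by
  rw [leafN_mul, kapG_mul]

/-- **Integrating out an independent field.** -/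
theorem kapG_swap (hφ : Scales P G φ) {M : ℕ} {D l : ℝ} {J : ℕ → ℕ} {N : ℕ} {j₀ : ℕ}
    {a : (Eu d → ℝ) → Eu d → ℝ≥0∞} (ha : ∀ p, Measurable fun ψ => a ψ p) (q : ℕ) :
    ∀ r (x y : Eu d) (T : Finset ℕ) (g : (ℕ → Eu d → ℝ) → Eu d → ℝ≥0∞),
      (∀ p, Measurable fun f => g f p) →
      (∀ f f' : ℕ → Eu d → ℝ, (∀ j ∈ T, f j = f' j) → g f = g f') → j₀ ∉ T →
      (∀ i, r ≤ i → i < r + q → J i ≠ j₀) →
      ∫⁻ ω, kapG M D l J (fld φ ω) (leafN N (fun p => a (fld φ ω j₀) p * g (fld φ ω) p)) q r x y ∂P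
        = ∫⁻ ω, kapG M D l J (fld φ ω)
          (leafN N (fun p => (∫⁻ ω', a (fld φ ω' j₀) p ∂P) * g (fld φ ω) p)) q r x y ∂P := by
  have hfm := hφ.measurable_fld
  have hfj : Measurable fun ω => fld φ ω j₀ := (measurable_pi_apply j₀).comp hfm
  induction q with
  | zero =>
    intro r x y T g hg hdep hT _
    simp only [kapG, leafN]
    have hm1 : ∀ i ∈ Finset.range N, Measurable (fun ω => a (fld φ ω j₀) (segPt N x y i)
        * g (fld φ ω) (segPt N x y i)) := fun i _ => ((ha _).comp hfj).mul ((hg _).comp hfm)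
    have hm2 : ∀ i ∈ Finset.range N, Measurable (fun ω =>
        (∫⁻ ω', a (fld φ ω' j₀) (segPt N x y i) ∂P) * g (fld φ ω) (segPt N x y i)) := fun i _ =>
      ((hg _).comp hfm).const_mul _
    rw [lintegral_const_mul _ (Finset.measurable_sum _ hm1),
      lintegral_const_mul _ (Finset.measurable_sum _ hm2), lintegral_finsetSum _ hm1,
      lintegral_finsetSum _ hm2]
    congr 1
    refine Finset.sum_congr rfl fun i _ => ?_
    have hgm : Measurable fun ω => g (fld φ ω) (segPt N x y i) := (hg _).comp hfm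
    rw [lintegral_const_mul _ hgm]
    exact hφ.indep_factor hT (a := fun ψ => a ψ (segPt N x y i)) (ha _)
      (k := fun f => g f (segPt N x y i)) (hg _) (fun f f' h => by rw [hdep f f' h])
  | succ q ih =>
    intro r x y T g hg hdep hT hJ
    have hmL : ∀ (g' : Ω → Eu d → ℝ≥0∞), (∀ p, Measurable fun ω => g' ω p) →
        ∀ (U V : Eu d) (c : Fin 4) (u v : Eu d), Measurable (fun ω =>
          indC M D U V c (unitF J (fld φ ω) r) * kapG M D l J (fld φ ω) (leafN N (g' ω)) q
            (r + 1) u v) := by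
      intro g' hg' U V c u v
      exact ((measurable_indC M D U V c).comp ((measurable_unitF J r).comp hfm)).mul
        (measurable_kapG M D l J hfm (fun x y => measurable_leafN N hg' x y) q (r + 1) u v)
    have hg1 : ∀ p, Measurable fun ω => a (fld φ ω j₀) p * g (fld φ ω) p := fun p =>
      ((ha _).comp hfj).mul ((hg _).comp hfm)
    have hg2 : ∀ p, Measurable fun ω => (∫⁻ ω', a (fld φ ω' j₀) p ∂P) * g (fld φ ω) p := fun p =>
      ((hg _).comp hfm).const_mul _
    simp only [kapG, blkG]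
    rw [lintegral_finsetSum _ fun i _ => Finset.measurable_sum _ fun c _ =>
        Finset.measurable_sum _ fun j _ => hmL _ hg1 _ _ _ _ _,
      lintegral_finsetSum _ fun i _ => Finset.measurable_sum _ fun c _ =>
        Finset.measurable_sum _ fun j _ => hmL _ hg2 _ _ _ _ _]
    refine Finset.sum_congr rfl fun i _ => ?_
    rw [lintegral_finsetSum _ fun c _ => Finset.measurable_sum _ fun j _ => hmL _ hg1 _ _ _ _ _,
      lintegral_finsetSum _ fun c _ => Finset.measurable_sum _ fun j _ => hmL _ hg2 _ _ _ _ _]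
    refine Finset.sum_congr rfl fun c _ => ?_
    rw [lintegral_finsetSum _ fun j _ => hmL _ hg1 _ _ _ _ _,
      lintegral_finsetSum _ fun j _ => hmL _ hg2 _ _ _ _ _]
    refine Finset.sum_congr rfl fun j _ => ?_
    simp_rw [mul_kapG_leafN]
    set U := segPt (nBlk J l r x y) (((1 / 2 : ℝ) ^ J r)⁻¹ • x) (((1 / 2 : ℝ) ^ J r)⁻¹ • y) i
      with hU
    set V := segPt (nBlk J l r x y) (((1 / 2 : ℝ) ^ J r)⁻¹ • x) (((1 / 2 : ℝ) ^ J r)⁻¹ • y) (i + 1)
      with hV
    have h1 := ih (r + 1) ((1 / 2 : ℝ) ^ J r • segPt 16 (pcP D U V c) (pcQ D U V c) j)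
      ((1 / 2 : ℝ) ^ J r • segPt 16 (pcP D U V c) (pcQ D U V c) (j + 1)) (insert (J r) T)
      (fun f p => indC M D U V c (unitF J f r) * g f p)
      (fun p => ((measurable_indC M D U V c).comp (measurable_unitF J r)).mul (hg p))
      (fun f f' h => by
        have e1 : unitF J f r = unitF J f' r := by
          unfold unitF
          rw [h (J r) (Finset.mem_insert_self _ _)]
        rw [e1, hdep f f' fun j hj => h j (Finset.mem_insert_of_mem hj)])
      (by
        rw [Finset.mem_insert, not_or]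
        exact ⟨fun h => hJ r le_rfl (by omega) h.symm, hT⟩)
      (fun i hi1 hi2 => hJ i (by omega) (by omega))
    have e1 : ∀ ω p, indC M D U V c (unitF J (fld φ ω) r) * (a (fld φ ω j₀) p * g (fld φ ω) p)
        = a (fld φ ω j₀) p * (indC M D U V c (unitF J (fld φ ω) r) * g (fld φ ω) p) := by
      intro ω p; ring
    have e2 : ∀ ω p, indC M D U V c (unitF J (fld φ ω) r)
          * ((∫⁻ ω', a (fld φ ω' j₀) p ∂P) * g (fld φ ω) p)
        = (∫⁻ ω', a (fld φ ω' j₀) p ∂P)
          * (indC M D U V c (unitF J (fld φ ω) r) * g (fld φ ω) p) := by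
      intro ω p; ring
    simp_rw [e1, e2]
    exact h1

/-- The weight of a set of fields. -/
noncomputable def gA (ξ : ℝ) (A : Finset ℕ) (f : ℕ → Eu d → ℝ) (p : Eu d) : ℝ≥0∞ :=
  ∏ j ∈ A, ENNReal.ofReal (Real.exp (ξ * f j p))

lemma gA_eq (ξ : ℝ) (A : Finset ℕ) (f : ℕ → Eu d → ℝ) (p : Eu d) :
    gA ξ A f p = ENNReal.ofReal (Real.exp (ξ * ∑ j ∈ A, f j p)) := by
  unfold gA
  rw [Finset.mul_sum, Real.exp_sum, ENNReal.ofReal_prod_of_nonneg
        (fun j _ => (Real.exp_pos _).le)]

lemma measurable_gA (ξ : ℝ) (A : Finset ℕ) (p : Eu d) :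
    Measurable (fun f : ℕ → Eu d → ℝ => gA ξ A f p) := by
  unfold gA
  refine Finset.measurable_prod _ fun j _ => ?_
  have h1 : Measurable (fun f : ℕ → Eu d → ℝ => f j p) :=
    (measurable_pi_apply p).comp (measurable_pi_apply j)
  exact ENNReal.measurable_ofReal.comp (Real.measurable_exp.comp (h1.const_mul ξ))

lemma gA_congr (ξ : ℝ) (A : Finset ℕ) {f f' : ℕ → Eu d → ℝ} (h : ∀ j ∈ A, f j = f' j) :
    gA ξ A f = gA ξ A f' := by
  ext p
  unfold gA
  exact Finset.prod_congr rfl fun j hj => by rw [h j hj]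

lemma Scales.lintegral_gA (hG : CovLaw G R₀ v₀ C) (hφ : Scales P G φ) (ξ : ℝ) (A : Finset ℕ)
    (p : Eu d) : ∫⁻ ω, gA ξ A (fld φ ω) p ∂P
      = ENNReal.ofReal (Real.exp (ξ ^ 2 * v₀ / 2 * A.card)) := by
  have h1 : ∀ ω, gA ξ A (fld φ ω) p = ∏ j ∈ A, ENNReal.ofReal (Real.exp (ξ * φ j p ω)) :=
    fun ω => rfl
  simp_rw [h1]
  have hind : iIndepFun (fun j ω => ENNReal.ofReal (Real.exp (ξ * φ j p ω))) P :=
    hφ.indep.comp (fun j => fun f : Eu d → ℝ => ENNReal.ofReal (Real.exp (ξ * f p)))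
      (fun j => by
        have : Measurable (fun f : Eu d → ℝ => f p) := measurable_pi_apply p
        exact ENNReal.measurable_ofReal.comp (Real.measurable_exp.comp (this.const_mul ξ)))
  rw [lintegral_prod_eq_prod_lintegral_of_indepFun A _ hind (fun j => by
    have := hφ.meas j p
    fun_prop)]
  rw [Finset.prod_congr rfl fun j _ => hφ.lintegral_exp hG ξ j p, Finset.prod_const,
    ← ENNReal.ofReal_pow (Real.exp_pos _).le, ← Real.exp_nat_mul]
  congr 2
  ring

/-- **Expectation of the multiscale cost.** -/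
theorem kapG_exp (hd : 2 ≤ d) (hG : CovLaw G R₀ v₀ C) (hφ : Scales P G φ) {ξ l δ ρ : ℝ} {M N : ℕ}
    (hN : 0 < N) (hl : 0 < l) (hDl : 4 * R₀ ≤ l) {J : ℕ → ℕ} {U : Finset ℕ}
    (hJmono : StrictMono J) (hJU : ∀ i, J i ∉ U)
    (hJM : ∀ r, 8 * 16 * (1 / 2 : ℝ) ^ J (r + 1) ≤ (1 / 2) ^ J r)
    (hJρ : ∀ r, 2 * R₀ * (1 / 2 : ℝ) ^ J (r + 1) ≤ ρ * (1 / 2) ^ J r) (hδ : 0 < 1 - δ)
    (hblk : ∀ (X Y : Eu d), l / 2 ≤ ‖Y - X‖ → ‖Y - X‖ ≤ l →
      ∀ (P : Measure Ω) (ψ : Eu d → Ω → ℝ), FieldLaw P G ψ → ∃ w : Fin 4 → ℕ → ℝ,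
      (∀ c, ∀ j < 16, 0 ≤ w c j) ∧
      (∀ c, ∀ j < 16, ∀ p ∈ tube (segPt 16 (pcP R₀ X Y c) (pcQ R₀ X Y c) j)
        (segPt 16 (pcP R₀ X Y c) (pcQ R₀ X Y c) (j + 1)) ρ,
        ∫⁻ ω, indC M R₀ X Y c (fun x => ψ x ω) * ENNReal.ofReal (Real.exp (ξ * ψ p ω)) ∂P
          ≤ ENNReal.ofReal (w c j)) ∧
      ∑ c : Fin 4, ∑ j ∈ Finset.range 16, w c j * (‖pcQ R₀ X Y c - pcP R₀ X Y c‖ / 16)
        ≤ (1 - δ) * ‖Y - X‖) (q : ℕ) :
    ∀ r (x y : Eu d), (q = 0 ∨ l * (1 / 2) ^ J r ≤ ‖y - x‖) →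
      ∫⁻ ω, kapG M R₀ l J (fld φ ω)
        (leafN N (gA ξ (U ∪ (Finset.Ico r (r + q)).image J) (fld φ ω))) q r x y ∂P
        ≤ ENNReal.ofReal (Real.exp (ξ ^ 2 * v₀ / 2 * U.card) * (1 - δ) ^ q * ‖y - x‖) := by
  have hfm := hφ.measurable_fld
  have hN' : (0 : ℝ) < N := by exact_mod_cast hN
  have hR := hG.R₀_pos
  induction q with
  | zero =>
    intro r x y _
    simp only [kapG, leafN, Nat.add_zero, Finset.Ico_self, Finset.image_empty,
      Finset.union_empty, pow_zero, mul_one]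
    have hm1 : ∀ i ∈ Finset.range N, Measurable (fun ω => gA ξ U (fld φ ω) (segPt N x y i)) :=
      fun i _ => (measurable_gA ξ U _).comp hfm
    rw [lintegral_const_mul _ (Finset.measurable_sum _ hm1), lintegral_finsetSum _ hm1,
      Finset.sum_congr rfl fun i _ => hφ.lintegral_gA hG ξ U _, Finset.sum_const,
      Finset.card_range, nsmul_eq_mul]
    rw [← ENNReal.ofReal_natCast, ← ENNReal.ofReal_mul (Nat.cast_nonneg _),
      ← ENNReal.ofReal_mul (by positivity)]
    apply le_of_eq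
    congr 1
    field_simp
  | succ q ih =>
    intro r x y hxy
    have hxy' : l * (1 / 2) ^ J r ≤ ‖y - x‖ := by
      rcases hxy with h | h
      · omega
      · exact h
    obtain ⟨B, X, Y, hg⟩ := exists_stepGeo (D := R₀) hl hxy'
    have hBr : (0 : ℝ) < B := by exact_mod_cast hg.Bpos
    set s : ℝ := (1 / 2) ^ J r with hs
    have hs0 : 0 < s := by positivity
    set E := Real.exp (ξ ^ 2 * v₀ / 2 * U.card) * (1 - δ) ^ q with hE
    have hE0 : 0 < E := by positivity
    set A' : Finset ℕ := U ∪ (Finset.Ico (r + 1) (r + 1 + q)).image J with hA'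
    have hJA' : J r ∉ A' := by
      rw [hA', Finset.mem_union, not_or]
      refine ⟨hJU r, fun hmem => ?_⟩
      rw [Finset.mem_image] at hmem
      obtain ⟨i', hi', heq⟩ := hmem
      rw [Finset.mem_Ico] at hi'
      have := hJmono.injective heq
      omega
    have hA : U ∪ (Finset.Ico r (r + (q + 1))).image J = insert (J r) A' := by
      have h1 : Finset.Ico r (r + (q + 1)) = insert r (Finset.Ico (r + 1) (r + 1 + q)) := by
        ext i
        simp only [Finset.mem_Ico, Finset.mem_insert]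
        omega
      rw [h1, Finset.image_insert, hA', Finset.union_insert]
    have hgA : ∀ f : ℕ → Eu d → ℝ, gA ξ (U ∪ (Finset.Ico r (r + (q + 1))).image J) f
        = fun p => ENNReal.ofReal (Real.exp (ξ * f (J r) p)) * gA ξ A' f p := by
      intro f
      ext p
      rw [hA]
      unfold gA
      rw [Finset.prod_insert hJA']
    simp_rw [hgA]
    -- one small segment
    have hseg : ∀ i < B, ∃ w : Fin 4 → ℕ → ℝ,
        (∀ c, ∀ j < 16, 0 ≤ w c j) ∧
        (∀ c, ∀ j < 16, ∫⁻ ω, indC M R₀ (segPt B X Y i) (segPt B X Y (i + 1)) c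
            (unitF J (fld φ ω) r) * kapG M R₀ l J (fld φ ω)
            (leafN N (fun p => ENNReal.ofReal (Real.exp (ξ * fld φ ω (J r) p))
              * gA ξ A' (fld φ ω) p)) q (r + 1)
            (s • segPt 16 (pcP R₀ (segPt B X Y i) (segPt B X Y (i + 1)) c)
              (pcQ R₀ (segPt B X Y i) (segPt B X Y (i + 1)) c) j)
            (s • segPt 16 (pcP R₀ (segPt B X Y i) (segPt B X Y (i + 1)) c)
              (pcQ R₀ (segPt B X Y i) (segPt B X Y (i + 1)) c) (j + 1)) ∂P
          ≤ ENNReal.ofReal (E * s * (w c j * (‖pcQ R₀ (segPt B X Y i) (segPt B X Y (i + 1)) c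
            - pcP R₀ (segPt B X Y i) (segPt B X Y (i + 1)) c‖ / 16)))) ∧
        ∑ c : Fin 4, ∑ j ∈ Finset.range 16, w c j
          * (‖pcQ R₀ (segPt B X Y i) (segPt B X Y (i + 1)) c
            - pcP R₀ (segPt B X Y i) (segPt B X Y (i + 1)) c‖ / 16)
          ≤ (1 - δ) * (‖Y - X‖ / B) := by
      intro i hi
      set X' := segPt B X Y i with hX'
      set Y' := segPt B X Y (i + 1) with hY'
      have hXY' : ‖Y' - X'‖ = ‖Y - X‖ / B := norm_segPt_succ X Y i
      obtain ⟨w, hw0, hw1, hw2⟩ := hblk X' Y' (by rw [hXY']; exact hg.bl)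
        (by rw [hXY']; exact hg.bu) P _ (hφ.law (J r))
      refine ⟨w, hw0, fun c j hj => ?_, by rw [← hXY']; exact hw2⟩
      set u := segPt 16 (pcP R₀ X' Y' c) (pcQ R₀ X' Y' c) j with hu
      set v := segPt 16 (pcP R₀ X' Y' c) (pcQ R₀ X' Y' c) (j + 1) with hv
      obtain ⟨h1, h2⟩ := hg.sub hd hR hl hDl hJM hi c hj hu hv
      have huv : ‖v - u‖ = ‖pcQ R₀ X' Y' c - pcP R₀ X' Y' c‖ / 16 := by
        rw [hu, hv]
        have := norm_segPt_succ (M := 16) (pcP R₀ X' Y' c) (pcQ R₀ X' Y' c) j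
        simpa using this
      simp_rw [mul_kapG_leafN]
      set a : (Eu d → ℝ) → Eu d → ℝ≥0∞ := fun ψ p =>
        indC M R₀ X' Y' c (fun x => ψ (s • x)) * ENNReal.ofReal (Real.exp (ξ * ψ p)) with ha
      have ham : ∀ p, Measurable fun ψ => a ψ p := by
        intro p
        have m1 : Measurable fun ψ : Eu d → ℝ => (fun x => ψ (s • x)) :=
          measurable_pi_lambda _ fun x => measurable_pi_apply _
        have m2 : Measurable fun ψ : Eu d → ℝ => ψ p := measurable_pi_apply p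
        exact ((measurable_indC M R₀ X' Y' c).comp m1).mul
          (ENNReal.measurable_ofReal.comp (Real.measurable_exp.comp (m2.const_mul ξ)))
      have e1 : ∀ ω p, indC M R₀ X' Y' c (unitF J (fld φ ω) r)
          * (ENNReal.ofReal (Real.exp (ξ * fld φ ω (J r) p)) * gA ξ A' (fld φ ω) p)
          = a (fld φ ω (J r)) p * gA ξ A' (fld φ ω) p := by
        intro ω p
        rw [← mul_assoc]
        rfl
      simp_rw [e1]
      rw [kapG_swap hφ ham q (r + 1) (s • u) (s • v) A' (gA ξ A') (measurable_gA ξ A')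
        (fun f f' h => gA_congr ξ A' h) hJA' (fun i' hi'1 _ h => by
          have := hJmono.injective h
          omega)]
      -- bound the averaged weight on the tube
      have hW : ∀ p ∈ tube (s • u) (s • v) (2 * R₀ * (1 / 2) ^ J (r + 1)),
          (∫⁻ ω', a (fld φ ω' (J r)) p ∂P) ≤ ENNReal.ofReal (w c j) := by
        rintro p ⟨θ, hθ, hp⟩
        have hmem : s⁻¹ • p ∈ tube u v ρ := by
          refine ⟨θ, hθ, ?_⟩
          have e : s⁻¹ • p - (u + θ • (v - u)) = s⁻¹ • (p - (s • u + θ • (s • v - s • u))) := by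
            have su : s⁻¹ • s • u = u := by
              rw [smul_smul, inv_mul_cancel₀ hs0.ne', one_smul]
            have sv : s⁻¹ • s • v = v := by
              rw [smul_smul, inv_mul_cancel₀ hs0.ne', one_smul]
            rw [smul_sub s⁻¹ p, smul_add, smul_comm s⁻¹ θ, smul_sub s⁻¹, su, sv]
          rw [e, norm_smul, norm_inv, Real.norm_eq_abs, abs_of_pos hs0]
          calc s⁻¹ * ‖p - (s • u + θ • (s • v - s • u))‖
              ≤ s⁻¹ * (2 * R₀ * (1 / 2) ^ J (r + 1)) := by gcongr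
            _ ≤ s⁻¹ * (ρ * s) := mul_le_mul_of_nonneg_left (hJρ r) (by positivity)
            _ = ρ := by field_simp
        have h3 := hw1 c j hj (s⁻¹ • p) hmem
        have e2 : s • s⁻¹ • p = p := by rw [smul_smul, mul_inv_cancel₀ hs0.ne', one_smul]
        rw [← hs, e2] at h3
        exact h3
      calc ∫⁻ ω, kapG M R₀ l J (fld φ ω)
            (leafN N fun p => (∫⁻ ω', a (fld φ ω' (J r)) p ∂P) * gA ξ A' (fld φ ω) p) q (r + 1)
            (s • u) (s • v) ∂P
          ≤ ∫⁻ ω, kapG M R₀ l J (fld φ ω)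
            (leafN N fun p => ENNReal.ofReal (w c j) * gA ξ A' (fld φ ω) p) q (r + 1)
            (s • u) (s • v) ∂P := by
            refine lintegral_mono fun ω => ?_
            exact kapG_mono_tube hd hR hl hDl hJM _ q (r + 1) _ _ (Or.inr h1)
              (fun p hp => mul_le_mul_left (hW p hp) _)
        _ = ENNReal.ofReal (w c j) * ∫⁻ ω, kapG M R₀ l J (fld φ ω)
            (leafN N (gA ξ A' (fld φ ω))) q (r + 1) (s • u) (s • v) ∂P := by
            simp_rw [← mul_kapG_leafN]
            rw [lintegral_const_mul]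
            exact measurable_kapG M R₀ l J hfm (fun x y => measurable_leafN N
              (fun p => (measurable_gA ξ A' p).comp hfm) x y) q (r + 1) _ _
        _ ≤ ENNReal.ofReal (w c j) * ENNReal.ofReal (E * ‖s • v - s • u‖) := by
            gcongr
            exact ih (r + 1) _ _ (Or.inr h1)
        _ = _ := by
            rw [← ENNReal.ofReal_mul (hw0 c j hj), ← smul_sub, norm_smul, Real.norm_eq_abs,
              abs_of_pos hs0, huv]
            congr 1
            ring
    -- sum up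
    have hmL : ∀ (U V : Eu d) (c : Fin 4) (u v : Eu d), Measurable (fun ω =>
          indC M R₀ U V c (unitF J (fld φ ω) r) * kapG M R₀ l J (fld φ ω)
            (leafN N (fun p => ENNReal.ofReal (Real.exp (ξ * fld φ ω (J r) p))
              * gA ξ A' (fld φ ω) p)) q (r + 1) u v) := by
      intro U V c u v
      refine ((measurable_indC M R₀ U V c).comp ((measurable_unitF J r).comp hfm)).mul
        (measurable_kapG M R₀ l J hfm (fun x y => measurable_leafN N (fun p => ?_) x y) q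
          (r + 1) u v)
      refine Measurable.mul ?_ ((measurable_gA ξ A' p).comp hfm)
      have m2 : Measurable fun ω => fld φ ω (J r) p := hφ.meas (J r) p
      exact ENNReal.measurable_ofReal.comp (Real.measurable_exp.comp (m2.const_mul ξ))
    have hblock : ∀ i < B, ∫⁻ ω, blkG M R₀ (unitF J (fld φ ω) r)
        (fun x' y' => kapG M R₀ l J (fld φ ω)
          (leafN N (fun p => ENNReal.ofReal (Real.exp (ξ * fld φ ω (J r) p))
              * gA ξ A' (fld φ ω) p)) q (r + 1) (s • x') (s • y'))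
        (segPt B X Y i) (segPt B X Y (i + 1)) ∂P
        ≤ ENNReal.ofReal (E * s * ((1 - δ) * (‖Y - X‖ / B))) := by
      intro i hi
      obtain ⟨w, hw0, hw1, hw2⟩ := hseg i hi
      simp only [blkG]
      rw [lintegral_finsetSum _ fun c _ => Finset.measurable_sum _ fun j _ => hmL _ _ _ _ _]
      refine le_trans (Finset.sum_le_sum (g := fun c => ∑ j ∈ Finset.range 16,
          ENNReal.ofReal (E * s
          * (w c j * (‖pcQ R₀ (segPt B X Y i) (segPt B X Y (i + 1)) c
            - pcP R₀ (segPt B X Y i) (segPt B X Y (i + 1)) c‖ / 16)))) fun c _ => ?_)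
        (le_trans (le_of_eq ?_)
        (ENNReal.ofReal_le_ofReal (mul_le_mul_of_nonneg_left hw2
          (by positivity : (0 : ℝ) ≤ E * s))))
      · rw [lintegral_finsetSum _ fun j _ => hmL _ _ _ _ _]
        exact Finset.sum_le_sum fun j hj => hw1 c j (Finset.mem_range.1 hj)
      · have hnn : ∀ c : Fin 4, ∀ j ∈ Finset.range 16, 0 ≤ E * s
          * (w c j * (‖pcQ R₀ (segPt B X Y i) (segPt B X Y (i + 1)) c
            - pcP R₀ (segPt B X Y i) (segPt B X Y (i + 1)) c‖ / 16)) := fun c j hj => by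
          have := hw0 c j (Finset.mem_range.1 hj)
          positivity
        have e3 : ∀ c ∈ (Finset.univ : Finset (Fin 4)), ∑ j ∈ Finset.range 16,
            ENNReal.ofReal (E * s * (w c j * (‖pcQ R₀ (segPt B X Y i) (segPt B X Y (i + 1)) c
            - pcP R₀ (segPt B X Y i) (segPt B X Y (i + 1)) c‖ / 16)))
            = ENNReal.ofReal (∑ j ∈ Finset.range 16,
            (E * s * (w c j * (‖pcQ R₀ (segPt B X Y i) (segPt B X Y (i + 1)) c
            - pcP R₀ (segPt B X Y i) (segPt B X Y (i + 1)) c‖ / 16)))) := fun c _ =>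
          (ENNReal.ofReal_sum_of_nonneg (hnn c)).symm
        rw [Finset.sum_congr rfl e3, ← ENNReal.ofReal_sum_of_nonneg
          (fun c _ => Finset.sum_nonneg (hnn c))]
        congr 1
        rw [Finset.mul_sum]
        refine Finset.sum_congr rfl fun c _ => ?_
        rw [Finset.mul_sum]
    have hstep : ∀ ω, kapG M R₀ l J (fld φ ω)
        (leafN N (fun p => ENNReal.ofReal (Real.exp (ξ * fld φ ω (J r) p))
              * gA ξ A' (fld φ ω) p)) (q + 1) r x y
        = ∑ i ∈ Finset.range B, blkG M R₀ (unitF J (fld φ ω) r)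
        (fun x' y' => kapG M R₀ l J (fld φ ω)
          (leafN N (fun p => ENNReal.ofReal (Real.exp (ξ * fld φ ω (J r) p))
              * gA ξ A' (fld φ ω) p)) q (r + 1) (s • x') (s • y'))
        (segPt B X Y i) (segPt B X Y (i + 1)) := fun ω => kapG_step hg _ _ q
    simp_rw [hstep]
    have hmb : ∀ i ∈ Finset.range B, Measurable (fun ω => blkG M R₀ (unitF J (fld φ ω) r)
        (fun x' y' => kapG M R₀ l J (fld φ ω)
          (leafN N (fun p => ENNReal.ofReal (Real.exp (ξ * fld φ ω (J r) p))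
              * gA ξ A' (fld φ ω) p)) q (r + 1) (s • x') (s • y'))
        (segPt B X Y i) (segPt B X Y (i + 1))) := by
      intro i _
      simp only [blkG]
      exact Finset.measurable_sum _ fun c _ => Finset.measurable_sum _ fun j _ => hmL _ _ _ _ _
    rw [lintegral_finsetSum _ hmb]
    refine (Finset.sum_le_sum (g := fun _ => ENNReal.ofReal (E * s * ((1 - δ) * (‖Y - X‖ / B))))
      fun i hi => hblock i (Finset.mem_range.1 hi)).trans (le_of_eq ?_)
    rw [Finset.sum_const, Finset.card_range, nsmul_eq_mul, ← ENNReal.ofReal_natCast,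
      ← ENNReal.ofReal_mul (Nat.cast_nonneg _)]
    congr 1
    rw [hg.nrm, hE]
    field_simp
    ring

end Pool.Agent.Lib_MP_71c74a_pr
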