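import Pool.Agent.Lib_MP_71c74a_pr.BlockStatic
import Pool.Agent.Lib_MP_71c74a_pr.KapGExp
import Pool.Agent.Lib_MP_71c74a_pr.UpperEvent

/-!
# The sharp upper bound for the distance
-/

open MeasureTheory ProbabilityTheory Set
open scoped ENNReal NNReal Topology

namespace Pool.Agent.Lib_MP_71c74a_pr

variable {d : ℕ}

lemma Uf_union {J₀ K₀ n : ℕ} (hK : 0 < K₀) (hn : J₀ ≤ n) :
    Uf J₀ K₀ n ∪ (Finset.Ico 0 (0 + nLev J₀ K₀ n)).image (Jf J₀ K₀) = Finset.range n := by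
  rw [zero_add, ← Finset.range_eq_Ico]
  unfold Uf
  apply Finset.sdiff_union_of_subset
  intro j hj
  rw [Finset.mem_image] at hj
  obtain ⟨i, hi, rfl⟩ := hj
  rw [Finset.mem_range, Jf_lt_iff hK hn]
  exact Finset.mem_range.1 hi

/-- With good probability the distance is small. -/
theorem upper_event_sharp (hd : 2 ≤ d) {Ω H : Type*} [MeasurableSpace Ω] [NormedAddCommGroup H]
    [InnerProductSpace ℝ H] {P : Measure Ω} {G : Eu d → H} {φ : ℕ → Eu d → Ω → ℝ}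
    {R₀ v₀ C : ℝ} (hG : CovLaw G R₀ v₀ C) (hφ : Scales P G φ) :
    ∃ c₁ x₁ : ℝ, 0 < c₁ ∧ 0 < x₁ ∧ x₁ ≤ 1 / 2 ∧ ∀ x, 0 < x → x ≤ x₁ → ∃ b : ℝ, ∀ᶠ n : ℕ in
      Filter.atTop, ∀ e : Eu d, ‖e‖ = 1 →
      P {ω | Real.exp (b - c₁ * x ^ 4 * n)
        ≤ expDist (x ^ 3) (fun p => ∑ j ∈ Finset.range n, φ j p ω) (cube d 2) 0 e} ≤ 1 / 3 := by
  have hP := (hφ.law 0).isProbabilityMeasure
  have hR := hG.R₀_pos
  have hv := hG.v₀_pos
  obtain ⟨ρ, q, c, x₀, hρ, hq, hc, hx₀, hx₀1, hgain⟩ := block_static (Ω := Ω) hd hG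
  obtain ⟨K₀, hK₀⟩ : ∃ K₀ : ℕ, 128 + 2 * R₀ / ρ ≤ 2 ^ K₀ := by
    obtain ⟨K₀, h⟩ := pow_unbounded_of_one_lt (128 + 2 * R₀ / ρ) (by norm_num : (1 : ℝ) < 2)
    exact ⟨K₀, h.le⟩
  have hRρ : 0 < 2 * R₀ / ρ := by positivity
  have hK₀pos : 0 < K₀ := by
    rcases Nat.eq_zero_or_pos K₀ with h | h
    · subst h
      norm_num at hK₀
      linarith
    · exact h
  have hK₀' : (0 : ℝ) < K₀ := by exact_mod_cast hK₀pos
  have hK128 : 128 * (1 / 2 : ℝ) ^ K₀ ≤ 1 := by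
    rw [one_div_pow, mul_one_div, div_le_one (by positivity)]
    linarith
  have hKρ : 2 * R₀ * (1 / 2 : ℝ) ^ K₀ ≤ ρ := by
    rw [one_div_pow, mul_one_div, div_le_iff₀ (by positivity)]
    have h1 : 2 * R₀ / ρ ≤ 2 ^ K₀ := by linarith
    rw [div_le_iff₀ hρ] at h1
    linarith
  refine ⟨c / (2 * K₀), min x₀ (c / (K₀ * v₀)), by positivity, lt_min hx₀ (by positivity),
    (min_le_left _ _).trans hx₀1, fun x hx hxx => ?_⟩
  have hxx₀ : x ≤ x₀ := hxx.trans (min_le_left _ _)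
  have hxc : x ≤ c / (K₀ * v₀) := hxx.trans (min_le_right _ _)
  have hx12 : x ≤ 1 / 2 := hxx₀.trans hx₀1
  obtain ⟨hδ, hDl, M, hblk⟩ := hgain x hx hxx₀
  set l : ℝ := q ^ 2 / x ^ 2 with hl
  have hl0 : 0 < l := by positivity
  obtain ⟨J₀, hJ₀⟩ : ∃ J₀ : ℕ, l ≤ 2 ^ J₀ := by
    obtain ⟨J₀, h⟩ := pow_unbounded_of_one_lt l (by norm_num : (1 : ℝ) < 2)
    exact ⟨J₀, h.le⟩
  have hlJ : l * (1 / 2) ^ J₀ ≤ 1 := by
    rw [one_div_pow, mul_one_div, div_le_one (by positivity)]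
    exact hJ₀
  have hJsucc : ∀ r, (1 / 2 : ℝ) ^ Jf J₀ K₀ (r + 1) = (1 / 2) ^ Jf J₀ K₀ r * (1 / 2) ^ K₀ := by
    intro r
    rw [← pow_add]
    have : Jf J₀ K₀ (r + 1) = Jf J₀ K₀ r + K₀ := by
      unfold Jf
      ring
    rw [this]
  have hJM : ∀ r, 8 * 16 * (1 / 2 : ℝ) ^ Jf J₀ K₀ (r + 1) ≤ (1 / 2) ^ Jf J₀ K₀ r := by
    intro r
    rw [hJsucc]
    have h2 : (0 : ℝ) < (1 / 2) ^ Jf J₀ K₀ r := by positivity
    calc 8 * 16 * ((1 / 2 : ℝ) ^ Jf J₀ K₀ r * (1 / 2) ^ K₀)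
        = (128 * (1 / 2) ^ K₀) * (1 / 2) ^ Jf J₀ K₀ r := by ring
      _ ≤ 1 * (1 / 2) ^ Jf J₀ K₀ r := by gcongr
      _ = _ := one_mul _
  have hJρ : ∀ r, 2 * R₀ * (1 / 2 : ℝ) ^ Jf J₀ K₀ (r + 1) ≤ ρ * (1 / 2) ^ Jf J₀ K₀ r := by
    intro r
    rw [hJsucc]
    have h2 : (0 : ℝ) < (1 / 2) ^ Jf J₀ K₀ r := by positivity
    calc 2 * R₀ * ((1 / 2 : ℝ) ^ Jf J₀ K₀ r * (1 / 2) ^ K₀)
        = (2 * R₀ * (1 / 2) ^ K₀) * (1 / 2) ^ Jf J₀ K₀ r := by ring
      _ ≤ ρ * (1 / 2) ^ Jf J₀ K₀ r := by gcongr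
  refine ⟨c * J₀ + Real.log 3, ?_⟩
  filter_upwards [Filter.eventually_ge_atTop J₀] with n hn e he
  set m := nLev J₀ K₀ n with hm
  have hcond : m = 0 ∨ l * (1 / 2) ^ Jf J₀ K₀ 0 ≤ ‖e - (0 : Eu d)‖ := by
    right
    rw [sub_zero, he]
    simpa [Jf] using hlJ
  set κN : ℕ → Ω → ℝ≥0∞ := fun N ω => kapG M R₀ l (Jf J₀ K₀) (fld φ ω)
    (leafN N (gA (x ^ 3) (Uf J₀ K₀ n ∪ (Finset.Ico 0 (0 + m)).image (Jf J₀ K₀)) (fld φ ω))) m 0 0 e
    with hκN
  have hκNm : ∀ N, Measurable (κN N) := fun N =>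
    measurable_kapG M R₀ l _ hφ.measurable_fld (fun x y => measurable_leafN N
      (fun p => (measurable_gA _ _ p).comp hφ.measurable_fld) x y) m 0 _ _
  set κ : Ω → ℝ≥0∞ := fun ω => Filter.liminf (fun N => κN N ω) Filter.atTop with hκ
  have hκm : Measurable κ := Measurable.liminf hκNm
  have hcont : ∀ ω, Continuous fun p => ∑ j ∈ Finset.range n, φ j p ω := fun ω =>
    continuous_finsetSum _ fun j _ => (hφ.smooth j ω).continuous
  have hκlim : ∀ ω, κ ω = kapG M R₀ l (Jf J₀ K₀) (fld φ ω)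
      (fun x' y' => ENNReal.ofReal (segC (x ^ 3) (fun p => ∑ j ∈ Finset.range n, φ j p ω) x' y'))
      m 0 0 e := by
    intro ω
    refine Filter.Tendsto.liminf_eq ?_
    have h1 : ∀ N, κN N ω = kapG M R₀ l (Jf J₀ K₀) (fld φ ω)
        (leafN N (fun p => ENNReal.ofReal (Real.exp (x ^ 3
          * ∑ j ∈ Finset.range n, φ j p ω)))) m 0 0 e := by
      intro N
      simp only [hκN]
      rw [hm, Uf_union hK₀pos hn]
      congr 2
      ext p
      rw [gA_eq]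
      rfl
    simp_rw [h1]
    exact tendsto_kapG M R₀ l _ _ (fun x' y' => tendsto_leafN (x ^ 3) (hcont ω) x' y') m 0 0 e
  -- expectation
  have hexp : ∫⁻ ω, κ ω ∂P ≤ ENNReal.ofReal (Real.exp (c * J₀ - c / (2 * K₀) * x ^ 4 * n)) := by
    refine (lintegral_liminf_le hκNm).trans ?_
    apply Filter.liminf_le_of_frequently_le'
    refine Filter.Eventually.frequently ?_
    filter_upwards [Filter.eventually_gt_atTop 0] with N hN
    refine (kapG_exp hd hG hφ (δ := c * x ^ 4) (ρ := ρ) hN hl0 hDl (Jf_strictMono hK₀pos)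
      (Jf_notMem hK₀pos hn) hJM hJρ hδ hblk m 0 0 e hcond).trans (ENNReal.ofReal_le_ofReal ?_)
    rw [sub_zero, he, mul_one]
    have h1 : (1 - c * x ^ 4) ^ m ≤ Real.exp (-(c * x ^ 4) * m) := by
      have h0 : -(c * x ^ 4) * (m : ℝ) = m * (-(c * x ^ 4)) := by ring
      rw [h0, Real.exp_nat_mul]
      apply pow_le_pow_left₀ hδ.le
      have := Real.add_one_le_exp (-(c * x ^ 4))
      linarith
    have h2 : ((Uf J₀ K₀ n).card : ℝ) ≤ n := by
      have : (Uf J₀ K₀ n).card ≤ n := by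
        unfold Uf
        refine (Finset.card_le_card Finset.sdiff_subset).trans ?_
        rw [Finset.card_range]
      exact_mod_cast this
    calc Real.exp ((x ^ 3) ^ 2 * v₀ / 2 * (Uf J₀ K₀ n).card) * (1 - c * x ^ 4) ^ m
        ≤ Real.exp ((x ^ 3) ^ 2 * v₀ / 2 * n) * Real.exp (-(c * x ^ 4) * m) := by gcongr
      _ = Real.exp ((x ^ 3) ^ 2 * v₀ / 2 * n + -(c * x ^ 4) * m) := (Real.exp_add _ _).symm
      _ ≤ Real.exp (c * J₀ - c / (2 * K₀) * x ^ 4 * n) := by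
          apply Real.exp_le_exp.2
          have h3 := le_nLev hK₀pos hn
          rw [← hm] at h3
          have h4 : c * x ^ 4 * (((n : ℝ) - J₀) / K₀) ≤ c * x ^ 4 * m := by gcongr
          have h5 : c * x ^ 4 * ((J₀ : ℝ) / K₀) ≤ c * J₀ := by
            have h6 : (1 : ℝ) ≤ K₀ := by exact_mod_cast hK₀pos
            have h7 : (J₀ : ℝ) / K₀ ≤ J₀ := div_le_self (Nat.cast_nonneg _) h6
            have h8 : x ^ 4 ≤ 1 := pow_le_one₀ hx.le (by linarith)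
            calc c * x ^ 4 * ((J₀ : ℝ) / K₀) ≤ c * 1 * J₀ := by gcongr
              _ = c * J₀ := by ring
          have h9 : (x ^ 3) ^ 2 * v₀ / 2 * n ≤ c * x ^ 4 * ((n : ℝ) / K₀) / 2 := by
            have h10 : x ^ 2 * v₀ * K₀ ≤ c := by
              have h11 : x ^ 2 ≤ x := by nlinarith
              calc x ^ 2 * v₀ * K₀ ≤ x * v₀ * K₀ := by gcongr
                _ ≤ c / (K₀ * v₀) * v₀ * K₀ := by gcongr
                _ = c := by field_simp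
            calc (x ^ 3) ^ 2 * v₀ / 2 * n = (x ^ 2 * v₀ * K₀) * (x ^ 4 * ((n : ℝ) / K₀) / 2) := by
                  field_simp
              _ ≤ c * (x ^ 4 * ((n : ℝ) / K₀) / 2) := by gcongr
              _ = _ := by ring
          have h11 : c / (2 * K₀) * x ^ 4 * n = c * x ^ 4 * ((n : ℝ) / K₀) / 2 := by
            field_simp
          have h13 : c * x ^ 4 * (((n : ℝ) - J₀) / K₀)
              = c * x ^ 4 * ((n : ℝ) / K₀) - c * x ^ 4 * ((J₀ : ℝ) / K₀) := by ring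
          linarith
  -- pathwise
  have hpath : ∀ ω, ENNReal.ofReal (expDist (x ^ 3) (fun p => ∑ j ∈ Finset.range n, φ j p ω)
      (cube d 2) 0 e) ≤ κ ω := by
    intro ω
    rw [hκlim]
    have h1 := kapG_path (M := M) hd hR hl0 hDl hJM (fld φ ω) (x ^ 3)
      (fun p => ∑ j ∈ Finset.range n, φ j p ω) m 0 0 e hcond
    have h3 := h1.mono (tube_subset_cube he (by
      have : 2 * R₀ * (1 / 2) ^ Jf J₀ K₀ 0 ≤ 1 / 2 := by
        have h4 : 4 * R₀ * (1 / 2) ^ J₀ ≤ l * (1 / 2) ^ J₀ := by gcongr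
        simp only [Jf, mul_zero, add_zero]
        linarith
      linarith)) le_rfl
    refine h3.expDist_le (hcont ω) ?_
    intro h4
    rw [← h4, norm_zero] at he
    exact zero_ne_one he
  -- Markov
  set B : ℝ := Real.exp (c * J₀ - c / (2 * K₀) * x ^ 4 * n) with hB
  have hB0 : 0 < B := Real.exp_pos _
  have h3B : Real.exp (c * J₀ + Real.log 3 - c / (2 * K₀) * x ^ 4 * n) = 3 * B := by
    rw [hB]
    have : c * J₀ + Real.log 3 - c / (2 * K₀) * x ^ 4 * n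
        = Real.log 3 + (c * J₀ - c / (2 * K₀) * x ^ 4 * n) := by ring
    rw [this, Real.exp_add, Real.exp_log (by norm_num)]
  rw [h3B]
  have hsub : {ω | 3 * B ≤ expDist (x ^ 3) (fun p => ∑ j ∈ Finset.range n, φ j p ω)
      (cube d 2) 0 e} ⊆ {ω | ENNReal.ofReal (3 * B) ≤ κ ω} := by
    intro ω hω
    exact (ENNReal.ofReal_le_ofReal hω).trans (hpath ω)
  refine (measure_mono hsub).trans ?_
  refine (meas_ge_le_lintegral_div hκm.aemeasurable (ENNReal.ofReal_pos.2 (by positivity)).ne'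
    (by finiteness)).trans ?_
  calc (∫⁻ ω, κ ω ∂P) / ENNReal.ofReal (3 * B) ≤ ENNReal.ofReal B / ENNReal.ofReal (3 * B) := by
        gcongr
    _ = ENNReal.ofReal (B / (3 * B)) := (ENNReal.ofReal_div_of_pos (by positivity)).symm
    _ = ENNReal.ofReal (1 / 3) := by
        congr 1
        field_simp
    _ = 1 / 3 := by
        rw [ENNReal.ofReal_div_of_pos (by norm_num), ENNReal.ofReal_one, ENNReal.ofReal_ofNat]

end Pool.Agent.Lib_MP_71c74a_pr
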