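import Pool.Agent.Lib_MP_71c74a_pr.Assemble
import Pool.Agent.Lib_MP_71c74a_pr.LowerSharpNum
import Pool.Agent.Lib_MP_71c74a_pr.UpperSharp

/-!
# Sharp bounds for the medians
-/

open MeasureTheory ProbabilityTheory Set
open scoped ENNReal NNReal Topology

namespace Pool.Agent.Lib_MP_71c74a_pr

variable {d : ℕ} {Ω : Type*} [MeasurableSpace Ω] {P : Measure Ω}
  {W : (Eu d × ℝ → ℝ) → Ω → ℝ} {K : Eu d → ℝ} {h : ℕ → Eu d → Ω → ℝ}

/-- Sharp bounds for the medians. -/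
theorem median_bounds_sharp (hd : 2 ≤ d) (hK : IsKernel K) (hW : IsWhiteNoise P W)
    (hh : IsField P K W h) :
    ∃ c C ξ₀ : ℝ, 0 < c ∧ 0 < C ∧ 0 < ξ₀ ∧ ξ₀ ≤ 1 / 2 ∧ ∀ ξ, 0 < ξ → ξ ≤ ξ₀ → ∃ b : ℝ,
      ∀ᶠ n : ℕ in Filter.atTop, ∀ e : Eu d, ‖e‖ = 1 → ∀ m : ℝ,
        IsMedian P (fun ω => expDist ξ (fun x => h n x ω) (cube d 2) 0 e) m →
        Real.exp (-b - C * ξ ^ (4 / 3 : ℝ) * n) ≤ m ∧
        m ≤ Real.exp (b - c * ξ ^ (4 / 3 : ℝ) * n) := by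
  obtain ⟨R₀, v₀, C₀, hG⟩ := covLaw_slab hK
  have hS := scales_of_noise hK hW hh
  obtain ⟨C, x₀, hC, hx₀, hx₀2, hlow⟩ := lower_event_sharp hG hS
  obtain ⟨c₁, x₁, hc₁, hx₁, hx₁2, hup⟩ := upper_event_sharp hd hG hS
  set y : ℝ := min x₀ x₁ with hy
  have hy0 : 0 < y := lt_min hx₀ hx₁
  have hy2 : y ≤ 1 / 2 := (min_le_left _ _).trans hx₀2
  have hy3 : y ^ 3 ≤ 1 / 2 := by
    calc y ^ 3 ≤ (1 / 2) ^ 3 := pow_le_pow_left₀ hy0.le hy2 3
      _ ≤ 1 / 2 := by norm_num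
  refine ⟨c₁, C, y ^ 3, hc₁, hC, by positivity, hy3, fun ξ hξ hξ1 => ?_⟩
  set x : ℝ := ξ ^ (1 / 3 : ℝ) with hx
  have hx0 : 0 < x := Real.rpow_pos_of_pos hξ _
  have hxcube : x ^ 3 = ξ := by
    rw [hx, ← Real.rpow_natCast, ← Real.rpow_mul hξ.le]
    norm_num
  have hx4 : x ^ 4 = ξ ^ (4 / 3 : ℝ) := by
    rw [hx, ← Real.rpow_natCast, ← Real.rpow_mul hξ.le]
    norm_num
  have hxle : x ≤ y := by
    have : x ^ 3 ≤ y ^ 3 := by rw [hxcube]; exact hξ1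
    exact le_of_pow_le_pow_left₀ (by norm_num) hy0.le this
  obtain ⟨b₁, hb₁⟩ := hlow x hx0 (hxle.trans (min_le_left _ _))
  obtain ⟨b₂, hb₂⟩ := hup x hx0 (hxle.trans (min_le_right _ _))
  refine ⟨max b₁ b₂, ?_⟩
  filter_upwards [hb₁, hb₂, Filter.eventually_ge_atTop 1] with n h1 h2 hn e he m hm
  have hfun : ∀ ω, (fun x => ∑ j ∈ Finset.range n, incr h j x ω) = fun x => h n x ω := fun ω => by
    ext x
    exact sum_incr h n hn x ω
  constructor
  · obtain ⟨E, hE, hpath⟩ := h1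
    by_contra hcon
    rw [not_le] at hcon
    have hsub : {ω | expDist ξ (fun x => h n x ω) (cube d 2) 0 e ≤ m} ⊆ Eᶜ := by
      intro ω hω hωE
      have h3 := le_expDist he (fun γ hγ => hpath ω hωE _ e γ hγ he)
      rw [hfun, hxcube, hx4] at h3
      have h4 : Real.exp (-max b₁ b₂ - C * ξ ^ (4 / 3 : ℝ) * n)
          ≤ Real.exp (-b₁ - C * ξ ^ (4 / 3 : ℝ) * n) := by
        apply Real.exp_le_exp.2
        have := le_max_left b₁ b₂
        linarith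
      have h5 : expDist ξ (fun x => h n x ω) (cube d 2) 0 e ≤ m := hω
      linarith
    have := (hm.1.trans (measure_mono hsub)).trans hE
    exact absurd this (not_le.2 quarter_lt_half)
  · by_contra hcon
    rw [not_le] at hcon
    have h3 := h2 e he
    rw [hxcube, hx4] at h3
    have hsub : {ω | m ≤ expDist ξ (fun x => h n x ω) (cube d 2) 0 e} ⊆
        {ω | Real.exp (b₂ - c₁ * ξ ^ (4 / 3 : ℝ) * n)
          ≤ expDist ξ (fun p => ∑ j ∈ Finset.range n, incr h j p ω) (cube d 2) 0 e} := by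
      intro ω hω
      have h5 : m ≤ expDist ξ (fun x => h n x ω) (cube d 2) 0 e := hω
      show Real.exp _ ≤ expDist _ _ _ _ _
      rw [hfun ω]
      refine le_trans ?_ (hcon.le.trans h5)
      apply Real.exp_le_exp.2
      have h6 := le_max_right b₁ b₂
      linarith
    have := (hm.2.trans (measure_mono hsub)).trans h3
    exact absurd this (not_le.2 third_lt_half)

end Pool.Agent.Lib_MP_71c74a_pr
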