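import Pool.Agent.Lib_MP_71c74a_pr.PartDefs

/-!
# Logarithms of the partition functions
-/

open MeasureTheory ProbabilityTheory Set
open scoped ENNReal NNReal Topology

namespace Pool.Agent.Lib_MP_71c74a_pr

variable {d : ℕ}

/-- Real logarithm of an extended nonnegative real. -/
noncomputable def lgE (x : ℝ≥0∞) : ℝ := Real.log x.toReal

lemma lgE_mono {x y : ℝ≥0∞} (hx : 0 < x) (hy : y ≠ ∞) (h : x ≤ y) : lgE x ≤ lgE y := by
  unfold lgE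
  have hx' : x ≠ ∞ := ne_top_of_le_ne_top hy h
  exact Real.log_le_log (ENNReal.toReal_pos hx.ne' hx') (ENNReal.toReal_mono hy h)

lemma lgE_nonneg {x : ℝ≥0∞} (hx : 1 ≤ x) (hx' : x ≠ ∞) : 0 ≤ lgE x := by
  have := lgE_mono one_pos hx' hx
  unfold lgE at this ⊢
  simpa using this

lemma lgE_mul {x y : ℝ≥0∞} (hx : x ≠ 0) (hx' : x ≠ ∞) (hy : y ≠ 0) (hy' : y ≠ ∞) :
    lgE (x * y) = lgE x + lgE y := by
  unfold lgE
  rw [ENNReal.toReal_mul, Real.log_mul (ENNReal.toReal_pos hx hx').ne'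
    (ENNReal.toReal_pos hy hy').ne']

lemma lgE_prod {ι : Type*} (s : Finset ι) (f : ι → ℝ≥0∞) (h0 : ∀ i ∈ s, f i ≠ 0)
    (h1 : ∀ i ∈ s, f i ≠ ∞) : lgE (∏ i ∈ s, f i) = ∑ i ∈ s, lgE (f i) := by
  unfold lgE
  rw [ENNReal.toReal_prod, Real.log_prod fun i hi => (ENNReal.toReal_pos (h0 i hi) (h1 i hi)).ne']

lemma lgE_ofReal {r : ℝ} (hr : 0 < r) : lgE (ENNReal.ofReal r) = Real.log r := by
  unfold lgE
  rw [ENNReal.toReal_ofReal hr.le]

lemma eS_ne_top (ε t : ℝ) : eS ε t ≠ ∞ := by unfold eS; exact ENNReal.ofReal_ne_top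

lemma eS_pos (ε t : ℝ) : 0 < eS ε t := by
  unfold eS; exact ENNReal.ofReal_pos.2 (Real.exp_pos _)

lemma lgE_eS (ε t : ℝ) : lgE (eS ε t) = ε * t ^ 2 := by
  unfold eS
  rw [lgE_ofReal (Real.exp_pos _), Real.log_exp]

lemma wE_pos (n : Lt d) : 0 < wE n := by
  unfold wE; exact ENNReal.ofReal_pos.2 (wtR_pos n)

lemma wE_ne_top (n : Lt d) : wE n ≠ ∞ := by unfold wE; exact ENNReal.ofReal_ne_top

lemma lgE_wE (n : Lt d) : lgE (wE n) = Real.log (wtR n) := by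
  unfold wE
  rw [lgE_ofReal (wtR_pos n)]

lemma PhiF_ne_top (T : TP) (v : TI d → ℝ) : PhiF T v ≠ ∞ := by
  unfold PhiF
  refine ENNReal.add_ne_top.2 ⟨ENNReal.add_ne_top.2 ⟨ENNReal.one_ne_top, eS_ne_top _ _⟩, ?_⟩
  refine ENNReal.sum_ne_top.2 fun n₁ _ => ENNReal.sum_ne_top.2 fun n₂ _ => ?_
  exact ENNReal.mul_ne_top (ENNReal.mul_ne_top (wE_ne_top _) (wE_ne_top _))
    (ENNReal.add_ne_top.2 ⟨eS_ne_top _ _, eS_ne_top _ _⟩)

lemma one_le_PhiF (T : TP) (v : TI d → ℝ) : 1 ≤ PhiF T v := by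
  unfold PhiF
  rw [add_assoc]
  exact le_self_add

lemma Fseg_ne_top (T : TP) (ψ : Eu d → ℝ) (p q : Lt d) : Fseg T ψ p q ≠ ∞ := PhiF_ne_top _ _

lemma one_le_Fseg (T : TP) (ψ : Eu d → ℝ) (p q : Lt d) : 1 ≤ Fseg T ψ p q := one_le_PhiF _ _

lemma eT_ne_top (ε : ℝ) (ψ : Eu d → ℝ) (a : Eu d →₀ ℝ) : eT ε ψ a ≠ ∞ := by
  unfold eT; exact ENNReal.ofReal_ne_top

lemma Zch_ne_top (T : TP) (R₀ : ℝ) (N : ℕ) (ψ : Eu d → ℝ) : Zch T R₀ N ψ ≠ ∞ := by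
  classical
  unfold Zch
  refine ENNReal.sum_ne_top.2 fun p₀ _ => ENNReal.sum_ne_top.2 fun v₀ _ =>
    ENNReal.sum_ne_top.2 fun n _ => ENNReal.mul_ne_top
      (ENNReal.prod_ne_top fun i _ => wE_ne_top _) (ENNReal.sum_ne_top.2 fun S _ => ?_)
  split_ifs
  · exact ENNReal.prod_ne_top fun a _ => Fseg_ne_top _ _ _ _
  · exact ENNReal.zero_ne_top

lemma Zin_ne_top (T : TP) (ψ : Eu d → ℝ) : Zin T ψ ≠ ∞ := by
  unfold Zin
  exact ENNReal.sum_ne_top.2 fun _ _ => ENNReal.sum_ne_top.2 fun _ _ =>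
    ENNReal.sum_ne_top.2 fun _ _ => ENNReal.sum_ne_top.2 fun _ _ => eT_ne_top _ _ _

lemma Zfun_ne_top (T : TP) (R₀ : ℝ) (N : ℕ) (ψ : Eu d → ℝ) : Zfun T R₀ N ψ ≠ ∞ := by
  unfold Zfun
  exact ENNReal.add_ne_top.2 ⟨ENNReal.add_ne_top.2 ⟨ENNReal.one_ne_top, Zch_ne_top _ _ _ _⟩,
    Zin_ne_top _ _⟩

lemma one_le_Zfun (T : TP) (R₀ : ℝ) (N : ℕ) (ψ : Eu d → ℝ) : 1 ≤ Zfun T R₀ N ψ := by
  unfold Zfun
  rw [add_assoc]
  exact le_self_add

/-- Logarithm of the variable of a segment. -/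
noncomputable def lF (T : TP) (ψ : Eu d → ℝ) (p q : Lt d) : ℝ := lgE (Fseg T ψ p q)

/-- Logarithm of the complete functional. -/
noncomputable def lZ (T : TP) (R₀ : ℝ) (N : ℕ) (ψ : Eu d → ℝ) : ℝ := lgE (Zfun T R₀ N ψ)

lemma lF_nonneg (T : TP) (ψ : Eu d → ℝ) (p q : Lt d) : 0 ≤ lF T ψ p q :=
  lgE_nonneg (one_le_Fseg _ _ _ _) (Fseg_ne_top _ _ _ _)

lemma lZ_nonneg (T : TP) (R₀ : ℝ) (N : ℕ) (ψ : Eu d → ℝ) : 0 ≤ lZ T R₀ N ψ :=
  lgE_nonneg (one_le_Zfun _ _ _ _) (Zfun_ne_top _ _ _ _)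

lemma none_le_lF (T : TP) (ψ : Eu d → ℝ) (p q : Lt d) :
    T.ε * (lc ψ (tst T p q none)) ^ 2 ≤ lF T ψ p q := by
  rw [← lgE_eS]
  refine lgE_mono (eS_pos _ _) (Fseg_ne_top _ _ _ _) ?_
  unfold Fseg PhiF
  exact le_add_self.trans le_self_add

lemma true_le_lF (T : TP) (ψ : Eu d → ℝ) (p q : Lt d) {n₁ n₂ : Lt d} (h1 : n₁ ∈ box d T.B)
    (h2 : n₂ ∈ box d T.B) :
    T.ε * (lc ψ (tst T p q (some (true, n₁, n₂)))) ^ 2
      ≤ lF T ψ p q - Real.log (wtR n₁) - Real.log (wtR n₂) := by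
  have h3 : wE n₁ * wE n₂ * eS T.ε (lc ψ (tst T p q (some (true, n₁, n₂)))) ≤ Fseg T ψ p q := by
    unfold Fseg PhiF
    refine le_trans ?_ le_add_self
    refine le_trans ?_ (Finset.single_le_sum (f := fun n₁ => ∑ n₂ ∈ box d T.B, wE n₁ * wE n₂
      * (eS T.ε (lc ψ (tst T p q (some (true, n₁, n₂))))
        + eS T.ε (lc ψ (tst T p q (some (false, n₁, n₂)))))) (fun _ _ => zero_le) h1)
    refine le_trans ?_ (Finset.single_le_sum (f := fun n₂ => wE n₁ * wE n₂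
      * (eS T.ε (lc ψ (tst T p q (some (true, n₁, n₂))))
        + eS T.ε (lc ψ (tst T p q (some (false, n₁, n₂)))))) (fun _ _ => zero_le) h2)
    gcongr
    exact le_self_add
  have h4 := lgE_mono (by
    have := wE_pos n₁; have := wE_pos n₂
    have := eS_pos T.ε (lc ψ (tst T p q (some (true, n₁, n₂))))
    positivity) (Fseg_ne_top T ψ p q) h3
  rw [lgE_mul (mul_ne_zero (wE_pos _).ne' (wE_pos _).ne')
    (ENNReal.mul_ne_top (wE_ne_top _) (wE_ne_top _)) (eS_pos _ _).ne' (eS_ne_top _ _),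
    lgE_mul (wE_pos _).ne' (wE_ne_top _) (wE_pos _).ne' (wE_ne_top _), lgE_wE, lgE_wE,
    lgE_eS] at h4
  unfold lF
  linarith

lemma false_le_lF (T : TP) (ψ : Eu d → ℝ) (p q : Lt d) {n₁ n₂ : Lt d} (h1 : n₁ ∈ box d T.B)
    (h2 : n₂ ∈ box d T.B) :
    T.ε * (lc ψ (tst T p q (some (false, n₁, n₂)))) ^ 2
      ≤ lF T ψ p q - Real.log (wtR n₁) - Real.log (wtR n₂) := by
  have h3 : wE n₁ * wE n₂ * eS T.ε (lc ψ (tst T p q (some (false, n₁, n₂)))) ≤ Fseg T ψ p q := by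
    unfold Fseg PhiF
    refine le_trans ?_ le_add_self
    refine le_trans ?_ (Finset.single_le_sum (f := fun n₁ => ∑ n₂ ∈ box d T.B, wE n₁ * wE n₂
      * (eS T.ε (lc ψ (tst T p q (some (true, n₁, n₂))))
        + eS T.ε (lc ψ (tst T p q (some (false, n₁, n₂)))))) (fun _ _ => zero_le) h1)
    refine le_trans ?_ (Finset.single_le_sum (f := fun n₂ => wE n₁ * wE n₂
      * (eS T.ε (lc ψ (tst T p q (some (true, n₁, n₂))))
        + eS T.ε (lc ψ (tst T p q (some (false, n₁, n₂)))))) (fun _ _ => zero_le) h2)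
    gcongr
    exact le_add_self
  have h4 := lgE_mono (by
    have := wE_pos n₁; have := wE_pos n₂
    have := eS_pos T.ε (lc ψ (tst T p q (some (false, n₁, n₂))))
    positivity) (Fseg_ne_top T ψ p q) h3
  rw [lgE_mul (mul_ne_zero (wE_pos _).ne' (wE_pos _).ne')
    (ENNReal.mul_ne_top (wE_ne_top _) (wE_ne_top _)) (eS_pos _ _).ne' (eS_ne_top _ _),
    lgE_mul (wE_pos _).ne' (wE_ne_top _) (wE_pos _).ne' (wE_ne_top _), lgE_wE, lgE_wE,
    lgE_eS] at h4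
  unfold lF
  linarith

/-- The variables of distant segments of a chain. -/
lemma sum_lF_le (T : TP) (R₀ : ℝ) {N : ℕ} (ψ : Eu d → ℝ) (p : ℕ → Lt d)
    (h0 : p 0 ∈ box d T.B) (h1 : p 1 - p 0 ∈ box d T.B)
    (h2 : ∀ i < N - 1, (p (i + 1 + 1) - p (i + 1)) - (p (i + 1) - p i) ∈ box d T.B)
    {S : Finset ℕ} (hS : S ⊆ Finset.range N)
    (hsep : ∀ a ∈ S, ∀ a' ∈ S, a ≠ a' →
      2 * (4 * T.l) + R₀ ≤ ‖emb T.s (p (a + 1)) - emb T.s (p (a' + 1))‖) :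
    ∑ a ∈ S, lF T ψ (p a) (p (a + 1)) ≤ lZ T R₀ N ψ
      + ∑ i ∈ Finset.range (N - 1),
        -Real.log (wtR ((p (i + 1 + 1) - p (i + 1)) - (p (i + 1) - p i))) := by
  classical
  have hcp : ∀ a ∈ S, cp (p 0) (p 1 - p 0) (extZ (secD p N)) a = p a := fun a ha => by
    unfold cp; rw [chn_secD p (Finset.mem_range.1 (hS ha))]
  have hcq : ∀ a ∈ S, cq (p 0) (p 1 - p 0) (extZ (secD p N)) a = p (a + 1) := fun a ha => by
    unfold cq; rw [chn_secD p (Finset.mem_range.1 (hS ha))]; simp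
  have hSep : Sep T R₀ (p 0) (p 1 - p 0) (extZ (secD p N)) S := by
    intro a ha a' ha' hne
    rw [hcq a ha, hcq a' ha']
    exact hsep a ha a' ha' hne
  have hle : (∏ i, wE (secD p N i)) * ∏ a ∈ S, Fseg T ψ (p a) (p (a + 1)) ≤ Zfun T R₀ N ψ := by
    unfold Zfun
    refine le_trans ?_ le_self_add
    refine le_trans ?_ le_add_self
    unfold Zch
    refine le_trans ?_ (Finset.single_le_sum (fun _ _ => zero_le) h0)
    refine le_trans ?_ (Finset.single_le_sum (fun _ _ => zero_le) h1)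
    have hmem : secD p N ∈ Fintype.piFinset (fun _ : Fin (N - 1) => box d T.B) := by
      rw [Fintype.mem_piFinset]
      intro i
      exact h2 i i.2
    refine le_trans ?_ (Finset.single_le_sum (fun _ _ => zero_le) hmem)
    gcongr
    refine le_trans ?_ (Finset.single_le_sum (fun _ _ => zero_le) (Finset.mem_powerset.2 hS))
    rw [if_pos hSep]
    apply le_of_eq
    refine Finset.prod_congr rfl fun a ha => ?_
    rw [hcp a ha, hcq a ha]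
  have hw0 : (∏ i, wE (secD p N i)) ≠ 0 := Finset.prod_ne_zero_iff.2 fun i _ => (wE_pos _).ne'
  have hwt : (∏ i, wE (secD p N i)) ≠ ∞ := ENNReal.prod_ne_top fun i _ => wE_ne_top _
  have hF0 : ∀ a ∈ S, Fseg T ψ (p a) (p (a + 1)) ≠ 0 := fun a _ =>
    (lt_of_lt_of_le one_pos (one_le_Fseg _ _ _ _)).ne'
  have hFt : ∀ a ∈ S, Fseg T ψ (p a) (p (a + 1)) ≠ ∞ := fun a _ => Fseg_ne_top _ _ _ _
  have hP0 : (∏ a ∈ S, Fseg T ψ (p a) (p (a + 1))) ≠ 0 := Finset.prod_ne_zero_iff.2 hF0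
  have hPt : (∏ a ∈ S, Fseg T ψ (p a) (p (a + 1))) ≠ ∞ := ENNReal.prod_ne_top hFt
  have hlog := lgE_mono (pos_iff_ne_zero.2 (mul_ne_zero hw0 hP0)) (Zfun_ne_top T R₀ N ψ) hle
  rw [lgE_mul hw0 hwt hP0 hPt, lgE_prod _ _ (fun i _ => (wE_pos _).ne') (fun i _ => wE_ne_top _),
    lgE_prod _ _ hF0 hFt] at hlog
  have e1 : ∑ i, lgE (wE (secD p N i)) = ∑ i ∈ Finset.range (N - 1),
      Real.log (wtR ((p (i + 1 + 1) - p (i + 1)) - (p (i + 1) - p i))) := by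
    rw [← Fin.sum_univ_eq_sum_range (fun i => Real.log (wtR ((p (i + 1 + 1) - p (i + 1))
      - (p (i + 1) - p i))))]
    refine Finset.sum_congr rfl fun i _ => ?_
    rw [lgE_wE]
    rfl
  rw [e1] at hlog
  rw [Finset.sum_neg_distrib]
  unfold lF lZ
  linarith

/-- Comparison with the finest mesh. -/
lemma in_le_lZ (T : TP) (R₀ : ℝ) (N : ℕ) (ψ : Eu d → ℝ) {p q p' q' : Lt d}
    (h1 : p ∈ box d T.B) (h2 : q ∈ box d T.B) (h3 : p' ∈ box d T.B) (h4 : q' ∈ box d T.B) :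
    T.ε * (lc ψ (nT T.Cs T.l T.s (2 * T.M) (emb T.s q) (emb T.s p) (emb T.s q)
      (emb T.sf p') (emb T.sf q'))) ^ 2 ≤ lZ T R₀ N ψ := by
  rw [← lgE_eS]
  refine lgE_mono (eS_pos _ _) (Zfun_ne_top _ _ _ _) ?_
  unfold Zfun
  refine le_trans ?_ le_add_self
  unfold Zin
  refine le_trans ?_ (Finset.single_le_sum (fun _ _ => zero_le) h1)
  refine le_trans ?_ (Finset.single_le_sum (fun _ _ => zero_le) h2)
  refine le_trans ?_ (Finset.single_le_sum (fun _ _ => zero_le) h3)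
  refine le_trans ?_ (Finset.single_le_sum (fun _ _ => zero_le) h4)
  exact le_rfl

end Pool.Agent.Lib_MP_71c74a_pr
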