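import Pool.Agent.Lib_MP_71c74a_pr.GenDefs
import Pool.Agent.Lib_MP_71c74a_pr.LogPart

/-!
# The inequalities for the generations of a block
-/

open MeasureTheory ProbabilityTheory Set
open scoped ENNReal NNReal Topology

namespace Pool.Agent.Lib_MP_71c74a_pr

variable {d : ℕ}

/-- Inequality for the averages over the segments of the initial generation. -/
theorem base_ineq (d : ℕ) {R₀ C : ℝ} (hR : 0 < R₀) (hC : 0 < C) (Q : ℕ) {ε₀ : ℝ} (hε₀ : 0 < ε₀) :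
    ∃ C' : ℝ, 0 < C' ∧ ∀ (T : TP), T.Adm R₀ C → ∀ (ψ : Eu d → ℝ) (N : ℕ) (p : ℕ → Lt d)
      (𝒢 : Finset ℕ) (j F ξ κ : ℝ), 0 < N → 𝒢 ⊆ Finset.range N →
      (∀ a ∈ 𝒢, T.l / 4 ≤ ‖emb T.s (p (a + 1)) - emb T.s (p a)‖ ∧
        ‖emb T.s (p a) - emb T.s (p (a + 1))‖ ≤ 4 * T.l) →
      (∑ a ∈ 𝒢, lF T ψ (p a) (p (a + 1)) ≤ Q * (lZ T R₀ N ψ
        + ∑ i ∈ Finset.range (N - 1),
          -Real.log (wtR ((p (i + 1 + 1) - p (i + 1)) - (p (i + 1) - p i))))) →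
      (∑ i ∈ Finset.range (N - 1),
        ‖emb 1 ((p (i + 1 + 1) - p (i + 1)) - (p (i + 1) - p i))‖ ^ 2
          ≤ N * (2 * F * j + 32 * d ^ 2)) →
      0 ≤ j → 0 ≤ κ → 0 ≤ ξ → 0 ≤ F → ξ * (1 / √T.l) ≤ κ → κ * F ≤ 4 →
      ξ * ((∑ a ∈ 𝒢, |lc ψ (avgT (2 * T.M) (emb T.s (p a)) (emb T.s (p (a + 1))))|) / N)
        ≤ ε₀ * j + C' * κ * (1 + lZ T R₀ N ψ / N) := by
  set Cs : ℝ := 64 * (R₀ + 1) * C with hCs
  have hCs0 : 0 < Cs := by positivity
  set θ : ℝ := ferE / 4 with hθ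
  have hθ0 : 0 < θ := by have := ferE_pos; positivity
  set A : ℝ := Cs / θ with hA
  have hA0 : 0 < A := by positivity
  set η : ℝ := ε₀ / (16 * A * (d + 1) * (1 + Q)) with hη
  have hη0 : 0 < η := by positivity
  refine ⟨A * (Q + Q * 2 * d * (η * (32 * d ^ 2) + 1 / (4 * η))) + Cs, by positivity, ?_⟩
  intro T hT ψ N p 𝒢 j F ξ κ hN h𝒢 hok hF hr hj hκ hξ hF0 hW hκF
  have hN' : (0 : ℝ) < N := by exact_mod_cast hN
  have hl : 0 < T.l := by linarith [hT.l1]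
  have hsl : 0 < √T.l := Real.sqrt_pos.2 hl
  have hL0 := lZ_nonneg T R₀ N ψ
  set L := lZ T R₀ N ψ with hL
  set Sr : ℝ := N * (2 * F * j + 32 * d ^ 2) with hSr
  have hd0 : (0 : ℝ) ≤ d := Nat.cast_nonneg d
  have hQ0 : (0 : ℝ) ≤ Q := Nat.cast_nonneg Q
  have hcard : (𝒢.card : ℝ) ≤ N := by
    have := Finset.card_le_card h𝒢
    rw [Finset.card_range] at this
    exact_mod_cast this
  -- one segment
  have h1 : ∀ a ∈ 𝒢, |lc ψ (avgT (2 * T.M) (emb T.s (p a)) (emb T.s (p (a + 1))))|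
      ≤ Cs / √T.l * (1 + lF T ψ (p a) (p (a + 1)) / θ) := by
    intro a ha
    obtain ⟨g1, g2⟩ := hok a ha
    have g3 := none_le_lF T ψ (p a) (p (a + 1))
    rw [hT.eε, ← hθ] at g3
    have hm5 : ‖emb T.s (p (a + 1)) - emb T.s (p (a + 1))‖ ≤ 4 * T.l := by
      rw [sub_self, norm_zero]; positivity
    simp only [tst] at g3
    unfold bT at g3
    rw [if_pos ⟨by linarith, g2, hm5⟩, hT.eCs, ← hCs] at g3
    simp only [lc, map_smul, smul_eq_mul] at g3 ⊢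
    set V := Finsupp.linearCombination ℝ ψ
      (avgT (2 * T.M) (emb T.s (p a)) (emb T.s (p (a + 1)))) with hV
    set v := (Cs / √T.l)⁻¹ * V with hv
    have hV' : V = Cs / √T.l * v := by
      rw [hv, ← mul_assoc, mul_inv_cancel₀ (by positivity), one_mul]
    rw [hV', abs_mul, abs_of_pos (by positivity : 0 < Cs / √T.l)]
    refine mul_le_mul_of_nonneg_left ?_ (by positivity)
    have g4 : v ^ 2 ≤ lF T ψ (p a) (p (a + 1)) / θ := by rw [le_div_iff₀ hθ0]; linarith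
    have g5 : |v| ≤ 1 + v ^ 2 := by
      rw [← sq_abs v]
      nlinarith only [sq_nonneg (|v| - 1), abs_nonneg v]
    linarith
  have h2 : ∑ i ∈ Finset.range (N - 1),
        -Real.log (wtR ((p (i + 1 + 1) - p (i + 1)) - (p (i + 1) - p i)))
      ≤ 2 * d * (η * Sr + N / (4 * η)) := by
    calc ∑ i ∈ Finset.range (N - 1),
        -Real.log (wtR ((p (i + 1 + 1) - p (i + 1)) - (p (i + 1) - p i)))
        ≤ ∑ i ∈ Finset.range (N - 1), 2 * d * (η
          * ‖emb 1 ((p (i + 1 + 1) - p (i + 1)) - (p (i + 1) - p i))‖ ^ 2 + 1 / (4 * η)) :=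
          Finset.sum_le_sum fun i _ => neg_log_wtR_le' _ le_rfl hη0
      _ = 2 * d * (η * ∑ i ∈ Finset.range (N - 1),
          ‖emb 1 ((p (i + 1 + 1) - p (i + 1)) - (p (i + 1) - p i))‖ ^ 2
          + ((N - 1 : ℕ) : ℝ) * (1 / (4 * η))) := by
          rw [← Finset.mul_sum, Finset.sum_add_distrib, ← Finset.mul_sum]
          simp only [Finset.sum_const, nsmul_eq_mul, Finset.card_range]
      _ ≤ 2 * d * (η * Sr + N * (1 / (4 * η))) := by
          have : ((N - 1 : ℕ) : ℝ) ≤ N := by exact_mod_cast Nat.sub_le N 1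
          gcongr
      _ = _ := by ring
  have h3 : ∑ a ∈ 𝒢, |lc ψ (avgT (2 * T.M) (emb T.s (p a)) (emb T.s (p (a + 1))))|
      ≤ Cs / √T.l * (N + Q * (L + 2 * d * (η * Sr + N / (4 * η))) / θ) := by
    refine (Finset.sum_le_sum h1).trans ?_
    rw [← Finset.mul_sum]
    refine mul_le_mul_of_nonneg_left ?_ (by positivity)
    rw [Finset.sum_add_distrib, ← Finset.sum_div, Finset.sum_const, nsmul_eq_mul, mul_one]
    have h4 : (Q : ℝ) * (L + ∑ i ∈ Finset.range (N - 1),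
        -Real.log (wtR ((p (i + 1 + 1) - p (i + 1)) - (p (i + 1) - p i))))
      ≤ Q * (L + 2 * d * (η * Sr + N / (4 * η))) := by gcongr
    have h5 := hF.trans h4
    gcongr
  set S := ∑ a ∈ 𝒢, |lc ψ (avgT (2 * T.M) (emb T.s (p a)) (emb T.s (p (a + 1))))| with hS
  have h5 : S / N ≤ Cs / √T.l
      * (1 + Q * (L / N + 2 * d * (η * (2 * F * j + 32 * d ^ 2) + 1 / (4 * η))) / θ) := by
    rw [div_le_iff₀ hN']
    refine h3.trans (le_of_eq ?_)
    rw [hSr]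
    field_simp
  set X := 1 + Q * (L / N + 2 * d * (η * (2 * F * j + 32 * d ^ 2) + 1 / (4 * η))) / θ with hX
  have hX0 : 0 ≤ X := by positivity
  have h6 : ξ * (S / N) ≤ κ * (Cs * X) := by
    calc ξ * (S / N) ≤ ξ * (Cs / √T.l * X) := by gcongr
      _ = ξ * (1 / √T.l) * (Cs * X) := by ring
      _ ≤ κ * (Cs * X) := by gcongr
  refine h6.trans ?_
  have e1 : Cs * X = F * (A * (Q * (2 * d * (η * (2 * j)))))
      + (A * (Q * (L / N)) + (A * (Q * 2 * d * (η * (32 * d ^ 2) + 1 / (4 * η))) + Cs)) := by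
    rw [hX, hA]; ring
  have e2 : A * (Q * (2 * d * (η * (2 * j)))) ≤ ε₀ / 4 * j := by
    have : A * (Q * (2 * d * (η * (2 * j)))) = 4 * A * η * (Q * d) * j := by ring
    rw [this]
    have h7 : 4 * A * η * (Q * d) ≤ ε₀ / 4 := by
      have h8 : (Q : ℝ) * d ≤ (d + 1) * (1 + Q) := by
        have e9 : ((d : ℝ) + 1) * (1 + Q) = Q * d + (d + 1 + Q) := by ring
        rw [e9]; linarith only [hd0, hQ0]
      calc 4 * A * η * (Q * d) ≤ 4 * A * η * ((d + 1) * (1 + Q)) := by gcongr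
        _ = ε₀ / 4 := by rw [hη]; field_simp; norm_num
    gcongr
  have e3 : κ * (F * (A * (Q * (2 * d * (η * (2 * j)))))) ≤ ε₀ * j := by
    calc κ * (F * (A * (Q * (2 * d * (η * (2 * j)))))) ≤ κ * (F * (ε₀ / 4 * j)) := by gcongr
      _ = (κ * F) * (ε₀ / 4 * j) := by ring
      _ ≤ 4 * (ε₀ / 4 * j) := by gcongr
      _ = _ := by ring
  have e4 : κ * (A * (Q * (L / N)) + (A * (Q * 2 * d * (η * (32 * d ^ 2) + 1 / (4 * η))) + Cs))
      ≤ (A * (Q + Q * 2 * d * (η * (32 * d ^ 2) + 1 / (4 * η))) + Cs) * κ * (1 + L / N) := by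
    have hLN : 0 ≤ L / N := by positivity
    set c1 := A * (Q * 2 * d * (η * (32 * d ^ 2) + 1 / (4 * η))) + Cs with hc1
    have hc10 : 0 ≤ c1 := by positivity
    have g1 : A * (Q + Q * 2 * d * (η * (32 * d ^ 2) + 1 / (4 * η))) + Cs
        = A * Q + c1 := by rw [hc1]; ring
    rw [g1]
    have g3 : A * (Q * (L / N)) + c1 ≤ (A * Q + c1) * (1 + L / N) := by
      have : 0 ≤ A * Q := by positivity
      have e9 : (A * Q + c1) * (1 + L / N)
          = A * (Q * (L / N)) + c1 + (A * Q + c1 * (L / N)) := by ring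
      rw [e9]; linarith only [this, mul_nonneg hc10 hLN]
    calc κ * (A * (Q * (L / N)) + c1) ≤ κ * ((A * Q + c1) * (1 + L / N)) := by gcongr
      _ = _ := by ring
  rw [e1, mul_add]
  exact add_le_add e3 e4

end Pool.Agent.Lib_MP_71c74a_pr
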