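import Pool.Agent.Lib_MP_71c74a_pr.FieldDefs

/-!
# Gaussian fields with smooth paths: Fernique bounds
-/

open MeasureTheory ProbabilityTheory Set
open scoped ENNReal NNReal Topology

namespace Pool.Agent.Lib_MP_71c74a_pr

section Law

variable {Ω Ω' E H : Type*} [MeasurableSpace Ω] [MeasurableSpace Ω'] [NormedAddCommGroup E]
  [NormedSpace ℝ E] [NormedAddCommGroup H] [InnerProductSpace ℝ H] {P : Measure Ω}
  {P' : Measure Ω'} {G : E → H} {ψ : E → Ω → ℝ} {ψ' : E → Ω' → ℝ}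

/-- The vector of the values of finitely many tests. -/
noncomputable def testVec {n : ℕ} (ψ : E → Ω → ℝ) (a : Fin n → (E →₀ ℝ)) (ω : Ω) : Fin n → ℝ :=
  fun i => lc (fun x => ψ x ω) (a i)

lemma FieldLaw.measurable_testVec (h : FieldLaw P G ψ) {n : ℕ} (a : Fin n → (E →₀ ℝ)) :
    Measurable (testVec ψ a) := by
  refine measurable_pi_lambda _ fun i => ?_
  exact h.measurable_lc (a i)

lemma dual_testVec {n : ℕ} (a : Fin n → (E →₀ ℝ)) (L : StrongDual ℝ (Fin n → ℝ)) (ω : Ω) :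
    L (testVec ψ a ω) = lc (fun x => ψ x ω) (∑ i, L (Pi.single i 1) • a i) := by
  have h1 : testVec ψ a ω = ∑ i, testVec ψ a ω i • (Pi.single i 1 : Fin n → ℝ) := by
    ext k
    simp [Finset.sum_apply, Pi.single_apply]
  rw [h1, map_sum, lc, map_sum]
  refine Finset.sum_congr rfl fun i _ => ?_
  rw [map_smul, map_smul, smul_eq_mul, smul_eq_mul, mul_comm]
  rfl

lemma FieldLaw.map_testVec (h : FieldLaw P G ψ) {n : ℕ} (a : Fin n → (E →₀ ℝ))
    (L : StrongDual ℝ (Fin n → ℝ)) :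
    (P.map (testVec ψ a)).map L
      = gaussianReal 0 (‖lc G (∑ i, L (Pi.single i 1) • a i)‖₊ ^ 2) := by
  rw [Measure.map_map L.continuous.measurable (h.measurable_testVec a), ← h.gauss]
  congr 1
  ext ω
  exact dual_testVec a L ω

lemma FieldLaw.isGaussian_testVec (h : FieldLaw P G ψ) {n : ℕ} (a : Fin n → (E →₀ ℝ)) :
    IsGaussian (P.map (testVec ψ a)) :=
  isGaussian_of_map_eq_gaussianReal fun L => ⟨_, _, h.map_testVec a L⟩

lemma FieldLaw.testVec_dual_integral (h : FieldLaw P G ψ) {n : ℕ} (a : Fin n → (E →₀ ℝ))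
    (L : StrongDual ℝ (Fin n → ℝ)) : (P.map (testVec ψ a))[L] = 0 := by
  have h1 : ∫ x, L x ∂(P.map (testVec ψ a)) = ∫ y, y ∂((P.map (testVec ψ a)).map L) := by
    rw [integral_map L.continuous.measurable.aemeasurable (by fun_prop)]
  rw [h1, h.map_testVec a L, integral_id_gaussianReal]

lemma FieldLaw.isProbabilityMeasure (h : FieldLaw P G ψ) : IsProbabilityMeasure P := by
  have h1 := h.gauss 0
  have h2 : IsProbabilityMeasure (P.map (fun ω => lc (fun x => ψ x ω) 0)) := by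
    rw [h1]; infer_instance
  constructor
  have h3 := h2.measure_univ
  rwa [Measure.map_apply (h.measurable_lc 0) MeasurableSet.univ, preimage_univ] at h3

lemma FieldLaw.testVec_law_eq (h : FieldLaw P G ψ) (h' : FieldLaw P' G ψ') {n : ℕ}
    (a : Fin n → (E →₀ ℝ)) : P.map (testVec ψ a) = P'.map (testVec ψ' a) := by
  have := h.isGaussian_testVec a
  have := h'.isGaussian_testVec a
  apply Measure.ext_of_charFunDual
  ext L
  rw [charFunDual_eq_charFun_map_one, charFunDual_eq_charFun_map_one, h.map_testVec,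
    h'.map_testVec]

/-- Exponential square moments of a supremum of tests, uniformly over all fields with the
same law. -/
theorem sup_moment (h₀ : FieldLaw P' G ψ') (a : ℕ → (E →₀ ℝ))
    (hfin : ∀ ω, ∃ C, ∀ m, |lc (fun x => ψ' x ω) (a m)| ≤ C) :
    ∃ ε : ℝ, 0 < ε ∧ ∀ (P : Measure Ω) (ψ : E → Ω → ℝ), FieldLaw P G ψ →
      ∫⁻ ω, ⨆ m, ENNReal.ofReal (Real.exp (ε * (lc (fun x => ψ x ω) (a m)) ^ 2)) ∂P ≤ ferK := by
  have hP' := h₀.isProbabilityMeasure
  -- the sets where the supremum is bounded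
  set S : ℕ → Set Ω' := fun n => {ω | ∀ m, |lc (fun x => ψ' x ω) (a m)| ≤ n} with hS
  have hSmeas : ∀ n, MeasurableSet (S n) := by
    intro n
    have : S n = ⋂ m, {ω | |lc (fun x => ψ' x ω) (a m)| ≤ n} := by ext; simp [hS]
    rw [this]
    refine MeasurableSet.iInter fun m => ?_
    exact measurableSet_le (h₀.measurable_lc (a m)).abs measurable_const
  have hSmono : Monotone S := by
    intro n n' hnn' ω hω m
    exact (hω m).trans (by exact_mod_cast hnn')
  have hSU : ⋃ n, S n = univ := by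
    ext ω
    simp only [mem_iUnion, mem_univ, iff_true]
    obtain ⟨C, hC⟩ := hfin ω
    obtain ⟨n, hn⟩ := exists_nat_ge C
    exact ⟨n, fun m => (hC m).trans hn⟩
  have hlim := tendsto_measure_iUnion_atTop (μ := P') hSmono
  rw [hSU, measure_univ] at hlim
  obtain ⟨n, hn⟩ := (hlim.eventually (lt_mem_nhds three_quarters_lt)).exists
  have hn' : 3 / 4 ≤ P' (S (n + 1)) := hn.le.trans (measure_mono (hSmono (Nat.le_succ n)))
  set A : ℝ := ((n + 1 : ℕ) : ℝ) with hA
  have hApos : 0 < A := by rw [hA]; positivity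
  refine ⟨ferE * A⁻¹ ^ 2, mul_pos ferE_pos (by positivity), ?_⟩
  intro P ψ h
  have hP := h.isProbabilityMeasure
  set V : (N : ℕ) → Ω → (Fin N → ℝ) := fun N => testVec ψ (fun i : Fin N => a i) with hV
  set V₀ : (N : ℕ) → Ω' → (Fin N → ℝ) := fun N => testVec ψ' (fun i : Fin N => a i) with hV₀
  have hVm : ∀ N, Measurable (V N) := fun N => h.measurable_testVec _
  have hV₀m : ∀ N, Measurable (V₀ N) := fun N => h₀.measurable_testVec _
  set g : ℕ → Ω → ℝ≥0∞ := fun N ω =>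
    ENNReal.ofReal (Real.exp (ferE * A⁻¹ ^ 2 * ‖V N ω‖ ^ 2)) with hg
  have hnormmono : ∀ ω N N', N ≤ N' → ‖V N ω‖ ≤ ‖V N' ω‖ := by
    intro ω N N' hNN'
    rw [pi_norm_le_iff_of_nonneg (norm_nonneg _)]
    intro i
    exact norm_le_pi_norm (V N' ω) ⟨i, lt_of_lt_of_le i.2 hNN'⟩
  have hgmono : Monotone g := by
    intro N N' hNN' ω
    apply ENNReal.ofReal_le_ofReal
    apply Real.exp_le_exp.2
    apply mul_le_mul_of_nonneg_left _ (mul_nonneg ferE_pos.le (by positivity))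
    exact pow_le_pow_left₀ (norm_nonneg _) (hnormmono ω N N' hNN') 2
  have hgmeas : ∀ N, Measurable (g N) := by
    intro N
    have := (hVm N).norm
    fun_prop
  have hle : ∀ ω, ⨆ m, ENNReal.ofReal (Real.exp (ferE * A⁻¹ ^ 2 * (lc (fun x => ψ x ω) (a m)) ^ 2))
      ≤ ⨆ N, g N ω := by
    intro ω
    refine iSup_le fun m => le_trans ?_ (le_iSup (fun N => g N ω) (m + 1))
    apply ENNReal.ofReal_le_ofReal
    apply Real.exp_le_exp.2
    apply mul_le_mul_of_nonneg_left _ (mul_nonneg ferE_pos.le (by positivity))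
    rw [← sq_abs]
    apply pow_le_pow_left₀ (abs_nonneg _)
    exact norm_le_pi_norm (V (m + 1) ω) ⟨m, Nat.lt_succ_self m⟩
  calc ∫⁻ ω, ⨆ m, ENNReal.ofReal (Real.exp (ferE * A⁻¹ ^ 2 * (lc (fun x => ψ x ω) (a m)) ^ 2)) ∂P
      ≤ ∫⁻ ω, ⨆ N, g N ω ∂P := lintegral_mono hle
    _ = ⨆ N, ∫⁻ ω, g N ω ∂P := lintegral_iSup hgmeas hgmono
    _ ≤ ferK := by
        refine iSup_le fun N => ?_
        have h1 : ∫⁻ ω, g N ω ∂P
            = ∫⁻ x, ENNReal.ofReal (Real.exp (ferE * A⁻¹ ^ 2 * ‖x‖ ^ 2)) ∂(P.map (V N)) := by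
          rw [lintegral_map (by fun_prop) (hVm N)]
        rw [h1]
        have hgauss : IsGaussian (P.map (V N)) := h.isGaussian_testVec _
        refine fernique_uniform _ (fun L => h.testVec_dual_integral _ L) ?_
        have h2 : P.map (V N) = P'.map (V₀ N) := h.testVec_law_eq h₀ _
        rw [h2, Measure.map_apply (hV₀m N) (measurableSet_le measurable_norm measurable_const)]
        refine hn'.trans (measure_mono ?_)
        intro ω hω
        simp only [mem_preimage, mem_ofPred_eq]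
        rw [pi_norm_le_iff_of_nonneg hApos.le]
        intro i
        exact hω i

/-- Exponential square moment of one test. -/
lemma FieldLaw.test_moment (h : FieldLaw P G ψ) (a : E →₀ ℝ) (ha : ‖lc G a‖ ≤ 1) :
    ∫⁻ ω, ENNReal.ofReal (Real.exp (ferE / 4 * (lc (fun x => ψ x ω) a) ^ 2)) ∂P ≤ ferK := by
  have hP := h.isProbabilityMeasure
  have h1 : ∫⁻ ω, ENNReal.ofReal (Real.exp (ferE / 4 * (lc (fun x => ψ x ω) a) ^ 2)) ∂P
      = ∫⁻ x, ENNReal.ofReal (Real.exp (ferE * (2 : ℝ)⁻¹ ^ 2 * ‖x‖ ^ 2))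
        ∂(gaussianReal 0 (‖lc G a‖₊ ^ 2)) := by
    rw [← h.gauss, lintegral_map (by fun_prop) (h.measurable_lc a)]
    refine lintegral_congr fun ω => ?_
    congr 2
    rw [Real.norm_eq_abs, sq_abs]
    ring
  rw [h1]
  refine fernique_uniform _ (fun L => ?_) ?_
  · rw [integral_continuousLinearMap_gaussianReal]
    simp
  · -- Chebyshev
    have hcheb := meas_ge_le_variance_div_sq (μ := gaussianReal 0 (‖lc G a‖₊ ^ 2)) (X := id) (by
      exact memLp_id_gaussianReal 2) (c := 2) (by norm_num)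
    rw [variance_id_gaussianReal] at hcheb
    simp only [id_eq, integral_id_gaussianReal, sub_zero] at hcheb
    have h2 : ENNReal.ofReal (((‖lc G a‖₊ ^ 2 : ℝ≥0) : ℝ) / 2 ^ 2) ≤ 1 / 4 := by
      rw [ENNReal.ofReal_le_iff_le_toReal (by finiteness)]
      have h3 : ‖lc G a‖ ^ 2 ≤ 1 := pow_le_one₀ (norm_nonneg _) ha
      simp only [NNReal.coe_pow, coe_nnnorm, ENNReal.toReal_div, ENNReal.toReal_one,
        ENNReal.toReal_ofNat]
      linarith
    have h3 : {x : ℝ | ‖x‖ ≤ 2}ᶜ ⊆ {x : ℝ | 2 ≤ |x|} := by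
      intro x hx
      simp only [mem_compl_iff, mem_ofPred_eq, not_le, Real.norm_eq_abs] at hx ⊢
      exact hx.le
    have h4 : (gaussianReal 0 (‖lc G a‖₊ ^ 2)) {x : ℝ | ‖x‖ ≤ 2}ᶜ ≤ 1 / 4 :=
      (measure_mono h3).trans (hcheb.trans h2)
    have h5 := prob_add_prob_compl (μ := gaussianReal 0 (‖lc G a‖₊ ^ 2))
      (s := {x : ℝ | ‖x‖ ≤ 2}) (measurableSet_le measurable_norm measurable_const)
    have h6 : (3 / 4 : ℝ≥0∞) + 1 / 4 = 1 := by
      rw [← ENNReal.add_div]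
      have : (3 : ℝ≥0∞) + 1 = 4 := by norm_num
      rw [this]
      exact ENNReal.div_self (by simp) (by simp)
    have h7 : (3 / 4 : ℝ≥0∞) + 1 / 4
        ≤ (gaussianReal 0 (‖lc G a‖₊ ^ 2)) {x : ℝ | ‖x‖ ≤ 2} + 1 / 4 := by
      calc (3 / 4 : ℝ≥0∞) + 1 / 4 = 1 := h6
        _ = (gaussianReal 0 (‖lc G a‖₊ ^ 2)) {x : ℝ | ‖x‖ ≤ 2}
            + (gaussianReal 0 (‖lc G a‖₊ ^ 2)) {x : ℝ | ‖x‖ ≤ 2}ᶜ := h5.symm
        _ ≤ _ := by gcongr
    exact (ENNReal.add_le_add_iff_right (by finiteness)).1 h7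

end Law

end Pool.Agent.Lib_MP_71c74a_pr
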