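import Pool.Agent.Lib_MP_71c74a_pr.BlockLemma
import Pool.Agent.Lib_MP_71c74a_pr.Field

/-!
# Expected cost of a block: the gain
-/

open MeasureTheory ProbabilityTheory Set
open scoped ENNReal NNReal Topology

namespace Pool.Agent.Lib_MP_71c74a_pr

variable {d : ℕ} {Ω H : Type*} [MeasurableSpace Ω] [NormedAddCommGroup H]
  [InnerProductSpace ℝ H] {P : Measure Ω} {G : Eu d → H} {ψ : Eu d → Ω → ℝ} {R₀ v₀ C : ℝ}

lemma FieldLaw.integrable_lc (h : FieldLaw P G ψ) (a : Eu d →₀ ℝ) :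
    Integrable (fun ω => lc (fun x => ψ x ω) a) P := by
  have h1 : Integrable (id : ℝ → ℝ) (P.map (fun ω => lc (fun x => ψ x ω) a)) := by
    rw [h.gauss]
    exact (memLp_id_gaussianReal (μ := 0) (v := ‖lc G a‖₊ ^ 2) 1).integrable (by norm_num)
  exact h1.comp_measurable (h.measurable_lc a)

lemma FieldLaw.integral_lc (h : FieldLaw P G ψ) (a : Eu d →₀ ℝ) :
    ∫ ω, lc (fun x => ψ x ω) a ∂P = 0 := by
  have h1 : ∫ ω, lc (fun x => ψ x ω) a ∂P
      = ∫ y, y ∂(P.map (fun ω => lc (fun x => ψ x ω) a)) := by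
    rw [integral_map (h.measurable_lc a).aemeasurable (by fun_prop)]
  rw [h1, h.gauss, integral_id_gaussianReal]

lemma FieldLaw.integral_abs_lc (h : FieldLaw P G ψ) (a : Eu d →₀ ℝ) :
    ∫ ω, |lc (fun x => ψ x ω) a| ∂P = ‖lc G a‖ * gabs := by
  have h1 : ∫ ω, |lc (fun x => ψ x ω) a| ∂P
      = ∫ y, |y| ∂(P.map (fun ω => lc (fun x => ψ x ω) a)) := by
    rw [integral_map (h.measurable_lc a).aemeasurable (by fun_prop)]
  rw [h1, h.gauss, integral_abs_gaussian, coe_nnnorm]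

/-- The exponent `ε` is admissible for the covariance `G`. -/
structure Adm (Ω : Type*) [MeasurableSpace Ω] (G : Eu d → H) (C ε : ℝ) : Prop where
  pos : 0 < ε
  le : ε ≤ ferE / (4 * C ^ 2)
  sup : ∀ (P : Measure Ω) (ψ : Eu d → Ω → ℝ), FieldLaw P G ψ →
    ∫⁻ ω, ⨆ m, eT ε (fun x => ψ x ω) (lipT d m) ∂P ≤ ferK

lemma exists_adm {Ω' : Type*} [MeasurableSpace Ω'] {P' : Measure Ω'} {ψ' : Eu d → Ω' → ℝ}
    (h₀ : FieldLaw P' G ψ') (hC : 0 < C) : ∃ ε, Adm Ω G C ε := by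
  obtain ⟨ε₂, hε₂, hsup⟩ := sup_moment (Ω := Ω) h₀ (lipT d) (fun ω => lipT_bdd (h₀.smooth ω))
  have hf := ferE_pos
  refine ⟨min (ferE / (4 * C ^ 2)) ε₂, lt_min (by positivity) hε₂, min_le_left _ _,
    fun P ψ hψ => ?_⟩
  refine le_trans (lintegral_mono fun ω => ?_) (hsup P ψ hψ)
  refine iSup_mono fun m => ?_
  unfold eT
  apply ENNReal.ofReal_le_ofReal
  apply Real.exp_le_exp.2
  gcongr
  exact min_le_right _ _

lemma lintegral_exp_sq_le (hG : CovLaw G R₀ v₀ C) (h : FieldLaw P G ψ) {ε : ℝ}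
    (hε : Adm Ω G C ε) (v : Eu d) :
    ∫⁻ ω, ENNReal.ofReal (Real.exp (ε * (ψ v ω) ^ 2)) ∂P ≤ ferK := by
  have hC := hG.C_pos
  have h1 := h.test_moment (C⁻¹ • Finsupp.single v 1) (by
    simp only [lc, map_smul, Finsupp.linearCombination_single, one_smul]
    rw [norm_smul, norm_inv, Real.norm_eq_abs, abs_of_pos hC, inv_mul_le_iff₀ hC, mul_one]
    exact hG.norm_le v)
  refine le_trans (lintegral_mono fun ω => ?_) h1
  apply ENNReal.ofReal_le_ofReal
  apply Real.exp_le_exp.2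
  simp only [lc, map_smul, Finsupp.linearCombination_single, smul_eq_mul, one_mul]
  rw [mul_pow]
  have h2 := hε.le
  calc ε * ψ v ω ^ 2 ≤ ferE / (4 * C ^ 2) * ψ v ω ^ 2 := by gcongr
    _ = ferE / 4 * (C⁻¹ ^ 2 * ψ v ω ^ 2) := by field_simp

lemma integrable_Zv (hG : CovLaw G R₀ v₀ C) (h : FieldLaw P G ψ) {ε : ℝ}
    (hε : Adm Ω G C ε) (v : Eu d) :
    Integrable (fun ω => Zv ε (fun x => ψ x ω) v) P ∧
      ∫ ω, Zv ε (fun x => ψ x ω) v ∂P ≤ 2 * ferK.toReal := by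
  unfold Zv
  have hm1 : Measurable (fun ω => Real.exp (ε * (ψ v ω) ^ 2)) := by
    have := h.meas v
    fun_prop
  have h1 := lintegral_exp_sq_le hG h hε v
  have hsh := h.shift hG v
  have h2 := hε.sup P _ hsh
  have hm2 : Measurable (fun ω => ⨆ m, eT ε (fun x => ψ (v + x) ω) (lipT d m)) :=
    Measurable.iSup fun m => (measurable_eT ε (lipT d m)).comp
      (measurable_pi_lambda _ fun x => h.meas (v + x))
  have i1 : Integrable (fun ω => Real.exp (ε * (ψ v ω) ^ 2)) P := by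
    refine ⟨hm1.aestronglyMeasurable, ?_⟩
    rw [hasFiniteIntegral_iff_ofReal (Filter.Eventually.of_forall fun ω => (Real.exp_pos _).le)]
    exact lt_of_le_of_lt h1 ferK_ne_top.lt_top
  have i2 : Integrable (fun ω => (⨆ m, eT ε (fun x => ψ (v + x) ω) (lipT d m)).toReal) P :=
    integrable_toReal_of_lintegral_ne_top hm2.aemeasurable (ne_top_of_le_ne_top ferK_ne_top h2)
  refine ⟨i1.add i2, ?_⟩
  rw [integral_add i1 i2]
  have e1 : ∫ ω, Real.exp (ε * (ψ v ω) ^ 2) ∂P ≤ ferK.toReal := by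
    rw [integral_eq_lintegral_of_nonneg_ae
      (Filter.Eventually.of_forall fun ω => (Real.exp_pos _).le) hm1.aestronglyMeasurable]
    exact ENNReal.toReal_mono ferK_ne_top h1
  have e2 : ∫ ω, (⨆ m, eT ε (fun x => ψ (v + x) ω) (lipT d m)).toReal ∂P ≤ ferK.toReal := by
    rw [integral_toReal hm2.aemeasurable]
    · exact ENNReal.toReal_mono ferK_ne_top h2
    · exact ae_lt_top hm2 (ne_top_of_le_ne_top ferK_ne_top h2)
  linarith

lemma integrable_pcZ (hG : CovLaw G R₀ v₀ C) (h : FieldLaw P G ψ) {ε : ℝ}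
    (hε : Adm Ω G C ε) {M : ℕ} (hM : 0 < M) (p q : Eu d) :
    Integrable (fun ω => pcZ ε M (fun x => ψ x ω) p q) P ∧
      ∫ ω, pcZ ε M (fun x => ψ x ω) p q ∂P ≤ ‖q - p‖ * (2 * ferK.toReal) := by
  have hM' : (0 : ℝ) < M := by exact_mod_cast hM
  unfold pcZ
  refine ⟨(integrable_finsetSum _ fun i _ => (integrable_Zv hG h hε _).1).const_mul _, ?_⟩
  rw [integral_const_mul, integral_finsetSum _ fun i _ => (integrable_Zv hG h hε _).1]
  calc ‖q - p‖ / M * ∑ i ∈ Finset.range M, ∫ ω, Zv ε (fun x => ψ x ω) (segPt M p q i) ∂P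
      ≤ ‖q - p‖ / M * ∑ _i ∈ Finset.range M, 2 * ferK.toReal := by
        gcongr with i _
        exact (integrable_Zv hG h hε _).2
    _ = ‖q - p‖ * (2 * ferK.toReal) := by
        rw [Finset.sum_const, Finset.card_range, nsmul_eq_mul]
        field_simp

/-- Expected cost of a block. -/
lemma lintegral_blk_le (hd : 2 ≤ d) (hG : CovLaw G R₀ v₀ C) (h : FieldLaw P G ψ) {ε : ℝ}
    (hε : Adm Ω G C ε) {ξ η : ℝ} (hξ : 0 < ξ) (hξ1 : ξ ≤ 1) (hη : 0 ≤ η) (hη1 : η ≤ 1)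
    (hηξ : η ≤ 2 * ξ) {M : ℕ} (hM : 0 < M) {D : ℝ} (hD : R₀ ≤ D) {X Y : Eu d} (hXY : X ≠ Y)
    (hL : 4 * (√v₀ / C) ≤ ‖Y - X‖) (hL2 : 2 * D ≤ ‖Y - X‖) :
    ∫⁻ ω, blk ξ η M D (fun x => ψ x ω) (fun x y => ENNReal.ofReal ‖y - x‖) X Y ∂P
      ≤ ENNReal.ofReal (‖Y - X‖ + 4 * D ^ 2 / ‖Y - X‖
        - ξ * (√((√v₀ / C) * v₀ / 4 * ‖Y - X‖) * gabs / 2)
        + ξ ^ 2 * (cZ ε * (3 * ‖Y - X‖ * (2 * ferK.toReal)))) := by
  have hP := h.isProbabilityMeasure
  have hL0 : 0 < ‖Y - X‖ := norm_pos_iff.2 (sub_ne_zero.2 hXY.symm)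
  have hR := hG.R₀_pos
  set b := ‖Y - X‖ with hb
  -- the pointwise bound
  set g : Ω → ℝ := fun ω => (b + 4 * D ^ 2 / b)
        + ξ * ((lc (fun x => ψ x ω) (pcT M X Y) + (lc (fun x => ψ x ω) (pcT M X (crn₁ D X Y))
          + lc (fun x => ψ x ω) (pcT M (crn₁ D X Y) (crn₂ D X Y))
          + lc (fun x => ψ x ω) (pcT M (crn₂ D X Y) Y))) / 2
          - |lc (fun x => ψ x ω) (decT M D X Y)| / 2)
        + ξ ^ 2 * (cZ ε * (pcZ ε M (fun x => ψ x ω) X Y + pcZ ε M (fun x => ψ x ω) X (crn₁ D X Y)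
          + pcZ ε M (fun x => ψ x ω) (crn₁ D X Y) (crn₂ D X Y)
          + pcZ ε M (fun x => ψ x ω) (crn₂ D X Y) Y)) with hg
  have hbound : ∀ ω, blk ξ η M D (fun x => ψ x ω) (fun x y => ENNReal.ofReal ‖y - x‖) X Y
      ≤ ENNReal.ofReal (g ω) := fun ω =>
    blk_le hd hξ hξ1 hη hη1 hηξ hε.pos (h.smooth ω) hM D hXY
  have i1 := h.integrable_lc (pcT M X Y)
  have i2 := h.integrable_lc (pcT M X (crn₁ D X Y))
  have i3 := h.integrable_lc (pcT M (crn₁ D X Y) (crn₂ D X Y))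
  have i4 := h.integrable_lc (pcT M (crn₂ D X Y) Y)
  have i5 := (h.integrable_lc (decT M D X Y)).abs
  have z1 := integrable_pcZ hG h hε hM X Y
  have z2 := integrable_pcZ hG h hε hM X (crn₁ D X Y)
  have z3 := integrable_pcZ hG h hε hM (crn₁ D X Y) (crn₂ D X Y)
  have z4 := integrable_pcZ hG h hε hM (crn₂ D X Y) Y
  have I1 : Integrable (fun ω => (lc (fun x => ψ x ω) (pcT M X Y)
      + (lc (fun x => ψ x ω) (pcT M X (crn₁ D X Y))
          + lc (fun x => ψ x ω) (pcT M (crn₁ D X Y) (crn₂ D X Y))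
          + lc (fun x => ψ x ω) (pcT M (crn₂ D X Y) Y))) / 2) P :=
    (i1.add ((i2.add i3).add i4)).div_const 2
  have I2 : Integrable (fun ω => |lc (fun x => ψ x ω) (decT M D X Y)| / 2) P := i5.div_const 2
  have I3 : Integrable (fun ω => pcZ ε M (fun x => ψ x ω) X Y
      + pcZ ε M (fun x => ψ x ω) X (crn₁ D X Y)
          + pcZ ε M (fun x => ψ x ω) (crn₁ D X Y) (crn₂ D X Y)
          + pcZ ε M (fun x => ψ x ω) (crn₂ D X Y) Y) P :=
    ((z1.1.add z2.1).add z3.1).add z4.1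
  have I12 : Integrable (fun ω => (lc (fun x => ψ x ω) (pcT M X Y)
      + (lc (fun x => ψ x ω) (pcT M X (crn₁ D X Y))
          + lc (fun x => ψ x ω) (pcT M (crn₁ D X Y) (crn₂ D X Y))
          + lc (fun x => ψ x ω) (pcT M (crn₂ D X Y) Y))) / 2
          - |lc (fun x => ψ x ω) (decT M D X Y)| / 2) P := I1.sub I2
  have ic : Integrable (fun _ : Ω => b + 4 * D ^ 2 / b) P := integrable_const _
  have Ig : Integrable g P := (ic.add (I12.const_mul ξ)).add ((I3.const_mul _).const_mul _)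
  -- a nonnegative version
  have hpos : ∫⁻ ω, ENNReal.ofReal (g ω) ∂P ≤ ENNReal.ofReal (∫ ω, g ω ∂P) := by
    have hgnn : ∀ ω, 0 ≤ g ω := by
      intro ω
      by_contra hcon
      push Not at hcon
      have h1 := hbound ω
      rw [ENNReal.ofReal_of_nonpos hcon.le, nonpos_iff_eq_zero] at h1
      -- the cost of a block is positive
      have hM' : (0 : ℝ) < M := by exact_mod_cast hM
      have hw : ∀ v, 0 < wt ξ η (fun x => ψ x ω) v := fun v => by
        refine lt_of_lt_of_le ?_ (le_iSup (fun m => ENNReal.ofReal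
          (Real.exp (ξ * ψ v ω + ξ * η * |lc (fun x => ψ (v + x) ω) (lipT d m)|))) 0)
        exact ENNReal.ofReal_pos.2 (Real.exp_pos _)
      have hpc : ∀ p q : Eu d, 0 < ‖q - p‖ →
          0 < pcC ξ η M (fun x => ψ x ω) (fun x y => ENNReal.ofReal ‖y - x‖) p q := by
        intro p q hpq
        unfold pcC
        refine lt_of_lt_of_le ?_ (Finset.single_le_sum (f := fun i =>
          wt ξ η (fun x => ψ x ω) (segPt M p q i)
            * ENNReal.ofReal ‖segPt M p q (i + 1) - segPt M p q i‖)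
          (fun _ _ => zero_le) (Finset.mem_range.2 hM))
        refine ENNReal.mul_pos (hw _).ne' (ENNReal.ofReal_pos.2 ?_).ne'
        rw [norm_segPt_succ]
        positivity
      unfold blk at h1
      split_ifs at h1 with h2
      · exact (hpc X Y hL0).ne' h1
      · rw [add_eq_zero, add_eq_zero] at h1
        have h3 : 0 < ‖crn₁ D X Y - X‖ := by
          rw [crn₁_sub]
          have := (norm_leg hd (v := Y - X) (D := D) rfl hL0).1
          linarith
        exact (hpc _ _ h3).ne' h1.1.1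
    rw [ofReal_integral_eq_lintegral_ofReal Ig (Filter.Eventually.of_forall hgnn)]
  refine (lintegral_mono hbound).trans (hpos.trans (ENNReal.ofReal_le_ofReal ?_))
  have hint : ∫ ω, g ω ∂P = (b + 4 * D ^ 2 / b)
      - ξ * (‖lc G (decT M D X Y)‖ * gabs / 2)
      + ξ ^ 2 * (cZ ε * ((∫ ω, pcZ ε M (fun x => ψ x ω) X Y ∂P)
        + (∫ ω, pcZ ε M (fun x => ψ x ω) X (crn₁ D X Y) ∂P)
          + (∫ ω, pcZ ε M (fun x => ψ x ω) (crn₁ D X Y) (crn₂ D X Y) ∂P)
          + ∫ ω, pcZ ε M (fun x => ψ x ω) (crn₂ D X Y) Y ∂P)) := by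
    rw [hg]
    have e0 : ∫ ω, pcZ ε M (fun x => ψ x ω) X Y
      + pcZ ε M (fun x => ψ x ω) X (crn₁ D X Y)
          + pcZ ε M (fun x => ψ x ω) (crn₁ D X Y) (crn₂ D X Y)
          + pcZ ε M (fun x => ψ x ω) (crn₂ D X Y) Y ∂P
        = (∫ ω, pcZ ε M (fun x => ψ x ω) X Y ∂P)
        + (∫ ω, pcZ ε M (fun x => ψ x ω) X (crn₁ D X Y) ∂P)
          + (∫ ω, pcZ ε M (fun x => ψ x ω) (crn₁ D X Y) (crn₂ D X Y) ∂P)
          + ∫ ω, pcZ ε M (fun x => ψ x ω) (crn₂ D X Y) Y ∂P := by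
      have j1 : Integrable (fun ω => pcZ ε M (fun x => ψ x ω) X Y
        + pcZ ε M (fun x => ψ x ω) X (crn₁ D X Y)) P := z1.1.add z2.1
      have j2 : Integrable (fun ω => pcZ ε M (fun x => ψ x ω) X Y
        + pcZ ε M (fun x => ψ x ω) X (crn₁ D X Y)
        + pcZ ε M (fun x => ψ x ω) (crn₁ D X Y) (crn₂ D X Y)) P := j1.add z3.1
      rw [integral_add j2 z4.1, integral_add j1 z3.1, integral_add z1.1 z2.1]
    have e1 : ∫ ω, (lc (fun x => ψ x ω) (pcT M X Y)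
      + (lc (fun x => ψ x ω) (pcT M X (crn₁ D X Y))
          + lc (fun x => ψ x ω) (pcT M (crn₁ D X Y) (crn₂ D X Y))
          + lc (fun x => ψ x ω) (pcT M (crn₂ D X Y) Y))) / 2 ∂P = 0 := by
      have j1 : Integrable (fun ω => lc (fun x => ψ x ω) (pcT M X (crn₁ D X Y))
          + lc (fun x => ψ x ω) (pcT M (crn₁ D X Y) (crn₂ D X Y))) P := i2.add i3
      have j2 : Integrable (fun ω => lc (fun x => ψ x ω) (pcT M X (crn₁ D X Y))
          + lc (fun x => ψ x ω) (pcT M (crn₁ D X Y) (crn₂ D X Y))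
          + lc (fun x => ψ x ω) (pcT M (crn₂ D X Y) Y)) P := j1.add i4
      rw [integral_div, integral_add i1 j2, integral_add j1 i4, integral_add i2 i3,
        h.integral_lc, h.integral_lc, h.integral_lc, h.integral_lc]
      simp
    have e2 : ∫ ω, |lc (fun x => ψ x ω) (decT M D X Y)| / 2 ∂P
        = ‖lc G (decT M D X Y)‖ * gabs / 2 := by
      rw [integral_div, h.integral_abs_lc]
    have j3 : Integrable (fun ω => ξ * ((lc (fun x => ψ x ω) (pcT M X Y)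
      + (lc (fun x => ψ x ω) (pcT M X (crn₁ D X Y))
          + lc (fun x => ψ x ω) (pcT M (crn₁ D X Y) (crn₂ D X Y))
          + lc (fun x => ψ x ω) (pcT M (crn₂ D X Y) Y))) / 2
          - |lc (fun x => ψ x ω) (decT M D X Y)| / 2)) P := I12.const_mul ξ
    have j4 : Integrable (fun ω => (b + 4 * D ^ 2 / b) + ξ * ((lc (fun x => ψ x ω) (pcT M X Y)
      + (lc (fun x => ψ x ω) (pcT M X (crn₁ D X Y))
          + lc (fun x => ψ x ω) (pcT M (crn₁ D X Y) (crn₂ D X Y))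
          + lc (fun x => ψ x ω) (pcT M (crn₂ D X Y) Y))) / 2
          - |lc (fun x => ψ x ω) (decT M D X Y)| / 2)) P := ic.add j3
    rw [integral_add j4 ((I3.const_mul _).const_mul _), integral_add ic j3, integral_const,
      integral_const_mul, integral_const_mul, integral_const_mul, integral_sub I1 I2, e0, e1, e2]
    simp
    ring
  rw [hint]
  have hdec := decT_lower hd hG hM hD hL
  have hgp := gabs_pos
  have hcz := cZ_pos ε
  have hκ : 0 ≤ ferK.toReal := ENNReal.toReal_nonneg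
  have hdet := detLen_le hd (D := D) hXY
  unfold detLen at hdet
  have hdet2 : 4 * D ^ 2 / b ≤ b := by
    rw [div_le_iff₀ hL0]
    nlinarith
  have hZ : (∫ ω, pcZ ε M (fun x => ψ x ω) X Y ∂P)
        + (∫ ω, pcZ ε M (fun x => ψ x ω) X (crn₁ D X Y) ∂P)
          + (∫ ω, pcZ ε M (fun x => ψ x ω) (crn₁ D X Y) (crn₂ D X Y) ∂P)
          + ∫ ω, pcZ ε M (fun x => ψ x ω) (crn₂ D X Y) Y ∂P ≤ 3 * b * (2 * ferK.toReal) := by
    have a1 := z1.2
    have a2 := z2.2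
    have a3 := z3.2
    have a4 := z4.2
    have a5 : (‖Y - X‖ + ‖crn₁ D X Y - X‖ + ‖crn₂ D X Y - crn₁ D X Y‖ + ‖Y - crn₂ D X Y‖)
        * (2 * ferK.toReal) ≤ 3 * b * (2 * ferK.toReal) := by
      gcongr
      rw [← hb] at hdet ⊢
      linarith
    linarith
  gcongr

end Pool.Agent.Lib_MP_71c74a_pr
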