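import Pool.Agent.Lib_MP_71c74a_pr.FieldOps

/-!
# The two routes: geometry and variances
-/

open MeasureTheory ProbabilityTheory Set
open scoped ENNReal NNReal Topology

namespace Pool.Agent.Lib_MP_71c74a_pr

variable {d : ℕ}

lemma exists_perp (hd : 2 ≤ d) (v : Eu d) : ∃ e : Eu d, ‖e‖ = 1 ∧ inner ℝ v e = 0 := by
  have h1 := Submodule.finrank_add_finrank_orthogonal (ℝ ∙ v)
  have h2 : Module.finrank ℝ (Eu d) = d := by simp
  have h3 : Module.finrank ℝ (ℝ ∙ v) ≤ 1 := finrank_span_le_card ({v} : Set (Eu d)) |>.trans (by simp)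
  have h4 : (ℝ ∙ v)ᗮ ≠ ⊥ := by
    intro h
    rw [h, finrank_bot, h2] at h1
    omega
  obtain ⟨e, he, hne⟩ := Submodule.exists_mem_ne_zero_of_ne_bot h4
  refine ⟨(‖e‖)⁻¹ • e, ?_, ?_⟩
  · rw [norm_smul, norm_inv, norm_norm, inv_mul_cancel₀ (norm_ne_zero_iff.2 hne)]
  · rw [inner_smul_right, Submodule.mem_orthogonal_singleton_iff_inner_right.1 he, mul_zero]

open Classical in
/-- A unit vector orthogonal to `v`. -/
noncomputable def perp (v : Eu d) : Eu d :=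
  if h : ∃ e : Eu d, ‖e‖ = 1 ∧ inner ℝ v e = 0 then h.choose else 0

lemma perp_spec (hd : 2 ≤ d) (v : Eu d) : ‖perp v‖ = 1 ∧ inner ℝ v (perp v) = 0 := by
  unfold perp
  rw [dif_pos (exists_perp hd v)]
  exact (exists_perp hd v).choose_spec

/-- First corner of the detour. -/
noncomputable def crn₁ (D : ℝ) (X Y : Eu d) : Eu d := X + (1 / 4 : ℝ) • (Y - X) + D • perp (Y - X)

/-- Second corner of the detour. -/
noncomputable def crn₂ (D : ℝ) (X Y : Eu d) : Eu d := X + (3 / 4 : ℝ) • (Y - X) + D • perp (Y - X)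

lemma norm_combo (hd : 2 ≤ d) (v : Eu d) (a D : ℝ) :
    ‖a • v + D • perp v‖ ^ 2 = a ^ 2 * ‖v‖ ^ 2 + D ^ 2 := by
  obtain ⟨h1, h2⟩ := perp_spec hd v
  rw [norm_add_sq_real, norm_smul, norm_smul, inner_smul_left, inner_smul_right, h2, h1]
  simp only [Real.norm_eq_abs, mul_pow, sq_abs]
  simp

lemma le_norm_combo (hd : 2 ≤ d) (v : Eu d) (a D : ℝ) (hD : 0 ≤ D) :
    D ≤ ‖a • v + D • perp v‖ := by
  have h := norm_combo hd v a D
  have h1 : D ^ 2 ≤ ‖a • v + D • perp v‖ ^ 2 := by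
    rw [h]
    have : 0 ≤ a ^ 2 * ‖v‖ ^ 2 := by positivity
    linarith
  exact (abs_le_of_sq_le_sq' h1 (norm_nonneg _)).2

/-- Lengths of the legs of the detour. -/
lemma norm_leg (hd : 2 ≤ d) {v : Eu d} {b D : ℝ} (hb : ‖v‖ = b) (hb0 : 0 < b) :
    b / 4 ≤ ‖(1 / 4 : ℝ) • v + D • perp v‖ ∧
      ‖(1 / 4 : ℝ) • v + D • perp v‖ ≤ b / 4 + 2 * D ^ 2 / b := by
  have h := norm_combo hd v (1 / 4) D
  rw [hb] at h
  set N := ‖(1 / 4 : ℝ) • v + D • perp v‖ with hN
  have hN0 : 0 ≤ N := norm_nonneg _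
  constructor
  · have h1 : (b / 4) ^ 2 ≤ N ^ 2 := by rw [h]; nlinarith [sq_nonneg D]
    exact (abs_le_of_sq_le_sq' h1 hN0).2
  · have h2 : 0 ≤ b / 4 + 2 * D ^ 2 / b := by positivity
    have h1 : N ^ 2 ≤ (b / 4 + 2 * D ^ 2 / b) ^ 2 := by
      rw [h]
      have e : (b / 4 + 2 * D ^ 2 / b) ^ 2 = (1 / 4) ^ 2 * b ^ 2 + D ^ 2 + (2 * D ^ 2 / b) ^ 2 := by
        field_simp; ring
      rw [e]
      have := sq_nonneg (2 * D ^ 2 / b)
      linarith
    exact (abs_le_of_sq_le_sq' h1 h2).2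

lemma crn₁_sub (D : ℝ) (X Y : Eu d) :
    crn₁ D X Y - X = (1 / 4 : ℝ) • (Y - X) + D • perp (Y - X) := by
  unfold crn₁; abel

lemma crn₂_sub_crn₁ (D : ℝ) (X Y : Eu d) : crn₂ D X Y - crn₁ D X Y = (1 / 2 : ℝ) • (Y - X) := by
  unfold crn₁ crn₂; module

lemma sub_crn₂ (D : ℝ) (X Y : Eu d) :
    Y - crn₂ D X Y = -((-(1 / 4) : ℝ) • (Y - X) + D • perp (Y - X)) := by
  unfold crn₂; module

lemma norm_leg' (hd : 2 ≤ d) {v : Eu d} {b D : ℝ} (hb : ‖v‖ = b) (hb0 : 0 < b) :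
    b / 4 ≤ ‖(-(1 / 4) : ℝ) • v + D • perp v‖ ∧
      ‖(-(1 / 4) : ℝ) • v + D • perp v‖ ≤ b / 4 + 2 * D ^ 2 / b := by
  have h := norm_combo hd v (-(1 / 4)) D
  have h' := norm_combo hd v (1 / 4) D
  have e : ‖(-(1 / 4) : ℝ) • v + D • perp v‖ = ‖(1 / 4 : ℝ) • v + D • perp v‖ := by
    have : ‖(-(1 / 4) : ℝ) • v + D • perp v‖ ^ 2 = ‖(1 / 4 : ℝ) • v + D • perp v‖ ^ 2 := by
      rw [h, h']; ring
    rwa [sq_eq_sq₀ (norm_nonneg _) (norm_nonneg _)] at this
  rw [e]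
  exact norm_leg hd hb hb0

/-- The (unnormalised) discrete integral of the field along a segment, as a test. -/
noncomputable def pcT (M : ℕ) (p q : Eu d) : Eu d →₀ ℝ := ‖q - p‖ • avgT M p q

lemma lc_pcT {V : Type*} [AddCommGroup V] [Module ℝ V] (F : Eu d → V) (M : ℕ) (p q : Eu d) :
    lc F (pcT M p q) = (‖q - p‖ / M) • ∑ i ∈ Finset.range M, F (segPt M p q i) := by
  unfold pcT
  simp only [lc, map_smul]
  have := lc_avgT F M p q
  simp only [lc] at this
  rw [this, smul_smul]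
  congr 1
  ring

variable {H : Type*} [NormedAddCommGroup H] [InnerProductSpace ℝ H] {G : Eu d → H} {R₀ v₀ C : ℝ}

lemma inner_pcT (G : Eu d → H) (M : ℕ) (p q p' q' : Eu d) :
    inner ℝ (lc G (pcT M p q)) (lc G (pcT M p' q'))
      = (‖q - p‖ / M) * ((‖q' - p'‖ / M) * ∑ i ∈ Finset.range M, ∑ j ∈ Finset.range M,
        inner ℝ (G (segPt M p q i)) (G (segPt M p' q' j))) := by
  rw [lc_pcT, lc_pcT, real_inner_smul_left, real_inner_smul_right, sum_inner]
  congr 2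
  refine Finset.sum_congr rfl fun i _ => ?_
  rw [inner_sum]

lemma inner_pcT_nonneg (hG : CovLaw G R₀ v₀ C) (M : ℕ) (p q p' q' : Eu d) :
    0 ≤ inner ℝ (lc G (pcT M p q)) (lc G (pcT M p' q')) := by
  rw [inner_pcT]
  have : 0 ≤ ∑ i ∈ Finset.range M, ∑ j ∈ Finset.range M,
        inner ℝ (G (segPt M p q i)) (G (segPt M p' q' j)) :=
    Finset.sum_nonneg fun i _ => Finset.sum_nonneg fun j _ => hG.nonneg _ _
  positivity

lemma inner_pcT_zero (hG : CovLaw G R₀ v₀ C) {M : ℕ} {p q p' q' : Eu d}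
    (h : ∀ i < M, ∀ j < M, R₀ ≤ ‖segPt M p q i - segPt M p' q' j‖) :
    inner ℝ (lc G (pcT M p q)) (lc G (pcT M p' q')) = 0 := by
  rw [inner_pcT]
  have : ∑ i ∈ Finset.range M, ∑ j ∈ Finset.range M,
        inner ℝ (G (segPt M p q i)) (G (segPt M p' q' j)) = 0 :=
    Finset.sum_eq_zero fun i hi => Finset.sum_eq_zero fun j hj =>
      hG.range _ _ (h i (Finset.mem_range.1 hi) j (Finset.mem_range.1 hj))
  rw [this]
  ring

lemma inner_near (hG : CovLaw G R₀ v₀ C) {x y : Eu d} (h : C ^ 2 * ‖x - y‖ ^ 2 ≤ v₀) :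
    v₀ / 2 ≤ inner ℝ (G x) (G y) := by
  have h1 := norm_sub_sq_real (G x) (G y)
  rw [hG.norm_sq, hG.norm_sq] at h1
  have h2 := hG.diff_le x y
  have h3 : ‖G x - G y‖ ^ 2 ≤ (C * ‖x - y‖) ^ 2 := pow_le_pow_left₀ (norm_nonneg _) h2 2
  rw [mul_pow] at h3
  linarith

/-- Lower bound for the variance of the integral over a segment. -/
lemma pcT_lower (hG : CovLaw G R₀ v₀ C) {M : ℕ} (hM : 0 < M) {p q : Eu d}
    (hL : 2 * (√v₀ / C) ≤ ‖q - p‖) :
    (√v₀ / C) * v₀ / 2 * ‖q - p‖ ≤ ‖lc G (pcT M p q)‖ ^ 2 := by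
  have hC := hG.C_pos
  have hv := hG.v₀_pos
  set r₁ := √v₀ / C with hr₁
  have hr0 : 0 < r₁ := by positivity
  set L := ‖q - p‖ with hLdef
  have hL0 : 0 < L := by linarith
  have hM' : (0 : ℝ) < M := by exact_mod_cast hM
  rw [← real_inner_self_eq_norm_sq, inner_pcT, ← hLdef]
  set w := ⌊r₁ * M / L⌋₊ with hw
  have hw1 : (w : ℝ) ≤ r₁ * M / L := Nat.floor_le (by positivity)
  have hw2 : r₁ * M / L < w + 1 := Nat.lt_floor_add_one _
  have hw3 : 2 * w ≤ M := by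
    have : (2 : ℝ) * w ≤ M := by
      calc (2 : ℝ) * w ≤ 2 * (r₁ * M / L) := by gcongr
        _ = (2 * r₁) * M / L := by ring
        _ ≤ L * M / L := by gcongr
        _ = M := by field_simp
    exact_mod_cast this
  have hrow : ∀ i ∈ Finset.range M, (w + 1 : ℝ) * (v₀ / 2) ≤ ∑ j ∈ Finset.range M,
      inner ℝ (G (segPt M p q i)) (G (segPt M p q j)) := by
    intro i hi
    have hi' := Finset.mem_range.1 hi
    obtain ⟨T, hTsub, hTcard, hTnear⟩ : ∃ T : Finset ℕ, T ⊆ Finset.range M ∧ T.card = w + 1 ∧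
        ∀ j ∈ T, |(i : ℝ) - j| ≤ w := by
      rcases le_or_gt w i with h | h
      · refine ⟨Finset.Icc (i - w) i, ?_, ?_, ?_⟩
        · intro j hj
          rw [Finset.mem_Icc] at hj
          rw [Finset.mem_range]; omega
        · rw [Nat.card_Icc]; omega
        · intro j hj
          rw [Finset.mem_Icc] at hj
          have h1 : (j : ℝ) ≤ i := by exact_mod_cast hj.2
          have h2 : (i : ℝ) ≤ j + w := by
            have : i ≤ j + w := by omega
            exact_mod_cast this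
          rw [abs_of_nonneg (by linarith)]
          linarith
      · refine ⟨Finset.Icc i (i + w), ?_, ?_, ?_⟩
        · intro j hj
          rw [Finset.mem_Icc] at hj
          rw [Finset.mem_range]; omega
        · rw [Nat.card_Icc]; omega
        · intro j hj
          rw [Finset.mem_Icc] at hj
          have h1 : (i : ℝ) ≤ j := by exact_mod_cast hj.1
          have h2 : (j : ℝ) ≤ i + w := by exact_mod_cast hj.2
          rw [abs_of_nonpos (by linarith)]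
          linarith
    calc (w + 1 : ℝ) * (v₀ / 2) = ∑ _j ∈ T, v₀ / 2 := by
          rw [Finset.sum_const, hTcard, nsmul_eq_mul]; push_cast; ring
      _ ≤ ∑ j ∈ T, inner ℝ (G (segPt M p q i)) (G (segPt M p q j)) := by
          refine Finset.sum_le_sum fun j hj => inner_near hG ?_
          rw [norm_segPt_sub, ← hLdef]
          have h1 : |(i : ℝ) - j| / M * L ≤ r₁ := by
            calc |(i : ℝ) - j| / M * L ≤ (r₁ * M / L) / M * L := by
                  gcongr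
                  exact (hTnear j hj).trans hw1
              _ = r₁ := by field_simp
          calc C ^ 2 * (|(i : ℝ) - j| / M * L) ^ 2 ≤ C ^ 2 * r₁ ^ 2 := by gcongr
            _ = v₀ := by
                rw [hr₁, div_pow, Real.sq_sqrt hv.le]; field_simp
      _ ≤ ∑ j ∈ Finset.range M, inner ℝ (G (segPt M p q i)) (G (segPt M p q j)) :=
          Finset.sum_le_sum_of_subset_of_nonneg hTsub fun _ _ _ => hG.nonneg _ _
  have hsum := Finset.sum_le_sum hrow
  rw [Finset.sum_const, Finset.card_range, nsmul_eq_mul] at hsum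
  calc r₁ * v₀ / 2 * L = (L / M) * ((L / M) * (M * ((r₁ * M / L) * (v₀ / 2)))) := by
        field_simp
    _ ≤ (L / M) * ((L / M) * (M * ((w + 1 : ℝ) * (v₀ / 2)))) := by gcongr
    _ ≤ _ := by gcongr

/-- The decision test: straight route minus detour. -/
noncomputable def decT (M : ℕ) (D : ℝ) (X Y : Eu d) : Eu d →₀ ℝ :=
  pcT M X Y - (pcT M X (crn₁ D X Y) + pcT M (crn₁ D X Y) (crn₂ D X Y) + pcT M (crn₂ D X Y) Y)

/-- Lower bound for the variance of the decision test. -/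
lemma decT_lower (hd : 2 ≤ d) (hG : CovLaw G R₀ v₀ C) {M : ℕ} (hM : 0 < M) {D : ℝ} (hD : R₀ ≤ D)
    {X Y : Eu d} (hL : 4 * (√v₀ / C) ≤ ‖Y - X‖) :
    √((√v₀ / C) * v₀ / 4 * ‖Y - X‖) ≤ ‖lc G (decT M D X Y)‖ := by
  have hR := hG.R₀_pos
  have hM' : (0 : ℝ) < M := by exact_mod_cast hM
  set A := lc G (pcT M (crn₁ D X Y) (crn₂ D X Y)) with hA
  set B₁ := lc G (pcT M X (crn₁ D X Y)) with hB₁
  set B₃ := lc G (pcT M (crn₂ D X Y) Y) with hB₃
  set S := lc G (pcT M X Y) with hS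
  have hlen : ‖crn₂ D X Y - crn₁ D X Y‖ = ‖Y - X‖ / 2 := by
    rw [crn₂_sub_crn₁, norm_smul]
    norm_num
    ring
  have h1 := pcT_lower hG hM (p := crn₁ D X Y) (q := crn₂ D X Y) (by rw [hlen]; linarith)
  rw [hlen, ← hA] at h1
  have h2 : inner ℝ S A = 0 := by
    refine inner_pcT_zero hG fun i _ j _ => ?_
    have e : segPt M X Y i - segPt M (crn₁ D X Y) (crn₂ D X Y) j
        = -(((1 / 4 : ℝ) + ((j : ℝ) / M) / 2 - (i : ℝ) / M) • (Y - X) + D • perp (Y - X)) := by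
      unfold segPt
      rw [crn₂_sub_crn₁]
      unfold crn₁
      module
    rw [e, norm_neg]
    exact hD.trans (le_norm_combo hd _ _ _ (hR.le.trans hD))
  have h3 : 0 ≤ inner ℝ B₁ A := inner_pcT_nonneg hG M _ _ _ _
  have h4 : 0 ≤ inner ℝ B₃ A := inner_pcT_nonneg hG M _ _ _ _
  have hdec : lc G (decT M D X Y) = S - (B₁ + A + B₃) := by
    simp only [lc, decT, map_sub, map_add, hS, hB₁, hA, hB₃]
  have h5 : ‖A‖ ^ 2 ≤ ‖lc G (decT M D X Y)‖ * ‖A‖ := by
    have h6 : inner ℝ (-(lc G (decT M D X Y))) A = inner ℝ B₁ A + ‖A‖ ^ 2 + inner ℝ B₃ A := by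
      rw [hdec, neg_sub, inner_sub_left, inner_add_left, inner_add_left, h2,
        real_inner_self_eq_norm_sq]
      ring
    have h7 := real_inner_le_norm (-(lc G (decT M D X Y))) A
    rw [norm_neg, h6] at h7
    linarith
  have h8 : ‖A‖ ≤ ‖lc G (decT M D X Y)‖ := by
    rcases eq_or_lt_of_le (norm_nonneg A) with h | h
    · rw [← h]; exact norm_nonneg _
    · rw [sq] at h5
      exact le_of_mul_le_mul_right h5 h
  refine le_trans ?_ h8
  rw [Real.sqrt_le_left (norm_nonneg _)]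
  linarith

end Pool.Agent.Lib_MP_71c74a_pr
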