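import Mathlib

/-!
# The gain from one detour, at unit scale
-/

open MeasureTheory ProbabilityTheory Set
open scoped ENNReal NNReal Topology

namespace Pool.Agent.Lib_MP_71c74a_pr

lemma exp_le_quad (y : ℝ) : Real.exp y ≤ 1 + y + y ^ 2 * Real.exp |y| := by
  have h1 : 1 ≤ Real.exp |y| := Real.one_le_exp (abs_nonneg y)
  have h2 : 0 ≤ y ^ 2 := sq_nonneg y
  rcases le_or_gt |y| 1 with h | h
  · have := Real.abs_exp_sub_one_sub_id_le h
    have := (abs_le.1 this).2
    nlinarith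
  · rcases le_or_gt 0 y with hy | hy
    · rw [abs_of_nonneg hy] at *
      have h3 : 1 ≤ y ^ 2 := by nlinarith
      have h4 := mul_le_mul_of_nonneg_right h3 (Real.exp_pos y).le
      linarith
    · have h3 : Real.exp y ≤ 1 := Real.exp_le_one_iff.2 hy.le
      rw [abs_of_neg hy] at h h1 ⊢
      nlinarith

lemma exp_weight_le {ξ η ε c₀ : ℝ} (hξ : 0 < ξ) (hξ1 : ξ ≤ 1) (hη : 0 ≤ η) (hη1 : η ≤ 1)
    (hηξ : η ≤ c₀ * ξ) (hε : 0 < ε) (hc₀ : 0 ≤ c₀) (p : ℝ) {l : ℝ} (hl : 0 ≤ l) :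
    Real.exp (ξ * p + ξ * η * l) ≤ 1 + ξ * p + ξ ^ 2 * ((c₀ + 2) * Real.exp (4 / ε) / 2
      * (Real.exp (ε * p ^ 2) + Real.exp (ε * l ^ 2))) := by
  set y := ξ * p + ξ * η * l with hy
  set g := |p| + l with hg
  have hp0 := abs_nonneg p
  have hg0 : 0 ≤ g := by positivity
  have hyabs : |y| ≤ ξ * g := by
    have h1 : |y| ≤ |ξ * p| + |ξ * η * l| := abs_add_le _ _
    have h2 : |ξ * p| = ξ * |p| := by rw [abs_mul, abs_of_pos hξ]
    have h3 : |ξ * η * l| = ξ * η * l := abs_of_nonneg (by positivity)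
    have h4 : ξ * η * l ≤ ξ * 1 * l := by gcongr
    rw [h2, h3] at h1
    rw [hg]; linarith
  have hquad := exp_le_quad y
  have hy2 : y ^ 2 ≤ ξ ^ 2 * g ^ 2 := by
    rw [← mul_pow, ← sq_abs]
    exact pow_le_pow_left₀ (abs_nonneg _) hyabs 2
  have hexp : Real.exp |y| ≤ Real.exp g := by
    apply Real.exp_le_exp.2
    refine hyabs.trans ?_
    nlinarith
  have h5 : y ^ 2 * Real.exp |y| ≤ ξ ^ 2 * g ^ 2 * Real.exp g := by gcongr
  have h6 : g ^ 2 ≤ 2 * Real.exp g := by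
    have := Real.quadratic_le_exp_of_nonneg hg0
    nlinarith
  have h7 : g ≤ Real.exp g := by linarith [Real.add_one_le_exp g]
  have h8 : Real.exp g ≤ Real.exp (2 * g) := Real.exp_le_exp.2 (by linarith)
  have h9 : Real.exp (2 * g) = Real.exp g * Real.exp g := by rw [← Real.exp_add]; ring_nf
  have h10 : ξ * η * l ≤ ξ ^ 2 * (c₀ * Real.exp (2 * g)) := by
    calc ξ * η * l ≤ ξ * (c₀ * ξ) * g := by
          gcongr
          rw [hg]; linarith
      _ = ξ ^ 2 * (c₀ * g) := by ring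
      _ ≤ ξ ^ 2 * (c₀ * Real.exp (2 * g)) := by
          gcongr
          exact h7.trans h8
  have h11 : ξ ^ 2 * g ^ 2 * Real.exp g ≤ ξ ^ 2 * (2 * Real.exp (2 * g)) := by
    calc ξ ^ 2 * g ^ 2 * Real.exp g ≤ ξ ^ 2 * (2 * Real.exp g) * Real.exp g := by gcongr
      _ = ξ ^ 2 * (2 * Real.exp (2 * g)) := by rw [h9]; ring
  have hsq : ∀ x : ℝ, 0 ≤ x → Real.exp (4 * x) ≤ Real.exp (4 / ε) * Real.exp (ε * x ^ 2) := by
    intro x _
    rw [← Real.exp_add]
    apply Real.exp_le_exp.2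
    have h12 : 0 ≤ (1 / ε) * (ε * x - 2) ^ 2 := by positivity
    have h13 : (1 / ε) * (ε * x - 2) ^ 2 = ε * x ^ 2 - 4 * x + 4 / ε := by
      field_simp; ring
    linarith
  have h14 : Real.exp (2 * g) ≤ Real.exp (4 / ε) / 2
      * (Real.exp (ε * p ^ 2) + Real.exp (ε * l ^ 2)) := by
    have h15 : Real.exp (2 * g) ≤ (Real.exp (4 * |p|) + Real.exp (4 * l)) / 2 := by
      have e1 : Real.exp (2 * g) = Real.exp (2 * |p|) * Real.exp (2 * l) := by
        rw [← Real.exp_add, hg]; ring_nf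
      have e2 : Real.exp (4 * |p|) = Real.exp (2 * |p|) ^ 2 := by
        rw [sq, ← Real.exp_add]; ring_nf
      have e3 : Real.exp (4 * l) = Real.exp (2 * l) ^ 2 := by
        rw [sq, ← Real.exp_add]; ring_nf
      rw [e1, e2, e3]
      nlinarith [sq_nonneg (Real.exp (2 * |p|) - Real.exp (2 * l))]
    have h16 := hsq |p| hp0
    have h17 := hsq l hl
    rw [sq_abs] at h16
    calc Real.exp (2 * g) ≤ (Real.exp (4 * |p|) + Real.exp (4 * l)) / 2 := h15
      _ ≤ (Real.exp (4 / ε) * Real.exp (ε * p ^ 2) + Real.exp (4 / ε) * Real.exp (ε * l ^ 2)) / 2 := by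
          gcongr
      _ = _ := by ring
  calc Real.exp y ≤ 1 + y + y ^ 2 * Real.exp |y| := hquad
    _ ≤ 1 + (ξ * p + ξ ^ 2 * (c₀ * Real.exp (2 * g))) + ξ ^ 2 * (2 * Real.exp (2 * g)) := by
        have := h5.trans h11
        rw [hy]
        linarith
    _ = 1 + ξ * p + ξ ^ 2 * ((c₀ + 2) * Real.exp (2 * g)) := by ring
    _ ≤ 1 + ξ * p + ξ ^ 2 * ((c₀ + 2) * (Real.exp (4 / ε) / 2
        * (Real.exp (ε * p ^ 2) + Real.exp (ε * l ^ 2)))) := by gcongr
    _ = _ := by ring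

/-- The mean absolute value of a standard Gaussian variable. -/
noncomputable def gabs : ℝ := ∫ x, |x| ∂(gaussianReal 0 1)

lemma integrable_abs_gaussian (v : ℝ≥0) : Integrable (fun x : ℝ => |x|) (gaussianReal 0 v) := by
  have := (memLp_id_gaussianReal (μ := 0) (v := v) 1).integrable (by norm_num)
  exact this.abs

lemma gabs_pos : 0 < gabs := by
  unfold gabs
  rw [integral_pos_iff_support_of_nonneg (fun x => abs_nonneg x) (integrable_abs_gaussian 1)]
  have h1 : (Function.support fun x : ℝ => |x|) = {0}ᶜ := by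
    ext x; simp
  rw [h1]
  have hna : NullSingletonClass (gaussianReal 0 1) := nullSingletonClass_gaussianReal (by simp)
  have h2 : gaussianReal 0 1 ({0}ᶜ : Set ℝ) = 1 := by
    rw [prob_compl_eq_one_iff (measurableSet_singleton 0)]
    exact measure_singleton 0
  rw [h2]
  exact one_pos

lemma integral_abs_gaussian (σ : ℝ≥0) : ∫ x, |x| ∂(gaussianReal 0 (σ ^ 2)) = σ * gabs := by
  have h := gaussianReal_map_const_mul (μ := 0) (v := 1) (σ : ℝ)
  have h2 : (NNReal.mk ((σ : ℝ) ^ 2) (sq_nonneg _)) * 1 = σ ^ 2 := by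
    rw [mul_one]
    ext
    rw [NNReal.coe_pow]
    rfl
  rw [mul_zero, h2] at h
  rw [← h, integral_map (by fun_prop) (by fun_prop)]
  unfold gabs
  rw [← integral_const_mul]
  refine integral_congr_ae (Filter.Eventually.of_forall fun x => ?_)
  simp only
  rw [abs_mul, abs_of_nonneg σ.coe_nonneg]

end Pool.Agent.Lib_MP_71c74a_pr
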