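import Pool.Agent.Lib_MP_71c74a_pr.ETdef
import Pool.Agent.Lib_MP_71c74a_pr.Route
import Pool.Agent.Lib_MP_71c74a_pr.UnitBlock

/-!
# Expected cost of a block
-/

open MeasureTheory ProbabilityTheory Set
open scoped ENNReal NNReal Topology

namespace Pool.Agent.Lib_MP_71c74a_pr

variable {d : ℕ}

/-- Weight of a small segment starting at `v`. -/
noncomputable def wt (ξ η : ℝ) (ψ : Eu d → ℝ) (v : Eu d) : ℝ≥0∞ :=
  ⨆ m, ENNReal.ofReal (Real.exp (ξ * ψ v + ξ * η * |lc (fun x => ψ (v + x)) (lipT d m)|))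

/-- Cost of a straight piece, divided into `M` small segments. -/
noncomputable def pcC (ξ η : ℝ) (M : ℕ) (ψ : Eu d → ℝ) (k : Eu d → Eu d → ℝ≥0∞) (p q : Eu d) :
    ℝ≥0∞ :=
  ∑ i ∈ Finset.range M, wt ξ η ψ (segPt M p q i) * k (segPt M p q i) (segPt M p q (i + 1))

open Classical in
/-- Cost of a block: the route is chosen according to the sign of the decision test. -/
noncomputable def blk (ξ η : ℝ) (M : ℕ) (D : ℝ) (ψ : Eu d → ℝ) (k : Eu d → Eu d → ℝ≥0∞)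
    (X Y : Eu d) : ℝ≥0∞ :=
  if lc ψ (decT M D X Y) ≤ 0 then pcC ξ η M ψ k X Y
  else pcC ξ η M ψ k X (crn₁ D X Y) + pcC ξ η M ψ k (crn₁ D X Y) (crn₂ D X Y)
    + pcC ξ η M ψ k (crn₂ D X Y) Y

/-- The random variable controlling the second order terms. -/
noncomputable def Zv (ε : ℝ) (ψ : Eu d → ℝ) (v : Eu d) : ℝ :=
  Real.exp (ε * (ψ v) ^ 2) + (⨆ m, eT ε (fun x => ψ (v + x)) (lipT d m)).toReal

lemma Zv_nonneg (ε : ℝ) (ψ : Eu d → ℝ) (v : Eu d) : 0 ≤ Zv ε ψ v := by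
  unfold Zv; positivity

lemma sup_eT_ne_top {ε : ℝ} (hε : 0 < ε) {ψ : Eu d → ℝ} (hψ : ContDiff ℝ 1 ψ) (v : Eu d) :
    (⨆ m, eT ε (fun x => ψ (v + x)) (lipT d m)) ≠ ∞ := by
  obtain ⟨C, hC⟩ := lipT_bdd (φ := fun x => ψ (v + x)) (hψ.comp (by fun_prop))
  refine ne_top_of_le_ne_top (b := ENNReal.ofReal (Real.exp (ε * C ^ 2))) (by finiteness) ?_
  refine iSup_le fun m => ?_
  unfold eT
  apply ENNReal.ofReal_le_ofReal
  apply Real.exp_le_exp.2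
  apply mul_le_mul_of_nonneg_left _ hε.le
  rw [← sq_abs]
  exact pow_le_pow_left₀ (abs_nonneg _) (hC m) 2

/-- The constant in the second order terms. -/
noncomputable def cZ (ε : ℝ) : ℝ := (2 + 2) * Real.exp (4 / ε) / 2

lemma cZ_pos (ε : ℝ) : 0 < cZ ε := by unfold cZ; positivity

lemma wt_le {ξ η ε : ℝ} (hξ : 0 < ξ) (hξ1 : ξ ≤ 1) (hη : 0 ≤ η) (hη1 : η ≤ 1)
    (hηξ : η ≤ 2 * ξ) (hε : 0 < ε) {ψ : Eu d → ℝ} (hψ : ContDiff ℝ 1 ψ) (v : Eu d) :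
    wt ξ η ψ v ≤ ENNReal.ofReal (1 + ξ * ψ v + ξ ^ 2 * (cZ ε * Zv ε ψ v)) := by
  unfold wt
  refine iSup_le fun m => ENNReal.ofReal_le_ofReal ?_
  refine (exp_weight_le hξ hξ1 hη hη1 hηξ hε (by norm_num) (ψ v) (abs_nonneg _)).trans ?_
  have h1 : Real.exp (ε * |lc (fun x => ψ (v + x)) (lipT d m)| ^ 2)
      ≤ (⨆ m, eT ε (fun x => ψ (v + x)) (lipT d m)).toReal := by
    have h2 : eT ε (fun x => ψ (v + x)) (lipT d m)
        ≤ ⨆ m, eT ε (fun x => ψ (v + x)) (lipT d m) :=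
      le_iSup (fun m => eT ε (fun x => ψ (v + x)) (lipT d m)) m
    have h3 := ENNReal.toReal_mono (sup_eT_ne_top hε hψ v) h2
    unfold eT at h3 ⊢
    rw [ENNReal.toReal_ofReal (Real.exp_pos _).le] at h3
    rwa [sq_abs]
  have := cZ_pos ε
  unfold Zv
  have h4 : cZ ε = (2 + 2) * Real.exp (4 / ε) / 2 := rfl
  rw [← h4]
  gcongr

lemma one_add_nonneg_of_wt {ξ η ε : ℝ} (hξ : 0 < ξ) (hξ1 : ξ ≤ 1) (hη : 0 ≤ η) (hη1 : η ≤ 1)
    (hηξ : η ≤ 2 * ξ) (hε : 0 < ε) {ψ : Eu d → ℝ} (hψ : ContDiff ℝ 1 ψ) (v : Eu d) :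
    0 ≤ 1 + ξ * ψ v + ξ ^ 2 * (cZ ε * Zv ε ψ v) := by
  have h1 := wt_le hξ hξ1 hη hη1 hηξ hε hψ v
  by_contra hcon
  push Not at hcon
  rw [ENNReal.ofReal_of_nonpos hcon.le] at h1
  have h2 : ENNReal.ofReal (Real.exp (ξ * ψ v + ξ * η * |lc (fun x => ψ (v + x)) (lipT d 0)|))
      ≤ wt ξ η ψ v := le_iSup (fun m => ENNReal.ofReal
        (Real.exp (ξ * ψ v + ξ * η * |lc (fun x => ψ (v + x)) (lipT d m)|))) 0
  have h3 := h2.trans h1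
  have h4 : 0 < ENNReal.ofReal
      (Real.exp (ξ * ψ v + ξ * η * |lc (fun x => ψ (v + x)) (lipT d 0)|)) :=
    ENNReal.ofReal_pos.2 (Real.exp_pos _)
  exact absurd h3 (not_le.2 h4)

/-- Weighted sum of the second order terms along a piece. -/
noncomputable def pcZ (ε : ℝ) (M : ℕ) (ψ : Eu d → ℝ) (p q : Eu d) : ℝ :=
  (‖q - p‖ / M) * ∑ i ∈ Finset.range M, Zv ε ψ (segPt M p q i)

lemma pcZ_nonneg (ε : ℝ) (M : ℕ) (ψ : Eu d → ℝ) (p q : Eu d) : 0 ≤ pcZ ε M ψ p q := by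
  unfold pcZ
  have := Finset.sum_nonneg (s := Finset.range M) fun i (_ : i ∈ Finset.range M) =>
    Zv_nonneg ε ψ (segPt M p q i)
  positivity

lemma norm_segPt_succ {M : ℕ} (p q : Eu d) (i : ℕ) :
    ‖segPt M p q (i + 1) - segPt M p q i‖ = ‖q - p‖ / M := by
  rw [norm_segPt_sub]
  have : |((i + 1 : ℕ) : ℝ) - i| = 1 := by push_cast; rw [add_sub_cancel_left, abs_one]
  rw [this]
  ring

/-- Cost of a piece with the Euclidean length as the remaining cost. -/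
lemma pcC_le {ξ η ε : ℝ} (hξ : 0 < ξ) (hξ1 : ξ ≤ 1) (hη : 0 ≤ η) (hη1 : η ≤ 1)
    (hηξ : η ≤ 2 * ξ) (hε : 0 < ε) {ψ : Eu d → ℝ} (hψ : ContDiff ℝ 1 ψ) {M : ℕ} (hM : 0 < M)
    (p q : Eu d) :
    pcC ξ η M ψ (fun x y => ENNReal.ofReal ‖y - x‖) p q
      ≤ ENNReal.ofReal (‖q - p‖ + ξ * lc ψ (pcT M p q) + ξ ^ 2 * (cZ ε * pcZ ε M ψ p q)) := by
  have hM' : (0 : ℝ) < M := by exact_mod_cast hM
  unfold pcC
  have h1 : ∀ i ∈ Finset.range M, wt ξ η ψ (segPt M p q i)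
      * ENNReal.ofReal ‖segPt M p q (i + 1) - segPt M p q i‖
      ≤ ENNReal.ofReal ((1 + ξ * ψ (segPt M p q i)
        + ξ ^ 2 * (cZ ε * Zv ε ψ (segPt M p q i))) * (‖q - p‖ / M)) := by
    intro i _
    rw [norm_segPt_succ, ENNReal.ofReal_mul (one_add_nonneg_of_wt hξ hξ1 hη hη1 hηξ hε hψ _)]
    gcongr
    exact wt_le hξ hξ1 hη hη1 hηξ hε hψ _
  refine (Finset.sum_le_sum h1).trans ?_
  rw [← ENNReal.ofReal_sum_of_nonneg (fun i _ => mul_nonneg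
    (one_add_nonneg_of_wt hξ hξ1 hη hη1 hηξ hε hψ _) (by positivity))]
  apply ENNReal.ofReal_le_ofReal
  rw [lc_pcT, pcZ, smul_eq_mul, ← Finset.sum_mul, Finset.sum_add_distrib, Finset.sum_add_distrib]
  simp only [Finset.sum_const, Finset.card_range, nsmul_eq_mul, mul_one, ← Finset.mul_sum]
  apply le_of_eq
  field_simp

/-- Length of the detour. -/
noncomputable def detLen (D : ℝ) (X Y : Eu d) : ℝ :=
  ‖crn₁ D X Y - X‖ + ‖crn₂ D X Y - crn₁ D X Y‖ + ‖Y - crn₂ D X Y‖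

lemma detLen_le (hd : 2 ≤ d) {D : ℝ} {X Y : Eu d} (hXY : X ≠ Y) :
    detLen D X Y ≤ ‖Y - X‖ + 4 * D ^ 2 / ‖Y - X‖ := by
  have hL : 0 < ‖Y - X‖ := norm_pos_iff.2 (sub_ne_zero.2 hXY.symm)
  unfold detLen
  rw [crn₁_sub, crn₂_sub_crn₁, sub_crn₂, norm_neg, norm_smul]
  have h1 := (norm_leg hd (v := Y - X) (D := D) rfl hL).2
  have h2 := (norm_leg' hd (v := Y - X) (D := D) rfl hL).2
  have h3 : ‖(1 / 2 : ℝ)‖ = 1 / 2 := by norm_num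
  rw [h3]
  have e : 4 * D ^ 2 / ‖Y - X‖ = 2 * D ^ 2 / ‖Y - X‖ + 2 * D ^ 2 / ‖Y - X‖ := by ring
  rw [e]
  linarith

/-- Pointwise bound for the cost of a block. -/
lemma blk_le (hd : 2 ≤ d) {ξ η ε : ℝ} (hξ : 0 < ξ) (hξ1 : ξ ≤ 1) (hη : 0 ≤ η) (hη1 : η ≤ 1)
    (hηξ : η ≤ 2 * ξ) (hε : 0 < ε) {ψ : Eu d → ℝ} (hψ : ContDiff ℝ 1 ψ) {M : ℕ} (hM : 0 < M)
    (D : ℝ) {X Y : Eu d} (hXY : X ≠ Y) :
    blk ξ η M D ψ (fun x y => ENNReal.ofReal ‖y - x‖) X Y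
      ≤ ENNReal.ofReal ((‖Y - X‖ + 4 * D ^ 2 / ‖Y - X‖)
        + ξ * ((lc ψ (pcT M X Y) + (lc ψ (pcT M X (crn₁ D X Y))
          + lc ψ (pcT M (crn₁ D X Y) (crn₂ D X Y)) + lc ψ (pcT M (crn₂ D X Y) Y))) / 2
          - |lc ψ (decT M D X Y)| / 2)
        + ξ ^ 2 * (cZ ε * (pcZ ε M ψ X Y + pcZ ε M ψ X (crn₁ D X Y)
          + pcZ ε M ψ (crn₁ D X Y) (crn₂ D X Y) + pcZ ε M ψ (crn₂ D X Y) Y))) := by
  have hdec : lc ψ (decT M D X Y) = lc ψ (pcT M X Y) - (lc ψ (pcT M X (crn₁ D X Y))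
      + lc ψ (pcT M (crn₁ D X Y) (crn₂ D X Y)) + lc ψ (pcT M (crn₂ D X Y) Y)) := by
    simp only [lc, decT, map_sub, map_add]
  have hL : 0 < ‖Y - X‖ := norm_pos_iff.2 (sub_ne_zero.2 hXY.symm)
  have h0 := pcC_le (d := d) hξ hξ1 hη hη1 hηξ hε hψ hM
  have z0 := pcZ_nonneg ε M ψ X Y
  have z1 := pcZ_nonneg ε M ψ X (crn₁ D X Y)
  have z2 := pcZ_nonneg ε M ψ (crn₁ D X Y) (crn₂ D X Y)
  have z3 := pcZ_nonneg ε M ψ (crn₂ D X Y) Y
  have hc := cZ_pos ε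
  have hdet := detLen_le hd (D := D) hXY
  unfold detLen at hdet
  have hDL : 0 ≤ 4 * D ^ 2 / ‖Y - X‖ := by positivity
  unfold blk
  split_ifs with h
  · refine (h0 X Y).trans (ENNReal.ofReal_le_ofReal ?_)
    have e1 : |lc ψ (decT M D X Y)| = -lc ψ (decT M D X Y) := abs_of_nonpos h
    rw [e1, hdec]
    have e2 : ξ ^ 2 * (cZ ε * pcZ ε M ψ X Y) ≤ ξ ^ 2 * (cZ ε * (pcZ ε M ψ X Y
        + pcZ ε M ψ X (crn₁ D X Y)
          + pcZ ε M ψ (crn₁ D X Y) (crn₂ D X Y) + pcZ ε M ψ (crn₂ D X Y) Y)) := by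
      gcongr
      linarith
    linarith
  · push Not at h
    -- nonnegativity of the real bounds
    have hnn : ∀ p q : Eu d, 0 ≤ ‖q - p‖ + ξ * lc ψ (pcT M p q)
        + ξ ^ 2 * (cZ ε * pcZ ε M ψ p q) := by
      intro p q
      have hM' : (0 : ℝ) < M := by exact_mod_cast hM
      rw [lc_pcT, pcZ, smul_eq_mul]
      have h1 := Finset.sum_nonneg (s := Finset.range M) fun i (_ : i ∈ Finset.range M) =>
        one_add_nonneg_of_wt hξ hξ1 hη hη1 hηξ hε hψ (segPt M p q i)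
      rw [Finset.sum_add_distrib, Finset.sum_add_distrib] at h1
      simp only [Finset.sum_const, Finset.card_range, nsmul_eq_mul, mul_one,
        ← Finset.mul_sum] at h1
      have h2 : 0 ≤ ‖q - p‖ / M := by positivity
      have h3 := mul_nonneg h2 h1
      have e : ‖q - p‖ / M * (M + ξ * ∑ i ∈ Finset.range M, ψ (segPt M p q i)
          + ξ ^ 2 * (cZ ε * ∑ i ∈ Finset.range M, Zv ε ψ (segPt M p q i)))
          = ‖q - p‖ + ξ * (‖q - p‖ / M * ∑ i ∈ Finset.range M, ψ (segPt M p q i))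
          + ξ ^ 2 * (cZ ε * (‖q - p‖ / M * ∑ i ∈ Finset.range M, Zv ε ψ (segPt M p q i))) := by
        field_simp
      linarith
    refine (add_le_add (add_le_add (h0 _ _) (h0 _ _)) (h0 _ _)).trans ?_
    rw [← ENNReal.ofReal_add (hnn _ _) (hnn _ _), ← ENNReal.ofReal_add
      (add_nonneg (hnn _ _) (hnn _ _)) (hnn _ _)]
    apply ENNReal.ofReal_le_ofReal
    have e1 : |lc ψ (decT M D X Y)| = lc ψ (decT M D X Y) := abs_of_pos h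
    rw [e1, hdec]
    have e2 : 0 ≤ ξ ^ 2 * (cZ ε * pcZ ε M ψ X Y) := by positivity
    linarith

end Pool.Agent.Lib_MP_71c74a_pr
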