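import Pool.Agent.Lib_MP_71c74a_pr.BlockExp

/-!
# Choice of the block length
-/

open MeasureTheory ProbabilityTheory Set
open scoped ENNReal NNReal Topology

namespace Pool.Agent.Lib_MP_71c74a_pr

/-- The choice of the constants: with `ξ = x ^ 3`, blocks of length about `q² / x²` gain a factor
`1 - c x ^ 4`. -/
lemma block_numerics {A D a β : ℝ} (hA : 0 < A) (hβ : 0 ≤ β) :
    ∃ q c x₀ : ℝ, 1 ≤ q ∧ 0 < c ∧ 0 < x₀ ∧ x₀ ≤ 1 / 2 ∧ ∀ x, 0 < x → x ≤ x₀ → ∀ b,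
      q ^ 2 / x ^ 2 / 2 ≤ b → b ≤ q ^ 2 / x ^ 2 → a ≤ b ∧ 0 < 1 - c * x ^ 4 ∧
        b + 4 * D ^ 2 / b - x ^ 3 * (A * √b) + (x ^ 3) ^ 2 * (β * b) ≤ (1 - c * x ^ 4) * b := by
  set q := 1 + 64 * D ^ 2 / A with hq
  have hq1 : 1 ≤ q := by
    have : 0 ≤ 64 * D ^ 2 / A := by positivity
    linarith
  have hq0 : 0 < q := by linarith
  set c := A / (2 * q) with hc
  have hc0 : 0 < c := by positivity
  obtain ⟨x₀, hx₀0, hx₀1, hx₀2, hx₀3, hx₀4⟩ : ∃ x₀ : ℝ, 0 < x₀ ∧ x₀ ≤ 1 / 2 ∧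
      x₀ ^ 2 * (2 * |a| + 1) ≤ 1 ∧ x₀ ^ 2 * β ≤ A / (4 * q) ∧ c * x₀ ≤ 1 / 2 := by
    set y := min (1 / 2) (min (1 / (2 * |a| + 1)) (min (A / (4 * q) / (β + 1)) (1 / (2 * c))))
      with hy
    have hy0 : 0 < y := by positivity
    have hy1 : y ≤ 1 / 2 := min_le_left _ _
    have hy2 : y ≤ 1 / (2 * |a| + 1) := (min_le_right _ _).trans (min_le_left _ _)
    have hy3 : y ≤ A / (4 * q) / (β + 1) :=
      (min_le_right _ _).trans ((min_le_right _ _).trans (min_le_left _ _))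
    have hy4 : y ≤ 1 / (2 * c) :=
      (min_le_right _ _).trans ((min_le_right _ _).trans (min_le_right _ _))
    have hyy : y ^ 2 ≤ y := by nlinarith
    refine ⟨y, hy0, hy1, ?_, ?_, ?_⟩
    · have : 0 < 2 * |a| + 1 := by positivity
      calc y ^ 2 * (2 * |a| + 1) ≤ y * (2 * |a| + 1) := by gcongr
        _ ≤ 1 / (2 * |a| + 1) * (2 * |a| + 1) := by gcongr
        _ = 1 := by field_simp
    · calc y ^ 2 * β ≤ y * (β + 1) := by
            apply mul_le_mul hyy (by linarith) hβ hy0.le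
        _ ≤ A / (4 * q) / (β + 1) * (β + 1) := by gcongr
        _ = A / (4 * q) := by field_simp
    · calc c * y ≤ c * (1 / (2 * c)) := by gcongr
        _ = 1 / 2 := by field_simp
  refine ⟨q, c, x₀, hq1, hc0, hx₀0, hx₀1, fun x hx hxx b hb1 hb2 => ?_⟩
  have hx2 : x ≤ 1 / 2 := hxx.trans hx₀1
  have hL0 : 0 < q ^ 2 / x ^ 2 := by positivity
  have hb0 : 0 < b := by linarith
  have hxsq : x ^ 2 ≤ x₀ ^ 2 := pow_le_pow_left₀ hx.le hxx 2
  refine ⟨?_, ?_, ?_⟩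
  · have h1 : |a| ≤ q ^ 2 / x ^ 2 / 2 := by
      rw [le_div_iff₀ (by norm_num), le_div_iff₀ (by positivity)]
      have h2 : x ^ 2 * (2 * |a| + 1) ≤ 1 :=
        (mul_le_mul_of_nonneg_right hxsq (by positivity)).trans hx₀2
      have h3 : 1 ≤ q ^ 2 := one_le_pow₀ hq1
      nlinarith [sq_nonneg x]
    exact (le_abs_self a).trans (h1.trans hb1)
  · have h1 : x ^ 4 ≤ x₀ := by
      have h2 : x ^ 4 ≤ x ^ 1 := pow_le_pow_of_le_one hx.le (by linarith) (by norm_num)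
      rw [pow_one] at h2
      exact h2.trans hxx
    have h3 : c * x ^ 4 ≤ c * x₀ := by gcongr
    linarith
  · -- the three terms
    have hsqrt : √b ≤ q / x := by
      rw [Real.sqrt_le_left (by positivity)]
      calc b ≤ q ^ 2 / x ^ 2 := hb2
        _ = (q / x) ^ 2 := by rw [div_pow]
    have hsb : 0 < √b := Real.sqrt_pos.2 hb0
    have t1 : 4 * D ^ 2 / b ≤ A / (4 * q) * x ^ 4 * b := by
      rw [div_le_iff₀ hb0]
      have h1 : q ^ 2 / x ^ 2 / 2 * (q ^ 2 / x ^ 2 / 2) ≤ b * b :=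
        mul_le_mul hb1 hb1 (by positivity) hb0.le
      have h2 : A / (4 * q) * x ^ 4 * (q ^ 2 / x ^ 2 / 2 * (q ^ 2 / x ^ 2 / 2))
          = A * q ^ 3 / 16 := by field_simp; ring
      have h3 : 4 * D ^ 2 ≤ A * q ^ 3 / 16 := by
        have h4 : q ≤ q ^ 3 := by
          calc q = q ^ 1 := (pow_one q).symm
            _ ≤ q ^ 3 := pow_le_pow_right₀ hq1 (by norm_num)
        have h5 : 64 * D ^ 2 ≤ A * q := by
          rw [hq]
          have : A * (1 + 64 * D ^ 2 / A) = A + 64 * D ^ 2 := by field_simp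
          rw [this]
          linarith
        nlinarith
      calc 4 * D ^ 2 ≤ A * q ^ 3 / 16 := h3
        _ = A / (4 * q) * x ^ 4 * (q ^ 2 / x ^ 2 / 2 * (q ^ 2 / x ^ 2 / 2)) := h2.symm
        _ ≤ A / (4 * q) * x ^ 4 * (b * b) := by gcongr
        _ = A / (4 * q) * x ^ 4 * b * b := by ring
    have t2 : A / q * x ^ 4 * b ≤ x ^ 3 * (A * √b) := by
      have h1 : b = √b * √b := (Real.mul_self_sqrt hb0.le).symm
      calc A / q * x ^ 4 * b = A / q * x ^ 4 * (√b * √b) := by rw [← h1]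
        _ ≤ A / q * x ^ 4 * (√b * (q / x)) := by gcongr
        _ = x ^ 3 * (A * √b) := by field_simp
    have t3 : (x ^ 3) ^ 2 * (β * b) ≤ A / (4 * q) * x ^ 4 * b := by
      have h1 : x ^ 2 * β ≤ A / (4 * q) :=
        (mul_le_mul_of_nonneg_right hxsq hβ).trans hx₀3
      calc (x ^ 3) ^ 2 * (β * b) = (x ^ 2 * β) * x ^ 4 * b := by ring
        _ ≤ A / (4 * q) * x ^ 4 * b := by gcongr
    have e : (1 - c * x ^ 4) * b = b - A / (2 * q) * x ^ 4 * b := by rw [hc]; ring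
    rw [e]
    have e2 : A / q * x ^ 4 * b = A / (4 * q) * x ^ 4 * b + A / (4 * q) * x ^ 4 * b
        + A / (2 * q) * x ^ 4 * b := by field_simp; ring
    linarith

variable {d : ℕ} {Ω H : Type*} [MeasurableSpace Ω] [NormedAddCommGroup H]
  [InnerProductSpace ℝ H] {G : Eu d → H} {R₀ v₀ C : ℝ}

/-- **The gain from one detour.** -/
theorem block_gain (hd : 2 ≤ d) (hG : CovLaw G R₀ v₀ C) {ε : ℝ} (hε : Adm Ω G C ε) :
    ∃ q c x₀ : ℝ, 1 ≤ q ∧ 0 < c ∧ 0 < x₀ ∧ x₀ ≤ 1 / 2 ∧ ∀ x, 0 < x → x ≤ x₀ →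
      0 < 1 - c * x ^ 4 ∧ 
      ∀ (η : ℝ), 0 ≤ η → η ≤ 2 * x ^ 3 → ∀ (M : ℕ), 0 < M → ∀ (X Y : Eu d),
      q ^ 2 / x ^ 2 / 2 ≤ ‖Y - X‖ → ‖Y - X‖ ≤ q ^ 2 / x ^ 2 → 2 * R₀ ≤ ‖Y - X‖ ∧
      ∀ (P : Measure Ω) (ψ : Eu d → Ω → ℝ), FieldLaw P G ψ →
      ∫⁻ ω, blk (x ^ 3) η M R₀ (fun x => ψ x ω) (fun x y => ENNReal.ofReal ‖y - x‖) X Y ∂P
        ≤ ENNReal.ofReal ((1 - c * x ^ 4) * ‖Y - X‖) := by
  have hR := hG.R₀_pos
  have hC := hG.C_pos
  have hv := hG.v₀_pos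
  have hgp := gabs_pos
  have hcz := cZ_pos ε
  have hκ : 0 ≤ ferK.toReal := ENNReal.toReal_nonneg
  obtain ⟨q, c, x₀, hq, hc, hx₀, hx₀1, hnum⟩ := block_numerics
    (A := √((√v₀ / C) * v₀ / 4) * gabs / 2) (D := R₀) (a := 4 * (√v₀ / C) + 2 * R₀)
    (β := cZ ε * (3 * (2 * ferK.toReal))) (by positivity) (by positivity)
  refine ⟨q, c, x₀, hq, hc, hx₀, hx₀1, fun x hx hxx => ⟨?_, fun η hη hηx M hM X Y hb1 hb2 => ?_⟩⟩
  · exact (hnum x hx hxx (q ^ 2 / x ^ 2) (by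
      have : 0 < q ^ 2 / x ^ 2 := by positivity
      linarith) le_rfl).2.1
  · obtain ⟨h1, h2, h3⟩ := hnum x hx hxx ‖Y - X‖ hb1 hb2
    have hrr : 0 < √v₀ / C := by positivity
    have hL0 : 0 < ‖Y - X‖ := by linarith
    have hXY : X ≠ Y := by
      rintro rfl
      simp at hL0
    have hx3 : x ^ 3 ≤ 1 / 8 := by
      calc x ^ 3 ≤ (1 / 2) ^ 3 := pow_le_pow_left₀ hx.le (hxx.trans hx₀1) 3
        _ = 1 / 8 := by norm_num
    refine ⟨by linarith, fun P ψ hψ => ?_⟩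
    refine (lintegral_blk_le hd hG hψ hε (by positivity) (by linarith) hη (by linarith) hηx hM
      le_rfl hXY (by linarith) (by linarith)).trans (ENNReal.ofReal_le_ofReal ?_)
    refine le_trans (le_of_eq ?_) h3
    rw [Real.sqrt_mul (by positivity)]
    ring

end Pool.Agent.Lib_MP_71c74a_pr
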