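import Pool.Agent.Lib_MP_71c74a_pr.Field
import Pool.Agent.Lib_MP_71c74a_pr.FieldOps

/-!
# Gaussian vectors and independence of tests
-/

open MeasureTheory ProbabilityTheory Set
open scoped ENNReal NNReal Topology

namespace Pool.Agent.Lib_MP_71c74a_pr

variable {d : ℕ} {Ω H : Type*} [MeasurableSpace Ω] [NormedAddCommGroup H]
  [InnerProductSpace ℝ H] {P : Measure Ω} {G : Eu d → H} {ψ : Eu d → Ω → ℝ} {R₀ v₀ C : ℝ}

/-- Law of a vector whose linear combinations are all centred Gaussian. -/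
lemma isGaussian_vec {ι : Type*} {Y : ι → Ω → ℝ} (hYm : ∀ i, Measurable (Y i))
    (hlaw : ∀ a : ι →₀ ℝ, ∃ v, P.map (fun ω => lc (fun i => Y i ω) a) = gaussianReal 0 v)
    (I : Finset ι) : IsGaussian (P.map (fun ω => I.restrict (fun i => Y i ω))) := by
  classical
  have hm : Measurable (fun ω => I.restrict (fun i => Y i ω)) :=
    measurable_pi_lambda _ fun i => hYm i
  refine isGaussian_of_map_eq_gaussianReal fun L => ?_
  obtain ⟨v, hv⟩ := hlaw (∑ i : I, L (Pi.single i 1) • Finsupp.single (i : ι) 1)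
  refine ⟨0, v, ?_⟩
  rw [Measure.map_map L.continuous.measurable hm, ← hv]
  congr 1
  ext ω
  simp only [Function.comp, lc, map_sum, map_smul, Finsupp.linearCombination_single, one_mul,
    smul_eq_mul]
  have h1 : I.restrict (fun i => Y i ω) = ∑ i : I, Y i ω • (Pi.single i 1 : I → ℝ) := by
    ext k
    simp [Finset.sum_apply, Pi.single_apply]
  rw [h1, map_sum]
  refine Finset.sum_congr rfl fun i _ => ?_
  rw [map_smul, smul_eq_mul, mul_comm]

lemma lc_lc {V : Type*} [AddCommGroup V] [Module ℝ V] (F : Eu d → V) {ι : Type*}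
    (a : ι → Eu d →₀ ℝ) (c : ι →₀ ℝ) : lc (fun i => lc F (a i)) c = lc F (lc a c) := by
  simp only [lc]
  rw [Finsupp.linearCombination_apply, Finsupp.linearCombination_apply ℝ c, Finsupp.sum,
    Finsupp.sum, map_sum]
  simp

lemma FieldLaw.gauss_family (h : FieldLaw P G ψ) {ι : Type*} (a : ι → Eu d →₀ ℝ) (c : ι →₀ ℝ) :
    P.map (fun ω => lc (fun i => lc (fun x => ψ x ω) (a i)) c)
      = gaussianReal 0 (‖lc (fun i => lc G (a i)) c‖₊ ^ 2) := by
  have h1 := h.gauss (lc a c)
  rw [lc_lc G, ← h1]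
  congr 1
  ext ω
  exact lc_lc _ a c

lemma FieldLaw.memLp_two (h : FieldLaw P G ψ) (a : Eu d →₀ ℝ) :
    MemLp (fun ω => lc (fun x => ψ x ω) a) 2 P := by
  have h1 : MemLp (id : ℝ → ℝ) 2 (P.map (fun ω => lc (fun x => ψ x ω) a)) := by
    rw [h.gauss]
    exact memLp_id_gaussianReal 2
  exact (memLp_map_measure_iff h1.1 (h.measurable_lc a).aemeasurable).1 h1

lemma FieldLaw.variance_lc (h : FieldLaw P G ψ) (a : Eu d →₀ ℝ) :
    Var[fun ω => lc (fun x => ψ x ω) a; P] = ‖lc G a‖ ^ 2 := by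
  have h1 := variance_map (X := id) (μ := P) (Y := fun ω => lc (fun x => ψ x ω) a)
    aemeasurable_id (h.measurable_lc a).aemeasurable
  rw [h.gauss, variance_id_gaussianReal] at h1
  have h2 : (id ∘ fun ω => lc (fun x => ψ x ω) a) = fun ω => lc (fun x => ψ x ω) a := rfl
  rw [h2] at h1
  rw [← h1]
  simp

lemma FieldLaw.covariance_lc (h : FieldLaw P G ψ) (a b : Eu d →₀ ℝ) :
    cov[fun ω => lc (fun x => ψ x ω) a, fun ω => lc (fun x => ψ x ω) b; P]
      = inner ℝ (lc G a) (lc G b) := by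
  have hP := h.isProbabilityMeasure
  have hadd := variance_add (h.memLp_two a) (h.memLp_two b)
  have e : ((fun ω => lc (fun x => ψ x ω) a) + fun ω => lc (fun x => ψ x ω) b)
      = fun ω => lc (fun x => ψ x ω) (a + b) := by
    ext ω
    simp [lc]
  rw [e, h.variance_lc, h.variance_lc, h.variance_lc] at hadd
  have e2 : lc G (a + b) = lc G a + lc G b := by simp [lc]
  rw [e2, norm_add_sq_real] at hadd
  linarith

/-- Families of tests with orthogonal representatives are independent. -/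
theorem FieldLaw.iIndepFun_tests (h : FieldLaw P G ψ) {T : Type*} {S : T → Type*}
    (a : (t : T) → S t → Eu d →₀ ℝ)
    (h0 : ∀ t₁ t₂, t₁ ≠ t₂ → ∀ s₁ s₂, inner ℝ (lc G (a t₁ s₁)) (lc G (a t₂ s₂)) = 0) :
    iIndepFun (fun t ω s => lc (fun x => ψ x ω) (a t s)) P := by
  have hproc : IsGaussianProcess
      (fun (p : (t : T) × S t) ω => lc (fun x => ψ x ω) (a p.1 p.2)) P := by
    refine ⟨fun I => ⟨?_⟩⟩
    exact isGaussian_vec (fun i => h.measurable_lc _)
      (fun c => ⟨_, h.gauss_family (fun p : (t : T) × S t => a p.1 p.2) c⟩) I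
  refine hproc.iIndepFun_of_covariance_eq_zero
    (X := fun t s ω => lc (fun x => ψ x ω) (a t s))
    (fun t s => (h.measurable_lc _).aemeasurable) ?_
  intro t₁ t₂ ht s₁ s₂
  rw [h.covariance_lc]
  exact h0 t₁ t₂ ht s₁ s₂

lemma FieldLaw.indepFun_tests (h : FieldLaw P G ψ) {a b : Eu d →₀ ℝ}
    (h0 : inner ℝ (lc G a) (lc G b) = 0) :
    IndepFun (fun ω => lc (fun x => ψ x ω) a) (fun ω => lc (fun x => ψ x ω) b) P := by
  have h1 := h.iIndepFun_tests (T := Bool) (S := fun _ => Unit)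
    (fun t _ => if t then a else b) (by
      intro t₁ t₂ ht s₁ s₂
      cases t₁ <;> cases t₂ <;> simp_all [real_inner_comm])
  have h2 := h1.indepFun (i := true) (j := false) (by simp)
  have m : Measurable (fun f : Unit → ℝ => f ()) := measurable_pi_apply ()
  have h3 := h2.comp (φ := fun f : Unit → ℝ => f ()) (ψ := fun f : Unit → ℝ => f ()) m m
  simpa [Function.comp_def] using h3

end Pool.Agent.Lib_MP_71c74a_pr
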