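import Pool.Agent.Lib_MP_71c74a_pr.BlockExp
import Pool.Agent.Lib_MP_71c74a_pr.GaussVec

/-!
# Independence of tests and expectations on half spaces
-/

open MeasureTheory ProbabilityTheory Set
open scoped ENNReal NNReal Topology

namespace Pool.Agent.Lib_MP_71c74a_pr

variable {d : ℕ} {Ω H : Type*} [MeasurableSpace Ω] [NormedAddCommGroup H]
  [InnerProductSpace ℝ H] {P : Measure Ω} {G : Eu d → H} {ψ : Eu d → Ω → ℝ} {R₀ v₀ C : ℝ}

/-- First moment on a half space. -/
theorem FieldLaw.setIntegral_half (h : FieldLaw P G ψ) (a b : Eu d →₀ ℝ) (ha : 0 < ‖lc G a‖) :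
    ∫ ω in {ω | lc (fun x => ψ x ω) a ≤ 0}, lc (fun x => ψ x ω) b ∂P
      = -(inner ℝ (lc G b) (lc G a) / ‖lc G a‖ * (gabs / 2)) := by
  have hP := h.isProbabilityMeasure
  set Z : Ω → ℝ := fun ω => lc (fun x => ψ x ω) a with hZ
  have hZm : Measurable Z := h.measurable_lc a
  set S : Set Ω := {ω | Z ω ≤ 0} with hS
  have hSm : MeasurableSet S := measurableSet_le hZm measurable_const
  set c : ℝ := inner ℝ (lc G b) (lc G a) / ‖lc G a‖ ^ 2 with hc
  set b' : Eu d →₀ ℝ := b - c • a with hb'
  set N : Ω → ℝ := fun ω => lc (fun x => ψ x ω) b' with hN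
  have e1 : ∀ ω, lc (fun x => ψ x ω) b = N ω + c * Z ω := by
    intro ω
    simp only [hN, hZ, hb', lc, map_sub, map_smul, smul_eq_mul]
    ring
  have horth : inner ℝ (lc G a) (lc G b') = 0 := by
    have : lc G b' = lc G b - c • lc G a := by simp [lc, hb']
    rw [this, inner_sub_right, inner_smul_right, real_inner_self_eq_norm_sq, hc,
      real_inner_comm (lc G b) (lc G a)]
    field_simp
    ring
  have hind : IndepFun Z N P := h.indepFun_tests horth
  have iN : Integrable N P := h.integrable_lc b'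
  have iZ : Integrable Z P := h.integrable_lc a
  -- the independent part
  have hNint : ∫ ω in S, N ω ∂P = 0 := by
    set u : Ω → ℝ := (Set.Iic (0 : ℝ)).indicator (fun _ => (1 : ℝ)) ∘ Z with hu
    have h1 : ∫ ω in S, N ω ∂P = ∫ ω, (u * N) ω ∂P := by
      rw [← integral_indicator hSm]
      congr 1
      ext ω
      by_cases hω : ω ∈ S
      · have hω' : Z ω ∈ Set.Iic (0 : ℝ) := hω
        simp [hω, hu, hω']
      · have hω' : Z ω ∉ Set.Iic (0 : ℝ) := hω
        rw [Set.indicator_of_notMem hω, Pi.mul_apply, hu, Function.comp,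
          Set.indicator_of_notMem hω', zero_mul]
    have h3 : IndepFun u N P :=
      hind.comp (measurable_const.indicator measurableSet_Iic) measurable_id
    have h5 := h3.integral_mul_eq_mul_integral
      ((measurable_const.indicator measurableSet_Iic).comp hZm).aestronglyMeasurable
      (h.measurable_lc b').aestronglyMeasurable
    have h4 : ∫ ω, N ω ∂P = 0 := h.integral_lc b'
    rw [h1, h5, h4, mul_zero]
  have hZint : ∫ ω in S, Z ω ∂P = -(‖lc G a‖ * gabs / 2) := by
    have h1 : ∀ ω, |Z ω| = Z ω - 2 * S.indicator Z ω := by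
      intro ω
      by_cases hω : ω ∈ S
      · rw [Set.indicator_of_mem hω]
        have : Z ω ≤ 0 := hω
        rw [abs_of_nonpos this]
        ring
      · rw [Set.indicator_of_notMem hω]
        have : 0 < Z ω := not_le.1 hω
        rw [abs_of_pos this]
        ring
    have h2 := h.integral_abs_lc a
    have h3 : ∫ ω, |Z ω| ∂P = ∫ ω, (Z ω - 2 * S.indicator Z ω) ∂P := by simp_rw [h1]
    rw [integral_sub iZ ((iZ.indicator hSm).const_mul 2), integral_const_mul,
      integral_indicator hSm] at h3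
    have h4 : ∫ ω, Z ω ∂P = 0 := h.integral_lc a
    rw [h4] at h3
    have h5 : ∫ ω, |Z ω| ∂P = ‖lc G a‖ * gabs := h2
    linarith
  have h6 : ∫ ω in S, lc (fun x => ψ x ω) b ∂P = ∫ ω in S, (N ω + c * Z ω) ∂P := by
    congr 1
    ext ω
    exact e1 ω
  rw [h6, integral_add iN.integrableOn (iZ.const_mul c).integrableOn, integral_const_mul, hNint,
    hZint, hc]
  field_simp
  ring

/-- First moment on the complementary half space. -/
theorem FieldLaw.setIntegral_half' (h : FieldLaw P G ψ) (a b : Eu d →₀ ℝ) (ha : 0 < ‖lc G a‖) :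
    ∫ ω in {ω | lc (fun x => ψ x ω) a ≤ 0}ᶜ, lc (fun x => ψ x ω) b ∂P
      = inner ℝ (lc G b) (lc G a) / ‖lc G a‖ * (gabs / 2) := by
  have hm : MeasurableSet {ω | lc (fun x => ψ x ω) a ≤ 0} :=
    measurableSet_le (h.measurable_lc a) measurable_const
  have h1 := integral_add_compl hm (h.integrable_lc b)
  rw [h.setIntegral_half a b ha, h.integral_lc b] at h1
  linarith

/-- The second order constant. -/
noncomputable def quadC (v : ℝ≥0) : ℝ := ∫ y, y ^ 2 * Real.exp |y| ∂(gaussianReal 0 v)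

lemma quadC_nonneg (v : ℝ≥0) : 0 ≤ quadC v := by
  unfold quadC
  exact integral_nonneg fun y => by positivity

lemma integrable_quad (v : ℝ≥0) : Integrable (fun y : ℝ => y ^ 2 * Real.exp |y|)
    (gaussianReal 0 v) := by
  have i1 : Integrable (fun y : ℝ => 2 * (Real.exp (2 * y) + Real.exp (-2 * y)))
      (gaussianReal 0 v) :=
    ((integrable_exp_mul_gaussianReal 2).add (integrable_exp_mul_gaussianReal (-2))).const_mul 2
  refine i1.mono' (by fun_prop) (Filter.Eventually.of_forall fun y => ?_)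
  rw [Real.norm_eq_abs, abs_of_nonneg (by positivity)]
  have h1 : y ^ 2 ≤ 2 * Real.exp |y| := by
    have := Real.quadratic_le_exp_of_nonneg (abs_nonneg y)
    rw [sq_abs] at this
    have h0 := abs_nonneg y
    linarith
  have h2 : Real.exp |y| * Real.exp |y| ≤ Real.exp (2 * y) + Real.exp (-2 * y) := by
    rw [← Real.exp_add]
    rcases le_total 0 y with h | h
    · rw [abs_of_nonneg h]
      have e : y + y = 2 * y := by ring
      rw [e]
      have := Real.exp_pos (-2 * y)
      linarith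
    · rw [abs_of_nonpos h]
      have e : -y + -y = -2 * y := by ring
      rw [e]
      have := Real.exp_pos (2 * y)
      linarith
  calc y ^ 2 * Real.exp |y| ≤ 2 * Real.exp |y| * Real.exp |y| := by gcongr
    _ = 2 * (Real.exp |y| * Real.exp |y|) := by ring
    _ ≤ _ := by gcongr

/-- Exponential moment at a point, restricted to an event. -/
lemma FieldLaw.setLIntegral_exp_le (h : FieldLaw P G ψ) {ξ : ℝ} (hξ : 0 ≤ ξ) (hξ1 : ξ ≤ 1)
    (p : Eu d) {S : Set Ω} (hS : MeasurableSet S) :
    ∫⁻ ω in S, ENNReal.ofReal (Real.exp (ξ * ψ p ω)) ∂P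
      ≤ ENNReal.ofReal (P.real S + ξ * (∫ ω in S, ψ p ω ∂P) + ξ ^ 2 * quadC (‖G p‖₊ ^ 2)) := by
  have hP := h.isProbabilityMeasure
  have hlaw : P.map (ψ p) = gaussianReal 0 (‖G p‖₊ ^ 2) := by
    have := h.gauss (Finsupp.single p 1)
    simpa [lc] using this
  have hpm := h.meas p
  have i2 : Integrable (fun ω => ψ p ω ^ 2 * Real.exp |ψ p ω|) P := by
    have := integrable_quad (‖G p‖₊ ^ 2)
    rw [← hlaw] at this
    exact this.comp_measurable hpm
  have i1 : Integrable (ψ p) P := by
    have := h.integrable_lc (Finsupp.single p 1)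
    simpa [lc] using this
  have hq : ∫ ω, ψ p ω ^ 2 * Real.exp |ψ p ω| ∂P = quadC (‖G p‖₊ ^ 2) := by
    unfold quadC
    rw [← hlaw, integral_map hpm.aemeasurable (by fun_prop)]
  set g : Ω → ℝ := fun ω => 1 + ξ * ψ p ω + ξ ^ 2 * (ψ p ω ^ 2 * Real.exp |ψ p ω|) with hg
  have hle : ∀ ω, Real.exp (ξ * ψ p ω) ≤ g ω := by
    intro ω
    have h1 := exp_le_quad (ξ * ψ p ω)
    have h2 : |ξ * ψ p ω| ≤ |ψ p ω| := by
      rw [abs_mul, abs_of_nonneg hξ]
      exact mul_le_of_le_one_left (abs_nonneg _) hξ1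
    have h3 : (ξ * ψ p ω) ^ 2 * Real.exp |ξ * ψ p ω|
        ≤ ξ ^ 2 * (ψ p ω ^ 2 * Real.exp |ψ p ω|) := by
      calc (ξ * ψ p ω) ^ 2 * Real.exp |ξ * ψ p ω|
          ≤ (ξ * ψ p ω) ^ 2 * Real.exp |ψ p ω| := by gcongr
        _ = _ := by ring
    simp only [hg]
    linarith
  have ig : Integrable g P :=
    ((integrable_const 1).add (i1.const_mul ξ)).add (i2.const_mul (ξ ^ 2))
  calc ∫⁻ ω in S, ENNReal.ofReal (Real.exp (ξ * ψ p ω)) ∂P
      ≤ ∫⁻ ω in S, ENNReal.ofReal (g ω) ∂P :=
        lintegral_mono fun ω => ENNReal.ofReal_le_ofReal (hle ω)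
    _ = ENNReal.ofReal (∫ ω in S, g ω ∂P) := by
        rw [ofReal_integral_eq_lintegral_ofReal ig.integrableOn
          (Filter.Eventually.of_forall fun ω => (Real.exp_pos _).le.trans (hle ω))]
    _ ≤ _ := by
        apply ENNReal.ofReal_le_ofReal
        have e : ∫ ω in S, g ω ∂P = P.real S + ξ * (∫ ω in S, ψ p ω ∂P)
            + ξ ^ 2 * ∫ ω in S, ψ p ω ^ 2 * Real.exp |ψ p ω| ∂P := by
          have j1 : Integrable (fun ω => 1 + ξ * ψ p ω) (P.restrict S) :=
            ((integrable_const 1).add (i1.const_mul ξ)).integrableOn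
          have j2 : Integrable (fun ω => ξ ^ 2 * (ψ p ω ^ 2 * Real.exp |ψ p ω|))
            (P.restrict S) := (i2.const_mul (ξ ^ 2)).integrableOn
          have j3 : Integrable (fun ω => ξ * ψ p ω) (P.restrict S) :=
            (i1.const_mul ξ).integrableOn
          simp only [hg]
          rw [integral_add j1 j2, integral_add (integrable_const 1) j3, integral_const_mul,
            integral_const_mul]
          simp
        rw [e, ← hq]
        have h4 : ∫ ω in S, ψ p ω ^ 2 * Real.exp |ψ p ω| ∂P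
            ≤ ∫ ω, ψ p ω ^ 2 * Real.exp |ψ p ω| ∂P :=
          setIntegral_le_integral i2 (Filter.Eventually.of_forall fun ω => by positivity)
        gcongr

end Pool.Agent.Lib_MP_71c74a_pr
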