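import Pool.Agent.Lib_MP_71c74a_pr.CovBlock
import Pool.Agent.Lib_MP_71c74a_pr.KapPath

/-!
# The multiscale cost functional with exact weights
-/

open MeasureTheory ProbabilityTheory Set
open scoped ENNReal NNReal Topology

namespace Pool.Agent.Lib_MP_71c74a_pr

variable {d : ℕ}

/-- Starting points of the pieces of the two routes. -/
noncomputable def pcP (D : ℝ) (X Y : Eu d) : Fin 4 → Eu d := ![X, X, crn₁ D X Y, crn₂ D X Y]

/-- End points of the pieces of the two routes. -/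
noncomputable def pcQ (D : ℝ) (X Y : Eu d) : Fin 4 → Eu d := ![Y, crn₁ D X Y, crn₂ D X Y, Y]

lemma isRoutePiece_pc (D : ℝ) (X Y : Eu d) (c : Fin 4) :
    IsRoutePiece D X Y (pcP D X Y c) (pcQ D X Y c) := by
  unfold IsRoutePiece
  fin_cases c
  · left; exact ⟨rfl, rfl⟩
  · right; left; exact ⟨rfl, rfl⟩
  · right; right; left; exact ⟨rfl, rfl⟩
  · right; right; right; exact ⟨rfl, rfl⟩

open Classical in
/-- Indicator of the event that the piece `c` is used. -/
noncomputable def indC (M : ℕ) (D : ℝ) (X Y : Eu d) (c : Fin 4) (ψ : Eu d → ℝ) : ℝ≥0∞ :=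
  if (c = 0 ↔ lc ψ (dT M D X Y) ≤ 0) then 1 else 0

/-- Cost of a block: the route is chosen according to the sign of the decision test. -/
noncomputable def blkG (M : ℕ) (D : ℝ) (ψ : Eu d → ℝ) (k : Eu d → Eu d → ℝ≥0∞) (X Y : Eu d) :
    ℝ≥0∞ :=
  ∑ c : Fin 4, ∑ i ∈ Finset.range 16, indC M D X Y c ψ
    * k (segPt 16 (pcP D X Y c) (pcQ D X Y c) i) (segPt 16 (pcP D X Y c) (pcQ D X Y c) (i + 1))

/-- The multiscale cost functional with `q` levels, starting at level `r`, with leaf cost `L`. -/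
noncomputable def kapG (M : ℕ) (D l : ℝ) (J : ℕ → ℕ) (f : ℕ → Eu d → ℝ)
    (L : Eu d → Eu d → ℝ≥0∞) : ℕ → ℕ → Eu d → Eu d → ℝ≥0∞
  | 0, _, x, y => L x y
  | q + 1, r, x, y => ∑ i ∈ Finset.range (nBlk J l r x y),
      blkG M D (unitF J f r)
        (fun x' y' => kapG M D l J f L q (r + 1) ((1 / 2 : ℝ) ^ J r • x') ((1 / 2 : ℝ) ^ J r • y'))
        (segPt (nBlk J l r x y) (((1 / 2 : ℝ) ^ J r)⁻¹ • x) (((1 / 2 : ℝ) ^ J r)⁻¹ • y) i)
        (segPt (nBlk J l r x y) (((1 / 2 : ℝ) ^ J r)⁻¹ • x) (((1 / 2 : ℝ) ^ J r)⁻¹ • y) (i + 1))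

/-- Riemann sum of a weight along a segment. -/
noncomputable def leafN (N : ℕ) (g : Eu d → ℝ≥0∞) (x y : Eu d) : ℝ≥0∞ :=
  ENNReal.ofReal (‖y - x‖ / N) * ∑ i ∈ Finset.range N, g (segPt N x y i)

lemma blkG_mul (M : ℕ) (D : ℝ) (ψ : Eu d → ℝ) (k : Eu d → Eu d → ℝ≥0∞) (c : ℝ≥0∞) (X Y : Eu d) :
    blkG M D ψ (fun x y => c * k x y) X Y = c * blkG M D ψ k X Y := by
  unfold blkG
  rw [Finset.mul_sum]
  refine Finset.sum_congr rfl fun i _ => ?_
  rw [Finset.mul_sum]
  refine Finset.sum_congr rfl fun j _ => ?_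
  ring

/-- Homogeneity in the leaf cost. -/
lemma kapG_mul (M : ℕ) (D l : ℝ) (J : ℕ → ℕ) (f : ℕ → Eu d → ℝ) (L : Eu d → Eu d → ℝ≥0∞)
    (c : ℝ≥0∞) (q : ℕ) : ∀ r (x y : Eu d),
    kapG M D l J f (fun x y => c * L x y) q r x y = c * kapG M D l J f L q r x y := by
  induction q with
  | zero => intro r x y; rfl
  | succ q ih =>
    intro r x y
    unfold kapG
    rw [Finset.mul_sum]
    refine Finset.sum_congr rfl fun i _ => ?_
    rw [← blkG_mul]
    congr 1
    ext x' y'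
    exact ih _ _ _

lemma leafN_mul (N : ℕ) (g : Eu d → ℝ≥0∞) (c : ℝ≥0∞) :
    leafN N (fun p => c * g p) = fun x y => c * leafN N g x y := by
  ext x y
  unfold leafN
  rw [← Finset.mul_sum]
  ring

section Measurability

variable {α : Type*} [MeasurableSpace α]

lemma measurable_indC (M : ℕ) (D : ℝ) (X Y : Eu d) (c : Fin 4) :
    Measurable (fun ψ : Eu d → ℝ => indC M D X Y c ψ) := by
  unfold indC
  have h1 : MeasurableSet {ψ : Eu d → ℝ | lc ψ (dT M D X Y) ≤ 0} :=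
    measurableSet_le (measurable_lc_pi _) measurable_const
  refine Measurable.ite ?_ measurable_const measurable_const
  by_cases hc : c = 0
  · have : {ψ : Eu d → ℝ | (c = 0 ↔ lc ψ (dT M D X Y) ≤ 0)}
        = {ψ : Eu d → ℝ | lc ψ (dT M D X Y) ≤ 0} := by
      ext ψ
      simp [hc]
    rw [this]
    exact h1
  · have : {ψ : Eu d → ℝ | (c = 0 ↔ lc ψ (dT M D X Y) ≤ 0)}
        = {ψ : Eu d → ℝ | lc ψ (dT M D X Y) ≤ 0}ᶜ := by
      ext ψ
      simp [hc]
    rw [this]
    exact h1.compl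

lemma measurable_blkG (M : ℕ) (D : ℝ) {ψ : α → Eu d → ℝ} (hψ : Measurable ψ)
    {k : α → Eu d → Eu d → ℝ≥0∞} (hk : ∀ x y, Measurable fun a => k a x y) (X Y : Eu d) :
    Measurable (fun a => blkG M D (ψ a) (k a) X Y) := by
  unfold blkG
  exact Finset.measurable_sum _ fun c _ => Finset.measurable_sum _ fun i _ =>
    ((measurable_indC M D X Y c).comp hψ).mul (hk _ _)

lemma measurable_kapG (M : ℕ) (D l : ℝ) (J : ℕ → ℕ) {f : α → ℕ → Eu d → ℝ} (hf : Measurable f)
    {L : α → Eu d → Eu d → ℝ≥0∞} (hL : ∀ x y, Measurable fun a => L a x y) (q : ℕ) :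
    ∀ r (x y : Eu d), Measurable (fun a => kapG M D l J (f a) (L a) q r x y) := by
  induction q with
  | zero => intro r x y; exact hL x y
  | succ q ih =>
    intro r x y
    unfold kapG
    refine Finset.measurable_sum _ fun i _ => ?_
    exact measurable_blkG M D ((measurable_unitF J r).comp hf) (fun x' y' => ih (r + 1) _ _) _ _

lemma measurable_leafN (N : ℕ) {g : α → Eu d → ℝ≥0∞} (hg : ∀ p, Measurable fun a => g a p)
    (x y : Eu d) : Measurable (fun a => leafN N (g a) x y) := by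
  unfold leafN
  exact (Finset.measurable_sum _ fun i _ => hg _).const_mul _

end Measurability

/-- Convergence of the leaf costs gives convergence of the costs. -/
lemma tendsto_kapG (M : ℕ) (D l : ℝ) (J : ℕ → ℕ) (f : ℕ → Eu d → ℝ)
    {LN : ℕ → Eu d → Eu d → ℝ≥0∞} {L : Eu d → Eu d → ℝ≥0∞}
    (h : ∀ x y, Filter.Tendsto (fun N => LN N x y) Filter.atTop (𝓝 (L x y))) (q : ℕ) :
    ∀ r (x y : Eu d), Filter.Tendsto (fun N => kapG M D l J f (LN N) q r x y) Filter.atTop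
      (𝓝 (kapG M D l J f L q r x y)) := by
  induction q with
  | zero => intro r x y; exact h x y
  | succ q ih =>
    intro r x y
    unfold kapG blkG
    refine tendsto_finsetSum _ fun i _ => tendsto_finsetSum _ fun c _ =>
      tendsto_finsetSum _ fun j _ => ?_
    refine ENNReal.Tendsto.const_mul (ih _ _ _) (Or.inr ?_)
    unfold indC
    split_ifs <;> simp

lemma tendsto_leafN (ξ : ℝ) {F : Eu d → ℝ} (hF : Continuous F) (x y : Eu d) :
    Filter.Tendsto (fun N => leafN N (fun p => ENNReal.ofReal (Real.exp (ξ * F p))) x y)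
      Filter.atTop (𝓝 (ENNReal.ofReal (segC ξ F x y))) := by
  set g : Eu d → ℝ := fun p => Real.exp (ξ * F p) with hg
  have hgc : Continuous g := by fun_prop
  have hlim := (tendsto_riem hgc x y).const_mul ‖y - x‖
  have hlim2 : Filter.Tendsto (fun N : ℕ => ENNReal.ofReal (‖y - x‖ * lc g (avgT N x y)))
      Filter.atTop (𝓝 (ENNReal.ofReal (segC ξ F x y))) :=
    (ENNReal.continuous_ofReal.tendsto _).comp hlim
  refine hlim2.congr fun N => ?_
  unfold leafN
  rw [lc_avgT, ← ENNReal.ofReal_sum_of_nonneg (fun i _ => (Real.exp_pos _).le),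
    ← ENNReal.ofReal_mul (by positivity)]
  congr 1
  rw [smul_eq_mul, hg]
  ring

lemma Poly.seg (ξ : ℝ) (F : Eu d → ℝ) (x y : Eu d) {S : Set (Eu d)}
    (hS : ∀ θ ∈ Icc (0 : ℝ) 1, x + θ • (y - x) ∈ S) :
    Poly ξ F S x y (ENNReal.ofReal (segC ξ F x y)) := by
  refine ⟨1, fun i => if i = 0 then x else y, by simp, by simp, ?_, ?_⟩
  · intro i hi θ hθ
    have : i = 0 := by omega
    subst this
    simpa using hS θ hθ
  · simp

/-- The geometry of one step. -/
structure StepGeo (D l : ℝ) (J : ℕ → ℕ) (r : ℕ) (x y : Eu d) (B : ℕ) (X Y : Eu d) : Prop where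
  Bpos : 0 < B
  nb : nBlk J l r x y = B
  eX : ((1 / 2 : ℝ) ^ J r)⁻¹ • x = X
  eY : ((1 / 2 : ℝ) ^ J r)⁻¹ • y = Y
  bl : l / 2 ≤ ‖Y - X‖ / B
  bu : ‖Y - X‖ / B ≤ l
  nrm : ‖Y - X‖ = ‖y - x‖ / (1 / 2 : ℝ) ^ J r

lemma exists_stepGeo {D l : ℝ} (hl : 0 < l) {J : ℕ → ℕ} {r : ℕ} {x y : Eu d}
    (hxy : l * (1 / 2) ^ J r ≤ ‖y - x‖) : ∃ B X Y, StepGeo D l J r x y B X Y := by
  set s : ℝ := (1 / 2) ^ J r with hs
  have hs0 : 0 < s := by positivity
  set X := s⁻¹ • x with hX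
  set Y := s⁻¹ • y with hY
  have hXYn : ‖Y - X‖ = ‖y - x‖ / s := by
    rw [hX, hY, ← smul_sub, norm_smul, norm_inv, Real.norm_eq_abs, abs_of_pos hs0]; ring
  have hXYl : l ≤ ‖Y - X‖ := by rw [hXYn, le_div_iff₀ hs0]; exact hxy
  have hn : nBlk J l r x y = ⌈‖Y - X‖ / l⌉₊ := rfl
  set B := nBlk J l r x y with hB
  have hB1 : ‖Y - X‖ / l ≤ B := by rw [hn]; exact Nat.le_ceil _
  have hB2 : (B : ℝ) < ‖Y - X‖ / l + 1 := by
    rw [hn]; exact Nat.ceil_lt_add_one (by positivity)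
  have hone : 1 ≤ ‖Y - X‖ / l := by rwa [one_le_div hl]
  have hB0 : (0 : ℝ) < B := by linarith
  have hBpos : 0 < B := by exact_mod_cast hB0
  refine ⟨B, X, Y, hBpos, rfl, rfl, rfl, ?_, ?_, hXYn⟩
  · rw [le_div_iff₀ hB0]
    have : (B : ℝ) ≤ 2 * (‖Y - X‖ / l) := by linarith
    calc l / 2 * B ≤ l / 2 * (2 * (‖Y - X‖ / l)) := by gcongr
      _ = ‖Y - X‖ := by field_simp
  · rw [div_le_iff₀ hB0]
    rw [div_le_iff₀ hl] at hB1
    linarith

lemma kapG_step {M : ℕ} {D l : ℝ} {J : ℕ → ℕ} {r : ℕ} {x y : Eu d} {B : ℕ} {X Y : Eu d}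
    (hg : StepGeo D l J r x y B X Y) (f : ℕ → Eu d → ℝ) (L : Eu d → Eu d → ℝ≥0∞) (q : ℕ) :
    kapG M D l J f L (q + 1) r x y = ∑ i ∈ Finset.range B,
      blkG M D (unitF J f r)
        (fun x' y' => kapG M D l J f L q (r + 1) ((1 / 2 : ℝ) ^ J r • x') ((1 / 2 : ℝ) ^ J r • y'))
        (segPt B X Y i) (segPt B X Y (i + 1)) := by
  rw [kapG, hg.nb, hg.eX, hg.eY]

/-- One step: the small segments are long enough, and their tubes are inside the large tube. -/
lemma StepGeo.sub (hd : 2 ≤ d) {D l : ℝ} (hD : 0 < D) (hl : 0 < l) (hDl : 4 * D ≤ l)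
    {J : ℕ → ℕ} (hJM : ∀ r, 8 * 16 * (1 / 2 : ℝ) ^ J (r + 1) ≤ (1 / 2) ^ J r)
    {r : ℕ} {x y : Eu d} {B : ℕ} {X Y : Eu d} (hg : StepGeo D l J r x y B X Y) {i : ℕ}
    (hi : i < B) (c : Fin 4) {j : ℕ} (hj : j < 16) {u v : Eu d}
    (hu : u = segPt 16 (pcP D (segPt B X Y i) (segPt B X Y (i + 1)) c)
      (pcQ D (segPt B X Y i) (segPt B X Y (i + 1)) c) j)
    (hv : v = segPt 16 (pcP D (segPt B X Y i) (segPt B X Y (i + 1)) c)
      (pcQ D (segPt B X Y i) (segPt B X Y (i + 1)) c) (j + 1)) :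
    l * (1 / 2) ^ J (r + 1) ≤ ‖(1 / 2 : ℝ) ^ J r • v - (1 / 2 : ℝ) ^ J r • u‖ ∧
    tube ((1 / 2 : ℝ) ^ J r • u) ((1 / 2 : ℝ) ^ J r • v) (2 * D * (1 / 2) ^ J (r + 1))
      ⊆ tube x y (2 * D * (1 / 2) ^ J r) := by
  set s : ℝ := (1 / 2) ^ J r with hs
  set s' : ℝ := (1 / 2) ^ J (r + 1) with hs'
  have hs0 : 0 < s := by positivity
  have hs'0 : 0 < s' := by positivity
  have hss' : 8 * 16 * s' ≤ s := hJM r
  have hsX : s • X = x := by rw [← hg.eX, smul_smul, mul_inv_cancel₀ hs0.ne', one_smul]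
  have hsY : s • Y = y := by rw [← hg.eY, smul_smul, mul_inv_cancel₀ hs0.ne', one_smul]
  have hpp := isRoutePiece_pc D (segPt B X Y i) (segPt B X Y (i + 1)) c
  set p := pcP D (segPt B X Y i) (segPt B X Y (i + 1)) c with hp
  set p' := pcQ D (segPt B X Y i) (segPt B X Y (i + 1)) c with hp'
  have hlen := hpp.len hd hD (l := l) (by rw [norm_segPt_succ]; exact hg.bl)
    (by rw [norm_segPt_succ]; exact hg.bu) (by rw [norm_segPt_succ]; linarith [hg.bl])
  have huv : ‖v - u‖ = ‖p' - p‖ / 16 := by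
    rw [hu, hv]
    have := norm_segPt_succ (M := 16) p p' j
    simpa using this
  refine ⟨?_, ?_⟩
  · rw [← smul_sub, norm_smul, huv, Real.norm_eq_abs, abs_of_pos hs0]
    calc l * s' = (l / 8) / 16 * (8 * 16 * s') := by ring
      _ ≤ (‖p' - p‖ / 16) * s := by gcongr; exact hlen.1
      _ = s * (‖p' - p‖ / 16) := by ring
  · rintro z ⟨θ, hθ, hz⟩
    obtain ⟨τ, hτ, hτe⟩ := segPt_param (by norm_num : 0 < 16) p p' hj hθ
    obtain ⟨σ, hσ, hσn⟩ := hpp.near hd hD.le hτ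
    obtain ⟨τ', hτ', hτe'⟩ := segPt_param hg.Bpos X Y hi hσ
    refine ⟨τ', hτ', ?_⟩
    have e1 : s • u + θ • (s • v - s • u) = s • (p + τ • (p' - p)) := by
      rw [← hτe, ← hu, ← hv]; module
    have e2 : x + τ' • (y - x) = s • (X + τ' • (Y - X)) := by
      rw [← hsX, ← hsY]; module
    rw [e1] at hz
    rw [e2, ← hτe']
    have h1 := norm_sub_le_norm_sub_add_norm_sub z (s • (p + τ • (p' - p)))
      (s • (segPt B X Y i + σ • (segPt B X Y (i + 1) - segPt B X Y i)))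
    have h2 : ‖s • (p + τ • (p' - p))
        - s • (segPt B X Y i + σ • (segPt B X Y (i + 1) - segPt B X Y i))‖ ≤ s * D := by
      rw [← smul_sub, norm_smul, Real.norm_eq_abs, abs_of_pos hs0]
      gcongr
    nlinarith

/-- Monotonicity: only the values of the weight in the tube matter. -/
lemma kapG_mono_tube (hd : 2 ≤ d) {M : ℕ} {D l : ℝ} (hD : 0 < D) (hl : 0 < l) (hDl : 4 * D ≤ l)
    {J : ℕ → ℕ} (hJM : ∀ r, 8 * 16 * (1 / 2 : ℝ) ^ J (r + 1) ≤ (1 / 2) ^ J r)
    (f : ℕ → Eu d → ℝ) {N : ℕ} {g g' : Eu d → ℝ≥0∞} (q : ℕ) :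
    ∀ r (x y : Eu d), (q = 0 ∨ l * (1 / 2) ^ J r ≤ ‖y - x‖) →
      (∀ p ∈ tube x y (2 * D * (1 / 2) ^ J r), g p ≤ g' p) →
      kapG M D l J f (leafN N g) q r x y ≤ kapG M D l J f (leafN N g') q r x y := by
  induction q with
  | zero =>
    intro r x y _ h
    unfold kapG leafN
    rcases Nat.eq_zero_or_pos N with h0 | hN
    · subst h0; simp
    · gcongr with i hi
      apply h
      obtain ⟨τ, hτ, hτe⟩ := segPt_param hN x y (Finset.mem_range.1 hi)
        (θ := 0) ⟨le_rfl, zero_le_one⟩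
      rw [zero_smul, add_zero] at hτe
      refine ⟨τ, hτ, ?_⟩
      rw [hτe, sub_self, norm_zero]
      positivity
  | succ q ih =>
    intro r x y hxy h
    have hxy' : l * (1 / 2) ^ J r ≤ ‖y - x‖ := by
      rcases hxy with h | h
      · omega
      · exact h
    obtain ⟨B, X, Y, hg⟩ := exists_stepGeo (D := D) hl hxy'
    rw [kapG_step hg, kapG_step hg]
    refine Finset.sum_le_sum fun i hi => ?_
    unfold blkG
    refine Finset.sum_le_sum fun c _ => Finset.sum_le_sum fun j hj => ?_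
    obtain ⟨h1, h2⟩ := hg.sub hd hD hl hDl hJM (Finset.mem_range.1 hi) c
      (Finset.mem_range.1 hj) rfl rfl
    refine mul_le_mul_right (ih _ _ _ (Or.inr h1) fun p hp => h p (h2 hp)) _

/-- **The cost is realised by a polygonal path.** -/
theorem kapG_path (hd : 2 ≤ d) {M : ℕ} {D l : ℝ} (hD : 0 < D) (hl : 0 < l) (hDl : 4 * D ≤ l)
    {J : ℕ → ℕ} (hJM : ∀ r, 8 * 16 * (1 / 2 : ℝ) ^ J (r + 1) ≤ (1 / 2) ^ J r)
    (f : ℕ → Eu d → ℝ) (ξ : ℝ) (F : Eu d → ℝ) (q : ℕ) :
    ∀ r (x y : Eu d), (q = 0 ∨ l * (1 / 2) ^ J r ≤ ‖y - x‖) →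
      Poly ξ F (tube x y (2 * D * (1 / 2) ^ J r)) x y
        (kapG M D l J f (fun x y => ENNReal.ofReal (segC ξ F x y)) q r x y) := by
  induction q with
  | zero =>
    intro r x y _
    exact Poly.seg ξ F x y (fun θ hθ => ⟨θ, hθ, by simp; positivity⟩)
  | succ q ih =>
    intro r x y hxy
    have hxy' : l * (1 / 2) ^ J r ≤ ‖y - x‖ := by
      rcases hxy with h | h
      · omega
      · exact h
    obtain ⟨B, X, Y, hg⟩ := exists_stepGeo (D := D) hl hxy'
    rw [kapG_step hg]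
    set s : ℝ := (1 / 2) ^ J r with hs
    have hs0 : 0 < s := by positivity
    have hsX : s • X = x := by rw [← hg.eX, smul_smul, mul_inv_cancel₀ hs0.ne', one_smul]
    have hsY : s • Y = y := by rw [← hg.eY, smul_smul, mul_inv_cancel₀ hs0.ne', one_smul]
    set k : Eu d → Eu d → ℝ≥0∞ := fun x' y' =>
      kapG M D l J f (fun x y => ENNReal.ofReal (segC ξ F x y)) q (r + 1) (s • x') (s • y') with hk
    have hpiece : ∀ i < B, ∀ c : Fin 4,
        Poly ξ F (tube x y (2 * D * s))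
          (s • pcP D (segPt B X Y i) (segPt B X Y (i + 1)) c)
          (s • pcQ D (segPt B X Y i) (segPt B X Y (i + 1)) c)
          (∑ j ∈ Finset.range 16, k
            (segPt 16 (pcP D (segPt B X Y i) (segPt B X Y (i + 1)) c)
              (pcQ D (segPt B X Y i) (segPt B X Y (i + 1)) c) j)
            (segPt 16 (pcP D (segPt B X Y i) (segPt B X Y (i + 1)) c)
              (pcQ D (segPt B X Y i) (segPt B X Y (i + 1)) c) (j + 1))) := by
      intro i hi c
      set p := pcP D (segPt B X Y i) (segPt B X Y (i + 1)) c with hp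
      set p' := pcQ D (segPt B X Y i) (segPt B X Y (i + 1)) c with hp'
      have hchain : ∀ j < 16, Poly ξ F (tube x y (2 * D * s)) (s • segPt 16 p p' j)
          (s • segPt 16 p p' (j + 1)) (k (segPt 16 p p' j) (segPt 16 p p' (j + 1))) := by
        intro j hj
        obtain ⟨h1, h2⟩ := hg.sub hd hD hl hDl hJM hi c hj rfl rfl
        exact (ih (r + 1) _ _ (Or.inr h1)).mono h2 le_rfl
      have hc := Poly.chain (p := fun j => s • segPt 16 p p' j) hchain
      have e0 : segPt 16 p p' 0 = p := by simp [segPt]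
      have eM : segPt 16 p p' 16 = p' := by
        unfold segPt
        norm_num
      simp only [e0, eM] at hc
      exact hc
    have hblock : ∀ i < B, Poly ξ F (tube x y (2 * D * s)) (s • segPt B X Y i)
        (s • segPt B X Y (i + 1)) (blkG M D (unitF J f r) k
          (segPt B X Y i) (segPt B X Y (i + 1))) := by
      intro i hi
      unfold blkG
      rw [Fin.sum_univ_four]
      simp only [← Finset.mul_sum]
      by_cases h : lc (unitF J f r) (dT M D (segPt B X Y i) (segPt B X Y (i + 1))) ≤ 0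
      · have e1 : indC M D (segPt B X Y i) (segPt B X Y (i + 1)) 0 (unitF J f r) = 1 := by
          simp [indC, h]
        refine (hpiece i hi 0).mono Subset.rfl ?_
        rw [e1, one_mul, add_assoc, add_assoc]
        exact le_self_add
      · have e1 : ∀ c : Fin 4, c ≠ 0 →
            indC M D (segPt B X Y i) (segPt B X Y (i + 1)) c (unitF J f r) = 1 := by
          intro c hc
          simp [indC, h, hc]
        rw [e1 1 (by decide), e1 2 (by decide), e1 3 (by decide), one_mul, one_mul, one_mul]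
        refine (((hpiece i hi 1).trans (hpiece i hi 2)).trans (hpiece i hi 3)).mono Subset.rfl ?_
        rw [add_assoc (indC _ _ _ _ _ _ * _), add_assoc (indC _ _ _ _ _ _ * _)]
        exact le_add_self
    have hall := Poly.chain (p := fun i => s • segPt B X Y i) hblock
    have hB0 : (0 : ℝ) < B := by exact_mod_cast hg.Bpos
    have e0 : s • segPt B X Y 0 = x := by simp [segPt, hsX]
    have eB : s • segPt B X Y B = y := by
      unfold segPt
      rw [div_self hB0.ne', one_smul]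
      rw [show X + (Y - X) = Y by abel, hsY]
    simp only [e0, eB] at hall
    exact hall

end Pool.Agent.Lib_MP_71c74a_pr
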