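import Pool.Agent.Lib_MP_71c74a_pr.BlockNum
import Pool.Agent.Lib_MP_71c74a_pr.HalfExp
import Pool.Agent.Lib_MP_71c74a_pr.KapG

/-!
# Weights of the small segments of a block
-/

open MeasureTheory ProbabilityTheory Set
open scoped ENNReal NNReal Topology

namespace Pool.Agent.Lib_MP_71c74a_pr

variable {d : ℕ} {Ω H : Type*} [MeasurableSpace Ω] [NormedAddCommGroup H]
  [InnerProductSpace ℝ H] {P : Measure Ω} {G : Eu d → H} {ψ : Eu d → Ω → ℝ} {R₀ v₀ C : ℝ}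

/-- The bound of `setLIntegral_exp_le` is nonnegative. -/
lemma FieldLaw.bound_nonneg (h : FieldLaw P G ψ) {ξ : ℝ} (hξ : 0 ≤ ξ) (hξ1 : ξ ≤ 1)
    (p : Eu d) {S : Set Ω} (hS : MeasurableSet S) :
    0 ≤ P.real S + ξ * (∫ ω in S, ψ p ω ∂P) + ξ ^ 2 * quadC (‖G p‖₊ ^ 2) := by
  have hP := h.isProbabilityMeasure
  by_contra hcon
  push Not at hcon
  have h1 := h.setLIntegral_exp_le hξ hξ1 p hS
  rw [ENNReal.ofReal_of_nonpos hcon.le] at h1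
  have h2 : ∫⁻ ω in S, ENNReal.ofReal (Real.exp (ξ * ψ p ω)) ∂P = 0 := le_antisymm h1 bot_le
  have hm : Measurable fun ω => ENNReal.ofReal (Real.exp (ξ * ψ p ω)) := by
    have := h.meas p
    fun_prop
  rw [lintegral_eq_zero_iff hm] at h2
  have h3 : P.restrict S = 0 := by
    rw [← Measure.measure_univ_eq_zero]
    have h4 : P.restrict S {ω | ¬ (ENNReal.ofReal (Real.exp (ξ * ψ p ω)) = 0)} = 0 := h2
    have h5 : {ω | ¬ (ENNReal.ofReal (Real.exp (ξ * ψ p ω)) = 0)} = univ := by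
      ext ω
      simp [Real.exp_pos]
    rwa [h5] at h4
  have h4 : P.real S = 0 := by
    have : P S = 0 := by
      have := Measure.restrict_apply_self P S
      rw [h3] at this
      simpa using this.symm
    simp [Measure.real, this]
  rw [h4, h3] at hcon
  have := quadC_nonneg (‖G p‖₊ ^ 2)
  simp only [integral_zero_measure, mul_zero, add_zero, zero_add] at hcon
  have : 0 ≤ ξ ^ 2 * quadC (‖G p‖₊ ^ 2) := by positivity
  linarith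

/-- Parametrisation of the pieces in the plane of the detour. -/
lemma seg_straight (X Y : Eu d) (D : ℝ) {j : ℕ} {θ : ℝ} :
    segPt 16 (pcP D X Y 0) (pcQ D X Y 0) j
      + θ • (segPt 16 (pcP D X Y 0) (pcQ D X Y 0) (j + 1)
        - segPt 16 (pcP D X Y 0) (pcQ D X Y 0) j) = pl X Y (((j : ℝ) + θ) / 16) 0 := by
  unfold segPt pl pcP pcQ
  simp only [Matrix.cons_val_zero]
  push_cast
  module

lemma seg_leg₁ (X Y : Eu d) (D : ℝ) {j : ℕ} {θ : ℝ} :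
    segPt 16 (pcP D X Y 1) (pcQ D X Y 1) j
      + θ • (segPt 16 (pcP D X Y 1) (pcQ D X Y 1) (j + 1)
        - segPt 16 (pcP D X Y 1) (pcQ D X Y 1) j)
      = pl X Y (((j : ℝ) + θ) / 64) (((j : ℝ) + θ) / 16 * D) := by
  unfold segPt pl pcP pcQ crn₁
  simp only [Matrix.cons_val_one, Matrix.cons_val_zero]
  push_cast
  module

lemma seg_flat (X Y : Eu d) (D : ℝ) {j : ℕ} {θ : ℝ} :
    segPt 16 (pcP D X Y 2) (pcQ D X Y 2) j
      + θ • (segPt 16 (pcP D X Y 2) (pcQ D X Y 2) (j + 1)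
        - segPt 16 (pcP D X Y 2) (pcQ D X Y 2) j)
      = pl X Y (1 / 4 + ((j : ℝ) + θ) / 32) D := by
  have e1 : pcP D X Y 2 = crn₁ D X Y := rfl
  have e2 : pcQ D X Y 2 = crn₂ D X Y := rfl
  rw [e1, e2]
  unfold segPt pl crn₁ crn₂
  push_cast
  module

lemma seg_leg₃ (X Y : Eu d) (D : ℝ) {j : ℕ} {θ : ℝ} :
    segPt 16 (pcP D X Y 3) (pcQ D X Y 3) j
      + θ • (segPt 16 (pcP D X Y 3) (pcQ D X Y 3) (j + 1)
        - segPt 16 (pcP D X Y 3) (pcQ D X Y 3) j)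
      = pl X Y (3 / 4 + ((j : ℝ) + θ) / 64) ((1 - ((j : ℝ) + θ) / 16) * D) := by
  have e1 : pcP D X Y 3 = crn₂ D X Y := rfl
  have e2 : pcQ D X Y 3 = Y := rfl
  rw [e1, e2]
  unfold segPt pl crn₂
  push_cast
  module

/-- The weights. -/
noncomputable def wgt (π ξ γ e₁ c₀ β : ℝ) (c : Fin 4) (j : ℕ) : ℝ :=
  if c = 0 then π + ξ * (γ * (e₁ - (if 6 ≤ j ∧ j < 10 then c₀ else 0))) + ξ ^ 2 * β
  else if c = 2 then (1 - π) + ξ * (γ * (e₁ - (if 4 ≤ j ∧ j < 12 then c₀ else 0))) + ξ ^ 2 * β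
  else (1 - π) + ξ ^ 2 * β

lemma sum_mid₁ (a b : ℝ) :
    ∑ j ∈ Finset.range 16, (a - (if 6 ≤ j ∧ j < 10 then b else 0)) = 16 * a - 4 * b := by
  simp only [Finset.sum_range_succ, Finset.sum_range_zero]
  norm_num
  ring

lemma sum_mid₂ (a b : ℝ) :
    ∑ j ∈ Finset.range 16, (a - (if 4 ≤ j ∧ j < 12 then b else 0)) = 16 * a - 8 * b := by
  simp only [Finset.sum_range_succ, Finset.sum_range_zero]
  norm_num
  ring

/-- The total weight. -/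
lemma sum_wgt (hd : 2 ≤ d) {D π ξ γ e₁ c₀ β : ℝ} (hπ0 : 0 ≤ π) (hπ : π ≤ 1) (hξ : 0 ≤ ξ) (hγ : 0 ≤ γ)
    (hβ : 0 ≤ β) (he : 6 * e₁ ≤ c₀) {X Y : Eu d} (hXY : X ≠ Y) (hDL : 2 * D ≤ ‖Y - X‖)
    (hD : 0 < D) :
    ∑ c : Fin 4, ∑ j ∈ Finset.range 16,
        wgt π ξ γ e₁ c₀ β c j * (‖pcQ D X Y c - pcP D X Y c‖ / 16)
      ≤ ‖Y - X‖ + 4 * D ^ 2 / ‖Y - X‖ - ξ * (γ * (c₀ / 4) * ‖Y - X‖)
        + ξ ^ 2 * (3 * β * ‖Y - X‖) := by
  have hL : 0 < ‖Y - X‖ := norm_pos_iff.2 (sub_ne_zero.2 hXY.symm)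
  set b := ‖Y - X‖ with hb
  have l0 : ‖pcQ D X Y 0 - pcP D X Y 0‖ = b := rfl
  have l1 : ‖pcQ D X Y 1 - pcP D X Y 1‖ ≤ b / 4 + 2 * D ^ 2 / b := by
    have e : pcQ D X Y 1 - pcP D X Y 1 = crn₁ D X Y - X := rfl
    rw [e, crn₁_sub]
    exact (norm_leg hd hb.symm hL).2
  have l2 : ‖pcQ D X Y 2 - pcP D X Y 2‖ = b / 2 := by
    have e : pcQ D X Y 2 - pcP D X Y 2 = crn₂ D X Y - crn₁ D X Y := rfl
    rw [e, crn₂_sub_crn₁, norm_smul]
    norm_num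
    ring
  have l3 : ‖pcQ D X Y 3 - pcP D X Y 3‖ ≤ b / 4 + 2 * D ^ 2 / b := by
    have e : pcQ D X Y 3 - pcP D X Y 3 = Y - crn₂ D X Y := rfl
    rw [e, sub_crn₂, norm_neg]
    exact (norm_leg' hd hb.symm hL).2
  have s0 : ∑ j ∈ Finset.range 16, wgt π ξ γ e₁ c₀ β 0 j
      = 16 * π + ξ * (γ * (16 * e₁ - 4 * c₀)) + 16 * (ξ ^ 2 * β) := by
    have e : ∀ j, wgt π ξ γ e₁ c₀ β 0 j
        = (π + ξ ^ 2 * β) + (ξ * γ) * (e₁ - (if 6 ≤ j ∧ j < 10 then c₀ else 0)) := by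
      intro j
      simp only [wgt, if_true]
      ring
    simp_rw [e]
    rw [Finset.sum_add_distrib, ← Finset.mul_sum, sum_mid₁, Finset.sum_const, Finset.card_range,
      nsmul_eq_mul]
    push_cast
    ring
  have s2 : ∑ j ∈ Finset.range 16, wgt π ξ γ e₁ c₀ β 2 j
      = 16 * (1 - π) + ξ * (γ * (16 * e₁ - 8 * c₀)) + 16 * (ξ ^ 2 * β) := by
    have e : ∀ j, wgt π ξ γ e₁ c₀ β 2 j
        = ((1 - π) + ξ ^ 2 * β) + (ξ * γ) * (e₁ - (if 4 ≤ j ∧ j < 12 then c₀ else 0)) := by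
      intro j
      have h20 : (2 : Fin 4) ≠ 0 := by decide
      simp only [wgt, if_neg h20, if_true]
      ring
    simp_rw [e]
    rw [Finset.sum_add_distrib, ← Finset.mul_sum, sum_mid₂, Finset.sum_const, Finset.card_range,
      nsmul_eq_mul]
    push_cast
    ring
  have s1 : ∑ j ∈ Finset.range 16, wgt π ξ γ e₁ c₀ β 1 j = 16 * ((1 - π) + ξ ^ 2 * β) := by
    have e : ∀ j, wgt π ξ γ e₁ c₀ β 1 j = (1 - π) + ξ ^ 2 * β := by
      intro j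
      have h10 : (1 : Fin 4) ≠ 0 := by decide
      have h12 : (1 : Fin 4) ≠ 2 := by decide
      simp only [wgt, if_neg h10, if_neg h12]
    simp_rw [e]
    rw [Finset.sum_const, Finset.card_range, nsmul_eq_mul]
    push_cast
    ring
  have s3 : ∑ j ∈ Finset.range 16, wgt π ξ γ e₁ c₀ β 3 j = 16 * ((1 - π) + ξ ^ 2 * β) := by
    have e : ∀ j, wgt π ξ γ e₁ c₀ β 3 j = (1 - π) + ξ ^ 2 * β := by
      intro j
      have h10 : (3 : Fin 4) ≠ 0 := by decide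
      have h12 : (3 : Fin 4) ≠ 2 := by decide
      simp only [wgt, if_neg h10, if_neg h12]
    simp_rw [e]
    rw [Finset.sum_const, Finset.card_range, nsmul_eq_mul]
    push_cast
    ring
  rw [Fin.sum_univ_four]
  simp only [← Finset.sum_mul]
  rw [s0, s1, s2, s3, l0, l2]
  have hx : 4 * D ^ 2 / b ≤ b := by
    rw [div_le_iff₀ hL]
    nlinarith
  have hw : 0 ≤ (1 - π) + ξ ^ 2 * β := by
    have : 0 ≤ ξ ^ 2 * β := by positivity
    linarith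
  have t1 : 16 * ((1 - π) + ξ ^ 2 * β) * (‖pcQ D X Y 1 - pcP D X Y 1‖ / 16)
      ≤ ((1 - π) + ξ ^ 2 * β) * (b / 4 + 2 * D ^ 2 / b) := by
    calc 16 * ((1 - π) + ξ ^ 2 * β) * (‖pcQ D X Y 1 - pcP D X Y 1‖ / 16)
        = ((1 - π) + ξ ^ 2 * β) * ‖pcQ D X Y 1 - pcP D X Y 1‖ := by ring
      _ ≤ _ := by gcongr
  have t3 : 16 * ((1 - π) + ξ ^ 2 * β) * (‖pcQ D X Y 3 - pcP D X Y 3‖ / 16)
      ≤ ((1 - π) + ξ ^ 2 * β) * (b / 4 + 2 * D ^ 2 / b) := by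
    calc 16 * ((1 - π) + ξ ^ 2 * β) * (‖pcQ D X Y 3 - pcP D X Y 3‖ / 16)
        = ((1 - π) + ξ ^ 2 * β) * ‖pcQ D X Y 3 - pcP D X Y 3‖ := by ring
      _ ≤ _ := by gcongr
  have key : ξ * (γ * b * (3 / 2 * e₁ - c₀ / 2)) ≤ -(ξ * (γ * (c₀ / 4) * b)) := by
    have h1 : γ * b * (3 / 2 * e₁ - c₀ / 2) ≤ γ * b * (-(c₀ / 4)) := by
      gcongr
      linarith
    calc ξ * (γ * b * (3 / 2 * e₁ - c₀ / 2)) ≤ ξ * (γ * b * (-(c₀ / 4))) := by gcongr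
      _ = _ := by ring
  have hq2 : (1 - π) * (4 * D ^ 2 / b) ≤ 4 * D ^ 2 / b - π * (4 * D ^ 2 / b) := by
    linarith
  have h5 : 0 ≤ π * (4 * D ^ 2 / b) := by positivity
  have h6 : ξ ^ 2 * β * (4 * D ^ 2 / b) ≤ ξ ^ 2 * β * b := by gcongr
  have e5 : 4 * D ^ 2 / b = 2 * (2 * D ^ 2 / b) := by ring
  set X' := 2 * D ^ 2 / b with hX'
  rw [e5] at h5 h6 hx ⊢
  nlinarith

lemma lc_single_one {V : Type*} [AddCommGroup V] [Module ℝ V] (F : Eu d → V) (p : Eu d) :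
    lc F (Finsupp.single p 1) = F p := by simp [lc]

/-- Bound for the weight of a small segment. -/
lemma weight_le (hd : 2 ≤ d) (hG : CovLaw G R₀ v₀ C) (h : FieldLaw P G ψ) {ξ : ℝ} (hξ : 0 ≤ ξ)
    (hξ1 : ξ ≤ 1) {M : ℕ} (hM : 0 < M) {X Y : Eu d} (hXY : X ≠ Y) (hLM : ‖Y - X‖ ≤ M)
    (hL : 8 * (√v₀ / C) ≤ ‖Y - X‖) (hM2 : 2 * ‖Y - X‖ / (√v₀ / C) ≤ M) {ρ : ℝ} (hρ : 0 ≤ ρ)
    (hρ2 : ρ ≤ √v₀ / C / 2) (hL2 : 8 * (R₀ + ρ) ≤ ‖Y - X‖)
    (hσ : 0 < ‖lc G (dT M R₀ X Y)‖) (c : Fin 4) {j : ℕ} (hj : j < 16) {p : Eu d}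
    (hp : p ∈ tube (segPt 16 (pcP R₀ X Y c) (pcQ R₀ X Y c) j)
      (segPt 16 (pcP R₀ X Y c) (pcQ R₀ X Y c) (j + 1)) ρ) :
    ∫⁻ ω, indC M R₀ X Y c (fun x => ψ x ω) * ENNReal.ofReal (Real.exp (ξ * ψ p ω)) ∂P
      ≤ ENNReal.ofReal (wgt (P.real {ω | lc (fun x => ψ x ω) (dT M R₀ X Y) ≤ 0}) ξ
        (gabs / (2 * ‖lc G (dT M R₀ X Y)‖)) ((4 * R₀ + 1) * (C ^ 2 * ρ)) (√v₀ / C * v₀ / 8)
        (quadC v₀.toNNReal) c j) ∧
    0 ≤ wgt (P.real {ω | lc (fun x => ψ x ω) (dT M R₀ X Y) ≤ 0}) ξ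
        (gabs / (2 * ‖lc G (dT M R₀ X Y)‖)) ((4 * R₀ + 1) * (C ^ 2 * ρ)) (√v₀ / C * v₀ / 8)
        (quadC v₀.toNNReal) c j := by
  have hP := h.isProbabilityMeasure
  have hv := hG.v₀_pos
  set σ := ‖lc G (dT M R₀ X Y)‖ with hσdef
  set S : Set Ω := {ω | lc (fun x => ψ x ω) (dT M R₀ X Y) ≤ 0} with hS
  have hSm : MeasurableSet S := measurableSet_le (h.measurable_lc _) measurable_const
  set γ := gabs / (2 * σ) with hγ
  have hγ0 : 0 < γ := div_pos gabs_pos (by positivity)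
  set e₁ := (4 * R₀ + 1) * (C ^ 2 * ρ) with he₁
  set c₀ := √v₀ / C * v₀ / 8 with hc₀
  have hGp : (‖G p‖₊ ^ 2 : ℝ≥0) = v₀.toNNReal := by
    have := hG.norm_sq p
    ext
    rw [Real.coe_toNNReal _ hv.le]
    simpa using this
  -- reduction to a set integral
  have hred : ∀ S' : Set Ω, MeasurableSet S' →
      (∀ ω, indC M R₀ X Y c (fun x => ψ x ω) = S'.indicator (fun _ => (1 : ℝ≥0∞)) ω) →
      ∀ B : ℝ, P.real S' + ξ * (∫ ω in S', ψ p ω ∂P) + ξ ^ 2 * quadC v₀.toNNReal ≤ B →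
      ∫⁻ ω, indC M R₀ X Y c (fun x => ψ x ω) * ENNReal.ofReal (Real.exp (ξ * ψ p ω)) ∂P
        ≤ ENNReal.ofReal B ∧ 0 ≤ B := by
    intro S' hS'm hind B hB
    constructor
    · have e : ∀ ω, indC M R₀ X Y c (fun x => ψ x ω) * ENNReal.ofReal (Real.exp (ξ * ψ p ω))
          = S'.indicator (fun ω => ENNReal.ofReal (Real.exp (ξ * ψ p ω))) ω := by
        intro ω
        rw [hind]
        by_cases hω : ω ∈ S'
        · simp [hω]
        · simp [hω]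
      simp_rw [e]
      rw [lintegral_indicator hS'm]
      have := h.setLIntegral_exp_le hξ hξ1 p hS'm
      rw [hGp] at this
      exact this.trans (ENNReal.ofReal_le_ofReal hB)
    · have := h.bound_nonneg hξ hξ1 p hS'm
      rw [hGp] at this
      linarith
  have hint : ∫ ω in S, ψ p ω ∂P = -(inner ℝ (G p) (lc G (dT M R₀ X Y)) * γ) := by
    have := h.setIntegral_half (dT M R₀ X Y) (Finsupp.single p 1) hσ
    simp only [lc_single_one] at this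
    rw [← hS] at this
    rw [this, hγ, ← hσdef]
    field_simp
  have hint' : ∫ ω in Sᶜ, ψ p ω ∂P = inner ℝ (G p) (lc G (dT M R₀ X Y)) * γ := by
    have := h.setIntegral_half' (dT M R₀ X Y) (Finsupp.single p 1) hσ
    simp only [lc_single_one] at this
    rw [← hS] at this
    rw [this, hγ, ← hσdef]
    field_simp
  have hcompl : P.real Sᶜ = 1 - P.real S := by
    rw [measureReal_compl hSm]
    simp
  have hind0 : c = 0 → ∀ ω, indC M R₀ X Y c (fun x => ψ x ω)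
      = S.indicator (fun _ => (1 : ℝ≥0∞)) ω := by
    intro hc ω
    by_cases hω : ω ∈ S
    · have hω' : lc (fun x => ψ x ω) (dT M R₀ X Y) ≤ 0 := hω
      simp [indC, hc, hω, hω']
    · have hω' : ¬ lc (fun x => ψ x ω) (dT M R₀ X Y) ≤ 0 := hω
      simp [indC, hc, hω, hω']
  have hind1 : c ≠ 0 → ∀ ω, indC M R₀ X Y c (fun x => ψ x ω)
      = Sᶜ.indicator (fun _ => (1 : ℝ≥0∞)) ω := by
    intro hc ω
    by_cases hω : ω ∈ S
    · have hω' : lc (fun x => ψ x ω) (dT M R₀ X Y) ≤ 0 := hω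
      simp [indC, hc, hω, hω']
    · have hω' : ¬ lc (fun x => ψ x ω) (dT M R₀ X Y) ≤ 0 := hω
      simp [indC, hc, hω, hω']
  obtain ⟨θ, hθ, hpθ⟩ := hp
  have hj0 : (0 : ℝ) ≤ j := Nat.cast_nonneg j
  have hj1 : (j : ℝ) + 1 ≤ 16 := by exact_mod_cast hj
  have hθ0 := hθ.1
  have hθ1 := hθ.2
  have h4 : c = 0 ∨ c = 1 ∨ c = 2 ∨ c = 3 := by
    fin_cases c <;> simp
  rcases h4 with rfl | rfl | rfl | rfl
  · -- straight
    rw [seg_straight] at hpθ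
    refine hred S hSm (hind0 rfl) _ ?_
    rw [hint]
    have hcov : -(inner ℝ (G p) (lc G (dT M R₀ X Y)))
        ≤ e₁ - (if 6 ≤ j ∧ j < 10 then c₀ else 0) := by
      split_ifs with hmid
      · have h6 : (6 : ℝ) ≤ j := by exact_mod_cast hmid.1
        have h10 : (j : ℝ) + 1 ≤ 10 := by exact_mod_cast hmid.2
        have := cov_straight_mid hd hG hM hXY hLM (p := p) (α := ((j : ℝ) + θ) / 16) (ρ := ρ)
          ⟨by linarith, by linarith⟩ hL hM2 hρ hρ2 hpθ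
        linarith
      · have := cov_straight hd hG hM hXY hLM (p := p) hρ hpθ
        linarith
    have h5 : -(inner ℝ (G p) (lc G (dT M R₀ X Y)) * γ)
        ≤ γ * (e₁ - (if 6 ≤ j ∧ j < 10 then c₀ else 0)) := by
      calc -(inner ℝ (G p) (lc G (dT M R₀ X Y)) * γ)
          = γ * (-(inner ℝ (G p) (lc G (dT M R₀ X Y)))) := by ring
        _ ≤ _ := by gcongr
    simp only [wgt, if_true]
    gcongr
  · -- first leg
    rw [seg_leg₁] at hpθ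
    refine hred Sᶜ hSm.compl (hind1 (by decide)) _ ?_
    have hcov : inner ℝ (G p) (lc G (dT M R₀ X Y)) = 0 :=
      cov_leg hd hG (α := ((j : ℝ) + θ) / 64) (β := ((j : ℝ) + θ) / 16 * R₀)
        (Or.inl (by linarith)) hL2 hpθ
    rw [hint', hcompl, hcov]
    have h10 : (1 : Fin 4) ≠ 0 := by decide
    have h12 : (1 : Fin 4) ≠ 2 := by decide
    simp only [wgt, if_neg h10, if_neg h12]
    linarith
  · -- flat part
    rw [seg_flat] at hpθ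
    refine hred Sᶜ hSm.compl (hind1 (by decide)) _ ?_
    have hcov : inner ℝ (G p) (lc G (dT M R₀ X Y))
        ≤ e₁ - (if 4 ≤ j ∧ j < 12 then c₀ else 0) := by
      split_ifs with hmid
      · have h6 : (4 : ℝ) ≤ j := by exact_mod_cast hmid.1
        have h10 : (j : ℝ) + 1 ≤ 12 := by exact_mod_cast hmid.2
        exact cov_detour_mid hd hG hM hXY hLM (p := p) (α := 1 / 4 + ((j : ℝ) + θ) / 32) (ρ := ρ)
          ⟨by linarith, by linarith⟩ hL hM2 hρ hρ2 hpθ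
      · have := cov_detour hd hG hM hXY hLM (p := p) hρ hpθ
        linarith
    have h5 : inner ℝ (G p) (lc G (dT M R₀ X Y)) * γ
        ≤ γ * (e₁ - (if 4 ≤ j ∧ j < 12 then c₀ else 0)) := by
      calc inner ℝ (G p) (lc G (dT M R₀ X Y)) * γ
          = γ * inner ℝ (G p) (lc G (dT M R₀ X Y)) := by ring
        _ ≤ _ := by gcongr
    rw [hint', hcompl]
    have h20 : (2 : Fin 4) ≠ 0 := by decide
    simp only [wgt, if_neg h20, if_true]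
    gcongr
  · -- second leg
    rw [seg_leg₃] at hpθ
    refine hred Sᶜ hSm.compl (hind1 (by decide)) _ ?_
    have hcov : inner ℝ (G p) (lc G (dT M R₀ X Y)) = 0 :=
      cov_leg hd hG (α := 3 / 4 + ((j : ℝ) + θ) / 64) (β := (1 - ((j : ℝ) + θ) / 16) * R₀)
        (Or.inr (by linarith)) hL2 hpθ
    rw [hint', hcompl, hcov]
    have h10 : (3 : Fin 4) ≠ 0 := by decide
    have h12 : (3 : Fin 4) ≠ 2 := by decide
    simp only [wgt, if_neg h10, if_neg h12]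
    linarith

/-- The decision test is not degenerate. -/
lemma norm_dT_pos (hd : 2 ≤ d) (hG : CovLaw G R₀ v₀ C) {M : ℕ} (hM : 0 < M) {X Y : Eu d}
    (hXY : X ≠ Y) (hLM : ‖Y - X‖ ≤ M) (hL : 8 * (√v₀ / C) ≤ ‖Y - X‖)
    (hM2 : 2 * ‖Y - X‖ / (√v₀ / C) ≤ M) : 0 < ‖lc G (dT M R₀ X Y)‖ := by
  have hv := hG.v₀_pos
  have hC := hG.C_pos
  have h1 := cov_straight_mid hd hG hM hXY hLM (p := pl X Y (1 / 2) 0) (α := 1 / 2) (ρ := 0)
    ⟨by norm_num, by norm_num⟩ hL hM2 le_rfl (by positivity) (by simp)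
  have h2 : 0 < √v₀ / C * v₀ / 8 := by positivity
  by_contra hcon
  have h3 : lc G (dT M R₀ X Y) = 0 := by
    have := le_antisymm (not_lt.1 hcon) (norm_nonneg _)
    exact norm_eq_zero.1 this
  rw [h3, inner_zero_right] at h1
  simp only [mul_zero, sub_zero] at h1
  linarith

/-- **The gain from one detour, with exact weights.** -/
theorem block_static (hd : 2 ≤ d) (hG : CovLaw G R₀ v₀ C) :
    ∃ ρ q c x₀ : ℝ, 0 < ρ ∧ 1 ≤ q ∧ 0 < c ∧ 0 < x₀ ∧ x₀ ≤ 1 / 2 ∧ ∀ x, 0 < x → x ≤ x₀ →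
      0 < 1 - c * x ^ 4 ∧ 4 * R₀ ≤ q ^ 2 / x ^ 2 ∧ ∃ M : ℕ,
      ∀ (X Y : Eu d), q ^ 2 / x ^ 2 / 2 ≤ ‖Y - X‖ → ‖Y - X‖ ≤ q ^ 2 / x ^ 2 →
      ∀ (P : Measure Ω) (ψ : Eu d → Ω → ℝ), FieldLaw P G ψ → ∃ w : Fin 4 → ℕ → ℝ,
      (∀ c, ∀ j < 16, 0 ≤ w c j) ∧
      (∀ c, ∀ j < 16, ∀ p ∈ tube (segPt 16 (pcP R₀ X Y c) (pcQ R₀ X Y c) j)
        (segPt 16 (pcP R₀ X Y c) (pcQ R₀ X Y c) (j + 1)) ρ,
        ∫⁻ ω, indC M R₀ X Y c (fun x => ψ x ω) * ENNReal.ofReal (Real.exp (x ^ 3 * ψ p ω)) ∂P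
          ≤ ENNReal.ofReal (w c j)) ∧
      ∑ c : Fin 4, ∑ j ∈ Finset.range 16, w c j * (‖pcQ R₀ X Y c - pcP R₀ X Y c‖ / 16)
        ≤ (1 - c * x ^ 4) * ‖Y - X‖ := by
  have hR := hG.R₀_pos
  have hC := hG.C_pos
  have hv := hG.v₀_pos
  have hgp := gabs_pos
  set c₀ := √v₀ / C * v₀ / 8 with hc₀
  have hc₀0 : 0 < c₀ := by positivity
  set ρ := min (√v₀ / C / 2) (c₀ / (6 * ((4 * R₀ + 1) * C ^ 2))) with hρ
  have hρ0 : 0 < ρ := by positivity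
  have hρ2 : ρ ≤ √v₀ / C / 2 := min_le_left _ _
  have he : 6 * ((4 * R₀ + 1) * (C ^ 2 * ρ)) ≤ c₀ := by
    have h1 : ρ ≤ c₀ / (6 * ((4 * R₀ + 1) * C ^ 2)) := min_le_right _ _
    have h2 : 0 < 6 * ((4 * R₀ + 1) * C ^ 2) := by positivity
    rw [le_div_iff₀ h2] at h1
    linarith
  obtain ⟨q, c, x₀, hq, hc, hx₀, hx₀1, hnum⟩ := block_numerics
    (A := gabs * c₀ / (8 * √((2 * R₀ + 1) * C ^ 2))) (D := R₀)
    (a := 8 * (√v₀ / C) + 8 * (R₀ + ρ)) (β := 3 * quadC v₀.toNNReal) (by positivity)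
    (by have := quadC_nonneg v₀.toNNReal; positivity)
  refine ⟨ρ, q, c, x₀, hρ0, hq, hc, hx₀, hx₀1, fun x hx hxx => ?_⟩
  have hlpos : 0 < q ^ 2 / x ^ 2 := by positivity
  have hmax := hnum x hx hxx (q ^ 2 / x ^ 2) (by linarith) le_rfl
  have hrr : 0 < √v₀ / C := by positivity
  refine ⟨hmax.2.1, by linarith [hmax.1], ?_⟩
  set M : ℕ := ⌈q ^ 2 / x ^ 2 + 2 * (q ^ 2 / x ^ 2) / (√v₀ / C)⌉₊ with hM
  have hM1 : q ^ 2 / x ^ 2 + 2 * (q ^ 2 / x ^ 2) / (√v₀ / C) ≤ M := Nat.le_ceil _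
  have hMa : q ^ 2 / x ^ 2 ≤ M := by
    have : 0 ≤ 2 * (q ^ 2 / x ^ 2) / (√v₀ / C) := by positivity
    linarith
  have hMb : 2 * (q ^ 2 / x ^ 2) / (√v₀ / C) ≤ M := by linarith
  have hM0 : 0 < M := by
    have : (0 : ℝ) < M := by linarith
    exact_mod_cast this
  refine ⟨M, fun X Y hb1 hb2 P ψ hψ => ?_⟩
  obtain ⟨h1, h2, h3⟩ := hnum x hx hxx ‖Y - X‖ hb1 hb2
  have hP := hψ.isProbabilityMeasure
  have hL0 : 0 < ‖Y - X‖ := by linarith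
  have hXY : X ≠ Y := by
    rintro rfl
    simp at hL0
  have hx3 : x ^ 3 ≤ 1 / 8 := by
    calc x ^ 3 ≤ (1 / 2) ^ 3 := pow_le_pow_left₀ hx.le (hxx.trans hx₀1) 3
      _ = 1 / 8 := by norm_num
  have hLM : ‖Y - X‖ ≤ M := hb2.trans hMa
  have hL8 : 8 * (√v₀ / C) ≤ ‖Y - X‖ := by linarith
  have hM2 : 2 * ‖Y - X‖ / (√v₀ / C) ≤ M := by
    refine le_trans ?_ hMb
    gcongr
  have hL2 : 8 * (R₀ + ρ) ≤ ‖Y - X‖ := by linarith
  have hσ := norm_dT_pos hd hG hM0 hXY hLM hL8 hM2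
  set σ := ‖lc G (dT M R₀ X Y)‖ with hσdef
  set π := P.real {ω | lc (fun x => ψ x ω) (dT M R₀ X Y) ≤ 0} with hπ
  set e₁ := (4 * R₀ + 1) * (C ^ 2 * ρ) with he₁
  refine ⟨fun c j => wgt π (x ^ 3) (gabs / (2 * σ)) e₁ c₀ (quadC v₀.toNNReal) c j,
    fun c j hj => ?_, fun c j hj p hp => ?_, ?_⟩
  · have hmem : segPt 16 (pcP R₀ X Y c) (pcQ R₀ X Y c) j
        ∈ tube (segPt 16 (pcP R₀ X Y c) (pcQ R₀ X Y c) j)
        (segPt 16 (pcP R₀ X Y c) (pcQ R₀ X Y c) (j + 1)) ρ :=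
      ⟨0, ⟨le_rfl, zero_le_one⟩, by simp [hρ0.le]⟩
    exact (weight_le hd hG hψ (by positivity) (by linarith) hM0 hXY hLM hL8 hM2 hρ0.le hρ2 hL2 hσ
      c hj hmem).2
  · exact (weight_le hd hG hψ (by positivity) (by linarith) hM0 hXY hLM hL8 hM2 hρ0.le hρ2 hL2 hσ
      c hj hp).1
  · refine (sum_wgt hd (D := R₀) measureReal_nonneg measureReal_le_one (by positivity)
      (by positivity) (quadC_nonneg _) he hXY (by linarith) hR).trans ?_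
    refine le_trans ?_ h3
    have hσle := norm_dT_le hG (M := M) hM0 hXY hLM
    rw [← hσdef] at hσle
    have hs : √((2 * R₀ + 1) * C ^ 2 * ‖Y - X‖) = √((2 * R₀ + 1) * C ^ 2) * √‖Y - X‖ :=
      Real.sqrt_mul (by positivity) _
    rw [hs] at hσle
    set s := √((2 * R₀ + 1) * C ^ 2) with hsdef
    have hs0 : 0 < s := by positivity
    set t := √‖Y - X‖ with ht
    have ht0 : 0 < t := by positivity
    have htt : ‖Y - X‖ = t * t := (Real.mul_self_sqrt hL0.le).symm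
    have hgain : gabs * c₀ / (8 * s) * t ≤ gabs / (2 * σ) * (c₀ / 4) * ‖Y - X‖ := by
      calc gabs * c₀ / (8 * s) * t = gabs / (2 * (s * t)) * (c₀ / 4) * (t * t) := by
            field_simp; norm_num
        _ ≤ gabs / (2 * σ) * (c₀ / 4) * (t * t) := by gcongr
        _ = _ := by rw [htt]
    have hg2 : x ^ 3 * (gabs * c₀ / (8 * s) * t)
        ≤ x ^ 3 * (gabs / (2 * σ) * (c₀ / 4) * ‖Y - X‖) := by gcongr
    linarith

end Pool.Agent.Lib_MP_71c74a_pr
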