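import Pool.Agent.Lib_MP_71c74a_pr.Chaining
import Pool.Agent.Lib_MP_71c74a_pr.PolyPath

/-!
# The one-level estimate for a chain of points
-/

open MeasureTheory Set
open scoped Topology

namespace Pool.Agent.Lib_MP_71c74a_pr

variable {E : Type*} [NormedAddCommGroup E] [InnerProductSpace ℝ E]

lemma sqrt_add_le' {a b : ℝ} (ha : 0 ≤ a) (hb : 0 ≤ b) : √(a + b) ≤ √a + √b := by
  apply Real.sqrt_le_iff.2
  refine ⟨by positivity, ?_⟩
  have h1 := Real.sq_sqrt ha
  have h2 := Real.sq_sqrt hb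
  nlinarith [Real.sqrt_nonneg a, Real.sqrt_nonneg b, mul_nonneg (Real.sqrt_nonneg a)
    (Real.sqrt_nonneg b)]

lemma qr_add_le {a b : ℝ} (ha : 0 ≤ a) (hb : 0 ≤ b) : qr (a + b) ≤ qr a + qr b := by
  unfold qr
  exact (Real.sqrt_le_sqrt (sqrt_add_le' ha hb)).trans
    (sqrt_add_le' (Real.sqrt_nonneg a) (Real.sqrt_nonneg b))

lemma qr_two_mul_le {a : ℝ} (ha : 0 ≤ a) : qr (2 * a) ≤ 2 * qr a := by
  rw [two_mul, two_mul]
  exact qr_add_le ha ha

lemma sqrt_inv_le_qr {R : ℝ} (hR : 1 ≤ R) : 1 / √R ≤ qr (1 / R) := by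
  have h : 1 / √R = √(1 / R) := by rw [Real.sqrt_div zero_le_one, Real.sqrt_one]
  rw [h]
  refine le_qr_of_le_one ?_
  rw [div_le_one (by linarith)]
  exact hR

/-- Step 0: replacing the endpoint. -/
lemma abs_segAvg_endpoint {φ : E → ℝ} {s R Y r' : ℝ} {z' x y w : E} (hs : 0 < s)
    (hg : Good φ s R z' Y) (hR : 4 ≤ R) (hr' : 0 < r')
    (hx : x ∈ Metric.closedBall z' (4 * R ^ 2 * s)) (hy : y ∈ Metric.closedBall z' (4 * R ^ 2 * s))
    (hw : w ∈ Metric.closedBall z' (4 * R ^ 2 * s)) (hxy : ‖x - y‖ = R * r')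
    (hyw : ‖w - y‖ ≤ r') :
    |segAvg φ x w - segAvg φ x y| ≤ 5 * Y * qr (1 / R) := by
  have hY := hg.nonneg
  have hR0 : 0 < R := by linarith
  have hq := sqrt_inv_le_qr (R := R) (by linarith)
  have hq0 := qr_nonneg (1 / R)
  have hsR : 0 < √R := Real.sqrt_pos.2 hR0
  have hsR2 : √R * √R = R := Real.mul_self_sqrt hR0.le
  have hsR1 : 2 ≤ √R := by
    rw [show (2 : ℝ) = √4 by rw [show (4 : ℝ) = 2 ^ 2 by norm_num, Real.sqrt_sq (by norm_num)]]
    exact Real.sqrt_le_sqrt hR
  rcases le_or_gt (√R * r') s with h | h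
  · -- coarse field: Lipschitz
    have h1 : r' / s ≤ 1 / √R := by
      rw [div_le_div_iff₀ hs hsR]
      linarith
    have h2 : r' ≤ s := by nlinarith
    have hconv : Convex ℝ (Metric.closedBall z' (4 * R ^ 2 * s)) := convex_closedBall _ _
    have : |segAvg φ x w - segAvg φ x y| ≤ Y * (1 / √R) := by
      refine abs_segAvg_sub_le hg.cont fun θ hθ => ?_
      have e : (x + θ • (w - x)) - (x + θ • (y - x)) = θ • (w - y) := by module
      have hn : ‖(x + θ • (w - x)) - (x + θ • (y - x))‖ ≤ r' := by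
        rw [e, norm_smul, Real.norm_of_nonneg hθ.1]
        exact (mul_le_of_le_one_left (norm_nonneg _) hθ.2).trans hyw
      refine (hg.lip _ (hconv.add_smul_sub_mem hx hw hθ) _ (hconv.add_smul_sub_mem hx hy hθ)
        (hn.trans h2)).trans ?_
      apply mul_le_mul_of_nonneg_left _ hY
      refine le_trans ?_ h1
      gcongr
    nlinarith [mul_le_mul_of_nonneg_left hq hY, mul_nonneg hY hq0]
  · -- fine field: both averages are small
    have hxw : R * r' / 2 ≤ ‖x - w‖ := by
      have := norm_sub_norm_le (x - y) (w - y)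
      have e : (x - y) - (w - y) = x - w := by abel
      rw [e, hxy] at this
      nlinarith
    have hsr : s ≤ R * r' / 2 := by nlinarith
    have hA1 := hg.avg x hx w hw (hsr.trans hxw)
    have hA2 := hg.avg x hx y hy (by rw [hxy]; nlinarith)
    have hq2 : qr (1 / R) = √(1 / √R) := by
      unfold qr
      rw [Real.sqrt_div zero_le_one, Real.sqrt_one]
    have b2 : √(s / ‖x - y‖) ≤ qr (1 / R) := by
      rw [hq2]
      apply Real.sqrt_le_sqrt
      rw [hxy, div_le_div_iff₀ (by positivity) hsR]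
      nlinarith
    have b1 : √(s / ‖x - w‖) ≤ 2 * qr (1 / R) := by
      have : √(s / ‖x - w‖) ≤ √(4 * (1 / √R)) := by
        apply Real.sqrt_le_sqrt
        rw [div_le_iff₀ (by nlinarith [mul_pos hR0 hr'])]
        have h3 : 1 / √R * ‖x - w‖ ≥ 1 / √R * (R * r' / 2) := by gcongr
        have h4 : 1 / √R * (R * r' / 2) = √R * r' / 2 := by
          field_simp
          nlinarith
        nlinarith
      refine this.trans (le_of_eq ?_)
      rw [hq2, Real.sqrt_mul (by norm_num), show √(4 : ℝ) = 2 by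
        rw [show (4 : ℝ) = 2 ^ 2 by norm_num, Real.sqrt_sq (by norm_num)]]
    have := abs_sub (segAvg φ x w) (segAvg φ x y)
    have c1 : Y * (√(s / ‖x - w‖) + 1 / √R) ≤ Y * (2 * qr (1 / R) + qr (1 / R)) := by gcongr
    have c2 : Y * (√(s / ‖x - y‖) + 1 / √R) ≤ Y * (qr (1 / R) + qr (1 / R)) := by gcongr
    linarith

/-- The chain estimate for one field. -/
lemma chain_field {φ : E → ℝ} {s R Y r' : ℝ} {z' y : E} {k m : ℕ} {z : ℕ → E} (hk : 2 ≤ k)
    (hRk : R = 2 ^ k) (hs : 0 < s) (hg : Good φ s R z' Y) (hr' : 0 < r')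
    (hstep : ∀ a < m, ‖z (a + 1) - z a‖ = r')
    (hz : ∀ a ≤ m, z a ∈ Metric.closedBall z' (4 * R ^ 2 * s))
    (hy : y ∈ Metric.closedBall z' (4 * R ^ 2 * s)) (hm : R ≤ m)
    (hzy : ‖z 0 - y‖ = R * r') (hmy : ‖z m - y‖ ≤ r') (hmid : r' ≤ R * s) :
    |(∑ a ∈ Finset.range m, segAvg φ (z a) (z (a + 1))) / m - segAvg φ (z 0) y|
      ≤ 70 * k * Y * (qr (Real.log (m / R)) + qr (1 / R)) := by
  have hY := hg.nonneg
  have hR4 : 4 ≤ R := by
    rw [hRk]
    calc (4 : ℝ) = 2 ^ 2 := by norm_num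
      _ ≤ 2 ^ k := pow_le_pow_right₀ (by norm_num) hk
  have hR0 : 0 < R := by linarith
  have hm0 : (0 : ℝ) < m := by linarith
  have hmpos : 0 < m := by exact_mod_cast hm0
  have hk' : (2 : ℝ) ≤ k := by exact_mod_cast hk
  have hconv : Convex ℝ (Metric.closedBall z' (4 * R ^ 2 * s)) := convex_closedBall _ _
  set e := Real.log (m / R) with he
  have hmR : 1 ≤ m / R := by rwa [one_le_div hR0]
  have he0 : 0 ≤ e := Real.log_nonneg hmR
  have hqe := qr_nonneg e
  have hqR := qr_nonneg (1 / R)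
  rcases lt_or_ge (2 * R) m with hbig | hsmall
  · -- very long chain: trivial bound
    have h1 : |(∑ a ∈ Finset.range m, segAvg φ (z a) (z (a + 1))) / m| ≤ Y := by
      rw [abs_div, abs_of_pos hm0, div_le_iff₀ hm0]
      refine (Finset.abs_sum_le_sum_abs _ _).trans ?_
      calc ∑ a ∈ Finset.range m, |segAvg φ (z a) (z (a + 1))|
          ≤ ∑ a ∈ Finset.range m, Y := by
            refine Finset.sum_le_sum fun a ha => ?_
            have ha' := Finset.mem_range.1 ha
            exact abs_segAvg_le fun θ hθ => hg.bdd _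
              (hconv.add_smul_sub_mem (hz a ha'.le) (hz (a + 1) ha') hθ)
        _ = Y * m := by simp [mul_comm]
    have h2 : |segAvg φ (z 0) y| ≤ Y := abs_segAvg_le fun θ hθ => hg.bdd _
      (hconv.add_smul_sub_mem (hz 0 (Nat.zero_le _)) hy hθ)
    have h3 : 1 / 2 ≤ qr e := by
      apply half_le_qr
      rw [he]
      have : Real.log 2 ≤ Real.log (m / R) := by
        apply Real.log_le_log (by norm_num)
        rw [le_div_iff₀ hR0]; linarith
      have := Real.log_two_gt_d9
      linarith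
    have h4 := abs_sub ((∑ a ∈ Finset.range m, segAvg φ (z a) (z (a + 1))) / m)
      (segAvg φ (z 0) y)
    have h5 : 2 * Y ≤ 70 * k * Y * qr e := by
      have : 2 * Y ≤ 4 * Y * qr e := by nlinarith
      have : 4 * Y * qr e ≤ 70 * k * Y * qr e := by
        have : (4 : ℝ) ≤ 70 * k := by linarith
        gcongr
      linarith
    have h6 : 0 ≤ 70 * k * Y * qr (1 / R) := by positivity
    linarith
  · -- comparable length
    set Λ := m * r' with hΛdef
    have hΛ : 0 < Λ := by positivity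
    have hZ : ∀ τ ∈ Icc (0 : ℝ) 1,
        polyPath z m τ ∈ Metric.closedBall z' (4 * R ^ 2 * s) :=
      fun τ hτ => polyPath_mem hconv z hmpos hz hτ
    have hL : LipOn (polyPath z m) Λ 0 1 := fun τ _ τ' _ =>
      polyPath_lip z m (fun a ha => (hstep a ha).le) hr'.le τ τ'
    set q := 4 * k + 1 with hq
    have h2q : (2 : ℝ) ^ q = 2 * R ^ 4 := by
      rw [hq, hRk, pow_succ, ← pow_mul, mul_comm k 4]; ring
    have hsm : Λ * (1 - 0) / 2 ^ q ≤ s / R ^ 2 := by
      rw [h2q, sub_zero, mul_one, div_le_div_iff₀ (by positivity) (by positivity), hΛdef]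
      calc m * r' * R ^ 2 ≤ (2 * R) * (R * s) * R ^ 2 := by gcongr
        _ = s * (2 * R ^ 4) := by ring
    have hsR : s / R ^ 2 ≤ s := by
      rw [div_le_iff₀ (by positivity)]
      nlinarith [sq_nonneg (R - 1)]
    have h1 := dyAvg_approx hs hg hΛ (continuous_polyPath z m) q (α := 0) (β := 1)
      one_pos hL hZ (hsm.trans hsR)
    have h2 := dyAvg_total hs hg hΛ q (α := 0) (β := 1) one_pos hL hZ
    rw [integral_polyPath hg.cont z hmpos] at h1
    rw [polyPath_zero, polyPath_one] at h2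
    simp only [sub_zero, mul_one, div_one] at h1 h2 hsm
    have h3 := abs_segAvg_endpoint hs hg hR4 hr' (hz 0 (Nat.zero_le _)) hy (hz m le_rfl) hzy hmy
    -- bound on the energy
    have hη : 1 - ‖z 0 - z m‖ ^ 2 / Λ ^ 2 ≤ 2 * e + 2 * (1 / R) := by
      have h4 : (R - 1) * r' ≤ ‖z 0 - z m‖ := by
        have := norm_sub_norm_le (z 0 - y) (z m - y)
        have e1 : (z 0 - y) - (z m - y) = z 0 - z m := by abel
        rw [e1, hzy] at this
        linarith
      have h5 : ((R - 1) / m) ^ 2 ≤ ‖z 0 - z m‖ ^ 2 / Λ ^ 2 := by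
        rw [← div_pow]
        have : 0 ≤ (R - 1) / m := div_nonneg (by linarith) hm0.le
        apply pow_le_pow_left₀ this
        rw [hΛdef, div_le_div_iff₀ hm0 (by positivity)]
        calc (R - 1) * (m * r') = ((R - 1) * r') * m := by ring
          _ ≤ ‖z 0 - z m‖ * m := by gcongr
      have h6 : ((R - 1) / m) ^ 2 = (1 - 1 / R) ^ 2 * Real.exp (-(2 * e)) := by
        have : Real.exp (-(2 * e)) = (R / m) ^ 2 := by
          rw [he, Real.exp_neg, two_mul, Real.exp_add, Real.exp_log (by positivity)]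
          field_simp
        rw [this]
        field_simp
      have h7 : 1 - 2 * e ≤ Real.exp (-(2 * e)) := by
        have := Real.add_one_le_exp (-(2 * e))
        linarith
      have h8 : 1 - 2 * (1 / R) ≤ (1 - 1 / R) ^ 2 := by
        have e9 : (1 - 1 / R) ^ 2 = 1 - 2 * (1 / R) + (1 / R) ^ 2 := by ring
        rw [e9]; linarith only [sq_nonneg (1 / R)]
      have h9 : 0 ≤ 1 - 2 * (1 / R) := by
        have : 1 / R ≤ 1 / 4 := by gcongr
        linarith
      have h10 : (1 - 2 * (1 / R)) * (1 - 2 * e) ≤ (1 - 1 / R) ^ 2 * Real.exp (-(2 * e)) := by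
        calc (1 - 2 * (1 / R)) * (1 - 2 * e)
            ≤ (1 - 2 * (1 / R)) * Real.exp (-(2 * e)) := by gcongr
          _ ≤ _ := by gcongr
      have h11 : 0 ≤ (2 * (1 / R)) * (2 * e) := by positivity
      rw [h6] at h5
      have e9 : (1 - 2 * (1 / R)) * (1 - 2 * e)
          = 1 - 2 * e - 2 * (1 / R) + (2 * (1 / R)) * (2 * e) := by ring
      rw [e9] at h10
      linarith only [h5, h10, h11]
    have hqη : qr (1 - ‖z 0 - z m‖ ^ 2 / Λ ^ 2) ≤ 2 * qr e + 2 * qr (1 / R) := by
      refine (qr_mono hη).trans ?_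
      refine (qr_add_le (by positivity) (by positivity)).trans ?_
      exact add_le_add (qr_two_mul_le he0) (qr_two_mul_le (by positivity))
    have hsq := sqrt_inv_le_qr (R := R) (by linarith)
    have h4 : (q : ℝ) * (4 * Y * (qr (1 - ‖z 0 - z m‖ ^ 2 / Λ ^ 2) + 1 / √R))
        ≤ (5 * k) * (4 * Y * (2 * qr e + 3 * qr (1 / R))) := by
      have hq' : (q : ℝ) ≤ 5 * k := by
        rw [hq]; push_cast; linarith
      have : qr (1 - ‖z 0 - z m‖ ^ 2 / Λ ^ 2) + 1 / √R ≤ 2 * qr e + 3 * qr (1 / R) := by linarith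
      have h0 : 0 ≤ qr (1 - ‖z 0 - z m‖ ^ 2 / Λ ^ 2) + 1 / √R := by
        have := qr_nonneg (1 - ‖z 0 - z m‖ ^ 2 / Λ ^ 2)
        positivity
      gcongr
    have h5 : 2 * Y * (Λ / 2 ^ q / s) ≤ 2 * Y * qr (1 / R) := by
      apply mul_le_mul_of_nonneg_left _ (by positivity)
      have : Λ / 2 ^ q / s ≤ 1 / R ^ 2 := by
        rw [div_le_iff₀ hs]
        calc Λ / 2 ^ q ≤ s / R ^ 2 := hsm
          _ = 1 / R ^ 2 * s := by ring
      refine this.trans (le_trans ?_ hsq)
      apply one_div_le_one_div_of_le (Real.sqrt_pos.2 hR0)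
      have hR1 : 1 ≤ R := by linarith
      have hRR : R ≤ R ^ 2 := by
        have e9 : R ^ 2 = R * R := sq R
        rw [e9]; exact le_mul_of_one_le_left hR0.le hR1
      have : √R ≤ R := by
        rw [Real.sqrt_le_left hR0.le]
        exact hRR
      exact this.trans hRR
    have hsum : |(∑ a ∈ Finset.range m, segAvg φ (z a) (z (a + 1))) / m - segAvg φ (z 0) y|
        ≤ |dyAvg φ (polyPath z m) q 0 1
            - (∑ a ∈ Finset.range m, segAvg φ (z a) (z (a + 1))) / m|
          + |dyAvg φ (polyPath z m) q 0 1 - segAvg φ (z 0) (z m)|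
          + |segAvg φ (z 0) (z m) - segAvg φ (z 0) y| := by
      have a1 := abs_sub_le ((∑ a ∈ Finset.range m, segAvg φ (z a) (z (a + 1))) / m)
        (dyAvg φ (polyPath z m) q 0 1) (segAvg φ (z 0) y)
      have a2 := abs_sub_le (dyAvg φ (polyPath z m) q 0 1) (segAvg φ (z 0) (z m))
        (segAvg φ (z 0) y)
      rw [abs_sub_comm ((∑ a ∈ Finset.range m, segAvg φ (z a) (z (a + 1))) / m)
        (dyAvg φ (polyPath z m) q 0 1)] at a1
      linarith
    have h6 : 7 * Y * qr (1 / R) ≤ 10 * k * Y * qr (1 / R) := by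
      have : (7 : ℝ) ≤ 10 * k := by linarith
      gcongr
    have h7 : 0 ≤ k * Y * qr e := by positivity
    linarith

end Pool.Agent.Lib_MP_71c74a_pr
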