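import Mathlib

/-!
# Averages of a field along segments
-/

open MeasureTheory Set
open scoped Topology

namespace Pool.Agent.Lib_MP_71c74a_pr

variable {E : Type*} [NormedAddCommGroup E] [InnerProductSpace ℝ E]

/-- The average of `φ` along the segment from `x` to `y`. -/
noncomputable def segAvg (φ : E → ℝ) (x y : E) : ℝ :=
  ∫ θ in (0 : ℝ)..1, φ (x + θ • (y - x))

lemma continuous_seg {φ : E → ℝ} (hφ : Continuous φ) (x y : E) :
    Continuous fun θ : ℝ => φ (x + θ • (y - x)) := by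
  fun_prop

lemma segAvg_add {φ ψ : E → ℝ} (hφ : Continuous φ) (hψ : Continuous ψ) (x y : E) :
    segAvg (fun z => φ z + ψ z) x y = segAvg φ x y + segAvg ψ x y := by
  unfold segAvg
  exact intervalIntegral.integral_add ((continuous_seg hφ x y).intervalIntegrable _ _)
    ((continuous_seg hψ x y).intervalIntegrable _ _)

/-- Splitting at the midpoint. -/
lemma segAvg_split {φ : E → ℝ} (hφ : Continuous φ) (x y : E) :
    segAvg φ x y = (segAvg φ x (midpoint ℝ x y) + segAvg φ (midpoint ℝ x y) y) / 2 := by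
  have hint : ∀ a b : ℝ, IntervalIntegrable (fun θ : ℝ => φ (x + θ • (y - x))) volume a b :=
    fun a b => (continuous_seg hφ x y).intervalIntegrable a b
  have h1 : segAvg φ x (midpoint ℝ x y) = 2 * ∫ θ in (0 : ℝ)..(1 / 2), φ (x + θ • (y - x)) := by
    have := intervalIntegral.integral_comp_mul_left (a := 0) (b := 1)
      (fun θ : ℝ => φ (x + θ • (y - x))) (c := (1 / 2 : ℝ)) (by norm_num)
    unfold segAvg
    have e : ∀ θ : ℝ, x + θ • (midpoint ℝ x y - x) = x + ((1 / 2 : ℝ) * θ) • (y - x) := by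
      intro θ
      rw [midpoint_sub_left, smul_smul]
      congr 2
      simp only [invOf_eq_inv]
      ring
    simp_rw [e]
    rw [this]
    norm_num
  have h2 : segAvg φ (midpoint ℝ x y) y = 2 * ∫ θ in (1 / 2 : ℝ)..1, φ (x + θ • (y - x)) := by
    have := intervalIntegral.integral_comp_mul_add (a := 0) (b := 1)
      (fun θ : ℝ => φ (x + θ • (y - x))) (c := (1 / 2 : ℝ)) (by norm_num) (1 / 2)
    unfold segAvg
    have e : ∀ θ : ℝ, midpoint ℝ x y + θ • (y - midpoint ℝ x y)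
        = x + ((1 / 2 : ℝ) * θ + 1 / 2) • (y - x) := by
      intro θ
      rw [right_sub_midpoint, midpoint_eq_smul_add, smul_smul]
      simp only [invOf_eq_inv]
      module
    simp_rw [e]
    rw [this]
    norm_num
  rw [h1, h2]
  have h3 := intervalIntegral.integral_add_adjacent_intervals (hint 0 (1 / 2)) (hint (1 / 2) 1)
  unfold segAvg
  rw [← h3]
  ring

lemma abs_integral_unit_le {f : ℝ → ℝ} {C : ℝ} (h : ∀ θ ∈ Icc (0 : ℝ) 1, |f θ| ≤ C) :
    |∫ θ in (0 : ℝ)..1, f θ| ≤ C := by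
  have := intervalIntegral.norm_integral_le_of_norm_le_const (a := 0) (b := 1) (f := f) (C := C)
    (fun θ hθ => by
      rw [uIoc_of_le zero_le_one] at hθ
      exact h θ ⟨hθ.1.le, hθ.2⟩)
  simpa using this

/-- A crude bound for a segment average. -/
lemma abs_segAvg_le {φ : E → ℝ} {x y : E} {C : ℝ}
    (h : ∀ θ ∈ Icc (0 : ℝ) 1, |φ (x + θ • (y - x))| ≤ C) : |segAvg φ x y| ≤ C :=
  abs_integral_unit_le h

/-- Comparing two segment averages. -/
lemma abs_segAvg_sub_le {φ : E → ℝ} (hφ : Continuous φ) {x y x' y' : E} {C : ℝ}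
    (h : ∀ θ ∈ Icc (0 : ℝ) 1, |φ (x + θ • (y - x)) - φ (x' + θ • (y' - x'))| ≤ C) :
    |segAvg φ x y - segAvg φ x' y'| ≤ C := by
  unfold segAvg
  rw [← intervalIntegral.integral_sub ((continuous_seg hφ x y).intervalIntegrable _ _)
    ((continuous_seg hφ x' y').intervalIntegrable _ _)]
  exact abs_integral_unit_le h

/-- The field `φ` of scale `s` is good with constant `Y` near `z`. -/
structure Good (φ : E → ℝ) (s R : ℝ) (z : E) (Y : ℝ) : Prop where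
  cont : Continuous φ
  nonneg : 0 ≤ Y
  lip : ∀ x ∈ Metric.closedBall z (4 * R ^ 2 * s), ∀ y ∈ Metric.closedBall z (4 * R ^ 2 * s),
    ‖x - y‖ ≤ s → |φ x - φ y| ≤ Y * (‖x - y‖ / s)
  bdd : ∀ x ∈ Metric.closedBall z (4 * R ^ 2 * s), |φ x| ≤ Y
  avg : ∀ x ∈ Metric.closedBall z (4 * R ^ 2 * s), ∀ y ∈ Metric.closedBall z (4 * R ^ 2 * s),
    s ≤ ‖x - y‖ → |segAvg φ x y| ≤ Y * (√(s / ‖x - y‖) + 1 / √R)
  brk : ∀ x ∈ Metric.closedBall z (4 * R ^ 2 * s), ∀ w ∈ Metric.closedBall z (4 * R ^ 2 * s),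
    ∀ y ∈ Metric.closedBall z (4 * R ^ 2 * s), s ≤ ‖x - y‖ →
    |(segAvg φ x w + segAvg φ w y) / 2 - segAvg φ x y|
      ≤ Y * (√(‖w - midpoint ℝ x y‖ / ‖x - y‖) + 1 / √R)

/-- The parallelogram law around a midpoint. -/
lemma parallelogram_midpoint (x w y : E) :
    ‖x - w‖ ^ 2 + ‖w - y‖ ^ 2 = ‖x - y‖ ^ 2 / 2 + 2 * ‖w - midpoint ℝ x y‖ ^ 2 := by
  have h := parallelogram_law_with_norm ℝ (w - x) (w - y)
  have h1 : (w - x) + (w - y) = (2 : ℝ) • (w - midpoint ℝ x y) := by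
    rw [midpoint_eq_smul_add]
    simp only [invOf_eq_inv]
    module
  have h2 : (w - x) - (w - y) = -(x - y) := by abel
  rw [h1, h2, norm_neg, norm_smul] at h
  rw [norm_sub_rev x w]
  have : ‖(2 : ℝ)‖ = 2 := by norm_num
  rw [this] at h
  nlinarith [h]

/-- Fourth root. -/
noncomputable def qr (x : ℝ) : ℝ := √(√x)

lemma qr_nonneg (x : ℝ) : 0 ≤ qr x := Real.sqrt_nonneg _

lemma qr_mono {x y : ℝ} (h : x ≤ y) : qr x ≤ qr y := Real.sqrt_le_sqrt (Real.sqrt_le_sqrt h)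

lemma sqrt_concave {a b : ℝ} (ha : 0 ≤ a) (hb : 0 ≤ b) : (√a + √b) / 2 ≤ √((a + b) / 2) := by
  apply Real.le_sqrt_of_sq_le
  have h1 := Real.sq_sqrt ha
  have h2 := Real.sq_sqrt hb
  nlinarith [sq_nonneg (√a - √b)]

lemma qr_concave {a b : ℝ} (ha : 0 ≤ a) (hb : 0 ≤ b) : (qr a + qr b) / 2 ≤ qr ((a + b) / 2) := by
  unfold qr
  exact (sqrt_concave (Real.sqrt_nonneg a) (Real.sqrt_nonneg b)).trans
    (Real.sqrt_le_sqrt (sqrt_concave ha hb))

lemma le_qr_of_le_one {x : ℝ} (h1 : x ≤ 1) : √x ≤ qr x := by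
  unfold qr
  apply Real.le_sqrt_of_sq_le
  have h2 : √x ≤ 1 := Real.sqrt_le_one.2 h1
  have h3 := Real.sqrt_nonneg x
  nlinarith

lemma half_le_qr {x : ℝ} (h : 1 / 2 ≤ x) : 1 / 2 ≤ qr x := by
  unfold qr
  apply Real.le_sqrt_of_sq_le
  apply Real.le_sqrt_of_sq_le
  norm_num
  linarith

/-- `Z` is Lipschitz with constant `Λ` on `[α, β]`. -/
def LipOn (Z : ℝ → E) (Λ α β : ℝ) : Prop :=
  ∀ τ ∈ Icc α β, ∀ τ' ∈ Icc α β, ‖Z τ - Z τ'‖ ≤ Λ * |τ - τ'|

omit [InnerProductSpace ℝ E] in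
lemma LipOn.mono {Z : ℝ → E} {Λ α β α' β' : ℝ} (h : LipOn Z Λ α β) (h1 : α ≤ α') (h2 : β' ≤ β) :
    LipOn Z Λ α' β' := fun τ hτ τ' hτ' =>
  h τ ⟨h1.trans hτ.1, hτ.2.trans h2⟩ τ' ⟨h1.trans hτ'.1, hτ'.2.trans h2⟩

end Pool.Agent.Lib_MP_71c74a_pr
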