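import Pool.Agent.Lib_MP_71c74a_pr.ChainBase

/-!
# Averages of a field along segments and along Lipschitz curves

Deterministic chaining estimates used in the lower bound for distances.
-/

open MeasureTheory Set
open scoped Topology

namespace Pool.Agent.Lib_MP_71c74a_pr

variable {E : Type*} [NormedAddCommGroup E] [InnerProductSpace ℝ E]

/-- The basic chaining step. -/
lemma abs_brk_le {φ : E → ℝ} {s R Y : ℝ} {z : E} (hs : 0 < s) (hg : Good φ s R z Y)
    {x w y : E} (hx : x ∈ Metric.closedBall z (4 * R ^ 2 * s))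
    (hw : w ∈ Metric.closedBall z (4 * R ^ 2 * s)) (hy : y ∈ Metric.closedBall z (4 * R ^ 2 * s))
    {b : ℝ} (hb : 0 < b) (h1 : ‖x - w‖ ≤ b) (h2 : ‖w - y‖ ≤ b) :
    |(segAvg φ x w + segAvg φ w y) / 2 - segAvg φ x y|
      ≤ 4 * Y * (qr (1 - ‖x - y‖ ^ 2 / (2 * b) ^ 2) + 1 / √R) := by
  have hY := hg.nonneg
  have hR : 0 ≤ 1 / √R := by positivity
  set η := 1 - ‖x - y‖ ^ 2 / (2 * b) ^ 2 with hη
  have hq := qr_nonneg η
  have hconv : Convex ℝ (Metric.closedBall z (4 * R ^ 2 * s)) := convex_closedBall _ _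
  have hseg : ∀ {p q : E}, p ∈ Metric.closedBall z (4 * R ^ 2 * s) →
      q ∈ Metric.closedBall z (4 * R ^ 2 * s) → ∀ θ ∈ Icc (0 : ℝ) 1,
      p + θ • (q - p) ∈ Metric.closedBall z (4 * R ^ 2 * s) := by
    intro p q hp hq θ hθ
    exact hconv.add_smul_sub_mem hp hq hθ
  have hpar := parallelogram_midpoint x w y
  have hδ : ‖w - midpoint ℝ x y‖ ^ 2 ≤ b ^ 2 * η := by
    have e : b ^ 2 * η = b ^ 2 - ‖x - y‖ ^ 2 / 4 := by
      rw [hη]; field_simp; ring
    rw [e]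
    have n1 := norm_nonneg (x - w)
    have n2 := norm_nonneg (w - y)
    nlinarith
  have hη0 : 0 ≤ η := by
    by_contra hneg
    push Not at hneg
    have : b ^ 2 * η < 0 := mul_neg_of_pos_of_neg (by positivity) hneg
    have := sq_nonneg ‖w - midpoint ℝ x y‖
    linarith
  have hη1 : η ≤ 1 := by
    rw [hη]
    have : 0 ≤ ‖x - y‖ ^ 2 / (2 * b) ^ 2 := by positivity
    linarith
  rcases lt_or_ge (1 / 2) η with hbig | hsmall
  · -- trivial bound
    have hA1 : |segAvg φ x w| ≤ Y := abs_segAvg_le fun θ hθ => hg.bdd _ (hseg hx hw θ hθ)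
    have hA2 : |segAvg φ w y| ≤ Y := abs_segAvg_le fun θ hθ => hg.bdd _ (hseg hw hy θ hθ)
    have hA3 : |segAvg φ x y| ≤ Y := abs_segAvg_le fun θ hθ => hg.bdd _ (hseg hx hy θ hθ)
    have h4 := half_le_qr hbig.le
    have : |(segAvg φ x w + segAvg φ w y) / 2 - segAvg φ x y| ≤ 2 * Y := by
      rw [abs_le] at *
      constructor <;> linarith [hA1.1, hA1.2, hA2.1, hA2.2, hA3.1, hA3.2]
    refine this.trans ?_
    nlinarith [mul_nonneg hY hR]
  · have hδ' : ‖w - midpoint ℝ x y‖ ≤ b * √η := by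
      have : ‖w - midpoint ℝ x y‖ ^ 2 ≤ (b * √η) ^ 2 := by
        rw [mul_pow, Real.sq_sqrt hη0]; exact hδ
      exact (sq_le_sq₀ (norm_nonneg _) (by positivity)).1 this
    have hxy : b ≤ ‖x - y‖ := by
      have h5 : ‖x - y‖ ^ 2 = (2 * b) ^ 2 * (1 - η) := by
        rw [hη]; field_simp; ring
      have h6 : b ^ 2 ≤ ‖x - y‖ ^ 2 := by
        rw [h5]; nlinarith [sq_nonneg b]
      exact (sq_le_sq₀ hb.le (norm_nonneg _)).1 h6
    rcases le_or_gt s ‖x - y‖ with hsl | hsl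
    · -- long segment
      refine (hg.brk x hx w hw y hy hsl).trans ?_
      have h7 : √(‖w - midpoint ℝ x y‖ / ‖x - y‖) ≤ qr η := by
        unfold qr
        apply Real.sqrt_le_sqrt
        rw [div_le_iff₀ (by linarith)]
        calc ‖w - midpoint ℝ x y‖ ≤ b * √η := hδ'
          _ ≤ ‖x - y‖ * √η := by gcongr
          _ = √η * ‖x - y‖ := mul_comm _ _
      nlinarith [mul_nonneg hY hq, mul_nonneg hY hR,
        mul_le_mul_of_nonneg_left (add_le_add h7 (le_refl (1 / √R))) hY]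
    · -- short segment
      have hbs : b < s := by linarith
      have hmid : midpoint ℝ x y ∈ Metric.closedBall z (4 * R ^ 2 * s) :=
        hconv.midpoint_mem hx hy
      have hδs : ‖w - midpoint ℝ x y‖ ≤ s := by
        have : √η ≤ 1 := Real.sqrt_le_one.2 hη1
        nlinarith [Real.sqrt_nonneg η]
      have hval : Y * (‖w - midpoint ℝ x y‖ / s) ≤ Y * qr η := by
        apply mul_le_mul_of_nonneg_left _ hY
        rw [div_le_iff₀ hs]
        calc ‖w - midpoint ℝ x y‖ ≤ b * √η := hδ'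
          _ ≤ s * qr η := by
              apply mul_le_mul hbs.le (le_qr_of_le_one hη1) (Real.sqrt_nonneg _) hs.le
          _ = qr η * s := mul_comm _ _
      have hB1 : |segAvg φ x w - segAvg φ x (midpoint ℝ x y)| ≤ Y * qr η := by
        refine abs_segAvg_sub_le hg.cont fun θ hθ => ?_
        have e : (x + θ • (w - x)) - (x + θ • (midpoint ℝ x y - x))
            = θ • (w - midpoint ℝ x y) := by module
        have hn : ‖(x + θ • (w - x)) - (x + θ • (midpoint ℝ x y - x))‖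
            ≤ ‖w - midpoint ℝ x y‖ := by
          rw [e, norm_smul, Real.norm_of_nonneg hθ.1]
          exact mul_le_of_le_one_left (norm_nonneg _) hθ.2
        refine (hg.lip _ (hseg hx hw θ hθ) _ (hseg hx hmid θ hθ) (hn.trans hδs)).trans ?_
        refine le_trans ?_ hval
        gcongr
      have hB2 : |segAvg φ w y - segAvg φ (midpoint ℝ x y) y| ≤ Y * qr η := by
        refine abs_segAvg_sub_le hg.cont fun θ hθ => ?_
        have e : (w + θ • (y - w)) - (midpoint ℝ x y + θ • (y - midpoint ℝ x y))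
            = (1 - θ) • (w - midpoint ℝ x y) := by module
        have hn : ‖(w + θ • (y - w)) - (midpoint ℝ x y + θ • (y - midpoint ℝ x y))‖
            ≤ ‖w - midpoint ℝ x y‖ := by
          rw [e, norm_smul, Real.norm_of_nonneg (by linarith [hθ.2])]
          exact mul_le_of_le_one_left (norm_nonneg _) (by linarith [hθ.1])
        refine (hg.lip _ (hseg hw hy θ hθ) _ (hseg hmid hy θ hθ) (hn.trans hδs)).trans ?_
        refine le_trans ?_ hval
        gcongr
      rw [segAvg_split hg.cont x y]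
      have e : (segAvg φ x w + segAvg φ w y) / 2
          - (segAvg φ x (midpoint ℝ x y) + segAvg φ (midpoint ℝ x y) y) / 2
          = ((segAvg φ x w - segAvg φ x (midpoint ℝ x y))
            + (segAvg φ w y - segAvg φ (midpoint ℝ x y) y)) / 2 := by ring
      rw [e, abs_div, abs_two]
      have := abs_add_le (segAvg φ x w - segAvg φ x (midpoint ℝ x y))
        (segAvg φ w y - segAvg φ (midpoint ℝ x y) y)
      nlinarith [mul_nonneg hY hq, mul_nonneg hY hR]

/-- Average over the segments joining the values of `Z` at the dyadic points of order `q` of the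
interval from `α` to `β`. -/
noncomputable def dyAvg (φ : E → ℝ) (Z : ℝ → E) : ℕ → ℝ → ℝ → ℝ
  | 0, α, β => segAvg φ (Z α) (Z β)
  | q + 1, α, β => (dyAvg φ Z q α ((α + β) / 2) + dyAvg φ Z q ((α + β) / 2) β) / 2

lemma dyAvg_step {φ : E → ℝ} {s R Y : ℝ} {z : E} (hs : 0 < s) (hg : Good φ s R z Y) {Z : ℝ → E}
    {Λ : ℝ} (hΛ : 0 < Λ) (q : ℕ) {α β : ℝ} (hαβ : α < β) (hL : LipOn Z Λ α β)
    (hZ : ∀ τ ∈ Icc α β, Z τ ∈ Metric.closedBall z (4 * R ^ 2 * s)) :
    |dyAvg φ Z (q + 1) α β - dyAvg φ Z q α β|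
      ≤ 4 * Y * (qr (1 - ‖Z α - Z β‖ ^ 2 / (Λ * (β - α)) ^ 2) + 1 / √R) := by
  have hY := hg.nonneg
  induction q generalizing α β with
  | zero =>
    have hα : α ∈ Icc α β := left_mem_Icc.2 hαβ.le
    have hβ : β ∈ Icc α β := right_mem_Icc.2 hαβ.le
    have hμ : (α + β) / 2 ∈ Icc α β := ⟨by linarith, by linarith⟩
    have h1 : ‖Z α - Z ((α + β) / 2)‖ ≤ Λ * (β - α) / 2 := by
      refine (hL _ hα _ hμ).trans (le_of_eq ?_)
      rw [abs_of_nonpos (by linarith)]; ring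
    have h2 : ‖Z ((α + β) / 2) - Z β‖ ≤ Λ * (β - α) / 2 := by
      refine (hL _ hμ _ hβ).trans (le_of_eq ?_)
      rw [abs_of_nonpos (by linarith)]; ring
    have h3 := abs_brk_le hs hg (hZ _ hα) (hZ _ hμ) (hZ _ hβ)
      (b := Λ * (β - α) / 2) (by have := mul_pos hΛ (sub_pos.2 hαβ); linarith) h1 h2
    have e : 2 * (Λ * (β - α) / 2) = Λ * (β - α) := by ring
    rw [e] at h3
    simpa [dyAvg] using h3
  | succ q ih =>
    have hα : α ∈ Icc α β := left_mem_Icc.2 hαβ.le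
    have hβ : β ∈ Icc α β := right_mem_Icc.2 hαβ.le
    set μ := (α + β) / 2 with hμdef
    have hαμ : α < μ := by rw [hμdef]; linarith
    have hμβ : μ < β := by rw [hμdef]; linarith
    have hμ : μ ∈ Icc α β := ⟨hαμ.le, hμβ.le⟩
    have i1 := ih hαμ (hL.mono le_rfl hμβ.le) (fun τ hτ => hZ τ ⟨hτ.1, hτ.2.trans hμβ.le⟩)
    have i2 := ih hμβ (hL.mono hαμ.le le_rfl) (fun τ hτ => hZ τ ⟨hαμ.le.trans hτ.1, hτ.2⟩)
    have hl1 : μ - α = (β - α) / 2 := by rw [hμdef]; ring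
    have hl2 : β - μ = (β - α) / 2 := by rw [hμdef]; ring
    have hℓ : 0 < Λ * (β - α) := mul_pos hΛ (sub_pos.2 hαβ)
    have h1 : ‖Z α - Z μ‖ ≤ Λ * (β - α) / 2 := by
      refine (hL _ hα _ hμ).trans (le_of_eq ?_)
      rw [abs_of_nonpos (by linarith)]
      have : -(α - μ) = (β - α) / 2 := by rw [hμdef]; ring
      rw [this]; ring
    have h2 : ‖Z μ - Z β‖ ≤ Λ * (β - α) / 2 := by
      refine (hL _ hμ _ hβ).trans (le_of_eq ?_)
      rw [abs_of_nonpos (by linarith)]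
      have : -(μ - β) = (β - α) / 2 := by rw [hμdef]; ring
      rw [this]; ring
    set D := Λ * (β - α) with hD
    have e1 : Λ * (μ - α) = D / 2 := by rw [hl1, hD]; ring
    have e2 : Λ * (β - μ) = D / 2 := by rw [hl2, hD]; ring
    rw [e1] at i1
    rw [e2] at i2
    have p1 : 0 ≤ 1 - ‖Z α - Z μ‖ ^ 2 / (D / 2) ^ 2 := by
      rw [sub_nonneg, div_le_one (by positivity)]
      exact pow_le_pow_left₀ (norm_nonneg _) h1 2
    have p2 : 0 ≤ 1 - ‖Z μ - Z β‖ ^ 2 / (D / 2) ^ 2 := by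
      rw [sub_nonneg, div_le_one (by positivity)]
      exact pow_le_pow_left₀ (norm_nonneg _) h2 2
    have hav : ((1 - ‖Z α - Z μ‖ ^ 2 / (D / 2) ^ 2) + (1 - ‖Z μ - Z β‖ ^ 2 / (D / 2) ^ 2)) / 2
        ≤ 1 - ‖Z α - Z β‖ ^ 2 / D ^ 2 := by
      have hpar := parallelogram_midpoint (Z α) (Z μ) (Z β)
      have hsq := sq_nonneg ‖Z μ - midpoint ℝ (Z α) (Z β)‖
      have e3 : ((1 - ‖Z α - Z μ‖ ^ 2 / (D / 2) ^ 2) + (1 - ‖Z μ - Z β‖ ^ 2 / (D / 2) ^ 2)) / 2
          = 1 - 2 * (‖Z α - Z μ‖ ^ 2 + ‖Z μ - Z β‖ ^ 2) / D ^ 2 := by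
        field_simp; ring
      rw [e3]
      have : ‖Z α - Z β‖ ^ 2 / D ^ 2 ≤ 2 * (‖Z α - Z μ‖ ^ 2 + ‖Z μ - Z β‖ ^ 2) / D ^ 2 := by
        gcongr
        linarith
      linarith
    have hc := (qr_concave p1 p2).trans (qr_mono hav)
    have e4 : dyAvg φ Z (q + 1 + 1) α β - dyAvg φ Z (q + 1) α β
        = ((dyAvg φ Z (q + 1) α μ - dyAvg φ Z q α μ)
          + (dyAvg φ Z (q + 1) μ β - dyAvg φ Z q μ β)) / 2 := by
      have a1 : dyAvg φ Z (q + 1 + 1) α β
          = (dyAvg φ Z (q + 1) α μ + dyAvg φ Z (q + 1) μ β) / 2 := rfl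
      have a2 : dyAvg φ Z (q + 1) α β = (dyAvg φ Z q α μ + dyAvg φ Z q μ β) / 2 := rfl
      rw [a1, a2]; ring
    rw [e4, abs_div, abs_two]
    have h5 := abs_add_le (dyAvg φ Z (q + 1) α μ - dyAvg φ Z q α μ)
      (dyAvg φ Z (q + 1) μ β - dyAvg φ Z q μ β)
    have h6 : 4 * Y * ((qr (1 - ‖Z α - Z μ‖ ^ 2 / (D / 2) ^ 2)
        + qr (1 - ‖Z μ - Z β‖ ^ 2 / (D / 2) ^ 2)) / 2) ≤ 4 * Y * qr (1 - ‖Z α - Z β‖ ^ 2 / D ^ 2) :=
      mul_le_mul_of_nonneg_left hc (by positivity)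
    linarith

lemma dyAvg_total {φ : E → ℝ} {s R Y : ℝ} {z : E} (hs : 0 < s) (hg : Good φ s R z Y) {Z : ℝ → E}
    {Λ : ℝ} (hΛ : 0 < Λ) (q : ℕ) {α β : ℝ} (hαβ : α < β) (hL : LipOn Z Λ α β)
    (hZ : ∀ τ ∈ Icc α β, Z τ ∈ Metric.closedBall z (4 * R ^ 2 * s)) :
    |dyAvg φ Z q α β - segAvg φ (Z α) (Z β)|
      ≤ q * (4 * Y * (qr (1 - ‖Z α - Z β‖ ^ 2 / (Λ * (β - α)) ^ 2) + 1 / √R)) := by
  induction q with
  | zero => simp [dyAvg]
  | succ q ih =>
    have h1 := dyAvg_step hs hg hΛ q hαβ hL hZ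
    have h2 : dyAvg φ Z (q + 1) α β - segAvg φ (Z α) (Z β)
        = (dyAvg φ Z (q + 1) α β - dyAvg φ Z q α β)
          + (dyAvg φ Z q α β - segAvg φ (Z α) (Z β)) := by ring
    rw [h2]
    refine (abs_add_le _ _).trans ?_
    push_cast
    linarith

/-- The dyadic averages approximate the average along the curve. -/
lemma dyAvg_approx {φ : E → ℝ} {s R Y : ℝ} {z : E} (hs : 0 < s) (hg : Good φ s R z Y) {Z : ℝ → E}
    {Λ : ℝ} (hΛ : 0 < Λ) (hZc : Continuous Z) (q : ℕ) {α β : ℝ} (hαβ : α < β)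
    (hL : LipOn Z Λ α β)
    (hZ : ∀ τ ∈ Icc α β, Z τ ∈ Metric.closedBall z (4 * R ^ 2 * s))
    (hsmall : Λ * (β - α) / 2 ^ q ≤ s) :
    |dyAvg φ Z q α β - (∫ τ in α..β, φ (Z τ)) / (β - α)|
      ≤ 2 * Y * (Λ * (β - α) / 2 ^ q / s) := by
  have hY := hg.nonneg
  have hcont : Continuous fun τ => φ (Z τ) := hg.cont.comp hZc
  induction q generalizing α β with
  | zero =>
    have hα : α ∈ Icc α β := left_mem_Icc.2 hαβ.le
    have hβ : β ∈ Icc α β := right_mem_Icc.2 hαβ.le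
    have hℓ : 0 < β - α := sub_pos.2 hαβ
    simp only [pow_zero, div_one] at hsmall ⊢
    have hconv : Convex ℝ (Metric.closedBall z (4 * R ^ 2 * s)) := convex_closedBall _ _
    have hab : ‖Z β - Z α‖ ≤ Λ * (β - α) := by
      refine (hL _ hβ _ hα).trans (le_of_eq ?_)
      rw [abs_of_pos hℓ]
    have hA : |segAvg φ (Z α) (Z β) - φ (Z α)| ≤ Y * (Λ * (β - α) / s) := by
      have e : segAvg φ (Z α) (Z β) - φ (Z α)
          = ∫ θ in (0 : ℝ)..1, (φ (Z α + θ • (Z β - Z α)) - φ (Z α)) := by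
        unfold segAvg
        rw [intervalIntegral.integral_sub ((continuous_seg hg.cont _ _).intervalIntegrable _ _)
          (by simp)]
        simp
      rw [e]
      refine abs_integral_unit_le fun θ hθ => ?_
      have hn : ‖(Z α + θ • (Z β - Z α)) - Z α‖ ≤ Λ * (β - α) := by
        have : (Z α + θ • (Z β - Z α)) - Z α = θ • (Z β - Z α) := by abel
        rw [this, norm_smul, Real.norm_of_nonneg hθ.1]
        exact (mul_le_of_le_one_left (norm_nonneg _) hθ.2).trans hab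
      refine (hg.lip _ (hconv.add_smul_sub_mem (hZ _ hα) (hZ _ hβ) hθ) _ (hZ _ hα)
        (hn.trans hsmall)).trans ?_
      gcongr
    have hB : |(∫ τ in α..β, φ (Z τ)) / (β - α) - φ (Z α)| ≤ Y * (Λ * (β - α) / s) := by
      have e : (∫ τ in α..β, φ (Z τ)) / (β - α) - φ (Z α)
          = (∫ τ in α..β, (φ (Z τ) - φ (Z α))) / (β - α) := by
        rw [intervalIntegral.integral_sub (hcont.intervalIntegrable _ _) (by simp)]
        simp only [intervalIntegral.integral_const, smul_eq_mul]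
        field_simp
      rw [e, abs_div, abs_of_pos hℓ, div_le_iff₀ hℓ]
      have := intervalIntegral.norm_integral_le_of_norm_le_const (a := α) (b := β)
        (f := fun τ => φ (Z τ) - φ (Z α)) (C := Y * (Λ * (β - α) / s)) (fun τ hτ => by
          rw [uIoc_of_le hαβ.le] at hτ
          have hτ' : τ ∈ Icc α β := ⟨hτ.1.le, hτ.2⟩
          have hn : ‖Z τ - Z α‖ ≤ Λ * (β - α) := by
            refine (hL _ hτ' _ hα).trans ?_
            rw [abs_of_nonneg (by linarith [hτ.1])]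
            gcongr
            exact hτ.2
          refine (hg.lip _ (hZ _ hτ') _ (hZ _ hα) (hn.trans hsmall)).trans ?_
          gcongr)
      rw [abs_of_pos hℓ] at this
      exact this
    have e : dyAvg φ Z 0 α β = segAvg φ (Z α) (Z β) := rfl
    rw [e]
    have := abs_sub_le (segAvg φ (Z α) (Z β)) (φ (Z α)) ((∫ τ in α..β, φ (Z τ)) / (β - α))
    rw [abs_sub_comm (φ (Z α))] at this
    linarith
  | succ q ih =>
    set μ := (α + β) / 2 with hμdef
    have hαμ : α < μ := by rw [hμdef]; linarith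
    have hμβ : μ < β := by rw [hμdef]; linarith
    have hl1 : μ - α = (β - α) / 2 := by rw [hμdef]; ring
    have hl2 : β - μ = (β - α) / 2 := by rw [hμdef]; ring
    have e1 : Λ * (μ - α) / 2 ^ q = Λ * (β - α) / 2 ^ (q + 1) := by
      rw [hl1, pow_succ]; field_simp
    have e2 : Λ * (β - μ) / 2 ^ q = Λ * (β - α) / 2 ^ (q + 1) := by
      rw [hl2, pow_succ]; field_simp
    have i1 := ih hαμ (hL.mono le_rfl hμβ.le) (fun τ hτ => hZ τ ⟨hτ.1, hτ.2.trans hμβ.le⟩)
      (by rw [e1]; exact hsmall)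
    have i2 := ih hμβ (hL.mono hαμ.le le_rfl) (fun τ hτ => hZ τ ⟨hαμ.le.trans hτ.1, hτ.2⟩)
      (by rw [e2]; exact hsmall)
    rw [e1] at i1
    rw [e2] at i2
    have hsum : (∫ τ in α..β, φ (Z τ)) / (β - α)
        = ((∫ τ in α..μ, φ (Z τ)) / (μ - α) + (∫ τ in μ..β, φ (Z τ)) / (β - μ)) / 2 := by
      rw [← intervalIntegral.integral_add_adjacent_intervals (hcont.intervalIntegrable α μ)
        (hcont.intervalIntegrable μ β), hl1, hl2]
      have : β - α ≠ 0 := (sub_pos.2 hαβ).ne'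
      field_simp
    have a2 : dyAvg φ Z (q + 1) α β = (dyAvg φ Z q α μ + dyAvg φ Z q μ β) / 2 := rfl
    rw [hsum, a2]
    have e4 : (dyAvg φ Z q α μ + dyAvg φ Z q μ β) / 2
        - ((∫ τ in α..μ, φ (Z τ)) / (μ - α) + (∫ τ in μ..β, φ (Z τ)) / (β - μ)) / 2
        = ((dyAvg φ Z q α μ - (∫ τ in α..μ, φ (Z τ)) / (μ - α))
          + (dyAvg φ Z q μ β - (∫ τ in μ..β, φ (Z τ)) / (β - μ))) / 2 := by ring
    rw [e4, abs_div, abs_two]
    have := abs_add_le (dyAvg φ Z q α μ - (∫ τ in α..μ, φ (Z τ)) / (μ - α))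
      (dyAvg φ Z q μ β - (∫ τ in μ..β, φ (Z τ)) / (β - μ))
    linarith

end Pool.Agent.Lib_MP_71c74a_pr
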