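import Pool.Agent.Lib_MP_71c74a_pr.FieldOps
import Pool.Agent.Lib_MP_71c74a_pr.Net

/-!
# Lattice points, weights and chains
-/

open MeasureTheory ProbabilityTheory Set
open scoped ENNReal NNReal Topology

namespace Pool.Agent.Lib_MP_71c74a_pr

variable {d : ℕ}

/-- Integer vectors. -/
abbrev Lt (d : ℕ) := Fin d → ℤ

/-- The lattice point with coordinates `p` and mesh `s`. -/
noncomputable def emb (s : ℝ) (p : Lt d) : Eu d := WithLp.toLp 2 (fun i => s * (p i : ℝ))

lemma emb_apply (s : ℝ) (p : Lt d) (i : Fin d) : emb s p i = s * (p i : ℝ) := rfl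

lemma emb_add (s : ℝ) (p q : Lt d) : emb s (p + q) = emb s p + emb s q := by
  ext i
  simp only [emb_apply, PiLp.add_apply, Pi.add_apply]
  push_cast
  ring

lemma emb_sub (s : ℝ) (p q : Lt d) : emb s (p - q) = emb s p - emb s q := by
  ext i
  simp only [emb_apply, PiLp.sub_apply, Pi.sub_apply]
  push_cast
  ring

lemma emb_smul (c s : ℝ) (p : Lt d) : emb (c * s) p = c • emb s p := by
  ext i
  simp only [emb_apply, PiLp.smul_apply, smul_eq_mul]
  ring

lemma emb_zero (s : ℝ) : emb s (0 : Lt d) = 0 := by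
  ext i
  simp [emb_apply]

lemma emb_two (s : ℝ) (p : Lt d) : emb (s / 2) (p + p) = emb s p := by
  ext i
  simp only [emb_apply, Pi.add_apply]
  push_cast
  ring

lemma emb_mid (s : ℝ) (p q : Lt d) : emb (s / 2) (p + q) = midpoint ℝ (emb s p) (emb s q) := by
  rw [midpoint_eq_smul_add]
  simp only [invOf_eq_inv]
  ext i
  simp only [emb_apply, PiLp.smul_apply, PiLp.add_apply, Pi.add_apply, smul_eq_mul]
  push_cast
  ring

lemma norm_emb (s : ℝ) (p : Lt d) : ‖emb s p‖ = |s| * ‖emb 1 p‖ := by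
  have : emb s p = s • emb 1 p := by rw [← emb_smul, mul_one]
  rw [this, norm_smul, Real.norm_eq_abs]

/-- Rounding. -/
noncomputable def rd (s : ℝ) (x : Eu d) : Lt d := fun i => ⌊x i / s⌋

lemma norm_emb_rd {s : ℝ} (hs : 0 < s) (x : Eu d) : ‖emb s (rd s x) - x‖ ≤ d * s := by
  refine (euclid_norm_le_sum _).trans ?_
  have h1 : ∀ i ∈ (Finset.univ : Finset (Fin d)), |(emb s (rd s x) - x) i| ≤ s := by
    intro i _
    have h4 : (emb s (rd s x) - x) i = -(s * (x i / s - ⌊x i / s⌋)) := by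
      rw [PiLp.sub_apply, emb_apply, rd]
      field_simp
      ring
    rw [h4, abs_neg, abs_of_nonneg (mul_nonneg hs.le (sub_nonneg.2 (Int.floor_le _)))]
    have h5 := Int.lt_floor_add_one (x i / s)
    calc s * (x i / s - ⌊x i / s⌋) ≤ s * 1 := by
          apply mul_le_mul_of_nonneg_left _ hs.le
          linarith
      _ = s := mul_one _
  refine (Finset.sum_le_sum h1).trans (le_of_eq ?_)
  rw [Finset.sum_const, Finset.card_univ, Fintype.card_fin, nsmul_eq_mul]

lemma abs_coord_le (p : Lt d) (i : Fin d) : |(p i : ℝ)| ≤ ‖emb 1 p‖ := by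
  have := PiLp.norm_apply_le (emb 1 p) i
  rwa [emb_apply, one_mul, Real.norm_eq_abs] at this

/-- A box of integer vectors. -/
noncomputable def box (d B : ℕ) : Finset (Lt d) := Fintype.piFinset fun _ => Finset.Icc (-(B : ℤ)) B

lemma mem_box {B : ℕ} {p : Lt d} (h : ‖emb 1 p‖ ≤ B) : p ∈ box d B := by
  unfold box
  rw [Fintype.mem_piFinset]
  intro i
  have h1 := (abs_coord_le p i).trans h
  rw [abs_le] at h1
  rw [Finset.mem_Icc]
  constructor
  · exact_mod_cast h1.1
  · exact_mod_cast h1.2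

lemma card_box (d B : ℕ) : (box d B).card = (2 * B + 1) ^ d := by
  unfold box
  rw [Fintype.card_piFinset]
  simp only [Int.card_Icc, Finset.prod_const, Finset.card_univ, Fintype.card_fin]
  congr 1
  omega

/-- Weight of an integer vector. -/
noncomputable def wtR (n : Lt d) : ℝ := ∏ i, 1 / (1 + |(n i : ℝ)|) ^ 2

lemma wtR_pos (n : Lt d) : 0 < wtR n := by
  unfold wtR
  exact Finset.prod_pos fun i _ => by positivity

lemma sum_one_dim (B : ℕ) :
    ∑ m ∈ Finset.Icc (-(B : ℤ)) B, 1 / (1 + |(m : ℝ)|) ^ 2 ≤ 3 - 2 / ((B : ℝ) + 1) := by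
  induction B with
  | zero => norm_num
  | succ B ih =>
    have e : Finset.Icc (-((B + 1 : ℕ) : ℤ)) ((B + 1 : ℕ) : ℤ)
        = insert (-((B : ℤ) + 1)) (insert ((B : ℤ) + 1) (Finset.Icc (-(B : ℤ)) B)) := by
      ext m
      simp only [Finset.mem_Icc, Finset.mem_insert]
      push_cast
      omega
    rw [e, Finset.sum_insert (by simp only [Finset.mem_insert, Finset.mem_Icc]; omega),
      Finset.sum_insert (by simp only [Finset.mem_Icc]; omega)]
    have hB : (0 : ℝ) ≤ B := Nat.cast_nonneg B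
    have a1 : |((-((B : ℤ) + 1) : ℤ) : ℝ)| = B + 1 := by
      push_cast
      rw [abs_of_nonpos (by linarith)]
      ring
    have a2 : |(((B : ℤ) + 1 : ℤ) : ℝ)| = B + 1 := by
      push_cast
      rw [abs_of_nonneg (by linarith)]
    rw [a1, a2]
    push_cast
    have h1 : 2 / (1 + ((B : ℝ) + 1)) ^ 2 ≤ 2 / ((B : ℝ) + 1) - 2 / ((B : ℝ) + 1 + 1) := by
      rw [div_sub_div _ _ (by positivity) (by positivity), div_le_div_iff₀ (by positivity)
        (by positivity)]
      nlinarith
    have h2 : 2 / (1 + ((B : ℝ) + 1)) ^ 2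
        = 1 / (1 + ((B : ℝ) + 1)) ^ 2 + 1 / (1 + ((B : ℝ) + 1)) ^ 2 := by ring
    linarith

lemma sum_wtR_le (d B : ℕ) : ∑ n ∈ box d B, wtR n ≤ 3 ^ d := by
  unfold box wtR
  rw [← Finset.prod_univ_sum (fun _ => Finset.Icc (-(B : ℤ)) B)
    (fun (_ : Fin d) (m : ℤ) => 1 / (1 + |(m : ℝ)|) ^ 2)]
  rw [Finset.prod_const, Finset.card_univ, Fintype.card_fin]
  apply pow_le_pow_left₀ (Finset.sum_nonneg fun m _ => by positivity)
  have := sum_one_dim B
  have h : (0 : ℝ) ≤ 2 / ((B : ℝ) + 1) := by positivity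
  linarith

lemma neg_log_wtR_le (n : Lt d) : -Real.log (wtR n) ≤ 2 * d * Real.log (1 + ‖emb 1 n‖) := by
  unfold wtR
  rw [Real.log_prod (fun i _ => by positivity), ← Finset.sum_neg_distrib]
  have h1 : ∀ i ∈ (Finset.univ : Finset (Fin d)),
      -Real.log (1 / (1 + |(n i : ℝ)|) ^ 2) ≤ 2 * Real.log (1 + ‖emb 1 n‖) := by
    intro i _
    rw [Real.log_div one_ne_zero (by positivity), Real.log_one, Real.log_pow]
    push_cast
    have h2 : Real.log (1 + |(n i : ℝ)|) ≤ Real.log (1 + ‖emb 1 n‖) := by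
      apply Real.log_le_log (by positivity)
      have := abs_coord_le n i
      linarith
    linarith
  refine (Finset.sum_le_sum h1).trans (le_of_eq ?_)
  rw [Finset.sum_const, Finset.card_univ, Fintype.card_fin, nsmul_eq_mul]
  ring

lemma wtR_le_one (n : Lt d) : wtR n ≤ 1 := by
  unfold wtR
  refine Finset.prod_le_one (fun i _ => by positivity) fun i _ => ?_
  rw [div_le_one (by positivity)]
  have := abs_nonneg (n i : ℝ)
  nlinarith

/-- The chain with starting point `p₀`, first increment `v₀` and second differences `n`: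
positions and increments. -/
def chn (p₀ v₀ : Lt d) (n : ℕ → Lt d) : ℕ → Lt d × Lt d
  | 0 => (p₀, v₀)
  | a + 1 => ((chn p₀ v₀ n a).1 + (chn p₀ v₀ n a).2, (chn p₀ v₀ n a).2 + n a)

/-- Extension by zero. -/
def extZ {N : ℕ} (n : Fin N → Lt d) (a : ℕ) : Lt d := if h : a < N then n ⟨a, h⟩ else 0

/-- The second differences of a chain. -/
def secD (p : ℕ → Lt d) (N : ℕ) : Fin (N - 1) → Lt d := fun i =>
  (p (i + 1 + 1) - p (i + 1)) - (p (i + 1) - p i)

lemma chn_secD (p : ℕ → Lt d) {N : ℕ} {a : ℕ} (ha : a < N) :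
    chn (p 0) (p 1 - p 0) (extZ (secD p N)) a = (p a, p (a + 1) - p a) := by
  induction a with
  | zero => rfl
  | succ a ih =>
    have h1 := ih (by omega)
    simp only [chn]
    rw [h1]
    have h2 : a < N - 1 := by omega
    have h3 : extZ (secD p N) a = (p (a + 1 + 1) - p (a + 1)) - (p (a + 1) - p a) := by
      unfold extZ secD
      rw [dif_pos h2]
    rw [h3]
    ext i <;> simp

end Pool.Agent.Lib_MP_71c74a_pr
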