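import Pool.Agent.Lib_MP_71c74a_pr.FieldOps

/-!
# Differences of averages along segments: definitions
-/

open MeasureTheory ProbabilityTheory Set
open scoped ENNReal NNReal Topology

namespace Pool.Agent.Lib_MP_71c74a_pr

variable {d : ℕ}

lemma seg_mem {x y : Eu d} {r : ℝ} (hx : ‖x‖ ≤ r) (hy : ‖y‖ ≤ r) {θ : ℝ} (hθ : θ ∈ Icc (0 : ℝ) 1) :
    ‖x + θ • (y - x)‖ ≤ r := by
  have h := (convex_closedBall (0 : Eu d) r) (by simpa using hx) (by simpa using hy)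
    (a := 1 - θ) (b := θ) (by linarith [hθ.2]) hθ.1 (by ring)
  have e : (1 - θ) • x + θ • y = x + θ • (y - x) := by module
  rw [e] at h
  simpa using h

lemma seg_near {x y x' y' : Eu d} {r : ℝ} (hx : ‖x' - x‖ ≤ r) (hy : ‖y' - y‖ ≤ r) {θ : ℝ}
    (hθ : θ ∈ Icc (0 : ℝ) 1) : ‖(x' + θ • (y' - x')) - (x + θ • (y - x))‖ ≤ r := by
  have h := seg_mem (x := x' - x) (y := y' - y) hx hy hθ
  have e : (x' + θ • (y' - x')) - (x + θ • (y - x)) = (x' - x) + θ • ((y' - y) - (x' - x)) := by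
    module
  rwa [e]

/-- Difference of two discretised averages. -/
noncomputable def dfT (M : ℕ) (x y x' y' : Eu d) : Eu d →₀ ℝ := avgT M x' y' - avgT M x y

open Classical in
/-- Normalised difference test, local and not degenerate. -/
noncomputable def nT (Cs l e : ℝ) (M : ℕ) (O x y x' y' : Eu d) : Eu d →₀ ℝ :=
  if l / 8 ≤ ‖y - x‖ ∧ ‖x - O‖ ≤ 4 * l ∧ ‖y - O‖ ≤ 4 * l ∧ ‖x' - O‖ ≤ 4 * l ∧ ‖y' - O‖ ≤ 4 * l then
    (Cs * (max ‖x' - x‖ ‖y' - y‖ + e) / √l)⁻¹ • dfT M x y x' y' else 0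

open Classical in
/-- Normalised average, local and not degenerate. -/
noncomputable def bT (Cs l : ℝ) (M : ℕ) (O x y : Eu d) : Eu d →₀ ℝ :=
  if l / 8 ≤ ‖y - x‖ ∧ ‖x - O‖ ≤ 4 * l ∧ ‖y - O‖ ≤ 4 * l then
    (Cs / √l)⁻¹ • avgT M x y else 0

end Pool.Agent.Lib_MP_71c74a_pr
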