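import Pool.Agent.Lib_MP_71c74a_pr.ETdef
import Pool.Agent.Lib_MP_71c74a_pr.Lattice
import Pool.Agent.Lib_MP_71c74a_pr.SegDefs

/-!
# The partition function of chains: definitions
-/

open MeasureTheory ProbabilityTheory Set
open scoped ENNReal NNReal Topology

namespace Pool.Agent.Lib_MP_71c74a_pr

variable {d : ℕ}

/-- Parameters of the tests at one generation: constant, exponent, nominal length, mesh, finest
mesh, number of sample points on a half segment, size of the boxes. -/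
structure TP where
  Cs : ℝ
  ε : ℝ
  l : ℝ
  s : ℝ
  sf : ℝ
  M : ℕ
  B : ℕ

/-- Index set of the tests of a segment. -/
abbrev TI (d : ℕ) := Option (Bool × Lt d × Lt d)

/-- The tests of the segment from `p` to `q`. -/
noncomputable def tst (T : TP) (p q : Lt d) : TI d → Eu d →₀ ℝ
  | none => bT T.Cs T.l (2 * T.M) (emb T.s q) (emb T.s p) (emb T.s q)
  | some (true, n₁, n₂) => nT T.Cs T.l (T.s / 2) T.M (emb T.s q)
      (emb T.s p) (emb (T.s / 2) (p + q)) (emb (T.s / 2) (p + p + n₁)) (emb (T.s / 2) (p + q + n₂))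
  | some (false, n₁, n₂) => nT T.Cs T.l (T.s / 2) T.M (emb T.s q)
      (emb (T.s / 2) (p + q)) (emb T.s q) (emb (T.s / 2) (p + q + n₁)) (emb (T.s / 2) (q + q + n₂))

/-- Weight of an integer vector, as an extended nonnegative real. -/
noncomputable def wE (n : Lt d) : ℝ≥0∞ := ENNReal.ofReal (wtR n)

/-- Exponential of the square. -/
noncomputable def eS (ε t : ℝ) : ℝ≥0∞ := ENNReal.ofReal (Real.exp (ε * t ^ 2))

lemma measurable_eS (ε : ℝ) : Measurable (eS ε) := by unfold eS; fun_prop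

/-- Combination of the values of the tests of a segment. -/
noncomputable def PhiF (T : TP) (v : TI d → ℝ) : ℝ≥0∞ :=
  1 + eS T.ε (v none) + ∑ n₁ ∈ box d T.B, ∑ n₂ ∈ box d T.B, wE n₁ * wE n₂
    * (eS T.ε (v (some (true, n₁, n₂))) + eS T.ε (v (some (false, n₁, n₂))))

lemma measurable_PhiF (T : TP) : Measurable (PhiF (d := d) T) := by
  unfold PhiF
  refine Measurable.add (Measurable.add measurable_const
    ((measurable_eS T.ε).comp (measurable_pi_apply _))) ?_
  refine Finset.measurable_sum _ fun n₁ _ => Finset.measurable_sum _ fun n₂ _ => ?_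
  exact (((measurable_eS T.ε).comp (measurable_pi_apply _)).add
    ((measurable_eS T.ε).comp (measurable_pi_apply _))).const_mul _

/-- The variable attached to the segment from `p` to `q`. -/
noncomputable def Fseg (T : TP) (ψ : Eu d → ℝ) (p q : Lt d) : ℝ≥0∞ :=
  PhiF T fun i => lc ψ (tst T p q i)

/-- End points of the `a`-th segment of a chain. -/
def cp (p₀ v₀ : Lt d) (n : ℕ → Lt d) (a : ℕ) : Lt d := (chn p₀ v₀ n a).1

/-- End points of the `a`-th segment of a chain. -/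
def cq (p₀ v₀ : Lt d) (n : ℕ → Lt d) (a : ℕ) : Lt d := (chn p₀ v₀ n a).1 + (chn p₀ v₀ n a).2

/-- The segments of the chain with indices in `S` are far apart. -/
def Sep (T : TP) (R₀ : ℝ) (p₀ v₀ : Lt d) (n : ℕ → Lt d) (S : Finset ℕ) : Prop :=
  ∀ a ∈ S, ∀ a' ∈ S, a ≠ a' →
    2 * (4 * T.l) + R₀ ≤ ‖emb T.s (cq p₀ v₀ n a) - emb T.s (cq p₀ v₀ n a')‖

open Classical in
/-- Partition function of the chains of `N` segments. -/
noncomputable def Zch (T : TP) (R₀ : ℝ) (N : ℕ) (ψ : Eu d → ℝ) : ℝ≥0∞ :=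
  ∑ p₀ ∈ box d T.B, ∑ v₀ ∈ box d T.B,
    ∑ n ∈ Fintype.piFinset (fun _ : Fin (N - 1) => box d T.B), (∏ i, wE (n i)) *
      ∑ S ∈ (Finset.range N).powerset, if Sep T R₀ p₀ v₀ (extZ n) S then
        ∏ a ∈ S, Fseg T ψ (cp p₀ v₀ (extZ n) a) (cq p₀ v₀ (extZ n) a) else 0

/-- Comparison with the finest mesh. -/
noncomputable def Zin (T : TP) (ψ : Eu d → ℝ) : ℝ≥0∞ :=
  ∑ p ∈ box d T.B, ∑ q ∈ box d T.B, ∑ p' ∈ box d T.B, ∑ q' ∈ box d T.B,
    eT T.ε ψ (nT T.Cs T.l T.s (2 * T.M) (emb T.s q) (emb T.s p) (emb T.s q)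
      (emb T.sf p') (emb T.sf q'))

/-- The complete functional. -/
noncomputable def Zfun (T : TP) (R₀ : ℝ) (N : ℕ) (ψ : Eu d → ℝ) : ℝ≥0∞ :=
  1 + Zch T R₀ N ψ + Zin T ψ

/-- The parameters are admissible for the covariance. -/
structure TP.Adm (T : TP) (R₀ C : ℝ) : Prop where
  eCs : T.Cs = 64 * (R₀ + 1) * C
  eε : T.ε = ferE / 4
  l1 : 1 ≤ T.l
  s0 : 0 < T.s
  lM : 8 * T.l ≤ T.M

end Pool.Agent.Lib_MP_71c74a_pr
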