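import Pool.Agent.Lib_MP_71c74a_pr.SegDefs

/-!
# Differences of averages along segments
-/

open MeasureTheory ProbabilityTheory Set
open scoped ENNReal NNReal Topology

namespace Pool.Agent.Lib_MP_71c74a_pr

variable {d : ℕ} {H : Type*} [NormedAddCommGroup H] [InnerProductSpace ℝ H] {G : Eu d → H}
  {R₀ v₀ C : ℝ}

lemma norm_lc_avgT_le (hG : CovLaw G R₀ v₀ C) (M : ℕ) (x y : Eu d) :
    ‖lc G (avgT M x y)‖ ≤ C := by
  have hC := hG.C_pos
  rcases Nat.eq_zero_or_pos M with h | hM
  · subst h; rw [lc_avgT]; simpa using hC.le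
  have hM' : (0 : ℝ) < M := by exact_mod_cast hM
  rw [lc_avgT, norm_smul, Real.norm_eq_abs, abs_of_pos (by positivity)]
  calc 1 / (M : ℝ) * ‖∑ i ∈ Finset.range M, G (segPt M x y i)‖
      ≤ 1 / (M : ℝ) * ∑ i ∈ Finset.range M, ‖G (segPt M x y i)‖ := by
        gcongr; exact norm_sum_le _ _
    _ ≤ 1 / (M : ℝ) * ∑ _i ∈ Finset.range M, C := by
        gcongr with i _
        exact hG.norm_le _
    _ = C := by
        rw [Finset.sum_const, Finset.card_range, nsmul_eq_mul]; field_simp

/-- Standard deviation of a difference of averages. -/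
lemma norm_dfT_le (hG : CovLaw G R₀ v₀ C) {M : ℕ} (hM : 0 < M) {x y x' y' : Eu d} {δ l : ℝ}
    (hl : 1 ≤ l) (hx : ‖x' - x‖ ≤ δ) (hy : ‖y' - y‖ ≤ δ) (hL : l / 8 ≤ ‖y - x‖)
    (hLM : ‖y - x‖ ≤ M) (hLM' : ‖y' - x'‖ ≤ M) (hlM : l ≤ M) :
    ‖lc G (dfT M x y x' y')‖ ≤ 64 * (R₀ + 1) * C * δ / √l := by
  have hR := hG.R₀_pos
  have hC := hG.C_pos
  have hM' : (0 : ℝ) < M := by exact_mod_cast hM
  have hδ0 : 0 ≤ δ := (norm_nonneg _).trans hx
  have hl0 : 0 < l := by linarith
  set L := ‖y - x‖ with hLdef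
  have hL0 : 0 < L := by linarith
  have hsl : 0 < √l := Real.sqrt_pos.2 hl0
  have hsl2 : √l * √l = l := Real.mul_self_sqrt hl0.le
  have hsl1 : 1 ≤ √l := by rw [Real.one_le_sqrt]; exact hl
  have hsll : √l ≤ l := by nlinarith
  have e0 : lc G (dfT M x y x' y') = lc G (avgT M x' y') - lc G (avgT M x y) := by
    simp only [lc, dfT, map_sub]
  rcases le_or_gt δ 1 with hδ1 | hδ1
  · -- small displacement
    have e1 : lc G (dfT M x y x' y') = (1 / (M : ℝ)) • ∑ i ∈ Finset.range M,
        (G (segPt M x' y' i) - G (segPt M x y i)) := by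
      rw [e0, lc_avgT, lc_avgT, ← smul_sub, Finset.sum_sub_distrib]
    have hdisp : ∀ i < M, ‖segPt M x' y' i - segPt M x y i‖ ≤ δ := by
      intro i hi
      have hi1 : (i : ℝ) / M ≤ 1 := by rw [div_le_one hM']; exact_mod_cast hi.le
      have hi0 : (0 : ℝ) ≤ (i : ℝ) / M := by positivity
      have e : segPt M x' y' i - segPt M x y i
          = (1 - (i : ℝ) / M) • (x' - x) + ((i : ℝ) / M) • (y' - y) := by
        unfold segPt; module
      rw [e]
      refine (norm_add_le _ _).trans ?_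
      rw [norm_smul, norm_smul, Real.norm_eq_abs, Real.norm_eq_abs,
        abs_of_nonneg (by linarith), abs_of_nonneg hi0]
      calc (1 - (i : ℝ) / M) * ‖x' - x‖ + (i : ℝ) / M * ‖y' - y‖
          ≤ (1 - (i : ℝ) / M) * δ + (i : ℝ) / M * δ := by
            have : 0 ≤ 1 - (i : ℝ) / M := by linarith
            gcongr
        _ = δ := by ring
    have h := banded (M := M) (V := fun i => G (segPt M x' y' i) - G (segPt M x y i))
      (B := C * δ) (W := (R₀ + 2) * M / L) (fun i hi =>
        (hG.diff_le _ _).trans (mul_le_mul_of_nonneg_left (hdisp i hi) hC.le))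
      (by positivity) (fun i hi j hj hij => by
        have h0 : R₀ + 2 ≤ ‖segPt M x y i - segPt M x y j‖ := by
          rw [norm_segPt_sub]
          rw [div_le_iff₀ hL0] at hij
          rw [div_mul_eq_mul_div, le_div_iff₀ hM']
          exact hij
        have di := hdisp i hi
        have dj := hdisp j hj
        have t1 : R₀ ≤ ‖segPt M x' y' i - segPt M x' y' j‖ := by
          have e : segPt M x y i - segPt M x y j = (segPt M x' y' i - segPt M x' y' j)
              - (segPt M x' y' i - segPt M x y i) + (segPt M x' y' j - segPt M x y j) := by abel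
          have := norm_add_le ((segPt M x' y' i - segPt M x' y' j)
              - (segPt M x' y' i - segPt M x y i)) (segPt M x' y' j - segPt M x y j)
          rw [← e] at this
          have := norm_sub_le (segPt M x' y' i - segPt M x' y' j)
            (segPt M x' y' i - segPt M x y i)
          linarith
        have t2 : R₀ ≤ ‖segPt M x' y' i - segPt M x y j‖ := by
          have e : segPt M x y i - segPt M x y j = (segPt M x' y' i - segPt M x y j)
              - (segPt M x' y' i - segPt M x y i) := by abel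
          have := norm_sub_le (segPt M x' y' i - segPt M x y j)
            (segPt M x' y' i - segPt M x y i)
          rw [← e] at this
          linarith
        have t3 : R₀ ≤ ‖segPt M x y i - segPt M x' y' j‖ := by
          have e : segPt M x y i - segPt M x y j = (segPt M x y i - segPt M x' y' j)
              + (segPt M x' y' j - segPt M x y j) := by abel
          have := norm_add_le (segPt M x y i - segPt M x' y' j)
            (segPt M x' y' j - segPt M x y j)
          rw [← e] at this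
          linarith
        show inner ℝ (G (segPt M x' y' i) - G (segPt M x y i))
          (G (segPt M x' y' j) - G (segPt M x y j)) = 0
        rw [inner_sub_left, inner_sub_right, inner_sub_right, hG.range _ _ t1, hG.range _ _ t2,
          hG.range _ _ t3, hG.range _ _ (by linarith)]
        simp)
    have hsq : ‖lc G (dfT M x y x' y')‖ ^ 2 ≤ (64 * (R₀ + 1) * C * δ / √l) ^ 2 := by
      rw [e1, norm_smul, mul_pow]
      have h1 : ‖(1 / (M : ℝ))‖ ^ 2 = 1 / (M : ℝ) ^ 2 := by
        rw [Real.norm_eq_abs, sq_abs]; ring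
      rw [h1]
      calc 1 / (M : ℝ) ^ 2 * ‖∑ i ∈ Finset.range M, (G (segPt M x' y' i) - G (segPt M x y i))‖ ^ 2
          ≤ 1 / (M : ℝ) ^ 2 * (M * (2 * ((R₀ + 2) * M / L) + 1) * (C * δ) ^ 2) := by gcongr
        _ = (2 * (R₀ + 2) / L + 1 / M) * (C * δ) ^ 2 := by field_simp
        _ ≤ (2 * (R₀ + 2) / (l / 8) + 1 / l) * (C * δ) ^ 2 := by gcongr
        _ = (16 * R₀ + 33) * (C * δ) ^ 2 / l := by field_simp; ring
        _ ≤ (64 * (R₀ + 1)) ^ 2 * (C * δ) ^ 2 / l := by
            gcongr
            nlinarith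
        _ = (64 * (R₀ + 1) * C * δ / √l) ^ 2 := by
            rw [div_pow, Real.sq_sqrt hl0.le]; ring
    exact (abs_le_of_sq_le_sq' hsq (by positivity)).2
  · have hA : ‖lc G (dfT M x y x' y')‖ ≤ ‖lc G (avgT M x' y')‖ + ‖lc G (avgT M x y)‖ := by
      rw [e0]; exact norm_sub_le _ _
    rcases le_or_gt δ (L / 4) with hδL | hδL
    · -- both averages are small
      have hL' : L / 2 ≤ ‖y' - x'‖ := by
        have e : y - x = (y' - x') - (y' - y) + (x' - x) := by abel
        have h1 := norm_add_le ((y' - x') - (y' - y)) (x' - x)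
        rw [← e] at h1
        have h2 := norm_sub_le (y' - x') (y' - y)
        rw [← hLdef] at h1
        linarith
      have hne : x ≠ y := by
        intro h; rw [hLdef, h, sub_self, norm_zero] at hL0; exact lt_irrefl _ hL0
      have hne' : x' ≠ y' := by
        intro h; rw [h, sub_self, norm_zero] at hL'; linarith
      have n1 := norm_lc_avgT_sq hG hM hne hLM
      have n2 := norm_lc_avgT_sq hG hM hne' hLM'
      have hs : (R₀ + 1) ^ 2 ≥ 2 * R₀ + 1 := by nlinarith
      have m1 : ‖lc G (avgT M x y)‖ ≤ 4 * (R₀ + 1) * C / √l := by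
        have h2 : ‖lc G (avgT M x y)‖ ^ 2 ≤ (4 * (R₀ + 1) * C / √l) ^ 2 := by
          rw [div_pow, Real.sq_sqrt hl0.le]
          refine n1.trans ?_
          calc (2 * R₀ + 1) * C ^ 2 / L ≤ (2 * R₀ + 1) * C ^ 2 / (l / 8) := by gcongr
            _ = 8 * ((2 * R₀ + 1) * C ^ 2) / l := by field_simp
            _ ≤ (4 * (R₀ + 1) * C) ^ 2 / l := by
                gcongr
                nlinarith [sq_nonneg C, mul_nonneg (sq_nonneg C) (by linarith : 0 ≤ (R₀ + 1) ^ 2 - (2 * R₀ + 1)), mul_nonneg (sq_nonneg C) (sq_nonneg (R₀ + 1))]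
        exact (abs_le_of_sq_le_sq' h2 (by positivity)).2
      have m2 : ‖lc G (avgT M x' y')‖ ≤ 4 * (R₀ + 1) * C / √l := by
        have h2 : ‖lc G (avgT M x' y')‖ ^ 2 ≤ (4 * (R₀ + 1) * C / √l) ^ 2 := by
          rw [div_pow, Real.sq_sqrt hl0.le]
          refine n2.trans ?_
          calc (2 * R₀ + 1) * C ^ 2 / ‖y' - x'‖ ≤ (2 * R₀ + 1) * C ^ 2 / (l / 16) := by
                gcongr
                linarith
            _ = 16 * ((2 * R₀ + 1) * C ^ 2) / l := by field_simp
            _ ≤ (4 * (R₀ + 1) * C) ^ 2 / l := by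
                gcongr
                nlinarith [mul_nonneg (sq_nonneg C) (by linarith : 0 ≤ (R₀ + 1) ^ 2 - (2 * R₀ + 1))]
        exact (abs_le_of_sq_le_sq' h2 (by positivity)).2
      calc ‖lc G (dfT M x y x' y')‖ ≤ 4 * (R₀ + 1) * C / √l + 4 * (R₀ + 1) * C / √l := by linarith
        _ = 8 * (R₀ + 1) * C * 1 / √l := by ring
        _ ≤ 64 * (R₀ + 1) * C * δ / √l := by gcongr; norm_num
    · -- trivial bound
      have n1 := norm_lc_avgT_le hG M x y
      have n2 := norm_lc_avgT_le hG M x' y'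
      have hδl : l / 32 ≤ δ := by linarith
      calc ‖lc G (dfT M x y x' y')‖ ≤ 2 * C := by linarith
        _ = 64 * 1 * C * (l / 32) / l := by field_simp; norm_num
        _ ≤ 64 * (R₀ + 1) * C * δ / l := by gcongr; linarith
        _ ≤ 64 * (R₀ + 1) * C * δ / √l := by gcongr

/-- Points of the support of an average. -/
lemma mem_support_avgT {M : ℕ} {x y z : Eu d} (h : z ∈ (avgT M x y).support) :
    ∃ i < M, z = segPt M x y i := by
  classical
  by_contra hcon
  push Not at hcon
  rw [Finsupp.mem_support_iff] at h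
  apply h
  unfold avgT
  rw [Finsupp.smul_apply, Finsupp.finsetSum_apply, Finset.sum_eq_zero, smul_zero]
  intro i hi
  exact Finsupp.single_eq_of_ne (fun h1 => hcon i (Finset.mem_range.1 hi) h1)

/-- The test `a` only uses values in the ball of radius `r` around `O`. -/
def SuppIn (a : Eu d →₀ ℝ) (O : Eu d) (r : ℝ) : Prop := ∀ z ∈ a.support, ‖z - O‖ ≤ r

lemma SuppIn.zero (O : Eu d) (r : ℝ) : SuppIn (0 : Eu d →₀ ℝ) O r := by
  intro z hz; simp at hz

lemma SuppIn.smul {a : Eu d →₀ ℝ} {O : Eu d} {r : ℝ} (h : SuppIn a O r) (c : ℝ) :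
    SuppIn (c • a) O r := fun z hz => h z (Finsupp.support_smul hz)

lemma SuppIn.sub {a b : Eu d →₀ ℝ} {O : Eu d} {r : ℝ} (h : SuppIn a O r) (h' : SuppIn b O r) :
    SuppIn (a - b) O r := by
  classical
  intro z hz
  rcases Finset.mem_union.1 (Finsupp.support_sub hz) with h1 | h1
  · exact h z h1
  · exact h' z h1

lemma SuppIn.avgT {M : ℕ} {x y O : Eu d} {r : ℝ} (hx : ‖x - O‖ ≤ r) (hy : ‖y - O‖ ≤ r) :
    SuppIn (avgT M x y) O r := by
  intro z hz
  obtain ⟨i, hi, rfl⟩ := mem_support_avgT hz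
  have hM' : (0 : ℝ) < M := by exact_mod_cast (by omega : 0 < M)
  have hi1 : (i : ℝ) / M ≤ 1 := by rw [div_le_one hM']; exact_mod_cast hi.le
  have hi0 : (0 : ℝ) ≤ (i : ℝ) / M := by positivity
  have e : segPt M x y i - O = (1 - (i : ℝ) / M) • (x - O) + ((i : ℝ) / M) • (y - O) := by
    unfold segPt; module
  rw [e]
  refine (norm_add_le _ _).trans ?_
  rw [norm_smul, norm_smul, Real.norm_eq_abs, Real.norm_eq_abs, abs_of_nonneg (by linarith),
    abs_of_nonneg hi0]
  have h1 : 0 ≤ 1 - (i : ℝ) / M := by linarith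
  calc (1 - (i : ℝ) / M) * ‖x - O‖ + (i : ℝ) / M * ‖y - O‖
      ≤ (1 - (i : ℝ) / M) * r + (i : ℝ) / M * r := by gcongr
    _ = r := by ring

/-- Tests with distant supports are orthogonal. -/
lemma inner_lc_zero (hG : CovLaw G R₀ v₀ C) {a b : Eu d →₀ ℝ} {O O' : Eu d} {r : ℝ}
    (ha : SuppIn a O r) (hb : SuppIn b O' r) (h : 2 * r + R₀ ≤ ‖O - O'‖) :
    inner ℝ (lc G a) (lc G b) = 0 := by
  have e : ∀ a : Eu d →₀ ℝ, lc G a = ∑ x ∈ a.support, a x • G x := fun a => by
    simp [lc, Finsupp.linearCombination_apply, Finsupp.sum]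
  rw [e a, e b, sum_inner]
  refine Finset.sum_eq_zero fun x hx => ?_
  rw [inner_sum]
  refine Finset.sum_eq_zero fun y hy => ?_
  rw [real_inner_smul_left, real_inner_smul_right, hG.range x y, mul_zero, mul_zero]
  have h1 := ha x hx
  have h2 := hb y hy
  have e2 : O - O' = -(x - O) + (x - y) + (y - O') := by abel
  have h3 := norm_add_le (-(x - O) + (x - y)) (y - O')
  rw [← e2] at h3
  have h4 := norm_add_le (-(x - O)) (x - y)
  rw [norm_neg] at h4
  linarith

lemma suppIn_nT (Cs l e : ℝ) (M : ℕ) (O x y x' y' : Eu d) :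
    SuppIn (nT Cs l e M O x y x' y') O (4 * l) := by
  unfold nT
  split_ifs with h
  · obtain ⟨_, h1, h2, h3, h4⟩ := h
    exact ((SuppIn.avgT h3 h4).sub (SuppIn.avgT h1 h2)).smul _
  · exact SuppIn.zero _ _

lemma norm_nT_le (hG : CovLaw G R₀ v₀ C) {M : ℕ} {l e : ℝ} (hl : 1 ≤ l) (he : 0 < e)
    (hlM : 8 * l ≤ M) (O x y x' y' : Eu d) :
    ‖lc G (nT (64 * (R₀ + 1) * C) l e M O x y x' y')‖ ≤ 1 := by
  have hR := hG.R₀_pos
  have hC := hG.C_pos
  unfold nT
  split_ifs with h
  · obtain ⟨h0, h1, h2, h3, h4⟩ := h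
    have hM' : (0 : ℝ) < M := by linarith
    have hM : 0 < M := by exact_mod_cast hM'
    have hyx : ‖y - x‖ ≤ M := by
      have e1 : y - x = (y - O) - (x - O) := by abel
      have := norm_sub_le (y - O) (x - O)
      rw [← e1] at this
      linarith
    have hyx' : ‖y' - x'‖ ≤ M := by
      have e1 : y' - x' = (y' - O) - (x' - O) := by abel
      have := norm_sub_le (y' - O) (x' - O)
      rw [← e1] at this
      linarith
    set δ := max ‖x' - x‖ ‖y' - y‖ + e with hδ
    have hδ0 : 0 < δ := by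
      have : 0 ≤ max ‖x' - x‖ ‖y' - y‖ := le_max_of_le_left (norm_nonneg _)
      linarith
    have hn := norm_dfT_le hG hM (x := x) (y := y) (x' := x') (y' := y') (δ := δ) hl
      (by have := le_max_left ‖x' - x‖ ‖y' - y‖; linarith)
      (by have := le_max_right ‖x' - x‖ ‖y' - y‖; linarith) h0 hyx hyx' (by linarith)
    have hs : 0 < √l := Real.sqrt_pos.2 (by linarith)
    have hD : 0 < 64 * (R₀ + 1) * C * δ / √l := by positivity
    simp only [lc, map_smul]
    rw [norm_smul, norm_inv, Real.norm_eq_abs, abs_of_pos hD, inv_mul_le_iff₀ hD, mul_one]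
    exact hn
  · simp [lc]

lemma suppIn_bT (Cs l : ℝ) (M : ℕ) (O x y : Eu d) : SuppIn (bT Cs l M O x y) O (4 * l) := by
  unfold bT
  split_ifs with h
  · exact (SuppIn.avgT h.2.1 h.2.2).smul _
  · exact SuppIn.zero _ _

lemma norm_bT_le (hG : CovLaw G R₀ v₀ C) {M : ℕ} {l : ℝ} (hl : 1 ≤ l)
    (hlM : 8 * l ≤ M) (O x y : Eu d) :
    ‖lc G (bT (64 * (R₀ + 1) * C) l M O x y)‖ ≤ 1 := by
  have hR := hG.R₀_pos
  have hC := hG.C_pos
  unfold bT
  split_ifs with h
  · obtain ⟨h0, h1, h2⟩ := h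
    have hM' : (0 : ℝ) < M := by linarith
    have hM : 0 < M := by exact_mod_cast hM'
    have hl0 : 0 < l := by linarith
    have hyx : ‖y - x‖ ≤ M := by
      have e1 : y - x = (y - O) - (x - O) := by abel
      have := norm_sub_le (y - O) (x - O)
      rw [← e1] at this
      linarith
    have hne : x ≠ y := by
      intro h; rw [h, sub_self, norm_zero] at h0; linarith
    have n1 := norm_lc_avgT_sq hG hM hne hyx
    have hs : 0 < √l := Real.sqrt_pos.2 hl0
    have hD : 0 < 64 * (R₀ + 1) * C / √l := by positivity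
    simp only [lc, map_smul]
    rw [norm_smul, norm_inv, Real.norm_eq_abs, abs_of_pos hD, inv_mul_le_iff₀ hD, mul_one]
    have h2 : ‖lc G (avgT M x y)‖ ^ 2 ≤ (64 * (R₀ + 1) * C / √l) ^ 2 := by
      rw [div_pow, Real.sq_sqrt hl0.le]
      refine n1.trans ?_
      calc (2 * R₀ + 1) * C ^ 2 / ‖y - x‖ ≤ (2 * R₀ + 1) * C ^ 2 / (l / 8) := by gcongr
        _ = 8 * (2 * R₀ + 1) * C ^ 2 / l := by field_simp
        _ ≤ (64 * (R₀ + 1)) ^ 2 * C ^ 2 / l := by
            gcongr
            nlinarith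
        _ = (64 * (R₀ + 1) * C) ^ 2 / l := by ring
    exact (abs_le_of_sq_le_sq' h2 (by positivity)).2
  · simp [lc]

end Pool.Agent.Lib_MP_71c74a_pr
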