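import Pool.Agent.Lib_MP_71c74a_pr.GaussVec
import Pool.Agent.Lib_MP_71c74a_pr.PartDefs
import Pool.Agent.Lib_MP_71c74a_pr.SegTest

/-!
# The partition function of chains
-/

open MeasureTheory ProbabilityTheory Set
open scoped ENNReal NNReal Topology

namespace Pool.Agent.Lib_MP_71c74a_pr

variable {d : ℕ}

lemma measurable_Fseg (T : TP) (p q : Lt d) : Measurable (fun ψ : Eu d → ℝ => Fseg T ψ p q) := by
  unfold Fseg
  exact (measurable_PhiF T).comp (measurable_pi_lambda _ fun i => measurable_lc_pi _)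

lemma measurable_Zch (T : TP) (R₀ : ℝ) (N : ℕ) :
    Measurable (fun ψ : Eu d → ℝ => Zch T R₀ N ψ) := by
  classical
  unfold Zch
  refine Finset.measurable_sum _ fun p₀ _ => Finset.measurable_sum _ fun v₀ _ =>
    Finset.measurable_sum _ fun n _ => Measurable.const_mul ?_ _
  refine Finset.measurable_sum _ fun S _ => ?_
  split_ifs
  · exact Finset.measurable_prod _ fun a _ => measurable_Fseg T _ _
  · exact measurable_const

lemma measurable_Zin (T : TP) : Measurable (fun ψ : Eu d → ℝ => Zin T ψ) := by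
  unfold Zin
  exact Finset.measurable_sum _ fun _ _ => Finset.measurable_sum _ fun _ _ =>
    Finset.measurable_sum _ fun _ _ => Finset.measurable_sum _ fun _ _ => measurable_eT _ _

lemma measurable_Zfun (T : TP) (R₀ : ℝ) (N : ℕ) :
    Measurable (fun ψ : Eu d → ℝ => Zfun T R₀ N ψ) := by
  unfold Zfun
  exact (measurable_const.add (measurable_Zch T R₀ N)).add (measurable_Zin T)

lemma sum_wE_le (d B : ℕ) : ∑ n ∈ box d B, wE n ≤ 3 ^ d := by
  unfold wE
  rw [← ENNReal.ofReal_sum_of_nonneg fun n _ => (wtR_pos n).le]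
  calc ENNReal.ofReal (∑ n ∈ box d B, wtR n) ≤ ENNReal.ofReal (3 ^ d) :=
        ENNReal.ofReal_le_ofReal (sum_wtR_le d B)
    _ = 3 ^ d := by rw [ENNReal.ofReal_pow (by norm_num), ENNReal.ofReal_ofNat]

/-- The bound for the moment of the variable of a segment. -/
noncomputable def KF (d : ℕ) : ℝ≥0∞ := 1 + ferK + 3 ^ d * (3 ^ d * (ferK + ferK))

lemma one_le_KF (d : ℕ) : 1 ≤ KF d := by
  unfold KF
  rw [add_assoc]
  exact le_self_add

lemma KF_ne_top (d : ℕ) : KF d ≠ ∞ := by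
  have := ferK_ne_top
  unfold KF
  finiteness

variable {Ω H : Type*} [MeasurableSpace Ω] [NormedAddCommGroup H]
  [InnerProductSpace ℝ H] {P : Measure Ω} {G : Eu d → H} {ψ : Eu d → Ω → ℝ} {R₀ v₀ C : ℝ}

lemma eT_moment (hψ : FieldLaw P G ψ) {ε : ℝ} (hε : ε ≤ ferE / 4) {a : Eu d →₀ ℝ}
    (ha : ‖lc G a‖ ≤ 1) : ∫⁻ ω, eT ε (fun x => ψ x ω) a ∂P ≤ ferK := by
  refine le_trans (lintegral_mono fun ω => ?_) (hψ.test_moment a ha)
  unfold eT
  apply ENNReal.ofReal_le_ofReal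
  apply Real.exp_le_exp.2
  gcongr

lemma TP.Adm.norm_tst {T : TP} (hT : T.Adm R₀ C) (hG : CovLaw G R₀ v₀ C) (p q : Lt d) (i : TI d) :
    ‖lc G (tst T p q i)‖ ≤ 1 := by
  have hs2 : 0 < T.s / 2 := by have := hT.s0; positivity
  have hM2 : 8 * T.l ≤ ((2 * T.M : ℕ) : ℝ) := by
    push_cast
    have := hT.lM
    have : (0 : ℝ) ≤ T.M := Nat.cast_nonneg _
    linarith
  rcases i with _ | ⟨b, n₁, n₂⟩
  · simp only [tst]; rw [hT.eCs]; exact norm_bT_le hG hT.l1 hM2 _ _ _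
  · cases b
    · simp only [tst]; rw [hT.eCs]; exact norm_nT_le hG hT.l1 hs2 hT.lM _ _ _ _ _
    · simp only [tst]; rw [hT.eCs]; exact norm_nT_le hG hT.l1 hs2 hT.lM _ _ _ _ _

lemma suppIn_tst (T : TP) (p q : Lt d) (i : TI d) :
    SuppIn (tst T p q i) (emb T.s q) (4 * T.l) := by
  rcases i with _ | ⟨b, n₁, n₂⟩
  · exact suppIn_bT _ _ _ _ _ _
  · cases b
    · exact suppIn_nT _ _ _ _ _ _ _ _ _
    · exact suppIn_nT _ _ _ _ _ _ _ _ _

lemma FieldLaw.measurable_fun (hψ : FieldLaw P G ψ) : Measurable (fun ω => (fun x => ψ x ω)) :=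
  measurable_pi_lambda _ hψ.meas

lemma lintegral_Fseg_le (hG : CovLaw G R₀ v₀ C) (hψ : FieldLaw P G ψ) {T : TP}
    (hT : T.Adm R₀ C) (p q : Lt d) : ∫⁻ ω, Fseg T (fun x => ψ x ω) p q ∂P ≤ KF d := by
  have hP := hψ.isProbabilityMeasure
  have hm : ∀ i, Measurable fun ω => eS T.ε (lc (fun x => ψ x ω) (tst T p q i)) := fun i =>
    (measurable_eS T.ε).comp (hψ.measurable_lc _)
  have hE : ∀ i, ∫⁻ ω, eS T.ε (lc (fun x => ψ x ω) (tst T p q i)) ∂P ≤ ferK := fun i =>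
    eT_moment hψ hT.eε.le (hT.norm_tst hG p q i)
  have hm2 : ∀ n₁ n₂ : Lt d, Measurable fun ω => wE n₁ * wE n₂
      * (eS T.ε (lc (fun x => ψ x ω) (tst T p q (some (true, n₁, n₂))))
        + eS T.ε (lc (fun x => ψ x ω) (tst T p q (some (false, n₁, n₂))))) := fun n₁ n₂ =>
    ((hm _).add (hm _)).const_mul _
  have hF : ∫⁻ ω, Fseg T (fun x => ψ x ω) p q ∂P = ∫⁻ ω,
      ((1 + eS T.ε (lc (fun x => ψ x ω) (tst T p q none)))
      + ∑ n₁ ∈ box d T.B, ∑ n₂ ∈ box d T.B, wE n₁ * wE n₂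
      * (eS T.ε (lc (fun x => ψ x ω) (tst T p q (some (true, n₁, n₂))))
        + eS T.ε (lc (fun x => ψ x ω) (tst T p q (some (false, n₁, n₂)))))) ∂P := rfl
  have m1 : Measurable fun ω => (1 : ℝ≥0∞) + eS T.ε (lc (fun x => ψ x ω) (tst T p q none)) :=
    measurable_const.add (hm none)
  rw [hF, lintegral_add_left m1, lintegral_add_left measurable_const,
    lintegral_finsetSum _ fun n₁ _ => Finset.measurable_sum _ fun n₂ _ => hm2 n₁ n₂]
  unfold KF
  gcongr
  · simp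
  · exact hE none
  · calc ∑ n₁ ∈ box d T.B, ∫⁻ ω, ∑ n₂ ∈ box d T.B, wE n₁ * wE n₂
          * (eS T.ε (lc (fun x => ψ x ω) (tst T p q (some (true, n₁, n₂))))
            + eS T.ε (lc (fun x => ψ x ω) (tst T p q (some (false, n₁, n₂))))) ∂P
        ≤ ∑ n₁ ∈ box d T.B, wE n₁ * (3 ^ d * (ferK + ferK)) := by
          refine Finset.sum_le_sum fun n₁ _ => ?_
          rw [lintegral_finsetSum _ fun n₂ _ => hm2 n₁ n₂]
          calc ∑ n₂ ∈ box d T.B, ∫⁻ ω, wE n₁ * wE n₂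
                * (eS T.ε (lc (fun x => ψ x ω) (tst T p q (some (true, n₁, n₂))))
                  + eS T.ε (lc (fun x => ψ x ω) (tst T p q (some (false, n₁, n₂))))) ∂P
              ≤ ∑ n₂ ∈ box d T.B, wE n₁ * wE n₂ * (ferK + ferK) := by
                refine Finset.sum_le_sum fun n₂ _ => ?_
                have ms : Measurable fun ω =>
                    eS T.ε (lc (fun x => ψ x ω) (tst T p q (some (true, n₁, n₂))))
                    + eS T.ε (lc (fun x => ψ x ω) (tst T p q (some (false, n₁, n₂)))) :=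
                  (hm _).add (hm _)
                rw [lintegral_const_mul _ ms, lintegral_add_left (hm _)]
                gcongr
                · exact hE _
                · exact hE _
            _ = wE n₁ * ((∑ n₂ ∈ box d T.B, wE n₂) * (ferK + ferK)) := by
                rw [Finset.sum_mul, Finset.mul_sum]
                refine Finset.sum_congr rfl fun n₂ _ => ?_
                ring
            _ ≤ _ := by
                gcongr
                exact sum_wE_le d T.B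
      _ = (∑ n₁ ∈ box d T.B, wE n₁) * (3 ^ d * (ferK + ferK)) := by rw [Finset.sum_mul]
      _ ≤ _ := by
          gcongr
          exact sum_wE_le d T.B

/-- Independence of the variables of distant segments. -/
lemma lintegral_prod_Fseg_le (hG : CovLaw G R₀ v₀ C) (hψ : FieldLaw P G ψ) {T : TP}
    (hT : T.Adm R₀ C) {p₀ v₀' : Lt d} {n : ℕ → Lt d} {S : Finset ℕ} {N : ℕ}
    (hS : S ⊆ Finset.range N) (hsep : Sep T R₀ p₀ v₀' n S) :
    ∫⁻ ω, ∏ a ∈ S, Fseg T (fun x => ψ x ω) (cp p₀ v₀' n a) (cq p₀ v₀' n a) ∂P ≤ KF d ^ N := by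
  have hP := hψ.isProbabilityMeasure
  have hind := hψ.iIndepFun_tests (T := S) (S := fun _ => TI d)
    (fun t i => tst T (cp p₀ v₀' n t) (cq p₀ v₀' n t) i) (by
      intro t₁ t₂ ht s₁ s₂
      have hne : (t₁ : ℕ) ≠ t₂ := fun h => ht (Subtype.ext h)
      exact inner_lc_zero hG (suppIn_tst T _ _ s₁) (suppIn_tst T _ _ s₂)
        (hsep t₁ t₁.2 t₂ t₂.2 hne))
  have hind2 := hind.comp (fun _ => PhiF T) (fun _ => measurable_PhiF T)
  have hind3 : iIndepFun (fun (t : S) ω => Fseg T (fun x => ψ x ω) (cp p₀ v₀' n t)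
      (cq p₀ v₀' n t)) P := hind2
  have hm : ∀ t : S, Measurable fun ω => Fseg T (fun x => ψ x ω) (cp p₀ v₀' n t)
      (cq p₀ v₀' n t) := fun t => (measurable_Fseg T _ _).comp hψ.measurable_fun
  have h1 : ∀ ω, ∏ a ∈ S, Fseg T (fun x => ψ x ω) (cp p₀ v₀' n a) (cq p₀ v₀' n a)
      = ∏ t : S, Fseg T (fun x => ψ x ω) (cp p₀ v₀' n t) (cq p₀ v₀' n t) := fun ω =>
    (Finset.prod_coe_sort S (fun a => Fseg T (fun x => ψ x ω) (cp p₀ v₀' n a)
      (cq p₀ v₀' n a))).symm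
  simp_rw [h1]
  rw [lintegral_prod_eq_prod_lintegral_of_indepFun Finset.univ _ hind3 hm]
  calc ∏ t : S, ∫⁻ ω, Fseg T (fun x => ψ x ω) (cp p₀ v₀' n t) (cq p₀ v₀' n t) ∂P
      ≤ ∏ _t : S, KF d := Finset.prod_le_prod' fun t _ => lintegral_Fseg_le hG hψ hT _ _
    _ = KF d ^ S.card := by
        rw [Finset.prod_const, Finset.card_univ, Fintype.card_coe]
    _ ≤ KF d ^ N := by
        apply pow_le_pow_right₀ (one_le_KF d)
        have := Finset.card_le_card hS
        rwa [Finset.card_range] at this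

lemma lintegral_Zch_le (hG : CovLaw G R₀ v₀ C) (hψ : FieldLaw P G ψ) {T : TP}
    (hT : T.Adm R₀ C) (N : ℕ) :
    ∫⁻ ω, Zch T R₀ N (fun x => ψ x ω) ∂P
      ≤ (box d T.B).card * ((box d T.B).card * ((3 ^ d) ^ (N - 1) * (2 ^ N * KF d ^ N))) := by
  classical
  have hP := hψ.isProbabilityMeasure
  have hm0 : ∀ (p₀ v₀ : Lt d) (n : ℕ → Lt d) (S : Finset ℕ), Measurable fun ω =>
      if Sep T R₀ p₀ v₀ n S then
        ∏ a ∈ S, Fseg T (fun x => ψ x ω) (cp p₀ v₀ n a) (cq p₀ v₀ n a) else 0 := by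
    intro p₀ v₀ n S
    split_ifs
    · exact Finset.measurable_prod _ fun a _ => (measurable_Fseg T _ _).comp hψ.measurable_fun
    · exact measurable_const
  have hm1 : ∀ (p₀ v₀ : Lt d) (n : Fin (N - 1) → Lt d), Measurable fun ω => (∏ i, wE (n i)) *
      ∑ S ∈ (Finset.range N).powerset, if Sep T R₀ p₀ v₀ (extZ n) S then
        ∏ a ∈ S, Fseg T (fun x => ψ x ω) (cp p₀ v₀ (extZ n) a) (cq p₀ v₀ (extZ n) a) else 0 :=
    fun p₀ v₀ n => (Finset.measurable_sum _ fun S _ => hm0 _ _ _ _).const_mul _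
  unfold Zch
  rw [lintegral_finsetSum _ fun p₀ _ => Finset.measurable_sum _ fun v₀ _ =>
    Finset.measurable_sum _ fun n _ => hm1 p₀ v₀ n]
  refine (Finset.sum_le_sum (g := fun _ => (box d T.B).card * ((3 ^ d) ^ (N - 1)
    * (2 ^ N * KF d ^ N))) fun p₀ _ => ?_).trans (le_of_eq (by rw [Finset.sum_const, nsmul_eq_mul]))
  rw [lintegral_finsetSum _ fun v₀ _ => Finset.measurable_sum _ fun n _ => hm1 p₀ v₀ n]
  refine (Finset.sum_le_sum (g := fun _ => (3 ^ d) ^ (N - 1)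
    * (2 ^ N * KF d ^ N)) fun v₀ _ => ?_).trans (le_of_eq (by rw [Finset.sum_const, nsmul_eq_mul]))
  rw [lintegral_finsetSum _ fun n _ => hm1 p₀ v₀ n]
  calc ∑ n ∈ Fintype.piFinset (fun _ : Fin (N - 1) => box d T.B), ∫⁻ ω, (∏ i, wE (n i)) *
      ∑ S ∈ (Finset.range N).powerset, (if Sep T R₀ p₀ v₀ (extZ n) S then
        ∏ a ∈ S, Fseg T (fun x => ψ x ω) (cp p₀ v₀ (extZ n) a) (cq p₀ v₀ (extZ n) a) else 0) ∂P
      ≤ ∑ n ∈ Fintype.piFinset (fun _ : Fin (N - 1) => box d T.B),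
        (∏ i, wE (n i)) * (2 ^ N * KF d ^ N) := by
        refine Finset.sum_le_sum fun n _ => ?_
        rw [lintegral_const_mul _ (Finset.measurable_sum _ fun S _ => hm0 _ _ _ _),
          lintegral_finsetSum _ fun S _ => hm0 _ _ _ _]
        gcongr
        refine (Finset.sum_le_sum (g := fun _ => KF d ^ N) fun S hS => ?_).trans (le_of_eq ?_)
        · have hS' := Finset.mem_powerset.1 hS
          by_cases hsep : Sep T R₀ p₀ v₀ (extZ n) S
          · simp only [if_pos hsep]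
            exact lintegral_prod_Fseg_le hG hψ hT hS' hsep
          · simp only [if_neg hsep]
            simp
        · rw [Finset.sum_const, Finset.card_powerset, Finset.card_range, nsmul_eq_mul]
          push_cast
          rfl
    _ = (∑ n ∈ Fintype.piFinset (fun _ : Fin (N - 1) => box d T.B), ∏ i, wE (n i))
        * (2 ^ N * KF d ^ N) := by rw [Finset.sum_mul]
    _ = (∏ _i : Fin (N - 1), ∑ m ∈ box d T.B, wE m) * (2 ^ N * KF d ^ N) := by
        rw [Finset.prod_univ_sum (fun _ : Fin (N - 1) => box d T.B) (fun _ m => wE m)]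
    _ ≤ (3 ^ d) ^ (N - 1) * (2 ^ N * KF d ^ N) := by
        rw [Finset.prod_const, Finset.card_univ, Fintype.card_fin]
        gcongr
        exact sum_wE_le d T.B

lemma lintegral_Zin_le (hG : CovLaw G R₀ v₀ C) (hψ : FieldLaw P G ψ) {T : TP}
    (hT : T.Adm R₀ C) :
    ∫⁻ ω, Zin T (fun x => ψ x ω) ∂P ≤ ((box d T.B).card : ℝ≥0∞) ^ 4 * ferK := by
  have hm : ∀ a : Eu d →₀ ℝ, Measurable fun ω => eT T.ε (fun x => ψ x ω) a := fun a =>
    (measurable_eT T.ε a).comp hψ.measurable_fun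
  have hM2 : 8 * T.l ≤ ((2 * T.M : ℕ) : ℝ) := by
    push_cast
    have := hT.lM
    have : (0 : ℝ) ≤ T.M := Nat.cast_nonneg _
    linarith
  unfold Zin
  rw [lintegral_finsetSum _ fun _ _ => Finset.measurable_sum _ fun _ _ =>
    Finset.measurable_sum _ fun _ _ => Finset.measurable_sum _ fun _ _ => hm _]
  refine (Finset.sum_le_sum (g := fun _ => (box d T.B).card * ((box d T.B).card
    * ((box d T.B).card * ferK))) fun p _ => ?_).trans (le_of_eq ?_)
  · rw [lintegral_finsetSum _ fun _ _ =>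
      Finset.measurable_sum _ fun _ _ => Finset.measurable_sum _ fun _ _ => hm _]
    refine (Finset.sum_le_sum (g := fun _ => (box d T.B).card
      * ((box d T.B).card * ferK)) fun q _ => ?_).trans
      (le_of_eq (by rw [Finset.sum_const, nsmul_eq_mul]))
    rw [lintegral_finsetSum _ fun _ _ => Finset.measurable_sum _ fun _ _ => hm _]
    refine (Finset.sum_le_sum (g := fun _ => (box d T.B).card * ferK) fun p' _ => ?_).trans
      (le_of_eq (by rw [Finset.sum_const, nsmul_eq_mul]))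
    rw [lintegral_finsetSum _ fun _ _ => hm _]
    refine (Finset.sum_le_sum (g := fun _ => ferK) fun q' _ => ?_).trans
      (le_of_eq (by rw [Finset.sum_const, nsmul_eq_mul]))
    refine eT_moment hψ hT.eε.le ?_
    rw [hT.eCs]
    exact norm_nT_le hG hT.l1 hT.s0 hM2 _ _ _ _ _
  · rw [Finset.sum_const, nsmul_eq_mul]
    ring

/-- The growth constant of the partition function. -/
noncomputable def KA (d : ℕ) : ℝ≥0∞ := 6 * 3 ^ d * KF d

lemma KA_ne_top (d : ℕ) : KA d ≠ ∞ := by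
  have := KF_ne_top d
  unfold KA
  finiteness

lemma one_le_KA (d : ℕ) : 1 ≤ KA d := by
  unfold KA
  have h1 := one_le_KF d
  have h2 : (1 : ℝ≥0∞) ≤ 3 ^ d := one_le_pow₀ (by norm_num)
  calc (1 : ℝ≥0∞) = 1 * 1 * 1 := by norm_num
    _ ≤ 6 * 3 ^ d * KF d := by
        gcongr
        norm_num

/-- **Moment of the functional.** -/
theorem lintegral_Zfun_le (hG : CovLaw G R₀ v₀ C) (hψ : FieldLaw P G ψ) {T : TP}
    (hT : T.Adm R₀ C) {N : ℕ} (hN : 0 < N) :
    ∫⁻ ω, Zfun T R₀ N (fun x => ψ x ω) ∂P ≤ ((box d T.B).card : ℝ≥0∞) ^ 4 * KA d ^ N := by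
  have hP := hψ.isProbabilityMeasure
  have m1 : Measurable fun ω => (1 : ℝ≥0∞) + Zch T R₀ N (fun x => ψ x ω) :=
    measurable_const.add ((measurable_Zch T R₀ N).comp hψ.measurable_fun)
  have hF : ∫⁻ ω, Zfun T R₀ N (fun x => ψ x ω) ∂P = ∫⁻ ω,
      ((1 + Zch T R₀ N (fun x => ψ x ω)) + Zin T (fun x => ψ x ω)) ∂P := rfl
  rw [hF, lintegral_add_left m1, lintegral_add_left measurable_const]
  have h1 := lintegral_Zch_le hG hψ hT N
  have h2 := lintegral_Zin_le hG hψ hT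
  set b : ℝ≥0∞ := ((box d T.B).card : ℝ≥0∞) with hb
  have hb1 : 1 ≤ b := by
    rw [hb, card_box]
    exact_mod_cast Nat.one_le_iff_ne_zero.2 (by positivity)
  set K := KF d with hK
  have hK1 : 1 ≤ K := one_le_KF d
  have h3d : (1 : ℝ≥0∞) ≤ 3 ^ d := one_le_pow₀ (by norm_num)
  set Q : ℝ≥0∞ := b ^ 4 * ((3 ^ d) ^ N * (2 ^ N * K ^ N)) with hQ
  have hpowK : 1 ≤ K ^ N := one_le_pow₀ hK1
  have hpow3 : (1 : ℝ≥0∞) ≤ (3 ^ d) ^ N := one_le_pow₀ h3d
  have hpow2 : (1 : ℝ≥0∞) ≤ 2 ^ N := one_le_pow₀ (by norm_num)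
  have hb4 : 1 ≤ b ^ 4 := one_le_pow₀ hb1
  have t1 : ∫⁻ _ω : Ω, (1 : ℝ≥0∞) ∂P ≤ Q := by
    rw [lintegral_one, measure_univ, hQ]
    calc (1 : ℝ≥0∞) = 1 * (1 * (1 * 1)) := by norm_num
      _ ≤ _ := by gcongr
  have t2 : b * (b * ((3 ^ d) ^ (N - 1) * (2 ^ N * K ^ N))) ≤ Q := by
    rw [hQ]
    calc b * (b * ((3 ^ d) ^ (N - 1) * (2 ^ N * K ^ N)))
        = b ^ 2 * ((3 ^ d) ^ (N - 1) * (2 ^ N * K ^ N)) := by ring
      _ ≤ b ^ 4 * ((3 ^ d) ^ N * (2 ^ N * K ^ N)) :=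
          mul_le_mul' (pow_le_pow_right₀ hb1 (by norm_num))
            (mul_le_mul' (pow_le_pow_right₀ h3d (by omega)) le_rfl)
  have t3 : b ^ 4 * ferK ≤ Q := by
    rw [hQ]
    gcongr
    calc ferK ≤ K := by
          rw [hK]; unfold KF
          rw [add_comm (1 : ℝ≥0∞) ferK, add_assoc]
          exact le_self_add
      _ = K ^ 1 := (pow_one K).symm
      _ ≤ K ^ N := pow_le_pow_right₀ hK1 hN
      _ = 1 * (1 * K ^ N) := by ring
      _ ≤ _ := by gcongr
  calc ∫⁻ _ω : Ω, (1 : ℝ≥0∞) ∂P + ∫⁻ ω, Zch T R₀ N (fun x => ψ x ω) ∂P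
        + ∫⁻ ω, Zin T (fun x => ψ x ω) ∂P ≤ Q + Q + Q :=
        add_le_add (add_le_add t1 (h1.trans t2)) (h2.trans t3)
    _ = 3 * Q := by ring
    _ ≤ 3 ^ N * Q := by
        gcongr
        calc (3 : ℝ≥0∞) = 3 ^ 1 := (pow_one _).symm
          _ ≤ 3 ^ N := pow_le_pow_right₀ (by norm_num) hN
    _ = b ^ 4 * KA d ^ N := by
        rw [hQ]
        unfold KA
        rw [mul_pow, mul_pow]
        have : (6 : ℝ≥0∞) ^ N = 3 ^ N * 2 ^ N := by rw [← mul_pow]; norm_num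
        rw [this]
        ring

end Pool.Agent.Lib_MP_71c74a_pr
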