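import Pool.Agent.Lib_MP_71c74a_pr.LevelDefs
import Pool.Agent.Lib_MP_71c74a_pr.Partition

/-!
# The mixture of the partition functions
-/

open MeasureTheory ProbabilityTheory Set
open scoped ENNReal NNReal Topology

namespace Pool.Agent.Lib_MP_71c74a_pr

variable {d : ℕ}

lemma sum_geom_vs (m : ℕ) : ∑ i ∈ Finset.range m, vs ^ i ≤ 4 := by
  have hv := vs_pos
  have h1 : ∀ i ∈ Finset.range m, vs ^ i ≤ (3 / 4 : ℝ) ^ i := fun i _ =>
    pow_le_pow_left₀ hv.le vs_le i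
  refine (Finset.sum_le_sum h1).trans ?_
  rw [geom_sum_eq (by norm_num)]
  have : (0 : ℝ) ≤ (3 / 4) ^ m := by positivity
  have e : ((3 / 4 : ℝ) ^ m - 1) / (3 / 4 - 1) = 4 * (1 - (3 / 4) ^ m) := by ring
  rw [e]; linarith

lemma sum_geom_half (m : ℕ) : ∑ i ∈ Finset.range m, (1 / 2 : ℝ) ^ i ≤ 2 := by
  rw [geom_sum_eq (by norm_num)]
  have : (0 : ℝ) ≤ (1 / 2) ^ m := by positivity
  have e : ((1 / 2 : ℝ) ^ m - 1) / (1 / 2 - 1) = 2 * (1 - (1 / 2) ^ m) := by ring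
  rw [e]; linarith

lemma half_le_vs : 1 / 2 ≤ vs := by
  have h1 := vs_sq
  have h2 := vs_le
  have h3 := vs_pos
  nlinarith

lemma sum_vs_Ico (k₀ J : ℕ) : ∑ g ∈ Finset.Ico (J - k₀) J, vs ^ (g + k₀ - J) ≤ 4 := by
  have hv := vs_pos
  have hv1 : vs ≤ 1 := vs_le.trans (by norm_num)
  rw [Finset.sum_Ico_eq_sum_range]
  refine le_trans (Finset.sum_le_sum (g := fun i => vs ^ i) fun i _ => ?_) (sum_geom_vs _)
  exact pow_le_pow_of_le_one hv.le hv1 (by omega)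

/-- Decay in the distance from the cutoff. -/
noncomputable def dl (k₀ J : ℕ) : ℝ := vs ^ (k₀ - J) * vs ^ (J - k₀)

lemma dl_nonneg (k₀ J : ℕ) : 0 ≤ dl k₀ J := by
  unfold dl; have := vs_pos; positivity

lemma sum_vs_div (k₀ J : ℕ) :
    ∑ g ∈ Finset.Ico (J - k₀) J, vs ^ (g + k₀ - J) / 2 ^ g ≤ 2 * dl k₀ J := by
  have hv := vs_pos
  have hv1 : vs ≤ 1 := vs_le.trans (by norm_num)
  rw [Finset.sum_Ico_eq_sum_range]
  have h1 : ∀ i ∈ Finset.range (J - (J - k₀)), vs ^ (J - k₀ + i + k₀ - J) / 2 ^ (J - k₀ + i)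
      ≤ dl k₀ J * (1 / 2) ^ i := by
    intro i _
    have e1 : J - k₀ + i + k₀ - J = (k₀ - J) + i := by omega
    rw [e1, pow_add, pow_add]
    unfold dl
    have h2 : vs ^ i ≤ 1 := pow_le_one₀ hv.le hv1
    have h3 : (1 : ℝ) / 2 ^ (J - k₀) ≤ vs ^ (J - k₀) := by
      rw [← one_div_pow]
      exact pow_le_pow_left₀ (by norm_num) half_le_vs _
    calc vs ^ (k₀ - J) * vs ^ i / (2 ^ (J - k₀) * 2 ^ i)
        = vs ^ (k₀ - J) * vs ^ i * (1 / 2 ^ (J - k₀)) * (1 / 2) ^ i := by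
          rw [one_div_pow]; field_simp
      _ ≤ vs ^ (k₀ - J) * 1 * vs ^ (J - k₀) * (1 / 2) ^ i := by gcongr
      _ = _ := by ring
  refine (Finset.sum_le_sum h1).trans ?_
  rw [← Finset.mul_sum]
  have := sum_geom_half (J - (J - k₀))
  have h0 := dl_nonneg k₀ J
  nlinarith

lemma sum_dl_le (k₀ M : ℕ) : ∑ J ∈ Finset.range M, dl k₀ J ≤ 8 := by
  have hv := vs_pos
  have hv1 : vs ≤ 1 := vs_le.trans (by norm_num)
  have h1 : ∑ J ∈ Finset.range M, dl k₀ J ≤ ∑ J ∈ Finset.range (k₀ + 1 + M), dl k₀ J := by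
    apply Finset.sum_le_sum_of_subset_of_nonneg
    · intro J hJ
      rw [Finset.mem_range] at hJ ⊢
      omega
    · intro J _ _
      exact dl_nonneg _ _
  refine h1.trans ?_
  rw [Finset.sum_range_add]
  have h2 : ∑ J ∈ Finset.range (k₀ + 1), dl k₀ J ≤ 4 := by
    have e : ∑ J ∈ Finset.range (k₀ + 1), dl k₀ J = ∑ i ∈ Finset.range (k₀ + 1), vs ^ i := by
      rw [← Finset.sum_range_reflect (fun i => vs ^ i)]
      refine Finset.sum_congr rfl fun J hJ => ?_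
      rw [Finset.mem_range] at hJ
      unfold dl
      have e1 : J - k₀ = 0 := by omega
      have e2 : k₀ + 1 - 1 - J = k₀ - J := by omega
      rw [e1, e2, pow_zero, mul_one]
    rw [e]; exact sum_geom_vs _
  have h3 : ∑ i ∈ Finset.range M, dl k₀ (k₀ + 1 + i) ≤ 4 := by
    refine le_trans (Finset.sum_le_sum (g := fun i => vs ^ i) fun i _ => ?_) (sum_geom_vs M)
    unfold dl
    have e1 : k₀ - (k₀ + 1 + i) = 0 := by omega
    have e2 : k₀ + 1 + i - k₀ = 1 + i := by omega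
    rw [e1, e2, pow_zero, one_mul]
    exact pow_le_pow_of_le_one hv.le hv1 (by omega)
  linarith

/-- Bound for the moments. -/
noncomputable def mG (d k g : ℕ) : ℝ≥0∞ :=
  ((box d (2 ^ (4 * k))).card : ℝ≥0∞) ^ 4 * KA d ^ (2 ^ g)

lemma card_box_pos (d B : ℕ) : 0 < (box d B).card := by
  rw [card_box]; positivity

lemma mG_ne_zero (d k g : ℕ) : mG d k g ≠ 0 := by
  unfold mG
  have h1 : ((box d (2 ^ (4 * k))).card : ℝ≥0∞) ≠ 0 := by
    exact_mod_cast (card_box_pos _ _).ne'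
  have h2 : KA d ≠ 0 := (lt_of_lt_of_le one_pos (one_le_KA d)).ne'
  exact mul_ne_zero (pow_ne_zero _ h1) (pow_ne_zero _ h2)

lemma mG_ne_top (d k g : ℕ) : mG d k g ≠ ∞ := by
  unfold mG
  have := KA_ne_top d
  finiteness

/-- Logarithm of the growth constant. -/
noncomputable def LK (d : ℕ) : ℝ := lgE (KA d)

lemma LK_nonneg (d : ℕ) : 0 ≤ LK d := lgE_nonneg (one_le_KA d) (KA_ne_top d)

lemma lgE_pow {x : ℝ≥0∞} (n : ℕ) : lgE (x ^ n) = n * lgE x := by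
  unfold lgE
  rw [ENNReal.toReal_pow, Real.log_pow]

lemma lgE_mG_le (d k g : ℕ) : lgE (mG d k g) ≤ 4 * (d * (4 * k + 2)) + 2 ^ g * LK d := by
  unfold mG
  have h1 : ((box d (2 ^ (4 * k))).card : ℝ≥0∞) ≠ 0 := by
    exact_mod_cast (card_box_pos _ _).ne'
  have h2 : KA d ≠ 0 := (lt_of_lt_of_le one_pos (one_le_KA d)).ne'
  have h3 := KA_ne_top d
  rw [lgE_mul (pow_ne_zero _ h1) (by finiteness) (pow_ne_zero _ h2) (by finiteness), lgE_pow,
    lgE_pow]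
  have h4 : lgE ((box d (2 ^ (4 * k))).card : ℝ≥0∞) ≤ d * (4 * k + 2) := by
    unfold lgE
    rw [ENNReal.toReal_natCast, card_box]
    push_cast
    rw [Real.log_pow]
    apply mul_le_mul_of_nonneg_left _ (Nat.cast_nonneg d)
    have h5 : (2 : ℝ) * 2 ^ (4 * k) + 1 ≤ 2 ^ (4 * k + 2) := by
      have : (1 : ℝ) ≤ 2 ^ (4 * k) := one_le_pow₀ (by norm_num)
      rw [pow_add]
      linarith
    refine (Real.log_le_log (by positivity) h5).trans ?_
    rw [Real.log_pow]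
    have h6 := Real.log_two_lt_d9
    have h7 : (0 : ℝ) ≤ ((4 * k + 2 : ℕ) : ℝ) := Nat.cast_nonneg _
    have h8 : ((4 * k + 2 : ℕ) : ℝ) * Real.log 2 ≤ ((4 * k + 2 : ℕ) : ℝ) * 1 := by
      gcongr
      linarith
    push_cast at h8 ⊢
    linarith
  have h9 : lgE (KA d) = LK d := rfl
  rw [h9]
  push_cast
  linarith

/-- The weights. -/
noncomputable def pG (k₀ J g : ℕ) : ℝ := vs ^ (g + k₀ - J) / (4 * 2 ^ g)

lemma pG_nonneg (k₀ J g : ℕ) : 0 ≤ pG k₀ J g := by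
  unfold pG; have := vs_pos; positivity

lemma sum_pG_le (k₀ J : ℕ) : ∑ g ∈ Finset.Ico (J - k₀) J, pG k₀ J g ≤ 1 := by
  have hv := vs_pos
  have h1 : ∀ g ∈ Finset.Ico (J - k₀) J, pG k₀ J g ≤ 1 / 4 * vs ^ (g + k₀ - J) := by
    intro g _
    unfold pG
    have : (1 : ℝ) ≤ 2 ^ g := one_le_pow₀ (by norm_num)
    rw [div_le_iff₀ (by positivity)]
    have h2 : 0 < vs ^ (g + k₀ - J) := by positivity
    nlinarith
  refine (Finset.sum_le_sum h1).trans ?_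
  rw [← Finset.mul_sum]
  have := sum_vs_Ico k₀ J
  linarith

/-- The mixture of the partition functions for the field `J`. -/
noncomputable def YJ (R₀ C : ℝ) (k k₀ J : ℕ) (ψ : Eu d → ℝ) : ℝ≥0∞ :=
  ∑ g ∈ Finset.Ico (J - k₀) J, ENNReal.ofReal (pG k₀ J g)
    * (Zfun (mkT R₀ C k k₀ J g) R₀ (2 ^ g) ψ / mG d k g)

lemma measurable_YJ (R₀ C : ℝ) (k k₀ J : ℕ) : Measurable (YJ (d := d) R₀ C k k₀ J) := by
  unfold YJ
  exact Finset.measurable_sum _ fun g _ =>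
    ((measurable_Zfun (mkT R₀ C k k₀ J g) R₀ (2 ^ g)).div_const _).const_mul _

/-- Moment of the mixture. -/
lemma lintegral_YJ_le {Ω H : Type*} [MeasurableSpace Ω] [NormedAddCommGroup H]
    [InnerProductSpace ℝ H] {P : Measure Ω} {G : Eu d → H} {ψ : Eu d → Ω → ℝ} {R₀ v₀ C : ℝ}
    (hG : CovLaw G R₀ v₀ C) (hψ : FieldLaw P G ψ) (k k₀ J : ℕ) :
    ∫⁻ ω, YJ R₀ C k k₀ J (fun x => ψ x ω) ∂P ≤ 1 := by
  unfold YJ
  have hm : ∀ g, Measurable fun ω => Zfun (mkT R₀ C k k₀ J g) R₀ (2 ^ g) (fun x => ψ x ω)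
      / mG d k g := fun g =>
    ((measurable_Zfun (mkT R₀ C k k₀ J g) R₀ (2 ^ g)).comp hψ.measurable_fun).div_const _
  rw [lintegral_finsetSum _ fun g _ => (hm g).const_mul _]
  have h1 : ∀ g ∈ Finset.Ico (J - k₀) J, ∫⁻ ω, ENNReal.ofReal (pG k₀ J g)
      * (Zfun (mkT R₀ C k k₀ J g) R₀ (2 ^ g) (fun x => ψ x ω) / mG d k g) ∂P
      ≤ ENNReal.ofReal (pG k₀ J g) := by
    intro g hg
    rw [Finset.mem_Ico] at hg
    rw [lintegral_const_mul _ (hm g)]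
    have h2 : ∫⁻ ω, Zfun (mkT R₀ C k k₀ J g) R₀ (2 ^ g) (fun x => ψ x ω) / mG d k g ∂P ≤ 1 := by
      simp_rw [div_eq_mul_inv]
      have hmZ : Measurable fun ω => Zfun (mkT R₀ C k k₀ J g) R₀ (2 ^ g) (fun x => ψ x ω) :=
        (measurable_Zfun (mkT R₀ C k k₀ J g) R₀ (2 ^ g)).comp hψ.measurable_fun
      rw [lintegral_mul_const _ hmZ]
      calc (∫⁻ ω, Zfun (mkT R₀ C k k₀ J g) R₀ (2 ^ g) (fun x => ψ x ω) ∂P) * (mG d k g)⁻¹
          ≤ mG d k g * (mG d k g)⁻¹ := by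
            gcongr
            exact lintegral_Zfun_le hG hψ (mkT_adm hg.2.le) (by positivity)
        _ = 1 := ENNReal.mul_inv_cancel (mG_ne_zero _ _ _) (mG_ne_top _ _ _)
    calc ENNReal.ofReal (pG k₀ J g)
        * ∫⁻ ω, Zfun (mkT R₀ C k k₀ J g) R₀ (2 ^ g) (fun x => ψ x ω) / mG d k g ∂P
        ≤ ENNReal.ofReal (pG k₀ J g) * 1 := by gcongr
      _ = _ := mul_one _
  refine (Finset.sum_le_sum h1).trans ?_
  rw [← ENNReal.ofReal_sum_of_nonneg fun g _ => pG_nonneg _ _ _]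
  exact (ENNReal.ofReal_le_ofReal (sum_pG_le k₀ J)).trans (by simp)

/-- From the mixture to the contribution to the cost. -/
lemma WJ_le {R₀ C : ℝ} {k k₀ J : ℕ} {ψ : Eu d → ℝ} {t : ℝ} (ht : 0 ≤ t)
    (h : 1 + YJ R₀ C k k₀ J ψ ≤ ENNReal.ofReal (Real.exp t)) :
    WJ R₀ C k k₀ J ψ ≤ 4 + 8 * t + 8 * (d * (4 * k + 2)) * dl k₀ J + 4 * LK d := by
  have hv := vs_pos
  set I := Finset.Ico (J - k₀) J with hI
  set x : ℕ → ℝ := fun g => (Zfun (mkT R₀ C k k₀ J g) R₀ (2 ^ g) ψ).toReal / (mG d k g).toReal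
    with hx
  have hm0 : ∀ g, 0 < (mG d k g).toReal := fun g =>
    ENNReal.toReal_pos (mG_ne_zero _ _ _) (mG_ne_top _ _ _)
  have hZ0 : ∀ g, 0 < (Zfun (mkT R₀ C k k₀ J g) R₀ (2 ^ g) ψ).toReal := fun g =>
    ENNReal.toReal_pos (lt_of_lt_of_le one_pos (one_le_Zfun _ _ _ _)).ne' (Zfun_ne_top _ _ _ _)
  have hx0 : ∀ g, 0 < x g := fun g => div_pos (hZ0 g) (hm0 g)
  have hY : YJ R₀ C k k₀ J ψ = ENNReal.ofReal (∑ g ∈ I, pG k₀ J g * x g) := by
    unfold YJ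
    rw [ENNReal.ofReal_sum_of_nonneg fun g _ => mul_nonneg (pG_nonneg _ _ _) (hx0 g).le]
    refine Finset.sum_congr rfl fun g _ => ?_
    rw [ENNReal.ofReal_mul (pG_nonneg _ _ _), hx]
    simp only
    rw [ENNReal.ofReal_div_of_pos (hm0 g), ENNReal.ofReal_toReal (Zfun_ne_top _ _ _ _),
      ENNReal.ofReal_toReal (mG_ne_top _ _ _)]
  have hs0 : 0 ≤ ∑ g ∈ I, pG k₀ J g * x g :=
    Finset.sum_nonneg fun g _ => mul_nonneg (pG_nonneg _ _ _) (hx0 g).le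
  set S := 1 + ∑ g ∈ I, pG k₀ J g * x g with hS
  have hS1 : 1 ≤ S := by linarith
  have hS0 : 0 < S := by linarith
  have hSt : S ≤ Real.exp t := by
    rw [hY, ← ENNReal.ofReal_one, ← ENNReal.ofReal_add zero_le_one hs0,
      ENNReal.ofReal_le_ofReal_iff (Real.exp_pos _).le] at h
    exact h
  have hlogS : Real.log S ≤ t := by
    have := Real.log_le_log hS0 hSt
    rwa [Real.log_exp] at this
  have hlogS0 : 0 ≤ Real.log S := Real.log_nonneg hS1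
  -- Jensen
  set Pp := ∑ g ∈ I, pG k₀ J g with hPp
  have hP0 : 0 ≤ Pp := Finset.sum_nonneg fun g _ => pG_nonneg _ _ _
  have hP1 : Pp ≤ 1 := sum_pG_le k₀ J
  have h1 : ∑ g ∈ I, pG k₀ J g * Real.log (x g) ≤ 2 * t := by
    have h2 : ∀ g ∈ I, pG k₀ J g * Real.log (x g)
        ≤ pG k₀ J g * x g / S + pG k₀ J g * (Real.log S - 1) := by
      intro g _
      have h3 := Real.log_le_sub_one_of_pos (div_pos (hx0 g) hS0)
      rw [Real.log_div (hx0 g).ne' hS0.ne'] at h3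
      have h4 := mul_le_mul_of_nonneg_left h3 (pG_nonneg k₀ J g)
      have h5 : pG k₀ J g * x g / S = pG k₀ J g * (x g / S) := by ring
      rw [h5]
      linarith
    refine (Finset.sum_le_sum h2).trans ?_
    rw [Finset.sum_add_distrib, ← Finset.sum_div, ← Finset.sum_mul, ← hPp]
    have h6 : (∑ g ∈ I, pG k₀ J g * x g) / S = 1 - S⁻¹ := by
      have : ∑ g ∈ I, pG k₀ J g * x g = S - 1 := by rw [hS]; ring
      rw [this]; field_simp
    rw [h6]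
    have h7 := Real.one_sub_inv_le_log_of_pos hS0
    have h8 : Pp * (Real.log S - 1) ≤ Real.log S := by
      have : Pp * Real.log S ≤ 1 * Real.log S := by gcongr
      linarith
    linarith
  -- logarithms
  have h2 : ∀ g, Real.log (x g) = LZ R₀ C k k₀ J ψ g - lgE (mG d k g) := by
    intro g
    rw [hx]
    simp only
    rw [Real.log_div (hZ0 g).ne' (hm0 g).ne']
    rfl
  have h3 : ∑ g ∈ I, pG k₀ J g * LZ R₀ C k k₀ J ψ g
      ≤ 2 * t + ∑ g ∈ I, pG k₀ J g * lgE (mG d k g) := by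
    have : ∑ g ∈ I, pG k₀ J g * Real.log (x g) = ∑ g ∈ I, pG k₀ J g * LZ R₀ C k k₀ J ψ g
        - ∑ g ∈ I, pG k₀ J g * lgE (mG d k g) := by
      rw [← Finset.sum_sub_distrib]
      refine Finset.sum_congr rfl fun g _ => ?_
      rw [h2 g]; ring
    linarith
  have h4 : ∑ g ∈ I, pG k₀ J g * lgE (mG d k g) ≤ 2 * (d * (4 * k + 2)) * dl k₀ J + LK d := by
    have h5 : ∀ g ∈ I, pG k₀ J g * lgE (mG d k g)
        ≤ (d * (4 * k + 2)) * (vs ^ (g + k₀ - J) / 2 ^ g) + LK d / 4 * vs ^ (g + k₀ - J) := by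
      intro g _
      refine (mul_le_mul_of_nonneg_left (lgE_mG_le d k g) (pG_nonneg _ _ _)).trans
        (le_of_eq ?_)
      unfold pG
      field_simp
    refine (Finset.sum_le_sum h5).trans ?_
    rw [Finset.sum_add_distrib, ← Finset.mul_sum, ← Finset.mul_sum]
    have h6 := sum_vs_div k₀ J
    have h7 := sum_vs_Ico k₀ J
    have h8 := LK_nonneg d
    have h9 : ((d : ℝ) * (4 * k + 2)) * ∑ g ∈ I, vs ^ (g + k₀ - J) / 2 ^ g
        ≤ (d * (4 * k + 2)) * (2 * dl k₀ J) := by gcongr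
    have h10 : LK d / 4 * ∑ g ∈ I, vs ^ (g + k₀ - J) ≤ LK d / 4 * 4 := by gcongr
    linarith
  have h5 : WJ R₀ C k k₀ J ψ = ∑ g ∈ I, vs ^ (g + k₀ - J)
      + 4 * ∑ g ∈ I, pG k₀ J g * LZ R₀ C k k₀ J ψ g := by
    unfold WJ
    rw [Finset.mul_sum, ← Finset.sum_add_distrib]
    refine Finset.sum_congr rfl fun g _ => ?_
    unfold pG
    field_simp
  have h6 := sum_vs_Ico k₀ J
  rw [h5]
  linarith

end Pool.Agent.Lib_MP_71c74a_pr
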