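import Mathlib

/-!
# Pieces of curves and length functionals
-/

open MeasureTheory Set
open scoped Topology

namespace Pool.Agent.Lib_MP_71c74a_pr

variable {E : Type*} [NormedAddCommGroup E] [InnerProductSpace ℝ E]

/-- The piece of `γ` from time `s` to time `t` stays within distance `r` of its start and ends at
distance exactly `r`. -/
structure IsPiece (γ : ℝ → E) (r s t : ℝ) : Prop where
  le : s ≤ t
  dist_eq : ‖γ t - γ s‖ = r
  inside : ∀ τ ∈ Icc s t, ‖γ τ - γ s‖ ≤ r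

omit [InnerProductSpace ℝ E] in
/-- First exit from a ball. -/
lemma exists_first_exit {γ : ℝ → E} {r τ t : ℝ} (hr : 0 < r)
    (hγ : ContinuousOn γ (Icc τ t)) (hex : ∃ σ ∈ Icc τ t, r ≤ ‖γ σ - γ τ‖) :
    ∃ σ ∈ Icc τ t, IsPiece γ r τ σ := by
  set f : ℝ → ℝ := fun σ => ‖γ σ - γ τ‖ with hf
  have hfc : ContinuousOn f (Icc τ t) := (hγ.sub continuousOn_const).norm
  set S : Set ℝ := {σ ∈ Icc τ t | r ≤ f σ} with hS
  have hSc : IsClosed S := by
    have : S = Icc τ t ∩ f ⁻¹' Ici r := by ext; simp [hS]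
    rw [this]
    exact hfc.preimage_isClosed_of_isClosed isClosed_Icc isClosed_Ici
  have hSne : S.Nonempty := by
    obtain ⟨σ, h1, h2⟩ := hex
    exact ⟨σ, h1, h2⟩
  have hSb : BddBelow S := ⟨τ, fun σ hσ => hσ.1.1⟩
  have hmem : sInf S ∈ S := hSc.csInf_mem hSne hSb
  set σ := sInf S with hσ
  have hlt : ∀ σ' ∈ Icc τ t, σ' < σ → f σ' < r := by
    intro σ' h1 h2
    by_contra hcon
    push Not at hcon
    exact absurd (csInf_le hSb ⟨h1, hcon⟩) (not_le.2 h2)
  have h0 : f τ = 0 := by simp [hf]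
  have hτσ : τ ≤ σ := hmem.1.1
  have hfc' : ContinuousOn f (Icc τ σ) := hfc.mono (Icc_subset_Icc le_rfl hmem.1.2)
  have heq : f σ = r := by
    obtain ⟨σ', hσ', hval⟩ := intermediate_value_Icc hτσ hfc' (⟨by rw [h0]; exact hr.le, hmem.2⟩ :
      r ∈ Icc (f τ) (f σ))
    have h1 : σ' ∈ S := ⟨⟨hσ'.1, hσ'.2.trans hmem.1.2⟩, hval.ge⟩
    have h2 : σ ≤ σ' := csInf_le hSb h1
    have h3 : σ' = σ := le_antisymm hσ'.2 h2
    rw [← h3, hval]
  refine ⟨σ, hmem.1, ⟨hτσ, heq, fun σ' hσ' => ?_⟩⟩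
  rcases eq_or_lt_of_le hσ'.2 with h | h
  · rw [h]; exact heq.le
  · exact (hlt σ' ⟨hσ'.1, hσ'.2.trans hmem.1.2⟩ h).le

omit [InnerProductSpace ℝ E] in
/-- Decomposition of a curve into pieces of radius `r`. -/
lemma exists_chain {γ : ℝ → E} {r t δ : ℝ} (hr : 0 < r) {s : ℝ} (hγ : ContinuousOn γ (Icc s t))
    (hunif : ∀ τ ∈ Icc s t, ∀ τ' ∈ Icc s t, |τ - τ'| < δ → ‖γ τ - γ τ'‖ < r) :
    ∀ (N : ℕ) (τ : ℝ), τ ∈ Icc s t → t - τ < N * δ →
      ∃ (m : ℕ) (T : ℕ → ℝ), T 0 = τ ∧ T m ≤ t ∧ (∀ a < m, IsPiece γ r (T a) (T (a + 1))) ∧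
        ‖γ t - γ (T m)‖ < r := by
  intro N
  induction N with
  | zero =>
    intro τ hτ h
    simp only [Nat.cast_zero, zero_mul] at h
    linarith [hτ.2]
  | succ N ih =>
    intro τ hτ h
    by_cases hex : ∃ σ ∈ Icc τ t, r ≤ ‖γ σ - γ τ‖
    · obtain ⟨σ, hσ, hpiece⟩ := exists_first_exit hr
        (hγ.mono (Icc_subset_Icc hτ.1 le_rfl)) hex
      have hστ : δ ≤ σ - τ := by
        by_contra hcon
        push Not at hcon
        have := hunif σ ⟨hτ.1.trans hσ.1, hσ.2⟩ τ hτ (by rw [abs_of_nonneg (by linarith [hσ.1])];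
                                                         exact hcon)
        rw [hpiece.dist_eq] at this
        exact lt_irrefl _ this
      obtain ⟨m, T, hT0, hTm, hTp, hTe⟩ := ih σ ⟨hτ.1.trans hσ.1, hσ.2⟩ (by
        push_cast at h; linarith)
      refine ⟨m + 1, fun a => if a = 0 then τ else T (a - 1), by simp, by simpa using hTm, ?_,
        by simpa using hTe⟩
      intro a ha
      rcases Nat.eq_zero_or_pos a with h0 | h0
      · subst h0
        simpa [hT0] using hpiece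
      · have h1 : a ≠ 0 := h0.ne'
        have h2 : a - 1 < m := by omega
        have := hTp (a - 1) h2
        have h3 : a - 1 + 1 = a := by omega
        rw [h3] at this
        simpa [h1] using this
    · push Not at hex
      refine ⟨0, fun _ => τ, rfl, hτ.2, fun a ha => absurd ha (Nat.not_lt_zero _), ?_⟩
      exact hex t (right_mem_Icc.2 hτ.2)

omit [InnerProductSpace ℝ E] in
/-- Decomposition of a curve into pieces of radius `r`, from compactness. -/
lemma exists_chain' {γ : ℝ → E} {r s t : ℝ} (hr : 0 < r) (hst : s ≤ t)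
    (hγ : ContinuousOn γ (Icc s t)) :
    ∃ (m : ℕ) (T : ℕ → ℝ), T 0 = s ∧ T m ≤ t ∧ (∀ a < m, IsPiece γ r (T a) (T (a + 1))) ∧
        ‖γ t - γ (T m)‖ < r := by
  have huc : UniformContinuousOn γ (Icc s t) := isCompact_Icc.uniformContinuousOn_of_continuous hγ
  obtain ⟨δ, hδ, hunif⟩ := Metric.uniformContinuousOn_iff.1 huc r hr
  obtain ⟨N, hN⟩ := exists_nat_gt ((t - s) / δ)
  refine exists_chain (δ := δ) hr hγ (fun τ hτ τ' hτ' h => ?_) N s (left_mem_Icc.2 hst) ?_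
  · have := hunif τ hτ τ' hτ' (by rwa [Real.dist_eq])
    rwa [dist_eq_norm] at this
  · rwa [div_lt_iff₀ hδ] at hN

/-- An abstract length functional of the curve `γ` in the metric with conformal factor
`exp (ξ h)`. -/
structure LenFun (γ : ℝ → E) (h : E → ℝ) (ξ s₀ t₀ : ℝ) (L : ℝ → ℝ → ℝ) : Prop where
  nonneg : ∀ s t, s₀ ≤ s → s ≤ t → t ≤ t₀ → 0 ≤ L s t
  add : ∀ s t u, s₀ ≤ s → s ≤ t → t ≤ u → u ≤ t₀ → L s t + L t u ≤ L s u
  lower : ∀ s t c, s₀ ≤ s → s ≤ t → t ≤ t₀ → (∀ τ ∈ Icc s t, c ≤ h (γ τ)) →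
    Real.exp (ξ * c) * ‖γ t - γ s‖ ≤ L s t

omit [InnerProductSpace ℝ E] in
lemma LenFun.sum_le {γ : ℝ → E} {h : E → ℝ} {ξ s₀ t₀ : ℝ} {L : ℝ → ℝ → ℝ}
    (hL : LenFun γ h ξ s₀ t₀ L) {T : ℕ → ℝ} {m : ℕ} (hT0 : s₀ ≤ T 0) (hTm : T m ≤ t₀)
    (hT : ∀ a < m, T a ≤ T (a + 1)) : ∑ a ∈ Finset.range m, L (T a) (T (a + 1)) ≤ L (T 0) (T m) := by
  have hmono : ∀ a b, a ≤ b → b ≤ m → T a ≤ T b := by
    intro a b hab hbm
    induction b, hab using Nat.le_induction with
    | base => exact le_rfl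
    | succ b hab ih => exact (ih (by omega)).trans (hT b (by omega))
  have key : ∀ b, b ≤ m → ∑ a ∈ Finset.range b, L (T a) (T (a + 1)) ≤ L (T 0) (T b) := by
    intro b
    induction b with
    | zero => intro _; simpa using hL.nonneg _ _ hT0 le_rfl ((hmono 0 m (Nat.zero_le _) le_rfl).trans hTm)
    | succ b ih =>
      intro hb
      rw [Finset.sum_range_succ]
      have h1 := ih (by omega)
      have h2 := hL.add (T 0) (T b) (T (b + 1)) hT0 (hmono 0 b (Nat.zero_le _) (by omega))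
        (hT b (by omega)) ((hmono (b + 1) m hb le_rfl).trans hTm)
      linarith
  exact key m le_rfl

/-- The base cost. -/
noncomputable def baseCost (ξ : ℝ) (n k N : ℕ) (Y : ℕ → ℝ) : ℝ :=
  ξ * ∑ j ∈ Finset.range n, Y j * ((1 / 2) ^ (k * N) / (1 / 2) ^ j)

/-- Concavity of the logarithm. -/
lemma log_mean_ge {m : ℕ} (hm : 0 < m) (x : ℕ → ℝ) (hx : ∀ a < m, 0 < x a) :
    (∑ a ∈ Finset.range m, Real.log (x a)) / m ≤ Real.log ((∑ a ∈ Finset.range m, x a) / m) := by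
  have hm' : (0 : ℝ) < m := by exact_mod_cast hm
  have h := strictConcaveOn_log_Ioi.concaveOn.le_map_sum (t := Finset.range m)
    (w := fun _ => (1 : ℝ) / m) (p := x) (fun _ _ => by positivity)
    (by simp [hm'.ne']) (fun a ha => hx a (Finset.mem_range.1 ha))
  simp only [smul_eq_mul] at h
  rw [← Finset.mul_sum, ← Finset.mul_sum] at h
  rw [div_eq_inv_mul, div_eq_inv_mul]
  simpa using h

end Pool.Agent.Lib_MP_71c74a_pr
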