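import Pool.Agent.Lib_MP_71c74a_pr.ChainBase

/-!
# Predictions with a cutoff
-/

open MeasureTheory Set
open scoped Topology

namespace Pool.Agent.Lib_MP_71c74a_pr

variable {E : Type*} [NormedAddCommGroup E] [InnerProductSpace ℝ E]

/-- The contribution of the `j`-th field to the prediction at level `i`: the value at the start
for coarse fields, nothing for the fields finer than the cutoff `c`, the segment average in
between. -/
noncomputable def tvS (k c i j : ℕ) (φ : E → ℝ) (x y : E) : ℝ :=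
  if j + k ≤ k * i then φ x else if k * i + c < j then 0 else segAvg φ x y

/-- The prediction at level `i`. -/
noncomputable def predS (ξ : ℝ) (n k c i : ℕ) (φ : ℕ → E → ℝ) (x y : E) : ℝ :=
  ξ * ∑ j ∈ Finset.range n, tvS k c i j (φ j) x y

/-- The level estimate, as a property of a cost. -/
def LevEst (ξ : ℝ) (n k c i : ℕ) (φ : ℕ → E → ℝ) (z' : E) (cst : ℝ) : Prop :=
  ∀ (m : ℕ) (z : ℕ → E) (y : E), (∀ a < m, ‖z (a + 1) - z a‖ = (1 / 2) ^ (k * (i + 1))) →
    (∀ a ≤ m, ‖z a - z 0‖ ≤ (1 / 2) ^ (k * i)) → ‖z 0 - z'‖ ≤ 3 * (1 / 2) ^ (k * i) →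
    (2 : ℝ) ^ k ≤ m → ‖z 0 - y‖ = (1 / 2) ^ (k * i) → ‖z m - y‖ ≤ (1 / 2) ^ (k * (i + 1)) →
    - cst ≤ Real.log (m / 2 ^ k)
      + (∑ a ∈ Finset.range m, predS ξ n k c (i + 1) φ (z a) (z (a + 1))) / m
      - predS ξ n k c i φ (z 0) y

end Pool.Agent.Lib_MP_71c74a_pr
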