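import Pool.Agent.Lib_MP_71c74a_pr.CostSum
import Pool.Agent.Lib_MP_71c74a_pr.PartBound
import Pool.Agent.Lib_MP_71c74a_pr.PathSharp

/-!
# Summing the sharp costs over the levels
-/

open MeasureTheory Set
open scoped ENNReal NNReal Topology

namespace Pool.Agent.Lib_MP_71c74a_pr

variable {d : ℕ}

lemma card_midS_le (n k c i : ℕ) (hc : c < k) : (midS n k c i).card ≤ 3 * k := by
  have h : midS n k c i ⊆ Finset.Ico (k * i + 1 - k) (k * i + 2 * k) := by
    intro j hj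
    rw [midS, Finset.mem_filter, Finset.mem_range] at hj
    rw [Finset.mem_Ico]
    omega
  refine (Finset.card_le_card h).trans ?_
  rw [Nat.card_Ico]
  rcases Nat.eq_zero_or_pos i with h1 | h1
  · subst h1; omega
  · have : k ≤ k * i := Nat.le_mul_of_pos_right k h1
    omega

/-- Every field is intermediate at no more than three levels. -/
lemma sum_midS_le (n k c N : ℕ) (hc : c < k) (g : ℕ → ℝ) (hg : ∀ j < n, 0 ≤ g j) :
    ∑ i ∈ Finset.range N, ∑ j ∈ midS n k c i, g j ≤ 3 * ∑ j ∈ Finset.range n, g j := by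
  have hk : 0 < k := by omega
  have h1 : ∑ i ∈ Finset.range N, ∑ j ∈ midS n k c i, g j
      = ∑ j ∈ Finset.range n, ∑ i ∈ Finset.range N,
        if (¬ j + k ≤ k * i ∧ ¬ k * i + k + c < j) then g j else 0 := by
    rw [Finset.sum_comm]
    refine Finset.sum_congr rfl fun i _ => ?_
    rw [midS, Finset.sum_filter]
  rw [h1, Finset.mul_sum]
  refine Finset.sum_le_sum fun j hj => ?_
  rw [← Finset.sum_filter, Finset.sum_const, nsmul_eq_mul]
  have hgj := hg j (Finset.mem_range.1 hj)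
  apply mul_le_mul_of_nonneg_right _ hgj
  have h2 : (Finset.range N).filter (fun i => ¬ j + k ≤ k * i ∧ ¬ k * i + k + c < j)
      ⊆ Finset.Ico (j / k - 1) (j / k + 2) := by
    intro i hi
    rw [Finset.mem_filter] at hi
    obtain ⟨_, h3, h4⟩ := hi
    rw [Finset.mem_Ico]
    have hdiv := Nat.div_add_mod j k
    have hmod := Nat.mod_lt j hk
    constructor
    · by_contra hcon
      push Not at hcon
      have h5 : i + 2 ≤ j / k := by omega
      have h6 : k * (i + 2) ≤ k * (j / k) := Nat.mul_le_mul_left k h5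
      have h7 : k * (i + 2) = k * i + 2 * k := by ring
      omega
    · by_contra hcon
      push Not at hcon
      have h6 : k * (j / k + 2) ≤ k * i := Nat.mul_le_mul_left k hcon
      have h7 : k * (j / k + 2) = k * (j / k) + 2 * k := by ring
      omega
  have h3 := Finset.card_le_card h2
  rw [Nat.card_Ico] at h3
  have h4 : ((Finset.range N).filter
      (fun i => ¬ j + k ≤ k * i ∧ ¬ k * i + k + c < j)).card ≤ 3 := by omega
  exact_mod_cast h4

lemma highS_subset (n k c i : ℕ) : highS n k c i ⊆ midS n k c i ∨ k = 0 := by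
  rcases Nat.eq_zero_or_pos k with h | h
  · exact Or.inr h
  · left
    intro j hj
    rw [highS, Finset.mem_filter] at hj
    rw [midS, Finset.mem_filter]
    exact ⟨hj.1, by omega, by omega⟩

lemma card_highS_le (n k c i : ℕ) : (highS n k c i).card ≤ k + c := by
  have h : highS n k c i ⊆ Finset.Ioc (k * i) (k * i + k + c) := by
    intro j hj
    rw [highS, Finset.mem_filter] at hj
    rw [Finset.mem_Ioc]
    exact hj.2
  refine (Finset.card_le_card h).trans ?_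
  rw [Nat.card_Ioc]
  omega

lemma sum_highS_dl (n k c i k₀ : ℕ) : ∑ j ∈ highS n k c i, dl k₀ (j - k * i) ≤ 8 := by
  have e1 : ∑ j ∈ highS n k c i, dl k₀ (j - k * i)
      = ∑ J ∈ (highS n k c i).image (fun j => j - k * i), dl k₀ J := by
    rw [Finset.sum_image]
    intro j₁ hj₁ j₂ hj₂ h
    simp only [highS, Finset.coe_filter, Finset.mem_range, mem_ofPred_eq] at hj₁ hj₂
    simp only at h
    omega
  rw [e1]
  refine le_trans ?_ (sum_dl_le k₀ (k + c + 1))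
  apply Finset.sum_le_sum_of_subset_of_nonneg
  · intro J hJ
    rw [Finset.mem_image] at hJ
    obtain ⟨j, hj, rfl⟩ := hJ
    simp only [highS, Finset.mem_filter] at hj
    rw [Finset.mem_range]
    omega
  · intro J _ _
    exact dl_nonneg _ _

/-- The total cost. -/
theorem totS_le {C' R₀ C ξ κ : ℝ} {n k k₀ N : ℕ} {φ : ℕ → Eu d → ℝ} {Y t : ℕ → ℝ} {z' : Eu d}
    (hC' : 0 ≤ C') (hξ : 0 ≤ ξ) (hκ : 0 ≤ κ) (hkk : 4 * k₀ ≤ k) (hk0 : 0 < k₀)
    (hY : ∀ j < n, 0 ≤ Y j) (ht : ∀ j < n, 0 ≤ t j) (hN : n + k ≤ k * N + 1)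
    (hW : ∀ i, ∀ j ∈ highS n k k₀ i, WJ R₀ C k k₀ (j - k * i) (uf (φ j) j z')
      ≤ 4 + 8 * t j + 8 * (d * (4 * k + 2)) * dl k₀ (j - k * i) + 4 * LK d) :
    totS ξ n k N 0 Y (fun i => costS C' R₀ C ξ κ n k k₀ i φ Y z')
      ≤ C' * κ * (N * k * (8 + 8 * LK d + 384 * d) + 24 * ∑ j ∈ Finset.range n, t j)
        + 144 * k * (4 * k₀ + 2) * ξ ^ 2 * ∑ j ∈ Finset.range n, Y j ^ 2
        + N / 2 ^ k + (6 * d + 21) * (1 / 2) ^ k₀ * ξ * ∑ j ∈ Finset.range n, Y j := by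
  have hc : k₀ < k := by omega
  have hk : 0 < k := by omega
  have hLK := LK_nonneg d
  have hk1 : (1 : ℝ) ≤ k := by exact_mod_cast hk
  have hYm : ∀ i, ∀ j ∈ midS n k k₀ i, 0 ≤ Y j := fun i j hj => by
    rw [midS, Finset.mem_filter, Finset.mem_range] at hj
    exact hY j hj.1
  -- partition functions, one level
  have hlev : ∀ i, ∑ j ∈ highS n k k₀ i, WJ R₀ C k k₀ (j - k * i) (uf (φ j) j z')
      ≤ k * (8 + 8 * LK d + 384 * d) + 8 * ∑ j ∈ midS n k k₀ i, t j := by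
    intro i
    refine (Finset.sum_le_sum (hW i)).trans ?_
    have e : ∑ j ∈ highS n k k₀ i, (4 + 8 * t j + 8 * (d * (4 * k + 2)) * dl k₀ (j - k * i)
          + 4 * LK d)
        = (highS n k k₀ i).card * (4 + 4 * LK d) + 8 * ∑ j ∈ highS n k k₀ i, t j
          + 8 * (d * (4 * k + 2)) * ∑ j ∈ highS n k k₀ i, dl k₀ (j - k * i) := by
      simp only [Finset.sum_add_distrib, ← Finset.mul_sum, Finset.sum_const, nsmul_eq_mul]
      ring
    rw [e]
    have h1 : ((highS n k k₀ i).card : ℝ) ≤ 2 * k := by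
      have := card_highS_le n k k₀ i
      have h2 : (highS n k k₀ i).card ≤ 2 * k := by omega
      exact_mod_cast h2
    have h2 : ∑ j ∈ highS n k k₀ i, t j ≤ ∑ j ∈ midS n k k₀ i, t j := by
      apply Finset.sum_le_sum_of_subset_of_nonneg
      · rcases highS_subset n k k₀ i with h | h
        · exact h
        · omega
      · intro j hj _
        rw [midS, Finset.mem_filter, Finset.mem_range] at hj
        exact ht j hj.1
    have h3 := sum_highS_dl n k k₀ i k₀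
    have h4 : ((highS n k k₀ i).card : ℝ) * (4 + 4 * LK d) ≤ 2 * k * (4 + 4 * LK d) := by gcongr
    have h5 : 8 * ((d : ℝ) * (4 * k + 2)) * ∑ j ∈ highS n k k₀ i, dl k₀ (j - k * i)
        ≤ 8 * (d * (4 * k + 2)) * 8 := by gcongr
    have h6 : 8 * ((d : ℝ) * (4 * k + 2)) * 8 ≤ k * (384 * d) := by
      have : (4 : ℝ) * k + 2 ≤ 6 * k := by linarith
      calc 8 * ((d : ℝ) * (4 * k + 2)) * 8 ≤ 8 * (d * (6 * k)) * 8 := by gcongr
        _ = _ := by ring
    linarith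
  have hWtot : ∑ i ∈ Finset.range N, ∑ j ∈ highS n k k₀ i,
      WJ R₀ C k k₀ (j - k * i) (uf (φ j) j z')
      ≤ N * k * (8 + 8 * LK d + 384 * d) + 24 * ∑ j ∈ Finset.range n, t j := by
    refine (Finset.sum_le_sum fun i _ => hlev i).trans ?_
    rw [Finset.sum_add_distrib, Finset.sum_const, Finset.card_range, nsmul_eq_mul,
      ← Finset.mul_sum]
    have := sum_midS_le n k k₀ N hc t ht
    linarith
  -- the quadratic terms
  have hquad : ∑ i ∈ Finset.range N, (∑ j ∈ midS n k k₀ i, Y j) ^ 2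
      ≤ 9 * k * ∑ j ∈ Finset.range n, Y j ^ 2 := by
    have h1 : ∀ i ∈ Finset.range N, (∑ j ∈ midS n k k₀ i, Y j) ^ 2
        ≤ 3 * k * ∑ j ∈ midS n k k₀ i, Y j ^ 2 := by
      intro i _
      refine (sq_sum_le_card_mul_sum_sq).trans ?_
      have h2 : ((midS n k k₀ i).card : ℝ) ≤ 3 * k := by
        have := card_midS_le n k k₀ i hc
        exact_mod_cast this
      have h3 : 0 ≤ ∑ j ∈ midS n k k₀ i, Y j ^ 2 := Finset.sum_nonneg fun _ _ => sq_nonneg _
      gcongr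
    refine (Finset.sum_le_sum h1).trans ?_
    rw [← Finset.mul_sum]
    have h2 := sum_midS_le n k k₀ N hc (fun j => Y j ^ 2) (fun _ _ => sq_nonneg _)
    calc 3 * (k : ℝ) * ∑ i ∈ Finset.range N, ∑ j ∈ midS n k k₀ i, Y j ^ 2
        ≤ 3 * k * (3 * ∑ j ∈ Finset.range n, Y j ^ 2) := by gcongr
      _ = _ := by ring
  have hlin := sum_midS_le n k k₀ N hc Y hY
  have hcoarse := sum_coarse_le n k N hk Y hY
  have hbase := baseCost_le hξ n k N Y hY hN
  have hY0 : 0 ≤ ∑ j ∈ Finset.range n, Y j :=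
    Finset.sum_nonneg fun j hj => hY j (Finset.mem_range.1 hj)
  -- summation
  have hsum : ∑ i ∈ Finset.Ico 0 N, costS C' R₀ C ξ κ n k k₀ i φ Y z'
      = C' * κ * ∑ i ∈ Finset.range N, ∑ j ∈ highS n k k₀ i,
          WJ R₀ C k k₀ (j - k * i) (uf (φ j) j z')
        + 16 * (4 * k₀ + 2) * ξ ^ 2 * ∑ i ∈ Finset.range N, (∑ j ∈ midS n k k₀ i, Y j) ^ 2
        + N / 2 ^ k
        + (2 * d + 6) * (1 / 2) ^ k₀ * ξ * ∑ i ∈ Finset.range N, ∑ j ∈ midS n k k₀ i, Y j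
        + ξ * ∑ i ∈ Finset.range N, ∑ j ∈ coarseSet n k i,
          Y j * ((1 / 2) ^ (k * i) / (1 / 2) ^ j) := by
    rw [← Finset.range_eq_Ico]
    have e : ∀ i ∈ Finset.range N, costS C' R₀ C ξ κ n k k₀ i φ Y z'
        = C' * κ * ∑ j ∈ highS n k k₀ i, WJ R₀ C k k₀ (j - k * i) (uf (φ j) j z')
          + 16 * (4 * k₀ + 2) * ξ ^ 2 * (∑ j ∈ midS n k k₀ i, Y j) ^ 2 + 1 / 2 ^ k
          + (2 * d + 6) * (1 / 2) ^ k₀ * ξ * ∑ j ∈ midS n k k₀ i, Y j
          + ξ * ∑ j ∈ coarseSet n k i, Y j * ((1 / 2) ^ (k * i) / (1 / 2) ^ j) := by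
      intro i _
      unfold costS
      ring
    rw [Finset.sum_congr rfl e, Finset.sum_add_distrib, Finset.sum_add_distrib,
      Finset.sum_add_distrib, Finset.sum_add_distrib, Finset.sum_const, Finset.card_range,
      nsmul_eq_mul, mul_one_div, Finset.mul_sum, Finset.mul_sum, Finset.mul_sum, Finset.mul_sum]
  unfold totS
  rw [hsum]
  have a1 : C' * κ * ∑ i ∈ Finset.range N, ∑ j ∈ highS n k k₀ i,
          WJ R₀ C k k₀ (j - k * i) (uf (φ j) j z')
      ≤ C' * κ * (N * k * (8 + 8 * LK d + 384 * d) + 24 * ∑ j ∈ Finset.range n, t j) := by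
    gcongr
  have a2 : 16 * (4 * (k₀ : ℝ) + 2) * ξ ^ 2 * ∑ i ∈ Finset.range N, (∑ j ∈ midS n k k₀ i, Y j) ^ 2
      ≤ 16 * (4 * (k₀ : ℝ) + 2) * ξ ^ 2 * (9 * k * ∑ j ∈ Finset.range n, Y j ^ 2) := by
    gcongr
  have a3 : (2 * (d : ℝ) + 6) * (1 / 2) ^ k₀ * ξ
        * ∑ i ∈ Finset.range N, ∑ j ∈ midS n k k₀ i, Y j
      ≤ (2 * (d : ℝ) + 6) * (1 / 2) ^ k₀ * ξ * (3 * ∑ j ∈ Finset.range n, Y j) := by
    gcongr
  have a4 : ξ * ∑ i ∈ Finset.range N, ∑ j ∈ coarseSet n k i,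
          Y j * ((1 / 2) ^ (k * i) / (1 / 2) ^ j) ≤ ξ * (2 / 2 ^ k * ∑ j ∈ Finset.range n, Y j) := by
    gcongr
  have hk2 : (1 : ℝ) / 2 ^ k ≤ (1 / 2) ^ k₀ := by
    rw [one_div_two_pow]
    exact pow_le_pow_of_le_one (by norm_num) (by norm_num) (by omega)
  have a5 : ξ * (2 / 2 ^ k * ∑ j ∈ Finset.range n, Y j)
      + ξ * (1 / 2 ^ k * ∑ j ∈ Finset.range n, Y j)
      ≤ 3 * (1 / 2) ^ k₀ * ξ * ∑ j ∈ Finset.range n, Y j := by
    calc ξ * (2 / 2 ^ k * ∑ j ∈ Finset.range n, Y j)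
          + ξ * (1 / 2 ^ k * ∑ j ∈ Finset.range n, Y j)
        = 3 * (1 / 2 ^ k) * ξ * ∑ j ∈ Finset.range n, Y j := by ring
      _ ≤ _ := by gcongr
  have e5 : (6 * (d : ℝ) + 21) * (1 / 2) ^ k₀ * ξ * ∑ j ∈ Finset.range n, Y j
      = (2 * (d : ℝ) + 6) * (1 / 2) ^ k₀ * ξ * (3 * ∑ j ∈ Finset.range n, Y j)
        + 3 * (1 / 2) ^ k₀ * ξ * ∑ j ∈ Finset.range n, Y j := by ring
  have e6 : 144 * (k : ℝ) * (4 * k₀ + 2) * ξ ^ 2 * ∑ j ∈ Finset.range n, Y j ^ 2
      = 16 * (4 * (k₀ : ℝ) + 2) * ξ ^ 2 * (9 * k * ∑ j ∈ Finset.range n, Y j ^ 2) := by ring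
  rw [e5, e6]
  linarith

end Pool.Agent.Lib_MP_71c74a_pr
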