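import Pool.Agent.Lib_MP_71c74a_pr.PathBound

/-!
# Summing the costs over the levels
-/

open MeasureTheory Set
open scoped Topology

namespace Pool.Agent.Lib_MP_71c74a_pr

lemma card_midSet_le (n k i : ℕ) : (midSet n k i).card ≤ 3 * k := by
  have h : midSet n k i ⊆ Finset.Ico (k * i + 1 - k) (k * i + 2 * k) := by
    intro j hj
    rw [midSet, Finset.mem_filter, Finset.mem_range] at hj
    rw [Finset.mem_Ico]
    have hki : k * (i + 1) = k * i + k := by ring
    omega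
  refine (Finset.card_le_card h).trans ?_
  rw [Nat.card_Ico]
  rcases Nat.eq_zero_or_pos k with h0 | h0
  · subst h0; simp
  · rcases Nat.eq_zero_or_pos i with h1 | h1
    · subst h1; omega
    · have : k ≤ k * i := Nat.le_mul_of_pos_right k h1
      omega

/-- Every field is intermediate at no more than three levels. -/
lemma sum_mid_le (n k N : ℕ) (hk : 0 < k) (g : ℕ → ℝ) (hg : ∀ j < n, 0 ≤ g j) :
    ∑ i ∈ Finset.range N, ∑ j ∈ midSet n k i, g j ≤ 3 * ∑ j ∈ Finset.range n, g j := by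
  have h1 : ∑ i ∈ Finset.range N, ∑ j ∈ midSet n k i, g j
      = ∑ j ∈ Finset.range n, ∑ i ∈ Finset.range N,
        if (¬ j + k ≤ k * i ∧ ¬ k * (i + 1) + k ≤ j) then g j else 0 := by
    rw [Finset.sum_comm]
    refine Finset.sum_congr rfl fun i _ => ?_
    rw [midSet, Finset.sum_filter]
  rw [h1, Finset.mul_sum]
  refine Finset.sum_le_sum fun j hj => ?_
  rw [← Finset.sum_filter, Finset.sum_const, nsmul_eq_mul]
  have hgj := hg j (Finset.mem_range.1 hj)
  apply mul_le_mul_of_nonneg_right _ hgj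
  have h2 : (Finset.range N).filter (fun i => ¬ j + k ≤ k * i ∧ ¬ k * (i + 1) + k ≤ j)
      ⊆ Finset.Ico (j / k - 1) (j / k + 2) := by
    intro i hi
    rw [Finset.mem_filter] at hi
    obtain ⟨_, h3, h4⟩ := hi
    rw [Finset.mem_Ico]
    have hdiv := Nat.div_add_mod j k
    have hmod := Nat.mod_lt j hk
    constructor
    · by_contra hcon
      push Not at hcon
      have h5 : i + 2 ≤ j / k := by omega
      have h6 : k * (i + 2) ≤ k * (j / k) := Nat.mul_le_mul_left k h5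
      have h7 : k * (i + 2) = k * (i + 1) + k := by ring
      omega
    · by_contra hcon
      push Not at hcon
      have h6 : k * (j / k + 2) ≤ k * i := Nat.mul_le_mul_left k hcon
      have h7 : k * (j / k + 2) = k * (j / k) + 2 * k := by ring
      omega
  have h3 := Finset.card_le_card h2
  rw [Nat.card_Ico] at h3
  have h4 : ((Finset.range N).filter
      (fun i => ¬ j + k ≤ k * i ∧ ¬ k * (i + 1) + k ≤ j)).card ≤ 3 := by omega
  exact_mod_cast h4

/-- The coarse contributions. -/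
lemma sum_coarse_le (n k N : ℕ) (hk : 0 < k) (Y : ℕ → ℝ) (hY : ∀ j < n, 0 ≤ Y j) :
    ∑ i ∈ Finset.range N, ∑ j ∈ coarseSet n k i, Y j * ((1 / 2) ^ (k * i) / (1 / 2) ^ j)
      ≤ 2 / 2 ^ k * ∑ j ∈ Finset.range n, Y j := by
  have h1 : ∑ i ∈ Finset.range N, ∑ j ∈ coarseSet n k i,
        Y j * ((1 / 2) ^ (k * i) / (1 / 2) ^ j)
      = ∑ j ∈ Finset.range n, ∑ i ∈ Finset.range N,
        if (j + k ≤ k * i) then Y j * ((1 / 2) ^ (k * i) / (1 / 2) ^ j) else 0 := by
    rw [Finset.sum_comm]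
    refine Finset.sum_congr rfl fun i _ => ?_
    rw [coarseSet, Finset.sum_filter]
  rw [h1, Finset.mul_sum]
  refine Finset.sum_le_sum fun j hj => ?_
  have hYj := hY j (Finset.mem_range.1 hj)
  set i₀ := (j + k + (k - 1)) / k with hi₀
  have hi₀k : j + k ≤ k * i₀ := by
    have := Nat.div_add_mod (j + k + (k - 1)) k
    have := Nat.mod_lt (j + k + (k - 1)) hk
    rw [hi₀]; omega
  have hmin : ∀ i, j + k ≤ k * i → i₀ ≤ i := by
    intro i hi
    rw [hi₀]
    apply Nat.le_of_lt_succ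
    apply Nat.div_lt_of_lt_mul
    have : k * i.succ = k * i + k := by rw [Nat.succ_eq_add_one]; ring
    omega
  rw [← Finset.sum_filter]
  have hsub : (Finset.range N).filter (fun i => j + k ≤ k * i) ⊆ Finset.Ico i₀ N := by
    intro i hi
    rw [Finset.mem_filter, Finset.mem_range] at hi
    exact Finset.mem_Ico.2 ⟨hmin i hi.2, hi.1⟩
  calc ∑ i ∈ (Finset.range N).filter (fun i => j + k ≤ k * i),
        Y j * ((1 / 2 : ℝ) ^ (k * i) / (1 / 2) ^ j)
      ≤ ∑ i ∈ Finset.Ico i₀ N, Y j * ((1 / 2 : ℝ) ^ (k * i) / (1 / 2) ^ j) :=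
        Finset.sum_le_sum_of_subset_of_nonneg hsub fun i _ _ => by positivity
    _ ≤ ∑ i ∈ Finset.Ico i₀ N, Y j * ((1 / 2 : ℝ) ^ k * (1 / 2) ^ (i - i₀)) := by
        refine Finset.sum_le_sum fun i hi => ?_
        have hi' := (Finset.mem_Ico.1 hi).1
        have h3 : k * i₀ + (i - i₀) ≤ k * i := by
          obtain ⟨l, rfl⟩ := Nat.exists_eq_add_of_le hi'
          have : i₀ + l - i₀ = l := by omega
          rw [this, mul_add]
          have : l ≤ k * l := Nat.le_mul_of_pos_left l hk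
          omega
        apply mul_le_mul_of_nonneg_left _ hYj
        rw [half_pow_div _ _ (by omega), ← pow_add]
        apply pow_le_pow_of_le_one (by norm_num) (by norm_num)
        omega
    _ = Y j * (1 / 2) ^ k * ∑ l ∈ Finset.range (N - i₀), (1 / 2 : ℝ) ^ l := by
        rw [Finset.sum_Ico_eq_sum_range, Finset.mul_sum]
        refine Finset.sum_congr rfl fun l _ => ?_
        rw [Nat.add_sub_cancel_left]
        ring
    _ ≤ Y j * (1 / 2) ^ k * 2 := by
        apply mul_le_mul_of_nonneg_left _ (by positivity)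
        have := geom_sum_eq (x := (1 / 2 : ℝ)) (by norm_num) (N - i₀)
        rw [this]
        have : (0 : ℝ) ≤ (1 / 2) ^ (N - i₀) := by positivity
        have e : ((1 / 2 : ℝ) ^ (N - i₀) - 1) / (1 / 2 - 1) = 2 * (1 - (1 / 2) ^ (N - i₀)) := by ring
        rw [e]
        linarith
    _ = 2 / 2 ^ k * Y j := by rw [← one_div_two_pow k]; ring

/-- The base cost. -/
lemma baseCost_le {ξ : ℝ} (hξ : 0 ≤ ξ) (n k N : ℕ) (Y : ℕ → ℝ) (hY : ∀ j < n, 0 ≤ Y j)
    (hN : n + k ≤ k * N + 1) :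
    baseCost ξ n k N Y ≤ ξ * (1 / 2 ^ k * ∑ j ∈ Finset.range n, Y j) := by
  unfold baseCost
  apply mul_le_mul_of_nonneg_left _ hξ
  rw [Finset.mul_sum]
  refine Finset.sum_le_sum fun j hj => ?_
  have hj' := Finset.mem_range.1 hj
  rw [mul_comm]
  apply mul_le_mul_of_nonneg_right _ (hY j hj')
  rw [half_pow_div _ _ (by omega), one_div_two_pow]
  apply pow_le_pow_of_le_one (by norm_num) (by norm_num)
  omega

/-- The total cost. -/
lemma totalCost_le {ξ : ℝ} (hξ : 0 ≤ ξ) (n k N : ℕ) (hk : 0 < k) (Y : ℕ → ℝ)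
    (hY : ∀ j < n, 0 ≤ Y j) (hN : n + k ≤ k * N + 1) :
    totalCost ξ n k N 0 Y ≤
      3 * ((75 * k * ξ) ^ (4 / 3 : ℝ) * (3 * k) ^ (1 / 3 : ℝ))
          * ∑ j ∈ Finset.range n, Y j ^ (4 / 3 : ℝ)
        + (225 * k * ξ * qr (1 / 2 ^ k) + 3 * ξ / 2 ^ k) * ∑ j ∈ Finset.range n, Y j := by
  have hYm : ∀ i, ∀ j ∈ midSet n k i, 0 ≤ Y j := fun i j hj => by
    rw [midSet, Finset.mem_filter, Finset.mem_range] at hj
    exact hY j hj.1
  have hmid : ∀ i, (75 * k * ξ * ∑ j ∈ midSet n k i, Y j) ^ (4 / 3 : ℝ)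
      ≤ ((75 * k * ξ) ^ (4 / 3 : ℝ) * (3 * k) ^ (1 / 3 : ℝ))
        * ∑ j ∈ midSet n k i, Y j ^ (4 / 3 : ℝ) := by
    intro i
    have h0 : 0 ≤ ∑ j ∈ midSet n k i, Y j := Finset.sum_nonneg (hYm i)
    rw [Real.mul_rpow (by positivity) h0]
    rw [mul_assoc ((75 * (k : ℝ) * ξ) ^ (4 / 3 : ℝ))]
    apply mul_le_mul_of_nonneg_left _ (by positivity)
    have h1 := Real.rpow_sum_le_const_mul_sum_rpow_of_nonneg (s := midSet n k i) (f := Y)
      (p := (4 / 3 : ℝ)) (by norm_num) (hYm i)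
    refine h1.trans ?_
    have h2 : (4 / 3 : ℝ) - 1 = 1 / 3 := by norm_num
    rw [h2]
    apply mul_le_mul_of_nonneg_right
    · apply Real.rpow_le_rpow (by positivity) _ (by norm_num)
      exact_mod_cast card_midSet_le n k i
    · exact Finset.sum_nonneg fun j hj => Real.rpow_nonneg (hYm i j hj) _
  have hq := qr_nonneg (1 / 2 ^ k)
  unfold totalCost
  have hsum : ∑ i ∈ Finset.Ico 0 N, cost ξ n k i Y
      ≤ ((75 * k * ξ) ^ (4 / 3 : ℝ) * (3 * k) ^ (1 / 3 : ℝ))
          * ∑ i ∈ Finset.range N, ∑ j ∈ midSet n k i, Y j ^ (4 / 3 : ℝ)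
        + 75 * k * ξ * qr (1 / 2 ^ k) * ∑ i ∈ Finset.range N, ∑ j ∈ midSet n k i, Y j
        + ξ * ∑ i ∈ Finset.range N, ∑ j ∈ coarseSet n k i,
          Y j * ((1 / 2) ^ (k * i) / (1 / 2) ^ j) := by
    rw [Finset.mul_sum, Finset.mul_sum, Finset.mul_sum, ← Finset.sum_add_distrib,
      ← Finset.sum_add_distrib, Finset.range_eq_Ico]
    refine Finset.sum_le_sum fun i _ => ?_
    unfold cost
    have := hmid i
    linarith
  have s1 := sum_mid_le n k N hk (fun j => Y j ^ (4 / 3 : ℝ))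
    (fun j hj => Real.rpow_nonneg (hY j hj) _)
  have s2 := sum_mid_le n k N hk Y hY
  have s3 := sum_coarse_le n k N hk Y hY
  have s4 := baseCost_le hξ n k N Y hY hN
  have t1 := mul_le_mul_of_nonneg_left s1
    (by positivity : (0 : ℝ) ≤ (75 * k * ξ) ^ (4 / 3 : ℝ) * (3 * k) ^ (1 / 3 : ℝ))
  have t2 := mul_le_mul_of_nonneg_left s2 (by positivity : (0 : ℝ) ≤ 75 * k * ξ * qr (1 / 2 ^ k))
  have t3 := mul_le_mul_of_nonneg_left s3 hξ
  have e : (225 * k * ξ * qr (1 / 2 ^ k) + 3 * ξ / 2 ^ k) * ∑ j ∈ Finset.range n, Y j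
      = 75 * k * ξ * qr (1 / 2 ^ k) * (3 * ∑ j ∈ Finset.range n, Y j)
        + ξ * (2 / 2 ^ k * ∑ j ∈ Finset.range n, Y j)
        + ξ * (1 / 2 ^ k * ∑ j ∈ Finset.range n, Y j) := by ring
  rw [e]
  linarith

end Pool.Agent.Lib_MP_71c74a_pr
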