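import Pool.Agent.Lib_MP_71c74a_pr.Route

/-!
# Covariances with the decision test
-/

open MeasureTheory ProbabilityTheory Set
open scoped ENNReal NNReal Topology

namespace Pool.Agent.Lib_MP_71c74a_pr

variable {d : ℕ} {H : Type*} [NormedAddCommGroup H] [InnerProductSpace ℝ H] {G : Eu d → H}
  {R₀ v₀ C : ℝ}

lemma inner_pcT_right (G : Eu d → H) (p : Eu d) (M : ℕ) (a b : Eu d) :
    inner ℝ (G p) (lc G (pcT M a b))
      = (‖b - a‖ / M) * ∑ i ∈ Finset.range M, inner ℝ (G p) (G (segPt M a b i)) := by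
  rw [lc_pcT, inner_smul_right, inner_sum]

/-- Upper bound for the covariance with the integral over a segment. -/
lemma inner_pcT_le (hG : CovLaw G R₀ v₀ C) {M : ℕ} (hM : 0 < M) {a b p : Eu d} {B : ℝ}
    (hB : 0 ≤ B) (hab : a ≠ b) (hLM : ‖b - a‖ ≤ M)
    (h : ∀ i < M, inner ℝ (G p) (G (segPt M a b i)) ≤ B) :
    inner ℝ (G p) (lc G (pcT M a b)) ≤ (4 * R₀ + 1) * B := by
  have hL : 0 < ‖b - a‖ := norm_pos_iff.2 (sub_ne_zero.2 hab.symm)
  have hM' : (0 : ℝ) < M := by exact_mod_cast hM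
  have hR := hG.R₀_pos
  rw [inner_pcT_right]
  set L := ‖b - a‖ with hLdef
  by_cases hex : ∃ i₀ < M, ‖p - segPt M a b i₀‖ < R₀
  · obtain ⟨i₀, hi₀, hnear⟩ := hex
    set W := 2 * R₀ * M / L with hW
    have hW0 : 0 ≤ W := by positivity
    set w := ⌊W⌋₊ with hw
    have h1 : ∑ i ∈ Finset.range M, inner ℝ (G p) (G (segPt M a b i))
        ≤ ∑ i ∈ Finset.range M, if i ∈ Finset.Icc (i₀ - w) (i₀ + w) then B else 0 := by
      refine Finset.sum_le_sum fun i hi => ?_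
      have hi' := Finset.mem_range.1 hi
      by_cases hmem : i ∈ Finset.Icc (i₀ - w) (i₀ + w)
      · rw [if_pos hmem]
        exact h i hi'
      · rw [if_neg hmem]
        apply le_of_eq
        apply hG.range
        rw [Finset.mem_Icc, not_and_or, not_le, not_le] at hmem
        have h3 : W < w + 1 := Nat.lt_floor_add_one W
        have h4 : W ≤ |(i : ℝ) - i₀| := by
          rcases hmem with h | h
          · have h5 : (i : ℝ) + w + 1 ≤ i₀ := by exact_mod_cast (by omega : i + w + 1 ≤ i₀)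
            rw [abs_of_nonpos (by linarith [(Nat.cast_nonneg w : (0 : ℝ) ≤ w)])]
            linarith
          · have h5 : (i₀ : ℝ) + w + 1 ≤ i := by exact_mod_cast (by omega : i₀ + w + 1 ≤ i)
            rw [abs_of_nonneg (by linarith [(Nat.cast_nonneg w : (0 : ℝ) ≤ w)])]
            linarith
        have h5 : 2 * R₀ ≤ ‖segPt M a b i - segPt M a b i₀‖ := by
          rw [norm_segPt_sub, ← hLdef]
          calc 2 * R₀ = W / M * L := by rw [hW]; field_simp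
            _ ≤ |(i : ℝ) - i₀| / M * L := by gcongr
        have h6 : ‖segPt M a b i - segPt M a b i₀‖
            ≤ ‖p - segPt M a b i‖ + ‖p - segPt M a b i₀‖ := by
          have e : segPt M a b i - segPt M a b i₀
              = -(p - segPt M a b i) + (p - segPt M a b i₀) := by abel
          rw [e]
          refine (norm_add_le _ _).trans ?_
          rw [norm_neg]
        linarith
    have h2 : ∑ i ∈ Finset.range M, (if i ∈ Finset.Icc (i₀ - w) (i₀ + w) then B else 0)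
        ≤ (2 * W + 1) * B := by
      rw [← Finset.sum_filter, Finset.sum_const, nsmul_eq_mul]
      apply mul_le_mul_of_nonneg_right _ hB
      have h3 : ((Finset.range M).filter (fun i => i ∈ Finset.Icc (i₀ - w) (i₀ + w))).card
          ≤ (Finset.Icc (i₀ - w) (i₀ + w)).card := by
        apply Finset.card_le_card
        intro j hj
        exact (Finset.mem_filter.1 hj).2
      rw [Nat.card_Icc] at h3
      have h4 : (((Finset.range M).filter (fun i => i ∈ Finset.Icc (i₀ - w) (i₀ + w))).card : ℝ)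
          ≤ 2 * w + 1 := by
        have h5 : i₀ + w + 1 - (i₀ - w) ≤ 2 * w + 1 := by omega
        exact_mod_cast h3.trans h5
      have h6 : (w : ℝ) ≤ W := Nat.floor_le hW0
      linarith
    calc L / M * ∑ i ∈ Finset.range M, inner ℝ (G p) (G (segPt M a b i))
        ≤ L / M * ((2 * W + 1) * B) := by
          apply mul_le_mul_of_nonneg_left (h1.trans h2)
          positivity
      _ = (4 * R₀ + L / M) * B := by rw [hW]; field_simp; ring
      _ ≤ (4 * R₀ + 1) * B := by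
          gcongr
          rwa [div_le_one hM']
  · push Not at hex
    have h1 : ∑ i ∈ Finset.range M, inner ℝ (G p) (G (segPt M a b i)) = 0 :=
      Finset.sum_eq_zero fun i hi => hG.range _ _ (hex i (Finset.mem_range.1 hi))
    rw [h1, mul_zero]
    positivity

/-- Lower bound for the covariance with the integral over a segment. -/
lemma inner_pcT_ge (hG : CovLaw G R₀ v₀ C) {M : ℕ} {a b p : Eu d} {θ : ℝ}
    (hθ : θ ∈ Icc (0 : ℝ) 1) (hL : 2 * (√v₀ / C) ≤ ‖b - a‖) (hM : 8 * ‖b - a‖ / (√v₀ / C) ≤ M)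
    (hp : ‖p - (a + θ • (b - a))‖ ≤ √v₀ / C / 2) :
    √v₀ / C * v₀ / 8 ≤ inner ℝ (G p) (lc G (pcT M a b)) := by
  have hC := hG.C_pos
  have hv := hG.v₀_pos
  set r₁ := √v₀ / C with hr₁
  have hr0 : 0 < r₁ := by positivity
  set L := ‖b - a‖ with hLdef
  have hL0 : 0 < L := by linarith
  have hM' : (0 : ℝ) < M := lt_of_lt_of_le (by positivity) hM
  rw [inner_pcT_right, ← hLdef]
  set W := r₁ * M / (2 * L) with hW
  have hW4 : 4 ≤ W := by
    rw [div_le_iff₀ hr0] at hM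
    rw [hW, le_div_iff₀ (by positivity)]
    linarith
  have hWM : W ≤ M / 4 := by
    rw [hW, div_le_iff₀ (by positivity)]
    have : r₁ * M ≤ L / 2 * M := by gcongr; linarith
    linarith
  set w := ⌊W⌋₊ - 1 with hw
  have hfl : (⌊W⌋₊ : ℝ) ≤ W := Nat.floor_le (by linarith)
  have hfl2 : W < ⌊W⌋₊ + 1 := Nat.lt_floor_add_one _
  have hfl3 : 1 ≤ ⌊W⌋₊ := by
    have : (1 : ℝ) < ⌊W⌋₊ + 1 := by linarith
    have h2 : (0 : ℝ) < ⌊W⌋₊ := by linarith
    exact_mod_cast h2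
  have hwc : (w : ℝ) = ⌊W⌋₊ - 1 := by
    rw [hw, Nat.cast_sub hfl3]
    simp
  have hw1 : (w : ℝ) + 1 ≤ W := by rw [hwc]; linarith
  have hw2 : W / 2 ≤ w := by rw [hwc]; linarith
  -- the indices
  obtain ⟨T, hTsub, hTcard, hTnear⟩ : ∃ T : Finset ℕ, T ⊆ Finset.range M ∧ T.card = w ∧
      ∀ j ∈ T, |(j : ℝ) / M - θ| ≤ (w + 1) / M := by
    have hθ0 := hθ.1
    have hθ1 := hθ.2
    have hθM : 0 ≤ θ * M := by positivity
    rcases le_or_gt θ (1 / 2) with h | h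
    · set c := ⌈θ * M⌉₊ with hc
      have hc1 : θ * M ≤ c := Nat.le_ceil _
      have hc2 : (c : ℝ) < θ * M + 1 := Nat.ceil_lt_add_one hθM
      refine ⟨Finset.Ico c (c + w), ?_, ?_, ?_⟩
      · intro j hj
        rw [Finset.mem_Ico] at hj
        rw [Finset.mem_range]
        have h1 : (j : ℝ) < c + w := by exact_mod_cast hj.2
        have h2 : (j : ℝ) < M := by
          have : θ * M ≤ 1 / 2 * M := by gcongr
          linarith
        exact_mod_cast h2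
      · simp
      · intro j hj
        rw [Finset.mem_Ico] at hj
        have h1 : (j : ℝ) ≤ c + w := by exact_mod_cast hj.2.le
        have h2 : (c : ℝ) ≤ j := by exact_mod_cast hj.1
        rw [div_sub' hM'.ne', abs_div, abs_of_pos hM']
        gcongr
        rw [abs_le]
        constructor <;> nlinarith
    · set c := ⌊θ * M⌋₊ with hc
      have hc1 : (c : ℝ) ≤ θ * M := Nat.floor_le hθM
      have hc2 : θ * M < c + 1 := Nat.lt_floor_add_one _
      have hcw : w ≤ c := by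
        have h1 : (w : ℝ) < c + 1 := by
          have : 1 / 2 * (M : ℝ) < θ * M := by gcongr
          linarith
        have h2 : w < c + 1 := by exact_mod_cast h1
        omega
      refine ⟨Finset.Ico (c - w) c, ?_, ?_, ?_⟩
      · intro j hj
        rw [Finset.mem_Ico] at hj
        rw [Finset.mem_range]
        have h1 : (j : ℝ) < c := by exact_mod_cast hj.2
        have h2 : (j : ℝ) < M := by
          have : θ * M ≤ 1 * M := by gcongr
          linarith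
        exact_mod_cast h2
      · rw [Nat.card_Ico]
        omega
      · intro j hj
        rw [Finset.mem_Ico] at hj
        have h1 : (j : ℝ) ≤ c := by exact_mod_cast hj.2.le
        have h2 : (c : ℝ) ≤ j + w := by exact_mod_cast (by omega : c ≤ j + w)
        rw [div_sub' hM'.ne', abs_div, abs_of_pos hM']
        gcongr
        rw [abs_le]
        constructor <;> nlinarith
  have hterm : ∀ j ∈ T, v₀ / 2 ≤ inner ℝ (G p) (G (segPt M a b j)) := by
    intro j hj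
    refine inner_near hG ?_
    have h1 : ‖p - segPt M a b j‖ ≤ r₁ := by
      have e : p - segPt M a b j = (p - (a + θ • (b - a))) + (θ - (j : ℝ) / M) • (b - a) := by
        unfold segPt
        module
      rw [e]
      refine (norm_add_le _ _).trans ?_
      rw [norm_smul, Real.norm_eq_abs, ← hLdef, abs_sub_comm]
      have h2 : |(j : ℝ) / M - θ| * L ≤ r₁ / 2 := by
        calc |(j : ℝ) / M - θ| * L ≤ (w + 1) / M * L := by gcongr; exact hTnear j hj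
          _ ≤ W / M * L := by gcongr
          _ = r₁ / 2 := by rw [hW]; field_simp
      linarith
    calc C ^ 2 * ‖p - segPt M a b j‖ ^ 2 ≤ C ^ 2 * r₁ ^ 2 := by gcongr
      _ = v₀ := by
          rw [hr₁, div_pow, Real.sq_sqrt hv.le]; field_simp
  have hsum : (w : ℝ) * (v₀ / 2) ≤ ∑ i ∈ Finset.range M, inner ℝ (G p) (G (segPt M a b i)) := by
    calc (w : ℝ) * (v₀ / 2) = ∑ _j ∈ T, v₀ / 2 := by
          rw [Finset.sum_const, hTcard, nsmul_eq_mul]
      _ ≤ ∑ j ∈ T, inner ℝ (G p) (G (segPt M a b j)) := Finset.sum_le_sum hterm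
      _ ≤ _ := Finset.sum_le_sum_of_subset_of_nonneg hTsub fun _ _ _ => hG.nonneg _ _
  calc r₁ * v₀ / 8 = L / M * ((W / 2) * (v₀ / 2)) := by rw [hW]; field_simp; ring
    _ ≤ L / M * (w * (v₀ / 2)) := by gcongr
    _ ≤ _ := by gcongr

lemma inner_pcT_right_nonneg (hG : CovLaw G R₀ v₀ C) (p : Eu d) (M : ℕ) (a b : Eu d) :
    0 ≤ inner ℝ (G p) (lc G (pcT M a b)) := by
  rw [inner_pcT_right]
  have : 0 ≤ ∑ i ∈ Finset.range M, inner ℝ (G p) (G (segPt M a b i)) :=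
    Finset.sum_nonneg fun i _ => hG.nonneg _ _
  positivity

lemma inner_pcT_right_zero (hG : CovLaw G R₀ v₀ C) {p : Eu d} {M : ℕ} {a b : Eu d}
    (h : ∀ i < M, R₀ ≤ ‖p - segPt M a b i‖) : inner ℝ (G p) (lc G (pcT M a b)) = 0 := by
  rw [inner_pcT_right, Finset.sum_eq_zero fun i hi => hG.range _ _ (h i (Finset.mem_range.1 hi)),
    mul_zero]

/-- A point in the plane of the detour. -/
noncomputable def pl (X Y : Eu d) (α β : ℝ) : Eu d := X + α • (Y - X) + β • perp (Y - X)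

lemma pl_sub (X Y : Eu d) (α β α' β' : ℝ) :
    pl X Y α β - pl X Y α' β' = (α - α') • (Y - X) + (β - β') • perp (Y - X) := by
  unfold pl
  module

lemma norm_pl_sub_sq (hd : 2 ≤ d) (X Y : Eu d) (α β α' β' : ℝ) :
    ‖pl X Y α β - pl X Y α' β'‖ ^ 2 = (α - α') ^ 2 * ‖Y - X‖ ^ 2 + (β - β') ^ 2 := by
  rw [pl_sub, norm_combo hd]

lemma abs_le_norm_pl (hd : 2 ≤ d) (X Y : Eu d) (α β α' β' : ℝ) :
    |β - β'| ≤ ‖pl X Y α β - pl X Y α' β'‖ := by
  have h := norm_pl_sub_sq hd X Y α β α' β'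
  have h1 : |β - β'| ^ 2 ≤ ‖pl X Y α β - pl X Y α' β'‖ ^ 2 := by
    rw [h, sq_abs]
    have : 0 ≤ (α - α') ^ 2 * ‖Y - X‖ ^ 2 := by positivity
    linarith
  exact (abs_le_of_sq_le_sq' h1 (norm_nonneg _)).2

lemma abs_mul_le_norm_pl (hd : 2 ≤ d) (X Y : Eu d) (α β α' β' : ℝ) :
    |α - α'| * ‖Y - X‖ ≤ ‖pl X Y α β - pl X Y α' β'‖ := by
  have h := norm_pl_sub_sq hd X Y α β α' β'
  have h1 : (|α - α'| * ‖Y - X‖) ^ 2 ≤ ‖pl X Y α β - pl X Y α' β'‖ ^ 2 := by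
    rw [h, mul_pow, sq_abs]
    have : 0 ≤ (β - β') ^ 2 := sq_nonneg _
    linarith
  exact (abs_le_of_sq_le_sq' h1 (norm_nonneg _)).2

/-- The decision test: integral over the middle quarter of the straight route minus that over its
translate. -/
noncomputable def dT (M : ℕ) (D : ℝ) (X Y : Eu d) : Eu d →₀ ℝ :=
  pcT M (pl X Y (3 / 8) 0) (pl X Y (5 / 8) 0) - pcT M (pl X Y (3 / 8) D) (pl X Y (5 / 8) D)

lemma segPt_pl (X Y : Eu d) (β : ℝ) (M i : ℕ) :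
    segPt M (pl X Y (3 / 8) β) (pl X Y (5 / 8) β) i
      = pl X Y (3 / 8 + (i : ℝ) / M * (1 / 4)) β := by
  unfold segPt
  rw [pl_sub]
  unfold pl
  module

lemma norm_pl_mid (X Y : Eu d) (β : ℝ) :
    ‖pl X Y (5 / 8) β - pl X Y (3 / 8) β‖ = ‖Y - X‖ / 4 := by
  rw [pl_sub]
  have e : ((5 : ℝ) / 8 - 3 / 8) • (Y - X) + (β - β) • perp (Y - X) = (1 / 4 : ℝ) • (Y - X) := by
    module
  rw [e, norm_smul]
  norm_num
  ring

lemma inner_dT (G : Eu d → H) (p : Eu d) (M : ℕ) (D : ℝ) (X Y : Eu d) :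
    inner ℝ (G p) (lc G (dT M D X Y))
      = inner ℝ (G p) (lc G (pcT M (pl X Y (3 / 8) 0) (pl X Y (5 / 8) 0)))
        - inner ℝ (G p) (lc G (pcT M (pl X Y (3 / 8) D) (pl X Y (5 / 8) D))) := by
  have : lc G (dT M D X Y) = lc G (pcT M (pl X Y (3 / 8) 0) (pl X Y (5 / 8) 0))
      - lc G (pcT M (pl X Y (3 / 8) D) (pl X Y (5 / 8) D)) := by
    simp [lc, dT]
  rw [this, inner_sub_right]

lemma frac_mem {M i : ℕ} (hi : i < M) : (0 : ℝ) ≤ (i : ℝ) / M ∧ (i : ℝ) / M ≤ 1 := by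
  have hM : (0 : ℝ) < M := by exact_mod_cast (by omega : 0 < M)
  refine ⟨by positivity, ?_⟩
  rw [div_le_one hM]
  exact_mod_cast hi.le

/-- A point near a line at height `β` has small covariance with the integral at height `β'`,
if the heights differ by `R₀`. -/
lemma inner_far_line (hd : 2 ≤ d) (hG : CovLaw G R₀ v₀ C) {M : ℕ} (hM : 0 < M) {X Y p : Eu d}
    (hXY : X ≠ Y) (hLM : ‖Y - X‖ ≤ M) {α β β' ρ : ℝ} (hρ : 0 ≤ ρ)
    (hp : ‖p - pl X Y α β‖ ≤ ρ) (hβ : |β - β'| = R₀) :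
    inner ℝ (G p) (lc G (pcT M (pl X Y (3 / 8) β') (pl X Y (5 / 8) β')))
      ≤ (4 * R₀ + 1) * (C ^ 2 * ρ) := by
  have hC := hG.C_pos
  have hL : 0 < ‖Y - X‖ := norm_pos_iff.2 (sub_ne_zero.2 hXY.symm)
  refine inner_pcT_le hG hM (by positivity) ?_ ?_ ?_
  · intro h
    have := norm_pl_mid X Y β'
    rw [h, sub_self, norm_zero] at this
    linarith
  · rw [norm_pl_mid]
    linarith
  · intro i _
    rw [segPt_pl]
    have h0 : inner ℝ (G (pl X Y α β)) (G (pl X Y (3 / 8 + (i : ℝ) / M * (1 / 4)) β')) = 0 := by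
      apply hG.range
      rw [← hβ]
      exact abs_le_norm_pl hd _ _ _ _ _ _
    have e : G p = (G p - G (pl X Y α β)) + G (pl X Y α β) := by abel
    rw [e, inner_add_left, h0, add_zero]
    calc inner ℝ (G p - G (pl X Y α β)) (G (pl X Y (3 / 8 + (i : ℝ) / M * (1 / 4)) β'))
        ≤ ‖G p - G (pl X Y α β)‖ * ‖G (pl X Y (3 / 8 + (i : ℝ) / M * (1 / 4)) β')‖ :=
          real_inner_le_norm _ _
      _ ≤ (C * ‖p - pl X Y α β‖) * C := by
          gcongr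
          · exact hG.diff_le _ _
          · exact hG.norm_le _
      _ ≤ (C * ρ) * C := by gcongr
      _ = C ^ 2 * ρ := by ring

/-- Lower bound near the middle quarter. -/
lemma inner_mid_line (hG : CovLaw G R₀ v₀ C) {M : ℕ} {X Y p : Eu d} {α β ρ : ℝ}
    (hα : α ∈ Icc (3 / 8 : ℝ) (5 / 8)) (hL : 8 * (√v₀ / C) ≤ ‖Y - X‖)
    (hM : 2 * ‖Y - X‖ / (√v₀ / C) ≤ M) (hp : ‖p - pl X Y α β‖ ≤ ρ) (hρ : ρ ≤ √v₀ / C / 2) :
    √v₀ / C * v₀ / 8
      ≤ inner ℝ (G p) (lc G (pcT M (pl X Y (3 / 8) β) (pl X Y (5 / 8) β))) := by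
  refine inner_pcT_ge hG (θ := 4 * (α - 3 / 8)) ⟨by linarith [hα.1], by linarith [hα.2]⟩ ?_ ?_ ?_
  · rw [norm_pl_mid]; linarith
  · rw [norm_pl_mid]
    refine le_trans (le_of_eq ?_) hM
    ring
  · refine le_trans (le_of_eq ?_) (hp.trans hρ)
    congr 2
    rw [pl_sub]
    unfold pl
    module

/-- Points near the straight route. -/
lemma cov_straight (hd : 2 ≤ d) (hG : CovLaw G R₀ v₀ C) {M : ℕ} (hM : 0 < M) {X Y p : Eu d}
    (hXY : X ≠ Y) (hLM : ‖Y - X‖ ≤ M) {α ρ : ℝ} (hρ : 0 ≤ ρ) (hp : ‖p - pl X Y α 0‖ ≤ ρ) :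
    -((4 * R₀ + 1) * (C ^ 2 * ρ)) ≤ inner ℝ (G p) (lc G (dT M R₀ X Y)) := by
  rw [inner_dT]
  have h1 := inner_far_line hd hG hM hXY hLM (β' := R₀) hρ hp (by
    rw [zero_sub, abs_neg, abs_of_pos hG.R₀_pos])
  have h2 := inner_pcT_right_nonneg hG p M (pl X Y (3 / 8) 0) (pl X Y (5 / 8) 0)
  linarith

lemma cov_straight_mid (hd : 2 ≤ d) (hG : CovLaw G R₀ v₀ C) {M : ℕ} (hM : 0 < M) {X Y p : Eu d}
    (hXY : X ≠ Y) (hLM : ‖Y - X‖ ≤ M) {α ρ : ℝ} (hα : α ∈ Icc (3 / 8 : ℝ) (5 / 8))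
    (hL : 8 * (√v₀ / C) ≤ ‖Y - X‖) (hM2 : 2 * ‖Y - X‖ / (√v₀ / C) ≤ M) (hρ : 0 ≤ ρ)
    (hρ2 : ρ ≤ √v₀ / C / 2) (hp : ‖p - pl X Y α 0‖ ≤ ρ) :
    √v₀ / C * v₀ / 8 - (4 * R₀ + 1) * (C ^ 2 * ρ) ≤ inner ℝ (G p) (lc G (dT M R₀ X Y)) := by
  rw [inner_dT]
  have h1 := inner_far_line hd hG hM hXY hLM (β' := R₀) hρ hp (by
    rw [zero_sub, abs_neg, abs_of_pos hG.R₀_pos])
  have h2 := inner_mid_line hG hα hL hM2 hp hρ2
  linarith

/-- Points near the detour. -/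
lemma cov_detour (hd : 2 ≤ d) (hG : CovLaw G R₀ v₀ C) {M : ℕ} (hM : 0 < M) {X Y p : Eu d}
    (hXY : X ≠ Y) (hLM : ‖Y - X‖ ≤ M) {α ρ : ℝ} (hρ : 0 ≤ ρ) (hp : ‖p - pl X Y α R₀‖ ≤ ρ) :
    inner ℝ (G p) (lc G (dT M R₀ X Y)) ≤ (4 * R₀ + 1) * (C ^ 2 * ρ) := by
  rw [inner_dT]
  have h1 := inner_far_line hd hG hM hXY hLM (β' := 0) hρ hp (by
    rw [sub_zero, abs_of_pos hG.R₀_pos])
  have h2 := inner_pcT_right_nonneg hG p M (pl X Y (3 / 8) R₀) (pl X Y (5 / 8) R₀)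
  linarith

lemma cov_detour_mid (hd : 2 ≤ d) (hG : CovLaw G R₀ v₀ C) {M : ℕ} (hM : 0 < M) {X Y p : Eu d}
    (hXY : X ≠ Y) (hLM : ‖Y - X‖ ≤ M) {α ρ : ℝ} (hα : α ∈ Icc (3 / 8 : ℝ) (5 / 8))
    (hL : 8 * (√v₀ / C) ≤ ‖Y - X‖) (hM2 : 2 * ‖Y - X‖ / (√v₀ / C) ≤ M) (hρ : 0 ≤ ρ)
    (hρ2 : ρ ≤ √v₀ / C / 2) (hp : ‖p - pl X Y α R₀‖ ≤ ρ) :
    inner ℝ (G p) (lc G (dT M R₀ X Y)) ≤ (4 * R₀ + 1) * (C ^ 2 * ρ) - √v₀ / C * v₀ / 8 := by
  rw [inner_dT]
  have h1 := inner_far_line hd hG hM hXY hLM (β' := 0) hρ hp (by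
    rw [sub_zero, abs_of_pos hG.R₀_pos])
  have h2 := inner_mid_line hG hα hL hM2 hp hρ2
  linarith

/-- Points near the legs. -/
lemma cov_leg (hd : 2 ≤ d) (hG : CovLaw G R₀ v₀ C) {M : ℕ} {X Y p : Eu d} {α β ρ : ℝ}
    (hα : α ≤ 1 / 4 ∨ 3 / 4 ≤ α) (hL : 8 * (R₀ + ρ) ≤ ‖Y - X‖) (hp : ‖p - pl X Y α β‖ ≤ ρ) :
    inner ℝ (G p) (lc G (dT M R₀ X Y)) = 0 := by
  have key : ∀ β' : ℝ, ∀ i < M,
      R₀ ≤ ‖p - segPt M (pl X Y (3 / 8) β') (pl X Y (5 / 8) β') i‖ := by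
    intro β' i hi
    rw [segPt_pl]
    obtain ⟨f0, f1⟩ := frac_mem hi
    have h1 := abs_mul_le_norm_pl hd X Y α β (3 / 8 + (i : ℝ) / M * (1 / 4)) β'
    have h2 : (1 : ℝ) / 8 ≤ |α - (3 / 8 + (i : ℝ) / M * (1 / 4))| := by
      rcases hα with h | h
      · rw [abs_of_nonpos (by linarith)]; linarith
      · rw [abs_of_nonneg (by linarith)]; linarith
    have h3 : 1 / 8 * ‖Y - X‖ ≤ ‖pl X Y α β - pl X Y (3 / 8 + (i : ℝ) / M * (1 / 4)) β'‖ := by
      refine le_trans ?_ h1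
      gcongr
    have h4 : ‖pl X Y α β - pl X Y (3 / 8 + (i : ℝ) / M * (1 / 4)) β'‖
        ≤ ‖p - pl X Y α β‖ + ‖p - pl X Y (3 / 8 + (i : ℝ) / M * (1 / 4)) β'‖ := by
      have e : pl X Y α β - pl X Y (3 / 8 + (i : ℝ) / M * (1 / 4)) β'
          = -(p - pl X Y α β) + (p - pl X Y (3 / 8 + (i : ℝ) / M * (1 / 4)) β') := by abel
      rw [e]
      refine (norm_add_le _ _).trans ?_
      rw [norm_neg]
    linarith
  rw [inner_dT, inner_pcT_right_zero hG (key 0), inner_pcT_right_zero hG (key R₀), sub_zero]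

/-- Upper bound for the standard deviation of the decision test. -/
lemma norm_dT_le (hG : CovLaw G R₀ v₀ C) {M : ℕ} (hM : 0 < M) {X Y : Eu d}
    (hXY : X ≠ Y) (hLM : ‖Y - X‖ ≤ M) :
    ‖lc G (dT M R₀ X Y)‖ ≤ √((2 * R₀ + 1) * C ^ 2 * ‖Y - X‖) := by
  have hL : 0 < ‖Y - X‖ := norm_pos_iff.2 (sub_ne_zero.2 hXY.symm)
  have hR := hG.R₀_pos
  have key : ∀ β : ℝ, ‖lc G (pcT M (pl X Y (3 / 8) β) (pl X Y (5 / 8) β))‖
      ≤ √((2 * R₀ + 1) * C ^ 2 * ‖Y - X‖) / 2 := by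
    intro β
    have hne : pl X Y (3 / 8) β ≠ pl X Y (5 / 8) β := by
      intro h
      have := norm_pl_mid X Y β
      rw [h, sub_self, norm_zero] at this
      linarith
    have h1 := norm_lc_avgT_sq hG hM hne (by rw [norm_pl_mid]; linarith)
    rw [norm_pl_mid] at h1
    have e : lc G (pcT M (pl X Y (3 / 8) β) (pl X Y (5 / 8) β))
        = (‖Y - X‖ / 4) • lc G (avgT M (pl X Y (3 / 8) β) (pl X Y (5 / 8) β)) := by
      simp only [lc, pcT, map_smul, norm_pl_mid]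
    rw [e, norm_smul, Real.norm_eq_abs, abs_of_pos (by positivity)]
    have h2 : (‖Y - X‖ / 4 * ‖lc G (avgT M (pl X Y (3 / 8) β) (pl X Y (5 / 8) β))‖) ^ 2
        ≤ (√((2 * R₀ + 1) * C ^ 2 * ‖Y - X‖) / 2) ^ 2 := by
      rw [mul_pow, div_pow √_ 2, Real.sq_sqrt (by positivity)]
      calc (‖Y - X‖ / 4) ^ 2 * ‖lc G (avgT M (pl X Y (3 / 8) β) (pl X Y (5 / 8) β))‖ ^ 2
          ≤ (‖Y - X‖ / 4) ^ 2 * ((2 * R₀ + 1) * C ^ 2 / (‖Y - X‖ / 4)) := by gcongr
        _ = (2 * R₀ + 1) * C ^ 2 * ‖Y - X‖ / 2 ^ 2 := by field_simp; ring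
    exact (abs_le_of_sq_le_sq' h2 (by positivity)).2
  have e : lc G (dT M R₀ X Y) = lc G (pcT M (pl X Y (3 / 8) 0) (pl X Y (5 / 8) 0))
      - lc G (pcT M (pl X Y (3 / 8) R₀) (pl X Y (5 / 8) R₀)) := by
    simp [lc, dT]
  rw [e]
  refine (norm_sub_le _ _).trans ?_
  have h1 := key 0
  have h2 := key R₀
  linarith

end Pool.Agent.Lib_MP_71c74a_pr
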