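import Mathlib

/-!
# The exponential metric of a log-correlated field: definitions

We work in `ℝ^d`, realised as `EuclideanSpace ℝ (Fin d)`.
-/

open MeasureTheory ProbabilityTheory Set
open scoped ENNReal NNReal Topology

namespace Pool.Agent.Lib_MP_71c74a_pr

/-- The open cube `B_r(0) = (-r, r)^d`. -/
def cube (d : ℕ) (r : ℝ) : Set (EuclideanSpace ℝ (Fin d)) := {x | ∀ i, |x i| < r}

/-- The kernel: smooth, nonnegative, radially symmetric, supported in some cube `B_r(0)` and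
with unit square integral. -/
structure IsKernel {d : ℕ} (K : EuclideanSpace ℝ (Fin d) → ℝ) : Prop where
  smooth : ContDiff ℝ (⊤ : ℕ∞) K
  nonneg : ∀ x, 0 ≤ K x
  radial : ∀ x y, ‖x‖ = ‖y‖ → K x = K y
  supp : ∃ r, 0 < r ∧ ∀ x, x ∉ cube d r → K x = 0
  norm_sq : ∫ x, K x ^ 2 = 1

/-- Lebesgue measure on `ℝ^d × (0, ∞)`. -/
noncomputable def stMeasure (d : ℕ) : Measure (EuclideanSpace ℝ (Fin d) × ℝ) :=
  volume.restrict (univ ×ˢ Ioi 0)

/-- `W` is space-time white noise on `ℝ^d × (0, ∞)`: to every square integrable function it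
associates, linearly, a centred Gaussian variable whose variance is the square of the norm of
the function. -/
structure IsWhiteNoise {d : ℕ} {Ω : Type*} [MeasurableSpace Ω] (P : Measure Ω)
    (W : (EuclideanSpace ℝ (Fin d) × ℝ → ℝ) → Ω → ℝ) : Prop where
  meas : ∀ f, MemLp f 2 (stMeasure d) → Measurable (W f)
  law : ∀ f, MemLp f 2 (stMeasure d) →
    P.map (W f) = gaussianReal 0 (∫ p, f p ^ 2 ∂(stMeasure d)).toNNReal
  lin : ∀ f g, ∀ a b : ℝ, MemLp f 2 (stMeasure d) → MemLp g 2 (stMeasure d) →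
    W (fun p => a * f p + b * g p) =ᵐ[P] fun ω => a * W f ω + b * W g ω

/-- The integrand `(y, t) ↦ K((y - x)/t) t^{-(d+1)/2} 1_{2^{-n} ≤ t ≤ 1}` in the definition
of `h_n(x)`. -/
noncomputable def integrand {d : ℕ} (K : EuclideanSpace ℝ (Fin d) → ℝ) (n : ℕ)
    (x : EuclideanSpace ℝ (Fin d)) (p : EuclideanSpace ℝ (Fin d) × ℝ) : ℝ :=
  if (1 / 2) ^ n ≤ p.2 ∧ p.2 ≤ 1 then
    K (p.2⁻¹ • (p.1 - x)) * p.2 ^ (-((d : ℝ) + 1) / 2) else 0

/-- `h n`, for `n ≥ 1`, is the smooth modification of the field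
`x ↦ ∫ ∫_{2^{-n}}^1 K((y - x)/t) t^{-(d+1)/2} W(dy, dt)`. -/
structure IsField {d : ℕ} {Ω : Type*} [MeasurableSpace Ω] (P : Measure Ω)
    (K : EuclideanSpace ℝ (Fin d) → ℝ) (W : (EuclideanSpace ℝ (Fin d) × ℝ → ℝ) → Ω → ℝ)
    (h : ℕ → EuclideanSpace ℝ (Fin d) → Ω → ℝ) : Prop where
  smooth : ∀ n, 1 ≤ n → ∀ ω, ContDiff ℝ (⊤ : ℕ∞) (fun x => h n x ω)
  meas : ∀ n, 1 ≤ n → ∀ x, Measurable (h n x)
  eq : ∀ n, 1 ≤ n → ∀ x, h n x =ᵐ[P] W (integrand K n x)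

/-- `γ : [0,1] → U` is a piecewise continuously differentiable path from `z` to `w`: it is
continuous, and continuously differentiable on each of finitely many closed intervals
subdividing `[0,1]`. -/
structure IsPath {d : ℕ} (U : Set (EuclideanSpace ℝ (Fin d))) (z w : EuclideanSpace ℝ (Fin d))
    (γ : ℝ → EuclideanSpace ℝ (Fin d)) : Prop where
  source : γ 0 = z
  target : γ 1 = w
  mem : ∀ t ∈ Icc (0 : ℝ) 1, γ t ∈ U
  cont : ContinuousOn γ (Icc 0 1)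
  pw : ∃ (m : ℕ) (t : ℕ → ℝ), t 0 = 0 ∧ t m = 1 ∧ (∀ i < m, t i < t (i + 1)) ∧
    ∀ i < m, ContDiffOn ℝ 1 γ (Icc (t i) (t (i + 1)))

/-- The length `∫_0^1 e^{ξ h(γ(t))} |γ'(t)| dt`. -/
noncomputable def pathLen {d : ℕ} (ξ : ℝ) (h : EuclideanSpace ℝ (Fin d) → ℝ)
    (γ : ℝ → EuclideanSpace ℝ (Fin d)) : ℝ :=
  ∫ t in (0 : ℝ)..1, Real.exp (ξ * h (γ t)) * ‖deriv γ t‖

/-- The distance `D(z, w; U)`: the infimum of the lengths of the piecewise continuously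
differentiable paths in `U` from `z` to `w`. -/
noncomputable def expDist {d : ℕ} (ξ : ℝ) (h : EuclideanSpace ℝ (Fin d) → ℝ)
    (U : Set (EuclideanSpace ℝ (Fin d))) (z w : EuclideanSpace ℝ (Fin d)) : ℝ :=
  sInf {L | ∃ γ, IsPath U z w γ ∧ L = pathLen ξ h γ}

/-- `m` is a median of `X`. -/
def IsMedian {Ω : Type*} [MeasurableSpace Ω] (P : Measure Ω) (X : Ω → ℝ) (m : ℝ) : Prop :=
  1 / 2 ≤ P {ω | X ω ≤ m} ∧ 1 / 2 ≤ P {ω | m ≤ X ω}

end Pool.Agent.Lib_MP_71c74a_pr
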