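import Pool.Agent.Lib_MP_71c74a_pr.FieldOps

/-!
# Exponential square of a test
-/

open MeasureTheory ProbabilityTheory Set
open scoped ENNReal NNReal Topology

namespace Pool.Agent.Lib_MP_71c74a_pr

variable {d : ℕ}

/-- Exponential square of a test. -/
noncomputable def eT (ε : ℝ) (φ : Eu d → ℝ) (a : Eu d →₀ ℝ) : ℝ≥0∞ :=
  ENNReal.ofReal (Real.exp (ε * (lc φ a) ^ 2))

lemma measurable_eT (ε : ℝ) (a : Eu d →₀ ℝ) : Measurable (fun φ : Eu d → ℝ => eT ε φ a) := by
  have := measurable_lc_pi a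
  unfold eT
  fun_prop

end Pool.Agent.Lib_MP_71c74a_pr
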