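import Pool.Agent.Lib_MP_71c74a_pr.ChainBase

/-!
# Dyadic energies of a Lipschitz curve
-/

open MeasureTheory Set
open scoped Topology

namespace Pool.Agent.Lib_MP_71c74a_pr

variable {E : Type*} [NormedAddCommGroup E] [InnerProductSpace ℝ E]

/-- The dyadic points of order `g` of a curve. -/
noncomputable def zg (Z : ℝ → E) (g a : ℕ) : E := Z ((a : ℝ) / 2 ^ g)

omit [NormedAddCommGroup E] [InnerProductSpace ℝ E] in
lemma zg_double (Z : ℝ → E) (g a : ℕ) : zg Z (g + 1) (2 * a) = zg Z g a := by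
  unfold zg
  congr 1
  push_cast
  rw [pow_succ]
  field_simp

omit [InnerProductSpace ℝ E] in
lemma zg_double' (Z : ℝ → E) (g a : ℕ) : zg Z (g + 1) (2 * a + 1 + 1) = zg Z g (a + 1) := by
  have : 2 * a + 1 + 1 = 2 * (a + 1) := by ring
  rw [this, zg_double]

/-- First differences. -/
noncomputable def D1 (Z : ℝ → E) (g a : ℕ) : E := zg Z g (a + 1) - zg Z g a

/-- Deviation of the next dyadic point from the midpoint. -/
noncomputable def dd (Z : ℝ → E) (g a : ℕ) : E :=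
  zg Z (g + 1) (2 * a + 1) - midpoint ℝ (zg Z g a) (zg Z g (a + 1))

/-- Energy at order `g`. -/
noncomputable def En (Z : ℝ → E) (g : ℕ) : ℝ :=
  2 ^ g * ∑ a ∈ Finset.range (2 ^ g), ‖D1 Z g a‖ ^ 2

/-- Energy increment at order `g`. -/
noncomputable def eg (Z : ℝ → E) (g : ℕ) : ℝ :=
  2 ^ g * ∑ a ∈ Finset.range (2 ^ g), ‖dd Z g a‖ ^ 2

/-- Second difference energy at order `g`. -/
noncomputable def Jg (Z : ℝ → E) (g : ℕ) : ℝ :=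
  2 ^ g * ∑ a ∈ Finset.range (2 ^ g - 1), ‖D1 Z g (a + 1) - D1 Z g a‖ ^ 2

omit [InnerProductSpace ℝ E] in
lemma En_nonneg (Z : ℝ → E) (g : ℕ) : 0 ≤ En Z g := by unfold En; positivity
lemma eg_nonneg (Z : ℝ → E) (g : ℕ) : 0 ≤ eg Z g := by unfold eg; positivity
omit [InnerProductSpace ℝ E] in
lemma Jg_nonneg (Z : ℝ → E) (g : ℕ) : 0 ≤ Jg Z g := by unfold Jg; positivity

lemma D1_even (Z : ℝ → E) (g a : ℕ) :
    D1 Z (g + 1) (2 * a) = (1 / 2 : ℝ) • D1 Z g a + dd Z g a := by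
  unfold D1 dd
  rw [zg_double, midpoint_eq_smul_add]
  simp only [invOf_eq_inv]
  module

lemma D1_odd (Z : ℝ → E) (g a : ℕ) :
    D1 Z (g + 1) (2 * a + 1) = (1 / 2 : ℝ) • D1 Z g a - dd Z g a := by
  unfold D1 dd
  rw [zg_double', midpoint_eq_smul_add]
  simp only [invOf_eq_inv]
  module

lemma sum_range_double (f : ℕ → ℝ) (N : ℕ) :
    ∑ a ∈ Finset.range (2 * N), f a = ∑ a ∈ Finset.range N, (f (2 * a) + f (2 * a + 1)) := by
  induction N with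
  | zero => simp
  | succ N ih =>
    have : 2 * (N + 1) = 2 * N + 1 + 1 := by ring
    rw [this, Finset.sum_range_succ, Finset.sum_range_succ, ih, Finset.sum_range_succ]
    ring

lemma sum_range_double_sub (f : ℕ → ℝ) {N : ℕ} (hN : 0 < N) :
    ∑ a ∈ Finset.range (2 * N - 1), f a
      = ∑ a ∈ Finset.range N, f (2 * a) + ∑ a ∈ Finset.range (N - 1), f (2 * a + 1) := by
  obtain ⟨n, rfl⟩ : ∃ n, N = n + 1 := ⟨N - 1, by omega⟩
  have h1 : 2 * (n + 1) - 1 = 2 * n + 1 := by omega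
  have h2 : n + 1 - 1 = n := by omega
  rw [h1, h2, Finset.sum_range_succ, Finset.sum_range_succ, sum_range_double,
    Finset.sum_add_distrib]
  ring

lemma En_succ (Z : ℝ → E) (g : ℕ) : En Z (g + 1) = En Z g + 4 * eg Z g := by
  unfold En eg
  have h : 2 ^ (g + 1) = 2 * 2 ^ g := by ring
  rw [h, sum_range_double]
  have e : ∀ a, ‖D1 Z (g + 1) (2 * a)‖ ^ 2 + ‖D1 Z (g + 1) (2 * a + 1)‖ ^ 2
      = ‖D1 Z g a‖ ^ 2 / 2 + 2 * ‖dd Z g a‖ ^ 2 := by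
    intro a
    rw [D1_even, D1_odd, norm_add_sq_real, norm_sub_sq_real, norm_smul]
    have : ‖(1 / 2 : ℝ)‖ = 1 / 2 := by norm_num
    rw [this]
    ring
  rw [Finset.sum_congr rfl fun a _ => e a, Finset.sum_add_distrib, ← Finset.sum_div,
    ← Finset.mul_sum]
  push_cast
  ring

lemma sum_eg (Z : ℝ → E) (G : ℕ) :
    4 * ∑ g ∈ Finset.range G, eg Z g = En Z G - En Z 0 := by
  induction G with
  | zero => simp
  | succ G ih => rw [Finset.sum_range_succ, mul_add, ih, En_succ]; ring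

lemma En_mono (Z : ℝ → E) (G : ℕ) : En Z 0 ≤ En Z G := by
  have h := sum_eg Z G
  have : 0 ≤ ∑ g ∈ Finset.range G, eg Z g := Finset.sum_nonneg fun g _ => eg_nonneg Z g
  linarith

lemma norm_half_add_le (x u v : E) :
    ‖(1 / 2 : ℝ) • x + (u + v)‖ ^ 2 ≤ 3 / 8 * ‖x‖ ^ 2 + 6 * (‖u‖ ^ 2 + ‖v‖ ^ 2) := by
  have h1 : ‖(1 / 2 : ℝ) • x + (u + v)‖ ≤ 1 / 2 * ‖x‖ + (‖u‖ + ‖v‖) := by
    refine (norm_add_le _ _).trans ?_
    rw [norm_smul]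
    have : ‖(1 / 2 : ℝ)‖ = 1 / 2 := by norm_num
    rw [this]
    gcongr
    exact norm_add_le _ _
  have h2 : ‖(1 / 2 : ℝ) • x + (u + v)‖ ^ 2 ≤ (1 / 2 * ‖x‖ + (‖u‖ + ‖v‖)) ^ 2 :=
    pow_le_pow_left₀ (norm_nonneg _) h1 2
  refine h2.trans ?_
  nlinarith [sq_nonneg (‖x‖ - 4 * (‖u‖ + ‖v‖)), sq_nonneg (‖u‖ - ‖v‖)]

lemma Jg_succ (Z : ℝ → E) (g : ℕ) : Jg Z (g + 1) ≤ 3 / 4 * Jg Z g + 32 * eg Z g := by
  unfold Jg eg
  have h : 2 ^ (g + 1) = 2 * 2 ^ g := by ring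
  have hN : 0 < 2 ^ g := by positivity
  set N := 2 ^ g with hNdef
  rw [h, sum_range_double_sub _ hN]
  have e1 : ∀ a, ‖D1 Z (g + 1) (2 * a + 1) - D1 Z (g + 1) (2 * a)‖ ^ 2 = 4 * ‖dd Z g a‖ ^ 2 := by
    intro a
    rw [D1_even, D1_odd]
    have : (1 / 2 : ℝ) • D1 Z g a - dd Z g a - ((1 / 2 : ℝ) • D1 Z g a + dd Z g a)
        = (-2 : ℝ) • dd Z g a := by module
    rw [this, norm_smul]
    norm_num
    ring
  have e2 : ∀ a, ‖D1 Z (g + 1) (2 * a + 1 + 1) - D1 Z (g + 1) (2 * a + 1)‖ ^ 2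
      ≤ 3 / 8 * ‖D1 Z g (a + 1) - D1 Z g a‖ ^ 2
        + 6 * (‖dd Z g (a + 1)‖ ^ 2 + ‖dd Z g a‖ ^ 2) := by
    intro a
    have h1 : 2 * a + 1 + 1 = 2 * (a + 1) := by ring
    rw [h1, D1_even, D1_odd]
    have : (1 / 2 : ℝ) • D1 Z g (a + 1) + dd Z g (a + 1) - ((1 / 2 : ℝ) • D1 Z g a - dd Z g a)
        = (1 / 2 : ℝ) • (D1 Z g (a + 1) - D1 Z g a) + (dd Z g (a + 1) + dd Z g a) := by module
    rw [this]
    exact norm_half_add_le _ _ _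
  have s1 : ∑ a ∈ Finset.range N, ‖D1 Z (g + 1) (2 * a + 1) - D1 Z (g + 1) (2 * a)‖ ^ 2
      = 4 * ∑ a ∈ Finset.range N, ‖dd Z g a‖ ^ 2 := by
    rw [Finset.sum_congr rfl fun a _ => e1 a, ← Finset.mul_sum]
  have s3 : ∑ a ∈ Finset.range (N - 1), ‖dd Z g a‖ ^ 2 ≤ ∑ a ∈ Finset.range N, ‖dd Z g a‖ ^ 2 :=
    Finset.sum_le_sum_of_subset_of_nonneg
      (Finset.range_subset_range.2 (Nat.sub_le _ _)) fun _ _ _ => sq_nonneg _
  have s4 : ∑ a ∈ Finset.range (N - 1), ‖dd Z g (a + 1)‖ ^ 2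
      ≤ ∑ a ∈ Finset.range N, ‖dd Z g a‖ ^ 2 := by
    obtain ⟨n, hn⟩ : ∃ n, N = n + 1 := ⟨N - 1, by omega⟩
    rw [hn, Nat.add_sub_cancel, Finset.sum_range_succ' (fun a => ‖dd Z g a‖ ^ 2)]
    have := sq_nonneg ‖dd Z g 0‖
    linarith
  have s2 : ∑ a ∈ Finset.range (N - 1), ‖D1 Z (g + 1) (2 * a + 1 + 1) - D1 Z (g + 1) (2 * a + 1)‖ ^ 2
      ≤ 3 / 8 * ∑ a ∈ Finset.range (N - 1), ‖D1 Z g (a + 1) - D1 Z g a‖ ^ 2
        + 12 * ∑ a ∈ Finset.range N, ‖dd Z g a‖ ^ 2 := by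
    refine (Finset.sum_le_sum fun a _ => e2 a).trans ?_
    rw [Finset.sum_add_distrib, ← Finset.mul_sum, ← Finset.mul_sum, Finset.sum_add_distrib]
    linarith
  rw [s1]
  have hp : (0 : ℝ) < 2 ^ g := by positivity
  have e3 : (2 : ℝ) ^ (g + 1) = 2 * 2 ^ g := by ring
  rw [e3]
  have := mul_le_mul_of_nonneg_left s2 hp.le
  nlinarith

omit [InnerProductSpace ℝ E] in
lemma Jg_zero (Z : ℝ → E) : Jg Z 0 = 0 := by simp [Jg]

lemma sum_Jg (Z : ℝ → E) (G : ℕ) :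
    ∑ g ∈ Finset.range G, Jg Z g ≤ 128 * ∑ g ∈ Finset.range G, eg Z g := by
  rcases Nat.eq_zero_or_pos G with h | h
  · subst h; simp
  obtain ⟨n, rfl⟩ : ∃ n, G = n + 1 := ⟨G - 1, by omega⟩
  have h1 : ∑ g ∈ Finset.range (n + 1), Jg Z g = ∑ g ∈ Finset.range n, Jg Z (g + 1) := by
    rw [Finset.sum_range_succ', Jg_zero, add_zero]
  have h2 : ∑ g ∈ Finset.range n, Jg Z (g + 1)
      ≤ 3 / 4 * ∑ g ∈ Finset.range n, Jg Z g + 32 * ∑ g ∈ Finset.range n, eg Z g := by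
    refine (Finset.sum_le_sum fun g _ => Jg_succ Z g).trans (le_of_eq ?_)
    rw [Finset.sum_add_distrib, ← Finset.mul_sum, ← Finset.mul_sum]
  have h3 : ∑ g ∈ Finset.range n, Jg Z g ≤ ∑ g ∈ Finset.range (n + 1), Jg Z g := by
    rw [Finset.sum_range_succ]
    have := Jg_nonneg Z n
    linarith
  have h4 : ∑ g ∈ Finset.range n, eg Z g ≤ ∑ g ∈ Finset.range (n + 1), eg Z g := by
    rw [Finset.sum_range_succ]
    have := eg_nonneg Z n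
    linarith
  linarith

omit [InnerProductSpace ℝ E] in
lemma dy_mem {g a : ℕ} (ha : a ≤ 2 ^ g) : ((a : ℝ) / 2 ^ g) ∈ Icc (0 : ℝ) 1 := by
  refine ⟨by positivity, ?_⟩
  rw [div_le_one (by positivity)]
  exact_mod_cast ha

omit [InnerProductSpace ℝ E] in
lemma norm_D1_le {Z : ℝ → E} {Λ : ℝ} (hZ : LipOn Z Λ 0 1) {g a : ℕ} (ha : a < 2 ^ g) :
    ‖D1 Z g a‖ ≤ Λ / 2 ^ g := by
  have h := hZ _ (dy_mem (g := g) (a := a + 1) ha) _ (dy_mem (g := g) (a := a) ha.le)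
  unfold D1 zg
  refine h.trans (le_of_eq ?_)
  have : ((a + 1 : ℕ) : ℝ) / 2 ^ g - (a : ℝ) / 2 ^ g = 1 / 2 ^ g := by push_cast; ring
  rw [this, abs_of_pos (by positivity)]
  ring

omit [InnerProductSpace ℝ E] in
lemma En_le {Z : ℝ → E} {Λ : ℝ} (hZ : LipOn Z Λ 0 1) (g : ℕ) : En Z g ≤ Λ ^ 2 := by
  unfold En
  have h1 : ∑ a ∈ Finset.range (2 ^ g), ‖D1 Z g a‖ ^ 2
      ≤ ∑ _a ∈ Finset.range (2 ^ g), (Λ / 2 ^ g) ^ 2 := by
    refine Finset.sum_le_sum fun a ha => ?_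
    exact pow_le_pow_left₀ (norm_nonneg _) (norm_D1_le hZ (Finset.mem_range.1 ha)) 2
  rw [Finset.sum_const, Finset.card_range, nsmul_eq_mul] at h1
  push_cast at h1
  calc (2 : ℝ) ^ g * ∑ a ∈ Finset.range (2 ^ g), ‖D1 Z g a‖ ^ 2
      ≤ 2 ^ g * (2 ^ g * (Λ / 2 ^ g) ^ 2) := by gcongr
    _ = Λ ^ 2 := by field_simp

omit [InnerProductSpace ℝ E] in
lemma En_zero (Z : ℝ → E) : En Z 0 = ‖Z 1 - Z 0‖ ^ 2 := by
  simp [En, D1, zg]

/-- Energy budget. -/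
lemma sum_eg_le {Z : ℝ → E} {Λ : ℝ} (hZ : LipOn Z Λ 0 1) (G : ℕ) :
    4 * ∑ g ∈ Finset.range G, eg Z g ≤ Λ ^ 2 - ‖Z 1 - Z 0‖ ^ 2 := by
  rw [sum_eg, En_zero]
  have := En_le hZ G
  linarith

lemma two_point (a b : E) {θ : ℝ} (hθ : θ ∈ Icc (0 : ℝ) 1) :
    (1 - θ) * ‖a‖ ^ 2 + θ * ‖b‖ ^ 2
      = ‖(1 - θ) • a + θ • b‖ ^ 2 + θ * (1 - θ) * ‖a - b‖ ^ 2 := by
  rw [norm_add_sq_real, norm_sub_sq_real, norm_smul, norm_smul, real_inner_smul_left,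
    real_inner_smul_right, Real.norm_eq_abs, Real.norm_eq_abs,
    abs_of_nonneg (by linarith [hθ.2] : (0 : ℝ) ≤ 1 - θ), abs_of_nonneg hθ.1]
  ring

/-- Deviation from the chord. -/
lemma chord_dev {Z : ℝ → E} {Λ α β : ℝ} (hαβ : α < β) (hZ : LipOn Z Λ α β) {θ : ℝ}
    (hθ : θ ∈ Icc (0 : ℝ) 1) :
    ‖Z (α + θ * (β - α)) - (Z α + θ • (Z β - Z α))‖ ^ 2
      ≤ 1 / 4 * ((Λ * (β - α)) ^ 2 - ‖Z β - Z α‖ ^ 2) := by
  set τ := α + θ * (β - α) with hτ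
  have hℓ : 0 < β - α := sub_pos.2 hαβ
  have hθ0 := hθ.1
  have hθ1 := hθ.2
  have hτm : τ ∈ Icc α β := ⟨by rw [hτ]; nlinarith, by rw [hτ]; nlinarith⟩
  set a := Z τ - Z α with ha
  set b := Z τ - Z β with hb
  have hid : (1 - θ) * ‖a‖ ^ 2 + θ * ‖b‖ ^ 2
      = ‖(1 - θ) • a + θ • b‖ ^ 2 + θ * (1 - θ) * ‖a - b‖ ^ 2 := two_point a b hθ
  have e1 : (1 - θ) • a + θ • b = Z τ - (Z α + θ • (Z β - Z α)) := by
    rw [ha, hb]; module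
  have e2 : a - b = Z β - Z α := by rw [ha, hb]; abel
  rw [e1, e2] at hid
  have n1 : ‖a‖ ≤ Λ * (θ * (β - α)) := by
    have := hZ τ hτm α (left_mem_Icc.2 hαβ.le)
    have e : τ - α = θ * (β - α) := by rw [hτ]; ring
    rwa [e, abs_of_nonneg (by positivity)] at this
  have n2 : ‖b‖ ≤ Λ * ((1 - θ) * (β - α)) := by
    have := hZ τ hτm β (right_mem_Icc.2 hαβ.le)
    have e : τ - β = -((1 - θ) * (β - α)) := by rw [hτ]; ring
    rwa [e, abs_neg, abs_of_nonneg (mul_nonneg (by linarith) hℓ.le)] at this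
  have m1 : ‖a‖ ^ 2 ≤ (Λ * (θ * (β - α))) ^ 2 := pow_le_pow_left₀ (norm_nonneg _) n1 2
  have m2 : ‖b‖ ^ 2 ≤ (Λ * ((1 - θ) * (β - α))) ^ 2 := pow_le_pow_left₀ (norm_nonneg _) n2 2
  have hchord : ‖Z β - Z α‖ ≤ Λ * (β - α) := by
    have := hZ β (right_mem_Icc.2 hαβ.le) α (left_mem_Icc.2 hαβ.le)
    rwa [abs_of_pos hℓ] at this
  have m3 : ‖Z β - Z α‖ ^ 2 ≤ (Λ * (β - α)) ^ 2 := pow_le_pow_left₀ (norm_nonneg _) hchord 2
  have k1 : (1 - θ) * ‖a‖ ^ 2 + θ * ‖b‖ ^ 2 ≤ θ * (1 - θ) * (Λ * (β - α)) ^ 2 := by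
    have t1 : (1 - θ) * ‖a‖ ^ 2 ≤ (1 - θ) * (Λ * (θ * (β - α))) ^ 2 := by
      apply mul_le_mul_of_nonneg_left m1; linarith
    have t2 : θ * ‖b‖ ^ 2 ≤ θ * (Λ * ((1 - θ) * (β - α))) ^ 2 :=
      mul_le_mul_of_nonneg_left m2 hθ0
    have e : (1 - θ) * (Λ * (θ * (β - α))) ^ 2 + θ * (Λ * ((1 - θ) * (β - α))) ^ 2
        = θ * (1 - θ) * (Λ * (β - α)) ^ 2 := by ring
    linarith
  have k2 : θ * (1 - θ) ≤ 1 / 4 := by nlinarith [sq_nonneg (θ - 1 / 2)]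
  have k3 : θ * (1 - θ) * ((Λ * (β - α)) ^ 2 - ‖Z β - Z α‖ ^ 2)
      ≤ 1 / 4 * ((Λ * (β - α)) ^ 2 - ‖Z β - Z α‖ ^ 2) :=
    mul_le_mul_of_nonneg_right k2 (by linarith)
  have : ‖Z τ - (Z α + θ • (Z β - Z α))‖ ^ 2
      = (1 - θ) * ‖a‖ ^ 2 + θ * ‖b‖ ^ 2 - θ * (1 - θ) * ‖Z β - Z α‖ ^ 2 := by
    rw [hid]; ring
  rw [this]
  linarith

/-- Average of `φ` over the polygon of order `G`. -/
noncomputable def polyAvg (φ : E → ℝ) (Z : ℝ → E) (G : ℕ) : ℝ :=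
  (∑ a ∈ Finset.range (2 ^ G), segAvg φ (zg Z G a) (zg Z G (a + 1))) / 2 ^ G

/-- Comparison of the average along the curve and along the polygon of order `G`. -/
lemma integral_sub_polyAvg {φ : E → ℝ} (hφ : Continuous φ) {Z : ℝ → E} (hZc : Continuous Z)
    {Λ Lp s : ℝ} (hΛ : 0 ≤ Λ) (hLp : 0 ≤ Lp) (hZ : LipOn Z Λ 0 1) {S : Set E} (hS : Convex ℝ S)
    (hmem : ∀ τ ∈ Icc (0 : ℝ) 1, Z τ ∈ S)
    (hlip : ∀ p ∈ S, ∀ q ∈ S, ‖p - q‖ ≤ s → |φ p - φ q| ≤ Lp * ‖p - q‖) (G : ℕ)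
    (hs : 1 / 2 * (Λ / 2 ^ G) ≤ s) :
    |(∫ τ in (0 : ℝ)..1, φ (Z τ)) - polyAvg φ Z G|
      ≤ Lp * (1 / 2 * (√(Λ ^ 2 - ‖Z 1 - Z 0‖ ^ 2) / 2 ^ G)) := by
  have hN : (0 : ℝ) < 2 ^ G := by positivity
  have hcont : Continuous fun τ => φ (Z τ) := hφ.comp hZc
  -- split the integral
  have h1 : ∫ τ in (0 : ℝ)..1, φ (Z τ)
      = (∑ a ∈ Finset.range (2 ^ G), ∫ θ in (0 : ℝ)..1, φ (Z (((a : ℝ) + θ) / 2 ^ G))) / 2 ^ G := by
    have e1 : ∫ τ in (0 : ℝ)..1, φ (Z τ)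
        = ∑ a ∈ Finset.range (2 ^ G), ∫ τ in ((a : ℝ) / 2 ^ G)..(((a + 1 : ℕ) : ℝ) / 2 ^ G),
          φ (Z τ) := by
      rw [intervalIntegral.sum_integral_adjacent_intervals (a := fun a : ℕ => (a : ℝ) / 2 ^ G)
        (fun k _ => hcont.intervalIntegrable _ _)]
      simp
    rw [e1, Finset.sum_div]
    refine Finset.sum_congr rfl fun a _ => ?_
    have e2 := intervalIntegral.integral_comp_add_mul (a := 0) (b := 1) (fun τ => φ (Z τ))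
      (c := 1 / 2 ^ G) (by positivity) ((a : ℝ) / 2 ^ G)
    have e3 : ∀ θ : ℝ, (a : ℝ) / 2 ^ G + 1 / 2 ^ G * θ = ((a : ℝ) + θ) / 2 ^ G := by
      intro θ; ring
    simp only [e3] at e2
    rw [e2]
    have e4 : ((a : ℝ) + 0) / 2 ^ G = (a : ℝ) / 2 ^ G := by ring
    have e5 : ((a : ℝ) + 1) / 2 ^ G = ((a + 1 : ℕ) : ℝ) / 2 ^ G := by push_cast; ring
    rw [e4, e5, smul_eq_mul]
    field_simp
  rw [h1, polyAvg, ← sub_div, ← Finset.sum_sub_distrib, abs_div, abs_of_pos hN,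
    div_le_iff₀ hN]
  refine (Finset.abs_sum_le_sum_abs _ _).trans ?_
  set ω : ℕ → ℝ := fun a => (Λ / 2 ^ G) ^ 2 - ‖D1 Z G a‖ ^ 2 with hω
  have hω0 : ∀ a ∈ Finset.range (2 ^ G), 0 ≤ ω a := fun a ha => by
    have := pow_le_pow_left₀ (norm_nonneg _) (norm_D1_le hZ (Finset.mem_range.1 ha)) 2
    simp only [hω]; linarith
  have hterm : ∀ a ∈ Finset.range (2 ^ G),
      |(∫ θ in (0 : ℝ)..1, φ (Z (((a : ℝ) + θ) / 2 ^ G))) - segAvg φ (zg Z G a) (zg Z G (a + 1))|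
        ≤ Lp * (1 / 2 * √(ω a)) := by
    intro a ha
    have ha' := Finset.mem_range.1 ha
    unfold segAvg
    have i1 : IntervalIntegrable (fun θ : ℝ => φ (Z (((a : ℝ) + θ) / 2 ^ G))) volume 0 1 :=
      (hcont.comp (by fun_prop : Continuous fun θ : ℝ => ((a : ℝ) + θ) / 2 ^ G)).intervalIntegrable
        _ _
    rw [← intervalIntegral.integral_sub i1 ((continuous_seg hφ _ _).intervalIntegrable _ _)]
    refine abs_integral_unit_le fun θ hθ => ?_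
    set α : ℝ := (a : ℝ) / 2 ^ G with hα
    set β : ℝ := ((a + 1 : ℕ) : ℝ) / 2 ^ G with hβ
    have hba : β - α = 1 / 2 ^ G := by rw [hα, hβ]; push_cast; ring
    have hαβ : α < β := by
      have : 0 < β - α := by rw [hba]; positivity
      linarith
    have hα0 := dy_mem (g := G) (a := a) ha'.le
    have hβ0 := dy_mem (g := G) (a := a + 1) ha'
    have hLip' : LipOn Z Λ α β := hZ.mono hα0.1 hβ0.2
    have hdev := chord_dev hαβ hLip' hθ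
    have e1 : α + θ * (β - α) = ((a : ℝ) + θ) / 2 ^ G := by rw [hba, hα]; ring
    have e2 : Λ * (β - α) = Λ / 2 ^ G := by rw [hba]; ring
    rw [e1, e2] at hdev
    have e3 : Z β - Z α = D1 Z G a := rfl
    have hdev' : ‖Z (((a : ℝ) + θ) / 2 ^ G) - (zg Z G a + θ • (zg Z G (a + 1) - zg Z G a))‖
        ≤ 1 / 2 * √(ω a) := by
      have h2 : ‖Z (((a : ℝ) + θ) / 2 ^ G) - (zg Z G a + θ • (zg Z G (a + 1) - zg Z G a))‖ ^ 2
          ≤ (1 / 2 * √(ω a)) ^ 2 := by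
        rw [mul_pow, Real.sq_sqrt (hω0 a ha)]
        refine hdev.trans (le_of_eq ?_)
        rw [e3, hω]
        ring
      exact (abs_le_of_sq_le_sq' h2 (by positivity)).2
    have hωle : √(ω a) ≤ Λ / 2 ^ G := by
      rw [Real.sqrt_le_left (by positivity)]
      simp only [hω]
      have := sq_nonneg ‖D1 Z G a‖
      linarith
    have m1 : Z (((a : ℝ) + θ) / 2 ^ G) ∈ S := by
      apply hmem
      rw [← e1]
      have hθ0 := hθ.1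
      have hθ1 := hθ.2
      have h3 : 0 ≤ θ * (β - α) := mul_nonneg hθ0 (by linarith)
      have h4 : θ * (β - α) ≤ 1 * (β - α) := mul_le_mul_of_nonneg_right hθ1 (by linarith)
      exact ⟨by linarith [hα0.1], by linarith [hβ0.2]⟩
    have m2 : zg Z G a + θ • (zg Z G (a + 1) - zg Z G a) ∈ S :=
      hS.add_smul_sub_mem (hmem _ hα0) (hmem _ hβ0) hθ
    refine (hlip _ m1 _ m2 (hdev'.trans (le_trans ?_ hs))).trans ?_
    · gcongr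
    · gcongr
  refine (Finset.sum_le_sum hterm).trans ?_
  rw [← Finset.mul_sum, ← Finset.mul_sum]
  have hsumω : ∑ a ∈ Finset.range (2 ^ G), ω a = (Λ ^ 2 - En Z G) / 2 ^ G := by
    simp only [hω, En]
    rw [Finset.sum_sub_distrib, Finset.sum_const, Finset.card_range, nsmul_eq_mul]
    push_cast
    field_simp
  have hcs : (∑ a ∈ Finset.range (2 ^ G), √(ω a)) ^ 2 ≤ Λ ^ 2 - ‖Z 1 - Z 0‖ ^ 2 := by
    have h := Finset.sum_mul_sq_le_sq_mul_sq (Finset.range (2 ^ G)) (fun a => √(ω a))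
      (fun _ => (1 : ℝ))
    simp only [mul_one, one_pow, Finset.sum_const, Finset.card_range, nsmul_eq_mul] at h
    rw [Finset.sum_congr rfl fun a ha => Real.sq_sqrt (hω0 a ha), hsumω] at h
    push_cast at h
    rw [div_mul_cancel₀ _ hN.ne'] at h
    have h2 := En_mono Z G
    rw [En_zero] at h2
    linarith
  have hcs' : ∑ a ∈ Finset.range (2 ^ G), √(ω a) ≤ √(Λ ^ 2 - ‖Z 1 - Z 0‖ ^ 2) :=
    Real.le_sqrt_of_sq_le hcs
  calc Lp * (1 / 2 * ∑ a ∈ Finset.range (2 ^ G), √(ω a))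
      ≤ Lp * (1 / 2 * √(Λ ^ 2 - ‖Z 1 - Z 0‖ ^ 2)) := by gcongr
    _ = Lp * (1 / 2 * (√(Λ ^ 2 - ‖Z 1 - Z 0‖ ^ 2) / 2 ^ G)) * 2 ^ G := by field_simp

end Pool.Agent.Lib_MP_71c74a_pr
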