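import Pool.Agent.Lib_MP_71c74a_pr.PartBound

/-!
# The exponent in the lower bound for the distance
-/

open MeasureTheory ProbabilityTheory Set
open scoped ENNReal NNReal Topology

namespace Pool.Agent.Lib_MP_71c74a_pr

variable {d : ℕ}

/-- The total exponent. -/
noncomputable def expo (d : ℕ) (C' ξ κ S₂ : ℝ) (n k k₀ N s : ℕ) : ℝ :=
  (k₀ + 1) + ξ ^ 2 * S₂ + (C' * κ * (N * k * (8 + 8 * LK d + 384 * d) + 24 * (s * n))
        + 144 * k * (4 * k₀ + 2) * ξ ^ 2 * S₂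
        + N / 2 ^ k + (6 * d + 21) * (1 / 2) ^ k₀ * ξ * (n + S₂))

lemma cube_le_two_pow (m : ℕ) : (m : ℝ) ^ 3 ≤ 4 * 2 ^ m := by
  have h : m ^ 3 ≤ 4 * 2 ^ m := by
    rcases lt_or_ge m 5 with hm | hm
    · interval_cases m <;> norm_num
    · induction m, hm using Nat.le_induction with
      | base => norm_num
      | succ m hm ih =>
        have h1 : (m + 1) ^ 3 ≤ 2 * m ^ 3 := by
          obtain ⟨a, rfl⟩ := Nat.exists_eq_add_of_le hm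
          ring_nf
          nlinarith [sq_nonneg a]
        calc (m + 1) ^ 3 ≤ 2 * m ^ 3 := h1
          _ ≤ 2 * (4 * 2 ^ m) := by omega
          _ = 4 * 2 ^ (m + 1) := by rw [pow_succ]; ring
  exact_mod_cast h

/-- The exponent is at most a multiple of `x^4 n`, up to a constant. -/
lemma expo_le {C' c₂ : ℝ} (hC' : 0 ≤ C') (C₁ : ℕ) (s : ℕ) {x : ℝ} (hx : 0 < x) (hx1 : x ≤ 1)
    {k₀ : ℕ} (hk0 : 0 < k₀) (h1 : (1 / 2 : ℝ) ^ k₀ ≤ x ^ 2) (h2 : x ^ 2 ≤ 2 * (1 / 2) ^ k₀)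
    (hc₂ : 0 ≤ c₂) {n N : ℕ} (hN : 4 * k₀ * N ≤ n + 2 * (4 * k₀)) :
    expo d C' (x ^ 3) (x ^ 4) (c₂ * ((s : ℕ) + C₁ * ((4 * k₀ : ℕ) : ℝ)) * n) n (4 * k₀) k₀ N s
      ≤ ((k₀ + 1) + C' * (8 * k₀) * (8 + 8 * LK d + 384 * d) + 8 * k₀)
        + (512 * (c₂ * (s + C₁)) + C' * (8 + 8 * LK d + 384 * d) + 24 * C' * s
          + 147456 * (c₂ * (s + C₁)) + 1
          + 513 * (6 * d + 21) * (1 + c₂ * (s + C₁))) * x ^ 4 * n := by
  have hLK := LK_nonneg d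
  set k : ℝ := ((4 * k₀ : ℕ) : ℝ) with hk
  have hkk : k = 4 * k₀ := by rw [hk]; push_cast; ring
  have hk1 : 1 ≤ k := by
    rw [hk]; exact_mod_cast (by omega : 1 ≤ 4 * k₀)
  have hk4 : 4 ≤ k := by
    rw [hk]; exact_mod_cast (by omega : 4 ≤ 4 * k₀)
  have hN' : k * N ≤ n + 2 * k := by
    rw [hk]; exact_mod_cast hN
  have hn0 : (0 : ℝ) ≤ n := Nat.cast_nonneg n
  have hN0 : (0 : ℝ) ≤ N := Nat.cast_nonneg N
  -- `x² k³ ≤ 512`
  have hxk : x ^ 2 * k ^ 3 ≤ 512 := by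
    have h3 := cube_le_two_pow k₀
    have h4 : (1 / 2 : ℝ) ^ k₀ * 2 ^ k₀ = 1 := by rw [← mul_pow]; norm_num
    calc x ^ 2 * k ^ 3 ≤ (2 * (1 / 2) ^ k₀) * (64 * (4 * 2 ^ k₀)) := by
          rw [hkk]
          have : (4 * (k₀ : ℝ)) ^ 3 = 64 * (k₀ : ℝ) ^ 3 := by ring
          rw [this]
          gcongr
      _ = 512 * ((1 / 2 : ℝ) ^ k₀ * 2 ^ k₀) := by ring
      _ = 512 := by rw [h4]; norm_num
  have hx2k : x ^ 2 * k ≤ 512 := by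
    refine le_trans ?_ hxk
    gcongr
    calc k = k ^ 1 := (pow_one _).symm
      _ ≤ k ^ 3 := pow_le_pow_right₀ hk1 (by norm_num)
  have hxk1 : x * k ≤ 513 := by
    have h3 : (x * k) ^ 2 ≤ 512 := by
      refine le_trans ?_ hxk
      rw [mul_pow]
      exact mul_le_mul_of_nonneg_left (pow_le_pow_right₀ hk1 (by norm_num)) (by positivity)
    nlinarith [sq_nonneg (x * k - 1)]
  set w : ℝ := c₂ * (s + C₁) with hw
  have hw0 : 0 ≤ w := by positivity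
  have hwk : c₂ * ((s : ℕ) + C₁ * k) ≤ w * k := by
    rw [hw]
    have : (s : ℝ) ≤ s * k := by
      have : (0 : ℝ) ≤ s := Nat.cast_nonneg s
      nlinarith
    calc c₂ * ((s : ℕ) + C₁ * k) ≤ c₂ * (s * k + C₁ * k) := by gcongr
      _ = _ := by ring
  have hwk0 : 0 ≤ c₂ * ((s : ℕ) + C₁ * k) := by positivity
  have hx4 : 0 < x ^ 4 := by positivity
  have hx41 : x ^ 4 ≤ 1 := pow_le_one₀ hx.le hx1
  -- the terms
  have t1 : (x ^ 3) ^ 2 * (c₂ * ((s : ℕ) + C₁ * k) * n) ≤ 512 * w * x ^ 4 * n := by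
    calc (x ^ 3) ^ 2 * (c₂ * ((s : ℕ) + C₁ * k) * n) ≤ (x ^ 3) ^ 2 * ((w * k) * n) := by gcongr
      _ = (x ^ 2 * k) * (w * x ^ 4 * n) := by ring
      _ ≤ 512 * (w * x ^ 4 * n) := by gcongr
      _ = _ := by ring
  have t2 : C' * x ^ 4 * (N * k * (8 + 8 * LK d + 384 * d))
      ≤ C' * (8 + 8 * LK d + 384 * d) * x ^ 4 * n
        + C' * (8 * k₀) * (8 + 8 * LK d + 384 * d) := by
    have h3 : (N : ℝ) * k ≤ n + 2 * k := by linarith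
    calc C' * x ^ 4 * (N * k * (8 + 8 * LK d + 384 * d))
        ≤ C' * x ^ 4 * ((n + 2 * k) * (8 + 8 * LK d + 384 * d)) := by gcongr
      _ = C' * (8 + 8 * LK d + 384 * d) * x ^ 4 * n
          + C' * (2 * k) * (8 + 8 * LK d + 384 * d) * x ^ 4 := by ring
      _ ≤ C' * (8 + 8 * LK d + 384 * d) * x ^ 4 * n
          + C' * (2 * k) * (8 + 8 * LK d + 384 * d) * 1 := by gcongr
      _ = _ := by rw [hkk]; ring
  have t4 : 144 * k * (4 * k₀ + 2) * (x ^ 3) ^ 2 * (c₂ * ((s : ℕ) + C₁ * k) * n)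
      ≤ 147456 * w * x ^ 4 * n := by
    have h3 : (4 : ℝ) * k₀ + 2 ≤ 2 * k := by rw [← hkk]; linarith
    calc 144 * k * (4 * k₀ + 2) * (x ^ 3) ^ 2 * (c₂ * ((s : ℕ) + C₁ * k) * n)
        ≤ 144 * k * (2 * k) * (x ^ 3) ^ 2 * ((w * k) * n) := by gcongr
      _ = 288 * (x ^ 2 * k ^ 3) * (w * x ^ 4 * n) := by ring
      _ ≤ 288 * 512 * (w * x ^ 4 * n) := by gcongr
      _ = _ := by ring
  have t5 : (N : ℝ) / 2 ^ (4 * k₀) ≤ x ^ 4 * n + 8 * k₀ := by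
    have h3 : (1 : ℝ) / 2 ^ (4 * k₀) ≤ x ^ 4 := by
      have h4 : (1 : ℝ) / 2 ^ (4 * k₀) = ((1 / 2) ^ k₀) ^ 4 := by
        rw [← pow_mul, mul_comm k₀ 4, one_div_pow]
      rw [h4]
      calc ((1 / 2 : ℝ) ^ k₀) ^ 4 ≤ (x ^ 2) ^ 4 := by gcongr
        _ = x ^ 4 * x ^ 4 := by ring
        _ ≤ x ^ 4 * 1 := by gcongr
        _ = x ^ 4 := mul_one _
    have h5 : (N : ℝ) ≤ n + 2 * k := by nlinarith
    calc (N : ℝ) / 2 ^ (4 * k₀) = N * (1 / 2 ^ (4 * k₀)) := by ring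
      _ ≤ (n + 2 * k) * x ^ 4 := by gcongr
      _ = x ^ 4 * n + 2 * k * x ^ 4 := by ring
      _ ≤ x ^ 4 * n + 2 * k * 1 := by gcongr
      _ = _ := by rw [hkk]; ring
  have t6 : (6 * (d : ℝ) + 21) * (1 / 2) ^ k₀ * x ^ 3 * (n + c₂ * ((s : ℕ) + C₁ * k) * n)
      ≤ 513 * (6 * d + 21) * (1 + w) * x ^ 4 * n := by
    have h3 : (1 : ℝ) + w * k ≤ (1 + w) * k := by nlinarith
    calc (6 * (d : ℝ) + 21) * (1 / 2) ^ k₀ * x ^ 3 * (n + c₂ * ((s : ℕ) + C₁ * k) * n)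
        ≤ (6 * (d : ℝ) + 21) * x ^ 2 * x ^ 3 * (n + (w * k) * n) := by gcongr
      _ = (6 * (d : ℝ) + 21) * x ^ 5 * n * (1 + w * k) := by ring
      _ ≤ (6 * (d : ℝ) + 21) * x ^ 5 * n * ((1 + w) * k) := by gcongr
      _ = (6 * (d : ℝ) + 21) * (1 + w) * x ^ 4 * n * (x * k) := by ring
      _ ≤ (6 * (d : ℝ) + 21) * (1 + w) * x ^ 4 * n * 513 := by gcongr
      _ = _ := by ring
  unfold expo
  have e : (C' * x ^ 4 * (N * ((4 * k₀ : ℕ) : ℝ) * (8 + 8 * LK d + 384 * d) + 24 * (s * n)))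
      = C' * x ^ 4 * (N * k * (8 + 8 * LK d + 384 * d)) + 24 * C' * s * x ^ 4 * n := by
    rw [hk]; ring
  rw [e]
  rw [← hk]
  have e2 : (512 * w + C' * (8 + 8 * LK d + 384 * d) + 24 * C' * s
          + 147456 * w + 1 + 513 * (6 * d + 21) * (1 + w)) * x ^ 4 * n
      = 512 * w * x ^ 4 * n + C' * (8 + 8 * LK d + 384 * d) * x ^ 4 * n + 24 * C' * s * x ^ 4 * n
        + 147456 * w * x ^ 4 * n + x ^ 4 * n + 513 * (6 * d + 21) * (1 + w) * x ^ 4 * n := by ring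
  rw [e2]
  linarith

end Pool.Agent.Lib_MP_71c74a_pr
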