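import Pool.Agent.Lib_MP_71c74a_pr.PartDefs

/-!
# The inequality for one generation of segments: definitions
-/

open MeasureTheory ProbabilityTheory Set
open scoped ENNReal NNReal Topology

namespace Pool.Agent.Lib_MP_71c74a_pr

variable {d : ℕ}

/-- Splitting a discretised average at the midpoint. -/
lemma lc_avgT_split {E V : Type*} [NormedAddCommGroup E] [InnerProductSpace ℝ E] [AddCommGroup V]
    [Module ℝ V] (F : E → V) {M : ℕ} (hM : 0 < M) (x y : E) :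
    lc F (avgT (2 * M) x y) = (1 / 2 : ℝ) • (lc F (avgT M x (midpoint ℝ x y))
      + lc F (avgT M (midpoint ℝ x y) y)) := by
  have hM' : (M : ℝ) ≠ 0 := by exact_mod_cast hM.ne'
  have hmid : midpoint ℝ x y = x + (1 / 2 : ℝ) • (y - x) := by
    rw [midpoint_eq_smul_add]
    simp only [invOf_eq_inv]
    module
  rw [lc_avgT, lc_avgT, lc_avgT, two_mul, Finset.sum_range_add, smul_add, smul_add, smul_smul,
    smul_smul]
  congr 1
  · have e : (1 : ℝ) / ((M + M : ℕ) : ℝ) = 1 / 2 * (1 / (M : ℝ)) := by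
      push_cast; field_simp; norm_num
    rw [e]
    congr 1
    refine Finset.sum_congr rfl fun i _ => ?_
    congr 1
    unfold segPt
    rw [hmid]
    have e2 : (i : ℝ) / ((M + M : ℕ) : ℝ) = (i : ℝ) / M * (1 / 2) := by
      push_cast; field_simp; norm_num
    rw [e2]
    module
  · have e : (1 : ℝ) / ((M + M : ℕ) : ℝ) = 1 / 2 * (1 / (M : ℝ)) := by
      push_cast; field_simp; norm_num
    rw [e]
    congr 1
    refine Finset.sum_congr rfl fun i _ => ?_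
    congr 1
    unfold segPt
    rw [hmid]
    have e2 : ((M + i : ℕ) : ℝ) / ((M + M : ℕ) : ℝ) = 1 / 2 + (i : ℝ) / M * (1 / 2) := by
      push_cast; field_simp; ring
    rw [e2]
    module

/-- Increment of the discretised averages when the segment from `p` to `q` is replaced by the
segments between `x₀`, `x₁`, `x₂` of the next generation. -/
noncomputable def Tinc (T : TP) (ψ : Eu d → ℝ) (p q x₀ x₁ x₂ : Lt d) : ℝ :=
  1 / 2 * (lc ψ (avgT T.M (emb (T.s / 2) x₀) (emb (T.s / 2) x₁))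
    + lc ψ (avgT T.M (emb (T.s / 2) x₁) (emb (T.s / 2) x₂)))
  - lc ψ (avgT (2 * T.M) (emb T.s p) (emb T.s q))

/-- Size of the displacement. -/
noncomputable def nuI (p q x₀ x₁ x₂ : Lt d) : ℝ :=
  ‖emb 1 (x₀ - (p + p))‖ + ‖emb 1 (x₁ - (p + q))‖ + ‖emb 1 (x₂ - (q + q))‖

lemma nuI_nonneg (p q x₀ x₁ x₂ : Lt d) : 0 ≤ nuI p q x₀ x₁ x₂ := by unfold nuI; positivity

/-- The segment and its replacement are local and not degenerate. -/
structure SegOK (T : TP) (p q x₀ x₁ x₂ : Lt d) : Prop where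
  len : T.l / 4 ≤ ‖emb T.s q - emb T.s p‖
  m0 : ‖emb T.s p - emb T.s q‖ ≤ 4 * T.l
  m1 : ‖emb (T.s / 2) x₀ - emb T.s q‖ ≤ 4 * T.l
  m2 : ‖emb (T.s / 2) x₁ - emb T.s q‖ ≤ 4 * T.l
  m3 : ‖emb (T.s / 2) x₂ - emb T.s q‖ ≤ 4 * T.l
  b1 : x₀ - (p + p) ∈ box d T.B
  b2 : x₁ - (p + q) ∈ box d T.B
  b3 : x₂ - (q + q) ∈ box d T.B

lemma log_one_add_le {t η : ℝ} (ht : 0 ≤ t) (hη : 0 < η) :
    Real.log (1 + t) ≤ η * t ^ 2 + 1 / (4 * η) := by
  have h1 := Real.log_le_sub_one_of_pos (by linarith : 0 < 1 + t)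
  have h2 : 0 ≤ η * (t - 1 / (2 * η)) ^ 2 := by positivity
  have h3 : η * (t - 1 / (2 * η)) ^ 2 = η * t ^ 2 - t + 1 / (4 * η) := by
    field_simp
    ring
  linarith

lemma neg_log_wtR_le' (n : Lt d) {ν η : ℝ} (h : ‖emb 1 n‖ ≤ ν) (hη : 0 < η) :
    -Real.log (wtR n) ≤ 2 * d * (η * ν ^ 2 + 1 / (4 * η)) := by
  have h0 : 0 ≤ ‖emb 1 n‖ := norm_nonneg _
  refine (neg_log_wtR_le n).trans ?_
  refine mul_le_mul_of_nonneg_left ?_ (by positivity)
  refine (Real.log_le_log (by linarith) (by linarith : 1 + ‖emb 1 n‖ ≤ 1 + ν)).trans ?_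
  exact log_one_add_le (h0.trans h) hη

/-- Value of a normalised test. -/
lemma abs_dfT_le {Cs l e : ℝ} {M : ℕ} {O x y x' y' : Eu d} (hCs : 0 < Cs) (hl : 0 < l) (he : 0 < e)
    (h0 : l / 8 ≤ ‖y - x‖) (h1 : ‖x - O‖ ≤ 4 * l) (h2 : ‖y - O‖ ≤ 4 * l) (h3 : ‖x' - O‖ ≤ 4 * l)
    (h4 : ‖y' - O‖ ≤ 4 * l) (ψ : Eu d → ℝ) {D : ℝ} (hD : max ‖x' - x‖ ‖y' - y‖ + e ≤ D) :
    |lc ψ (dfT M x y x' y')| ≤ Cs * D / √l * |lc ψ (nT Cs l e M O x y x' y')| := by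
  unfold nT
  rw [if_pos ⟨h0, h1, h2, h3, h4⟩]
  have hm : 0 ≤ max ‖x' - x‖ ‖y' - y‖ := le_max_of_le_left (norm_nonneg _)
  have hs : 0 < √l := Real.sqrt_pos.2 hl
  have hD0 : 0 < Cs * (max ‖x' - x‖ ‖y' - y‖ + e) / √l := by positivity
  simp only [lc, map_smul, smul_eq_mul]
  rw [abs_mul, abs_inv, abs_of_pos hD0]
  calc |Finsupp.linearCombination ℝ ψ (dfT M x y x' y')|
      = Cs * (max ‖x' - x‖ ‖y' - y‖ + e) / √l * ((Cs * (max ‖x' - x‖ ‖y' - y‖ + e) / √l)⁻¹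
        * |Finsupp.linearCombination ℝ ψ (dfT M x y x' y')|) := by
        rw [← mul_assoc, mul_inv_cancel₀ hD0.ne', one_mul]
    _ ≤ Cs * D / √l * ((Cs * (max ‖x' - x‖ ‖y' - y‖ + e) / √l)⁻¹
        * |Finsupp.linearCombination ℝ ψ (dfT M x y x' y')|) := by
        gcongr

lemma young_nu {v K ν : ℝ} (hK : 0 < K) : |v| * (1 + ν) ≤ K / 2 * v ^ 2 + (1 + ν ^ 2) / K := by
  have h1 : 0 ≤ K / 2 * (|v| - (1 + ν) / K) ^ 2 := by positivity
  have h2 : K / 2 * (|v| - (1 + ν) / K) ^ 2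
      = K / 2 * |v| ^ 2 - |v| * (1 + ν) + (1 + ν) ^ 2 / (2 * K) := by
    field_simp
    ring
  have h3 : (1 + ν) ^ 2 / (2 * K) ≤ (1 + ν ^ 2) / K := by
    rw [div_le_div_iff₀ (by positivity) hK]
    nlinarith [sq_nonneg (1 - ν)]
  rw [sq_abs] at h2
  linarith

end Pool.Agent.Lib_MP_71c74a_pr
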