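import Mathlib

/-!
# Steps at which the running maximum increases
-/

open Set
open scoped Topology

namespace Pool.Agent.Lib_MP_71c74a_pr

/-- Running maximum. -/
noncomputable def rmax (P : ℕ → ℝ) : ℕ → ℝ
  | 0 => P 0
  | a + 1 => max (rmax P a) (P (a + 1))

lemma le_rmax (P : ℕ → ℝ) (a : ℕ) : P a ≤ rmax P a := by
  cases a with
  | zero => exact le_rfl
  | succ a => exact le_max_right _ _

lemma rmax_le_succ (P : ℕ → ℝ) (a : ℕ) : rmax P a ≤ rmax P (a + 1) := le_max_left _ _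

lemma rmax_succ_sub_le {P : ℕ → ℝ} {a : ℕ} {L : ℝ} (hL : 0 ≤ L) (h : P (a + 1) - P a ≤ L) :
    rmax P (a + 1) - rmax P a ≤ L := by
  have h1 := le_rmax P a
  have h2 : rmax P (a + 1) = max (rmax P a) (P (a + 1)) := rfl
  rw [h2]
  rcases le_total (rmax P a) (P (a + 1)) with h3 | h3
  · rw [max_eq_right h3]; linarith
  · rw [max_eq_left h3]; linarith

open Classical in
/-- The good steps among the first `N`. -/
noncomputable def goodS (P : ℕ → ℝ) (h : ℝ) (N : ℕ) : Finset ℕ :=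
  (Finset.range N).filter fun a => h ≤ rmax P (a + 1) - rmax P a

lemma mem_goodS {P : ℕ → ℝ} {h : ℝ} {N a : ℕ} :
    a ∈ goodS P h N ↔ a < N ∧ h ≤ rmax P (a + 1) - rmax P a := by
  classical
  unfold goodS
  rw [Finset.mem_filter, Finset.mem_range]

lemma goodS_rmax {P : ℕ → ℝ} {h : ℝ} (hh : 0 < h) {N a : ℕ} (ha : a ∈ goodS P h N) :
    rmax P (a + 1) = P (a + 1) := by
  have h1 := (mem_goodS.1 ha).2
  have h2 : rmax P (a + 1) = max (rmax P a) (P (a + 1)) := rfl
  rcases le_total (rmax P a) (P (a + 1)) with h3 | h3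
  · rw [h2, max_eq_right h3]
  · rw [h2, max_eq_left h3] at h1; linarith

/-- A good step makes progress. -/
lemma goodS_step {P : ℕ → ℝ} {h : ℝ} (hh : 0 < h) {N a : ℕ} (ha : a ∈ goodS P h N) :
    h ≤ P (a + 1) - P a := by
  have h1 := (mem_goodS.1 ha).2
  rw [goodS_rmax hh ha] at h1
  have := le_rmax P a
  linarith

lemma sum_rmax (P : ℕ → ℝ) (a b : ℕ) (hab : a ≤ b) :
    ∑ c ∈ Finset.Ico a b, (rmax P (c + 1) - rmax P c) = rmax P b - rmax P a :=
  Finset.sum_Ico_sub (rmax P) hab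

/-- Few steps are bad. -/
lemma card_bad_le {P : ℕ → ℝ} {N : ℕ} (hN : 0 < N) {Λ ε : ℝ} (hΛ : 1 ≤ Λ)
    (hstep : ∀ a < N, P (a + 1) - P a ≤ Λ / N) (hend : 1 - ε ≤ P N - P 0) :
    ((Finset.range N \ goodS P (1 / (2 * N)) N).card : ℝ) ≤ 2 * N * (Λ - 1 + ε) := by
  classical
  have hN' : (0 : ℝ) < N := by exact_mod_cast hN
  set 𝒢 := goodS P (1 / (2 * N)) N with h𝒢
  set β : ℝ := ((Finset.range N \ 𝒢).card : ℝ) with hβ
  have hsub : 𝒢 ⊆ Finset.range N := by
    intro a ha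
    exact Finset.mem_range.2 (mem_goodS.1 ha).1
  have hcard : (𝒢.card : ℝ) = N - β := by
    have := Finset.card_sdiff_add_card_eq_card hsub
    rw [Finset.card_range] at this
    have h2 : ((Finset.range N \ 𝒢).card : ℝ) + 𝒢.card = N := by exact_mod_cast this
    rw [hβ]
    linarith
  have htel : rmax P N - rmax P 0 = ∑ a ∈ Finset.range N, (rmax P (a + 1) - rmax P a) := by
    rw [Finset.sum_range_sub]
  have hsplit : ∑ a ∈ Finset.range N, (rmax P (a + 1) - rmax P a)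
      = ∑ a ∈ Finset.range N \ 𝒢, (rmax P (a + 1) - rmax P a)
        + ∑ a ∈ 𝒢, (rmax P (a + 1) - rmax P a) := (Finset.sum_sdiff hsub).symm
  have hb : ∑ a ∈ Finset.range N \ 𝒢, (rmax P (a + 1) - rmax P a) ≤ β * (1 / (2 * N)) := by
    refine (Finset.sum_le_sum (g := fun _ => (1 / (2 * N) : ℝ)) fun a ha => ?_).trans ?_
    · rw [Finset.mem_sdiff, Finset.mem_range] at ha
      have h1 : ¬ (1 / (2 * N) ≤ rmax P (a + 1) - rmax P a) := fun h => ha.2 (mem_goodS.2 ⟨ha.1, h⟩)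
      exact (not_le.1 h1).le
    · rw [Finset.sum_const, nsmul_eq_mul]
  have hg : ∑ a ∈ 𝒢, (rmax P (a + 1) - rmax P a) ≤ (N - β) * (Λ / N) := by
    refine (Finset.sum_le_sum (g := fun _ => (Λ / N : ℝ)) fun a ha => ?_).trans ?_
    · exact rmax_succ_sub_le (by positivity) (hstep a (mem_goodS.1 ha).1)
    · rw [Finset.sum_const, nsmul_eq_mul, hcard]
  have h0 : rmax P 0 = P 0 := rfl
  have h1 := le_rmax P N
  have h2 : 1 - ε ≤ β * (1 / (2 * N)) + (N - β) * (Λ / N) := by linarith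
  have h3 : (1 - ε) * N ≤ β / 2 + (N - β) * Λ := by
    have := mul_le_mul_of_nonneg_right h2 hN'.le
    calc (1 - ε) * N ≤ (β * (1 / (2 * N)) + (N - β) * (Λ / N)) * N := this
      _ = β / 2 + (N - β) * Λ := by field_simp
  have hβ0 : 0 ≤ β := Nat.cast_nonneg _
  nlinarith

/-- Progress between good steps. -/
lemma goodS_sep {P : ℕ → ℝ} {h : ℝ} (hh : 0 < h) {N a a' : ℕ} (ha : a ∈ goodS P h N)
    (ha' : a' ∈ goodS P h N) (haa : a ≤ a') :
    ((goodS P h N ∩ Finset.Ico a a').card : ℝ) * h ≤ P (a' + 1) - P (a + 1) := by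
  classical
  rw [← goodS_rmax hh ha, ← goodS_rmax hh ha']
  have h1 := sum_rmax P (a + 1) (a' + 1) (by omega)
  rw [← h1]
  have h2 : (goodS P h N ∩ Finset.Ico a a').card ≤ (goodS P h N ∩ Finset.Ico (a + 1) (a' + 1)).card := by
    rcases eq_or_lt_of_le haa with hlt | hlt
    · subst hlt; simp
    · have e1 : goodS P h N ∩ Finset.Ico a a'
          = insert a (goodS P h N ∩ Finset.Ico (a + 1) a') := by
        ext b
        simp only [Finset.mem_inter, Finset.mem_Ico, Finset.mem_insert]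
        constructor
        · rintro ⟨h3, h4, h5⟩
          rcases eq_or_lt_of_le h4 with h6 | h6
          · left; exact h6.symm
          · right; exact ⟨h3, h6, h5⟩
        · rintro (h3 | ⟨h3, h4, h5⟩)
          · subst h3; exact ⟨ha, le_rfl, hlt⟩
          · exact ⟨h3, by omega, h5⟩
      have e2 : goodS P h N ∩ Finset.Ico (a + 1) (a' + 1)
          = insert a' (goodS P h N ∩ Finset.Ico (a + 1) a') := by
        ext b
        simp only [Finset.mem_inter, Finset.mem_Ico, Finset.mem_insert]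
        constructor
        · rintro ⟨h3, h4, h5⟩
          rcases eq_or_lt_of_le (Nat.lt_succ_iff.1 h5) with h6 | h6
          · left; exact h6
          · right; exact ⟨h3, h4, h6⟩
        · rintro (h3 | ⟨h3, h4, h5⟩)
          · subst h3; exact ⟨ha', by omega, by omega⟩
          · exact ⟨h3, h4, by omega⟩
      rw [e1, e2, Finset.card_insert_of_notMem (by simp),
        Finset.card_insert_of_notMem (by simp)]
  have h3 : ((goodS P h N ∩ Finset.Ico a a').card : ℝ) * h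
      ≤ ((goodS P h N ∩ Finset.Ico (a + 1) (a' + 1)).card : ℝ) * h := by
    gcongr
  refine h3.trans ?_
  calc ((goodS P h N ∩ Finset.Ico (a + 1) (a' + 1)).card : ℝ) * h
      = ∑ _c ∈ goodS P h N ∩ Finset.Ico (a + 1) (a' + 1), h := by
        rw [Finset.sum_const, nsmul_eq_mul]
    _ ≤ ∑ c ∈ goodS P h N ∩ Finset.Ico (a + 1) (a' + 1), (rmax P (c + 1) - rmax P c) :=
        Finset.sum_le_sum fun c hc => (mem_goodS.1 (Finset.mem_inter.1 hc).1).2
    _ ≤ ∑ c ∈ Finset.Ico (a + 1) (a' + 1), (rmax P (c + 1) - rmax P c) :=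
        Finset.sum_le_sum_of_subset_of_nonneg Finset.inter_subset_right fun c _ _ =>
          sub_nonneg.2 (rmax_le_succ P c)

/-- The rank of a step among the good steps. -/
noncomputable def rnk (P : ℕ → ℝ) (h : ℝ) (N a : ℕ) : ℕ := (goodS P h N ∩ Finset.Ico 0 a).card

/-- The good steps of a given rank modulo `Q`. -/
noncomputable def clsS (P : ℕ → ℝ) (h : ℝ) (N Q c : ℕ) : Finset ℕ :=
  (goodS P h N).filter fun a => rnk P h N a % Q = c

lemma sum_clsS (P : ℕ → ℝ) (h : ℝ) (N : ℕ) {Q : ℕ} (hQ : 0 < Q) (f : ℕ → ℝ) :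
    ∑ a ∈ goodS P h N, f a = ∑ c ∈ Finset.range Q, ∑ a ∈ clsS P h N Q c, f a := by
  unfold clsS
  exact (Finset.sum_fiberwise_of_maps_to (s := goodS P h N) (t := Finset.range Q)
    (g := fun a => rnk P h N a % Q) (fun a _ => Finset.mem_range.2 (Nat.mod_lt _ hQ)) f).symm

lemma clsS_sep {P : ℕ → ℝ} {h : ℝ} (hh : 0 < h) {N Q c a a' : ℕ}
    (ha : a ∈ clsS P h N Q c) (ha' : a' ∈ clsS P h N Q c) (haa : a < a') :
    (Q : ℝ) * h ≤ P (a' + 1) - P (a + 1) := by
  unfold clsS at ha ha'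
  rw [Finset.mem_filter] at ha ha'
  have h1 := goodS_sep hh ha.1 ha'.1 haa.le
  have h2 : rnk P h N a' = rnk P h N a + (goodS P h N ∩ Finset.Ico a a').card := by
    unfold rnk
    rw [← Finset.card_union_of_disjoint]
    · rw [← Finset.inter_union_distrib_left, Finset.Ico_union_Ico_eq_Ico (Nat.zero_le _) haa.le]
    · refine Finset.disjoint_left.2 fun b hb hb' => ?_
      have h3 := (Finset.mem_Ico.1 (Finset.mem_inter.1 hb).2).2
      have h4 := (Finset.mem_Ico.1 (Finset.mem_inter.1 hb').2).1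
      omega
  have h3 : 0 < (goodS P h N ∩ Finset.Ico a a').card :=
    Finset.card_pos.2 ⟨a, Finset.mem_inter.2 ⟨ha.1, Finset.mem_Ico.2 ⟨le_rfl, haa⟩⟩⟩
  have h4 : Q ≤ (goodS P h N ∩ Finset.Ico a a').card := by
    have h5 : (rnk P h N a + (goodS P h N ∩ Finset.Ico a a').card) % Q = rnk P h N a % Q := by
      rw [← h2, ha.2, ha'.2]
    have h6 : Q ∣ (goodS P h N ∩ Finset.Ico a a').card := by
      have h7 : rnk P h N a + (goodS P h N ∩ Finset.Ico a a').card
          ≡ rnk P h N a + 0 [MOD Q] := by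
        rw [add_zero]; exact h5
      have h8 := Nat.ModEq.add_left_cancel' _ h7
      exact (Nat.modEq_zero_iff_dvd).1 h8
    exact Nat.le_of_dvd h3 h6
  have h5 : (Q : ℝ) * h ≤ ((goodS P h N ∩ Finset.Ico a a').card : ℝ) * h := by
    have : (Q : ℝ) ≤ ((goodS P h N ∩ Finset.Ico a a').card : ℝ) := by exact_mod_cast h4
    gcongr
  exact h5.trans h1

end Pool.Agent.Lib_MP_71c74a_pr
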