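import Pool.Agent.Lib_MP_71c74a_pr.Energy
import Pool.Agent.Lib_MP_71c74a_pr.GenDefs
import Pool.Agent.Lib_MP_71c74a_pr.GoodSet

/-!
# Rounding the dyadic points of a curve
-/

open MeasureTheory ProbabilityTheory Set
open scoped ENNReal NNReal Topology

namespace Pool.Agent.Lib_MP_71c74a_pr

variable {d : ℕ}

/-- Rounded dyadic points. -/
noncomputable def pt (Z : ℝ → Eu d) (μ : ℝ) (g a : ℕ) : Lt d := rd μ (zg Z g a)

lemma norm_emb_pt {μ : ℝ} (hμ : 0 < μ) (Z : ℝ → Eu d) (g a : ℕ) :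
    ‖emb μ (pt Z μ g a) - zg Z g a‖ ≤ d * μ := norm_emb_rd hμ _

lemma norm_emb_one {μ : ℝ} (hμ : 0 < μ) (n : Lt d) : ‖emb 1 n‖ = ‖emb μ n‖ / μ := by
  rw [norm_emb μ, abs_of_pos hμ]
  field_simp

/-- Displacement of the rounded points from one generation to the next. -/
lemma nuI_pt_le {μ : ℝ} (hμ : 0 < μ) (Z : ℝ → Eu d) (g a : ℕ) :
    nuI (pt Z μ g a) (pt Z μ g (a + 1)) (pt Z (μ / 2) (g + 1) (2 * a))
      (pt Z (μ / 2) (g + 1) (2 * a + 1)) (pt Z (μ / 2) (g + 1) (2 * a + 2))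
      ≤ 9 * d + 2 * ‖dd Z g a‖ / μ := by
  have hμ2 : 0 < μ / 2 := by positivity
  have r1 := norm_emb_pt hμ Z g a
  have r2 := norm_emb_pt hμ Z g (a + 1)
  have r3 := norm_emb_pt hμ2 Z (g + 1) (2 * a)
  have r4 := norm_emb_pt hμ2 Z (g + 1) (2 * a + 1)
  have r5 := norm_emb_pt hμ2 Z (g + 1) (2 * a + 2)
  rw [zg_double] at r3
  have e5 : zg Z (g + 1) (2 * a + 2) = zg Z g (a + 1) := zg_double' Z g a
  rw [e5] at r5
  set P := pt Z μ g a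
  set Q := pt Z μ g (a + 1)
  set X₀ := pt Z (μ / 2) (g + 1) (2 * a)
  set X₁ := pt Z (μ / 2) (g + 1) (2 * a + 1)
  set X₂ := pt Z (μ / 2) (g + 1) (2 * a + 2)
  have b1 : ‖emb 1 (X₀ - (P + P))‖ ≤ 3 * d := by
    rw [norm_emb_one hμ2, emb_sub, emb_two, div_le_iff₀ hμ2]
    have e : emb (μ / 2) X₀ - emb μ P = (emb (μ / 2) X₀ - zg Z g a) - (emb μ P - zg Z g a) := by
      abel
    rw [e]
    refine (norm_sub_le _ _).trans ?_
    linarith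
  have b3 : ‖emb 1 (X₂ - (Q + Q))‖ ≤ 3 * d := by
    rw [norm_emb_one hμ2, emb_sub, emb_two, div_le_iff₀ hμ2]
    have e : emb (μ / 2) X₂ - emb μ Q
        = (emb (μ / 2) X₂ - zg Z g (a + 1)) - (emb μ Q - zg Z g (a + 1)) := by abel
    rw [e]
    refine (norm_sub_le _ _).trans ?_
    linarith
  have b2 : ‖emb 1 (X₁ - (P + Q))‖ ≤ 3 * d + 2 * ‖dd Z g a‖ / μ := by
    rw [norm_emb_one hμ2, emb_sub, emb_mid, div_le_iff₀ hμ2]
    have e : emb (μ / 2) X₁ - midpoint ℝ (emb μ P) (emb μ Q)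
        = (emb (μ / 2) X₁ - zg Z (g + 1) (2 * a + 1)) + dd Z g a
          - ((1 / 2 : ℝ) • (emb μ P - zg Z g a) + (1 / 2 : ℝ) • (emb μ Q - zg Z g (a + 1))) := by
      unfold dd
      rw [midpoint_eq_smul_add, midpoint_eq_smul_add]
      simp only [invOf_eq_inv]
      module
    rw [e]
    refine (norm_sub_le _ _).trans ?_
    have g1 := norm_add_le (emb (μ / 2) X₁ - zg Z (g + 1) (2 * a + 1)) (dd Z g a)
    have g2 := norm_add_le ((1 / 2 : ℝ) • (emb μ P - zg Z g a))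
      ((1 / 2 : ℝ) • (emb μ Q - zg Z g (a + 1)))
    rw [norm_smul, norm_smul, Real.norm_of_nonneg (by norm_num : (0 : ℝ) ≤ 1 / 2)] at g2
    have g3 : (3 * d + 2 * ‖dd Z g a‖ / μ) * (μ / 2) = 3 * d * (μ / 2) + ‖dd Z g a‖ := by
      field_simp
    rw [g3]
    linarith
  unfold nuI
  linarith

/-- Second differences of the rounded points. -/
lemma secD_pt_le {μ : ℝ} (hμ : 0 < μ) (Z : ℝ → Eu d) (g i : ℕ) :
    ‖emb 1 ((pt Z μ g (i + 1 + 1) - pt Z μ g (i + 1)) - (pt Z μ g (i + 1) - pt Z μ g i))‖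
      ≤ 4 * d + ‖D1 Z g (i + 1) - D1 Z g i‖ / μ := by
  have r0 := norm_emb_pt hμ Z g i
  have r1 := norm_emb_pt hμ Z g (i + 1)
  have r2 := norm_emb_pt hμ Z g (i + 1 + 1)
  rw [norm_emb_one hμ, emb_sub, emb_sub, emb_sub, div_le_iff₀ hμ, add_mul,
    div_mul_cancel₀ _ hμ.ne']
  have e : emb μ (pt Z μ g (i + 1 + 1)) - emb μ (pt Z μ g (i + 1))
      - (emb μ (pt Z μ g (i + 1)) - emb μ (pt Z μ g i))
      = ((emb μ (pt Z μ g (i + 1 + 1)) - zg Z g (i + 1 + 1))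
          - (emb μ (pt Z μ g (i + 1)) - zg Z g (i + 1)))
        + ((emb μ (pt Z μ g i) - zg Z g i) - (emb μ (pt Z μ g (i + 1)) - zg Z g (i + 1)))
        + (D1 Z g (i + 1) - D1 Z g i) := by
    unfold D1
    abel
  rw [e]
  refine (norm_add_le _ _).trans ?_
  have g1 := norm_add_le ((emb μ (pt Z μ g (i + 1 + 1)) - zg Z g (i + 1 + 1))
          - (emb μ (pt Z μ g (i + 1)) - zg Z g (i + 1)))
        ((emb μ (pt Z μ g i) - zg Z g i) - (emb μ (pt Z μ g (i + 1)) - zg Z g (i + 1)))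
  have g2 := norm_sub_le (emb μ (pt Z μ g (i + 1 + 1)) - zg Z g (i + 1 + 1))
          (emb μ (pt Z μ g (i + 1)) - zg Z g (i + 1))
  have g3 := norm_sub_le (emb μ (pt Z μ g i) - zg Z g i)
    (emb μ (pt Z μ g (i + 1)) - zg Z g (i + 1))
  linarith

/-- The mesh at generation `g`. -/
noncomputable def mesh (k₀ g : ℕ) : ℝ := 1 / 2 ^ (g + k₀)

lemma mesh_pos (k₀ g : ℕ) : 0 < mesh k₀ g := by unfold mesh; positivity

lemma mesh_half (k₀ g : ℕ) : mesh k₀ g / 2 = mesh k₀ (g + 1) := by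
  unfold mesh
  rw [show g + 1 + k₀ = g + k₀ + 1 by ring, pow_succ]
  field_simp

lemma mesh_inv_sq (k₀ g : ℕ) (t : ℝ) : (t / mesh k₀ g) ^ 2 = 2 ^ g * (4 ^ k₀ * (2 ^ g * t ^ 2)) := by
  have : t / mesh k₀ g = t * (2 ^ g * 2 ^ k₀) := by
    unfold mesh
    rw [div_div_eq_mul_div, div_one, pow_add]
  rw [this]
  have h4 : (4 : ℝ) ^ k₀ = 2 ^ k₀ * 2 ^ k₀ := by rw [← mul_pow]; norm_num
  rw [h4]
  ring

lemma sum_nuI_le (Z : ℝ → Eu d) (k₀ g : ℕ) :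
    ∑ a ∈ Finset.range (2 ^ g), nuI (pt Z (mesh k₀ g) g a) (pt Z (mesh k₀ g) g (a + 1))
      (pt Z (mesh k₀ (g + 1)) (g + 1) (2 * a)) (pt Z (mesh k₀ (g + 1)) (g + 1) (2 * a + 1))
      (pt Z (mesh k₀ (g + 1)) (g + 1) (2 * a + 2)) ^ 2
      ≤ ((2 ^ g : ℕ) : ℝ) * (8 * 4 ^ k₀ * eg Z g + 162 * d ^ 2) := by
  have h1 : ∀ a ∈ Finset.range (2 ^ g), nuI (pt Z (mesh k₀ g) g a) (pt Z (mesh k₀ g) g (a + 1))
      (pt Z (mesh k₀ (g + 1)) (g + 1) (2 * a)) (pt Z (mesh k₀ (g + 1)) (g + 1) (2 * a + 1))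
      (pt Z (mesh k₀ (g + 1)) (g + 1) (2 * a + 2)) ^ 2
      ≤ 162 * d ^ 2 + 8 * (2 ^ g * (4 ^ k₀ * (2 ^ g * ‖dd Z g a‖ ^ 2))) := by
    intro a _
    have h2 := nuI_pt_le (mesh_pos k₀ g) Z g a
    rw [mesh_half] at h2
    rw [← mesh_inv_sq]
    have h3 := nuI_nonneg (pt Z (mesh k₀ g) g a) (pt Z (mesh k₀ g) g (a + 1))
      (pt Z (mesh k₀ (g + 1)) (g + 1) (2 * a)) (pt Z (mesh k₀ (g + 1)) (g + 1) (2 * a + 1))
      (pt Z (mesh k₀ (g + 1)) (g + 1) (2 * a + 2))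
    have h4 : 2 * ‖dd Z g a‖ / mesh k₀ g = 2 * (‖dd Z g a‖ / mesh k₀ g) := by ring
    rw [h4] at h2
    have h5 : 0 ≤ ‖dd Z g a‖ / mesh k₀ g := div_nonneg (norm_nonneg _) (mesh_pos _ _).le
    have hd : (0 : ℝ) ≤ d := Nat.cast_nonneg d
    have h6 := pow_le_pow_left₀ h3 h2 2
    refine h6.trans ?_
    nlinarith [sq_nonneg (9 * (d : ℝ) - 2 * (‖dd Z g a‖ / mesh k₀ g))]
  refine (Finset.sum_le_sum h1).trans (le_of_eq ?_)
  rw [Finset.sum_add_distrib, Finset.sum_const, Finset.card_range, nsmul_eq_mul,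
    ← Finset.mul_sum, ← Finset.mul_sum, ← Finset.mul_sum, ← Finset.mul_sum]
  unfold eg
  push_cast
  ring

lemma sum_secD_le (Z : ℝ → Eu d) (k₀ g : ℕ) :
    ∑ i ∈ Finset.range (2 ^ g - 1), ‖emb 1 ((pt Z (mesh k₀ g) g (i + 1 + 1)
      - pt Z (mesh k₀ g) g (i + 1)) - (pt Z (mesh k₀ g) g (i + 1) - pt Z (mesh k₀ g) g i))‖ ^ 2
      ≤ ((2 ^ g : ℕ) : ℝ) * (2 * 4 ^ k₀ * Jg Z g + 32 * d ^ 2) := by
  have h1 : ∀ i ∈ Finset.range (2 ^ g - 1), ‖emb 1 ((pt Z (mesh k₀ g) g (i + 1 + 1)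
      - pt Z (mesh k₀ g) g (i + 1)) - (pt Z (mesh k₀ g) g (i + 1) - pt Z (mesh k₀ g) g i))‖ ^ 2
      ≤ 32 * d ^ 2 + 2 * (2 ^ g * (4 ^ k₀ * (2 ^ g * ‖D1 Z g (i + 1) - D1 Z g i‖ ^ 2))) := by
    intro i _
    have h2 := secD_pt_le (mesh_pos k₀ g) Z g i
    rw [← mesh_inv_sq]
    have h5 : 0 ≤ ‖D1 Z g (i + 1) - D1 Z g i‖ / mesh k₀ g :=
      div_nonneg (norm_nonneg _) (mesh_pos _ _).le
    have h6 := pow_le_pow_left₀ (norm_nonneg _) h2 2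
    refine h6.trans ?_
    nlinarith [sq_nonneg (4 * (d : ℝ) - (‖D1 Z g (i + 1) - D1 Z g i‖ / mesh k₀ g))]
  refine (Finset.sum_le_sum h1).trans ?_
  rw [Finset.sum_add_distrib, Finset.sum_const, Finset.card_range, nsmul_eq_mul,
    ← Finset.mul_sum, ← Finset.mul_sum, ← Finset.mul_sum, ← Finset.mul_sum]
  unfold Jg
  have h7 : ((2 ^ g - 1 : ℕ) : ℝ) ≤ ((2 ^ g : ℕ) : ℝ) := by exact_mod_cast Nat.sub_le _ _
  have h8 : ((2 ^ g - 1 : ℕ) : ℝ) * (32 * d ^ 2) ≤ ((2 ^ g : ℕ) : ℝ) * (32 * d ^ 2) := by gcongr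
  push_cast at h8 ⊢
  linarith

/-- The block: a curve with Lipschitz constant `Λ` from `Z 0` to the neighbourhood of a point at
distance one. -/
structure Blk (Z : ℝ → Eu d) (Λ : ℝ) (y : Eu d) (k : ℕ) : Prop where
  lip : LipOn Z Λ 0 1
  Λ1 : 1 ≤ Λ
  Λ2 : Λ ≤ 2
  bd : ∀ τ ∈ Icc (0 : ℝ) 1, ‖Z τ‖ ≤ 4
  dist : ‖y - Z 0‖ = 1
  close : ‖Z 1 - y‖ ≤ 1 / 2 ^ k

lemma Blk.zg_bd {Z : ℝ → Eu d} {Λ : ℝ} {y : Eu d} {k : ℕ} (h : Blk Z Λ y k) {g a : ℕ}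
    (ha : a ≤ 2 ^ g) : ‖zg Z g a‖ ≤ 4 := h.bd _ (dy_mem ha)

/-- The progress function. -/
noncomputable def prg (Z : ℝ → Eu d) (y : Eu d) (g a : ℕ) : ℝ :=
  inner ℝ (zg Z g a) (y - Z 0)

/-- The good segments. -/
noncomputable def gd (Z : ℝ → Eu d) (y : Eu d) (g : ℕ) : Finset ℕ :=
  goodS (prg Z y g) (1 / (2 * ((2 ^ g : ℕ) : ℝ))) (2 ^ g)

lemma gd_subset (Z : ℝ → Eu d) (y : Eu d) (g : ℕ) : gd Z y g ⊆ Finset.range (2 ^ g) := fun _ ha =>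
  Finset.mem_range.2 (mem_goodS.1 ha).1

lemma Blk.prg_sub_le {Z : ℝ → Eu d} {Λ : ℝ} {y : Eu d} {k : ℕ} (h : Blk Z Λ y k) (g a b : ℕ) :
    prg Z y g b - prg Z y g a ≤ ‖zg Z g b - zg Z g a‖ := by
  unfold prg
  rw [← inner_sub_left]
  refine (real_inner_le_norm _ _).trans ?_
  rw [h.dist, mul_one]

/-- Few segments are bad. -/
lemma Blk.card_bad {Z : ℝ → Eu d} {Λ : ℝ} {y : Eu d} {k : ℕ} (h : Blk Z Λ y k) (g : ℕ) :
    ((Finset.range (2 ^ g) \ gd Z y g).card : ℝ) ≤ 2 * 2 ^ g * (Λ - 1 + 1 / 2 ^ k) := by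
  have h1 := card_bad_le (P := prg Z y g) (N := 2 ^ g) (by positivity) (ε := 1 / 2 ^ k) h.Λ1
    (fun a ha => by
      refine (h.prg_sub_le g a (a + 1)).trans ?_
      push_cast
      exact norm_D1_le h.lip ha) (by
      unfold prg
      rw [← inner_sub_left]
      have e : zg Z g (2 ^ g) - zg Z g 0 = (y - Z 0) + (Z 1 - y) := by
        unfold zg
        push_cast
        rw [div_self (by positivity), zero_div]
        abel
      rw [e, inner_add_left, real_inner_self_eq_norm_sq, h.dist]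
      have h2 := neg_le_of_abs_le (abs_real_inner_le_norm (Z 1 - y) (y - Z 0))
      rw [h.dist, mul_one] at h2
      have := h.close
      linarith)
  refine h1.trans (le_of_eq ?_)
  push_cast
  ring

lemma Blk.D1_ge {Z : ℝ → Eu d} {Λ : ℝ} {y : Eu d} {k : ℕ} (h : Blk Z Λ y k) {g a : ℕ}
    (ha : a ∈ gd Z y g) : 1 / (2 * 2 ^ g) ≤ ‖D1 Z g a‖ := by
  have h1 := goodS_step (by positivity) ha
  have h2 := h.prg_sub_le g a (a + 1)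
  push_cast at h1
  unfold D1
  linarith

/-- The parameters of the tests for the field `J` at generation `g`. -/
noncomputable def mkT (R₀ C : ℝ) (k k₀ J g : ℕ) : TP where
  Cs := 64 * (R₀ + 1) * C
  ε := ferE / 4
  l := 2 ^ J / 2 ^ g
  s := 2 ^ J * mesh k₀ g
  sf := 2 ^ J * (1 / 2 ^ (3 * k))
  M := 2 ^ (J + k₀ + 3 - g)
  B := 2 ^ (4 * k)

lemma mkT_adm {R₀ C : ℝ} {k k₀ J g : ℕ} (hg : g ≤ J) : (mkT R₀ C k k₀ J g).Adm R₀ C where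
  eCs := rfl
  eε := rfl
  l1 := by
    show (1 : ℝ) ≤ 2 ^ J / 2 ^ g
    rw [le_div_iff₀ (by positivity), one_mul]
    exact pow_le_pow_right₀ (by norm_num) hg
  s0 := mul_pos (by positivity) (mesh_pos _ _)
  lM := by
    show (8 : ℝ) * (2 ^ J / 2 ^ g) ≤ ((2 ^ (J + k₀ + 3 - g) : ℕ) : ℝ)
    push_cast
    have h1 : (2 : ℝ) ^ J = 2 ^ (J - g) * 2 ^ g := by rw [← pow_add]; congr 1; omega
    rw [h1, mul_div_assoc, div_self (by positivity), mul_one]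
    have h2 : J + k₀ + 3 - g = 3 + ((J - g) + k₀) := by omega
    rw [h2, pow_add, pow_add]
    have h3 : (1 : ℝ) ≤ 2 ^ k₀ := one_le_pow₀ (by norm_num)
    have h4 : (0 : ℝ) < 2 ^ (J - g) := by positivity
    nlinarith

lemma two_pow_half (J g : ℕ) (c : ℝ) : c * (2 ^ J / 2 ^ g : ℝ) = 2 ^ J * (c / 2 ^ g) := by ring

lemma mem_box_of_le {k : ℕ} {n : Lt d} (h : ‖emb 1 n‖ ≤ 4 * ((4 + d) * 2 ^ (3 * k)))
    (hkd : 9 * (d : ℝ) + 16 ≤ 2 ^ k) : n ∈ box d (2 ^ (4 * k)) := by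
  apply mem_box
  refine h.trans ?_
  push_cast
  have hd0 : (0 : ℝ) ≤ d := Nat.cast_nonneg d
  calc 4 * ((4 + (d : ℝ)) * 2 ^ (3 * k)) = (16 + 4 * d) * 2 ^ (3 * k) := by ring
    _ ≤ 2 ^ k * 2 ^ (3 * k) := by
        gcongr
        linarith
    _ = 2 ^ (4 * k) := by rw [← pow_add]; congr 1; ring

end Pool.Agent.Lib_MP_71c74a_pr
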