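import Pool.Agent.Lib_MP_71c74a_pr.LogPart
import Pool.Agent.Lib_MP_71c74a_pr.RoundA

/-!
# The sharp estimate for one field in one block: tools
-/

open MeasureTheory ProbabilityTheory Set
open scoped ENNReal NNReal Topology

namespace Pool.Agent.Lib_MP_71c74a_pr

variable {d : ℕ}

/-- `√(1/2)`. -/
noncomputable def vs : ℝ := √(1 / 2)

lemma vs_pos : 0 < vs := by unfold vs; positivity

lemma vs_sq : vs ^ 2 = 1 / 2 := by unfold vs; rw [Real.sq_sqrt (by norm_num)]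

lemma vs_le : vs ≤ 3 / 4 := by
  unfold vs
  rw [Real.sqrt_le_left (by norm_num)]
  norm_num

lemma sqrt_two_pow (n : ℕ) : √(2 ^ n : ℝ) = vs⁻¹ ^ n := by
  have h : (2 : ℝ) ^ n = (vs⁻¹ ^ n) ^ 2 := by
    rw [← pow_mul, mul_comm, pow_mul, inv_pow, vs_sq]
    norm_num
  rw [h, Real.sqrt_sq (by have := vs_pos; positivity)]

/-- The scaling of the tests at generation `g`. -/
lemma mkT_scale {R₀ C : ℝ} {k k₀ J g : ℕ} (hg : g ≤ J) (hg2 : J ≤ g + k₀) :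
    (mkT R₀ C k k₀ J g).s / √(mkT R₀ C k k₀ J g).l = vs ^ k₀ * vs ^ (g + k₀ - J) := by
  have hv := vs_pos
  have el : (mkT R₀ C k k₀ J g).l = 2 ^ (J - g) := by
    show (2 : ℝ) ^ J / 2 ^ g = _
    rw [div_eq_iff (by positivity), ← pow_add]
    congr 1; omega
  have es : (mkT R₀ C k k₀ J g).s = (1 / 2) ^ (g + k₀ - J) := by
    show (2 : ℝ) ^ J * mesh k₀ g = _
    unfold mesh
    have : (2 : ℝ) ^ (g + k₀) = 2 ^ J * 2 ^ (g + k₀ - J) := by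
      rw [← pow_add]; congr 1; omega
    rw [this, one_div_pow]
    field_simp
  rw [el, es, sqrt_two_pow, ← vs_sq, ← pow_mul]
  rw [inv_pow, div_inv_eq_mul, ← pow_add, ← pow_add]
  congr 1
  omega

/-- The polygonal average at generation `g` along rounded points. -/
noncomputable def Ag (T : TP) (ψ : Eu d → ℝ) (p : ℕ → Lt d) (g : ℕ) : ℝ :=
  (∑ a ∈ Finset.range (2 ^ g), lc ψ (avgT (2 * T.M) (emb T.s (p a)) (emb T.s (p (a + 1)))))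
    / 2 ^ g

/-- Increment from one generation to the next. -/
lemma Ag_succ_sub (R₀ C : ℝ) (k k₀ J : ℕ) (ψ : Eu d → ℝ) (Z : ℝ → Eu d) {g : ℕ} (hg : g < J) :
    Ag (mkT R₀ C k k₀ J (g + 1)) ψ (pt Z (mesh k₀ (g + 1)) (g + 1)) (g + 1)
      - Ag (mkT R₀ C k k₀ J g) ψ (pt Z (mesh k₀ g) g) g
      = (∑ a ∈ Finset.range (2 ^ g), Tinc (mkT R₀ C k k₀ J g) ψ (pt Z (mesh k₀ g) g a)
        (pt Z (mesh k₀ g) g (a + 1)) (pt Z (mesh k₀ (g + 1)) (g + 1) (2 * a))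
        (pt Z (mesh k₀ (g + 1)) (g + 1) (2 * a + 1))
        (pt Z (mesh k₀ (g + 1)) (g + 1) (2 * a + 2))) / 2 ^ g := by
  have eM : 2 * (mkT R₀ C k k₀ J (g + 1)).M = (mkT R₀ C k k₀ J g).M := by
    show 2 * 2 ^ (J + k₀ + 3 - (g + 1)) = 2 ^ (J + k₀ + 3 - g)
    rw [← pow_succ']
    congr 1; omega
  have es : (mkT R₀ C k k₀ J (g + 1)).s = (mkT R₀ C k k₀ J g).s / 2 := by
    show (2 : ℝ) ^ J * mesh k₀ (g + 1) = 2 ^ J * mesh k₀ g / 2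
    rw [← mesh_half]; ring
  unfold Ag Tinc
  rw [eM, es, pow_succ' 2 g, sum_range_double, pow_succ' (2 : ℝ) g, Finset.sum_sub_distrib,
    ← Finset.mul_sum]
  have hz : (2 : ℝ) ^ g ≠ 0 := by positivity
  rw [sub_div, div_mul_eq_div_div]
  congr 1
  congr 1
  rw [one_div_mul_eq_div]

/-- Crude control of a field in a ball. -/
structure Ctl (ψ : Eu d → ℝ) (Y ρ : ℝ) : Prop where
  cont : Continuous ψ
  Y0 : 0 ≤ Y
  bdd : ∀ p, ‖p‖ ≤ ρ → |ψ p| ≤ Y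
  lip : ∀ p q, ‖p‖ ≤ ρ → ‖q‖ ≤ ρ → ‖p - q‖ ≤ 1 → |ψ p - ψ q| ≤ Y * ‖p - q‖

lemma segPt_mem {M i : ℕ} (hi : i < M) {x y : Eu d} {ρ : ℝ} (hx : ‖x‖ ≤ ρ) (hy : ‖y‖ ≤ ρ) :
    ‖segPt M x y i‖ ≤ ρ := by
  have hM' : (0 : ℝ) < M := by exact_mod_cast (by omega : 0 < M)
  exact seg_mem hx hy ⟨by positivity, by rw [div_le_one hM']; exact_mod_cast hi.le⟩

lemma Ctl.abs_avgT {ψ : Eu d → ℝ} {Y ρ : ℝ} (h : Ctl ψ Y ρ) (M : ℕ) {x y : Eu d} (hx : ‖x‖ ≤ ρ)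
    (hy : ‖y‖ ≤ ρ) : |lc ψ (avgT M x y)| ≤ Y := by
  have hY := h.Y0
  rcases Nat.eq_zero_or_pos M with h0 | hM
  · subst h0; rw [lc_avgT]; simpa using hY
  have hM' : (0 : ℝ) < M := by exact_mod_cast hM
  rw [lc_avgT, smul_eq_mul, abs_mul, abs_of_pos (by positivity)]
  calc 1 / (M : ℝ) * |∑ i ∈ Finset.range M, ψ (segPt M x y i)|
      ≤ 1 / (M : ℝ) * ∑ i ∈ Finset.range M, |ψ (segPt M x y i)| := by
        gcongr; exact Finset.abs_sum_le_sum_abs _ _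
    _ ≤ 1 / (M : ℝ) * ∑ _i ∈ Finset.range M, Y := by
        gcongr with i hi
        exact h.bdd _ (segPt_mem (Finset.mem_range.1 hi) hx hy)
    _ = Y := by rw [Finset.sum_const, Finset.card_range, nsmul_eq_mul]; field_simp

lemma Ctl.riem {ψ : Eu d → ℝ} {Y ρ : ℝ} (h : Ctl ψ Y ρ) {M : ℕ} (hM : 0 < M) {x y : Eu d}
    (hx : ‖x‖ ≤ ρ) (hy : ‖y‖ ≤ ρ) (hxy : ‖y - x‖ ≤ M) :
    |segAvg ψ x y - lc ψ (avgT M x y)| ≤ Y * (‖y - x‖ / M) := by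
  have hY := h.Y0
  have hM' : (0 : ℝ) < M := by exact_mod_cast hM
  refine riem_error h.cont hM fun θ hθ θ' hθ' hd => ?_
  have e : (x + θ • (y - x)) - (x + θ' • (y - x)) = (θ - θ') • (y - x) := by module
  have h2 : ‖(x + θ • (y - x)) - (x + θ' • (y - x))‖ ≤ ‖y - x‖ / M := by
    rw [e, norm_smul, Real.norm_eq_abs]
    calc |θ - θ'| * ‖y - x‖ ≤ 1 / M * ‖y - x‖ := by gcongr
      _ = _ := by ring
  refine (h.lip _ _ (seg_mem hx hy hθ) (seg_mem hx hy hθ') (h2.trans ?_)).trans ?_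
  · rw [div_le_one hM']; exact hxy
  · exact mul_le_mul_of_nonneg_left h2 hY

lemma Ctl.avg_sub {ψ : Eu d → ℝ} {Y ρ η : ℝ} (h : Ctl ψ Y ρ) (hη : η ≤ 1) {x y x' y' : Eu d}
    (hx : ‖x‖ ≤ ρ) (hy : ‖y‖ ≤ ρ) (hx' : ‖x'‖ ≤ ρ) (hy' : ‖y'‖ ≤ ρ) (hxx : ‖x' - x‖ ≤ η)
    (hyy : ‖y' - y‖ ≤ η) : |segAvg ψ x' y' - segAvg ψ x y| ≤ Y * η := by
  refine abs_segAvg_sub_le h.cont fun θ hθ => ?_
  have h1 := seg_near hxx hyy hθ
  exact (h.lip _ _ (seg_mem hx' hy' hθ) (seg_mem hx hy hθ) (h1.trans hη)).trans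
    (mul_le_mul_of_nonneg_left h1 h.Y0)

/-- Requirements on the scales. -/
structure Scl (d k k₀ J : ℕ) (ρ : ℝ) : Prop where
  k0 : 8 * (d : ℝ) ≤ 2 ^ k₀
  kd : 9 * (d : ℝ) + 16 ≤ 2 ^ k
  kk : 4 * k₀ ≤ k
  J1 : 0 < J
  J2 : J ≤ k + k₀
  k1 : 0 < k₀
  rho : 5 * 2 ^ J ≤ ρ

lemma Scl.mesh_le {k k₀ J : ℕ} {ρ : ℝ} (h : Scl d k k₀ J ρ) (g : ℕ) :
    d * mesh k₀ g ≤ 1 / 8 / 2 ^ g := by
  have := h.k0
  unfold mesh
  rw [pow_add, div_div, mul_one_div, div_le_div_iff₀ (by positivity) (by positivity)]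
  calc (d : ℝ) * (8 * 2 ^ g) = 8 * d * 2 ^ g := by ring
    _ ≤ 2 ^ k₀ * 2 ^ g := by gcongr
    _ = 1 * (2 ^ g * 2 ^ k₀) := by ring

lemma norm_two_smul_sub (J : ℕ) (p q : Eu d) :
    ‖(2 ^ J : ℝ) • p - (2 ^ J : ℝ) • q‖ = 2 ^ J * ‖p - q‖ := by
  rw [← smul_sub, norm_smul, Real.norm_of_nonneg (by positivity)]

/-- The rounded points, in the units of the field, are in the ball. -/
lemma Blk.pt_ball {Z : ℝ → Eu d} {Λ : ℝ} {y : Eu d} {k k₀ J : ℕ} {ρ : ℝ} (h : Blk Z Λ y k)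
    (hs : Scl d k k₀ J ρ) {g a : ℕ} (ha : a ≤ 2 ^ g) :
    ‖emb (2 ^ J * mesh k₀ g) (pt Z (mesh k₀ g) g a)‖ ≤ ρ := by
  refine le_trans ?_ hs.rho
  rw [emb_smul, norm_smul, Real.norm_of_nonneg (by positivity), mul_comm]
  apply mul_le_mul_of_nonneg_right _ (by positivity)
  have r1 := norm_emb_pt (mesh_pos k₀ g) Z g a
  have q1 := h.zg_bd ha
  have e : emb (mesh k₀ g) (pt Z (mesh k₀ g) g a)
      = (emb (mesh k₀ g) (pt Z (mesh k₀ g) g a) - zg Z g a) + zg Z g a := by abel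
  rw [e]
  refine (norm_add_le _ _).trans ?_
  have h2 := hs.mesh_le g
  have h3 : (1 : ℝ) / 8 / 2 ^ g ≤ 1 := by
    rw [div_div, div_le_one (by positivity)]
    have : (1 : ℝ) ≤ 2 ^ g := one_le_pow₀ (by norm_num)
    linarith
  linarith

/-- Logarithm of the functional of the field `J` at generation `g`. -/
noncomputable def LZ (R₀ C : ℝ) (k k₀ J : ℕ) (ψ : Eu d → ℝ) (g : ℕ) : ℝ :=
  lZ (mkT R₀ C k k₀ J g) R₀ (2 ^ g) ψ

lemma LZ_nonneg (R₀ C : ℝ) (k k₀ J : ℕ) (ψ : Eu d → ℝ) (g : ℕ) : 0 ≤ LZ R₀ C k k₀ J ψ g :=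
  lZ_nonneg _ _ _ _

/-- The reference value of the average over the block for the field `J`. -/
noncomputable def refv (k₀ J : ℕ) (ψ : Eu d → ℝ) (x y : Eu d) : ℝ :=
  if J ≤ k₀ then segAvg ψ x y else 0

end Pool.Agent.Lib_MP_71c74a_pr
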