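import Pool.Agent.Lib_MP_71c74a_pr.GenDefs
import Pool.Agent.Lib_MP_71c74a_pr.LogPart

/-!
# The inequality for one generation of segments
-/

open MeasureTheory ProbabilityTheory Set
open scoped ENNReal NNReal Topology

namespace Pool.Agent.Lib_MP_71c74a_pr

variable {d : ℕ}

/-- Bound for the increment on a good segment. -/
lemma abs_Tinc_le {T : TP} {R₀ C : ℝ} (hT : T.Adm R₀ C) (hR : 0 < R₀) (hC : 0 < C)
    (ψ : Eu d → ℝ) {p q x₀ x₁ x₂ : Lt d} (h : SegOK T p q x₀ x₁ x₂) {K η : ℝ} (hK : 0 < K)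
    (hη : 0 < η) :
    |Tinc T ψ p q x₀ x₁ x₂| ≤ T.Cs * T.s / (2 * √T.l) *
      (K / (2 * T.ε) * (lF T ψ p q + 4 * d * (η * nuI p q x₀ x₁ x₂ ^ 2 + 1 / (4 * η)))
        + (1 + nuI p q x₀ x₁ x₂ ^ 2) / K) := by
  have hs := hT.s0
  have hl : 0 < T.l := by linarith [hT.l1]
  have hsl : 0 < √T.l := Real.sqrt_pos.2 hl
  have hCs : 0 < T.Cs := by rw [hT.eCs]; positivity
  have hε : 0 < T.ε := by rw [hT.eε]; have := ferE_pos; positivity
  have hM : 0 < T.M := by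
    have : (0 : ℝ) < T.M := by linarith [hT.lM]
    exact_mod_cast this
  set ν := nuI p q x₀ x₁ x₂ with hν
  have hν0 : 0 ≤ ν := nuI_nonneg _ _ _ _ _
  have a1 : 0 ≤ ‖emb 1 (x₀ - (p + p))‖ := norm_nonneg _
  have a2 : 0 ≤ ‖emb 1 (x₁ - (p + q))‖ := norm_nonneg _
  have a3 : 0 ≤ ‖emb 1 (x₂ - (q + q))‖ := norm_nonneg _
  -- the midpoint
  have hmid : midpoint ℝ (emb T.s p) (emb T.s q) = emb (T.s / 2) (p + q) := (emb_mid _ _ _).symm
  have hpp : emb (T.s / 2) (p + p) = emb T.s p := emb_two _ _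
  have hqq : emb (T.s / 2) (q + q) = emb T.s q := emb_two _ _
  have e1 : Tinc T ψ p q x₀ x₁ x₂
      = 1 / 2 * (lc ψ (dfT T.M (emb T.s p) (emb (T.s / 2) (p + q)) (emb (T.s / 2) x₀)
          (emb (T.s / 2) x₁))
        + lc ψ (dfT T.M (emb (T.s / 2) (p + q)) (emb T.s q) (emb (T.s / 2) x₁)
          (emb (T.s / 2) x₂))) := by
    unfold Tinc
    rw [lc_avgT_split ψ hM, hmid, smul_eq_mul]
    simp only [lc, dfT, map_sub]
    ring
  -- displacements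
  have hs2 : (0 : ℝ) < T.s / 2 := by positivity
  have d1 : ‖emb (T.s / 2) x₀ - emb T.s p‖ ≤ T.s / 2 * ν := by
    rw [← hpp, ← emb_sub, norm_emb, abs_of_pos hs2]
    gcongr
    rw [hν]; unfold nuI; linarith
  have d2 : ‖emb (T.s / 2) x₁ - emb (T.s / 2) (p + q)‖ ≤ T.s / 2 * ν := by
    rw [← emb_sub, norm_emb, abs_of_pos hs2]
    gcongr
    rw [hν]; unfold nuI; linarith
  have d3 : ‖emb (T.s / 2) x₂ - emb T.s q‖ ≤ T.s / 2 * ν := by
    rw [← hqq, ← emb_sub, norm_emb, abs_of_pos hs2]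
    gcongr
    rw [hν]; unfold nuI; linarith
  -- lengths of the halves
  have l1 : T.l / 8 ≤ ‖emb (T.s / 2) (p + q) - emb T.s p‖ := by
    rw [← hmid, midpoint_sub_left, norm_smul]
    simp only [invOf_eq_inv, norm_inv, Real.norm_ofNat]
    have := h.len
    linarith
  have l2 : T.l / 8 ≤ ‖emb T.s q - emb (T.s / 2) (p + q)‖ := by
    rw [← hmid, norm_sub_rev, midpoint_sub_right, norm_smul, norm_sub_rev]
    simp only [invOf_eq_inv, norm_inv, Real.norm_ofNat]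
    have := h.len
    linarith
  have m4 : ‖emb (T.s / 2) (p + q) - emb T.s q‖ ≤ 4 * T.l := by
    rw [← hmid, midpoint_sub_right, norm_smul]
    simp only [invOf_eq_inv, norm_inv, Real.norm_ofNat]
    have := h.m0
    have : 0 ≤ ‖emb T.s p - emb T.s q‖ := norm_nonneg _
    linarith
  have m5 : ‖emb T.s q - emb T.s q‖ ≤ 4 * T.l := by rw [sub_self, norm_zero]; positivity
  -- the values of the tests
  set v₁ := lc ψ (tst T p q (some (true, x₀ - (p + p), x₁ - (p + q)))) with hv₁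
  set v₂ := lc ψ (tst T p q (some (false, x₁ - (p + q), x₂ - (q + q)))) with hv₂
  have t1 : tst T p q (some (true, x₀ - (p + p), x₁ - (p + q)))
      = nT T.Cs T.l (T.s / 2) T.M (emb T.s q) (emb T.s p) (emb (T.s / 2) (p + q))
        (emb (T.s / 2) x₀) (emb (T.s / 2) x₁) := by
    simp only [tst, add_sub_cancel]
  have t2 : tst T p q (some (false, x₁ - (p + q), x₂ - (q + q)))
      = nT T.Cs T.l (T.s / 2) T.M (emb T.s q) (emb (T.s / 2) (p + q)) (emb T.s q)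
        (emb (T.s / 2) x₁) (emb (T.s / 2) x₂) := by
    simp only [tst, add_sub_cancel]
  have w1 : |lc ψ (dfT T.M (emb T.s p) (emb (T.s / 2) (p + q)) (emb (T.s / 2) x₀)
      (emb (T.s / 2) x₁))| ≤ T.Cs * (T.s / 2 * (1 + ν)) / √T.l * |v₁| := by
    rw [hv₁, t1]
    refine abs_dfT_le hCs hl hs2 l1 h.m0 m4 h.m1 h.m2 ψ ?_
    have := max_le d1 d2
    linarith
  have w2 : |lc ψ (dfT T.M (emb (T.s / 2) (p + q)) (emb T.s q) (emb (T.s / 2) x₁)
      (emb (T.s / 2) x₂))| ≤ T.Cs * (T.s / 2 * (1 + ν)) / √T.l * |v₂| := by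
    rw [hv₂, t2]
    refine abs_dfT_le hCs hl hs2 l2 m4 m5 h.m2 h.m3 ψ ?_
    have := max_le d2 d3
    linarith
  have hv1 : T.ε * v₁ ^ 2 ≤ lF T ψ p q + 4 * d * (η * ν ^ 2 + 1 / (4 * η)) := by
    have g0 := true_le_lF T ψ p q h.b1 h.b2
    have g1 := neg_log_wtR_le' (x₀ - (p + p)) (ν := ν) (by rw [hν]; unfold nuI; linarith) hη
    have g2 := neg_log_wtR_le' (x₁ - (p + q)) (ν := ν) (by rw [hν]; unfold nuI; linarith) hη
    rw [← hv₁] at g0
    linarith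
  have hv2 : T.ε * v₂ ^ 2 ≤ lF T ψ p q + 4 * d * (η * ν ^ 2 + 1 / (4 * η)) := by
    have g0 := false_le_lF T ψ p q h.b2 h.b3
    have g1 := neg_log_wtR_le' (x₁ - (p + q)) (ν := ν) (by rw [hν]; unfold nuI; linarith) hη
    have g2 := neg_log_wtR_le' (x₂ - (q + q)) (ν := ν) (by rw [hν]; unfold nuI; linarith) hη
    rw [← hv₂] at g0
    linarith
  set X := lF T ψ p q + 4 * d * (η * ν ^ 2 + 1 / (4 * η)) with hX
  have y1 := young_nu (v := v₁) (ν := ν) hK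
  have y2 := young_nu (v := v₂) (ν := ν) hK
  have z1 : K / 2 * v₁ ^ 2 ≤ K / (2 * T.ε) * X := by
    have : v₁ ^ 2 ≤ X / T.ε := by rw [le_div_iff₀ hε]; linarith
    calc K / 2 * v₁ ^ 2 ≤ K / 2 * (X / T.ε) := by gcongr
      _ = _ := by ring
  have z2 : K / 2 * v₂ ^ 2 ≤ K / (2 * T.ε) * X := by
    have : v₂ ^ 2 ≤ X / T.ε := by rw [le_div_iff₀ hε]; linarith
    calc K / 2 * v₂ ^ 2 ≤ K / 2 * (X / T.ε) := by gcongr
      _ = _ := by ring
  rw [e1, abs_mul, abs_of_pos (by norm_num : (0 : ℝ) < 1 / 2)]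
  have hW : 0 < T.Cs * T.s / (2 * √T.l) := by positivity
  calc 1 / 2 * |lc ψ (dfT T.M (emb T.s p) (emb (T.s / 2) (p + q)) (emb (T.s / 2) x₀)
          (emb (T.s / 2) x₁))
        + lc ψ (dfT T.M (emb (T.s / 2) (p + q)) (emb T.s q) (emb (T.s / 2) x₁)
          (emb (T.s / 2) x₂))|
      ≤ 1 / 2 * (T.Cs * (T.s / 2 * (1 + ν)) / √T.l * |v₁|
        + T.Cs * (T.s / 2 * (1 + ν)) / √T.l * |v₂|) := by
        gcongr
        exact (abs_add_le _ _).trans (add_le_add w1 w2)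
    _ = T.Cs * T.s / (2 * √T.l) * ((|v₁| * (1 + ν) + |v₂| * (1 + ν)) / 2) := by
        field_simp
    _ ≤ T.Cs * T.s / (2 * √T.l) * (K / (2 * T.ε) * X + (1 + ν ^ 2) / K) := by
        gcongr
        linarith

/-- Sum of the increments over the good segments. -/
lemma sum_Tinc_le {T : TP} {R₀ C : ℝ} (hT : T.Adm R₀ C) (hR : 0 < R₀) (hC : 0 < C)
    (ψ : Eu d → ℝ) {N Q : ℕ} (p x : ℕ → Lt d) {𝒢 : Finset ℕ} (h𝒢 : 𝒢 ⊆ Finset.range N)
    (hok : ∀ a ∈ 𝒢, SegOK T (p a) (p (a + 1)) (x (2 * a)) (x (2 * a + 1)) (x (2 * a + 2)))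
    (hF : ∑ a ∈ 𝒢, lF T ψ (p a) (p (a + 1)) ≤ Q * (lZ T R₀ N ψ
      + ∑ i ∈ Finset.range (N - 1),
        -Real.log (wtR ((p (i + 1 + 1) - p (i + 1)) - (p (i + 1) - p i)))))
    {K η Sν Sr : ℝ} (hK : 0 < K) (hη : 0 < η)
    (hν : ∑ a ∈ Finset.range N,
      nuI (p a) (p (a + 1)) (x (2 * a)) (x (2 * a + 1)) (x (2 * a + 2)) ^ 2 ≤ Sν)
    (hr : ∑ i ∈ Finset.range (N - 1),
      ‖emb 1 ((p (i + 1 + 1) - p (i + 1)) - (p (i + 1) - p i))‖ ^ 2 ≤ Sr) :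
    ∑ a ∈ 𝒢, |Tinc T ψ (p a) (p (a + 1)) (x (2 * a)) (x (2 * a + 1)) (x (2 * a + 2))|
      ≤ T.Cs * T.s / (2 * √T.l) *
        (K / (2 * T.ε) * (Q * (lZ T R₀ N ψ + 2 * d * (η * Sr + N / (4 * η)))
          + 4 * d * (η * Sν + N / (4 * η))) + (N + Sν) / K) := by
  have hs := hT.s0
  have hl : 0 < T.l := by linarith [hT.l1]
  have hsl : 0 < √T.l := Real.sqrt_pos.2 hl
  have hCs : 0 < T.Cs := by rw [hT.eCs]; positivity
  have hε : 0 < T.ε := by rw [hT.eε]; have := ferE_pos; positivity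
  set ν : ℕ → ℝ := fun a => nuI (p a) (p (a + 1)) (x (2 * a)) (x (2 * a + 1)) (x (2 * a + 2))
    with hνdef
  have hνsum : ∑ a ∈ 𝒢, ν a ^ 2 ≤ Sν :=
    (Finset.sum_le_sum_of_subset_of_nonneg h𝒢 fun _ _ _ => sq_nonneg _).trans hν
  have hcard : (𝒢.card : ℝ) ≤ N := by
    have := Finset.card_le_card h𝒢
    rw [Finset.card_range] at this
    exact_mod_cast this
  have h1 : ∑ a ∈ 𝒢, |Tinc T ψ (p a) (p (a + 1)) (x (2 * a)) (x (2 * a + 1)) (x (2 * a + 2))|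
      ≤ ∑ a ∈ 𝒢, T.Cs * T.s / (2 * √T.l) * (K / (2 * T.ε) * (lF T ψ (p a) (p (a + 1))
        + 4 * d * (η * ν a ^ 2 + 1 / (4 * η))) + (1 + ν a ^ 2) / K) :=
    Finset.sum_le_sum fun a ha => abs_Tinc_le hT hR hC ψ (hok a ha) hK hη
  refine h1.trans ?_
  rw [← Finset.mul_sum]
  refine mul_le_mul_of_nonneg_left ?_ (by positivity)
  simp only [Finset.sum_add_distrib, ← Finset.mul_sum, ← Finset.sum_div, Finset.sum_const,
    nsmul_eq_mul, mul_one]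
  have h2 : ∑ i ∈ Finset.range (N - 1),
        -Real.log (wtR ((p (i + 1 + 1) - p (i + 1)) - (p (i + 1) - p i)))
      ≤ 2 * d * (η * Sr + N / (4 * η)) := by
    calc ∑ i ∈ Finset.range (N - 1),
        -Real.log (wtR ((p (i + 1 + 1) - p (i + 1)) - (p (i + 1) - p i)))
        ≤ ∑ i ∈ Finset.range (N - 1), 2 * d * (η
          * ‖emb 1 ((p (i + 1 + 1) - p (i + 1)) - (p (i + 1) - p i))‖ ^ 2 + 1 / (4 * η)) :=
          Finset.sum_le_sum fun i _ => neg_log_wtR_le' _ le_rfl hη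
      _ = 2 * d * (η * ∑ i ∈ Finset.range (N - 1),
          ‖emb 1 ((p (i + 1 + 1) - p (i + 1)) - (p (i + 1) - p i))‖ ^ 2
          + ((N - 1 : ℕ) : ℝ) * (1 / (4 * η))) := by
          rw [← Finset.mul_sum, Finset.sum_add_distrib, ← Finset.mul_sum]
          simp only [Finset.sum_const, nsmul_eq_mul, Finset.card_range]
      _ ≤ 2 * d * (η * Sr + N * (1 / (4 * η))) := by
          have : ((N - 1 : ℕ) : ℝ) ≤ N := by exact_mod_cast Nat.sub_le N 1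
          gcongr
      _ = _ := by ring
  have h3 : (Q : ℝ) * (lZ T R₀ N ψ + ∑ i ∈ Finset.range (N - 1),
        -Real.log (wtR ((p (i + 1 + 1) - p (i + 1)) - (p (i + 1) - p i))))
      ≤ Q * (lZ T R₀ N ψ + 2 * d * (η * Sr + N / (4 * η))) := by gcongr
  have h4 : (𝒢.card : ℝ) / (4 * η) ≤ N / (4 * η) := by gcongr
  gcongr
  · exact hF.trans h3

/-- **Inequality for one generation**: the gain is at most a small multiple of the energies, plus
the contribution of the partition function. -/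
theorem gen_ineq (d : ℕ) {R₀ C : ℝ} (hR : 0 < R₀) (hC : 0 < C) (Q : ℕ) {ε₀ : ℝ} (hε₀ : 0 < ε₀) :
    ∃ C' : ℝ, 0 < C' ∧ ∀ (T : TP), T.Adm R₀ C → ∀ (ψ : Eu d → ℝ) (N : ℕ) (p x : ℕ → Lt d)
      (𝒢 : Finset ℕ) (e j F ξ κ w : ℝ), 0 < N → 𝒢 ⊆ Finset.range N →
      (∀ a ∈ 𝒢, SegOK T (p a) (p (a + 1)) (x (2 * a)) (x (2 * a + 1)) (x (2 * a + 2))) →
      (∑ a ∈ 𝒢, lF T ψ (p a) (p (a + 1)) ≤ Q * (lZ T R₀ N ψ
        + ∑ i ∈ Finset.range (N - 1),
          -Real.log (wtR ((p (i + 1 + 1) - p (i + 1)) - (p (i + 1) - p i))))) →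
      (∑ a ∈ Finset.range N,
        nuI (p a) (p (a + 1)) (x (2 * a)) (x (2 * a + 1)) (x (2 * a + 2)) ^ 2
          ≤ N * (8 * F * e + 162 * d ^ 2)) →
      (∑ i ∈ Finset.range (N - 1),
        ‖emb 1 ((p (i + 1 + 1) - p (i + 1)) - (p (i + 1) - p i))‖ ^ 2
          ≤ N * (2 * F * j + 32 * d ^ 2)) →
      0 ≤ e → 0 ≤ j → 0 ≤ κ → 0 ≤ w → 0 ≤ ξ → 0 ≤ F → ξ * (T.s / √T.l) ≤ κ * w → κ * F ≤ 4 →
      ξ * ((∑ a ∈ 𝒢, |Tinc T ψ (p a) (p (a + 1)) (x (2 * a)) (x (2 * a + 1)) (x (2 * a + 2))|) / N)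
        ≤ ε₀ * w * (e + j) + C' * κ * w * (1 + lZ T R₀ N ψ / N) := by
  -- constants
  set Cs : ℝ := 64 * (R₀ + 1) * C with hCs
  have hCs0 : 0 < Cs := by positivity
  set θ : ℝ := ferE / 4 with hθ
  have hθ0 : 0 < θ := by have := ferE_pos; positivity
  set K : ℝ := 32 * Cs / ε₀ with hK
  have hK0 : 0 < K := by positivity
  -- `η` small
  set A : ℝ := Cs / 2 * (K / (2 * θ)) with hA
  have hA0 : 0 < A := by positivity
  set η : ℝ := ε₀ / (16 * A * (d + 1) * (16 + Q)) with hη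
  have hη0 : 0 < η := by positivity
  refine ⟨A * (Q + Q * 2 * d * (η * (32 * d ^ 2) + 1 / (4 * η))
    + 4 * d * (η * (162 * d ^ 2) + 1 / (4 * η))) + Cs / 2 * ((1 + 162 * d ^ 2) / K) + 1,
    by positivity, ?_⟩
  intro T hT ψ N p x 𝒢 e j F ξ κ w hN h𝒢 hok hF hν hr he hj hκ hw hξ hF0 hW hκF
  have hN' : (0 : ℝ) < N := by exact_mod_cast hN
  have hs := hT.s0
  have hl : 0 < T.l := by linarith [hT.l1]
  have hsl : 0 < √T.l := Real.sqrt_pos.2 hl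
  have hL0 := lZ_nonneg T R₀ N ψ
  have h1 := sum_Tinc_le hT hR hC ψ (Q := Q) p x h𝒢 hok hF hK0 hη0 hν hr
  rw [hT.eCs, hT.eε, ← hCs, ← hθ] at h1
  set L := lZ T R₀ N ψ with hL
  set Sν : ℝ := N * (8 * F * e + 162 * d ^ 2) with hSν
  set Sr : ℝ := N * (2 * F * j + 32 * d ^ 2) with hSr
  set S := ∑ a ∈ 𝒢, |Tinc T ψ (p a) (p (a + 1)) (x (2 * a)) (x (2 * a + 1)) (x (2 * a + 2))|
    with hS
  have hd0 : (0 : ℝ) ≤ d := Nat.cast_nonneg d
  have hQ0 : (0 : ℝ) ≤ Q := Nat.cast_nonneg Q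
  -- divide by `N`
  have h2 : S / N ≤ Cs * T.s / (2 * √T.l) *
      (K / (2 * θ) * (Q * (L / N + 2 * d * (η * (2 * F * j + 32 * d ^ 2) + 1 / (4 * η)))
          + 4 * d * (η * (8 * F * e + 162 * d ^ 2) + 1 / (4 * η)))
        + (1 + (8 * F * e + 162 * d ^ 2)) / K) := by
    rw [div_le_iff₀ hN']
    refine h1.trans (le_of_eq ?_)
    rw [hSν, hSr]
    field_simp
  set X := K / (2 * θ) * (Q * (L / N + 2 * d * (η * (2 * F * j + 32 * d ^ 2) + 1 / (4 * η)))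
          + 4 * d * (η * (8 * F * e + 162 * d ^ 2) + 1 / (4 * η)))
        + (1 + (8 * F * e + 162 * d ^ 2)) / K with hX
  have hX0 : 0 ≤ X := by positivity
  have h3 : ξ * (S / N) ≤ κ * w * (Cs / 2 * X) := by
    calc ξ * (S / N) ≤ ξ * (Cs * T.s / (2 * √T.l) * X) := by gcongr
      _ = ξ * (T.s / √T.l) * (Cs / 2 * X) := by field_simp
      _ ≤ κ * w * (Cs / 2 * X) := by gcongr
  refine h3.trans ?_
  -- separate the energies
  have e1 : Cs / 2 * X = F * (A * (Q * (2 * d * (η * (2 * j)))) + A * (4 * d * (η * (8 * e)))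
        + Cs / 2 * (8 * e / K))
      + (A * (Q * (L / N)) + A * (Q * 2 * d * (η * (32 * d ^ 2) + 1 / (4 * η))
        + 4 * d * (η * (162 * d ^ 2) + 1 / (4 * η))) + Cs / 2 * ((1 + 162 * d ^ 2) / K)) := by
    rw [hX, hA]; ring
  have e2 : A * (Q * (2 * d * (η * (2 * j)))) ≤ ε₀ / 4 * j := by
    have : A * (Q * (2 * d * (η * (2 * j)))) = 4 * A * η * (Q * d) * j := by ring
    rw [this]
    have h5 : 4 * A * η * (Q * d) ≤ ε₀ / 4 := by
      have h6 : (Q : ℝ) * d ≤ (d + 1) * (16 + Q) := by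
        have e9 : ((d : ℝ) + 1) * (16 + Q) = Q * d + (16 * d + 16 + Q) := by ring
        rw [e9]; linarith only [hd0, hQ0]
      calc 4 * A * η * (Q * d) ≤ 4 * A * η * ((d + 1) * (16 + Q)) := by gcongr
        _ = ε₀ / 4 := by rw [hη]; field_simp; norm_num
    gcongr
  have e3 : A * (4 * d * (η * (8 * e))) ≤ ε₀ / 8 * e := by
    have : A * (4 * d * (η * (8 * e))) = 2 * A * η * (16 * d) * e := by ring
    rw [this]
    have h5 : 2 * A * η * (16 * d) ≤ ε₀ / 8 := by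
      have h6 : (16 : ℝ) * d ≤ (d + 1) * (16 + Q) := by
        have e9 : ((d : ℝ) + 1) * (16 + Q) = 16 * d + (d * Q + 16 + Q) := by ring
        rw [e9]; linarith only [mul_nonneg hd0 hQ0, hQ0]
      calc 2 * A * η * (16 * d) ≤ 2 * A * η * ((d + 1) * (16 + Q)) := by gcongr
        _ = ε₀ / 8 := by rw [hη]; field_simp; norm_num
    gcongr
  have e4 : Cs / 2 * (8 * e / K) = ε₀ / 8 * e := by rw [hK]; field_simp; ring
  have e5 : κ * w * (F * (A * (Q * (2 * d * (η * (2 * j)))) + A * (4 * d * (η * (8 * e)))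
        + Cs / 2 * (8 * e / K))) ≤ ε₀ * w * (e + j) := by
    calc κ * w * (F * (A * (Q * (2 * d * (η * (2 * j)))) + A * (4 * d * (η * (8 * e)))
        + Cs / 2 * (8 * e / K)))
        ≤ κ * w * (F * (ε₀ / 4 * j + ε₀ / 8 * e + ε₀ / 8 * e)) := by
          rw [e4]; gcongr
      _ = (κ * F) * (w * (ε₀ / 4 * (e + j))) := by ring
      _ ≤ 4 * (w * (ε₀ / 4 * (e + j))) := by gcongr
      _ = _ := by ring
  have e6 : κ * w * (A * (Q * (L / N)) + A * (Q * 2 * d * (η * (32 * d ^ 2) + 1 / (4 * η))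
        + 4 * d * (η * (162 * d ^ 2) + 1 / (4 * η))) + Cs / 2 * ((1 + 162 * d ^ 2) / K))
      ≤ (A * (Q + Q * 2 * d * (η * (32 * d ^ 2) + 1 / (4 * η))
    + 4 * d * (η * (162 * d ^ 2) + 1 / (4 * η))) + Cs / 2 * ((1 + 162 * d ^ 2) / K) + 1)
      * κ * w * (1 + L / N) := by
    have hLN : 0 ≤ L / N := by positivity
    set c1 := A * (Q * 2 * d * (η * (32 * d ^ 2) + 1 / (4 * η))
        + 4 * d * (η * (162 * d ^ 2) + 1 / (4 * η))) + Cs / 2 * ((1 + 162 * d ^ 2) / K) with hc1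
    have hc10 : 0 ≤ c1 := by positivity
    have g1 : A * (Q * (L / N)) + A * (Q * 2 * d * (η * (32 * d ^ 2) + 1 / (4 * η))
        + 4 * d * (η * (162 * d ^ 2) + 1 / (4 * η))) + Cs / 2 * ((1 + 162 * d ^ 2) / K)
        = A * Q * (L / N) + c1 := by rw [hc1]; ring
    have g2 : A * (Q + Q * 2 * d * (η * (32 * d ^ 2) + 1 / (4 * η))
    + 4 * d * (η * (162 * d ^ 2) + 1 / (4 * η))) + Cs / 2 * ((1 + 162 * d ^ 2) / K) + 1
        = A * Q + c1 + 1 := by rw [hc1]; ring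
    rw [g1, g2]
    have g3 : A * Q * (L / N) + c1 ≤ (A * Q + c1 + 1) * (1 + L / N) := by
      have : 0 ≤ A * Q := by positivity
      have e9 : (A * Q + c1 + 1) * (1 + L / N)
          = A * Q * (L / N) + c1 + (A * Q + c1 * (L / N) + 1 + L / N) := by ring
      rw [e9]; linarith only [this, mul_nonneg hc10 hLN, hLN]
    calc κ * w * (A * Q * (L / N) + c1) ≤ κ * w * ((A * Q + c1 + 1) * (1 + L / N)) := by gcongr
      _ = _ := by ring
  rw [e1, mul_add]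
  exact add_le_add e5 e6

end Pool.Agent.Lib_MP_71c74a_pr
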