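import Pool.Agent.Lib_MP_71c74a_pr.LogPart
import Pool.Agent.Lib_MP_71c74a_pr.RoundA

/-!
# Rounding the dyadic points of a curve: good segments
-/

open MeasureTheory ProbabilityTheory Set
open scoped ENNReal NNReal Topology

namespace Pool.Agent.Lib_MP_71c74a_pr

variable {d : ℕ}

/-- Good segments satisfy the requirements. -/
lemma Blk.segOK {Z : ℝ → Eu d} {Λ : ℝ} {y : Eu d} {k k₀ : ℕ} (h : Blk Z Λ y k)
    {R₀ C : ℝ} {J g a : ℕ} (ha : a ∈ gd Z y g) (hk0 : 8 * (d : ℝ) ≤ 2 ^ k₀)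
    (hg : g + k₀ ≤ 3 * k) (hkd : 9 * (d : ℝ) + 16 ≤ 2 ^ k) :
    SegOK (mkT R₀ C k k₀ J g) (pt Z (mesh k₀ g) g a) (pt Z (mesh k₀ g) g (a + 1))
      (pt Z (mesh k₀ (g + 1)) (g + 1) (2 * a)) (pt Z (mesh k₀ (g + 1)) (g + 1) (2 * a + 1))
      (pt Z (mesh k₀ (g + 1)) (g + 1) (2 * a + 2)) := by
  have ha2 : a < 2 ^ g := (mem_goodS.1 ha).1
  have hμ := mesh_pos k₀ g
  have hμ' := mesh_pos k₀ (g + 1)
  have hL : (0 : ℝ) < 2 ^ J := by positivity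
  have hd1 := h.D1_ge ha
  have hd2 := norm_D1_le h.lip ha2
  have hΛ2 := h.Λ2
  have h2g : (0 : ℝ) < 2 ^ g := by positivity
  have hD2 : ‖D1 Z g a‖ ≤ 2 / 2 ^ g := hd2.trans (by gcongr)
  -- the mesh is small
  have hmesh : d * mesh k₀ g ≤ 1 / 8 / 2 ^ g := by
    unfold mesh
    rw [pow_add, div_div, mul_one_div, div_le_div_iff₀ (by positivity) (by positivity)]
    calc (d : ℝ) * (8 * 2 ^ g) = 8 * d * 2 ^ g := by ring
      _ ≤ 2 ^ k₀ * 2 ^ g := by gcongr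
      _ = 1 * (2 ^ g * 2 ^ k₀) := by ring
  have hmesh' : d * mesh k₀ (g + 1) ≤ 1 / 16 / 2 ^ g := by
    rw [← mesh_half]
    have : (1 : ℝ) / 16 / 2 ^ g = (1 / 8 / 2 ^ g) / 2 := by ring
    rw [this]
    linarith
  have r1 := norm_emb_pt hμ Z g a
  have r2 := norm_emb_pt hμ Z g (a + 1)
  have r3 := norm_emb_pt hμ' Z (g + 1) (2 * a)
  have r4 := norm_emb_pt hμ' Z (g + 1) (2 * a + 1)
  have r5 := norm_emb_pt hμ' Z (g + 1) (2 * a + 2)
  rw [zg_double] at r3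
  have e5 : zg Z (g + 1) (2 * a + 2) = zg Z g (a + 1) := zg_double' Z g a
  rw [e5] at r5
  have hhalf : ‖zg Z (g + 1) (2 * a + 1) - zg Z g (a + 1)‖ ≤ 1 / 2 ^ g := by
    have h1 := norm_D1_le h.lip (g := g + 1) (a := 2 * a + 1) (by rw [pow_succ]; omega)
    unfold D1 at h1
    rw [zg_double' Z g a] at h1
    rw [norm_sub_rev]
    refine h1.trans ?_
    rw [pow_succ, div_le_div_iff₀ (by positivity) h2g]
    nlinarith
  have hnu := nuI_pt_le hμ Z g a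
  rw [mesh_half] at hnu
  -- norms in the units of the field
  have es : (mkT R₀ C k k₀ J g).s = 2 ^ J * mesh k₀ g := rfl
  have es2 : (mkT R₀ C k k₀ J g).s / 2 = 2 ^ J * mesh k₀ (g + 1) := by
    rw [es, ← mesh_half]; ring
  have el : (mkT R₀ C k k₀ J g).l = 2 ^ J / 2 ^ g := rfl
  have hfu : ∀ p q : Eu d, ‖(2 ^ J : ℝ) • p - (2 ^ J : ℝ) • q‖ = 2 ^ J * ‖p - q‖ := fun p q => by
    rw [← smul_sub, norm_smul, Real.norm_of_nonneg hL.le]
  -- box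
  have hdd : ‖dd Z g a‖ ≤ 8 := by
    unfold dd
    refine (norm_sub_le _ _).trans ?_
    have q1 := h.zg_bd (g := g + 1) (a := 2 * a + 1) (by rw [pow_succ]; omega)
    have q2 := h.zg_bd (g := g) (a := a) ha2.le
    have q3 := h.zg_bd (g := g) (a := a + 1) ha2
    rw [midpoint_eq_smul_add, norm_smul]
    simp only [invOf_eq_inv, norm_inv, Real.norm_ofNat]
    have q4 := norm_add_le (zg Z g a) (zg Z g (a + 1))
    linarith
  have hB : nuI (pt Z (mesh k₀ g) g a) (pt Z (mesh k₀ g) g (a + 1))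
      (pt Z (mesh k₀ (g + 1)) (g + 1) (2 * a)) (pt Z (mesh k₀ (g + 1)) (g + 1) (2 * a + 1))
      (pt Z (mesh k₀ (g + 1)) (g + 1) (2 * a + 2)) ≤ (((2 ^ (4 * k) : ℕ)) : ℝ) := by
    refine hnu.trans ?_
    have q1 : 2 * ‖dd Z g a‖ / mesh k₀ g ≤ 16 * 2 ^ (3 * k) := by
      rw [div_le_iff₀ hμ]
      unfold mesh
      calc 2 * ‖dd Z g a‖ ≤ 2 * 8 := by gcongr
        _ = 16 * 2 ^ (g + k₀) * (1 / 2 ^ (g + k₀)) := by field_simp; norm_num
        _ ≤ 16 * 2 ^ (3 * k) * (1 / 2 ^ (g + k₀)) := by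
            gcongr
            norm_num
    have q2 : (1 : ℝ) ≤ 2 ^ (3 * k) := one_le_pow₀ (by norm_num)
    have hd0 : (0 : ℝ) ≤ d := Nat.cast_nonneg d
    push_cast
    calc 9 * (d : ℝ) + 2 * ‖dd Z g a‖ / mesh k₀ g ≤ 9 * d * 2 ^ (3 * k) + 16 * 2 ^ (3 * k) := by
          nlinarith
      _ = (9 * d + 16) * 2 ^ (3 * k) := by ring
      _ ≤ 2 ^ k * 2 ^ (3 * k) := by gcongr
      _ = 2 ^ (4 * k) := by rw [← pow_add]; congr 1; ring
  have hBn : ∀ n : Lt d, ‖emb 1 n‖ ≤ nuI (pt Z (mesh k₀ g) g a) (pt Z (mesh k₀ g) g (a + 1))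
      (pt Z (mesh k₀ (g + 1)) (g + 1) (2 * a)) (pt Z (mesh k₀ (g + 1)) (g + 1) (2 * a + 1))
      (pt Z (mesh k₀ (g + 1)) (g + 1) (2 * a + 2)) → n ∈ box d (mkT R₀ C k k₀ J g).B :=
    fun n hn => mem_box (hn.trans hB)
  refine ⟨?_, ?_, ?_, ?_, ?_, hBn _ ?_, hBn _ ?_, hBn _ ?_⟩
  · rw [es, el, emb_smul, emb_smul, hfu]
    have q1 : ‖D1 Z g a‖ ≤ ‖emb (mesh k₀ g) (pt Z (mesh k₀ g) g (a + 1))
        - emb (mesh k₀ g) (pt Z (mesh k₀ g) g a)‖ + 2 * (d * mesh k₀ g) := by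
      have e : D1 Z g a = (emb (mesh k₀ g) (pt Z (mesh k₀ g) g (a + 1))
        - emb (mesh k₀ g) (pt Z (mesh k₀ g) g a))
        - (emb (mesh k₀ g) (pt Z (mesh k₀ g) g (a + 1)) - zg Z g (a + 1))
        + (emb (mesh k₀ g) (pt Z (mesh k₀ g) g a) - zg Z g a) := by
        unfold D1; abel
      rw [e]
      refine (norm_add_le _ _).trans ?_
      have := norm_sub_le (emb (mesh k₀ g) (pt Z (mesh k₀ g) g (a + 1))
        - emb (mesh k₀ g) (pt Z (mesh k₀ g) g a))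
        (emb (mesh k₀ g) (pt Z (mesh k₀ g) g (a + 1)) - zg Z g (a + 1))
      linarith
    calc (2 : ℝ) ^ J / 2 ^ g / 4 = 2 ^ J * (1 / (2 * 2 ^ g) - 2 * (1 / 8 / 2 ^ g)) := by
          field_simp; norm_num
      _ ≤ _ := by
          gcongr
          linarith
  · rw [es, el, emb_smul, emb_smul, hfu, two_pow_half]
    gcongr
    have e : emb (mesh k₀ g) (pt Z (mesh k₀ g) g a) - emb (mesh k₀ g) (pt Z (mesh k₀ g) g (a + 1))
        = (emb (mesh k₀ g) (pt Z (mesh k₀ g) g a) - zg Z g a)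
          - (emb (mesh k₀ g) (pt Z (mesh k₀ g) g (a + 1)) - zg Z g (a + 1)) - D1 Z g a := by
      unfold D1; abel
    rw [e]
    have q1 := norm_sub_le ((emb (mesh k₀ g) (pt Z (mesh k₀ g) g a) - zg Z g a)
          - (emb (mesh k₀ g) (pt Z (mesh k₀ g) g (a + 1)) - zg Z g (a + 1))) (D1 Z g a)
    have q2 := norm_sub_le (emb (mesh k₀ g) (pt Z (mesh k₀ g) g a) - zg Z g a)
      (emb (mesh k₀ g) (pt Z (mesh k₀ g) g (a + 1)) - zg Z g (a + 1))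
    have q3 : (1 : ℝ) / 8 / 2 ^ g + 1 / 8 / 2 ^ g + 2 / 2 ^ g ≤ 4 / 2 ^ g := by
      have : (0 : ℝ) < 1 / 2 ^ g := by positivity
      have e2 : (1 : ℝ) / 8 / 2 ^ g + 1 / 8 / 2 ^ g + 2 / 2 ^ g = 9 / 4 * (1 / 2 ^ g) := by ring
      have e3 : (4 : ℝ) / 2 ^ g = 4 * (1 / 2 ^ g) := by ring
      rw [e2, e3]; linarith
    linarith
  · rw [es2, es, el, emb_smul, emb_smul, hfu, two_pow_half]
    gcongr
    have e : emb (mesh k₀ (g + 1)) (pt Z (mesh k₀ (g + 1)) (g + 1) (2 * a))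
        - emb (mesh k₀ g) (pt Z (mesh k₀ g) g (a + 1))
        = (emb (mesh k₀ (g + 1)) (pt Z (mesh k₀ (g + 1)) (g + 1) (2 * a)) - zg Z g a)
          - (emb (mesh k₀ g) (pt Z (mesh k₀ g) g (a + 1)) - zg Z g (a + 1)) - D1 Z g a := by
      unfold D1; abel
    rw [e]
    have q1 := norm_sub_le ((emb (mesh k₀ (g + 1)) (pt Z (mesh k₀ (g + 1)) (g + 1) (2 * a))
          - zg Z g a) - (emb (mesh k₀ g) (pt Z (mesh k₀ g) g (a + 1)) - zg Z g (a + 1))) (D1 Z g a)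
    have q2 := norm_sub_le (emb (mesh k₀ (g + 1)) (pt Z (mesh k₀ (g + 1)) (g + 1) (2 * a))
          - zg Z g a) (emb (mesh k₀ g) (pt Z (mesh k₀ g) g (a + 1)) - zg Z g (a + 1))
    have q3 : (1 : ℝ) / 16 / 2 ^ g + 1 / 8 / 2 ^ g + 2 / 2 ^ g ≤ 4 / 2 ^ g := by
      have : (0 : ℝ) < 1 / 2 ^ g := by positivity
      have e2 : (1 : ℝ) / 16 / 2 ^ g + 1 / 8 / 2 ^ g + 2 / 2 ^ g = 35 / 16 * (1 / 2 ^ g) := by ring
      have e3 : (4 : ℝ) / 2 ^ g = 4 * (1 / 2 ^ g) := by ring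
      rw [e2, e3]; linarith
    linarith
  · rw [es2, es, el, emb_smul, emb_smul, hfu, two_pow_half]
    gcongr
    have e : emb (mesh k₀ (g + 1)) (pt Z (mesh k₀ (g + 1)) (g + 1) (2 * a + 1))
        - emb (mesh k₀ g) (pt Z (mesh k₀ g) g (a + 1))
        = (emb (mesh k₀ (g + 1)) (pt Z (mesh k₀ (g + 1)) (g + 1) (2 * a + 1))
            - zg Z (g + 1) (2 * a + 1))
          - (emb (mesh k₀ g) (pt Z (mesh k₀ g) g (a + 1)) - zg Z g (a + 1))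
          + (zg Z (g + 1) (2 * a + 1) - zg Z g (a + 1)) := by
      abel
    rw [e]
    have q1 := norm_add_le ((emb (mesh k₀ (g + 1)) (pt Z (mesh k₀ (g + 1)) (g + 1) (2 * a + 1))
            - zg Z (g + 1) (2 * a + 1))
          - (emb (mesh k₀ g) (pt Z (mesh k₀ g) g (a + 1)) - zg Z g (a + 1)))
          (zg Z (g + 1) (2 * a + 1) - zg Z g (a + 1))
    have q2 := norm_sub_le (emb (mesh k₀ (g + 1)) (pt Z (mesh k₀ (g + 1)) (g + 1) (2 * a + 1))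
            - zg Z (g + 1) (2 * a + 1))
          (emb (mesh k₀ g) (pt Z (mesh k₀ g) g (a + 1)) - zg Z g (a + 1))
    have q3 : (1 : ℝ) / 16 / 2 ^ g + 1 / 8 / 2 ^ g + 1 / 2 ^ g ≤ 4 / 2 ^ g := by
      have : (0 : ℝ) < 1 / 2 ^ g := by positivity
      have e2 : (1 : ℝ) / 16 / 2 ^ g + 1 / 8 / 2 ^ g + 1 / 2 ^ g = 19 / 16 * (1 / 2 ^ g) := by ring
      have e3 : (4 : ℝ) / 2 ^ g = 4 * (1 / 2 ^ g) := by ring
      rw [e2, e3]; linarith
    linarith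
  · rw [es2, es, el, emb_smul, emb_smul, hfu, two_pow_half]
    gcongr
    have e : emb (mesh k₀ (g + 1)) (pt Z (mesh k₀ (g + 1)) (g + 1) (2 * a + 2))
        - emb (mesh k₀ g) (pt Z (mesh k₀ g) g (a + 1))
        = (emb (mesh k₀ (g + 1)) (pt Z (mesh k₀ (g + 1)) (g + 1) (2 * a + 2)) - zg Z g (a + 1))
          - (emb (mesh k₀ g) (pt Z (mesh k₀ g) g (a + 1)) - zg Z g (a + 1)) := by
      abel
    rw [e]
    have q2 := norm_sub_le (emb (mesh k₀ (g + 1)) (pt Z (mesh k₀ (g + 1)) (g + 1) (2 * a + 2))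
          - zg Z g (a + 1)) (emb (mesh k₀ g) (pt Z (mesh k₀ g) g (a + 1)) - zg Z g (a + 1))
    have q3 : (1 : ℝ) / 16 / 2 ^ g + 1 / 8 / 2 ^ g ≤ 4 / 2 ^ g := by
      have : (0 : ℝ) < 1 / 2 ^ g := by positivity
      have e2 : (1 : ℝ) / 16 / 2 ^ g + 1 / 8 / 2 ^ g = 3 / 16 * (1 / 2 ^ g) := by ring
      have e3 : (4 : ℝ) / 2 ^ g = 4 * (1 / 2 ^ g) := by ring
      rw [e2, e3]; linarith
    linarith
  · unfold nuI
    have := norm_nonneg (emb 1 (pt Z (mesh k₀ (g + 1)) (g + 1) (2 * a + 1)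
      - (pt Z (mesh k₀ g) g a + pt Z (mesh k₀ g) g (a + 1))))
    have := norm_nonneg (emb 1 (pt Z (mesh k₀ (g + 1)) (g + 1) (2 * a + 2)
      - (pt Z (mesh k₀ g) g (a + 1) + pt Z (mesh k₀ g) g (a + 1))))
    linarith
  · unfold nuI
    have := norm_nonneg (emb 1 (pt Z (mesh k₀ (g + 1)) (g + 1) (2 * a)
      - (pt Z (mesh k₀ g) g a + pt Z (mesh k₀ g) g a)))
    have := norm_nonneg (emb 1 (pt Z (mesh k₀ (g + 1)) (g + 1) (2 * a + 2)
      - (pt Z (mesh k₀ g) g (a + 1) + pt Z (mesh k₀ g) g (a + 1))))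
    linarith
  · unfold nuI
    have := norm_nonneg (emb 1 (pt Z (mesh k₀ (g + 1)) (g + 1) (2 * a)
      - (pt Z (mesh k₀ g) g a + pt Z (mesh k₀ g) g a)))
    have := norm_nonneg (emb 1 (pt Z (mesh k₀ (g + 1)) (g + 1) (2 * a + 1)
      - (pt Z (mesh k₀ g) g a + pt Z (mesh k₀ g) g (a + 1))))
    linarith

/-- Norms of the rounded points. -/
lemma Blk.pt_box {Z : ℝ → Eu d} {Λ : ℝ} {y : Eu d} {k k₀ : ℕ} (h : Blk Z Λ y k)
    {g a : ℕ} (ha : a ≤ 2 ^ g) (hg : g + k₀ ≤ 3 * k) :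
    ‖emb 1 (pt Z (mesh k₀ g) g a)‖ ≤ (4 + d) * 2 ^ (3 * k) := by
  have hμ := mesh_pos k₀ g
  have r1 := norm_emb_pt hμ Z g a
  have q1 := h.zg_bd ha
  rw [norm_emb_one hμ, div_le_iff₀ hμ]
  have e : emb (mesh k₀ g) (pt Z (mesh k₀ g) g a)
      = (emb (mesh k₀ g) (pt Z (mesh k₀ g) g a) - zg Z g a) + zg Z g a := by abel
  have h1 : ‖emb (mesh k₀ g) (pt Z (mesh k₀ g) g a)‖ ≤ 4 + d := by
    rw [e]
    refine (norm_add_le _ _).trans ?_
    have h2 : mesh k₀ g ≤ 1 := by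
      unfold mesh
      rw [div_le_one (by positivity)]
      exact one_le_pow₀ (by norm_num)
    have h3 : (d : ℝ) * mesh k₀ g ≤ d * 1 := by gcongr
    linarith
  refine h1.trans ?_
  unfold mesh
  have hd0 : (0 : ℝ) ≤ d := Nat.cast_nonneg d
  calc (4 : ℝ) + d = (4 + d) * 2 ^ (g + k₀) * (1 / 2 ^ (g + k₀)) := by field_simp
    _ ≤ (4 + d) * 2 ^ (3 * k) * (1 / 2 ^ (g + k₀)) := by
        gcongr
        norm_num

/-- The sum of the variables of the good segments. -/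
lemma Blk.sum_lF {Z : ℝ → Eu d} {Λ : ℝ} {y : Eu d} {k k₀ : ℕ} (h : Blk Z Λ y k)
    {R₀ C : ℝ} {J g : ℕ} {Q : ℕ} (hQ : 17 + 2 * R₀ ≤ Q) (hR : 0 < R₀)
    (hk0 : 8 * (d : ℝ) ≤ 2 ^ k₀) (hgJ : g ≤ J)
    (hg : g + k₀ ≤ 3 * k) (hkd : 9 * (d : ℝ) + 16 ≤ 2 ^ k) (ψ : Eu d → ℝ) :
    ∑ a ∈ gd Z y g, lF (mkT R₀ C k k₀ J g) ψ (pt Z (mesh k₀ g) g a) (pt Z (mesh k₀ g) g (a + 1))
      ≤ Q * (lZ (mkT R₀ C k k₀ J g) R₀ (2 ^ g) ψ
        + ∑ i ∈ Finset.range (2 ^ g - 1), -Real.log (wtR ((pt Z (mesh k₀ g) g (i + 1 + 1)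
          - pt Z (mesh k₀ g) g (i + 1)) - (pt Z (mesh k₀ g) g (i + 1) - pt Z (mesh k₀ g) g i)))) := by
  have hμ := mesh_pos k₀ g
  have hQ0 : 0 < Q := by
    have : (0 : ℝ) < Q := by linarith
    exact_mod_cast this
  have hL : (0 : ℝ) < 2 ^ J := by positivity
  have h2g : (0 : ℝ) < 2 ^ g := by positivity
  have hl1 : (1 : ℝ) ≤ 2 ^ J / 2 ^ g := (mkT_adm (R₀ := R₀) (C := C) (k := k) (k₀ := k₀) hgJ).l1
  have hfu : ∀ p q : Eu d, ‖(2 ^ J : ℝ) • p - (2 ^ J : ℝ) • q‖ = 2 ^ J * ‖p - q‖ := fun p q => by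
    rw [← smul_sub, norm_smul, Real.norm_of_nonneg hL.le]
  have hmesh : d * mesh k₀ g ≤ 1 / 8 / 2 ^ g := by
    unfold mesh
    rw [pow_add, div_div, mul_one_div, div_le_div_iff₀ (by positivity) (by positivity)]
    calc (d : ℝ) * (8 * 2 ^ g) = 8 * d * 2 ^ g := by ring
      _ ≤ 2 ^ k₀ * 2 ^ g := by gcongr
      _ = 1 * (2 ^ g * 2 ^ k₀) := by ring
  set p := pt Z (mesh k₀ g) g with hp
  have hpb : ∀ a ≤ 2 ^ g, ‖emb 1 (p a)‖ ≤ (4 + d) * 2 ^ (3 * k) := fun a ha => h.pt_box ha hg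
  unfold gd
  rw [sum_clsS _ _ _ hQ0]
  -- one class
  have hcls : ∀ c ∈ Finset.range Q, ∑ a ∈ clsS (prg Z y g) (1 / (2 * ((2 ^ g : ℕ) : ℝ))) (2 ^ g) Q c,
      lF (mkT R₀ C k k₀ J g) ψ (p a) (p (a + 1)) ≤ lZ (mkT R₀ C k k₀ J g) R₀ (2 ^ g) ψ
        + ∑ i ∈ Finset.range (2 ^ g - 1), -Real.log (wtR ((p (i + 1 + 1)
          - p (i + 1)) - (p (i + 1) - p i))) := by
    intro c _
    apply sum_lF_le
    · refine mem_box_of_le ?_ hkd
      have := hpb 0 (Nat.zero_le _)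
      have : 0 ≤ (4 + (d : ℝ)) * 2 ^ (3 * k) := by positivity
      linarith
    · refine mem_box_of_le ?_ hkd
      rw [emb_sub]
      have h0 := hpb 0 (Nat.zero_le _)
      have h1 := hpb 1 Nat.one_le_two_pow
      have h2 := norm_sub_le (emb 1 (p 1)) (emb 1 (p 0))
      have : 0 ≤ (4 + (d : ℝ)) * 2 ^ (3 * k) := by positivity
      linarith
    · intro i hi
      refine mem_box_of_le ?_ hkd
      rw [emb_sub, emb_sub, emb_sub]
      have h0 := hpb i (by omega)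
      have h1 := hpb (i + 1) (by omega)
      have h2 := hpb (i + 1 + 1) (by omega)
      have g1 := norm_sub_le (emb 1 (p (i + 1 + 1)) - emb 1 (p (i + 1)))
        (emb 1 (p (i + 1)) - emb 1 (p i))
      have g2 := norm_sub_le (emb 1 (p (i + 1 + 1))) (emb 1 (p (i + 1)))
      have g3 := norm_sub_le (emb 1 (p (i + 1))) (emb 1 (p i))
      linarith
    · intro a ha
      unfold clsS at ha
      rw [Finset.mem_filter] at ha
      exact Finset.mem_range.2 (mem_goodS.1 ha.1).1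
    · -- separation
      have key : ∀ a ∈ clsS (prg Z y g) (1 / (2 * ((2 ^ g : ℕ) : ℝ))) (2 ^ g) Q c,
          ∀ a' ∈ clsS (prg Z y g) (1 / (2 * ((2 ^ g : ℕ) : ℝ))) (2 ^ g) Q c, a < a' →
          2 * (4 * (mkT R₀ C k k₀ J g).l) + R₀ ≤ ‖emb (mkT R₀ C k k₀ J g).s (p (a + 1))
            - emb (mkT R₀ C k k₀ J g).s (p (a' + 1))‖ := by
        intro a ha a' ha' haa
        have h1 := clsS_sep (by positivity) ha ha' haa
        have h2 := h.prg_sub_le g (a + 1) (a' + 1)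
        have es : (mkT R₀ C k k₀ J g).s = 2 ^ J * mesh k₀ g := rfl
        have el : (mkT R₀ C k k₀ J g).l = 2 ^ J / 2 ^ g := rfl
        rw [es, el, emb_smul, emb_smul, hfu]
        have r1 := norm_emb_pt hμ Z g (a + 1)
        have r2 := norm_emb_pt hμ Z g (a' + 1)
        rw [← hp] at r1 r2
        have q1 : ‖zg Z g (a' + 1) - zg Z g (a + 1)‖ ≤ ‖emb (mesh k₀ g) (p (a + 1))
            - emb (mesh k₀ g) (p (a' + 1))‖ + 2 * (d * mesh k₀ g) := by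
          have e : zg Z g (a' + 1) - zg Z g (a + 1) = -(emb (mesh k₀ g) (p (a + 1))
            - emb (mesh k₀ g) (p (a' + 1))) + ((emb (mesh k₀ g) (p (a + 1)) - zg Z g (a + 1))
            - (emb (mesh k₀ g) (p (a' + 1)) - zg Z g (a' + 1))) := by abel
          rw [e]
          refine (norm_add_le _ _).trans ?_
          rw [norm_neg]
          have := norm_sub_le (emb (mesh k₀ g) (p (a + 1)) - zg Z g (a + 1))
            (emb (mesh k₀ g) (p (a' + 1)) - zg Z g (a' + 1))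
          linarith
        push_cast at h1
        have q2 : (Q : ℝ) * (1 / (2 * 2 ^ g)) - 1 / 4 / 2 ^ g
            ≤ ‖emb (mesh k₀ g) (p (a + 1)) - emb (mesh k₀ g) (p (a' + 1))‖ := by
          have : (1 : ℝ) / 4 / 2 ^ g = 2 * (1 / 8 / 2 ^ g) := by ring
          rw [this]
          linarith
        calc 2 * (4 * ((2 : ℝ) ^ J / 2 ^ g)) + R₀
            ≤ 2 * (4 * ((2 : ℝ) ^ J / 2 ^ g)) + R₀ * (2 ^ J / 2 ^ g) := by nlinarith
          _ = (17 + 2 * R₀) * (1 / 2 * (2 ^ J / 2 ^ g)) - 1 / 2 * (2 ^ J / 2 ^ g) := by ring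
          _ ≤ Q * (1 / 2 * (2 ^ J / 2 ^ g)) - 1 / 4 * (2 ^ J / 2 ^ g) := by
              gcongr
              norm_num
          _ = 2 ^ J * (Q * (1 / (2 * 2 ^ g)) - 1 / 4 / 2 ^ g) := by
              field_simp
          _ ≤ _ := by gcongr
      intro a ha a' ha' hne
      rcases lt_or_gt_of_ne hne with h1 | h1
      · exact key a ha a' ha' h1
      · rw [norm_sub_rev]; exact key a' ha' a ha h1
  refine (Finset.sum_le_sum hcls).trans (le_of_eq ?_)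
  rw [Finset.sum_const, Finset.card_range, nsmul_eq_mul]

end Pool.Agent.Lib_MP_71c74a_pr
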