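import Pool.Agent.Lib_MP_71c74a_pr.BaseIneq
import Pool.Agent.Lib_MP_71c74a_pr.FieldBase
import Pool.Agent.Lib_MP_71c74a_pr.GenIneq
import Pool.Agent.Lib_MP_71c74a_pr.Round

/-!
# The sharp estimate for one field in one block
-/

open MeasureTheory ProbabilityTheory Set
open scoped ENNReal NNReal Topology

namespace Pool.Agent.Lib_MP_71c74a_pr

variable {d : ℕ}

/-- One generation. -/
theorem gen_bound (d : ℕ) {R₀ C : ℝ} (hR : 0 < R₀) (hC : 0 < C) {ε₀ : ℝ} (hε₀ : 0 < ε₀) :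
    ∃ C' : ℝ, 0 < C' ∧ ∀ (k k₀ J g : ℕ) (Z : ℝ → Eu d) (Λ Y ρ ξ κ : ℝ) (y : Eu d) (ψ : Eu d → ℝ),
      Blk Z Λ y k → Ctl ψ Y ρ → Scl d k k₀ J ρ → g < J → J ≤ g + k₀ → 0 ≤ ξ → 0 ≤ κ →
      ξ * vs ^ k₀ ≤ κ → κ * 4 ^ k₀ ≤ 4 →
      ξ * |Ag (mkT R₀ C k k₀ J (g + 1)) ψ (pt Z (mesh k₀ (g + 1)) (g + 1)) (g + 1)
          - Ag (mkT R₀ C k k₀ J g) ψ (pt Z (mesh k₀ g) g) g|
        ≤ ε₀ * vs ^ (g + k₀ - J) * (eg Z g + Jg Z g)
          + C' * κ * vs ^ (g + k₀ - J) * (1 + LZ R₀ C k k₀ J ψ g / 2 ^ g)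
          + ξ * (4 * Y * (Λ - 1 + 1 / 2 ^ k)) := by
  obtain ⟨Q, hQ⟩ := exists_nat_ge (17 + 2 * R₀)
  obtain ⟨C', hC', hgen⟩ := gen_ineq d hR hC Q hε₀
  refine ⟨C', hC', ?_⟩
  intro k k₀ J g Z Λ Y ρ ξ κ y ψ hB hψ hS hgJ hJg hξ hκ hξκ hκ4
  have hY := hψ.Y0
  have hkk := hS.kk
  have hJ2 := hS.J2
  have hk1 := hS.k1
  have hvs := vs_pos
  have hg3 : g + k₀ ≤ 3 * k := by omega
  have hg3' : g + 1 + k₀ ≤ 3 * k := by omega
  rw [Ag_succ_sub R₀ C k k₀ J ψ Z hgJ]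
  set T := mkT R₀ C k k₀ J g with hT
  set p := pt Z (mesh k₀ g) g with hp
  set x := pt Z (mesh k₀ (g + 1)) (g + 1) with hx
  set ti : ℕ → ℝ := fun a => Tinc T ψ (p a) (p (a + 1)) (x (2 * a)) (x (2 * a + 1)) (x (2 * a + 2))
    with hti
  -- the good segments
  have hscale := mkT_scale (R₀ := R₀) (C := C) (k := k) (k₀ := k₀) (J := J) (g := g) hgJ.le hJg
  have h1 := hgen T (mkT_adm hgJ.le) ψ (2 ^ g) p x (gd Z y g) (eg Z g) (Jg Z g) (4 ^ k₀) ξ κ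
    (vs ^ (g + k₀ - J)) (by positivity) (gd_subset Z y g)
    (fun a ha => hB.segOK ha hS.k0 hg3 hS.kd)
    (hB.sum_lF hQ hR hS.k0 hgJ.le hg3 hS.kd ψ)
    (sum_nuI_le Z k₀ g) (sum_secD_le Z k₀ g) (eg_nonneg Z g) (Jg_nonneg Z g) hκ (by positivity)
    hξ (by positivity) (by
      rw [hT, hscale, ← mul_assoc]
      gcongr) hκ4
  -- the bad segments
  have hbadt : ∀ a ∈ Finset.range (2 ^ g) \ gd Z y g, |ti a| ≤ 2 * Y := by
    intro a ha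
    have ha' := Finset.mem_range.1 (Finset.mem_sdiff.1 ha).1
    have es : T.s = 2 ^ J * mesh k₀ g := rfl
    have es2 : T.s / 2 = 2 ^ J * mesh k₀ (g + 1) := by rw [es, ← mesh_half]; ring
    have p1 := hB.pt_ball hS (g := g) (a := a) ha'.le
    have p2 := hB.pt_ball hS (g := g) (a := a + 1) ha'
    have p3 := hB.pt_ball hS (g := g + 1) (a := 2 * a) (by rw [pow_succ]; omega)
    have p4 := hB.pt_ball hS (g := g + 1) (a := 2 * a + 1) (by rw [pow_succ]; omega)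
    have p5 := hB.pt_ball hS (g := g + 1) (a := 2 * a + 2) (by rw [pow_succ]; omega)
    rw [hti]
    simp only [Tinc]
    rw [es2, es]
    have a1 := hψ.abs_avgT T.M p3 p4
    have a2 := hψ.abs_avgT T.M p4 p5
    have a3 := hψ.abs_avgT (2 * T.M) p1 p2
    rw [abs_le] at *
    constructor <;> linarith
  have hcard := hB.card_bad g
  have h2g : (0 : ℝ) < 2 ^ g := by positivity
  have hsum : |∑ a ∈ Finset.range (2 ^ g), ti a|
      ≤ ∑ a ∈ gd Z y g, |ti a| + 2 * 2 ^ g * (Λ - 1 + 1 / 2 ^ k) * (2 * Y) := by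
    refine (Finset.abs_sum_le_sum_abs _ _).trans ?_
    rw [← Finset.sum_sdiff (gd_subset Z y g), add_comm]
    gcongr
    refine (Finset.sum_le_sum hbadt).trans ?_
    rw [Finset.sum_const, nsmul_eq_mul]
    gcongr
  have h3 : |(∑ a ∈ Finset.range (2 ^ g), ti a) / 2 ^ g|
      ≤ (∑ a ∈ gd Z y g, |ti a|) / 2 ^ g + 4 * Y * (Λ - 1 + 1 / 2 ^ k) := by
    rw [abs_div, abs_of_pos h2g, div_le_iff₀ h2g, add_mul, div_mul_cancel₀ _ h2g.ne']
    refine hsum.trans (le_of_eq ?_)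
    ring
  have h4 := mul_le_mul_of_nonneg_left h3 hξ
  rw [mul_add] at h4
  refine h4.trans ?_
  push_cast at h1
  have h5 : LZ R₀ C k k₀ J ψ g = lZ T R₀ (2 ^ g) ψ := rfl
  rw [h5]
  gcongr

/-- The initial generation, for fine fields. -/
theorem base_bound (d : ℕ) {R₀ C : ℝ} (hR : 0 < R₀) (hC : 0 < C) {ε₀ : ℝ} (hε₀ : 0 < ε₀) :
    ∃ C' : ℝ, 0 < C' ∧ ∀ (k k₀ J : ℕ) (Z : ℝ → Eu d) (Λ Y ρ ξ κ : ℝ) (y : Eu d) (ψ : Eu d → ℝ),
      Blk Z Λ y k → Ctl ψ Y ρ → Scl d k k₀ J ρ → k₀ < J → 0 ≤ ξ → 0 ≤ κ →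
      ξ * vs ^ k₀ ≤ κ → κ * 4 ^ k₀ ≤ 4 →
      ξ * |Ag (mkT R₀ C k k₀ J (J - k₀)) ψ (pt Z (mesh k₀ (J - k₀)) (J - k₀)) (J - k₀)|
        ≤ ε₀ * Jg Z (J - k₀)
          + C' * κ * (1 + LZ R₀ C k k₀ J ψ (J - k₀) / 2 ^ (J - k₀))
          + ξ * (2 * Y * (Λ - 1 + 1 / 2 ^ k)) := by
  obtain ⟨Q, hQ⟩ := exists_nat_ge (17 + 2 * R₀)
  obtain ⟨C', hC', hgen⟩ := base_ineq d hR hC Q hε₀
  refine ⟨C', hC', ?_⟩
  intro k k₀ J Z Λ Y ρ ξ κ y ψ hB hψ hS hJ hξ hκ hξκ hκ4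
  have hY := hψ.Y0
  have hkk := hS.kk
  have hJ2 := hS.J2
  have hk1 := hS.k1
  have hvs := vs_pos
  set g := J - k₀ with hg
  have hgJ : g ≤ J := by omega
  have hg3 : g + k₀ ≤ 3 * k := by omega
  set T := mkT R₀ C k k₀ J g with hT
  set p := pt Z (mesh k₀ g) g with hp
  have hok : ∀ a ∈ gd Z y g, T.l / 4 ≤ ‖emb T.s (p (a + 1)) - emb T.s (p a)‖ ∧
      ‖emb T.s (p a) - emb T.s (p (a + 1))‖ ≤ 4 * T.l := fun a ha => by
    have := hB.segOK (R₀ := R₀) (C := C) (J := J) (k₀ := k₀) ha hS.k0 hg3 hS.kd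
    exact ⟨this.len, this.m0⟩
  have h1 := hgen T (mkT_adm hgJ) ψ (2 ^ g) p (gd Z y g) (Jg Z g) (4 ^ k₀) ξ κ
    (by positivity) (gd_subset Z y g) hok
    (hB.sum_lF hQ hR hS.k0 hgJ hg3 hS.kd ψ)
    (sum_secD_le Z k₀ g) (Jg_nonneg Z g) hκ hξ (by positivity) (by
      have el : T.l = 2 ^ k₀ := by
        show (2 : ℝ) ^ J / 2 ^ g = _
        rw [div_eq_iff (by positivity), ← pow_add]
        congr 1; omega
      rw [el, sqrt_two_pow, inv_pow, one_div, inv_inv]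
      exact hξκ) hκ4
  set ti : ℕ → ℝ := fun a => lc ψ (avgT (2 * T.M) (emb T.s (p a)) (emb T.s (p (a + 1)))) with hti
  have hbadt : ∀ a ∈ Finset.range (2 ^ g) \ gd Z y g, |ti a| ≤ Y := by
    intro a ha
    have ha' := Finset.mem_range.1 (Finset.mem_sdiff.1 ha).1
    exact hψ.abs_avgT (2 * T.M) (hB.pt_ball hS (g := g) (a := a) ha'.le)
      (hB.pt_ball hS (g := g) (a := a + 1) ha')
  have hcard := hB.card_bad g
  have h2g : (0 : ℝ) < 2 ^ g := by positivity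
  have hsum : |∑ a ∈ Finset.range (2 ^ g), ti a|
      ≤ ∑ a ∈ gd Z y g, |ti a| + 2 * 2 ^ g * (Λ - 1 + 1 / 2 ^ k) * Y := by
    refine (Finset.abs_sum_le_sum_abs _ _).trans ?_
    rw [← Finset.sum_sdiff (gd_subset Z y g), add_comm]
    gcongr
    refine (Finset.sum_le_sum hbadt).trans ?_
    rw [Finset.sum_const, nsmul_eq_mul]
    gcongr
  have h3 : |Ag T ψ p g|
      ≤ (∑ a ∈ gd Z y g, |ti a|) / 2 ^ g + 2 * Y * (Λ - 1 + 1 / 2 ^ k) := by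
    unfold Ag
    rw [abs_div, abs_of_pos h2g, div_le_iff₀ h2g, add_mul, div_mul_cancel₀ _ h2g.ne']
    refine hsum.trans (le_of_eq ?_)
    ring
  have h4 := mul_le_mul_of_nonneg_left h3 hξ
  rw [mul_add] at h4
  refine h4.trans ?_
  push_cast at h1
  have h5 : LZ R₀ C k k₀ J ψ g = lZ T R₀ (2 ^ g) ψ := rfl
  rw [h5]
  gcongr

/-- The last generation. -/
lemma last_bound {R₀ C : ℝ} {k k₀ J : ℕ} {Z : ℝ → Eu d} {Λ Y ρ : ℝ} {y : Eu d} {ψ : Eu d → ℝ}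
    (hB : Blk Z Λ y k) (hZc : Continuous Z) (hψ : Ctl ψ Y ρ) (hS : Scl d k k₀ J ρ) :
    |(∫ τ in (0 : ℝ)..1, ψ ((2 ^ J : ℝ) • Z τ))
        - Ag (mkT R₀ C k k₀ J J) ψ (pt Z (mesh k₀ J) J) J|
      ≤ Y * (1 / 2 * √(Λ ^ 2 - ‖Z 1 - Z 0‖ ^ 2)) + Y * ((d + 1) * (1 / 2) ^ k₀) := by
  have hY := hψ.Y0
  have hL : (0 : ℝ) < 2 ^ J := by positivity
  have hΛ1 := hB.Λ1
  have hΛ2 := hB.Λ2
  set W : ℝ → Eu d := fun τ => (2 ^ J : ℝ) • Z τ with hW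
  have hWl : LipOn W (2 ^ J * Λ) 0 1 := by
    intro τ hτ τ' hτ'
    rw [hW]
    simp only
    rw [norm_two_smul_sub, mul_assoc]
    exact mul_le_mul_of_nonneg_left (hB.lip τ hτ τ' hτ') hL.le
  have hWm : ∀ τ ∈ Icc (0 : ℝ) 1, W τ ∈ Metric.closedBall (0 : Eu d) ρ := by
    intro τ hτ
    rw [mem_closedBall_zero_iff, hW]
    simp only
    rw [norm_smul, Real.norm_of_nonneg hL.le]
    refine le_trans ?_ hS.rho
    rw [mul_comm]
    gcongr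
    have := hB.bd τ hτ
    linarith
  have h1 := integral_sub_polyAvg hψ.cont (Z := W) (by rw [hW]; fun_prop) (Λ := 2 ^ J * Λ)
    (Lp := Y) (s := 1) (by positivity) hY hWl (S := Metric.closedBall (0 : Eu d) ρ)
    (convex_closedBall _ _) hWm
    (fun p hp q hq hpq => hψ.lip p q (by simpa using hp) (by simpa using hq) hpq) J (by
      rw [mul_div_assoc, mul_div_assoc']
      have : (2 : ℝ) ^ J * (Λ / 2 ^ J) = Λ := by field_simp
      rw [mul_div_assoc, this]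
      linarith)
  have e1 : √((2 ^ J * Λ) ^ 2 - ‖W 1 - W 0‖ ^ 2) / 2 ^ J = √(Λ ^ 2 - ‖Z 1 - Z 0‖ ^ 2) := by
    rw [hW]
    simp only
    rw [norm_two_smul_sub, mul_pow, mul_pow, ← mul_sub, Real.sqrt_mul (by positivity),
      Real.sqrt_sq hL.le]
    field_simp
  rw [e1] at h1
  -- comparison of the polygonal averages
  have es : (mkT R₀ C k k₀ J J).s = 2 ^ J * mesh k₀ J := rfl
  have es' : (2 : ℝ) ^ J * mesh k₀ J = (1 / 2) ^ k₀ := by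
    unfold mesh
    rw [pow_add, one_div_pow]
    field_simp
  have hMr : (((mkT R₀ C k k₀ J J).M : ℕ) : ℝ) = 8 * 2 ^ k₀ := by
    show ((2 ^ (J + k₀ + 3 - J) : ℕ) : ℝ) = _
    have : J + k₀ + 3 - J = 3 + k₀ := by omega
    rw [this]
    push_cast
    rw [pow_add]; norm_num
  have hM0 : 0 < (mkT R₀ C k k₀ J J).M := by
    have : (0 : ℝ) < (((mkT R₀ C k k₀ J J).M : ℕ) : ℝ) := by rw [hMr]; positivity
    exact_mod_cast this
  have hmesh := hS.mesh_le J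
  have hds : d * ((1 : ℝ) / 2) ^ k₀ ≤ 1 / 8 := by
    rw [← es']
    calc (d : ℝ) * (2 ^ J * mesh k₀ J) = 2 ^ J * (d * mesh k₀ J) := by ring
      _ ≤ 2 ^ J * (1 / 8 / 2 ^ J) := by gcongr
      _ = 1 / 8 := by field_simp
  have hterm : ∀ a ∈ Finset.range (2 ^ J), |segAvg ψ (zg W J a) (zg W J (a + 1))
      - lc ψ (avgT (2 * (mkT R₀ C k k₀ J J).M) (emb (mkT R₀ C k k₀ J J).s (pt Z (mesh k₀ J) J a))
        (emb (mkT R₀ C k k₀ J J).s (pt Z (mesh k₀ J) J (a + 1))))|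
      ≤ Y * ((d + 1) * (1 / 2) ^ k₀) := by
    intro a ha
    have ha' := Finset.mem_range.1 ha
    rw [es]
    have m1 := hB.pt_ball hS (g := J) (a := a) ha'.le
    have m2 := hB.pt_ball hS (g := J) (a := a + 1) ha'
    have m3 : ‖zg W J a‖ ≤ ρ := by
      have := hWm _ (dy_mem (g := J) (a := a) ha'.le)
      exact mem_closedBall_zero_iff.1 this
    have m4 : ‖zg W J (a + 1)‖ ≤ ρ := by
      have := hWm _ (dy_mem (g := J) (a := a + 1) ha')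
      exact mem_closedBall_zero_iff.1 this
    have r : ∀ b, ‖zg W J b - emb (2 ^ J * mesh k₀ J) (pt Z (mesh k₀ J) J b)‖
        ≤ d * (1 / 2) ^ k₀ := by
      intro b
      have r1 := norm_emb_pt (mesh_pos k₀ J) Z J b
      have : zg W J b = (2 ^ J : ℝ) • zg Z J b := rfl
      rw [this, emb_smul, norm_two_smul_sub, norm_sub_rev, ← es']
      calc (2 : ℝ) ^ J * ‖emb (mesh k₀ J) (pt Z (mesh k₀ J) J b) - zg Z J b‖
          ≤ 2 ^ J * (d * mesh k₀ J) := by gcongr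
        _ = _ := by ring
    have b1 := hψ.avg_sub (η := d * (1 / 2) ^ k₀) (by linarith) m1 m2 m3 m4 (r a) (r (a + 1))
    have hlen : ‖emb (2 ^ J * mesh k₀ J) (pt Z (mesh k₀ J) J (a + 1))
        - emb (2 ^ J * mesh k₀ J) (pt Z (mesh k₀ J) J a)‖ ≤ 3 := by
      have q1 := r a
      have q2 := r (a + 1)
      have q3 : ‖zg W J (a + 1) - zg W J a‖ ≤ 2 := by
        have := norm_D1_le hWl (g := J) (a := a) ha'
        unfold D1 at this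
        refine this.trans ?_
        rw [mul_div_assoc]
        have : (2 : ℝ) ^ J * (Λ / 2 ^ J) = Λ := by field_simp
        rw [this]; exact hΛ2
      have e : emb (2 ^ J * mesh k₀ J) (pt Z (mesh k₀ J) J (a + 1))
        - emb (2 ^ J * mesh k₀ J) (pt Z (mesh k₀ J) J a)
        = (zg W J (a + 1) - zg W J a)
          - (zg W J (a + 1) - emb (2 ^ J * mesh k₀ J) (pt Z (mesh k₀ J) J (a + 1)))
          + (zg W J a - emb (2 ^ J * mesh k₀ J) (pt Z (mesh k₀ J) J a)) := by abel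
      rw [e]
      refine (norm_add_le _ _).trans ?_
      have := norm_sub_le (zg W J (a + 1) - zg W J a)
        (zg W J (a + 1) - emb (2 ^ J * mesh k₀ J) (pt Z (mesh k₀ J) J (a + 1)))
      linarith
    have h1k : (1 : ℝ) ≤ 2 ^ k₀ := one_le_pow₀ (by norm_num)
    have b2 := hψ.riem (M := 2 * (mkT R₀ C k k₀ J J).M) (by omega) m1 m2 (hlen.trans (by
      push_cast; rw [hMr]; linarith))
    have b3 : ‖emb (2 ^ J * mesh k₀ J) (pt Z (mesh k₀ J) J (a + 1))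
        - emb (2 ^ J * mesh k₀ J) (pt Z (mesh k₀ J) J a)‖
        / ((2 * (mkT R₀ C k k₀ J J).M : ℕ) : ℝ) ≤ (1 / 2) ^ k₀ := by
      push_cast
      rw [hMr, div_le_iff₀ (by positivity), one_div_pow]
      refine hlen.trans ?_
      have : (1 : ℝ) / 2 ^ k₀ * (2 * (8 * 2 ^ k₀)) = 16 := by field_simp; norm_num
      rw [this]; norm_num
    have b4 : Y * (‖emb (2 ^ J * mesh k₀ J) (pt Z (mesh k₀ J) J (a + 1))
        - emb (2 ^ J * mesh k₀ J) (pt Z (mesh k₀ J) J a)‖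
        / ((2 * (mkT R₀ C k k₀ J J).M : ℕ) : ℝ)) ≤ Y * (1 / 2) ^ k₀ := by gcongr
    have e : segAvg ψ (zg W J a) (zg W J (a + 1))
      - lc ψ (avgT (2 * (mkT R₀ C k k₀ J J).M) (emb (2 ^ J * mesh k₀ J) (pt Z (mesh k₀ J) J a))
        (emb (2 ^ J * mesh k₀ J) (pt Z (mesh k₀ J) J (a + 1))))
      = (segAvg ψ (zg W J a) (zg W J (a + 1))
        - segAvg ψ (emb (2 ^ J * mesh k₀ J) (pt Z (mesh k₀ J) J a))
          (emb (2 ^ J * mesh k₀ J) (pt Z (mesh k₀ J) J (a + 1))))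
      + (segAvg ψ (emb (2 ^ J * mesh k₀ J) (pt Z (mesh k₀ J) J a))
          (emb (2 ^ J * mesh k₀ J) (pt Z (mesh k₀ J) J (a + 1)))
        - lc ψ (avgT (2 * (mkT R₀ C k k₀ J J).M) (emb (2 ^ J * mesh k₀ J) (pt Z (mesh k₀ J) J a))
        (emb (2 ^ J * mesh k₀ J) (pt Z (mesh k₀ J) J (a + 1))))) := by ring
    rw [e]
    refine (abs_add_le _ _).trans ?_
    have e2 : Y * ((d + 1) * (1 / 2) ^ k₀) = Y * (d * (1 / 2) ^ k₀) + Y * (1 / 2) ^ k₀ := by ring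
    rw [e2]
    exact add_le_add b1 (b2.trans b4)
  have h2 : |polyAvg ψ W J - Ag (mkT R₀ C k k₀ J J) ψ (pt Z (mesh k₀ J) J) J|
      ≤ Y * ((d + 1) * (1 / 2) ^ k₀) := by
    unfold polyAvg Ag
    rw [← sub_div, ← Finset.sum_sub_distrib, abs_div, abs_of_pos hL, div_le_iff₀ hL]
    refine (Finset.abs_sum_le_sum_abs _ _).trans ?_
    refine (Finset.sum_le_sum hterm).trans (le_of_eq ?_)
    rw [Finset.sum_const, Finset.card_range, nsmul_eq_mul]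
    push_cast
    ring
  have e2 : (∫ τ in (0 : ℝ)..1, ψ ((2 ^ J : ℝ) • Z τ))
      - Ag (mkT R₀ C k k₀ J J) ψ (pt Z (mesh k₀ J) J) J
      = ((∫ τ in (0 : ℝ)..1, ψ (W τ)) - polyAvg ψ W J)
        + (polyAvg ψ W J - Ag (mkT R₀ C k k₀ J J) ψ (pt Z (mesh k₀ J) J) J) := by
    rw [hW]; ring
  rw [e2]
  exact (abs_add_le _ _).trans (add_le_add h1 h2)

end Pool.Agent.Lib_MP_71c74a_pr
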