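import Mathlib

/-!
# Gaussian fields with smooth paths: laws and Fernique bounds
-/

open MeasureTheory ProbabilityTheory Set
open scoped ENNReal NNReal Topology

namespace Pool.Agent.Lib_MP_71c74a_pr

/-- Linear combination of the values of a function. -/
noncomputable abbrev lc {E V : Type*} [AddCommGroup V] [Module ℝ V] (G : E → V) (a : E →₀ ℝ) : V :=
  Finsupp.linearCombination ℝ G a

/-- `ψ` is a centred Gaussian field with continuously differentiable paths, whose covariance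
is given by the Hilbert space valued function `G`. -/
structure FieldLaw {Ω E H : Type*} [MeasurableSpace Ω] [NormedAddCommGroup E] [NormedSpace ℝ E]
    [NormedAddCommGroup H] [InnerProductSpace ℝ H] (P : Measure Ω) (G : E → H) (ψ : E → Ω → ℝ) :
    Prop where
  meas : ∀ x, Measurable (ψ x)
  smooth : ∀ ω, ContDiff ℝ 1 (fun x => ψ x ω)
  gauss : ∀ a : E →₀ ℝ, P.map (fun ω => lc (fun x => ψ x ω) a) = gaussianReal 0 (‖lc G a‖₊ ^ 2)

section Fernique

open ProbabilityTheory.Fernique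

/-- The constant in the uniform Fernique bound. -/
noncomputable def ferE : ℝ := logRatio (3 / 4)

/-- The bound in the uniform Fernique bound. -/
noncomputable def ferK : ℝ≥0∞ := .ofReal (Real.exp (logRatio (3 / 4)))
        + ∑' n : ℕ, .ofReal (Real.exp (-2⁻¹ * Real.log ((3 / 4 : ℝ≥0∞) / (1 - 3 / 4)).toReal * 2 ^ n))

lemma three_quarters_lt : (3 / 4 : ℝ≥0∞) < 1 := by
  rw [ENNReal.div_lt_iff (by simp) (by simp)]
  norm_num

lemma half_lt_three_quarters : (2⁻¹ : ℝ≥0∞) < 3 / 4 := by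
  rw [inv_eq_one_div, ENNReal.div_lt_iff (by simp) (by simp)]
  rw [← ENNReal.toReal_lt_toReal (by simp) (by finiteness)]
  simp
  norm_num

lemma ferE_pos : 0 < ferE := logRatio_pos half_lt_three_quarters three_quarters_lt

lemma ferK_ne_top : ferK ≠ ∞ := by
  have hc_lt := three_quarters_lt
  have h1 : (1 : ℝ≥0∞) - 3 / 4 < ∞ := lt_top_of_lt (b := 2) (tsub_le_self.trans_lt (by simp))
  have h2 : (1 : ℝ≥0∞) - 3 / 4 < 3 / 4 := by
    refine ENNReal.sub_lt_of_lt_add hc_lt.le ?_
    rw [← two_mul]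
    have := half_lt_three_quarters
    rwa [inv_eq_one_div, ENNReal.div_lt_iff (by simp) (by simp), mul_comm] at this
  unfold ferK
  refine (ENNReal.add_lt_top.mpr ⟨ENNReal.ofReal_lt_top, ?_⟩).ne
  refine Summable.tsum_ofReal_lt_top <|
    Real.summable_exp_nat_mul_of_ge ?_ (fun i ↦ mod_cast (Nat.lt_pow_self (by simp)).le)
  refine mul_neg_of_neg_of_pos (by simp) (Real.log_pos ?_)
  simp only [ENNReal.toReal_div, one_lt_div_iff, ENNReal.toReal_pos_iff, tsub_pos_iff_lt, hc_lt,
    h1, and_self, true_and]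
  have h3 : ((1 : ℝ≥0∞) - 3 / 4).toReal < (3 / 4 : ℝ≥0∞).toReal := by
    rw [ENNReal.toReal_lt_toReal h1.ne (hc_lt.trans (by simp)).ne]
    exact h2
  left
  simpa [ENNReal.toReal_div] using h3

lemma fernique_uniform {V : Type*} [NormedAddCommGroup V] [NormedSpace ℝ V]
    [CompleteSpace V] [SecondCountableTopology V] [MeasurableSpace V] [BorelSpace V]
    (μ : Measure V) [IsGaussian μ] (hμ : ∀ L : StrongDual ℝ V, μ[L] = 0) {a : ℝ}
    (ha : 3 / 4 ≤ μ {x | ‖x‖ ≤ a}) :
    ∫⁻ x, .ofReal (Real.exp (ferE * a⁻¹ ^ 2 * ‖x‖ ^ 2)) ∂μ ≤ ferK := by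
  exact lintegral_exp_mul_sq_norm_le_of_map_rotation_eq_self
    (IsGaussian.map_rotation_eq_self_of_forall_strongDual_eq_zero hμ _) ha half_lt_three_quarters

end Fernique

section Law

variable {Ω Ω' E H : Type*} [MeasurableSpace Ω] [MeasurableSpace Ω'] [NormedAddCommGroup E]
  [NormedSpace ℝ E] [NormedAddCommGroup H] [InnerProductSpace ℝ H] {P : Measure Ω}
  {P' : Measure Ω'} {G : E → H} {ψ : E → Ω → ℝ} {ψ' : E → Ω' → ℝ}

lemma lc_eq_sum (u : E → ℝ) (a : E →₀ ℝ) : lc u a = ∑ x ∈ a.support, a x * u x := by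
  simp [lc, Finsupp.linearCombination_apply, Finsupp.sum]

lemma FieldLaw.measurable_lc (h : FieldLaw P G ψ) (a : E →₀ ℝ) :
    Measurable (fun ω => lc (fun x => ψ x ω) a) := by
  simp only [lc_eq_sum]
  exact Finset.measurable_sum _ fun x _ => (h.meas x).const_mul _

end Law

end Pool.Agent.Lib_MP_71c74a_pr
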