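import Pool.Agent.Lib_MP_71c74a_pr.FieldBase

/-!
# The initial generation, for coarse fields
-/

open MeasureTheory ProbabilityTheory Set
open scoped ENNReal NNReal Topology

namespace Pool.Agent.Lib_MP_71c74a_pr

variable {d : ℕ}

/-- The initial generation, for coarse fields. -/
theorem init_bound (d : ℕ) {R₀ C : ℝ} (hR : 0 < R₀) (hC : 0 < C) :
    ∃ C' : ℝ, 0 < C' ∧ ∀ (k k₀ J : ℕ) (Z : ℝ → Eu d) (Λ Y ρ ξ κ : ℝ) (y : Eu d) (ψ : Eu d → ℝ),
      Blk Z Λ y k → Ctl ψ Y ρ → Scl d k k₀ J ρ → J ≤ k₀ → 0 ≤ ξ → 0 ≤ κ →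
      ξ * vs ^ k₀ ≤ κ →
      ξ * |Ag (mkT R₀ C k k₀ J 0) ψ (pt Z (mesh k₀ 0) 0) 0
          - segAvg ψ ((2 ^ J : ℝ) • Z 0) ((2 ^ J : ℝ) • y)|
        ≤ C' * κ * vs ^ (0 + k₀ - J) * (1 + LZ R₀ C k k₀ J ψ 0 / 2 ^ 0)
          + ξ * (Y * ((d + 3) * (1 / 2) ^ k₀)) := by
  set Cs : ℝ := 64 * (R₀ + 1) * C with hCs
  have hCs0 : 0 < Cs := by positivity
  set θ : ℝ := ferE / 4 with hθ
  have hθ0 : 0 < θ := by have := ferE_pos; positivity
  refine ⟨Cs * (2 * d + 1) * (1 + 1 / θ), by positivity, ?_⟩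
  intro k k₀ J Z Λ Y ρ ξ κ y ψ hB hψ hS hJ hξ hκ hξκ
  have hY := hψ.Y0
  have hkk := hS.kk
  have hk1 := hS.k1
  have hvs := vs_pos
  have hL : (0 : ℝ) < 2 ^ J := by positivity
  have hΛ1 := hB.Λ1
  have hΛ2 := hB.Λ2
  have hd0 : (0 : ℝ) ≤ d := Nat.cast_nonneg d
  set T := mkT R₀ C k k₀ J 0 with hT
  have hTa : T.Adm R₀ C := mkT_adm (Nat.zero_le _)
  set μ : ℝ := mesh k₀ 0 with hμdef
  have hμ : 0 < μ := mesh_pos k₀ 0
  have hμe : μ = 1 / 2 ^ k₀ := by rw [hμdef]; unfold mesh; rw [zero_add]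
  set μ' : ℝ := 1 / 2 ^ (3 * k) with hμ'def
  have hμ' : 0 < μ' := by positivity
  have hμμ : μ' ≤ μ := by
    rw [hμe, hμ'def]
    apply one_div_le_one_div_of_le (by positivity)
    exact pow_le_pow_right₀ (by norm_num) (by omega)
  have hdμ : d * μ ≤ 1 / 8 := by
    have := hS.mesh_le 0
    rwa [pow_zero, div_one] at this
  have hdμ' : d * μ' ≤ 1 / 8 := le_trans (by gcongr) hdμ
  -- points
  set p := pt Z μ 0 0 with hp
  set q := pt Z μ 0 1 with hq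
  set p' := rd μ' (Z 0) with hp'
  set q' := rd μ' (Z 1) with hq'
  have ez0 : zg Z 0 0 = Z 0 := by unfold zg; simp
  have ez1 : zg Z 0 1 = Z 1 := by unfold zg; simp
  have rp : ‖emb μ p - Z 0‖ ≤ d * μ := by
    have := norm_emb_pt hμ Z 0 0; rwa [ez0] at this
  have rq : ‖emb μ q - Z 1‖ ≤ d * μ := by
    have := norm_emb_pt hμ Z 0 1; rwa [ez1] at this
  have rp' : ‖emb μ' p' - Z 0‖ ≤ d * μ' := norm_emb_rd hμ' _
  have rq' : ‖emb μ' q' - Z 1‖ ≤ d * μ' := norm_emb_rd hμ' _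
  have b0 : ‖Z 0‖ ≤ 4 := hB.bd 0 (by simp)
  have b1 : ‖Z 1‖ ≤ 4 := hB.bd 1 (by simp)
  have z01 : ‖Z 1 - Z 0‖ ≤ 2 := by
    have := hB.lip 1 (by simp) 0 (by simp)
    rw [sub_zero, abs_one, mul_one] at this
    linarith
  have hk2 : (1 : ℝ) / 2 ^ k ≤ 1 / 16 := by
    apply one_div_le_one_div_of_le (by norm_num)
    have := hS.kd
    linarith
  have z01' : 1 / 2 ≤ ‖Z 1 - Z 0‖ := by
    have h1 := hB.dist
    have h2 := hB.close
    have e : y - Z 0 = (Z 1 - Z 0) - (Z 1 - y) := by abel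
    have h3 := norm_sub_le (Z 1 - Z 0) (Z 1 - y)
    rw [← e, h1] at h3
    linarith
  -- distances between the points, in block units
  have dqp : 1 / 4 ≤ ‖emb μ q - emb μ p‖ := by
    have e : Z 1 - Z 0 = (emb μ q - emb μ p) - (emb μ q - Z 1) + (emb μ p - Z 0) := by abel
    have h3 := norm_add_le ((emb μ q - emb μ p) - (emb μ q - Z 1)) (emb μ p - Z 0)
    have h4 := norm_sub_le (emb μ q - emb μ p) (emb μ q - Z 1)
    rw [← e] at h3
    linarith
  have dpq : ‖emb μ p - emb μ q‖ ≤ 4 := by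
    have e : emb μ p - emb μ q = (emb μ p - Z 0) - (emb μ q - Z 1) - (Z 1 - Z 0) := by abel
    rw [e]
    have h3 := norm_sub_le ((emb μ p - Z 0) - (emb μ q - Z 1)) (Z 1 - Z 0)
    have h4 := norm_sub_le (emb μ p - Z 0) (emb μ q - Z 1)
    linarith
  have dp'q : ‖emb μ' p' - emb μ q‖ ≤ 4 := by
    have e : emb μ' p' - emb μ q = (emb μ' p' - Z 0) - (emb μ q - Z 1) - (Z 1 - Z 0) := by abel
    rw [e]
    have h3 := norm_sub_le ((emb μ' p' - Z 0) - (emb μ q - Z 1)) (Z 1 - Z 0)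
    have h4 := norm_sub_le (emb μ' p' - Z 0) (emb μ q - Z 1)
    linarith
  have dq'q : ‖emb μ' q' - emb μ q‖ ≤ 4 := by
    have e : emb μ' q' - emb μ q = (emb μ' q' - Z 1) - (emb μ q - Z 1) := by abel
    rw [e]
    have h4 := norm_sub_le (emb μ' q' - Z 1) (emb μ q - Z 1)
    linarith
  have dp'p : ‖emb μ' p' - emb μ p‖ ≤ 2 * d * μ := by
    have e : emb μ' p' - emb μ p = (emb μ' p' - Z 0) - (emb μ p - Z 0) := by abel
    rw [e]
    have h4 := norm_sub_le (emb μ' p' - Z 0) (emb μ p - Z 0)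
    have : d * μ' ≤ d * μ := by gcongr
    linarith
  have dq'q2 : ‖emb μ' q' - emb μ q‖ ≤ 2 * d * μ := by
    have e : emb μ' q' - emb μ q = (emb μ' q' - Z 1) - (emb μ q - Z 1) := by abel
    rw [e]
    have h4 := norm_sub_le (emb μ' q' - Z 1) (emb μ q - Z 1)
    have : d * μ' ≤ d * μ := by gcongr
    linarith
  have dp'q' : ‖emb μ' q' - emb μ' p'‖ ≤ 3 := by
    have e : emb μ' q' - emb μ' p' = (emb μ' q' - Z 1) - (emb μ' p' - Z 0) + (Z 1 - Z 0) := by abel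
    rw [e]
    have h3 := norm_add_le ((emb μ' q' - Z 1) - (emb μ' p' - Z 0)) (Z 1 - Z 0)
    have h4 := norm_sub_le (emb μ' q' - Z 1) (emb μ' p' - Z 0)
    linarith
  -- parameters
  have es : T.s = 2 ^ J * μ := rfl
  have esf : T.sf = 2 ^ J * μ' := rfl
  have el : T.l = 2 ^ J := by
    show (2 : ℝ) ^ J / 2 ^ 0 = _
    rw [pow_zero, div_one]
  have hMr : ((T.M : ℕ) : ℝ) = 8 * (2 ^ J * 2 ^ k₀) := by
    show ((2 ^ (J + k₀ + 3 - 0) : ℕ) : ℝ) = _
    push_cast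
    rw [pow_add, pow_add]; ring
  have hM0 : 0 < T.M := by
    have : (0 : ℝ) < ((T.M : ℕ) : ℝ) := by rw [hMr]; positivity
    exact_mod_cast this
  clear_value Cs θ
  -- membership in the box
  have hbox : ∀ (m : ℝ) (z : Eu d), 0 < m → 1 / 2 ^ (3 * k) ≤ m → m ≤ 1 → ‖z‖ ≤ 4 →
      rd m z ∈ box d (2 ^ (4 * k)) := by
    intro m z hm hm2 hm1 hz
    refine mem_box_of_le ?_ hS.kd
    have r := norm_emb_rd hm z
    have h1 : ‖emb m (rd m z)‖ ≤ 4 + d := by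
      have e : emb m (rd m z) = (emb m (rd m z) - z) + z := by abel
      rw [e]
      have := norm_add_le (emb m (rd m z) - z) z
      have : (d : ℝ) * m ≤ d * 1 := by gcongr
      linarith
    rw [norm_emb_one hm, div_le_iff₀ hm]
    refine h1.trans ?_
    have h2 : (4 + (d : ℝ)) ≤ (4 + d) * 2 ^ (3 * k) * m := by
      have : (1 : ℝ) ≤ 2 ^ (3 * k) * m := by
        calc (1 : ℝ) = 2 ^ (3 * k) * (1 / 2 ^ (3 * k)) := by field_simp
          _ ≤ _ := by gcongr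
      calc (4 + (d : ℝ)) = (4 + d) * 1 := (mul_one _).symm
        _ ≤ (4 + d) * (2 ^ (3 * k) * m) := mul_le_mul_of_nonneg_left this (by positivity)
        _ = (4 + d) * 2 ^ (3 * k) * m := (mul_assoc _ _ _).symm
    have h3 : 0 ≤ (4 + (d : ℝ)) * 2 ^ (3 * k) * m := by positivity
    linarith
  have hμ1 : μ ≤ 1 := by
    rw [hμe, div_le_one (by positivity)]; exact one_le_pow₀ (by norm_num)
  have eB : T.B = 2 ^ (4 * k) := rfl
  have hv := in_le_lZ T R₀ (2 ^ 0) ψ (p := p) (q := q) (p' := p') (q' := q')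
    (by rw [eB]; exact hbox μ _ hμ hμμ hμ1 (by rw [ez0]; exact b0))
    (by rw [eB]; exact hbox μ _ hμ hμμ hμ1 (by rw [ez1]; exact b1))
    (by rw [eB]; exact hbox μ' _ hμ' le_rfl (hμμ.trans hμ1) b0)
    (by rw [eB]; exact hbox μ' _ hμ' le_rfl (hμμ.trans hμ1) b1)
  -- the difference test
  have hscale : T.s / √T.l = vs ^ k₀ * vs ^ (0 + k₀ - J) :=
    mkT_scale (R₀ := R₀) (C := C) (k := k) (Nat.zero_le _) (by omega)
  have hdf := abs_dfT_le (Cs := T.Cs) (l := T.l) (e := T.s) (M := 2 * T.M) (O := emb T.s q)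
    (x := emb T.s p) (y := emb T.s q) (x' := emb T.sf p') (y' := emb T.sf q')
    (by rw [hTa.eCs]; positivity) (by rw [el]; positivity) hTa.s0
    (by rw [es, el, emb_smul, emb_smul, norm_two_smul_sub]
        linarith only [hL, mul_le_mul_of_nonneg_left dqp hL.le])
    (by rw [es, el, emb_smul, emb_smul, norm_two_smul_sub, mul_comm]
        gcongr)
    (by rw [sub_self, norm_zero, el]; positivity)
    (by rw [es, esf, el, emb_smul, emb_smul, norm_two_smul_sub, mul_comm]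
        gcongr)
    (by rw [es, esf, el, emb_smul, emb_smul, norm_two_smul_sub, mul_comm]
        gcongr)
    ψ (D := (2 * d + 1) * T.s) (by
      rw [es, esf, emb_smul, emb_smul, emb_smul, emb_smul, norm_two_smul_sub, norm_two_smul_sub]
      have g1 : (2 : ℝ) ^ J * ‖emb μ' p' - emb μ p‖ ≤ 2 ^ J * (2 * d * μ) := by gcongr
      have g2 : (2 : ℝ) ^ J * ‖emb μ' q' - emb μ q‖ ≤ 2 ^ J * (2 * d * μ) := by gcongr
      have := max_le g1 g2
      linarith)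
  set v := lc ψ (nT T.Cs T.l T.s (2 * T.M) (emb T.s q) (emb T.s p) (emb T.s q)
      (emb T.sf p') (emb T.sf q')) with hvdef
  have hLZ : lZ T R₀ (2 ^ 0) ψ = LZ R₀ C k k₀ J ψ 0 := rfl
  rw [hLZ, hTa.eε, ← hθ] at hv
  have hLZ0 := LZ_nonneg R₀ C k k₀ J ψ 0
  set X := LZ R₀ C k k₀ J ψ 0 with hX
  have hv2 : |v| ≤ (1 + 1 / θ) * (1 + X) := by
    have g1 : v ^ 2 ≤ X / θ := by rw [le_div_iff₀ hθ0]; linarith
    have g2 : |v| ≤ 1 + v ^ 2 := by
      rw [← sq_abs v]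
      nlinarith only [sq_nonneg (|v| - 1), abs_nonneg v]
    have g3 : (1 + 1 / θ) * (1 + X) = 1 + X / θ + (1 / θ + X) := by ring
    have g4 : 0 ≤ 1 / θ + X := by positivity
    rw [g3]; linarith
  -- first part
  have c1 : ξ * |lc ψ (dfT (2 * T.M) (emb T.s p) (emb T.s q) (emb T.sf p') (emb T.sf q'))|
      ≤ Cs * (2 * d + 1) * (1 + 1 / θ) * κ * vs ^ (0 + k₀ - J) * (1 + X) := by
    calc ξ * |lc ψ (dfT (2 * T.M) (emb T.s p) (emb T.s q) (emb T.sf p') (emb T.sf q'))|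
        ≤ ξ * (T.Cs * ((2 * d + 1) * T.s) / √T.l * |v|) := by gcongr
      _ = (ξ * (T.s / √T.l)) * (Cs * (2 * d + 1) * |v|) := by rw [hTa.eCs, ← hCs]; ring
      _ = (ξ * vs ^ k₀) * vs ^ (0 + k₀ - J) * (Cs * (2 * d + 1) * |v|) := by rw [hscale]; ring
      _ ≤ κ * vs ^ (0 + k₀ - J) * (Cs * (2 * d + 1) * ((1 + 1 / θ) * (1 + X))) := by
          gcongr
      _ = _ := by ring
  -- second part: the finest mesh and the exact segment
  have hρ := hS.rho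
  have m1 : ‖emb T.sf p'‖ ≤ ρ := by
    rw [esf, emb_smul, norm_smul, Real.norm_of_nonneg hL.le]
    refine le_trans ?_ hρ
    rw [mul_comm]
    gcongr
    have e : emb μ' p' = (emb μ' p' - Z 0) + Z 0 := by abel
    rw [e]
    have := norm_add_le (emb μ' p' - Z 0) (Z 0)
    linarith
  have m2 : ‖emb T.sf q'‖ ≤ ρ := by
    rw [esf, emb_smul, norm_smul, Real.norm_of_nonneg hL.le]
    refine le_trans ?_ hρ
    rw [mul_comm]
    gcongr
    have e : emb μ' q' = (emb μ' q' - Z 1) + Z 1 := by abel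
    rw [e]
    have := norm_add_le (emb μ' q' - Z 1) (Z 1)
    linarith
  have m3 : ‖(2 ^ J : ℝ) • Z 0‖ ≤ ρ := by
    rw [norm_smul, Real.norm_of_nonneg hL.le]
    refine le_trans ?_ hρ
    rw [mul_comm]
    gcongr
    linarith
  have m4 : ‖(2 ^ J : ℝ) • y‖ ≤ ρ := by
    rw [norm_smul, Real.norm_of_nonneg hL.le]
    refine le_trans ?_ hρ
    rw [mul_comm]
    gcongr
    have e : y = (y - Z 0) + Z 0 := by abel
    rw [e]
    have := norm_add_le (y - Z 0) (Z 0)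
    have := hB.dist
    linarith
  have h1k : (1 : ℝ) ≤ 2 ^ k₀ := one_le_pow₀ (by norm_num)
  have hJk : (2 : ℝ) ^ J ≤ 2 ^ k₀ := pow_le_pow_right₀ (by norm_num) hJ
  have hlen : ‖emb T.sf q' - emb T.sf p'‖ ≤ 2 ^ J * 3 := by
    rw [esf, emb_smul, emb_smul, norm_two_smul_sub]
    gcongr
  have s1 : |segAvg ψ (emb T.sf p') (emb T.sf q')
      - lc ψ (avgT (2 * T.M) (emb T.sf p') (emb T.sf q'))| ≤ Y * (1 / 2) ^ k₀ := by
    refine (hψ.riem (M := 2 * T.M) (by omega) m1 m2 (hlen.trans ?_)).trans ?_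
    · push_cast
      rw [hMr]
      have : (2 : ℝ) ^ J * 1 ≤ 2 ^ J * 2 ^ k₀ := by gcongr
      linarith
    · apply mul_le_mul_of_nonneg_left _ hY
      push_cast
      rw [hMr, div_le_iff₀ (by positivity), one_div_pow]
      refine hlen.trans ?_
      have : (1 : ℝ) / 2 ^ k₀ * (2 * (8 * (2 ^ J * 2 ^ k₀))) = 2 ^ J * 16 := by
        field_simp; norm_num
      rw [this]
      gcongr
      norm_num
  -- size of the displacement from the finest mesh
  have hk4 : (2 : ℝ) ^ J / 2 ^ k ≤ (1 / 2) ^ k₀ := by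
    rw [one_div_pow, div_le_div_iff₀ (by positivity) (by positivity), one_mul, ← pow_add]
    exact pow_le_pow_right₀ (by norm_num) (by omega)
  have hk5 : (2 : ℝ) ^ J * (d * μ') ≤ d * (1 / 2) ^ k₀ := by
    have : (2 : ℝ) ^ J * μ' ≤ (1 / 2) ^ k₀ := by
      refine le_trans ?_ hk4
      rw [hμ'def, mul_one_div]
      apply div_le_div_of_nonneg_left hL.le (by positivity)
      exact pow_le_pow_right₀ (by norm_num) (by omega)
    calc (2 : ℝ) ^ J * (d * μ') = d * (2 ^ J * μ') := by ring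
      _ ≤ _ := by gcongr
  have hhk : ((1 : ℝ) / 2) ^ k₀ ≤ 1 / 2 := by
    calc ((1 : ℝ) / 2) ^ k₀ ≤ (1 / 2) ^ 1 :=
          pow_le_pow_of_le_one (by norm_num) (by norm_num) hk1
      _ = 1 / 2 := pow_one _
  have hdk : d * ((1 : ℝ) / 2) ^ k₀ ≤ 1 / 8 := by
    have e : ((1 : ℝ) / 2) ^ k₀ = μ := by rw [hμe, one_div_pow]
    rw [e]; exact hdμ
  have s2 : |segAvg ψ (emb T.sf p') (emb T.sf q')
      - segAvg ψ ((2 ^ J : ℝ) • Z 0) ((2 ^ J : ℝ) • y)| ≤ Y * ((d + 1) * (1 / 2) ^ k₀) := by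
    refine hψ.avg_sub (by linarith) m3 m4 m1 m2 ?_ ?_
    · rw [esf, emb_smul, norm_two_smul_sub]
      calc (2 : ℝ) ^ J * ‖emb μ' p' - Z 0‖ ≤ 2 ^ J * (d * μ') := by gcongr
        _ ≤ d * (1 / 2) ^ k₀ := hk5
        _ ≤ (d + 1) * (1 / 2) ^ k₀ := by gcongr; linarith
    · rw [esf, emb_smul, norm_two_smul_sub]
      have e : emb μ' q' - y = (emb μ' q' - Z 1) + (Z 1 - y) := by abel
      calc (2 : ℝ) ^ J * ‖emb μ' q' - y‖ ≤ 2 ^ J * (d * μ' + 1 / 2 ^ k) := by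
            gcongr
            rw [e]
            exact (norm_add_le _ _).trans (add_le_add rq' hB.close)
        _ = 2 ^ J * (d * μ') + 2 ^ J / 2 ^ k := by ring
        _ ≤ d * (1 / 2) ^ k₀ + (1 / 2) ^ k₀ := add_le_add hk5 hk4
        _ = _ := by ring
  -- conclusion
  have eA : Ag T ψ (pt Z μ 0) 0 = lc ψ (avgT (2 * T.M) (emb T.s p) (emb T.s q)) := by
    unfold Ag
    rw [pow_zero, pow_zero, Finset.sum_range_one, div_one]
  rw [eA]
  have e : lc ψ (avgT (2 * T.M) (emb T.s p) (emb T.s q))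
      - segAvg ψ ((2 ^ J : ℝ) • Z 0) ((2 ^ J : ℝ) • y)
      = -lc ψ (dfT (2 * T.M) (emb T.s p) (emb T.s q) (emb T.sf p') (emb T.sf q'))
        + (-(segAvg ψ (emb T.sf p') (emb T.sf q')
          - lc ψ (avgT (2 * T.M) (emb T.sf p') (emb T.sf q')))
          + (segAvg ψ (emb T.sf p') (emb T.sf q')
      - segAvg ψ ((2 ^ J : ℝ) • Z 0) ((2 ^ J : ℝ) • y))) := by
    simp only [dfT, lc, map_sub]
    ring
  rw [e]
  have t1 : |-(segAvg ψ (emb T.sf p') (emb T.sf q')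
          - lc ψ (avgT (2 * T.M) (emb T.sf p') (emb T.sf q')))
          + (segAvg ψ (emb T.sf p') (emb T.sf q')
      - segAvg ψ ((2 ^ J : ℝ) • Z 0) ((2 ^ J : ℝ) • y))| ≤ Y * ((d + 3) * (1 / 2) ^ k₀) := by
    refine (abs_add_le _ _).trans ?_
    rw [abs_neg]
    have e3 : Y * ((d + 3) * (1 / 2) ^ k₀) = Y * (1 / 2) ^ k₀ + Y * ((d + 1) * (1 / 2) ^ k₀)
        + Y * (1 / 2) ^ k₀ := by ring
    rw [e3]
    have : 0 ≤ Y * (1 / 2) ^ k₀ := by positivity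
    linarith
  calc ξ * |-lc ψ (dfT (2 * T.M) (emb T.s p) (emb T.s q) (emb T.sf p') (emb T.sf q'))
        + (-(segAvg ψ (emb T.sf p') (emb T.sf q')
          - lc ψ (avgT (2 * T.M) (emb T.sf p') (emb T.sf q')))
          + (segAvg ψ (emb T.sf p') (emb T.sf q')
      - segAvg ψ ((2 ^ J : ℝ) • Z 0) ((2 ^ J : ℝ) • y)))|
      ≤ ξ * (|lc ψ (dfT (2 * T.M) (emb T.s p) (emb T.s q) (emb T.sf p') (emb T.sf q'))|
        + Y * ((d + 3) * (1 / 2) ^ k₀)) := by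
        gcongr
        refine (abs_add_le _ _).trans ?_
        rw [abs_neg]
        exact add_le_add le_rfl t1
    _ = ξ * |lc ψ (dfT (2 * T.M) (emb T.s p) (emb T.s q) (emb T.sf p') (emb T.sf q'))|
        + ξ * (Y * ((d + 3) * (1 / 2) ^ k₀)) := by ring
    _ ≤ _ := by
        rw [pow_zero, div_one]
        exact add_le_add c1 le_rfl

end Pool.Agent.Lib_MP_71c74a_pr
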