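import Pool.Agent.Lib_MP_71c74a_pr.FieldBound
import Pool.Agent.Lib_MP_71c74a_pr.InitBound

/-!
# The sharp estimate for one field in one block: conclusion
-/

open MeasureTheory ProbabilityTheory Set
open scoped ENNReal NNReal Topology

namespace Pool.Agent.Lib_MP_71c74a_pr

variable {d : ℕ}

/-- **One field in one block.** -/
theorem field_total (d : ℕ) {R₀ C : ℝ} (hR : 0 < R₀) (hC : 0 < C) {ε₀ : ℝ} (hε₀ : 0 < ε₀) :
    ∃ C' : ℝ, 0 < C' ∧ ∀ (k k₀ J : ℕ) (Z : ℝ → Eu d) (Λ Y ρ ξ κ : ℝ) (y : Eu d) (ψ : Eu d → ℝ),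
      Blk Z Λ y k → Continuous Z → Ctl ψ Y ρ → Scl d k k₀ J ρ → 0 ≤ ξ → 0 ≤ κ →
      ξ * vs ^ k₀ ≤ κ → κ * 4 ^ k₀ ≤ 4 →
      ξ * |(∫ τ in (0 : ℝ)..1, ψ ((2 ^ J : ℝ) • Z τ))
          - refv k₀ J ψ ((2 ^ J : ℝ) • Z 0) ((2 ^ J : ℝ) • y)|
        ≤ ∑ g ∈ Finset.Ico (J - k₀) J, (2 * ε₀ * vs ^ (g + k₀ - J) * (eg Z g + Jg Z g)
            + C' * κ * vs ^ (g + k₀ - J) * (1 + LZ R₀ C k k₀ J ψ g / 2 ^ g))
          + ξ * ((4 * k₀ + 2) * Y * (Λ - 1 + 1 / 2 ^ k))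
          + ξ * (Y * (1 / 2 * √(Λ ^ 2 - ‖Z 1 - Z 0‖ ^ 2)))
          + ξ * (Y * ((2 * d + 4) * (1 / 2) ^ k₀)) := by
  obtain ⟨C₁, hC₁, hgen⟩ := gen_bound d hR hC hε₀
  obtain ⟨C₂, hC₂, hbase⟩ := base_bound d hR hC hε₀
  obtain ⟨C₃, hC₃, hinit⟩ := init_bound d hR hC
  refine ⟨C₁ + C₂ + C₃, by positivity, ?_⟩
  intro k k₀ J Z Λ Y ρ ξ κ y ψ hB hZc hψ hS hξ hκ hξκ hκ4
  have hY := hψ.Y0
  have hkk := hS.kk
  have hJ1 := hS.J1
  have hJ2 := hS.J2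
  have hk1 := hS.k1
  have hvs := vs_pos
  have hΛ1 := hB.Λ1
  have h2k : (0 : ℝ) < 1 / 2 ^ k := by positivity
  set A : ℕ → ℝ := fun g => Ag (mkT R₀ C k k₀ J g) ψ (pt Z (mesh k₀ g) g) g with hA
  set G := J - k₀ with hG
  have hGJ : G < J := by omega
  set X : ℕ → ℝ := fun g => vs ^ (g + k₀ - J) * (1 + LZ R₀ C k k₀ J ψ g / 2 ^ g) with hX
  have hX0 : ∀ g, 0 ≤ X g := fun g => by
    have := LZ_nonneg R₀ C k k₀ J ψ g
    rw [hX]; positivity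
  set V : ℕ → ℝ := fun g => vs ^ (g + k₀ - J) * (eg Z g + Jg Z g) with hV
  have hV0 : ∀ g, 0 ≤ V g := fun g => by
    have := eg_nonneg Z g
    have := Jg_nonneg Z g
    rw [hV]; positivity
  -- last generation
  have hlast := last_bound (R₀ := R₀) (C := C) hB hZc hψ hS
  -- increments
  have htel : A J - A G = ∑ g ∈ Finset.Ico G J, (A (g + 1) - A g) :=
    (Finset.sum_Ico_sub A hGJ.le).symm
  have hinc : ξ * |A J - A G| ≤ ∑ g ∈ Finset.Ico G J, (ε₀ * V g + C₁ * κ * X g)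
      + ξ * (4 * k₀ * Y * (Λ - 1 + 1 / 2 ^ k)) := by
    rw [htel]
    calc ξ * |∑ g ∈ Finset.Ico G J, (A (g + 1) - A g)|
        ≤ ξ * ∑ g ∈ Finset.Ico G J, |A (g + 1) - A g| := by
          gcongr; exact Finset.abs_sum_le_sum_abs _ _
      _ = ∑ g ∈ Finset.Ico G J, ξ * |A (g + 1) - A g| := by rw [Finset.mul_sum]
      _ ≤ ∑ g ∈ Finset.Ico G J, ((ε₀ * V g + C₁ * κ * X g)
          + ξ * (4 * Y * (Λ - 1 + 1 / 2 ^ k))) := by
          refine Finset.sum_le_sum fun g hg => ?_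
          rw [Finset.mem_Ico] at hg
          refine (hgen k k₀ J g Z Λ Y ρ ξ κ y ψ hB hψ hS hg.2 (by omega) hξ hκ hξκ hκ4).trans
            (le_of_eq ?_)
          rw [hV, hX]; ring
      _ = ∑ g ∈ Finset.Ico G J, (ε₀ * V g + C₁ * κ * X g)
          + (J - G : ℕ) * (ξ * (4 * Y * (Λ - 1 + 1 / 2 ^ k))) := by
          rw [Finset.sum_add_distrib, Finset.sum_const, Nat.card_Ico, nsmul_eq_mul]
      _ ≤ _ := by
          have h1 : ((J - G : ℕ) : ℝ) ≤ k₀ := by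
            have : J - G ≤ k₀ := by omega
            exact_mod_cast this
          have h2 : 0 ≤ ξ * (4 * Y * (Λ - 1 + 1 / 2 ^ k)) := by
            have : 0 ≤ Λ - 1 + 1 / 2 ^ k := by linarith
            positivity
          have h3 : ((J - G : ℕ) : ℝ) * (ξ * (4 * Y * (Λ - 1 + 1 / 2 ^ k)))
              ≤ k₀ * (ξ * (4 * Y * (Λ - 1 + 1 / 2 ^ k))) := by gcongr
          have h4 : ξ * (4 * k₀ * Y * (Λ - 1 + 1 / 2 ^ k))
              = k₀ * (ξ * (4 * Y * (Λ - 1 + 1 / 2 ^ k))) := by ring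
          rw [h4]
          linarith
  -- initial generation
  have hGmem : G ∈ Finset.Ico G J := Finset.mem_Ico.2 ⟨le_rfl, hGJ⟩
  have hini : ξ * |A G - refv k₀ J ψ ((2 ^ J : ℝ) • Z 0) ((2 ^ J : ℝ) • y)|
      ≤ ∑ g ∈ Finset.Ico G J, (ε₀ * V g + (C₂ + C₃) * κ * X g)
        + ξ * (2 * Y * (Λ - 1 + 1 / 2 ^ k)) + ξ * (Y * ((d + 3) * (1 / 2) ^ k₀)) := by
    have hterm0 : 0 ≤ ξ * (2 * Y * (Λ - 1 + 1 / 2 ^ k)) := by
      have : 0 ≤ Λ - 1 + 1 / 2 ^ k := by linarith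
      positivity
    have hterm1 : 0 ≤ ξ * (Y * ((d + 3) * (1 / 2) ^ k₀)) := by positivity
    have hsingle : ε₀ * V G + (C₂ + C₃) * κ * X G
        ≤ ∑ g ∈ Finset.Ico G J, (ε₀ * V g + (C₂ + C₃) * κ * X g) :=
      Finset.single_le_sum (f := fun g => ε₀ * V g + (C₂ + C₃) * κ * X g)
        (fun g _ => by
          have := hV0 g
          have := hX0 g
          positivity) hGmem
    unfold refv
    by_cases hJk : J ≤ k₀
    · rw [if_pos hJk]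
      have hG0 : G = 0 := by omega
      have h1 := hinit k k₀ J Z Λ Y ρ ξ κ y ψ hB hψ hS hJk hξ hκ hξκ
      have h2 : A G = Ag (mkT R₀ C k k₀ J 0) ψ (pt Z (mesh k₀ 0) 0) 0 := by rw [hG0]
      rw [h2]
      have h3 : C₃ * κ * vs ^ (0 + k₀ - J) * (1 + LZ R₀ C k k₀ J ψ 0 / 2 ^ 0)
          ≤ ε₀ * V G + (C₂ + C₃) * κ * X G := by
        have e : C₃ * κ * vs ^ (0 + k₀ - J) * (1 + LZ R₀ C k k₀ J ψ 0 / 2 ^ 0)
            = C₃ * κ * X G := by rw [hX, hG0]; ring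
        rw [e]
        have g1 := hV0 G
        have g2 := hX0 G
        have g3 : 0 ≤ ε₀ * V G := by positivity
        have g4 : 0 ≤ C₂ * κ * X G := by positivity
        linarith
      linarith
    · rw [if_neg hJk, sub_zero]
      have h1 := hbase k k₀ J Z Λ Y ρ ξ κ y ψ hB hψ hS (by omega) hξ hκ hξκ hκ4
      have hv0 : vs ^ (G + k₀ - J) = 1 := by
        have : G + k₀ - J = 0 := by omega
        rw [this, pow_zero]
      have h3 : ε₀ * Jg Z G + C₂ * κ * (1 + LZ R₀ C k k₀ J ψ G / 2 ^ G)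
          ≤ ε₀ * V G + (C₂ + C₃) * κ * X G := by
        have eV : V G = eg Z G + Jg Z G := by rw [hV]; simp only; rw [hv0, one_mul]
        have eX : X G = 1 + LZ R₀ C k k₀ J ψ G / 2 ^ G := by
          rw [hX]; simp only; rw [hv0, one_mul]
        rw [eV, ← eX]
        have g0 := eg_nonneg Z G
        have g2 := hX0 G
        have g3 : 0 ≤ ε₀ * eg Z G := by positivity
        have g4 : 0 ≤ C₃ * κ * X G := by positivity
        linarith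
      have h4 : A G = Ag (mkT R₀ C k k₀ J (J - k₀)) ψ
          (pt Z (mesh k₀ (J - k₀)) (J - k₀)) (J - k₀) := rfl
      rw [h4]
      linarith
  -- combine
  have htri : |(∫ τ in (0 : ℝ)..1, ψ ((2 ^ J : ℝ) • Z τ))
          - refv k₀ J ψ ((2 ^ J : ℝ) • Z 0) ((2 ^ J : ℝ) • y)|
      ≤ |(∫ τ in (0 : ℝ)..1, ψ ((2 ^ J : ℝ) • Z τ)) - A J| + |A J - A G|
        + |A G - refv k₀ J ψ ((2 ^ J : ℝ) • Z 0) ((2 ^ J : ℝ) • y)| := by
    have a1 := abs_sub_le (∫ τ in (0 : ℝ)..1, ψ ((2 ^ J : ℝ) • Z τ)) (A J)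
      (refv k₀ J ψ ((2 ^ J : ℝ) • Z 0) ((2 ^ J : ℝ) • y))
    have a2 := abs_sub_le (A J) (A G) (refv k₀ J ψ ((2 ^ J : ℝ) • Z 0) ((2 ^ J : ℝ) • y))
    linarith
  have h5 := mul_le_mul_of_nonneg_left htri hξ
  rw [mul_add, mul_add] at h5
  have h6 := mul_le_mul_of_nonneg_left hlast hξ
  have hsum : ∑ g ∈ Finset.Ico G J, (ε₀ * V g + C₁ * κ * X g)
      + ∑ g ∈ Finset.Ico G J, (ε₀ * V g + (C₂ + C₃) * κ * X g)
      = ∑ g ∈ Finset.Ico G J, (2 * ε₀ * vs ^ (g + k₀ - J) * (eg Z g + Jg Z g)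
            + (C₁ + C₂ + C₃) * κ * vs ^ (g + k₀ - J) * (1 + LZ R₀ C k k₀ J ψ g / 2 ^ g)) := by
    rw [← Finset.sum_add_distrib]
    refine Finset.sum_congr rfl fun g _ => ?_
    rw [hV, hX]
    ring
  rw [← hsum]
  have e1 : ξ * ((4 * k₀ + 2) * Y * (Λ - 1 + 1 / 2 ^ k))
      = ξ * (4 * k₀ * Y * (Λ - 1 + 1 / 2 ^ k)) + ξ * (2 * Y * (Λ - 1 + 1 / 2 ^ k)) := by ring
  have e2 : ξ * (Y * ((2 * d + 4) * (1 / 2) ^ k₀))
      = ξ * (Y * ((d + 1) * (1 / 2) ^ k₀)) + ξ * (Y * ((d + 3) * (1 / 2) ^ k₀)) := by ring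
  rw [e1, e2]
  rw [mul_add] at h6
  linarith

end Pool.Agent.Lib_MP_71c74a_pr
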