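import Pool.Agent.Lib_MP_71c74a_pr.SegDefs

/-!
# From bounds on finitely many tests to good fields
-/

open MeasureTheory ProbabilityTheory Set
open scoped ENNReal NNReal Topology

namespace Pool.Agent.Lib_MP_71c74a_pr

variable {d : ℕ}

open Classical in
/-- Normalised average test. -/
noncomputable def avgN (A : ℝ) (M : ℕ) (x y : Eu d) : Eu d →₀ ℝ :=
  if (1 / 2 ≤ ‖y - x‖ ∧ ‖y - x‖ ≤ M) then (√(A / ‖y - x‖))⁻¹ • avgT M x y else 0

open Classical in
/-- Normalised broken-segment test. -/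
noncomputable def brkN (B η : ℝ) (M : ℕ) (x w y : Eu d) : Eu d →₀ ℝ :=
  if (1 / 2 ≤ ‖y - x‖ ∧ ‖y - x‖ ≤ M) then
    (√(B * (‖w - midpoint ℝ x y‖ + η) / ‖y - x‖))⁻¹ • brkT M x w y else 0

lemma sqrt_add_le' {a b : ℝ} (ha : 0 ≤ a) (hb : 0 ≤ b) : √(a + b) ≤ √a + √b := by
  rw [Real.sqrt_le_left (by positivity)]
  have h1 := Real.sq_sqrt ha
  have h2 := Real.sq_sqrt hb
  have h3 : 0 ≤ √a * √b := by positivity
  nlinarith

/-- Local Lipschitz bound around a ball. -/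
def NearLip (φ : Eu d → ℝ) (ρ T : ℝ) : Prop :=
  ∀ p : Eu d, ‖p‖ ≤ ρ → ∀ p' p'' : Eu d, ‖p' - p‖ ≤ 1 → ‖p'' - p‖ ≤ 1 →
    |φ p' - φ p''| ≤ T * ‖p' - p''‖

lemma NearLip.avg_sub {φ : Eu d → ℝ} (hφ : Continuous φ) {ρ T η : ℝ} (h : NearLip φ ρ T)
    (hT : 0 ≤ T) (hη1 : η ≤ 1) {x y x' y' : Eu d} (hx : ‖x‖ ≤ ρ)
    (hy : ‖y‖ ≤ ρ) (hx' : ‖x' - x‖ ≤ η) (hy' : ‖y' - y‖ ≤ η) :
    |segAvg φ x y - segAvg φ x' y'| ≤ T * η := by
  refine abs_segAvg_sub_le hφ fun θ hθ => ?_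
  have h1 := seg_near hx' hy' hθ
  have h2 := h _ (seg_mem hx hy hθ) (x + θ • (y - x)) (x' + θ • (y' - x')) (by simp)
    (h1.trans hη1)
  rw [norm_sub_rev] at h2
  exact h2.trans (mul_le_mul_of_nonneg_left h1 hT)

lemma NearLip.riem {φ : Eu d → ℝ} (hφ : Continuous φ) {ρ T η : ℝ} (h : NearLip φ ρ T)
    (hT : 0 ≤ T) (hη : 0 ≤ η) (hη1 : 2 * η ≤ 1) {M : ℕ} (hM : 0 < M) {x y x' y' : Eu d}
    (hx : ‖x‖ ≤ ρ) (hy : ‖y‖ ≤ ρ) (hx' : ‖x' - x‖ ≤ η) (hy' : ‖y' - y‖ ≤ η)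
    (hML : ‖y' - x'‖ ≤ M * η) :
    |segAvg φ x' y' - lc φ (avgT M x' y')| ≤ T * η := by
  have hM' : (0 : ℝ) < M := by exact_mod_cast hM
  refine riem_error hφ hM fun θ hθ θ' hθ' hd => ?_
  have h1 := seg_near hx' hy' hθ
  have e : (x' + θ • (y' - x')) - (x' + θ' • (y' - x')) = (θ - θ') • (y' - x') := by module
  have h2 : ‖(x' + θ • (y' - x')) - (x' + θ' • (y' - x'))‖ ≤ η := by
    rw [e, norm_smul, Real.norm_eq_abs]
    calc |θ - θ'| * ‖y' - x'‖ ≤ 1 / M * (M * η) := by gcongr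
      _ = η := by field_simp
  have h3 := h _ (seg_mem hx hy hθ) (x' + θ • (y' - x')) (x' + θ' • (y' - x'))
    (by linarith) (by
      have := norm_sub_le_norm_sub_add_norm_sub (x' + θ' • (y' - x')) (x' + θ • (y' - x'))
        (x + θ • (y - x))
      rw [norm_sub_rev] at h2
      linarith)
  exact h3.trans (mul_le_mul_of_nonneg_left h2 hT)

/-- Bounds on tests imply that the field is good. -/
theorem good_of_tests {φ : Eu d → ℝ} (hφ : Continuous φ) {k M : ℕ} (hk : 2 ≤ k)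
    (hM : (M : ℝ) = 9 * (2 ^ k) ^ 3) {F : Finset (Eu d)}
    (hF : ∀ x : Eu d, ‖x‖ ≤ 4 * (2 ^ k) ^ 2 → ∃ b ∈ F, ‖x - b‖ ≤ 1 / 2 ^ k)
    {A B C T : ℝ} (hA : 0 < A) (hB : 0 < B) (hC : 0 < C) (hT : 0 ≤ T)
    (h1 : ∀ b ∈ F, |lc φ (C⁻¹ • Finsupp.single b 1)| ≤ T)
    (h2 : ∀ b ∈ F, ∀ m, |lc (fun x => φ (b + x)) (lipT d m)| ≤ T)
    (h3 : ∀ x ∈ F, ∀ y ∈ F, |lc φ (avgN A M x y)| ≤ T)
    (h4 : ∀ x ∈ F, ∀ w ∈ F, ∀ y ∈ F, |lc φ (brkN B (1 / 2 ^ k) M x w y)| ≤ T) :
    Good φ 1 (2 ^ k) 0 ((4 + C + √(2 * A) + √(6 * B)) * T) := by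
  set R : ℝ := 2 ^ k with hR
  have hR4 : 4 ≤ R := by
    calc (4 : ℝ) = 2 ^ 2 := by norm_num
      _ ≤ 2 ^ k := pow_le_pow_right₀ (by norm_num) hk
  have hR0 : 0 < R := by linarith
  set η : ℝ := 1 / R with hη
  have hη0 : 0 < η := by positivity
  have hη4 : η ≤ 1 / 4 := by rw [hη]; gcongr
  have hM0 : 0 < M := by
    have : (0 : ℝ) < M := by rw [hM]; positivity
    exact_mod_cast this
  have hMη : (M : ℝ) * η = 9 * R ^ 2 := by rw [hM, hη]; field_simp
  have hMR : 9 * R ^ 2 ≤ M := by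
    rw [hM]
    have : R ^ 2 ≤ R ^ 3 := pow_le_pow_right₀ (by linarith) (by norm_num)
    linarith
  have hsA := Real.sqrt_nonneg (2 * A)
  have hsB := Real.sqrt_nonneg (6 * B)
  set Y := (4 + C + √(2 * A) + √(6 * B)) * T with hY
  -- local Lipschitz bound
  have hNL : NearLip φ (4 * R ^ 2) T := by
    intro p hp p' p'' hp' hp''
    obtain ⟨b, hb, hpb⟩ := hF p hp
    have hl := lip_of_lipT (φ := fun x => φ (b + x)) (by fun_prop) (h2 b hb)
      (p := p' - b) (q := p'' - b) ?_ ?_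
    · simpa using hl
    · have := norm_sub_le_norm_sub_add_norm_sub p' p b
      linarith
    · have := norm_sub_le_norm_sub_add_norm_sub p'' p b
      linarith
  have hηR : η ≤ 1 / √R := by
    rw [hη]
    apply one_div_le_one_div_of_le (Real.sqrt_pos.2 hR0)
    rw [Real.sqrt_le_left (by linarith)]
    nlinarith
  have hsR : 0 < 1 / √R := by positivity
  have hTY : T ≤ Y := by
    rw [hY]; nlinarith
  -- distance between points of the net
  have hlen : ∀ x y x' y' : Eu d, ‖x‖ ≤ 4 * R ^ 2 → ‖y‖ ≤ 4 * R ^ 2 → ‖x - x'‖ ≤ η →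
      ‖y - y'‖ ≤ η → ‖y' - x'‖ ≤ 9 * R ^ 2 := by
    intro x y x' y' hx hy hx' hy'
    have e : y' - x' = (y - x) - (y - y') + (x - x') := by abel
    have a1 := norm_add_le ((y - x) - (y - y')) (x - x')
    have a2 := norm_sub_le (y - x) (y - y')
    have a3 := norm_sub_le y x
    rw [e]
    nlinarith
  refine ⟨hφ, by positivity, ?_, ?_, ?_, ?_⟩
  · -- Lipschitz
    intro x hx y hy hxy
    simp only [mul_one, mem_closedBall_zero_iff] at hx hy
    rw [div_one]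
    have := hNL x hx x y (by simp) (by rw [norm_sub_rev]; exact hxy)
    exact this.trans (mul_le_mul_of_nonneg_right hTY (norm_nonneg _))
  · -- pointwise bound
    intro x hx
    simp only [mul_one, mem_closedBall_zero_iff] at hx
    obtain ⟨b, hb, hxb⟩ := hF x hx
    have a1 := h1 b hb
    simp only [lc, map_smul, Finsupp.linearCombination_single, one_mul, smul_eq_mul] at a1
    rw [abs_mul, abs_inv, abs_of_pos hC, inv_mul_le_iff₀ hC] at a1
    have a2 := hNL x hx x b (by simp) (by rw [norm_sub_rev]; linarith)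
    have a3 : T * ‖x - b‖ ≤ T * 1 := by gcongr; linarith
    have a4 := abs_sub_abs_le_abs_sub (φ x) (φ b)
    rw [hY]
    have a5 : 0 ≤ √(2 * A) * T := mul_nonneg hsA hT
    have a6 : 0 ≤ √(6 * B) * T := mul_nonneg hsB hT
    nlinarith
  · -- averages
    intro x hx y hy hxy
    simp only [mul_one, mem_closedBall_zero_iff] at hx hy
    obtain ⟨x', hx'F, hx'⟩ := hF x hx
    obtain ⟨y', hy'F, hy'⟩ := hF y hy
    have hL := hlen x y x' y' hx hy hx' hy'
    have hx'' : ‖x' - x‖ ≤ η := by rw [norm_sub_rev]; exact hx'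
    have hy'' : ‖y' - y‖ ≤ η := by rw [norm_sub_rev]; exact hy'
    have b1 := hNL.avg_sub hφ hT (by linarith) hx hy hx'' hy''
    have b2 := hNL.riem hφ hT hη0.le (by linarith) hM0 hx hy hx'' hy'' (by rw [hMη]; exact hL)
    have b3 := h3 x' hx'F y' hy'F
    -- lengths
    have hL' : ‖x - y‖ / 2 ≤ ‖y' - x'‖ := by
      have e : x - y = -(y' - x') + (x - x') - (y - y') := by abel
      have a1 := norm_sub_le (-(y' - x') + (x - x')) (y - y')
      have a2 := norm_add_le (-(y' - x')) (x - x')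
      rw [norm_neg] at a2
      rw [← e] at a1
      linarith
    have hpos : 0 < ‖y' - x'‖ := by linarith
    unfold avgN at b3
    rw [if_pos ⟨by linarith, hL.trans hMR⟩] at b3
    simp only [lc, map_smul, smul_eq_mul] at b3
    have hs : 0 < √(A / ‖y' - x'‖) := Real.sqrt_pos.2 (by positivity)
    rw [abs_mul, abs_inv, abs_of_pos hs, inv_mul_le_iff₀ hs] at b3
    have b4 : √(A / ‖y' - x'‖) ≤ √(2 * A) * √(1 / ‖x - y‖) := by
      rw [← Real.sqrt_mul (by positivity)]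
      apply Real.sqrt_le_sqrt
      rw [mul_one_div, div_le_div_iff₀ hpos (by linarith)]
      nlinarith
    have b5 : |segAvg φ x y| ≤ T * η + T * η + √(2 * A) * √(1 / ‖x - y‖) * T := by
      have c1 : |lc φ (avgT M x' y')| ≤ √(2 * A) * √(1 / ‖x - y‖) * T :=
        b3.trans (mul_le_mul_of_nonneg_right b4 hT)
      have e : segAvg φ x y = (segAvg φ x y - segAvg φ x' y')
          + (segAvg φ x' y' - lc φ (avgT M x' y')) + lc φ (avgT M x' y') := by ring
      rw [e]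
      refine (abs_add_le _ _).trans ?_
      refine add_le_add ((abs_add_le _ _).trans (add_le_add b1 b2)) c1
    have hq := Real.sqrt_nonneg (1 / ‖x - y‖)
    refine b5.trans ?_
    rw [hY]
    have c1 : T * η ≤ T * (1 / √R) := mul_le_mul_of_nonneg_left hηR hT
    have c2 : 0 ≤ T * √(1 / ‖x - y‖) := mul_nonneg hT hq
    have c3 : 0 ≤ T * (1 / √R) := mul_nonneg hT hsR.le
    have c4 : 0 ≤ (4 + C + √(6 * B)) * (T * √(1 / ‖x - y‖)) := by positivity
    have c5 : 0 ≤ (2 + C + √(2 * A) + √(6 * B)) * (T * (1 / √R)) := by positivity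
    nlinarith
  · -- broken segments
    intro x hx w hw y hy hxy
    simp only [mul_one, mem_closedBall_zero_iff] at hx hy hw
    obtain ⟨x', hx'F, hx'⟩ := hF x hx
    obtain ⟨y', hy'F, hy'⟩ := hF y hy
    obtain ⟨w', hw'F, hw'⟩ := hF w hw
    have hL := hlen x y x' y' hx hy hx' hy'
    have hx'' : ‖x' - x‖ ≤ η := by rw [norm_sub_rev]; exact hx'
    have hy'' : ‖y' - y‖ ≤ η := by rw [norm_sub_rev]; exact hy'
    have hw'' : ‖w' - w‖ ≤ η := by rw [norm_sub_rev]; exact hw'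
    -- midpoints
    have hmm : ∀ u v : Eu d, midpoint ℝ u v = u + (1 / 2 : ℝ) • (v - u) := by
      intro u v
      rw [midpoint_eq_smul_add]
      simp only [invOf_eq_inv]
      module
    have hhalf : (1 / 2 : ℝ) ∈ Icc (0 : ℝ) 1 := ⟨by norm_num, by norm_num⟩
    have hm : ‖midpoint ℝ x y‖ ≤ 4 * R ^ 2 := by rw [hmm]; exact seg_mem hx hy hhalf
    have hm'' : ‖midpoint ℝ x' y' - midpoint ℝ x y‖ ≤ η := by
      rw [hmm, hmm]; exact seg_near hx'' hy'' hhalf
    have hm' : ‖midpoint ℝ x y - midpoint ℝ x' y'‖ ≤ η := by rw [norm_sub_rev]; exact hm''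
    have a1 := hNL.avg_sub hφ hT (by linarith) hx hw hx'' hw''
    have a2 := hNL.avg_sub hφ hT (by linarith) hw hy hw'' hy''
    have a3 := hNL.avg_sub hφ hT (by linarith) hx hy hx'' hy''
    have r1 := hNL.riem hφ hT hη0.le (by linarith) hM0 hx hw hx'' hw''
      (by rw [hMη]; exact hlen x w x' w' hx hw hx' hw')
    have r2 := hNL.riem hφ hT hη0.le (by linarith) hM0 hx hm hx'' hm''
      (by rw [hMη]; exact hlen x _ x' _ hx hm hx' hm')
    have r3 := hNL.riem hφ hT hη0.le (by linarith) hM0 hy hw hy'' hw''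
      (by rw [hMη]; exact hlen y w y' w' hy hw hy' hw')
    have r4 := hNL.riem hφ hT hη0.le (by linarith) hM0 hy hm hy'' hm''
      (by rw [hMη]; exact hlen y _ y' _ hy hm hy' hm')
    have hbr := brk_error hφ hM0 r1 r2 r3 r4
    have b3 := h4 x' hx'F w' hw'F y' hy'F
    have hL' : ‖x - y‖ / 2 ≤ ‖y' - x'‖ := by
      have e : x - y = -(y' - x') + (x - x') - (y - y') := by abel
      have a1 := norm_sub_le (-(y' - x') + (x - x')) (y - y')
      have a2 := norm_add_le (-(y' - x')) (x - x')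
      rw [norm_neg] at a2
      rw [← e] at a1
      linarith
    have hpos : 0 < ‖y' - x'‖ := by linarith
    have hδn : 0 ≤ ‖w' - midpoint ℝ x' y'‖ := norm_nonneg _
    have hδ0 : 0 ≤ ‖w - midpoint ℝ x y‖ := norm_nonneg _
    unfold brkN at b3
    rw [if_pos ⟨by linarith, hL.trans hMR⟩] at b3
    simp only [lc, map_smul, smul_eq_mul] at b3
    have hs : 0 < √(B * (‖w' - midpoint ℝ x' y'‖ + 1 / R) / ‖y' - x'‖) :=
      Real.sqrt_pos.2 (by positivity)
    rw [abs_mul, abs_inv, abs_of_pos hs, inv_mul_le_iff₀ hs] at b3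
    have hδ' : ‖w' - midpoint ℝ x' y'‖ ≤ ‖w - midpoint ℝ x y‖ + 2 * η := by
      have e : w' - midpoint ℝ x' y' = (w' - w) + (w - midpoint ℝ x y)
          + (midpoint ℝ x y - midpoint ℝ x' y') := by abel
      have a1 := norm_add_le ((w' - w) + (w - midpoint ℝ x y))
        (midpoint ℝ x y - midpoint ℝ x' y')
      have a2 := norm_add_le (w' - w) (w - midpoint ℝ x y)
      rw [← e] at a1
      linarith
    have b4 : √(B * (‖w' - midpoint ℝ x' y'‖ + 1 / R) / ‖y' - x'‖)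
        ≤ √(6 * B) * √(‖w - midpoint ℝ x y‖ / ‖x - y‖) + √(6 * B) * (1 / √R) := by
      have hxy0 : 0 < ‖x - y‖ := by linarith
      have c1 : B * (‖w' - midpoint ℝ x' y'‖ + 1 / R) / ‖y' - x'‖
          ≤ 6 * B * (‖w - midpoint ℝ x y‖ / ‖x - y‖) + 6 * B * (1 / R) := by
        calc B * (‖w' - midpoint ℝ x' y'‖ + 1 / R) / ‖y' - x'‖
            ≤ B * (‖w - midpoint ℝ x y‖ + 2 * η + 1 / R) / (‖x - y‖ / 2) := by gcongr
          _ = 2 * B * (‖w - midpoint ℝ x y‖ / ‖x - y‖) + 6 * B * (1 / R) / ‖x - y‖ := by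
              rw [hη]; field_simp; ring
          _ ≤ 2 * B * (‖w - midpoint ℝ x y‖ / ‖x - y‖) + 6 * B * (1 / R) / 1 := by
              gcongr
          _ ≤ 6 * B * (‖w - midpoint ℝ x y‖ / ‖x - y‖) + 6 * B * (1 / R) := by
              rw [div_one]
              have : 0 ≤ B * (‖w - midpoint ℝ x y‖ / ‖x - y‖) := by positivity
              linarith
      refine (Real.sqrt_le_sqrt c1).trans ?_
      refine (sqrt_add_le' (by positivity) (by positivity)).trans (le_of_eq ?_)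
      rw [Real.sqrt_mul (by positivity), Real.sqrt_mul (by positivity) (1 / R),
        Real.sqrt_div zero_le_one R, Real.sqrt_one]
    have hq := Real.sqrt_nonneg (‖w - midpoint ℝ x y‖ / ‖x - y‖)
    have b5 : |(segAvg φ x w + segAvg φ w y) / 2 - segAvg φ x y|
        ≤ 4 * (T * η) + (√(6 * B) * √(‖w - midpoint ℝ x y‖ / ‖x - y‖)
          + √(6 * B) * (1 / √R)) * T := by
      have c1 : |lc φ (brkT M x' w' y')| ≤ (√(6 * B) * √(‖w - midpoint ℝ x y‖ / ‖x - y‖)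
          + √(6 * B) * (1 / √R)) * T := b3.trans (mul_le_mul_of_nonneg_right b4 hT)
      rw [abs_le] at *
      constructor <;> linarith
    refine b5.trans ?_
    rw [hY]
    have c1 : T * η ≤ T * (1 / √R) := mul_le_mul_of_nonneg_left hηR hT
    have c2 : 0 ≤ T * √(‖w - midpoint ℝ x y‖ / ‖x - y‖) := mul_nonneg hT hq
    have c3 : 0 ≤ T * (1 / √R) := mul_nonneg hT hsR.le
    have c4 : 0 ≤ (4 + C + √(2 * A)) * (T * √(‖w - midpoint ℝ x y‖ / ‖x - y‖)) := by positivity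
    have c5 : 0 ≤ (C + √(2 * A)) * (T * (1 / √R)) := by positivity
    nlinarith

end Pool.Agent.Lib_MP_71c74a_pr
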