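import Pool.Agent.Lib_MP_71c74a_pr.BlockLemma
import Pool.Agent.Lib_MP_71c74a_pr.ScalesDef

/-!
# The multiscale cost functional
-/

open MeasureTheory ProbabilityTheory Set
open scoped ENNReal NNReal Topology

namespace Pool.Agent.Lib_MP_71c74a_pr

variable {d : ℕ}

/-- Cost of a straight segment in the field `∑ j ∈ U, f j`, as a lower limit of Riemann sums. -/
noncomputable def leaf (ξ : ℝ) (U : Finset ℕ) (f : ℕ → Eu d → ℝ) (x y : Eu d) : ℝ≥0∞ :=
  Filter.liminf (fun N : ℕ => ENNReal.ofReal (‖y - x‖ / N) * ∑ i ∈ Finset.range N,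
    ENNReal.ofReal (Real.exp (ξ * ∑ j ∈ U, f j (segPt N x y i)))) Filter.atTop

/-- The field of level `r`, brought to unit scale. -/
noncomputable def unitF (J : ℕ → ℕ) (f : ℕ → Eu d → ℝ) (r : ℕ) : Eu d → ℝ :=
  fun x => f (J r) ((1 / 2 : ℝ) ^ J r • x)

/-- Number of blocks. -/
noncomputable def nBlk (J : ℕ → ℕ) (l : ℝ) (r : ℕ) (x y : Eu d) : ℕ :=
  ⌈‖((1 / 2 : ℝ) ^ J r)⁻¹ • y - ((1 / 2 : ℝ) ^ J r)⁻¹ • x‖ / l⌉₊

/-- The multiscale cost functional with `q` levels, starting at level `r`. -/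
noncomputable def kap (ξ η : ℝ) (M : ℕ) (D l : ℝ) (J : ℕ → ℕ) (U : Finset ℕ) :
    ℕ → ℕ → (ℕ → Eu d → ℝ) → Eu d → Eu d → ℝ≥0∞
  | 0, _, f, x, y => leaf ξ U f x y
  | q + 1, r, f, x, y => ∑ i ∈ Finset.range (nBlk J l r x y),
      blk ξ η M D (unitF J f r)
        (fun x' y' => kap ξ η M D l J U q (r + 1) f ((1 / 2 : ℝ) ^ J r • x') ((1 / 2 : ℝ) ^ J r • y'))
        (segPt (nBlk J l r x y) (((1 / 2 : ℝ) ^ J r)⁻¹ • x) (((1 / 2 : ℝ) ^ J r)⁻¹ • y) i)
        (segPt (nBlk J l r x y) (((1 / 2 : ℝ) ^ J r)⁻¹ • x) (((1 / 2 : ℝ) ^ J r)⁻¹ • y) (i + 1))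

section Measurability

variable {α : Type*} [MeasurableSpace α]

lemma measurable_wt (ξ η : ℝ) (v : Eu d) : Measurable (fun ψ : Eu d → ℝ => wt ξ η ψ v) := by
  unfold wt
  refine Measurable.iSup fun m => ?_
  have h1 : Measurable (fun ψ : Eu d → ℝ => lc (fun x => ψ (v + x)) (lipT d m)) :=
    (measurable_lc_pi (lipT d m)).comp (measurable_pi_lambda _ fun x => measurable_pi_apply _)
  have h2 : Measurable (fun ψ : Eu d → ℝ => ψ v) := measurable_pi_apply v
  have h3 : Measurable (fun ψ : Eu d → ℝ => |lc (fun x => ψ (v + x)) (lipT d m)|) := h1.abs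
  exact ENNReal.measurable_ofReal.comp (Real.measurable_exp.comp
    ((h2.const_mul ξ).add (h3.const_mul (ξ * η))))

lemma measurable_pcC (ξ η : ℝ) (M : ℕ) {ψ : α → Eu d → ℝ} (hψ : Measurable ψ)
    {k : α → Eu d → Eu d → ℝ≥0∞} (hk : ∀ x y, Measurable fun a => k a x y) (p q : Eu d) :
    Measurable (fun a => pcC ξ η M (ψ a) (k a) p q) := by
  unfold pcC
  exact Finset.measurable_sum _ fun i _ => ((measurable_wt ξ η _).comp hψ).mul (hk _ _)

lemma measurable_blk (ξ η : ℝ) (M : ℕ) (D : ℝ) {ψ : α → Eu d → ℝ} (hψ : Measurable ψ)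
    {k : α → Eu d → Eu d → ℝ≥0∞} (hk : ∀ x y, Measurable fun a => k a x y) (X Y : Eu d) :
    Measurable (fun a => blk ξ η M D (ψ a) (k a) X Y) := by
  unfold blk
  refine Measurable.ite ?_ (measurable_pcC ξ η M hψ hk _ _)
    (((measurable_pcC ξ η M hψ hk _ _).add (measurable_pcC ξ η M hψ hk _ _)).add
      (measurable_pcC ξ η M hψ hk _ _))
  exact measurableSet_le ((measurable_lc_pi _).comp hψ) measurable_const

lemma measurable_leaf (ξ : ℝ) (U : Finset ℕ) (x y : Eu d) :
    Measurable (fun f : ℕ → Eu d → ℝ => leaf ξ U f x y) := by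
  unfold leaf
  refine Measurable.liminf fun N => ?_
  refine Measurable.const_mul ?_ _
  refine Finset.measurable_sum _ fun i _ => ?_
  have h1 : Measurable (fun f : ℕ → Eu d → ℝ => ∑ j ∈ U, f j (segPt N x y i)) :=
    Finset.measurable_sum _ fun j _ => (measurable_pi_apply _).comp (measurable_pi_apply j)
  exact ENNReal.measurable_ofReal.comp (Real.measurable_exp.comp (h1.const_mul ξ))

lemma measurable_unitF (J : ℕ → ℕ) (r : ℕ) :
    Measurable (fun f : ℕ → Eu d → ℝ => unitF J f r) := by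
  unfold unitF
  exact measurable_pi_lambda _ fun x => (measurable_pi_apply _).comp (measurable_pi_apply (J r))

lemma measurable_kap (ξ η : ℝ) (M : ℕ) (D l : ℝ) (J : ℕ → ℕ) (U : Finset ℕ) (q : ℕ) :
    ∀ r (x y : Eu d), Measurable (fun f : ℕ → Eu d → ℝ => kap ξ η M D l J U q r f x y) := by
  induction q with
  | zero => intro r x y; exact measurable_leaf ξ U x y
  | succ q ih =>
    intro r x y
    unfold kap
    refine Finset.measurable_sum _ fun i _ => ?_
    exact measurable_blk ξ η M D (measurable_unitF J r) (fun x' y' => ih (r + 1) _ _) _ _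

end Measurability

/-- The cost only depends on the fields that are used. -/
lemma kap_congr (ξ η : ℝ) (M : ℕ) (D l : ℝ) (J : ℕ → ℕ) (U : Finset ℕ) (q : ℕ) :
    ∀ r (x y : Eu d) (f f' : ℕ → Eu d → ℝ), (∀ j ∈ U, f j = f' j) →
      (∀ i, r ≤ i → i < r + q → f (J i) = f' (J i)) →
      kap ξ η M D l J U q r f x y = kap ξ η M D l J U q r f' x y := by
  induction q with
  | zero =>
    intro r x y f f' h1 _
    unfold kap leaf
    congr 1
    ext N
    congr 1
    refine Finset.sum_congr rfl fun i _ => ?_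
    rw [Finset.sum_congr rfl fun j hj => by rw [h1 j hj]]
  | succ q ih =>
    intro r x y f f' h1 h2
    unfold kap
    have e1 : unitF J f r = unitF J f' r := by
      unfold unitF
      rw [h2 r le_rfl (by omega)]
    have e2 : (fun x' y' => kap ξ η M D l J U q (r + 1) f ((1 / 2 : ℝ) ^ J r • x')
        ((1 / 2 : ℝ) ^ J r • y'))
        = (fun x' y' => kap ξ η M D l J U q (r + 1) f' ((1 / 2 : ℝ) ^ J r • x')
        ((1 / 2 : ℝ) ^ J r • y')) := by
      ext x' y'
      exact ih (r + 1) _ _ f f' h1 (fun i hi1 hi2 => h2 i (by omega) (by omega))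
    rw [e1, e2]

section Prob

variable {Ω H : Type*} [MeasurableSpace Ω] [NormedAddCommGroup H]
  [InnerProductSpace ℝ H] {P : Measure Ω} {G : Eu d → H} {R₀ v₀ C : ℝ}
  {φ : ℕ → Eu d → Ω → ℝ}

/-- The fields as a random element. -/
def fld (φ : ℕ → Eu d → Ω → ℝ) (ω : Ω) : ℕ → Eu d → ℝ := fun j x => φ j x ω

lemma Scales.measurable_fld (hφ : Scales P G φ) : Measurable (fld φ) :=
  measurable_pi_lambda _ fun j => measurable_pi_lambda _ fun x => hφ.meas j x

/-- Independence of one field from a functional of the others. -/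
lemma Scales.indep_factor (hφ : Scales P G φ) {j₀ : ℕ} {T : Finset ℕ} (hT : j₀ ∉ T)
    {a : (Eu d → ℝ) → ℝ≥0∞} (ha : Measurable a) {k : (ℕ → Eu d → ℝ) → ℝ≥0∞} (hk : Measurable k)
    (hdep : ∀ f f' : ℕ → Eu d → ℝ, (∀ j ∈ T, f j = f' j) → k f = k f') :
    ∫⁻ ω, a (fld φ ω j₀) * k (fld φ ω) ∂P
      = (∫⁻ ω, a (fld φ ω j₀) ∂P) * ∫⁻ ω, k (fld φ ω) ∂P := by
  classical
  have hm : ∀ j, Measurable (fun ω (x : Eu d) => φ j x ω) := fun j =>
    measurable_pi_lambda _ fun x => hφ.meas j x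
  have hind := hφ.indep.indepFun_finset {j₀} T (Finset.disjoint_singleton_left.2 hT) hm
  -- write the two factors as functions of the two groups of fields
  set ext : (T → Eu d → ℝ) → (ℕ → Eu d → ℝ) := fun g j => if h : j ∈ T then g ⟨j, h⟩ else 0
    with hext
  have hextm : Measurable ext := by
    refine measurable_pi_lambda _ fun j => ?_
    by_cases h : j ∈ T
    · simp only [hext, h, dif_pos]
      exact measurable_pi_apply _
    · simp only [hext, h, dif_neg, not_false_eq_true]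
      exact measurable_const
  have e1 : (fun ω => a (fld φ ω j₀)) = (fun g : ({j₀} : Finset ℕ) → Eu d → ℝ =>
      a (g ⟨j₀, Finset.mem_singleton_self j₀⟩)) ∘ (fun ω (i : ({j₀} : Finset ℕ)) (x : Eu d) =>
        φ i x ω) := rfl
  have e2 : (fun ω => k (fld φ ω)) = (fun g : T → Eu d → ℝ => k (ext g))
      ∘ (fun ω (i : T) (x : Eu d) => φ i x ω) := by
    ext ω
    simp only [Function.comp]
    refine hdep _ _ fun j hj => ?_
    simp only [hext, hj, dif_pos]
    rfl
  have hind2 : IndepFun (fun ω => a (fld φ ω j₀)) (fun ω => k (fld φ ω)) P := by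
    rw [e1, e2]
    exact hind.comp (ha.comp (measurable_pi_apply _)) (hk.comp hextm)
  exact lintegral_mul_eq_lintegral_mul_lintegral_of_indepFun''
    ((ha.comp ((measurable_pi_apply j₀).comp hφ.measurable_fld)).aemeasurable)
    ((hk.comp hφ.measurable_fld).aemeasurable) hind2

/-- Exponential moment of one field. -/
lemma Scales.lintegral_exp (hG : CovLaw G R₀ v₀ C) (hφ : Scales P G φ) (ξ : ℝ) (j : ℕ) (x : Eu d) :
    ∫⁻ ω, ENNReal.ofReal (Real.exp (ξ * φ j x ω)) ∂P
      = ENNReal.ofReal (Real.exp (ξ ^ 2 * v₀ / 2)) := by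
  have hv := hG.v₀_pos
  have h1 := (hφ.law_shift hG j x).gauss (Finsupp.single 0 1)
  simp only [lc, Finsupp.linearCombination_single, smul_zero, add_zero, smul_eq_mul, one_mul,
    one_smul] at h1
  have hnn : (‖G 0‖₊ ^ 2 : ℝ≥0) = v₀.toNNReal := by
    have := hG.norm_sq 0
    ext
    rw [Real.coe_toNNReal _ hv.le]
    simpa using this
  rw [hnn] at h1
  have hm := hφ.meas j x
  have hint : Integrable (fun y => Real.exp (ξ * y)) (gaussianReal 0 v₀.toNNReal) :=
    integrable_exp_mul_gaussianReal ξ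
  have h2 : ∫⁻ ω, ENNReal.ofReal (Real.exp (ξ * φ j x ω)) ∂P
      = ∫⁻ y, ENNReal.ofReal (Real.exp (ξ * y)) ∂(gaussianReal 0 v₀.toNNReal) := by
    rw [← h1, lintegral_map (by fun_prop) hm]
  rw [h2, ← ofReal_integral_eq_lintegral_ofReal hint
    (Filter.Eventually.of_forall fun y => (Real.exp_pos _).le)]
  congr 1
  have h3 := congrFun (mgf_id_gaussianReal (μ := 0) (v := v₀.toNNReal)) ξ
  simp only [mgf, id_eq, zero_mul, zero_add] at h3
  rw [h3, Real.coe_toNNReal _ hv.le]
  ring_nf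

/-- Expected cost of a leaf. -/
lemma Scales.lintegral_leaf (hG : CovLaw G R₀ v₀ C) (hφ : Scales P G φ) (ξ : ℝ) (U : Finset ℕ)
    (x y : Eu d) :
    ∫⁻ ω, leaf ξ U (fld φ ω) x y ∂P
      ≤ ENNReal.ofReal (Real.exp (ξ ^ 2 * v₀ / 2 * U.card) * ‖y - x‖) := by
  unfold leaf
  have hmeas : ∀ N : ℕ, Measurable (fun ω => ENNReal.ofReal (‖y - x‖ / N)
      * ∑ i ∈ Finset.range N,
        ENNReal.ofReal (Real.exp (ξ * ∑ j ∈ U, fld φ ω j (segPt N x y i)))) := by
    intro N
    refine Measurable.const_mul ?_ _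
    refine Finset.measurable_sum _ fun i _ => ?_
    have h1 : Measurable (fun ω => ∑ j ∈ U, fld φ ω j (segPt N x y i)) :=
      Finset.measurable_sum _ fun j _ => hφ.meas j _
    exact ENNReal.measurable_ofReal.comp (Real.measurable_exp.comp (h1.const_mul ξ))
  refine (lintegral_liminf_le hmeas).trans ?_
  have hone : ∀ p : Eu d, ∫⁻ ω, ENNReal.ofReal (Real.exp (ξ * ∑ j ∈ U, fld φ ω j p)) ∂P
      = ENNReal.ofReal (Real.exp (ξ ^ 2 * v₀ / 2 * U.card)) := by
    intro p
    have h1 : ∀ ω, ENNReal.ofReal (Real.exp (ξ * ∑ j ∈ U, fld φ ω j p))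
        = ∏ j ∈ U, ENNReal.ofReal (Real.exp (ξ * φ j p ω)) := by
      intro ω
      rw [Finset.mul_sum, Real.exp_sum, ENNReal.ofReal_prod_of_nonneg
        (fun j _ => (Real.exp_pos _).le)]
      rfl
    simp_rw [h1]
    have hind : iIndepFun (fun j ω => ENNReal.ofReal (Real.exp (ξ * φ j p ω))) P :=
      hφ.indep.comp (fun j => fun f : Eu d → ℝ => ENNReal.ofReal (Real.exp (ξ * f p)))
        (fun j => by
          have : Measurable (fun f : Eu d → ℝ => f p) := measurable_pi_apply p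
          exact ENNReal.measurable_ofReal.comp (Real.measurable_exp.comp (this.const_mul ξ)))
    rw [lintegral_prod_eq_prod_lintegral_of_indepFun U _ hind (fun j => by
      have := hφ.meas j p
      fun_prop)]
    rw [Finset.prod_congr rfl fun j _ => hφ.lintegral_exp hG ξ j p, Finset.prod_const,
      ← ENNReal.ofReal_pow (Real.exp_pos _).le, ← Real.exp_nat_mul]
    congr 2
    ring
  have hval : ∀ N : ℕ, 0 < N → ∫⁻ ω, ENNReal.ofReal (‖y - x‖ / N)
      * ∑ i ∈ Finset.range N,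
        ENNReal.ofReal (Real.exp (ξ * ∑ j ∈ U, fld φ ω j (segPt N x y i))) ∂P
      = ENNReal.ofReal (Real.exp (ξ ^ 2 * v₀ / 2 * U.card) * ‖y - x‖) := by
    intro N hN
    have hN' : (0 : ℝ) < N := by exact_mod_cast hN
    have hm1 : ∀ i ∈ Finset.range N, Measurable (fun ω =>
        ENNReal.ofReal (Real.exp (ξ * ∑ j ∈ U, fld φ ω j (segPt N x y i)))) := by
      intro i _
      have h1 : Measurable (fun ω => ∑ j ∈ U, fld φ ω j (segPt N x y i)) :=
        Finset.measurable_sum _ fun j _ => hφ.meas j _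
      exact ENNReal.measurable_ofReal.comp (Real.measurable_exp.comp (h1.const_mul ξ))
    rw [lintegral_const_mul _ (Finset.measurable_sum _ hm1), lintegral_finsetSum _ hm1,
      Finset.sum_congr rfl fun i _ => hone _, Finset.sum_const, Finset.card_range, nsmul_eq_mul]
    rw [← ENNReal.ofReal_natCast, ← ENNReal.ofReal_mul (Nat.cast_nonneg _),
      ← ENNReal.ofReal_mul (by positivity)]
    congr 1
    field_simp
  apply Filter.liminf_le_of_frequently_le'
  refine Filter.Eventually.frequently ?_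
  filter_upwards [Filter.eventually_gt_atTop 0] with N hN
  exact (hval N hN).le

end Prob

end Pool.Agent.Lib_MP_71c74a_pr
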