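import Pool.Agent.Lib_MP_71c74a_pr.ChainBase

/-!
# Levels: definitions
-/

open MeasureTheory Set
open scoped Topology

namespace Pool.Agent.Lib_MP_71c74a_pr

variable {E : Type*} [NormedAddCommGroup E] [InnerProductSpace ℝ E]

/-- The contribution of the `j`-th field to the prediction at level `i`: the value at the start
for coarse fields, nothing for fine fields, the segment average in between. -/
noncomputable def tval (k i j : ℕ) (φ : E → ℝ) (x y : E) : ℝ :=
  if j + k ≤ k * i then φ x else if k * i + k ≤ j then 0 else segAvg φ x y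

lemma half_pow_div (a b : ℕ) (h : b ≤ a) : (1 / 2 : ℝ) ^ a / (1 / 2) ^ b = (1 / 2) ^ (a - b) := by
  rw [div_eq_iff (by positivity), ← pow_add, Nat.sub_add_cancel h]

lemma one_div_two_pow (k : ℕ) : (1 : ℝ) / 2 ^ k = (1 / 2) ^ k := by
  rw [one_div_pow]

/-- Transition for a coarse field. -/
lemma tval_coarse {φ : E → ℝ} {Y : ℝ} {z' y : E} {k i j m : ℕ} {z : ℕ → E}
    (hg : Good φ ((1 / 2) ^ j) (2 ^ k) z' Y)
    (hz : ∀ a ≤ m, z a ∈ Metric.closedBall z' (4 * (2 ^ k) ^ 2 * (1 / 2) ^ j)) (hm : 0 < m)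
    (hz0 : ∀ a ≤ m, ‖z a - z 0‖ ≤ (1 / 2) ^ (k * i)) (h1 : j + k ≤ k * i) :
    |(∑ a ∈ Finset.range m, tval k (i + 1) j φ (z a) (z (a + 1))) / m - tval k i j φ (z 0) y|
      ≤ Y * ((1 / 2) ^ (k * i) / (1 / 2) ^ j) := by
  have hY := hg.nonneg
  have hki : k * (i + 1) = k * i + k := by ring
  have hs : (0 : ℝ) < (1 / 2) ^ j := by positivity
  have hm0 : (0 : ℝ) < m := by exact_mod_cast hm
  have e1 : tval k i j φ (z 0) y = (∑ a ∈ Finset.range m, φ (z 0)) / m := by
    rw [tval, if_pos h1]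
    simp
    field_simp
  have e2 : ∀ a ∈ Finset.range m, tval k (i + 1) j φ (z a) (z (a + 1)) = φ (z a) := fun a _ => by
    rw [tval, if_pos (by omega)]
  rw [e1, Finset.sum_congr rfl e2, ← sub_div, ← Finset.sum_sub_distrib, abs_div, abs_of_pos hm0,
    div_le_iff₀ hm0]
  refine (Finset.abs_sum_le_sum_abs _ _).trans ?_
  calc ∑ a ∈ Finset.range m, |φ (z a) - φ (z 0)|
      ≤ ∑ a ∈ Finset.range m, Y * ((1 / 2) ^ (k * i) / (1 / 2) ^ j) := by
        refine Finset.sum_le_sum fun a ha => ?_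
        have ha' := Finset.mem_range.1 ha
        have hle : (1 / 2 : ℝ) ^ (k * i) ≤ (1 / 2) ^ j := by
          apply pow_le_pow_of_le_one (by norm_num) (by norm_num)
          omega
        refine (hg.lip _ (hz a ha'.le) _ (hz 0 (Nat.zero_le _))
          ((hz0 a ha'.le).trans hle)).trans ?_
        gcongr
        exact hz0 a ha'.le
    _ = Y * ((1 / 2) ^ (k * i) / (1 / 2) ^ j) * m := by simp [mul_comm]

/-- Transition for a fine field. -/
lemma tval_fine {φ : E → ℝ} {y : E} {k i j m : ℕ} {z : ℕ → E} (h1 : ¬ j + k ≤ k * i)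
    (h3 : ¬ j + k ≤ k * (i + 1)) (h2 : k * (i + 1) + k ≤ j) :
    (∑ a ∈ Finset.range m, tval k (i + 1) j φ (z a) (z (a + 1))) / m - tval k i j φ (z 0) y = 0 := by
  have hki : k * (i + 1) = k * i + k := by ring
  have e1 : tval k i j φ (z 0) y = 0 := by
    rw [tval, if_neg h1, if_pos (by omega)]
  have e2 : ∀ a ∈ Finset.range m, tval k (i + 1) j φ (z a) (z (a + 1)) = 0 := fun a _ => by
    rw [tval, if_neg h3, if_pos h2]
  rw [e1, Finset.sum_congr rfl e2]
  simp

/-- The prediction at level `i`. -/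
noncomputable def pred (ξ : ℝ) (n k i : ℕ) (φ : ℕ → E → ℝ) (x y : E) : ℝ :=
  ξ * ∑ j ∈ Finset.range n, tval k i j (φ j) x y

/-- The indices of intermediate fields at level `i`. -/
def midSet (n k i : ℕ) : Finset ℕ :=
  (Finset.range n).filter fun j => ¬ j + k ≤ k * i ∧ ¬ k * (i + 1) + k ≤ j

/-- The indices of coarse fields at level `i`. -/
def coarseSet (n k i : ℕ) : Finset ℕ :=
  (Finset.range n).filter fun j => j + k ≤ k * i

/-- The cost at level `i`. -/
noncomputable def cost (ξ : ℝ) (n k i : ℕ) (Y : ℕ → ℝ) : ℝ :=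
  (75 * k * ξ * ∑ j ∈ midSet n k i, Y j) ^ (4 / 3 : ℝ)
    + 75 * k * ξ * qr (1 / 2 ^ k) * ∑ j ∈ midSet n k i, Y j
    + ξ * ∑ j ∈ coarseSet n k i, Y j * ((1 / 2) ^ (k * i) / (1 / 2) ^ j)

end Pool.Agent.Lib_MP_71c74a_pr
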