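import Pool.Agent.Lib_MP_71c74a_pr.Bracket
import Pool.Agent.Lib_MP_71c74a_pr.LevelBase

/-!
# The one-level estimate, summed over the fields
-/

open MeasureTheory Set
open scoped Topology

namespace Pool.Agent.Lib_MP_71c74a_pr

variable {E : Type*} [NormedAddCommGroup E] [InnerProductSpace ℝ E]

/-- Transition for a field of intermediate scale. -/
lemma tval_mid {φ : E → ℝ} {Y : ℝ} {z' y : E} {k i j m : ℕ} {z : ℕ → E} (hk : 2 ≤ k)
    (hg : Good φ ((1 / 2) ^ j) (2 ^ k) z' Y)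
    (hstep : ∀ a < m, ‖z (a + 1) - z a‖ = (1 / 2) ^ (k * (i + 1)))
    (hz : ∀ a ≤ m, z a ∈ Metric.closedBall z' (4 * (2 ^ k) ^ 2 * (1 / 2) ^ j))
    (hy : y ∈ Metric.closedBall z' (4 * (2 ^ k) ^ 2 * (1 / 2) ^ j)) (hm : (2 : ℝ) ^ k ≤ m)
    (hzy : ‖z 0 - y‖ = (1 / 2) ^ (k * i)) (hmy : ‖z m - y‖ ≤ (1 / 2) ^ (k * (i + 1)))
    (h1 : ¬ j + k ≤ k * i) (h2 : ¬ k * (i + 1) + k ≤ j) :
    |(∑ a ∈ Finset.range m, tval k (i + 1) j φ (z a) (z (a + 1))) / m - tval k i j φ (z 0) y|
      ≤ 75 * k * Y * (qr (Real.log (m / 2 ^ k)) + qr (1 / 2 ^ k)) := by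
  have hY := hg.nonneg
  have hki : k * (i + 1) = k * i + k := by ring
  have hR0 : (0 : ℝ) < 2 ^ k := by positivity
  have hs : (0 : ℝ) < (1 / 2) ^ j := by positivity
  have hm0 : (0 : ℝ) < m := by linarith
  have hk' : (2 : ℝ) ≤ k := by exact_mod_cast hk
  have hconv : Convex ℝ (Metric.closedBall z' (4 * (2 ^ k) ^ 2 * (1 / 2) ^ j)) :=
    convex_closedBall _ _
  have hq0 := qr_nonneg (1 / 2 ^ k)
  have hqe := qr_nonneg (Real.log (m / 2 ^ k))
  have hR1 : (1 : ℝ) ≤ 2 ^ k := one_le_pow₀ (by norm_num)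
  have hsq := sqrt_inv_le_qr hR1
  have main := chain_field (R := 2 ^ k) hk rfl hs hg (r' := (1 / 2) ^ (k * (i + 1)))
    (by positivity) hstep hz hy hm
    (by rw [hzy, hki, pow_add, ← one_div_two_pow k]; field_simp) hmy
    (by
      have : (1 / 2 : ℝ) ^ (k * (i + 1) + k) ≤ (1 / 2) ^ j := by
        apply pow_le_pow_of_le_one (by norm_num) (by norm_num)
        omega
      rw [pow_add, ← one_div_two_pow k] at this
      rw [mul_one_div, div_le_iff₀ hR0] at this
      linarith)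
  -- correction at level `i + 1`
  have c1 : |(∑ a ∈ Finset.range m, tval k (i + 1) j φ (z a) (z (a + 1))) / m
      - (∑ a ∈ Finset.range m, segAvg φ (z a) (z (a + 1))) / m| ≤ Y * qr (1 / 2 ^ k) := by
    by_cases h3 : j + k ≤ k * (i + 1)
    · rw [← sub_div, ← Finset.sum_sub_distrib, abs_div, abs_of_pos hm0, div_le_iff₀ hm0]
      refine (Finset.abs_sum_le_sum_abs _ _).trans ?_
      calc ∑ a ∈ Finset.range m, |tval k (i + 1) j φ (z a) (z (a + 1)) - segAvg φ (z a) (z (a + 1))|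
          ≤ ∑ a ∈ Finset.range m, Y * qr (1 / 2 ^ k) := by
            refine Finset.sum_le_sum fun a ha => ?_
            have ha' := Finset.mem_range.1 ha
            rw [tval, if_pos h3]
            have e0 : φ (z a) = segAvg φ (z a) (z a) := by
              unfold segAvg; simp
            rw [e0]
            refine abs_segAvg_sub_le hg.cont fun θ hθ => ?_
            have e : (z a + θ • (z a - z a)) - (z a + θ • (z (a + 1) - z a))
                = -(θ • (z (a + 1) - z a)) := by module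
            have hn : ‖(z a + θ • (z a - z a)) - (z a + θ • (z (a + 1) - z a))‖
                ≤ (1 / 2) ^ (k * (i + 1)) := by
              rw [e, norm_neg, norm_smul, Real.norm_of_nonneg hθ.1, hstep a ha']
              exact mul_le_of_le_one_left (by positivity) hθ.2
            have hle : (1 / 2 : ℝ) ^ (k * (i + 1)) / (1 / 2) ^ j ≤ 1 / 2 ^ k := by
              rw [half_pow_div _ _ (by omega), one_div_two_pow]
              apply pow_le_pow_of_le_one (by norm_num) (by norm_num)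
              omega
            have hls : (1 / 2 : ℝ) ^ (k * (i + 1)) ≤ (1 / 2) ^ j := by
              apply pow_le_pow_of_le_one (by norm_num) (by norm_num)
              omega
            refine (hg.lip _ (hconv.add_smul_sub_mem (hz a ha'.le) (hz a ha'.le) hθ) _
              (hconv.add_smul_sub_mem (hz a ha'.le) (hz (a + 1) ha') hθ) (hn.trans hls)).trans ?_
            apply mul_le_mul_of_nonneg_left _ hY
            refine le_trans ?_ hsq
            calc ‖(z a + θ • (z a - z a)) - (z a + θ • (z (a + 1) - z a))‖ / (1 / 2) ^ j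
                ≤ (1 / 2 : ℝ) ^ (k * (i + 1)) / (1 / 2) ^ j := by gcongr
              _ ≤ 1 / 2 ^ k := hle
              _ ≤ 1 / √(2 ^ k) := by
                  apply one_div_le_one_div_of_le (Real.sqrt_pos.2 hR0)
                  rw [Real.sqrt_le_left hR0.le]
                  nlinarith
        _ = Y * qr (1 / 2 ^ k) * m := by simp [mul_comm]
    · have : ∀ a ∈ Finset.range m, tval k (i + 1) j φ (z a) (z (a + 1))
          = segAvg φ (z a) (z (a + 1)) := fun a _ => by rw [tval, if_neg h3, if_neg h2]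
      rw [Finset.sum_congr rfl this, sub_self, abs_zero]
      positivity
  -- correction at level `i`
  have c2 : |segAvg φ (z 0) y - tval k i j φ (z 0) y| ≤ 2 * Y * qr (1 / 2 ^ k) := by
    rw [tval, if_neg h1]
    split_ifs with h3
    · rw [sub_zero]
      have hsr : (1 / 2 : ℝ) ^ j ≤ ‖z 0 - y‖ := by
        rw [hzy]
        apply pow_le_pow_of_le_one (by norm_num) (by norm_num)
        omega
      refine (hg.avg _ (hz 0 (Nat.zero_le _)) _ hy hsr).trans ?_
      have : √((1 / 2) ^ j / ‖z 0 - y‖) ≤ 1 / √(2 ^ k) := by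
        have h4 : (1 : ℝ) / √(2 ^ k) = √(1 / 2 ^ k) := by
          rw [Real.sqrt_div zero_le_one, Real.sqrt_one]
        rw [h4]
        apply Real.sqrt_le_sqrt
        rw [hzy, half_pow_div _ _ (by omega), one_div_two_pow]
        apply pow_le_pow_of_le_one (by norm_num) (by norm_num)
        omega
      nlinarith
    · rw [sub_self, abs_zero]
      positivity
  have a1 := abs_sub_le ((∑ a ∈ Finset.range m, tval k (i + 1) j φ (z a) (z (a + 1))) / m)
    ((∑ a ∈ Finset.range m, segAvg φ (z a) (z (a + 1))) / m) (tval k i j φ (z 0) y)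
  have a2 := abs_sub_le ((∑ a ∈ Finset.range m, segAvg φ (z a) (z (a + 1))) / m)
    (segAvg φ (z 0) y) (tval k i j φ (z 0) y)
  have h5 : 3 * Y * qr (1 / 2 ^ k) ≤ 5 * k * Y * qr (1 / 2 ^ k) := by
    have : (3 : ℝ) ≤ 5 * k := by linarith
    gcongr
  have h6 : 0 ≤ k * Y * qr (Real.log (m / 2 ^ k)) := by positivity
  linarith

/-- Young-type inequality. -/
lemma young_qr {B e : ℝ} (hB : 0 ≤ B) (he : 0 ≤ e) : B * qr e ≤ e + B ^ (4 / 3 : ℝ) := by
  have hq := qr_nonneg e
  have hq4 : qr e ^ 4 = e := by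
    unfold qr
    rw [show (4 : ℕ) = 2 * 2 by norm_num, pow_mul, Real.sq_sqrt (Real.sqrt_nonneg _),
      Real.sq_sqrt he]
  rcases le_or_gt B (qr e ^ 3) with h | h
  · calc B * qr e ≤ qr e ^ 3 * qr e := by gcongr
      _ = e := by rw [← pow_succ, hq4]
      _ ≤ e + B ^ (4 / 3 : ℝ) := by
        have : 0 ≤ B ^ (4 / 3 : ℝ) := by positivity
        linarith
  · have h1 : qr e ≤ B ^ (1 / 3 : ℝ) := by
      have : qr e = (qr e ^ 3) ^ (1 / 3 : ℝ) := by
        rw [← Real.rpow_natCast, ← Real.rpow_mul hq]; norm_num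
      rw [this]
      exact Real.rpow_le_rpow (by positivity) h.le (by norm_num)
    have h2 : B * B ^ (1 / 3 : ℝ) = B ^ (4 / 3 : ℝ) := by
      rcases eq_or_lt_of_le hB with h0 | h0
      · rw [← h0, zero_mul, Real.zero_rpow (by norm_num)]
      · nth_rewrite 1 [← Real.rpow_one B]
        rw [← Real.rpow_add h0]; norm_num
    calc B * qr e ≤ B * B ^ (1 / 3 : ℝ) := by gcongr
      _ = B ^ (4 / 3 : ℝ) := h2
      _ ≤ _ := by linarith

/-- The one-level estimate. -/
lemma level_estimate {φ : ℕ → E → ℝ} {Y : ℕ → ℝ} {ξ : ℝ} {z' y : E} {n k i m : ℕ} {z : ℕ → E}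
    (hξ : 0 ≤ ξ) (hk : 2 ≤ k)
    (hg : ∀ j < n, Good (φ j) ((1 / 2) ^ j) (2 ^ k) z' (Y j))
    (hstep : ∀ a < m, ‖z (a + 1) - z a‖ = (1 / 2) ^ (k * (i + 1)))
    (hz0 : ∀ a ≤ m, ‖z a - z 0‖ ≤ (1 / 2) ^ (k * i))
    (hnear : ‖z 0 - z'‖ ≤ 3 * (1 / 2) ^ (k * i))
    (hm : (2 : ℝ) ^ k ≤ m)
    (hzy : ‖z 0 - y‖ = (1 / 2) ^ (k * i)) (hmy : ‖z m - y‖ ≤ (1 / 2) ^ (k * (i + 1))) :
    - cost ξ n k i Y ≤ Real.log (m / 2 ^ k)
      + (∑ a ∈ Finset.range m, pred ξ n k (i + 1) φ (z a) (z (a + 1))) / m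
      - pred ξ n k i φ (z 0) y := by
  have hki : k * (i + 1) = k * i + k := by ring
  have hR0 : (0 : ℝ) < 2 ^ k := by positivity
  have hm0 : (0 : ℝ) < m := by linarith
  have hmpos : 0 < m := by exact_mod_cast hm0
  have hk' : (2 : ℝ) ≤ k := by exact_mod_cast hk
  set e := Real.log (m / 2 ^ k) with he
  have he0 : 0 ≤ e := Real.log_nonneg (by rwa [one_le_div hR0])
  -- the ball inclusions
  have hball : ∀ j, j < k * i + 2 * k → ∀ p : E, ‖p - z 0‖ ≤ (1 / 2) ^ (k * i) →
      p ∈ Metric.closedBall z' (4 * (2 ^ k) ^ 2 * (1 / 2) ^ j) := by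
    intro j hj p hp
    rw [Metric.mem_closedBall, dist_eq_norm]
    have h1 : ‖p - z'‖ ≤ ‖p - z 0‖ + ‖z 0 - z'‖ := norm_sub_le_norm_sub_add_norm_sub _ _ _
    have h2 : (1 / 2 : ℝ) ^ (k * i) ≤ (2 ^ k) ^ 2 * (1 / 2) ^ j := by
      have h3 : ((2 : ℝ) ^ k) ^ 2 * (1 / 2) ^ (2 * k) = 1 := by
        rw [← pow_mul, mul_comm k 2, ← mul_pow]; norm_num
      calc (1 / 2 : ℝ) ^ (k * i) = (2 ^ k) ^ 2 * (1 / 2) ^ (k * i + 2 * k) := by
            rw [pow_add]; linear_combination -(1 / 2 : ℝ) ^ (k * i) * h3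
        _ ≤ (2 ^ k) ^ 2 * (1 / 2) ^ j := by
            apply mul_le_mul_of_nonneg_left _ (by positivity)
            apply pow_le_pow_of_le_one (by norm_num) (by norm_num) hj.le
    linarith
  have hy0 : ‖y - z 0‖ ≤ (1 / 2) ^ (k * i) := by rw [norm_sub_rev, hzy]
  -- difference of predictions, field by field
  set D : ℕ → ℝ := fun j =>
    (∑ a ∈ Finset.range m, tval k (i + 1) j (φ j) (z a) (z (a + 1))) / m
      - tval k i j (φ j) (z 0) y with hD
  have hsum : (∑ a ∈ Finset.range m, pred ξ n k (i + 1) φ (z a) (z (a + 1))) / m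
      - pred ξ n k i φ (z 0) y = ξ * ∑ j ∈ Finset.range n, D j := by
    simp only [pred, hD]
    rw [← Finset.mul_sum, Finset.sum_comm, mul_div_assoc, Finset.sum_div, ← mul_sub,
      ← Finset.sum_sub_distrib]
  have hsplit : ∑ j ∈ Finset.range n, D j
      = ∑ j ∈ midSet n k i, D j + ∑ j ∈ coarseSet n k i, D j := by
    rw [midSet, coarseSet, Finset.sum_filter, Finset.sum_filter, ← Finset.sum_add_distrib]
    refine Finset.sum_congr rfl fun j _ => ?_
    by_cases h1 : j + k ≤ k * i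
    · simp [h1]
    · by_cases h2 : k * (i + 1) + k ≤ j
      · have : D j = 0 := tval_fine h1 (by omega) h2
        simp [h1, h2, this]
      · simp [h1, h2]
  have hmidb : ∀ j ∈ midSet n k i, -(75 * k * Y j * (qr e + qr (1 / 2 ^ k))) ≤ D j := by
    intro j hj
    rw [midSet, Finset.mem_filter, Finset.mem_range] at hj
    obtain ⟨hjn, h1, h2⟩ := hj
    have := tval_mid hk (hg j hjn) hstep
      (fun a ha => hball j (by omega) _ (hz0 a ha)) (hball j (by omega) _ hy0) hm hzy hmy h1 h2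
    exact (abs_le.1 this).1
  have hcoarseb : ∀ j ∈ coarseSet n k i, -(Y j * ((1 / 2) ^ (k * i) / (1 / 2) ^ j)) ≤ D j := by
    intro j hj
    rw [coarseSet, Finset.mem_filter, Finset.mem_range] at hj
    obtain ⟨hjn, h1⟩ := hj
    have := tval_coarse (y := y) (hg j hjn)
      (fun a ha => hball j (by omega) _ (hz0 a ha)) hmpos hz0 h1
    exact (abs_le.1 this).1
  have s1 := Finset.sum_le_sum hmidb
  have s2 := Finset.sum_le_sum hcoarseb
  rw [Finset.sum_neg_distrib] at s1 s2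
  have hYnn : 0 ≤ ∑ j ∈ midSet n k i, Y j := by
    refine Finset.sum_nonneg fun j hj => ?_
    rw [midSet, Finset.mem_filter, Finset.mem_range] at hj
    exact (hg j hj.1).nonneg
  set B := 75 * k * ξ * ∑ j ∈ midSet n k i, Y j with hB
  have hB0 : 0 ≤ B := by positivity
  have hyoung := young_qr hB0 he0
  have e1 : ∑ j ∈ midSet n k i, 75 * k * Y j * (qr e + qr (1 / 2 ^ k))
      = 75 * k * (∑ j ∈ midSet n k i, Y j) * (qr e + qr (1 / 2 ^ k)) := by
    rw [Finset.mul_sum, Finset.sum_mul]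
  rw [e1] at s1
  have hfinal : ξ * ∑ j ∈ Finset.range n, D j ≥
      -(B * qr e) - 75 * k * ξ * qr (1 / 2 ^ k) * ∑ j ∈ midSet n k i, Y j
      - ξ * ∑ j ∈ coarseSet n k i, Y j * ((1 / 2) ^ (k * i) / (1 / 2) ^ j) := by
    rw [hsplit]
    have t1 := mul_le_mul_of_nonneg_left s1 hξ
    have t2 := mul_le_mul_of_nonneg_left s2 hξ
    have t3 : ξ * -(75 * k * (∑ j ∈ midSet n k i, Y j) * (qr e + qr (1 / 2 ^ k)))
        = -(B * qr e) - 75 * k * ξ * qr (1 / 2 ^ k) * ∑ j ∈ midSet n k i, Y j := by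
      rw [hB]; ring
    rw [t3] at t1
    linarith
  rw [add_sub_assoc, hsum, cost]
  linarith

end Pool.Agent.Lib_MP_71c74a_pr
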