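import Pool.Agent.Lib_MP_71c74a_pr.FieldBase
import Pool.Agent.Lib_MP_71c74a_pr.LevelBase

/-!
# The sharp one-level estimate: definitions
-/

open MeasureTheory ProbabilityTheory Set
open scoped ENNReal NNReal Topology

namespace Pool.Agent.Lib_MP_71c74a_pr

variable {d : ℕ}

/-- The unit field around the point `z'`. -/
noncomputable def uf (φ : Eu d → ℝ) (j : ℕ) (z' : Eu d) : Eu d → ℝ :=
  fun x => φ (z' + (1 / 2 : ℝ) ^ j • x)

/-- The intermediate fields. -/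
def midS (n k c i : ℕ) : Finset ℕ :=
  (Finset.range n).filter fun j => ¬ j + k ≤ k * i ∧ ¬ k * i + k + c < j

/-- The intermediate fields finer than the block. -/
def highS (n k c i : ℕ) : Finset ℕ :=
  (Finset.range n).filter fun j => k * i < j ∧ j ≤ k * i + k + c

/-- The contribution of the partition functions of the field `J`. -/
noncomputable def WJ (R₀ C : ℝ) (k k₀ J : ℕ) (ψ : Eu d → ℝ) : ℝ :=
  ∑ g ∈ Finset.Ico (J - k₀) J, vs ^ (g + k₀ - J) * (1 + LZ R₀ C k k₀ J ψ g / 2 ^ g)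

lemma WJ_nonneg (R₀ C : ℝ) (k k₀ J : ℕ) (ψ : Eu d → ℝ) : 0 ≤ WJ R₀ C k k₀ J ψ := by
  unfold WJ
  refine Finset.sum_nonneg fun g _ => ?_
  have := LZ_nonneg R₀ C k k₀ J ψ g
  have := vs_pos
  positivity

/-- The cost of a level. -/
noncomputable def costS (C' R₀ C ξ κ : ℝ) (n k k₀ i : ℕ) (φ : ℕ → Eu d → ℝ) (Y : ℕ → ℝ)
    (z' : Eu d) : ℝ :=
  C' * κ * ∑ j ∈ highS n k k₀ i, WJ R₀ C k k₀ (j - k * i) (uf (φ j) j z')
    + 16 * (4 * k₀ + 2) * (ξ * ∑ j ∈ midS n k k₀ i, Y j) ^ 2 + 1 / 2 ^ k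
    + (2 * d + 6) * (1 / 2) ^ k₀ * (ξ * ∑ j ∈ midS n k k₀ i, Y j)
    + ξ * ∑ j ∈ coarseSet n k i, Y j * ((1 / 2) ^ (k * i) / (1 / 2) ^ j)

end Pool.Agent.Lib_MP_71c74a_pr
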