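import Pool.Agent.Lib_MP_71c74a_pr.LevelDefs
import Pool.Agent.Lib_MP_71c74a_pr.PathDefs
import Pool.Agent.Lib_MP_71c74a_pr.PolyPath

/-!
# The sharp one-level estimate
-/

open MeasureTheory Set
open scoped ENNReal NNReal Topology

namespace Pool.Agent.Lib_MP_71c74a_pr

variable {d : ℕ}

/-- Coarse fields. -/
lemma tvS_coarse {E : Type*} [NormedAddCommGroup E] [InnerProductSpace ℝ E] {φ : E → ℝ} {Y : ℝ}
    {z' y : E} {k c i j m : ℕ} {z : ℕ → E}
    (hg : Good φ ((1 / 2) ^ j) (2 ^ k) z' Y)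
    (hz : ∀ a ≤ m, z a ∈ Metric.closedBall z' (4 * (2 ^ k) ^ 2 * (1 / 2) ^ j)) (hm : 0 < m)
    (hz0 : ∀ a ≤ m, ‖z a - z 0‖ ≤ (1 / 2) ^ (k * i)) (h1 : j + k ≤ k * i) :
    |(∑ a ∈ Finset.range m, tvS k c (i + 1) j φ (z a) (z (a + 1))) / m - tvS k c i j φ (z 0) y|
      ≤ Y * ((1 / 2) ^ (k * i) / (1 / 2) ^ j) := by
  have hki : k * (i + 1) = k * i + k := by ring
  have h := tval_coarse (y := y) hg hz hm hz0 h1
  have e1 : tvS k c i j φ (z 0) y = tval k i j φ (z 0) y := by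
    rw [tvS, tval, if_pos h1, if_pos h1]
  have e2 : ∀ a ∈ Finset.range m, tvS k c (i + 1) j φ (z a) (z (a + 1))
      = tval k (i + 1) j φ (z a) (z (a + 1)) := fun a _ => by
    rw [tvS, tval, if_pos (by omega), if_pos (by omega)]
  rw [e1, Finset.sum_congr rfl e2]
  exact h

/-- Fine fields. -/
lemma tvS_fine {E : Type*} [NormedAddCommGroup E] [InnerProductSpace ℝ E] {φ : E → ℝ}
    {y : E} {k c i j m : ℕ} {z : ℕ → E} (h1 : ¬ j + k ≤ k * i)
    (h3 : k * i + k + c < j) :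
    (∑ a ∈ Finset.range m, tvS k c (i + 1) j φ (z a) (z (a + 1))) / m - tvS k c i j φ (z 0) y
      = 0 := by
  have hki : k * (i + 1) = k * i + k := by ring
  have e1 : tvS k c i j φ (z 0) y = 0 := by
    rw [tvS, if_neg h1, if_pos (by omega)]
  have e2 : ∀ a ∈ Finset.range m, tvS k c (i + 1) j φ (z a) (z (a + 1)) = 0 := fun a _ => by
    rw [tvS, if_neg (by omega), if_pos (by omega)]
  rw [e1, Finset.sum_congr rfl e2]
  simp

/-- Every contribution is bounded. -/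
lemma abs_tvS_le {φ : Eu d → ℝ} {Y : ℝ} {z' x y : Eu d} {k c i j : ℕ}
    (hg : Good φ ((1 / 2) ^ j) (2 ^ k) z' Y)
    (hx : x ∈ Metric.closedBall z' (4 * (2 ^ k) ^ 2 * (1 / 2) ^ j))
    (hy : y ∈ Metric.closedBall z' (4 * (2 ^ k) ^ 2 * (1 / 2) ^ j)) :
    |tvS k c i j φ x y| ≤ Y := by
  have hconv : Convex ℝ (Metric.closedBall z' (4 * (2 ^ k) ^ 2 * (1 / 2) ^ j)) :=
    convex_closedBall _ _
  unfold tvS
  split_ifs
  · exact hg.bdd _ hx
  · rw [abs_zero]; exact hg.nonneg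
  · exact abs_segAvg_le fun θ hθ => hg.bdd _ (hconv.add_smul_sub_mem hx hy hθ)

/-- Crude bound for the transition. -/
lemma abs_DD_le {φ : Eu d → ℝ} {Y : ℝ} {z' y : Eu d} {k c i j m : ℕ} {z : ℕ → Eu d}
    (hg : Good φ ((1 / 2) ^ j) (2 ^ k) z' Y)
    (hz : ∀ a ≤ m, z a ∈ Metric.closedBall z' (4 * (2 ^ k) ^ 2 * (1 / 2) ^ j)) (hm : 0 < m)
    (hy : y ∈ Metric.closedBall z' (4 * (2 ^ k) ^ 2 * (1 / 2) ^ j)) :
    |(∑ a ∈ Finset.range m, tvS k c (i + 1) j φ (z a) (z (a + 1))) / m - tvS k c i j φ (z 0) y|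
      ≤ 2 * Y := by
  have hm0 : (0 : ℝ) < m := by exact_mod_cast hm
  have h1 : |(∑ a ∈ Finset.range m, tvS k c (i + 1) j φ (z a) (z (a + 1))) / m| ≤ Y := by
    rw [abs_div, abs_of_pos hm0, div_le_iff₀ hm0]
    refine (Finset.abs_sum_le_sum_abs _ _).trans ?_
    calc ∑ a ∈ Finset.range m, |tvS k c (i + 1) j φ (z a) (z (a + 1))|
        ≤ ∑ a ∈ Finset.range m, Y := by
          refine Finset.sum_le_sum fun a ha => ?_
          have ha' := Finset.mem_range.1 ha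
          exact abs_tvS_le hg (hz a ha'.le) (hz (a + 1) ha')
      _ = Y * m := by simp [mul_comm]
  have h2 : |tvS k c i j φ (z 0) y| ≤ Y := abs_tvS_le hg (hz 0 (Nat.zero_le _)) hy
  have := abs_sub ((∑ a ∈ Finset.range m, tvS k c (i + 1) j φ (z a) (z (a + 1))) / m)
    (tvS k c i j φ (z 0) y)
  linarith

/-- Fields somewhat coarser than the block. -/
lemma tvS_low {φ : Eu d → ℝ} {Y : ℝ} {z' y : Eu d} {k c i j m : ℕ} {z : ℕ → Eu d}
    (hg : Good φ ((1 / 2) ^ j) (2 ^ k) z' Y)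
    (hstep : ∀ a < m, ‖z (a + 1) - z a‖ = (1 / 2) ^ (k * (i + 1)))
    (hz : ∀ a ≤ m, z a ∈ Metric.closedBall z' (4 * (2 ^ k) ^ 2 * (1 / 2) ^ j))
    (hy : y ∈ Metric.closedBall z' (4 * (2 ^ k) ^ 2 * (1 / 2) ^ j)) (hm : 0 < m)
    (hΛ : (m : ℝ) / 2 ^ k ≤ 2) (hmy : ‖z m - y‖ ≤ (1 / 2) ^ (k * (i + 1)))
    (h1 : ¬ j + k ≤ k * i) (h2 : j ≤ k * i) :
    |(∑ a ∈ Finset.range m, tvS k c (i + 1) j φ (z a) (z (a + 1))) / m - tvS k c i j φ (z 0) y|
      ≤ Y * (1 / 2 * √((m / 2 ^ k) ^ 2 - ‖(2 ^ (k * i) : ℝ) • (z m - z 0)‖ ^ 2)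
        + 2 * (1 / 2 ^ k)) := by
  have hki : k * (i + 1) = k * i + k := by ring
  have hY := hg.nonneg
  have hm0 : (0 : ℝ) < m := by exact_mod_cast hm
  set s : ℝ := (1 / 2) ^ j with hs
  set r : ℝ := (1 / 2) ^ (k * i) with hr
  set r' : ℝ := (1 / 2) ^ (k * (i + 1)) with hr'
  have hs0 : 0 < s := by positivity
  have hr0 : 0 < r := by positivity
  have hr'0 : 0 < r' := by positivity
  have hrs : r ≤ s := pow_le_pow_of_le_one (by norm_num) (by norm_num) h2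
  have hr'r : r' = r * (1 / 2 ^ k) := by
    rw [hr', hr, hki, pow_add, ← one_div_two_pow k]
  have h2k1 : (1 : ℝ) / 2 ^ k ≤ 1 := by
    rw [div_le_one (by positivity)]; exact one_le_pow₀ (by norm_num)
  have hr's : r' ≤ s := by
    rw [hr'r]
    calc r * (1 / 2 ^ k) ≤ r * 1 := by gcongr
      _ ≤ s := by linarith
  have hr'k : r' / s ≤ 1 / 2 ^ k := by
    rw [div_le_iff₀ hs0, hr'r, mul_comm]
    gcongr
  have hconv : Convex ℝ (Metric.closedBall z' (4 * (2 ^ k) ^ 2 * s)) := convex_closedBall _ _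
  -- the two values
  have e1 : tvS k c i j φ (z 0) y = segAvg φ (z 0) y := by
    rw [tvS, if_neg h1, if_neg (by omega)]
  have e2 : ∀ a ∈ Finset.range m, tvS k c (i + 1) j φ (z a) (z (a + 1)) = φ (z a) := fun a _ => by
    rw [tvS, if_pos (by omega)]
  rw [e1, Finset.sum_congr rfl e2]
  -- first comparison
  have c1 : |(∑ a ∈ Finset.range m, φ (z a)) / m
      - (∑ a ∈ Finset.range m, segAvg φ (z a) (z (a + 1))) / m| ≤ Y * (1 / 2 ^ k) := by
    rw [← sub_div, ← Finset.sum_sub_distrib, abs_div, abs_of_pos hm0, div_le_iff₀ hm0]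
    refine (Finset.abs_sum_le_sum_abs _ _).trans ?_
    calc ∑ a ∈ Finset.range m, |φ (z a) - segAvg φ (z a) (z (a + 1))|
        ≤ ∑ a ∈ Finset.range m, Y * (1 / 2 ^ k) := by
          refine Finset.sum_le_sum fun a ha => ?_
          have ha' := Finset.mem_range.1 ha
          have e0 : φ (z a) = segAvg φ (z a) (z a) := by
            unfold segAvg; simp
          rw [e0]
          refine abs_segAvg_sub_le hg.cont fun θ hθ => ?_
          have e : (z a + θ • (z a - z a)) - (z a + θ • (z (a + 1) - z a))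
              = -(θ • (z (a + 1) - z a)) := by module
          have hn : ‖(z a + θ • (z a - z a)) - (z a + θ • (z (a + 1) - z a))‖ ≤ r' := by
            rw [e, norm_neg, norm_smul, Real.norm_of_nonneg hθ.1, hstep a ha']
            exact mul_le_of_le_one_left (by positivity) hθ.2
          refine (hg.lip _ (hconv.add_smul_sub_mem (hz a ha'.le) (hz a ha'.le) hθ) _
            (hconv.add_smul_sub_mem (hz a ha'.le) (hz (a + 1) ha') hθ) (hn.trans hr's)).trans ?_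
          apply mul_le_mul_of_nonneg_left _ hY
          refine le_trans ?_ hr'k
          gcongr
      _ = Y * (1 / 2 ^ k) * m := by simp [mul_comm]
  -- second comparison
  have hLip : LipOn (polyPath z m) (m * r') 0 1 := fun τ _ τ' _ =>
    polyPath_lip z m (fun a ha => (hstep a ha).le) hr'0.le τ τ'
  have hmr : m * r' = (m / 2 ^ k) * r := by rw [hr'r]; ring
  have c2 := integral_sub_polyAvg hg.cont (continuous_polyPath z m) (Λ := m * r') (Lp := Y / s)
    (s := s) (by positivity) (by positivity) hLip hconv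
    (fun τ hτ => polyPath_mem hconv z hm hz hτ)
    (fun p hp q hq hpq => (hg.lip p hp q hq hpq).trans (le_of_eq (by ring))) 0 (by
      rw [pow_zero, div_one, hmr]
      calc 1 / 2 * ((m : ℝ) / 2 ^ k * r) ≤ 1 / 2 * (2 * r) := by gcongr
        _ = r := by ring
        _ ≤ s := hrs)
  rw [integral_polyPath hg.cont z hm] at c2
  have eP : polyAvg φ (polyPath z m) 0 = segAvg φ (z 0) (z m) := by
    unfold polyAvg zg
    simp [polyPath_zero, polyPath_one]
  rw [eP, polyPath_zero, polyPath_one, pow_zero, div_one, hmr] at c2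
  have hrinv : (2 : ℝ) ^ (k * i) * r = 1 := by
    rw [hr, ← mul_pow]; norm_num
  have eS : √(((m : ℝ) / 2 ^ k * r) ^ 2 - ‖z m - z 0‖ ^ 2)
      = r * √((m / 2 ^ k) ^ 2 - ‖(2 ^ (k * i) : ℝ) • (z m - z 0)‖ ^ 2) := by
    have : ((m : ℝ) / 2 ^ k * r) ^ 2 - ‖z m - z 0‖ ^ 2
        = r ^ 2 * ((m / 2 ^ k) ^ 2 - ‖(2 ^ (k * i) : ℝ) • (z m - z 0)‖ ^ 2) := by
      rw [norm_smul, Real.norm_of_nonneg (by positivity)]
      calc ((m : ℝ) / 2 ^ k * r) ^ 2 - ‖z m - z 0‖ ^ 2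
          = ((m : ℝ) / 2 ^ k * r) ^ 2 - (2 ^ (k * i) * r) ^ 2 * ‖z m - z 0‖ ^ 2 := by
            rw [hrinv]; ring
        _ = _ := by ring
    rw [this, Real.sqrt_mul (by positivity), Real.sqrt_sq hr0.le]
  rw [eS] at c2
  set Ee := √((m / 2 ^ k) ^ 2 - ‖(2 ^ (k * i) : ℝ) • (z m - z 0)‖ ^ 2) with hEe
  have hEe0 : 0 ≤ Ee := Real.sqrt_nonneg _
  have c2' : |(∑ a ∈ Finset.range m, segAvg φ (z a) (z (a + 1))) / m - segAvg φ (z 0) (z m)|
      ≤ Y * (1 / 2 * Ee) := by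
    refine c2.trans ?_
    calc Y / s * (1 / 2 * (r * Ee)) = Y * (r / s) * (1 / 2 * Ee) := by ring
      _ ≤ Y * 1 * (1 / 2 * Ee) := by
          gcongr
          rw [div_le_one hs0]; exact hrs
      _ = _ := by ring
  -- third comparison
  have c3 : |segAvg φ (z 0) (z m) - segAvg φ (z 0) y| ≤ Y * (1 / 2 ^ k) := by
    refine abs_segAvg_sub_le hg.cont fun θ hθ => ?_
    have e : (z 0 + θ • (z m - z 0)) - (z 0 + θ • (y - z 0)) = θ • (z m - y) := by module
    have hn : ‖(z 0 + θ • (z m - z 0)) - (z 0 + θ • (y - z 0))‖ ≤ r' := by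
      rw [e, norm_smul, Real.norm_of_nonneg hθ.1]
      exact (mul_le_of_le_one_left (norm_nonneg _) hθ.2).trans hmy
    refine (hg.lip _ (hconv.add_smul_sub_mem (hz 0 (Nat.zero_le _)) (hz m le_rfl) hθ) _
      (hconv.add_smul_sub_mem (hz 0 (Nat.zero_le _)) hy hθ) (hn.trans hr's)).trans ?_
    apply mul_le_mul_of_nonneg_left _ hY
    refine le_trans ?_ hr'k
    gcongr
  have a1 := abs_sub_le ((∑ a ∈ Finset.range m, φ (z a)) / m)
    ((∑ a ∈ Finset.range m, segAvg φ (z a) (z (a + 1))) / m) (segAvg φ (z 0) y)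
  have a2 := abs_sub_le ((∑ a ∈ Finset.range m, segAvg φ (z a) (z (a + 1))) / m)
    (segAvg φ (z 0) (z m)) (segAvg φ (z 0) y)
  linarith

lemma two_pow_smul_sub (n : ℕ) (x y : Eu d) :
    ‖(2 ^ n : ℝ) • x - (2 ^ n : ℝ) • y‖ = 2 ^ n * ‖x - y‖ := norm_two_smul_sub n x y

/-- The block of a chain of points. -/
lemma blk_of_chain {z' y : Eu d} {k i m : ℕ} {z : ℕ → Eu d}
    (hstep : ∀ a < m, ‖z (a + 1) - z a‖ = (1 / 2) ^ (k * (i + 1)))
    (hz0 : ∀ a ≤ m, ‖z a - z 0‖ ≤ (1 / 2) ^ (k * i)) (hnear : ‖z 0 - z'‖ ≤ 3 * (1 / 2) ^ (k * i))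
    (hm : (2 : ℝ) ^ k ≤ m) (hΛ : (m : ℝ) / 2 ^ k ≤ 2)
    (hzy : ‖z 0 - y‖ = (1 / 2) ^ (k * i)) (hmy : ‖z m - y‖ ≤ (1 / 2) ^ (k * (i + 1))) :
    Blk (fun τ => (2 ^ (k * i) : ℝ) • (polyPath z m τ - z')) (m / 2 ^ k)
      ((2 ^ (k * i) : ℝ) • (y - z')) k := by
  have hki : k * (i + 1) = k * i + k := by ring
  have h2k : (0 : ℝ) < 2 ^ k := by positivity
  have hm0 : (0 : ℝ) < m := by linarith
  have hmpos : 0 < m := by exact_mod_cast hm0
  set L : ℝ := 2 ^ (k * i) with hL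
  have hL0 : 0 < L := by positivity
  set r : ℝ := (1 / 2) ^ (k * i) with hr
  set r' : ℝ := (1 / 2) ^ (k * (i + 1)) with hr'
  have hr0 : 0 < r := by positivity
  have hr'0 : 0 < r' := by positivity
  have hLr : L * r = 1 := by rw [hL, hr, ← mul_pow]; norm_num
  have hr'r : r' = r * (1 / 2 ^ k) := by
    rw [hr', hr, hki, pow_add, ← one_div_two_pow k]
  have hLr' : L * r' = 1 / 2 ^ k := by rw [hr'r, ← mul_assoc, hLr, one_mul]
  have hsub : ∀ p q : Eu d, ‖L • (p - z') - L • (q - z')‖ = L * ‖p - q‖ := fun p q => by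
    rw [← smul_sub, norm_smul, Real.norm_of_nonneg hL0.le, sub_sub_sub_cancel_right]
  refine ⟨?_, ?_, hΛ, ?_, ?_, ?_⟩
  · intro τ _ τ' _
    simp only
    rw [hsub]
    calc L * ‖polyPath z m τ - polyPath z m τ'‖ ≤ L * (m * r' * |τ - τ'|) := by
          gcongr
          exact polyPath_lip z m (fun a ha => (hstep a ha).le) hr'0.le τ τ'
      _ = (L * r') * m * |τ - τ'| := by ring
      _ = _ := by rw [hLr']; ring
  · rwa [one_le_div h2k]
  · intro τ hτ
    have h1 : polyPath z m τ ∈ Metric.closedBall (z 0) r :=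
      polyPath_mem (convex_closedBall _ _) z hmpos (fun a ha => by
        rw [Metric.mem_closedBall, dist_eq_norm]; exact hz0 a ha) hτ
    rw [Metric.mem_closedBall, dist_eq_norm] at h1
    rw [norm_smul, Real.norm_of_nonneg hL0.le]
    have h2 := norm_sub_le_norm_sub_add_norm_sub (polyPath z m τ) (z 0) z'
    calc L * ‖polyPath z m τ - z'‖ ≤ L * (4 * r) := by gcongr; linarith
      _ = 4 * (L * r) := by ring
      _ = 4 := by rw [hLr, mul_one]
  · rw [polyPath_zero, hsub, norm_sub_rev, hzy, hLr]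
  · rw [polyPath_one, hsub]
    calc L * ‖z m - y‖ ≤ L * r' := by gcongr
      _ = 1 / 2 ^ k := hLr'

lemma ctl_of_good {φ : Eu d → ℝ} {Y : ℝ} {z' : Eu d} {k j : ℕ}
    (hg : Good φ ((1 / 2) ^ j) (2 ^ k) z' Y) : Ctl (uf φ j z') Y (4 * (2 ^ k) ^ 2) := by
  have hs : (0 : ℝ) < (1 / 2) ^ j := by positivity
  have hmem : ∀ p : Eu d, ‖p‖ ≤ 4 * (2 ^ k) ^ 2 →
      z' + (1 / 2 : ℝ) ^ j • p ∈ Metric.closedBall z' (4 * (2 ^ k) ^ 2 * (1 / 2) ^ j) := by
    intro p hp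
    rw [Metric.mem_closedBall, dist_eq_norm, add_sub_cancel_left, norm_smul,
      Real.norm_of_nonneg hs.le, mul_comm]
    gcongr
  refine ⟨?_, hg.nonneg, fun p hp => hg.bdd _ (hmem p hp), fun p q hp hq hpq => ?_⟩
  · unfold uf
    exact hg.cont.comp (by fun_prop)
  · have e : (z' + (1 / 2 : ℝ) ^ j • p) - (z' + (1 / 2 : ℝ) ^ j • q) = (1 / 2 : ℝ) ^ j • (p - q) := by
      module
    have hn : ‖(z' + (1 / 2 : ℝ) ^ j • p) - (z' + (1 / 2 : ℝ) ^ j • q)‖
        = (1 / 2) ^ j * ‖p - q‖ := by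
      rw [e, norm_smul, Real.norm_of_nonneg hs.le]
    have := hg.lip _ (hmem p hp) _ (hmem q hq) (by
      rw [hn]; exact mul_le_of_le_one_right hs.le hpq)
    rw [hn] at this
    unfold uf
    refine this.trans (le_of_eq ?_)
    field_simp

/-- Fields finer than the block. -/
lemma DD_high {φ : Eu d → ℝ} {z' y : Eu d} {k c i J m : ℕ} {z : ℕ → Eu d} (hφ : Continuous φ)
    (hm : 0 < m) (hJ : 0 < J) (hk : 0 < k) (hJ2 : J ≤ k + c) :
    (∑ a ∈ Finset.range m, tvS k c (i + 1) (k * i + J) φ (z a) (z (a + 1))) / m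
        - tvS k c i (k * i + J) φ (z 0) y
      = (∫ τ in (0 : ℝ)..1, uf φ (k * i + J) z'
          ((2 ^ J : ℝ) • ((2 ^ (k * i) : ℝ) • (polyPath z m τ - z'))))
        - refv c J (uf φ (k * i + J) z')
          ((2 ^ J : ℝ) • ((2 ^ (k * i) : ℝ) • (polyPath z m 0 - z')))
          ((2 ^ J : ℝ) • ((2 ^ (k * i) : ℝ) • (y - z'))) := by
  have hki : k * (i + 1) = k * i + k := by ring
  have huf : ∀ p : Eu d, z' + (1 / 2 : ℝ) ^ (k * i + J) •
      ((2 ^ J : ℝ) • ((2 ^ (k * i) : ℝ) • (p - z'))) = p := by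
    intro p
    rw [smul_smul, smul_smul]
    have : ((1 : ℝ) / 2) ^ (k * i + J) * 2 ^ J * 2 ^ (k * i) = 1 := by
      rw [mul_assoc, ← pow_add, add_comm J, ← mul_pow]; norm_num
    rw [this, one_smul]; abel
  have e1 : ∀ a ∈ Finset.range m, tvS k c (i + 1) (k * i + J) φ (z a) (z (a + 1))
      = segAvg φ (z a) (z (a + 1)) := fun a _ => by
    rw [tvS, if_neg (by omega), if_neg (by omega)]
  have e2 : ∫ τ in (0 : ℝ)..1, uf φ (k * i + J) z'
          ((2 ^ J : ℝ) • ((2 ^ (k * i) : ℝ) • (polyPath z m τ - z')))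
      = ∫ τ in (0 : ℝ)..1, φ (polyPath z m τ) := by
    refine intervalIntegral.integral_congr fun τ _ => ?_
    show φ (z' + (1 / 2 : ℝ) ^ (k * i + J) •
      ((2 ^ J : ℝ) • ((2 ^ (k * i) : ℝ) • (polyPath z m τ - z')))) = _
    rw [huf]
  rw [Finset.sum_congr rfl e1, e2, integral_polyPath hφ z hm]
  congr 1
  unfold refv
  rw [tvS, if_neg (by omega)]
  by_cases h : J ≤ c
  · rw [if_pos h, if_neg (by omega)]
    unfold segAvg
    refine intervalIntegral.integral_congr fun θ _ => ?_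
    show φ (z 0 + θ • (y - z 0)) = φ (z' + (1 / 2 : ℝ) ^ (k * i + J) •
      ((2 ^ J : ℝ) • ((2 ^ (k * i) : ℝ) • (polyPath z m 0 - z'))
        + θ • ((2 ^ J : ℝ) • ((2 ^ (k * i) : ℝ) • (y - z'))
          - (2 ^ J : ℝ) • ((2 ^ (k * i) : ℝ) • (polyPath z m 0 - z')))))
    congr 1
    have h1 := huf (polyPath z m 0 + θ • (y - polyPath z m 0))
    rw [polyPath_zero] at h1
    rw [polyPath_zero]
    conv_lhs => rw [← h1]
    module
  · rw [if_neg h, if_pos (by omega)]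

lemma sum_vs_le (g K : ℕ) : ∑ J ∈ Finset.Ioc g (g + K), vs ^ (g + K - J) ≤ 4 := by
  have hv := vs_pos
  have hv2 := vs_le
  induction K with
  | zero => simp
  | succ K ih =>
    have e : Finset.Ioc g (g + (K + 1)) = insert (g + (K + 1)) (Finset.Ioc g (g + K)) := by
      ext a
      simp only [Finset.mem_Ioc, Finset.mem_insert]
      omega
    rw [e, Finset.sum_insert (by simp only [Finset.mem_Ioc]; omega), Nat.sub_self, pow_zero]
    have h1 : ∑ J ∈ Finset.Ioc g (g + K), vs ^ (g + (K + 1) - J)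
        = vs * ∑ J ∈ Finset.Ioc g (g + K), vs ^ (g + K - J) := by
      rw [Finset.mul_sum]
      refine Finset.sum_congr rfl fun J hJ => ?_
      rw [Finset.mem_Ioc] at hJ
      rw [← pow_succ']
      congr 1
      omega
    rw [h1]
    have h0 : 0 ≤ ∑ J ∈ Finset.Ioc g (g + K), vs ^ (g + K - J) := by positivity
    nlinarith

/-- Exchange of the sums over fields and generations. -/
lemma sum_swap_le (K M : ℕ) (S : Finset ℕ) (hS : ∀ J ∈ S, J ≤ M) (f : ℕ → ℝ)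
    (hf : ∀ g, 0 ≤ f g) :
    ∑ J ∈ S, ∑ g ∈ Finset.Ico (J - K) J, vs ^ (g + K - J) * f g
      ≤ 4 * ∑ g ∈ Finset.range M, f g := by
  have hv := vs_pos
  have h1 : ∀ J ∈ S, ∑ g ∈ Finset.Ico (J - K) J, vs ^ (g + K - J) * f g
      = ∑ g ∈ Finset.range M, if J ∈ Finset.Ioc g (g + K) then vs ^ (g + K - J) * f g else 0 := by
    intro J hJ
    rw [← Finset.sum_filter]
    refine Finset.sum_congr ?_ fun _ _ => rfl
    ext g
    have := hS J hJ
    simp only [Finset.mem_Ico, Finset.mem_filter, Finset.mem_range, Finset.mem_Ioc]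
    omega
  rw [Finset.sum_congr rfl h1, Finset.sum_comm, Finset.mul_sum]
  refine Finset.sum_le_sum fun g _ => ?_
  rw [← Finset.sum_filter, ← Finset.sum_mul]
  apply mul_le_mul_of_nonneg_right _ (hf g)
  refine le_trans ?_ (sum_vs_le g K)
  apply Finset.sum_le_sum_of_subset_of_nonneg
  · intro J hJ
    exact (Finset.mem_filter.1 hJ).2
  · intro J _ _
    positivity

end Pool.Agent.Lib_MP_71c74a_pr
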