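import Pool.Agent.Lib_MP_71c74a_pr.FieldTotal
import Pool.Agent.Lib_MP_71c74a_pr.LevelSharp

/-!
# The sharp one-level estimate: conclusion
-/

open MeasureTheory Set
open scoped ENNReal NNReal Topology

namespace Pool.Agent.Lib_MP_71c74a_pr

variable {d : ℕ}

/-- **The sharp one-level estimate.** -/
theorem level_sharp (d : ℕ) {R₀ C : ℝ} (hR : 0 < R₀) (hC : 0 < C) :
    ∃ C' : ℝ, 0 < C' ∧ ∀ (ξ κ : ℝ) (n k k₀ i : ℕ) (φ : ℕ → Eu d → ℝ) (Y : ℕ → ℝ) (z' : Eu d),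
      0 ≤ ξ → 0 ≤ κ → ξ * vs ^ k₀ ≤ κ → κ * 4 ^ k₀ ≤ 4 → 8 * (d : ℝ) ≤ 2 ^ k₀ →
      9 * (d : ℝ) + 16 ≤ 2 ^ k → 4 * k₀ ≤ k → 0 < k₀ →
      (∀ j < n, Good (φ j) ((1 / 2) ^ j) (2 ^ k) z' (Y j)) →
      LevEst ξ n k k₀ i φ z' (costS C' R₀ C ξ κ n k k₀ i φ Y z') := by
  obtain ⟨C', hC', hfield⟩ := field_total d hR hC (ε₀ := 1 / 10000) (by norm_num)
  refine ⟨C', hC', ?_⟩
  intro ξ κ n k k₀ i φ Y z' hξ hκ hξκ hκ4 hdk0 hdk hkk hk0 hg m z y hstep hz0 hnear hm hzy hmy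
  have hki : k * (i + 1) = k * i + k := by ring
  have hR0 : (0 : ℝ) < 2 ^ k := by positivity
  have hm0 : (0 : ℝ) < m := by linarith
  have hmpos : 0 < m := by exact_mod_cast hm0
  have hvs := vs_pos
  have hkpos : 0 < k := by omega
  set Λ : ℝ := m / 2 ^ k with hΛ
  have hΛ1 : 1 ≤ Λ := by rwa [hΛ, one_le_div hR0]
  have hlog0 : 0 ≤ Real.log Λ := Real.log_nonneg hΛ1
  have h2k : (0 : ℝ) < 1 / 2 ^ k := by positivity
  -- the ball inclusions
  have hball : ∀ j, j < k * i + 2 * k → ∀ p : Eu d, ‖p - z 0‖ ≤ (1 / 2) ^ (k * i) →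
      p ∈ Metric.closedBall z' (4 * (2 ^ k) ^ 2 * (1 / 2) ^ j) := by
    intro j hj p hp
    rw [Metric.mem_closedBall, dist_eq_norm]
    have h1 : ‖p - z'‖ ≤ ‖p - z 0‖ + ‖z 0 - z'‖ := norm_sub_le_norm_sub_add_norm_sub _ _ _
    have h2 : (1 / 2 : ℝ) ^ (k * i) ≤ (2 ^ k) ^ 2 * (1 / 2) ^ j := by
      have h3 : ((2 : ℝ) ^ k) ^ 2 * (1 / 2) ^ (2 * k) = 1 := by
        rw [← pow_mul, mul_comm k 2, ← mul_pow]; norm_num
      calc (1 / 2 : ℝ) ^ (k * i) = (2 ^ k) ^ 2 * (1 / 2) ^ (k * i + 2 * k) := by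
            rw [pow_add]; linear_combination -(1 / 2 : ℝ) ^ (k * i) * h3
        _ ≤ (2 ^ k) ^ 2 * (1 / 2) ^ j := by
            apply mul_le_mul_of_nonneg_left _ (by positivity)
            apply pow_le_pow_of_le_one (by norm_num) (by norm_num) hj.le
    linarith
  have hy0 : ‖y - z 0‖ ≤ (1 / 2) ^ (k * i) := by rw [norm_sub_rev, hzy]
  -- difference of predictions, field by field
  set D : ℕ → ℝ := fun j =>
    (∑ a ∈ Finset.range m, tvS k k₀ (i + 1) j (φ j) (z a) (z (a + 1))) / m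
      - tvS k k₀ i j (φ j) (z 0) y with hD
  have hsum : (∑ a ∈ Finset.range m, predS ξ n k k₀ (i + 1) φ (z a) (z (a + 1))) / m
      - predS ξ n k k₀ i φ (z 0) y = ξ * ∑ j ∈ Finset.range n, D j := by
    simp only [predS, hD]
    rw [← Finset.mul_sum, Finset.sum_comm, mul_div_assoc, Finset.sum_div, ← mul_sub,
      ← Finset.sum_sub_distrib]
  have hsplit : ∑ j ∈ Finset.range n, D j
      = ∑ j ∈ midS n k k₀ i, D j + ∑ j ∈ coarseSet n k i, D j := by
    rw [midS, coarseSet, Finset.sum_filter, Finset.sum_filter, ← Finset.sum_add_distrib]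
    refine Finset.sum_congr rfl fun j _ => ?_
    by_cases h1 : j + k ≤ k * i
    · simp [h1]
    · by_cases h2 : k * i + k + k₀ < j
      · have : D j = 0 := tvS_fine h1 h2
        simp [h1, h2, this]
      · simp [h1, h2]
  have hcoarseb : ∀ j ∈ coarseSet n k i, -(Y j * ((1 / 2) ^ (k * i) / (1 / 2) ^ j)) ≤ D j := by
    intro j hj
    rw [coarseSet, Finset.mem_filter, Finset.mem_range] at hj
    obtain ⟨hjn, h1⟩ := hj
    have := tvS_coarse (y := y) (c := k₀) (hg j hjn)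
      (fun a ha => hball j (by omega) _ (hz0 a ha)) hmpos hz0 h1
    exact (abs_le.1 this).1
  have s2 := Finset.sum_le_sum hcoarseb
  rw [Finset.sum_neg_distrib] at s2
  have s2' := mul_le_mul_of_nonneg_left s2 hξ
  have hYmid : ∀ j ∈ midS n k k₀ i, 0 ≤ Y j := fun j hj => by
    rw [midS, Finset.mem_filter, Finset.mem_range] at hj
    exact (hg j hj.1).nonneg
  set SY := ∑ j ∈ midS n k k₀ i, Y j with hSY
  have hSY0 : 0 ≤ SY := Finset.sum_nonneg hYmid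
  set a := ξ * SY with ha
  have ha0 : 0 ≤ a := by positivity
  have hW0 : 0 ≤ C' * κ * ∑ j ∈ highS n k k₀ i, WJ R₀ C k k₀ (j - k * i) (uf (φ j) j z') := by
    have : 0 ≤ ∑ j ∈ highS n k k₀ i, WJ R₀ C k k₀ (j - k * i) (uf (φ j) j z') :=
      Finset.sum_nonneg fun j _ => WJ_nonneg _ _ _ _ _ _
    positivity
  set KW := C' * κ * ∑ j ∈ highS n k k₀ i, WJ R₀ C k k₀ (j - k * i) (uf (φ j) j z') with hKW
  have ht1 : 0 ≤ 16 * (4 * (k₀ : ℝ) + 2) * a ^ 2 := by positivity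
  have ht2 : 0 ≤ (2 * (d : ℝ) + 6) * (1 / 2) ^ k₀ * a := by positivity
  -- it is enough to bound the contribution of the intermediate fields
  have hgoal : -(KW + 16 * (4 * k₀ + 2) * a ^ 2 + 1 / 2 ^ k + (2 * d + 6) * (1 / 2) ^ k₀ * a)
      ≤ Real.log Λ + ξ * ∑ j ∈ midS n k k₀ i, D j := by
    -- crude bound
    have hcrude : -(2 * a) ≤ ξ * ∑ j ∈ midS n k k₀ i, D j := by
      have h1 : ∀ j ∈ midS n k k₀ i, -(2 * Y j) ≤ D j := by
        intro j hj
        rw [midS, Finset.mem_filter, Finset.mem_range] at hj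
        have := abs_DD_le (y := y) (c := k₀) (i := i) (hg j hj.1)
          (fun a ha => hball j (by omega) _ (hz0 a ha)) hmpos (hball j (by omega) _ hy0)
        exact (abs_le.1 this).1
      have h2 := Finset.sum_le_sum h1
      rw [Finset.sum_neg_distrib, ← Finset.mul_sum] at h2
      have h3 := mul_le_mul_of_nonneg_left h2 hξ
      rw [ha, hSY]
      linarith
    by_cases hcase : (4 * k₀ + 2) * a ≤ 1 / 8
    swap
    · rw [not_le] at hcase
      have h1 : 2 * a ≤ 16 * (4 * k₀ + 2) * a ^ 2 := by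
        have := mul_le_mul_of_nonneg_left hcase.le ha0
        linarith
      linarith
    by_cases hΛ2 : Λ ≤ 2
    swap
    · rw [not_le] at hΛ2
      have h1 : Real.log 2 ≤ Real.log Λ := Real.log_le_log (by norm_num) hΛ2.le
      have h2 := Real.log_two_gt_d9
      have h3 : 2 * a ≤ (4 * k₀ + 2) * a := by
        apply mul_le_mul_of_nonneg_right _ ha0
        have : (0 : ℝ) ≤ k₀ := Nat.cast_nonneg _
        linarith
      linarith
    -- the main case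
    have hB := blk_of_chain hstep hz0 hnear hm hΛ2 hzy hmy
    set Z : ℝ → Eu d := fun τ => (2 ^ (k * i) : ℝ) • (polyPath z m τ - z') with hZ
    set yb : Eu d := (2 ^ (k * i) : ℝ) • (y - z') with hyb
    have hZc : Continuous Z := by
      have h := ((continuous_polyPath z m).sub (continuous_const (y := z'))).const_smul
        ((2 : ℝ) ^ (k * i))
      exact h
    set Ee := √(Λ ^ 2 - ‖Z 1 - Z 0‖ ^ 2) with hEe
    have hEe0 : 0 ≤ Ee := Real.sqrt_nonneg _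
    have hZ10 : Z 1 - Z 0 = (2 ^ (k * i) : ℝ) • (z m - z 0) := by
      rw [hZ]; simp only [polyPath_one, polyPath_zero]
      rw [← smul_sub, sub_sub_sub_cancel_right]
    -- energies
    set f : ℕ → ℝ := fun g => eg Z g + Jg Z g with hf
    have hf0 : ∀ g, 0 ≤ f g := fun g => add_nonneg (eg_nonneg Z g) (Jg_nonneg Z g)
    have hE0 : 0 ≤ Λ ^ 2 - ‖Z 1 - Z 0‖ ^ 2 := by
      have h1 := sum_eg_le hB.lip 0
      simpa using h1
    have hEsq : Ee ^ 2 = Λ ^ 2 - ‖Z 1 - Z 0‖ ^ 2 := Real.sq_sqrt hE0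
    have hEle : Ee ^ 2 ≤ 3 * (Λ - 1) + 2 * (1 / 2 ^ k) := by
      rw [hEsq]
      have h1 := hB.dist
      have h2 := hB.close
      have e : yb - Z 0 = (Z 1 - Z 0) - (Z 1 - yb) := by abel
      have h3 := norm_sub_le (Z 1 - Z 0) (Z 1 - yb)
      rw [← e, h1] at h3
      have h4 : 1 - 1 / 2 ^ k ≤ ‖Z 1 - Z 0‖ := by linarith
      have h5 : (1 : ℝ) / 2 ^ k ≤ 1 := by
        rw [div_le_one hR0]; exact one_le_pow₀ (by norm_num)
      have h6 : (1 - 1 / 2 ^ k) ^ 2 ≤ ‖Z 1 - Z 0‖ ^ 2 := pow_le_pow_left₀ (by linarith) h4 2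
      have h7 : (1 - 1 / (2 : ℝ) ^ k) ^ 2 = 1 - 2 * (1 / 2 ^ k) + (1 / 2 ^ k) ^ 2 := by ring
      have h8 : 0 ≤ (Λ - 1) * (2 - Λ) :=
        mul_nonneg (sub_nonneg.2 hB.Λ1) (sub_nonneg.2 hΛ2)
      have h9 : (Λ - 1) * (2 - Λ) = 3 * Λ - 2 - Λ ^ 2 := by ring
      rw [h7] at h6
      rw [h9] at h8
      linarith only [h6, h8, sq_nonneg (1 / (2 : ℝ) ^ k)]
    have hef : ∑ g ∈ Finset.range (k + k₀), f g ≤ 129 / 4 * Ee ^ 2 := by
      rw [hf]
      simp only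
      rw [Finset.sum_add_distrib, hEsq]
      have h1 := sum_eg_le hB.lip (k + k₀)
      have h2 := sum_Jg Z (k + k₀)
      linarith
    -- the fields finer than the block
    have hhigh : ∀ j ∈ highS n k k₀ i, ξ * |D j| ≤
        (∑ g ∈ Finset.Ico (j - k * i - k₀) (j - k * i),
            2 / 10000 * (vs ^ (g + k₀ - (j - k * i)) * f g))
          + C' * κ * WJ R₀ C k k₀ (j - k * i) (uf (φ j) j z')
          + (ξ * Y j) * ((4 * k₀ + 2) * (Λ - 1 + 1 / 2 ^ k) + 1 / 2 * Ee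
            + (2 * d + 4) * (1 / 2) ^ k₀) := by
      intro j hj
      rw [highS, Finset.mem_filter, Finset.mem_range] at hj
      obtain ⟨hjn, hj1, hj2⟩ := hj
      obtain ⟨J, rfl⟩ : ∃ J, j = k * i + J := ⟨j - k * i, by omega⟩
      have hJ1 : 0 < J := by omega
      have hJ2 : J ≤ k + k₀ := by omega
      have eJ : k * i + J - k * i = J := by omega
      rw [eJ]
      have hS : Scl d k k₀ J (4 * (2 ^ k) ^ 2) := by
        refine ⟨hdk0, hdk, hkk, hJ1, hJ2, hk0, ?_⟩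
        have h1 : (2 : ℝ) ^ J ≤ 2 ^ (k + k₀) := pow_le_pow_right₀ (by norm_num) hJ2
        have h2 : (5 : ℝ) * 2 ^ k₀ ≤ 4 * 2 ^ k := by
          have h3 : (2 : ℝ) ^ (k₀ + 3 * k₀) ≤ 2 ^ k := pow_le_pow_right₀ (by norm_num) (by omega)
          have h4 : (2 : ℝ) ^ 3 ≤ 2 ^ (3 * k₀) := pow_le_pow_right₀ (by norm_num) (by omega)
          rw [pow_add] at h3
          have h5 : (0 : ℝ) < 2 ^ k₀ := by positivity
          nlinarith only [h3, h5, mul_le_mul_of_nonneg_left h4 h5.le]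
        calc (5 : ℝ) * 2 ^ J ≤ 5 * 2 ^ (k + k₀) := by gcongr
          _ = 2 ^ k * (5 * 2 ^ k₀) := by rw [pow_add]; ring
          _ ≤ 2 ^ k * (4 * 2 ^ k) := by gcongr
          _ = 4 * (2 ^ k) ^ 2 := by ring
      have h1 := hfield k k₀ J Z Λ (Y (k * i + J)) (4 * (2 ^ k) ^ 2) ξ κ yb
        (uf (φ (k * i + J)) (k * i + J) z') hB hZc (ctl_of_good (hg _ hjn)) hS hξ hκ hξκ hκ4
      have h2 := DD_high (z' := z') (y := y) (c := k₀) (i := i) (J := J) (z := z)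
        (hg _ hjn).cont hmpos hJ1 hkpos hJ2
      have h3 : D (k * i + J) = (∫ τ in (0 : ℝ)..1, uf (φ (k * i + J)) (k * i + J) z'
          ((2 ^ J : ℝ) • Z τ)) - refv k₀ J (uf (φ (k * i + J)) (k * i + J) z')
          ((2 ^ J : ℝ) • Z 0) ((2 ^ J : ℝ) • yb) := h2
      rw [h3]
      refine h1.trans (le_of_eq ?_)
      rw [Finset.sum_add_distrib]
      have e1 : ∑ g ∈ Finset.Ico (J - k₀) J, 2 * (1 / 10000) * vs ^ (g + k₀ - J) * (eg Z g + Jg Z g)
          = ∑ g ∈ Finset.Ico (J - k₀) J, 2 / 10000 * (vs ^ (g + k₀ - J) * f g) :=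
        Finset.sum_congr rfl fun g _ => by rw [hf]; ring
      have e2 : ∑ g ∈ Finset.Ico (J - k₀) J, C' * κ * vs ^ (g + k₀ - J)
          * (1 + LZ R₀ C k k₀ J (uf (φ (k * i + J)) (k * i + J) z') g / 2 ^ g)
          = C' * κ * WJ R₀ C k k₀ J (uf (φ (k * i + J)) (k * i + J) z') := by
        unfold WJ
        rw [Finset.mul_sum]
        exact Finset.sum_congr rfl fun g _ => by ring
      rw [e1, e2]
      ring
    -- the fields coarser than the block
    set lowS := (midS n k k₀ i).filter fun j => j ≤ k * i with hlowS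
    have hlow : ∀ j ∈ lowS, ξ * |D j| ≤ (ξ * Y j) * (1 / 2 * Ee + 2 * (1 / 2 ^ k)) := by
      intro j hj
      rw [hlowS, Finset.mem_filter, midS, Finset.mem_filter, Finset.mem_range] at hj
      obtain ⟨⟨hjn, h1, _⟩, h2⟩ := hj
      have h3 := tvS_low (c := k₀) (y := y) (hg j hjn) hstep
        (fun a ha => hball j (by omega) _ (hz0 a ha)) (hball j (by omega) _ hy0) hmpos hΛ2 hmy h1 h2
      rw [← hZ10, ← hΛ, ← hEe] at h3
      rw [mul_assoc]
      exact mul_le_mul_of_nonneg_left h3 hξ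
    -- the two kinds of intermediate fields
    have hmidsplit : ∀ F : ℕ → ℝ, ∑ j ∈ midS n k k₀ i, F j
        = ∑ j ∈ lowS, F j + ∑ j ∈ highS n k k₀ i, F j := by
      intro F
      rw [← Finset.sum_filter_add_sum_filter_not (midS n k k₀ i) (fun j => j ≤ k * i) F]
      congr 1
      refine Finset.sum_congr ?_ fun _ _ => rfl
      ext j
      simp only [midS, highS, Finset.mem_filter, Finset.mem_range]
      omega
    have habs : ξ * |∑ j ∈ midS n k k₀ i, D j| ≤ ∑ j ∈ midS n k k₀ i, ξ * |D j| := by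
      rw [← Finset.mul_sum]
      gcongr
      exact Finset.abs_sum_le_sum_abs _ _
    have hYsplit := hmidsplit Y
    have hYlow0 : 0 ≤ ∑ j ∈ lowS, Y j := Finset.sum_nonneg fun j hj => hYmid j (by
      rw [hlowS, Finset.mem_filter] at hj; exact hj.1)
    have hYhigh0 : 0 ≤ ∑ j ∈ highS n k k₀ i, Y j := Finset.sum_nonneg fun j hj => by
      rw [highS, Finset.mem_filter, Finset.mem_range] at hj
      exact (hg j hj.1).nonneg
    have hsumhigh := Finset.sum_le_sum hhigh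
    have hsumlow := Finset.sum_le_sum hlow
    have eh1 : ∑ j ∈ highS n k k₀ i, C' * κ * WJ R₀ C k k₀ (j - k * i) (uf (φ j) j z')
        = C' * κ * ∑ j ∈ highS n k k₀ i, WJ R₀ C k k₀ (j - k * i) (uf (φ j) j z') := by
      rw [Finset.mul_sum]
    have eh2 : ∀ (S : Finset ℕ) (c : ℝ), ∑ j ∈ S, (ξ * Y j) * c = (ξ * ∑ j ∈ S, Y j) * c := by
      intro S c
      rw [Finset.mul_sum, Finset.sum_mul]
    rw [Finset.sum_add_distrib, Finset.sum_add_distrib, eh1, eh2] at hsumhigh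
    rw [eh2] at hsumlow
    -- energies of the fields finer than the block
    have henergy : ∑ j ∈ highS n k k₀ i, ∑ g ∈ Finset.Ico (j - k * i - k₀) (j - k * i),
            2 / 10000 * (vs ^ (g + k₀ - (j - k * i)) * f g)
        ≤ 2 / 10000 * (4 * (129 / 4 * Ee ^ 2)) := by
      have e1 : ∑ j ∈ highS n k k₀ i, ∑ g ∈ Finset.Ico (j - k * i - k₀) (j - k * i),
            2 / 10000 * (vs ^ (g + k₀ - (j - k * i)) * f g)
          = 2 / 10000 * ∑ J ∈ (highS n k k₀ i).image (fun j => j - k * i),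
            ∑ g ∈ Finset.Ico (J - k₀) J, vs ^ (g + k₀ - J) * f g := by
        rw [Finset.sum_image, Finset.mul_sum]
        · refine Finset.sum_congr rfl fun j _ => ?_
          rw [Finset.mul_sum]
        · intro j₁ hj₁ j₂ hj₂ h
          simp only [highS, Finset.coe_filter, Finset.mem_range, mem_ofPred_eq] at hj₁ hj₂
          simp only at h
          omega
      rw [e1]
      have h1 := sum_swap_le k₀ (k + k₀) ((highS n k k₀ i).image (fun j => j - k * i)) (by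
        intro J hJ
        rw [Finset.mem_image] at hJ
        obtain ⟨j, hj, rfl⟩ := hJ
        simp only [highS, Finset.mem_filter] at hj
        omega) f hf0
      have h2 : 4 * ∑ g ∈ Finset.range (k + k₀), f g ≤ 4 * (129 / 4 * Ee ^ 2) := by gcongr
      have h3 := h1.trans h2
      gcongr
    -- conclusion
    have hlogΛ : (Λ - 1) / 2 ≤ Real.log Λ := by
      have hΛ0 : 0 < Λ := lt_of_lt_of_le one_pos hΛ1
      have h1 := Real.one_sub_inv_le_log_of_pos hΛ0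
      have h2 : (Λ - 1) / 2 ≤ 1 - Λ⁻¹ := by
        have h3 : 1 - Λ⁻¹ = (Λ - 1) / Λ := by field_simp
        rw [h3]
        apply div_le_div_of_nonneg_left (sub_nonneg.2 hΛ1) hΛ0 hΛ2
      linarith only [h1, h2]
    have hyoung : a * (1 / 2 * Ee) ≤ Ee ^ 2 / 24 + 3 / 2 * a ^ 2 := by
      nlinarith only [sq_nonneg (Ee - 6 * a)]
    have hD1 : ξ * |∑ j ∈ midS n k k₀ i, D j| ≤ 2 / 10000 * (4 * (129 / 4 * Ee ^ 2)) + KW
        + a * ((4 * k₀ + 2) * (Λ - 1 + 1 / 2 ^ k) + 1 / 2 * Ee + (2 * d + 6) * (1 / 2) ^ k₀) := by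
      refine habs.trans ?_
      rw [hmidsplit]
      have hk2 : (1 : ℝ) / 2 ^ k ≤ (1 / 2) ^ k₀ := by
        rw [one_div_two_pow]
        exact pow_le_pow_of_le_one (by norm_num) (by norm_num) (by omega)
      have hextra : 0 ≤ (4 * (k₀ : ℝ) + 2) * (Λ - 1 + 1 / 2 ^ k) := by
        have : 0 ≤ Λ - 1 + 1 / 2 ^ k := add_nonneg (sub_nonneg.2 hΛ1) h2k.le
        positivity
      have hd0 : 0 ≤ 2 * (d : ℝ) * (1 / 2) ^ k₀ := by positivity
      have hh0 : (0 : ℝ) ≤ (1 / 2) ^ k₀ := by positivity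
      have l1 : ξ * (∑ j ∈ lowS, Y j) * (1 / 2 * Ee + 2 * (1 / 2 ^ k))
          ≤ ξ * (∑ j ∈ lowS, Y j) * ((4 * k₀ + 2) * (Λ - 1 + 1 / 2 ^ k) + 1 / 2 * Ee
            + (2 * d + 6) * (1 / 2) ^ k₀) := by
        apply mul_le_mul_of_nonneg_left _ (by positivity)
        have e : (2 * (d : ℝ) + 6) * (1 / 2) ^ k₀ = 2 * d * (1 / 2) ^ k₀ + 6 * (1 / 2) ^ k₀ := by
          ring
        rw [e]
        linarith only [hextra, hd0, hh0, hk2, hEe0]
      have l2 : ξ * (∑ j ∈ highS n k k₀ i, Y j) * ((4 * k₀ + 2) * (Λ - 1 + 1 / 2 ^ k) + 1 / 2 * Ee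
            + (2 * d + 4) * (1 / 2) ^ k₀)
          ≤ ξ * (∑ j ∈ highS n k k₀ i, Y j) * ((4 * k₀ + 2) * (Λ - 1 + 1 / 2 ^ k) + 1 / 2 * Ee
            + (2 * d + 6) * (1 / 2) ^ k₀) := by
        gcongr
        norm_num
      have e3 : a * ((4 * k₀ + 2) * (Λ - 1 + 1 / 2 ^ k) + 1 / 2 * Ee + (2 * d + 6) * (1 / 2) ^ k₀)
          = ξ * (∑ j ∈ lowS, Y j) * ((4 * k₀ + 2) * (Λ - 1 + 1 / 2 ^ k) + 1 / 2 * Ee
            + (2 * d + 6) * (1 / 2) ^ k₀)
          + ξ * (∑ j ∈ highS n k k₀ i, Y j) * ((4 * k₀ + 2) * (Λ - 1 + 1 / 2 ^ k) + 1 / 2 * Ee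
            + (2 * d + 6) * (1 / 2) ^ k₀) := by
        rw [ha, hSY, hYsplit]; ring
      rw [e3, hKW]
      linarith only [hsumlow, hsumhigh, henergy, l1, l2]
    have hbad : a * ((4 * k₀ + 2) * (Λ - 1 + 1 / 2 ^ k)) ≤ 1 / 8 * (Λ - 1 + 1 / 2 ^ k) := by
      have : 0 ≤ Λ - 1 + 1 / 2 ^ k := add_nonneg (sub_nonneg.2 hΛ1) h2k.le
      calc a * ((4 * k₀ + 2) * (Λ - 1 + 1 / 2 ^ k))
          = ((4 * k₀ + 2) * a) * (Λ - 1 + 1 / 2 ^ k) := by ring
        _ ≤ _ := by gcongr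
    have hneg : -(ξ * |∑ j ∈ midS n k k₀ i, D j|) ≤ ξ * ∑ j ∈ midS n k k₀ i, D j := by
      rw [← mul_neg]
      gcongr
      exact neg_abs_le _
    have ha2 : 3 / 2 * a ^ 2 ≤ 16 * (4 * k₀ + 2) * a ^ 2 := by
      have h1 : (3 : ℝ) / 2 ≤ 16 * (4 * k₀ + 2) := by
        have : (0 : ℝ) ≤ k₀ := Nat.cast_nonneg _
        linarith only [this]
      gcongr
    have hexp : a * ((4 * k₀ + 2) * (Λ - 1 + 1 / 2 ^ k) + 1 / 2 * Ee + (2 * d + 6) * (1 / 2) ^ k₀)
        = a * ((4 * k₀ + 2) * (Λ - 1 + 1 / 2 ^ k)) + a * (1 / 2 * Ee)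
          + (2 * d + 6) * (1 / 2) ^ k₀ * a := by ring
    rw [hexp] at hD1
    linarith only [hD1, hneg, hbad, hyoung, hEle, hlogΛ, ha2, hΛ1, h2k, ht1, ht2]
  rw [add_sub_assoc, hsum, hsplit, mul_add]
  unfold costS
  linarith

end Pool.Agent.Lib_MP_71c74a_pr
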