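import Pool.Agent.Lib_MP_71c74a_pr.ETdef
import Pool.Agent.Lib_MP_71c74a_pr.Field
import Pool.Agent.Lib_MP_71c74a_pr.GoodOfTests
import Pool.Agent.Lib_MP_71c74a_pr.Net

/-!
# The functional controlling a field at unit scale
-/

open MeasureTheory ProbabilityTheory Set
open scoped ENNReal NNReal Topology

namespace Pool.Agent.Lib_MP_71c74a_pr

variable {d : ℕ}

/-- The functional. -/
noncomputable def XFun (F : Finset (Eu d)) (A B C ε : ℝ) (k M : ℕ) (φ : Eu d → ℝ) : ℝ≥0∞ :=
  1 + ∑ b ∈ F, eT ε φ (C⁻¹ • Finsupp.single b 1)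
    + (∑ b ∈ F, ⨆ m, eT ε (fun x => φ (b + x)) (lipT d m))
    + ∑ x ∈ F, ∑ y ∈ F, eT ε φ (avgN A M x y)
    + ∑ x ∈ F, ∑ w ∈ F, ∑ y ∈ F, eT ε φ (brkN B (1 / 2 ^ k) M x w y)

lemma measurable_XFun (F : Finset (Eu d)) (A B C ε : ℝ) (k M : ℕ) :
    Measurable (XFun F A B C ε k M) := by
  unfold XFun
  have h1 : Measurable (fun φ : Eu d → ℝ => ∑ b ∈ F, eT ε φ (C⁻¹ • Finsupp.single b 1)) :=
    Finset.measurable_sum _ fun b _ => measurable_eT _ _
  refine Measurable.add (Measurable.add (Measurable.add (h1.const_add 1) ?_) ?_) ?_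
  · refine Finset.measurable_sum _ fun b _ => Measurable.iSup fun m => ?_
    refine (measurable_eT ε (lipT d m)).comp (g := fun φ : Eu d → ℝ => eT ε φ (lipT d m))
      (f := fun (φ : Eu d → ℝ) (x : Eu d) => φ (b + x)) ?_
    exact measurable_pi_lambda _ fun x => measurable_pi_apply _
  · exact Finset.measurable_sum _ fun x _ => Finset.measurable_sum _ fun y _ => measurable_eT _ _
  · exact Finset.measurable_sum _ fun x _ => Finset.measurable_sum _ fun w _ =>
      Finset.measurable_sum _ fun y _ => measurable_eT _ _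

lemma eT_bound {ε t : ℝ} (hε : 0 < ε) {φ : Eu d → ℝ} {a : Eu d →₀ ℝ}
    (h : eT ε φ a ≤ ENNReal.ofReal (Real.exp t)) : |lc φ a| ≤ √(t / ε) := by
  unfold eT at h
  rw [ENNReal.ofReal_le_ofReal_iff (Real.exp_pos _).le, Real.exp_le_exp] at h
  apply Real.abs_le_sqrt
  rw [le_div_iff₀ hε]
  linarith

lemma norm_lc_avgN {H : Type*} [NormedAddCommGroup H] [InnerProductSpace ℝ H] {G : Eu d → H}
    {R₀ v₀ C : ℝ} (hG : CovLaw G R₀ v₀ C) {M : ℕ} (hM : 0 < M) (x y : Eu d) :
    ‖lc G (avgN ((2 * R₀ + 1) * C ^ 2) M x y)‖ ≤ 1 := by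
  have hR := hG.R₀_pos
  have hC := hG.C_pos
  unfold avgN
  split_ifs with h
  · have hL : 0 < ‖y - x‖ := by linarith [h.1]
    have hne : x ≠ y := by
      rintro rfl
      simp at hL
    have h1 := norm_lc_avgT_sq hG hM hne h.2
    have hs : 0 < √((2 * R₀ + 1) * C ^ 2 / ‖y - x‖) := Real.sqrt_pos.2 (by positivity)
    simp only [lc, map_smul]
    rw [norm_smul, norm_inv, Real.norm_eq_abs, abs_of_pos hs, inv_mul_le_iff₀ hs, mul_one]
    exact Real.le_sqrt_of_sq_le h1
  · simp [lc]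

lemma norm_lc_brkN {H : Type*} [NormedAddCommGroup H] [InnerProductSpace ℝ H] {G : Eu d → H}
    {R₀ v₀ C η : ℝ} (hG : CovLaw G R₀ v₀ C) (hη : 0 < η) {M : ℕ} (hM : 0 < M) (x w y : Eu d) :
    ‖lc G (brkN ((8 * R₀ + 18) * C ^ 2) η M x w y)‖ ≤ 1 := by
  have hR := hG.R₀_pos
  have hC := hG.C_pos
  unfold brkN
  split_ifs with h
  · have hL : 0 < ‖y - x‖ := by linarith [h.1]
    have hne : x ≠ y := by
      rintro rfl
      simp at hL
    have h1 := norm_lc_brkT hG hM (w := w) hne h.2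
    have hδ : 0 ≤ ‖w - midpoint ℝ x y‖ := norm_nonneg _
    have hs : 0 < √((8 * R₀ + 18) * C ^ 2 * (‖w - midpoint ℝ x y‖ + η) / ‖y - x‖) :=
      Real.sqrt_pos.2 (by positivity)
    simp only [lc, map_smul]
    rw [norm_smul, norm_inv, Real.norm_eq_abs, abs_of_pos hs, inv_mul_le_iff₀ hs, mul_one]
    refine h1.trans (Real.sqrt_le_sqrt ?_)
    gcongr
    linarith
  · simp [lc]

/-- Moment bound for the functional. -/
lemma XFun_moment {Ω H : Type*} [MeasurableSpace Ω] [NormedAddCommGroup H]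
    [InnerProductSpace ℝ H] {G : Eu d → H} {R₀ v₀ C ε : ℝ} (hG : CovLaw G R₀ v₀ C)
    (F : Finset (Eu d)) (k : ℕ) {M : ℕ} (hM : 0 < M) (hε1 : ε ≤ ferE / 4)
    {P : Measure Ω} {ψ : Eu d → Ω → ℝ} (hψ : FieldLaw P G ψ)
    (hlip : ∀ ψ' : Eu d → Ω → ℝ, FieldLaw P G ψ' →
      ∫⁻ ω, ⨆ m, eT ε (fun x => ψ' x ω) (lipT d m) ∂P ≤ ferK) :
    ∫⁻ ω, XFun F ((2 * R₀ + 1) * C ^ 2) ((8 * R₀ + 18) * C ^ 2) C ε k M (fun x => ψ x ω) ∂P
      ≤ 1 + F.card * ferK + F.card * ferK + F.card * (F.card * ferK)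
        + F.card * (F.card * (F.card * ferK)) := by
  have hP := hψ.isProbabilityMeasure
  have hmeasψ : Measurable (fun ω => (fun x => ψ x ω)) := measurable_pi_lambda _ hψ.meas
  have hm1 : ∀ a, Measurable (fun ω => eT ε (fun x => ψ x ω) a) := fun a =>
    (measurable_eT ε a).comp hmeasψ
  have hm2 : ∀ b, Measurable (fun ω => ⨆ m, eT ε (fun x => ψ (b + x) ω) (lipT d m)) := by
    intro b
    refine Measurable.iSup fun m => ?_
    exact (measurable_eT ε (lipT d m)).comp (measurable_pi_lambda _ fun x => hψ.meas (b + x))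
  have ht : ∀ a, ‖lc G a‖ ≤ 1 → ∫⁻ ω, eT ε (fun x => ψ x ω) a ∂P ≤ ferK := by
    intro a ha
    refine le_trans (lintegral_mono fun ω => ?_) (hψ.test_moment a ha)
    unfold eT
    apply ENNReal.ofReal_le_ofReal
    apply Real.exp_le_exp.2
    gcongr
  unfold XFun
  rw [lintegral_add_left, lintegral_add_left, lintegral_add_left, lintegral_add_left]
  · gcongr
    · simp
    · rw [lintegral_finsetSum _ fun b _ => hm1 _]
      refine (Finset.sum_le_sum (g := fun _ => ferK) fun b _ => ht _ ?_).trans (by simp)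
      simp only [lc, map_smul, Finsupp.linearCombination_single, one_smul]
      have hC := hG.C_pos
      rw [norm_smul, norm_inv, Real.norm_eq_abs, abs_of_pos hC, inv_mul_le_iff₀ hC, mul_one]
      exact hG.norm_le b
    · rw [lintegral_finsetSum _ fun b _ => hm2 _]
      refine (Finset.sum_le_sum (g := fun _ => ferK) fun b _ => ?_).trans (by simp)
      exact hlip _ (hψ.shift hG b)
    · rw [lintegral_finsetSum _ fun x _ => Finset.measurable_sum _ fun y _ => hm1 _]
      refine (Finset.sum_le_sum (g := fun _ => F.card * ferK) fun x _ => ?_).trans (by simp)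
      rw [lintegral_finsetSum _ fun y _ => hm1 _]
      exact (Finset.sum_le_sum (g := fun _ => ferK) fun y _ =>
        ht _ (norm_lc_avgN hG hM x y)).trans (by simp)
    · rw [lintegral_finsetSum _ fun x _ => Finset.measurable_sum _ fun w _ =>
        Finset.measurable_sum _ fun y _ => hm1 _]
      refine (Finset.sum_le_sum (g := fun _ => F.card * (F.card * ferK)) fun x _ => ?_).trans
        (by simp)
      rw [lintegral_finsetSum _ fun w _ => Finset.measurable_sum _ fun y _ => hm1 _]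
      refine (Finset.sum_le_sum (g := fun _ => F.card * ferK) fun w _ => ?_).trans (by simp)
      rw [lintegral_finsetSum _ fun y _ => hm1 _]
      exact (Finset.sum_le_sum (g := fun _ => ferK) fun y _ =>
        ht _ (norm_lc_brkN hG (by positivity) hM x w y)).trans (by simp)
  · exact measurable_const
  · exact Measurable.add measurable_const (Finset.measurable_sum _ fun b _ => hm1 _)
  · exact Measurable.add (Measurable.add measurable_const
      (Finset.measurable_sum _ fun b _ => hm1 _)) (Finset.measurable_sum _ fun b _ => hm2 _)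
  · exact Measurable.add (Measurable.add (Measurable.add measurable_const
      (Finset.measurable_sum _ fun b _ => hm1 _)) (Finset.measurable_sum _ fun b _ => hm2 _))
      (Finset.measurable_sum _ fun x _ => Finset.measurable_sum _ fun y _ => hm1 _)

lemma moment_arith {F k d c : ℕ} {K : ℝ≥0∞} (hK : K ≠ ∞) (hF : 1 ≤ F) (hk : 1 ≤ k)
    (hFR : (F : ℝ) ≤ (20 * d) ^ d * (2 ^ k) ^ (3 * d))
    (hc : (1 + 4 * K.toReal) * ((20 * d) ^ d) ^ 3 ≤ 2 ^ c) :
    1 + F * K + F * K + F * (F * K) + F * (F * (F * K)) ≤ 2 ^ ((9 * d + c) * k) := by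
  obtain ⟨κ, hκ0, rfl⟩ : ∃ κ : ℝ, 0 ≤ κ ∧ K = ENNReal.ofReal κ :=
    ⟨K.toReal, ENNReal.toReal_nonneg, (ENNReal.ofReal_toReal hK).symm⟩
  rw [ENNReal.toReal_ofReal hκ0] at hc
  have hF1 : (1 : ℝ) ≤ F := by exact_mod_cast hF
  generalize hf : (F : ℝ) = f at *
  have h1 : f ≤ f ^ 3 := by
    calc f = f ^ 1 := (pow_one _).symm
      _ ≤ _ := pow_le_pow_right₀ hF1 (by norm_num)
  have h2 : f ^ 2 ≤ f ^ 3 := pow_le_pow_right₀ hF1 (by norm_num)
  have h3 : (1 : ℝ) ≤ f ^ 3 := one_le_pow₀ hF1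
  have hreal : 1 + f * κ + f * κ + f * (f * κ) + f * (f * (f * κ))
      ≤ (2 : ℝ) ^ ((9 * d + c) * k) := by
    calc 1 + f * κ + f * κ + f * (f * κ) + f * (f * (f * κ))
        = 1 + (f + f + f ^ 2 + f ^ 3) * κ := by ring
      _ ≤ f ^ 3 + (f ^ 3 + f ^ 3 + f ^ 3 + f ^ 3) * κ := by gcongr
      _ = (1 + 4 * κ) * f ^ 3 := by ring
      _ ≤ (1 + 4 * κ) * ((20 * d) ^ d * (2 ^ k) ^ (3 * d)) ^ 3 := by gcongr
      _ = ((1 + 4 * κ) * ((20 * d) ^ d) ^ 3) * 2 ^ (9 * d * k) := by
          rw [mul_pow, mul_assoc, ← pow_mul 2, ← pow_mul 2]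
          congr 3
          ring
      _ ≤ 2 ^ c * 2 ^ (9 * d * k) := by gcongr
      _ ≤ 2 ^ (c * k) * 2 ^ (9 * d * k) := by
          gcongr
          · norm_num
          · exact Nat.le_mul_of_pos_right c (by omega)
      _ = 2 ^ ((9 * d + c) * k) := by
          rw [← pow_add]
          congr 1
          ring
  have hFe : (F : ℝ≥0∞) = ENNReal.ofReal f := by rw [← hf, ENNReal.ofReal_natCast]
  have hf0 : 0 ≤ f := by linarith
  have h4 : (1 : ℝ≥0∞) + F * ENNReal.ofReal κ + F * ENNReal.ofReal κ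
      + F * (F * ENNReal.ofReal κ) + F * (F * (F * ENNReal.ofReal κ))
      = ENNReal.ofReal (1 + f * κ + f * κ + f * (f * κ) + f * (f * (f * κ))) := by
    rw [hFe]
    rw [ENNReal.ofReal_add (by positivity) (by positivity),
      ENNReal.ofReal_add (by positivity) (by positivity),
      ENNReal.ofReal_add (by positivity) (by positivity),
      ENNReal.ofReal_add (by positivity) (by positivity)]
    simp only [ENNReal.ofReal_one, ENNReal.ofReal_mul hf0]
  rw [h4]
  refine (ENNReal.ofReal_le_ofReal hreal).trans (le_of_eq ?_)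
  rw [ENNReal.ofReal_pow (by norm_num), ENNReal.ofReal_ofNat]

/-- **Control of a Gaussian field at unit scale.** -/
theorem unit_scale {Ω Ω' H : Type*} [MeasurableSpace Ω] [MeasurableSpace Ω']
    [NormedAddCommGroup H] [InnerProductSpace ℝ H] {G : Eu d → H} {R₀ v₀ C : ℝ}
    (hG : CovLaw G R₀ v₀ C) {P' : Measure Ω'} {ψ' : Eu d → Ω' → ℝ} (h₀ : FieldLaw P' G ψ') :
    ∃ (C₁ : ℕ) (C₂ : ℝ), 0 ≤ C₂ ∧ ∀ k ≥ 2, ∃ X : (Eu d → ℝ) → ℝ≥0∞, Measurable X ∧
      (∀ φ, 1 ≤ X φ) ∧
      (∀ φ t, Continuous φ → 0 ≤ t → X φ ≤ ENNReal.ofReal (Real.exp t) →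
        Good φ 1 (2 ^ k) 0 (C₂ * √t)) ∧
      ∀ (P : Measure Ω) (ψ : Eu d → Ω → ℝ), FieldLaw P G ψ →
        ∫⁻ ω, X (fun x => ψ x ω) ∂P ≤ 2 ^ (C₁ * k) := by
  obtain ⟨ε₂, hε₂, hsup⟩ := sup_moment (Ω := Ω) h₀ (lipT d) (fun ω => lipT_bdd (h₀.smooth ω))
  set ε := min (ferE / 4) ε₂ with hε
  have hε0 : 0 < ε := lt_min (by have := ferE_pos; positivity) hε₂
  set A := (2 * R₀ + 1) * C ^ 2 with hA
  set B := (8 * R₀ + 18) * C ^ 2 with hB
  have hR₀ := hG.R₀_pos
  have hC := hG.C_pos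
  have hA0 : 0 < A := by positivity
  have hB0 : 0 < B := by positivity
  obtain ⟨c, hc⟩ : ∃ c : ℕ, (1 + 4 * ferK.toReal) * ((20 * d) ^ d) ^ 3 ≤ 2 ^ c := by
    obtain ⟨c, hc⟩ := pow_unbounded_of_one_lt ((1 + 4 * ferK.toReal) * ((20 * d) ^ d) ^ 3)
      (by norm_num : (1 : ℝ) < 2)
    exact ⟨c, hc.le⟩
  refine ⟨9 * d + c, (4 + C + √(2 * A) + √(6 * B)) / √ε, by positivity, fun k hk => ?_⟩
  have hk2 : 2 ≤ k := hk
  have hR1 : (1 : ℝ) ≤ 2 ^ k := one_le_pow₀ (by norm_num)
  obtain ⟨F, hFcard, hFnet⟩ := exists_net d (r := 4 * (2 ^ k) ^ 2) (δ := 1 / 2 ^ k)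
    (by positivity) (by
      have h1 : (1 : ℝ) / 2 ^ k ≤ 1 := by rw [div_le_one (by positivity)]; exact hR1
      have h2 : (1 : ℝ) ≤ (2 ^ k) ^ 2 := one_le_pow₀ hR1
      linarith)
  set M : ℕ := 9 * (2 ^ k) ^ 3 with hM
  have hM0 : 0 < M := by positivity
  refine ⟨XFun F A B C ε k M, measurable_XFun _ _ _ _ _ _ _, ?_, ?_, ?_⟩
  · intro φ
    unfold XFun
    rw [add_assoc, add_assoc, add_assoc]
    exact le_self_add
  · intro φ t hφ ht hX
    have hT : 0 ≤ √(t / ε) := Real.sqrt_nonneg _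
    have hgood := good_of_tests (M := M) hφ hk2 (by rw [hM]; push_cast; ring) hFnet hA0 hB0 hC hT
      (fun b hb => ?_) (fun b hb m => ?_) (fun x hx y hy => ?_) (fun x hx w hw y hy => ?_)
    · have e : (4 + C + √(2 * A) + √(6 * B)) / √ε * √t
          = (4 + C + √(2 * A) + √(6 * B)) * √(t / ε) := by
        rw [Real.sqrt_div ht]; ring
      rw [e]
      exact hgood
    · apply eT_bound hε0
      refine le_trans ?_ hX
      unfold XFun
      refine le_trans (Finset.single_le_sum (f := fun b => eT ε φ (C⁻¹ • Finsupp.single b 1))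
        (fun _ _ => zero_le) hb) ?_
      refine le_trans ?_ (le_self_add)
      refine le_trans ?_ (le_self_add)
      refine le_trans ?_ (le_self_add)
      exact le_add_self
    · apply eT_bound hε0
      refine le_trans ?_ hX
      unfold XFun
      refine le_trans (le_iSup (fun m => eT ε (fun x => φ (b + x)) (lipT d m)) m) ?_
      refine le_trans (Finset.single_le_sum
        (f := fun b => ⨆ m, eT ε (fun x => φ (b + x)) (lipT d m))
        (fun _ _ => zero_le) hb) ?_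
      refine le_trans ?_ (le_self_add)
      refine le_trans ?_ (le_self_add)
      exact le_add_self
    · apply eT_bound hε0
      refine le_trans ?_ hX
      unfold XFun
      refine le_trans (Finset.single_le_sum (f := fun y => eT ε φ (avgN A M x y))
        (fun _ _ => zero_le) hy) ?_
      refine le_trans (Finset.single_le_sum (f := fun x => ∑ y ∈ F, eT ε φ (avgN A M x y))
        (fun _ _ => zero_le) hx) ?_
      refine le_trans ?_ (le_self_add)
      exact le_add_self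
    · apply eT_bound hε0
      refine le_trans ?_ hX
      unfold XFun
      refine le_trans (Finset.single_le_sum (f := fun y => eT ε φ (brkN B (1 / 2 ^ k) M x w y))
        (fun _ _ => zero_le) hy) ?_
      refine le_trans (Finset.single_le_sum
        (f := fun w => ∑ y ∈ F, eT ε φ (brkN B (1 / 2 ^ k) M x w y))
        (fun _ _ => zero_le) hw) ?_
      refine le_trans (Finset.single_le_sum
        (f := fun x => ∑ w ∈ F, ∑ y ∈ F, eT ε φ (brkN B (1 / 2 ^ k) M x w y))
        (fun _ _ => zero_le) hx) ?_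
      exact le_add_self
  · intro P ψ hψ
    refine (XFun_moment hG F k hM0 (min_le_left _ _) hψ fun ψ'' hψ'' => ?_).trans ?_
    · refine le_trans (lintegral_mono fun ω => ?_) (hsup P ψ'' hψ'')
      refine iSup_mono fun m => ?_
      unfold eT
      apply ENNReal.ofReal_le_ofReal
      apply Real.exp_le_exp.2
      gcongr
      exact min_le_right _ _
    · -- numerical bound
      have hF1 : (1 : ℝ) ≤ F.card := by
        obtain ⟨b, hb, _⟩ := hFnet 0 (by simp)
        exact_mod_cast Finset.card_pos.2 ⟨b, hb⟩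
      have hFR : (F.card : ℝ) ≤ (20 * d) ^ d * (2 ^ k) ^ (3 * d) := by
        refine hFcard.trans (le_of_eq ?_)
        have : 5 * (d : ℝ) * (4 * (2 ^ k) ^ 2 / (1 / 2 ^ k)) = 20 * d * (2 ^ k) ^ 3 := by
          field_simp; ring
        rw [this, mul_pow, ← pow_mul]
      exact moment_arith ferK_ne_top (by exact_mod_cast hF1) (by omega) hFR hc

end Pool.Agent.Lib_MP_71c74a_pr
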