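import Pool.Agent.Lib_MP_71c74a_pr.RootBound
import Pool.Agent.Lib_MP_71c74a_pr.ScalesDef
import Pool.Agent.Lib_MP_71c74a_pr.UnitScale

/-!
# The event on which all paths are long
-/

open MeasureTheory ProbabilityTheory Set
open scoped ENNReal NNReal Topology

namespace Pool.Agent.Lib_MP_71c74a_pr

variable {d : ℕ}

/-- Scaling of goodness. -/
lemma Good.scale {φ : Eu d → ℝ} (hφ : Continuous φ) {s R Y : ℝ} (hs : 0 < s) {z' : Eu d}
    (h : Good (fun x => φ (z' + s • x)) 1 R 0 Y) : Good φ s R z' Y := by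
  -- change of variables
  set g : Eu d → Eu d := fun x => s⁻¹ • (x - z') with hg
  have hgi : ∀ x, z' + s • g x = x := fun x => by
    rw [hg]; simp only
    rw [smul_smul, mul_inv_cancel₀ hs.ne', one_smul]; abel
  have hgn : ∀ x y, ‖g x - g y‖ = ‖x - y‖ / s := fun x y => by
    have : g x - g y = s⁻¹ • (x - y) := by rw [hg]; module
    rw [this, norm_smul, norm_inv, Real.norm_eq_abs, abs_of_pos hs]
    ring
  have hgb : ∀ x ∈ Metric.closedBall z' (4 * R ^ 2 * s), g x ∈ Metric.closedBall (0 : Eu d)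
      (4 * R ^ 2 * 1) := fun x hx => by
    rw [Metric.mem_closedBall, dist_eq_norm] at hx ⊢
    rw [sub_zero, mul_one]
    have : ‖g x‖ = ‖x - z'‖ / s := by
      rw [hg]; simp only
      rw [norm_smul, norm_inv, Real.norm_eq_abs, abs_of_pos hs]; ring
    rw [this, div_le_iff₀ hs]
    exact hx
  have hseg : ∀ x y, segAvg (fun x => φ (z' + s • x)) (g x) (g y) = segAvg φ x y := fun x y => by
    unfold segAvg
    refine intervalIntegral.integral_congr fun θ _ => ?_
    show φ (z' + s • (g x + θ • (g y - g x))) = φ (x + θ • (y - x))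
    congr 1
    conv_rhs => rw [← hgi x, ← hgi y]
    module
  have hmid : ∀ x y, g (midpoint ℝ x y) = midpoint ℝ (g x) (g y) := fun x y => by
    rw [midpoint_eq_smul_add, midpoint_eq_smul_add, hg]
    simp only [invOf_eq_inv]
    module
  refine ⟨hφ, h.nonneg, ?_, ?_, ?_, ?_⟩
  · intro x hx y hy hxy
    have := h.lip _ (hgb x hx) _ (hgb y hy) (by rw [hgn, div_le_one hs]; exact hxy)
    simp only [hgi, hgn, div_one] at this
    exact this
  · intro x hx
    have := h.bdd _ (hgb x hx)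
    simp only [hgi] at this
    exact this
  · intro x hx y hy hxy
    have := h.avg _ (hgb x hx) _ (hgb y hy) (by rw [hgn, le_div_iff₀ hs, one_mul]; exact hxy)
    rw [hseg, hgn, one_div_div] at this
    exact this
  · intro x hx w hw y hy hxy
    have := h.brk _ (hgb x hx) _ (hgb w hw) _ (hgb y hy)
      (by rw [hgn, le_div_iff₀ hs, one_mul]; exact hxy)
    rw [hseg, hseg, hseg, ← hmid, hgn, hgn, div_div_div_cancel_right₀ hs.ne'] at this
    exact this

/-- With high probability all paths are long. -/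
theorem lower_event {Ω H : Type*} [MeasurableSpace Ω] [NormedAddCommGroup H]
    [InnerProductSpace ℝ H] {P : Measure Ω} {G : Eu d → H} {φ : ℕ → Eu d → Ω → ℝ}
    {R₀ v₀ C : ℝ} (hG : CovLaw G R₀ v₀ C) (hφ : Scales P G φ) :
    ∃ (C₁ : ℕ) (C₂ : ℝ), ∀ k ≥ 2, ∀ᶠ n : ℕ in Filter.atTop, ∃ E : Set Ω, MeasurableSet E ∧
      P Eᶜ ≤ 1 / 4 ∧ ∀ ω ∈ E, ∀ ξ > 0, ∀ (U : Set (Eu d)) (w : Eu d) (γ : ℝ → Eu d),
        IsPath U 0 w γ → ‖w‖ = 1 →
        Real.exp (-(k + ξ ^ 2 * (C₂ ^ 2 * (((C₁ * k + d + 1 : ℕ) : ℝ) * Real.log 2 * n))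
          + rate ξ k * (n + C₂ ^ 2 * (((C₁ * k + d + 1 : ℕ) : ℝ) * Real.log 2 * n))))
        ≤ pathLen ξ (fun x => ∑ j ∈ Finset.range n, φ j x ω) γ := by
  obtain ⟨C₁, C₂, hC₂, hX⟩ := unit_scale (Ω := Ω) hG (hφ.law 0)
  refine ⟨C₁, C₂, fun k hk => ?_⟩
  obtain ⟨X, hXm, hX1, hXgood, hXmom⟩ := hX k hk
  have hP := (hφ.law 0).isProbabilityMeasure
  -- decay
  have hlim : Filter.Tendsto (fun n : ℕ => ((5 * d : ℝ) ^ d * 2 ^ (2 * k * d)) * (1 / 2) ^ n)
      Filter.atTop (𝓝 0) := by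
    have := (tendsto_pow_atTop_nhds_zero_of_lt_one (by norm_num : (0 : ℝ) ≤ 1 / 2)
      (by norm_num)).const_mul ((5 * d : ℝ) ^ d * 2 ^ (2 * k * d))
    simpa using this
  filter_upwards [hlim.eventually (ge_mem_nhds (by norm_num : (0 : ℝ) < 1 / 4))] with n hn
  set N := (n + k) / k + 1 with hN
  have hk0 : 0 < k := by omega
  have hN1 : n + k ≤ k * N + 1 := by
    have := Nat.div_add_mod (n + k) k
    have := Nat.mod_lt (n + k) hk0
    rw [hN, mul_add, mul_one]
    omega
  have hN2 : k * N ≤ n + 2 * k := by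
    have := Nat.div_mul_le_self (n + k) k
    rw [hN, mul_add, mul_one]
    nlinarith
  set ρ : ℝ := (1 / 2) ^ (k * N) with hρ
  have hρ0 : 0 < ρ := by positivity
  have hρ1 : ρ ≤ 1 := pow_le_one₀ (by norm_num) (by norm_num)
  obtain ⟨net, hcard, hnet⟩ := exists_net d (r := 1) (δ := ρ) hρ0 hρ1
  set s : ℕ := C₁ * k + d + 1 with hs
  -- the functional at the points of the net
  set Z : Eu d → ℕ → Ω → ℝ≥0∞ := fun z' j ω => X (fun x => φ j (z' + (1 / 2 : ℝ) ^ j • x) ω)
    with hZ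
  have hZm : ∀ z' j, Measurable (Z z' j) := fun z' j =>
    hXm.comp (measurable_pi_lambda _ fun x => hφ.meas j _)
  have hZ1 : ∀ z' j ω, 1 ≤ Z z' j ω := fun z' j ω => hX1 _
  have hZind : ∀ z', iIndepFun (fun j ω => Z z' j ω) P := fun z' => by
    have := hφ.indep.comp (fun j => fun (f : Eu d → ℝ) => X (fun x => f (z' + (1 / 2 : ℝ) ^ j • x)))
      (fun j => hXm.comp (measurable_pi_lambda _ fun x => measurable_pi_apply _))
    exact this
  have hmom : ∀ z', ∫⁻ ω, ∏ j ∈ Finset.range n, Z z' j ω ∂P ≤ (2 ^ (C₁ * k)) ^ n := fun z' => by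
    rw [lintegral_prod_eq_prod_lintegral_of_indepFun _ _ (hZind z') (hZm z')]
    calc ∏ j ∈ Finset.range n, ∫⁻ ω, Z z' j ω ∂P ≤ ∏ _j ∈ Finset.range n, (2 ^ (C₁ * k) : ℝ≥0∞) :=
          Finset.prod_le_prod' fun j _ => hXmom P _ (hφ.law_shift hG j z')
      _ = _ := by simp
  set Θ : ℝ≥0∞ := 2 ^ (s * n) with hΘ
  have hΘ0 : Θ ≠ 0 := by rw [hΘ]; positivity
  have hΘtop : Θ ≠ ∞ := by rw [hΘ]; finiteness
  set E : Set Ω := ⋂ z' ∈ net, {ω | ∏ j ∈ Finset.range n, Z z' j ω ≤ Θ} with hE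
  have hprodm : ∀ z', Measurable (fun ω => ∏ j ∈ Finset.range n, Z z' j ω) := fun z' =>
    Finset.measurable_prod _ fun j _ => hZm z' j
  refine ⟨E, ?_, ?_, ?_⟩
  · exact Finset.measurableSet_biInter _ fun z' _ => measurableSet_le (hprodm z') measurable_const
  · -- union bound
    have h1 : Eᶜ ⊆ ⋃ z' ∈ net, {ω | Θ ≤ ∏ j ∈ Finset.range n, Z z' j ω} := by
      intro ω hω
      rw [hE, mem_compl_iff, mem_iInter₂] at hω
      push Not at hω
      obtain ⟨z', hz', h2⟩ := hω
      rw [mem_iUnion₂]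
      refine ⟨z', hz', ?_⟩
      simp only [mem_ofPred_eq, not_le] at h2 ⊢
      exact h2.le
    calc P Eᶜ ≤ P (⋃ z' ∈ net, {ω | Θ ≤ ∏ j ∈ Finset.range n, Z z' j ω}) := measure_mono h1
      _ ≤ ∑ z' ∈ net, P {ω | Θ ≤ ∏ j ∈ Finset.range n, Z z' j ω} :=
          measure_biUnion_finset_le _ _
      _ ≤ ∑ _z' ∈ net, (2 ^ (C₁ * k)) ^ n / Θ := by
          refine Finset.sum_le_sum fun z' _ => ?_
          refine (meas_ge_le_lintegral_div (hprodm z').aemeasurable hΘ0 hΘtop).trans ?_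
          gcongr
          exact hmom z'
      _ = net.card * ((2 ^ (C₁ * k)) ^ n / Θ) := by simp
      _ ≤ 1 / 4 := by
          have h2 : ((2 : ℝ≥0∞) ^ (C₁ * k)) ^ n / Θ = ENNReal.ofReal ((1 / 2) ^ ((d + 1) * n)) := by
            have h3 : Θ = 2 ^ ((d + 1) * n) * (2 ^ (C₁ * k)) ^ n := by
              rw [hΘ, hs, ← pow_mul, ← pow_add]
              congr 1
              ring
            have h4 : ((2 : ℝ≥0∞) ^ (C₁ * k)) ^ n ≠ 0 := by positivity
            have h5 : ((2 : ℝ≥0∞) ^ (C₁ * k)) ^ n ≠ ∞ := by finiteness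
            rw [h3, ENNReal.ofReal_pow (by norm_num), ENNReal.ofReal_div_of_pos (by norm_num),
              ENNReal.ofReal_one, ENNReal.ofReal_ofNat, one_div, ← ENNReal.inv_pow,
              ENNReal.div_eq_inv_mul, ENNReal.mul_inv (Or.inl (by positivity))
              (Or.inl (by finiteness)), mul_assoc, ENNReal.inv_mul_cancel h4 h5, mul_one]
          rw [h2]
          have h6 : (net.card : ℝ≥0∞) = ENNReal.ofReal net.card := by
            rw [ENNReal.ofReal_natCast]
          rw [h6, ← ENNReal.ofReal_mul (Nat.cast_nonneg _)]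
          have h7 : (net.card : ℝ) * (1 / 2) ^ ((d + 1) * n) ≤ 1 / 4 := by
            refine le_trans ?_ hn
            have h8 : (5 : ℝ) * d * (1 / ρ) ≤ 5 * d * 2 ^ (n + 2 * k) := by
              gcongr
              rw [hρ, one_div_pow, one_div_one_div]
              exact pow_le_pow_right₀ (by norm_num) hN2
            calc (net.card : ℝ) * (1 / 2) ^ ((d + 1) * n)
                ≤ (5 * d * 2 ^ (n + 2 * k)) ^ d * (1 / 2) ^ ((d + 1) * n) := by
                  gcongr
                  exact hcard.trans (pow_le_pow_left₀ (by positivity) h8 d)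
              _ = (5 * d : ℝ) ^ d * 2 ^ (2 * k * d) * (1 / 2) ^ n := by
                  rw [mul_pow, ← pow_mul, add_mul, pow_add, add_mul d 1 n, pow_add, one_mul]
                  have : (2 : ℝ) ^ (n * d) * (1 / 2) ^ (d * n) = 1 := by
                    rw [mul_comm n d, ← mul_pow]; norm_num
                  calc (5 * (d : ℝ)) ^ d * (2 ^ (n * d) * 2 ^ (2 * k * d))
                        * ((1 / 2) ^ (d * n) * (1 / 2) ^ n)
                      = (5 * (d : ℝ)) ^ d * 2 ^ (2 * k * d) * (1 / 2) ^ n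
                        * (2 ^ (n * d) * (1 / 2) ^ (d * n)) := by ring
                    _ = _ := by rw [this, mul_one]
          refine (ENNReal.ofReal_le_ofReal h7).trans (le_of_eq ?_)
          rw [ENNReal.ofReal_div_of_pos (by norm_num), ENNReal.ofReal_one, ENNReal.ofReal_ofNat]
  · intro ω hω ξ hξ U w γ hγ hw
    rw [hE, mem_iInter₂] at hω
    -- logarithms
    have hprod : ∀ z' ∈ net, ∏ j ∈ Finset.range n, Z z' j ω ≤ Θ := fun z' hz' => hω z' hz'
    have hZle : ∀ z' ∈ net, ∀ j < n, Z z' j ω ≤ Θ := fun z' hz' j hj => by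
      refine le_trans ?_ (hprod z' hz')
      exact Finset.single_le_prod' (f := fun j => Z z' j ω) (fun i _ => hZ1 z' i ω)
        (Finset.mem_range.2 hj)
    have hZtop : ∀ z' ∈ net, ∀ j < n, Z z' j ω ≠ ∞ := fun z' hz' j hj =>
      ne_top_of_le_ne_top hΘtop (hZle z' hz' j hj)
    have hZr1 : ∀ z' ∈ net, ∀ j < n, 1 ≤ (Z z' j ω).toReal := fun z' hz' j hj => by
      rw [← ENNReal.toReal_one]
      exact ENNReal.toReal_mono (hZtop z' hz' j hj) (hZ1 z' j ω)
    refine len_lower (t := fun z' j => Real.log (Z z' j ω).toReal) (net := net)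
      (φ := fun j x => φ j x ω)
      (S := ((s : ℕ) : ℝ) * Real.log 2 * n) (C₂ := C₂) hξ hk hN1
      (fun j => (hφ.smooth j ω).continuous) hnet
      (fun z' hz' j hj => Real.log_nonneg (hZr1 z' hz' j hj)) ?_ ?_ hγ hw
    · intro z' hz' j hj
      apply Good.scale (hφ.smooth j ω).continuous (by positivity)
      refine hXgood _ _ ?_ (Real.log_nonneg (hZr1 z' hz' j hj)) ?_
      · exact (hφ.smooth j ω).continuous.comp (by fun_prop)
      · rw [Real.exp_log (by linarith [hZr1 z' hz' j hj]),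
          ENNReal.ofReal_toReal (hZtop z' hz' j hj)]
    · intro z' hz'
      rw [← Real.log_prod (fun j hj => by
        have := hZr1 z' hz' j (Finset.mem_range.1 hj); linarith)]
      rw [← ENNReal.toReal_prod]
      have h1 : (∏ j ∈ Finset.range n, Z z' j ω).toReal ≤ 2 ^ (s * n) := by
        have := ENNReal.toReal_mono hΘtop (hprod z' hz')
        rw [hΘ, ENNReal.toReal_pow, ENNReal.toReal_ofNat] at this
        exact this
      have h2 : 0 < (∏ j ∈ Finset.range n, Z z' j ω).toReal := by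
        rw [ENNReal.toReal_prod]
        exact Finset.prod_pos fun j hj => by
          have := hZr1 z' hz' j (Finset.mem_range.1 hj); linarith
      calc Real.log (∏ j ∈ Finset.range n, Z z' j ω).toReal
          ≤ Real.log (2 ^ (s * n)) := Real.log_le_log h2 h1
        _ = (s : ℝ) * Real.log 2 * n := by rw [Real.log_pow]; push_cast; ring

end Pool.Agent.Lib_MP_71c74a_pr
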