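import Pool.Agent.Lib_MP_71c74a_pr.LowerEvent

/-!
# The rate in the lower bound for the distance
-/

open MeasureTheory ProbabilityTheory Set
open scoped ENNReal NNReal Topology

namespace Pool.Agent.Lib_MP_71c74a_pr

variable {d : ℕ}

lemma rate_le {ξ : ℝ} (hξ : 0 < ξ) (hξ1 : ξ ≤ 1 / 2) {k : ℕ} (hk : 2 ≤ k)
    (h2k : (1 : ℝ) / 2 ^ k ≤ ξ ^ 2) : rate ξ k ≤ 18000 * k ^ 2 * ξ ^ (4 / 3 : ℝ) := by
  have hk1 : (1 : ℝ) ≤ k := by exact_mod_cast (by omega : 1 ≤ k)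
  have hz : 0 < ξ ^ (4 / 3 : ℝ) := Real.rpow_pos_of_pos hξ _
  have h1 : (75 * k * ξ) ^ (4 / 3 : ℝ) * (3 * k) ^ (1 / 3 : ℝ) ≤ (75 * k) ^ 2 * ξ ^ (4 / 3 : ℝ) := by
    calc (75 * k * ξ) ^ (4 / 3 : ℝ) * (3 * k) ^ (1 / 3 : ℝ)
        ≤ ((75 * k) ^ (4 / 3 : ℝ) * ξ ^ (4 / 3 : ℝ)) * (75 * k) ^ (1 / 3 : ℝ) := by
          rw [Real.mul_rpow (by positivity) hξ.le]
          gcongr
          norm_num
      _ = ((75 * k) ^ (4 / 3 : ℝ) * (75 * k) ^ (1 / 3 : ℝ)) * ξ ^ (4 / 3 : ℝ) := by ring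
      _ = (75 * k) ^ (5 / 3 : ℝ) * ξ ^ (4 / 3 : ℝ) := by
          rw [← Real.rpow_add (by positivity)]; norm_num
      _ ≤ (75 * k) ^ (2 : ℝ) * ξ ^ (4 / 3 : ℝ) := by
          gcongr
          · linarith
          · norm_num
      _ = _ := by rw [Real.rpow_two]
  have h2 : qr (1 / 2 ^ k) ≤ √ξ := by
    unfold qr
    apply Real.sqrt_le_sqrt
    calc √(1 / 2 ^ k) ≤ √(ξ ^ 2) := Real.sqrt_le_sqrt h2k
      _ = ξ := Real.sqrt_sq hξ.le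
  have h3 : ξ * √ξ ≤ ξ ^ (4 / 3 : ℝ) := by
    calc ξ * √ξ = ξ ^ (1 : ℝ) * ξ ^ (1 / 2 : ℝ) := by rw [Real.rpow_one, Real.sqrt_eq_rpow]
      _ = ξ ^ (3 / 2 : ℝ) := by rw [← Real.rpow_add hξ]; norm_num
      _ ≤ ξ ^ (4 / 3 : ℝ) := Real.rpow_le_rpow_of_exponent_ge hξ (by linarith) (by norm_num)
  have h4 : ξ * ξ ^ 2 ≤ ξ ^ (4 / 3 : ℝ) := by
    calc ξ * ξ ^ 2 = ξ ^ (3 : ℝ) := by rw [← Real.rpow_natCast ξ 2, ← Real.rpow_one_add' hξ.le (by norm_num)]; norm_num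
      _ ≤ ξ ^ (4 / 3 : ℝ) := Real.rpow_le_rpow_of_exponent_ge hξ (by linarith) (by norm_num)
  unfold rate
  have h5 : 225 * k * ξ * qr (1 / 2 ^ k) ≤ 225 * k ^ 2 * ξ ^ (4 / 3 : ℝ) := by
    calc 225 * k * ξ * qr (1 / 2 ^ k) ≤ 225 * k * ξ * √ξ := by gcongr
      _ = 225 * k * (ξ * √ξ) := by ring
      _ ≤ 225 * k * ξ ^ (4 / 3 : ℝ) := by gcongr
      _ ≤ 225 * k ^ 2 * ξ ^ (4 / 3 : ℝ) := by
          gcongr
          nlinarith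
  have h6 : 3 * ξ / 2 ^ k ≤ 3 * k ^ 2 * ξ ^ (4 / 3 : ℝ) := by
    calc 3 * ξ / 2 ^ k = 3 * ξ * (1 / 2 ^ k) := by ring
      _ ≤ 3 * ξ * ξ ^ 2 := by gcongr
      _ = 3 * (ξ * ξ ^ 2) := by ring
      _ ≤ 3 * ξ ^ (4 / 3 : ℝ) := by gcongr
      _ = 3 * 1 * ξ ^ (4 / 3 : ℝ) := by ring
      _ ≤ 3 * k ^ 2 * ξ ^ (4 / 3 : ℝ) := by
          gcongr
          nlinarith
  have h7 : 0 ≤ (k : ℝ) ^ 2 * ξ ^ (4 / 3 : ℝ) := by positivity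
  nlinarith

/-- With high probability all paths are long, with the rate. -/
theorem lower_event' {Ω H : Type*} [MeasurableSpace Ω] [NormedAddCommGroup H]
    [InnerProductSpace ℝ H] {P : Measure Ω} {G : Eu d → H} {φ : ℕ → Eu d → Ω → ℝ}
    {R₀ v₀ C₀ : ℝ} (hG : CovLaw G R₀ v₀ C₀) (hφ : Scales P G φ) :
    ∃ C : ℝ, 0 < C ∧ ∀ ξ : ℝ, 0 < ξ → ξ ≤ 1 / 2 → ∃ b : ℝ, ∀ᶠ n : ℕ in Filter.atTop,
      ∃ E : Set Ω, P Eᶜ ≤ 1 / 4 ∧ ∀ ω ∈ E, ∀ (U : Set (Eu d)) (w : Eu d) (γ : ℝ → Eu d),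
        IsPath U 0 w γ → ‖w‖ = 1 →
        Real.exp (-b - C * ξ ^ (4 / 3 : ℝ) * Real.log (1 / ξ) ^ 3 * n)
        ≤ pathLen ξ (fun x => ∑ j ∈ Finset.range n, φ j x ω) γ := by
  obtain ⟨C₁, C₂, hev⟩ := lower_event hG hφ
  have hlog2 : 0 < Real.log 2 := Real.log_pos (by norm_num)
  set T : ℝ := C₂ ^ 2 * (((C₁ + d + 1 : ℕ) : ℝ) * Real.log 2) with hT
  have hT0 : 0 ≤ T := by positivity
  refine ⟨(T + 18000 * (1 + T)) * (3 / Real.log 2) ^ 3, by positivity, fun ξ hξ hξ1 => ?_⟩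
  have hlb : 1 ≤ Real.logb 2 (1 / ξ) := by
    rw [Real.le_logb_iff_rpow_le (by norm_num) (by positivity), Real.rpow_one, le_div_iff₀ hξ]
    linarith
  set k : ℕ := ⌈2 * Real.logb 2 (1 / ξ)⌉₊ with hk
  have hk2 : 2 ≤ k := by
    have : (2 : ℝ) ≤ k := by
      calc (2 : ℝ) ≤ 2 * Real.logb 2 (1 / ξ) := by linarith
        _ ≤ k := Nat.le_ceil _
    exact_mod_cast this
  have hk1 : (1 : ℝ) ≤ k := by exact_mod_cast (by omega : 1 ≤ k)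
  have h2k : (1 : ℝ) / 2 ^ k ≤ ξ ^ 2 := by
    rw [div_le_iff₀ (by positivity)]
    have h1 : (1 / ξ) ^ 2 ≤ (2 : ℝ) ^ k := by
      calc (1 / ξ) ^ 2 = ((2 : ℝ) ^ Real.logb 2 (1 / ξ)) ^ 2 := by
            rw [Real.rpow_logb (by norm_num) (by norm_num) (by positivity)]
        _ = (2 : ℝ) ^ (2 * Real.logb 2 (1 / ξ)) := by
            rw [← Real.rpow_natCast, ← Real.rpow_mul (by norm_num)]
            congr 1
            push_cast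
            ring
        _ ≤ (2 : ℝ) ^ (k : ℝ) := Real.rpow_le_rpow_of_exponent_le (by norm_num) (Nat.le_ceil _)
        _ = 2 ^ k := Real.rpow_natCast _ _
    calc (1 : ℝ) = ξ ^ 2 * (1 / ξ) ^ 2 := by field_simp
      _ ≤ ξ ^ 2 * 2 ^ k := by gcongr
  have hkL : (k : ℝ) ≤ 3 / Real.log 2 * Real.log (1 / ξ) := by
    have h1 : (k : ℝ) < 2 * Real.logb 2 (1 / ξ) + 1 := Nat.ceil_lt_add_one (by linarith)
    have h2 : 3 / Real.log 2 * Real.log (1 / ξ) = 3 * Real.logb 2 (1 / ξ) := by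
      unfold Real.logb
      ring
    rw [h2]
    linarith
  have hL0 : 0 ≤ Real.log (1 / ξ) := by
    apply Real.log_nonneg
    rw [le_div_iff₀ hξ]
    linarith
  have hk3 : (k : ℝ) ^ 3 ≤ (3 / Real.log 2) ^ 3 * Real.log (1 / ξ) ^ 3 := by
    rw [← mul_pow]
    exact pow_le_pow_left₀ (by positivity) hkL 3
  have hz : 0 < ξ ^ (4 / 3 : ℝ) := Real.rpow_pos_of_pos hξ _
  have hξ2 : ξ ^ 2 ≤ ξ ^ (4 / 3 : ℝ) := by
    rw [← Real.rpow_two]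
    exact Real.rpow_le_rpow_of_exponent_ge hξ (by linarith) (by norm_num)
  refine ⟨k, ?_⟩
  filter_upwards [hev k hk2] with n hn
  obtain ⟨E, _, hE, hpath⟩ := hn
  refine ⟨E, hE, fun ω hω U w γ hγ hw => le_trans ?_ (hpath ω hω ξ hξ U w γ hγ hw)⟩
  apply Real.exp_le_exp.2
  have hTS : C₂ ^ 2 * (((C₁ * k + d + 1 : ℕ) : ℝ) * Real.log 2 * n) ≤ T * k * n := by
    have h1 : ((C₁ * k + d + 1 : ℕ) : ℝ) ≤ ((C₁ + d + 1 : ℕ) : ℝ) * k := by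
      push_cast
      have : (0 : ℝ) ≤ d := Nat.cast_nonneg d
      nlinarith
    calc C₂ ^ 2 * (((C₁ * k + d + 1 : ℕ) : ℝ) * Real.log 2 * n)
        ≤ C₂ ^ 2 * ((((C₁ + d + 1 : ℕ) : ℝ) * k) * Real.log 2 * n) := by gcongr
      _ = T * k * n := by rw [hT]; ring
  have hn0 : (0 : ℝ) ≤ n := Nat.cast_nonneg n
  have hrate := rate_le hξ hξ1 hk2 h2k
  have hTS0 : 0 ≤ C₂ ^ 2 * (((C₁ * k + d + 1 : ℕ) : ℝ) * Real.log 2 * n) := by positivity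
  have h1 : ξ ^ 2 * (C₂ ^ 2 * (((C₁ * k + d + 1 : ℕ) : ℝ) * Real.log 2 * n))
      ≤ T * k ^ 3 * ξ ^ (4 / 3 : ℝ) * n := by
    calc ξ ^ 2 * (C₂ ^ 2 * (((C₁ * k + d + 1 : ℕ) : ℝ) * Real.log 2 * n))
        ≤ ξ ^ (4 / 3 : ℝ) * (T * k * n) := by gcongr
      _ ≤ ξ ^ (4 / 3 : ℝ) * (T * k ^ 3 * n) := by
          gcongr
          calc (k : ℝ) = k ^ 1 := (pow_one _).symm
            _ ≤ k ^ 3 := pow_le_pow_right₀ hk1 (by norm_num)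
      _ = _ := by ring
  have h2 : rate ξ k * (n + C₂ ^ 2 * (((C₁ * k + d + 1 : ℕ) : ℝ) * Real.log 2 * n))
      ≤ 18000 * (1 + T) * k ^ 3 * ξ ^ (4 / 3 : ℝ) * n := by
    calc rate ξ k * (n + C₂ ^ 2 * (((C₁ * k + d + 1 : ℕ) : ℝ) * Real.log 2 * n))
        ≤ (18000 * k ^ 2 * ξ ^ (4 / 3 : ℝ)) * (k * n + T * k * n) := by
          gcongr
          nlinarith
      _ = _ := by ring
  have h3 : (T + 18000 * (1 + T)) * k ^ 3 * ξ ^ (4 / 3 : ℝ) * n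
      ≤ (T + 18000 * (1 + T)) * ((3 / Real.log 2) ^ 3 * Real.log (1 / ξ) ^ 3)
        * ξ ^ (4 / 3 : ℝ) * n := by gcongr
  have h4 : (T + 18000 * (1 + T)) * ((3 / Real.log 2) ^ 3 * Real.log (1 / ξ) ^ 3)
        * ξ ^ (4 / 3 : ℝ) * n = (T + 18000 * (1 + T)) * (3 / Real.log 2) ^ 3 * ξ ^ (4 / 3 : ℝ)
        * Real.log (1 / ξ) ^ 3 * n := by ring
  have h5 : (T + 18000 * (1 + T)) * k ^ 3 * ξ ^ (4 / 3 : ℝ) * n
      = T * k ^ 3 * ξ ^ (4 / 3 : ℝ) * n + 18000 * (1 + T) * k ^ 3 * ξ ^ (4 / 3 : ℝ) * n := by ring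
  linarith

end Pool.Agent.Lib_MP_71c74a_pr
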