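import Pool.Agent.Lib_MP_71c74a_pr.PathLen
import Pool.Agent.Lib_MP_71c74a_pr.PathSharp

/-!
# Lower bound for the length of a path leaving the unit ball, with a general level cost
-/

open MeasureTheory Set
open scoped Topology

namespace Pool.Agent.Lib_MP_71c74a_pr

/-- Deterministic lower bound. -/
theorem len_lowerS {d : ℕ} {φ : ℕ → EuclideanSpace ℝ (Fin d) → ℝ} {ξ K S : ℝ} {n k c N : ℕ}
    {net : Finset (EuclideanSpace ℝ (Fin d))} {Y : EuclideanSpace ℝ (Fin d) → ℕ → ℝ}
    {cst : ℕ → EuclideanSpace ℝ (Fin d) → ℝ}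
    (hξ : 0 < ξ) (hk : 2 ≤ k) (hc : c < k) (hN : n + k ≤ k * N + 1) (hφ : ∀ j, Continuous (φ j))
    (hnet : ∀ x : EuclideanSpace ℝ (Fin d), ‖x‖ ≤ 1 → ∃ z' ∈ net, ‖x - z'‖ ≤ (1 / 2) ^ (k * N))
    (hgood : ∀ z' ∈ net, ∀ j < n, Good (φ j) ((1 / 2) ^ j) (2 ^ k) z' (Y z' j))
    (hlevel : ∀ z' ∈ net, ∀ i < N, LevEst ξ n k c i φ z' (cst i z'))
    (hK : ∀ z' ∈ net, totS ξ n k N 0 (Y z') (fun i => cst i z') ≤ K)
    (hS : ∀ z' ∈ net, ∑ j ∈ Finset.range n, Y z' j ^ 2 ≤ S)
    {U : Set (EuclideanSpace ℝ (Fin d))} {w : EuclideanSpace ℝ (Fin d)}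
    {γ : ℝ → EuclideanSpace ℝ (Fin d)} (hγ : IsPath U 0 w γ) (hw : ‖w‖ = 1) :
    Real.exp (-((c + 1) + ξ ^ 2 * S + K))
      ≤ pathLen ξ (fun x => ∑ j ∈ Finset.range n, φ j x) γ := by
  set f : EuclideanSpace ℝ (Fin d) → ℝ := fun x => ∑ j ∈ Finset.range n, φ j x with hf
  have hfc : Continuous f := by
    rw [hf]
    exact continuous_finsetSum _ fun j _ => hφ j
  have hL := hγ.lenFun hξ.le hfc
  set L : ℝ → ℝ → ℝ := fun s t => ∫ τ in s..t, Real.exp (ξ * f (γ τ)) * ‖deriv γ τ‖ with hLdef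
  -- first exit from the unit ball
  obtain ⟨σ, hσ, hpiece⟩ := exists_first_exit (γ := γ) (r := 1) (τ := 0) (t := 1) one_pos
    hγ.cont ⟨1, right_mem_Icc.2 zero_le_one, by rw [hγ.target, hγ.source, sub_zero, hw]⟩
  have hLσ : LenFun γ f ξ 0 σ L :=
    ⟨fun s t h1 h2 h3 => hL.nonneg s t h1 h2 (h3.trans hσ.2),
      fun s t u h1 h2 h3 h4 => hL.add s t u h1 h2 h3 (h4.trans hσ.2),
      fun s t c h1 h2 h3 h4 => hL.lower s t c h1 h2 (h3.trans hσ.2) h4⟩
  have hmain := path_boundS (γ := γ) (φ := φ) (ρ := (1 / 2) ^ (k * N)) (net := (net : Set _))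
    (Y := Y) (cst := cst) (c := c) hξ.le hk
    (hγ.cont.mono (Icc_subset_Icc le_rfl hσ.2)) hLσ
    (fun τ hτ => by
      have := hpiece.inside τ hτ
      rw [hγ.source, sub_zero] at this
      exact hnet _ this)
    le_rfl hgood hlevel hN (i := 0) (Nat.zero_le _) 0 σ le_rfl le_rfl (by simpa using hpiece)
  obtain ⟨hLpos, z', hz', hdist, hbound⟩ := hmain
  have hz'net : z' ∈ net := hz'
  simp only [mul_zero, pow_zero, div_one, mul_one] at hbound hdist
  have htot := hK z' hz'net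
  have hY0 : ∀ j < n, 0 ≤ Y z' j := fun j hj => (hgood z' hz'net j hj).nonneg
  have hsumsq := hS z' hz'net
  -- the prediction at the root
  have hpred : -((c + 1) + ξ ^ 2 * S) ≤ predS ξ n k c 0 φ (γ 0) (γ σ) := by
    unfold predS
    have hterm : ∀ j ∈ Finset.range n, -((if j < c + 1 then 1 / ξ else 0) + ξ * Y z' j ^ 2)
        ≤ tvS k c 0 j (φ j) (γ 0) (γ σ) := by
      intro j hj
      have hj' := Finset.mem_range.1 hj
      have hg := hgood z' hz'net j hj'
      unfold tvS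
      have e1 : ¬ (j + k ≤ k * 0) := by omega
      rw [if_neg e1]
      by_cases hjk : j < c + 1
      · have e2 : ¬ (k * 0 + c < j) := by omega
        rw [if_neg e2, if_pos hjk]
        have hρ1 : (1 / 2 : ℝ) ^ (k * N) ≤ 1 := pow_le_one₀ (by norm_num) (by norm_num)
        have hrad : (16 : ℝ) ≤ 4 * (2 ^ k) ^ 2 * (1 / 2) ^ j := by
          have h1 : (1 : ℝ) ≤ 2 ^ k * (1 / 2) ^ j := by
            have : (2 : ℝ) ^ j ≤ 2 ^ k := pow_le_pow_right₀ (by norm_num) (by omega)
            rw [one_div_pow, mul_one_div, le_div_iff₀ (by positivity)]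
            linarith
          have h2 : (4 : ℝ) ≤ 2 ^ k := by
            calc (4 : ℝ) = 2 ^ 2 := by norm_num
              _ ≤ 2 ^ k := pow_le_pow_right₀ (by norm_num) hk
          calc (16 : ℝ) = 4 * (4 * 1) := by norm_num
            _ ≤ 4 * (2 ^ k * (2 ^ k * (1 / 2) ^ j)) := by gcongr
            _ = 4 * (2 ^ k) ^ 2 * (1 / 2) ^ j := by ring
        rw [hγ.source] at hdist ⊢
        have hz'n : ‖z'‖ ≤ 3 := by
          rw [zero_sub, norm_neg] at hdist
          linarith
        have hσn : ‖γ σ‖ = 1 := by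
          have := hpiece.dist_eq
          rwa [hγ.source, sub_zero] at this
        have hb : |segAvg (φ j) 0 (γ σ)| ≤ Y z' j := by
          apply abs_segAvg_le
          intro θ hθ
          apply hg.bdd
          rw [Metric.mem_closedBall, dist_eq_norm]
          have h1 : ‖(0 : EuclideanSpace ℝ (Fin d)) + θ • (γ σ - 0)‖ ≤ 1 := by
            rw [zero_add, sub_zero, norm_smul, hσn, mul_one, Real.norm_eq_abs,
              abs_of_nonneg hθ.1]
            exact hθ.2
          have h2 := norm_sub_le ((0 : EuclideanSpace ℝ (Fin d)) + θ • (γ σ - 0)) z'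
          linarith
        have h1 := (abs_le.1 hb).1
        have h2 : Y z' j ≤ 1 / ξ + ξ * Y z' j ^ 2 := by
          have h3 : 0 < 1 / ξ := by positivity
          have h4 : 0 ≤ (1 / ξ) * (ξ * Y z' j - 1) ^ 2 := by positivity
          have h5 : (1 / ξ) * (ξ * Y z' j - 1) ^ 2
              = ξ * Y z' j ^ 2 - 2 * Y z' j + 1 / ξ := by
            field_simp
            ring
          have h6 := hY0 j hj'
          linarith
        linarith
      · rw [if_neg hjk, if_pos (by omega)]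
        have : 0 ≤ ξ * Y z' j ^ 2 := by positivity
        linarith
    have hsumt := Finset.sum_le_sum hterm
    rw [Finset.sum_neg_distrib, Finset.sum_add_distrib, ← Finset.mul_sum] at hsumt
    have hcard : ∑ j ∈ Finset.range n, (if j < c + 1 then 1 / ξ else 0) ≤ (c + 1) * (1 / ξ) := by
      rw [← Finset.sum_filter, Finset.sum_const, nsmul_eq_mul]
      apply mul_le_mul_of_nonneg_right _ (by positivity)
      have : (Finset.range n).filter (fun j => j < c + 1) ⊆ Finset.range (c + 1) := by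
        intro j hj
        exact Finset.mem_range.2 (Finset.mem_filter.1 hj).2
      have := Finset.card_le_card this
      rw [Finset.card_range] at this
      exact_mod_cast this
    have h1 : -((c + 1) * (1 / ξ) + ξ * S) ≤
        ∑ j ∈ Finset.range n, tvS k c 0 j (φ j) (γ 0) (γ σ) := by
      have := mul_le_mul_of_nonneg_left hsumsq hξ.le
      linarith
    calc -((c + 1) + ξ ^ 2 * S) = ξ * -((c + 1) * (1 / ξ) + ξ * S) := by
          field_simp
      _ ≤ _ := mul_le_mul_of_nonneg_left h1 hξ.le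
  -- conclusion
  have hlog : -((c + 1) + ξ ^ 2 * S + K) ≤ Real.log (L 0 σ) := by
    linarith
  have hle : L 0 σ ≤ pathLen ξ f γ := by
    have h1 := hL.add 0 σ 1 le_rfl hσ.1 hσ.2 le_rfl
    have h2 := hL.nonneg σ 1 hσ.1 hσ.2 le_rfl
    have h3 : pathLen ξ f γ = L 0 1 := rfl
    rw [h3]
    linarith
  calc Real.exp (-((c + 1) + ξ ^ 2 * S + K))
      ≤ Real.exp (Real.log (L 0 σ)) := Real.exp_le_exp.2 hlog
    _ = L 0 σ := Real.exp_log hLpos
    _ ≤ pathLen ξ f γ := hle

end Pool.Agent.Lib_MP_71c74a_pr
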