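import Pool.Agent.Lib_MP_71c74a_pr.CostSharp
import Pool.Agent.Lib_MP_71c74a_pr.ExpoLe
import Pool.Agent.Lib_MP_71c74a_pr.LevelMain
import Pool.Agent.Lib_MP_71c74a_pr.LowerEvent
import Pool.Agent.Lib_MP_71c74a_pr.RootSharp

/-!
# The event on which all paths are long, sharp version
-/

open MeasureTheory ProbabilityTheory Set
open scoped ENNReal NNReal Topology

namespace Pool.Agent.Lib_MP_71c74a_pr

variable {d : ℕ}

/-- The functional of one field. -/
noncomputable def XX (X : (Eu d → ℝ) → ℝ≥0∞) (C₁ : ℕ) (R₀ C : ℝ) (k k₀ j : ℕ) (ψ : Eu d → ℝ) :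
    ℝ≥0∞ :=
  1 + X ψ / 2 ^ (C₁ * k) + YJ R₀ C k k₀ (j % k) ψ + YJ R₀ C k k₀ (j % k + k) ψ

/-- With high probability all paths are long. -/
theorem lower_event_aux {Ω H : Type*} [MeasurableSpace Ω] [NormedAddCommGroup H]
    [InnerProductSpace ℝ H] {P : Measure Ω} {G : Eu d → H} {φ : ℕ → Eu d → Ω → ℝ}
    {R₀ v₀ C : ℝ} (hG : CovLaw G R₀ v₀ C) (hφ : Scales P G φ) :
    ∃ (C₁ : ℕ) (C₂ C' : ℝ), 0 < C' ∧ ∀ (ξ κ : ℝ) (k k₀ : ℕ),
      0 < ξ → 0 ≤ κ → ξ * vs ^ k₀ ≤ κ → κ * 4 ^ k₀ ≤ 4 → 8 * (d : ℝ) ≤ 2 ^ k₀ →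
      9 * (d : ℝ) + 16 ≤ 2 ^ k → 4 * k₀ ≤ k → 0 < k₀ →
      ∀ᶠ n : ℕ in Filter.atTop, ∃ (E : Set Ω) (N : ℕ), k * N ≤ n + 2 * k ∧ MeasurableSet E ∧
      P Eᶜ ≤ 1 / 4 ∧ ∀ ω ∈ E, ∀ (U : Set (Eu d)) (w : Eu d) (γ : ℝ → Eu d),
        IsPath U 0 w γ → ‖w‖ = 1 →
        Real.exp (-(expo d C' ξ κ (C₂ ^ 2 * ((d + 3 : ℕ) + C₁ * k) * n) n k k₀ N (d + 3)))
        ≤ pathLen ξ (fun x => ∑ j ∈ Finset.range n, φ j x ω) γ := by
  obtain ⟨C₁, C₂, hC₂, hX⟩ := unit_scale (Ω := Ω) hG (hφ.law 0)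
  obtain ⟨C', hC', hlev⟩ := level_sharp d hG.R₀_pos hG.C_pos
  refine ⟨C₁, C₂, C', hC', fun ξ κ k k₀ hξ hκ hξκ hκ4 hdk0 hdk hkk hk0 => ?_⟩
  have hk2 : 2 ≤ k := by omega
  have hkpos : 0 < k := by omega
  obtain ⟨X, hXm, hX1, hXgood, hXmom⟩ := hX k hk2
  have hP := (hφ.law 0).isProbabilityMeasure
  have hlog2 : 0 < Real.log 2 := Real.log_pos (by norm_num)
  have hlog21 : Real.log 2 ≤ 1 := by have := Real.log_two_lt_d9; linarith
  -- decay
  have hlim : Filter.Tendsto (fun n : ℕ => ((5 * d : ℝ) ^ d * 2 ^ (2 * k * d)) * (1 / 2) ^ n)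
      Filter.atTop (𝓝 0) := by
    have := (tendsto_pow_atTop_nhds_zero_of_lt_one (by norm_num : (0 : ℝ) ≤ 1 / 2)
      (by norm_num)).const_mul ((5 * d : ℝ) ^ d * 2 ^ (2 * k * d))
    simpa using this
  filter_upwards [hlim.eventually (ge_mem_nhds (by norm_num : (0 : ℝ) < 1 / 4))] with n hn
  set N := (n + k) / k + 1 with hN
  have hN1 : n + k ≤ k * N + 1 := by
    have := Nat.div_add_mod (n + k) k
    have := Nat.mod_lt (n + k) hkpos
    rw [hN, mul_add, mul_one]
    omega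
  have hN2 : k * N ≤ n + 2 * k := by
    have := Nat.div_mul_le_self (n + k) k
    rw [hN, mul_add, mul_one]
    nlinarith
  set ρ : ℝ := (1 / 2) ^ (k * N) with hρ
  have hρ0 : 0 < ρ := by positivity
  have hρ1 : ρ ≤ 1 := pow_le_one₀ (by norm_num) (by norm_num)
  obtain ⟨net, hcard, hnet⟩ := exists_net d (r := 1) (δ := ρ) hρ0 hρ1
  set s : ℕ := d + 3 with hs
  -- the functional at the points of the net
  have hXXm : ∀ j, Measurable (XX X C₁ R₀ C k k₀ j) := fun j => by
    unfold XX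
    exact ((measurable_const.add (hXm.div_const _)).add (measurable_YJ R₀ C k k₀ _)).add
      (measurable_YJ R₀ C k k₀ _)
  set Z : Eu d → ℕ → Ω → ℝ≥0∞ := fun z' j ω =>
    XX X C₁ R₀ C k k₀ j (fun x => φ j (z' + (1 / 2 : ℝ) ^ j • x) ω) with hZ
  have hZm : ∀ z' j, Measurable (Z z' j) := fun z' j =>
    (hXXm j).comp (measurable_pi_lambda _ fun x => hφ.meas j _)
  have hZ1 : ∀ z' j ω, 1 ≤ Z z' j ω := fun z' j ω => by
    rw [hZ]; simp only; unfold XX
    rw [add_assoc, add_assoc]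
    exact le_self_add
  have hZind : ∀ z', iIndepFun (fun j ω => Z z' j ω) P := fun z' => by
    have := hφ.indep.comp (fun j => fun (f : Eu d → ℝ) =>
      XX X C₁ R₀ C k k₀ j (fun x => f (z' + (1 / 2 : ℝ) ^ j • x)))
      (fun j => (hXXm j).comp (measurable_pi_lambda _ fun x => measurable_pi_apply _))
    exact this
  have hZmom : ∀ z' j, ∫⁻ ω, Z z' j ω ∂P ≤ 4 := by
    intro z' j
    have hlaw := hφ.law_shift hG j z'
    have hmf : Measurable fun ω => (fun x => φ j (z' + (1 / 2 : ℝ) ^ j • x) ω) :=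
      measurable_pi_lambda _ fun x => hφ.meas j _
    have e : ∫⁻ ω, Z z' j ω ∂P = ∫⁻ ω, (((1 + X (fun x => φ j (z' + (1 / 2 : ℝ) ^ j • x) ω)
        / 2 ^ (C₁ * k)) + YJ R₀ C k k₀ (j % k) (fun x => φ j (z' + (1 / 2 : ℝ) ^ j • x) ω))
        + YJ R₀ C k k₀ (j % k + k) (fun x => φ j (z' + (1 / 2 : ℝ) ^ j • x) ω)) ∂P := rfl
    have m1 : Measurable fun ω => X (fun x => φ j (z' + (1 / 2 : ℝ) ^ j • x) ω) := hXm.comp hmf
    have m2 : Measurable fun ω => (1 : ℝ≥0∞) + X (fun x => φ j (z' + (1 / 2 : ℝ) ^ j • x) ω)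
        / 2 ^ (C₁ * k) := measurable_const.add (m1.div_const _)
    have m3 : Measurable fun ω => ((1 : ℝ≥0∞) + X (fun x => φ j (z' + (1 / 2 : ℝ) ^ j • x) ω)
        / 2 ^ (C₁ * k)) + YJ R₀ C k k₀ (j % k) (fun x => φ j (z' + (1 / 2 : ℝ) ^ j • x) ω) :=
      m2.add ((measurable_YJ R₀ C k k₀ _).comp hmf)
    rw [e, lintegral_add_left m3, lintegral_add_left m2, lintegral_add_left measurable_const]
    have h1 : ∫⁻ ω, X (fun x => φ j (z' + (1 / 2 : ℝ) ^ j • x) ω) / 2 ^ (C₁ * k) ∂P ≤ 1 := by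
      rw [lintegral_congr fun ω => div_eq_mul_inv (X (fun x => φ j (z' + (1 / 2 : ℝ) ^ j • x) ω))
        (2 ^ (C₁ * k)), lintegral_mul_const _ m1]
      calc (∫⁻ ω, X (fun x => φ j (z' + (1 / 2 : ℝ) ^ j • x) ω) ∂P) * (2 ^ (C₁ * k))⁻¹
          ≤ 2 ^ (C₁ * k) * (2 ^ (C₁ * k))⁻¹ := by
            gcongr
            exact hXmom P _ hlaw
        _ = 1 := ENNReal.mul_inv_cancel (by positivity) (by finiteness)
    have h2 := lintegral_YJ_le hG hlaw k k₀ (j % k)
    have h3 := lintegral_YJ_le hG hlaw k k₀ (j % k + k)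
    calc ∫⁻ _ω : Ω, (1 : ℝ≥0∞) ∂P + ∫⁻ ω, X (fun x => φ j (z' + (1 / 2 : ℝ) ^ j • x) ω)
          / 2 ^ (C₁ * k) ∂P
        + ∫⁻ ω, YJ R₀ C k k₀ (j % k) (fun x => φ j (z' + (1 / 2 : ℝ) ^ j • x) ω) ∂P
        + ∫⁻ ω, YJ R₀ C k k₀ (j % k + k) (fun x => φ j (z' + (1 / 2 : ℝ) ^ j • x) ω) ∂P
        ≤ 1 + 1 + 1 + 1 := by
          gcongr
          simp
      _ = 4 := by norm_num
  have hmom : ∀ z', ∫⁻ ω, ∏ j ∈ Finset.range n, Z z' j ω ∂P ≤ 4 ^ n := fun z' => by
    rw [lintegral_prod_eq_prod_lintegral_of_indepFun _ _ (hZind z') (hZm z')]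
    calc ∏ j ∈ Finset.range n, ∫⁻ ω, Z z' j ω ∂P ≤ ∏ _j ∈ Finset.range n, (4 : ℝ≥0∞) :=
          Finset.prod_le_prod' fun j _ => hZmom z' j
      _ = _ := by simp
  set Θ : ℝ≥0∞ := 2 ^ (s * n) with hΘ
  have hΘ0 : Θ ≠ 0 := by rw [hΘ]; positivity
  have hΘtop : Θ ≠ ∞ := by rw [hΘ]; finiteness
  set E : Set Ω := ⋂ z' ∈ net, {ω | ∏ j ∈ Finset.range n, Z z' j ω ≤ Θ} with hE
  have hprodm : ∀ z', Measurable (fun ω => ∏ j ∈ Finset.range n, Z z' j ω) := fun z' =>
    Finset.measurable_prod _ fun j _ => hZm z' j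
  refine ⟨E, N, hN2, ?_, ?_, ?_⟩
  · exact Finset.measurableSet_biInter _ fun z' _ => measurableSet_le (hprodm z') measurable_const
  · -- union bound
    have h1 : Eᶜ ⊆ ⋃ z' ∈ net, {ω | Θ ≤ ∏ j ∈ Finset.range n, Z z' j ω} := by
      intro ω hω
      rw [hE, mem_compl_iff, mem_iInter₂] at hω
      push Not at hω
      obtain ⟨z', hz', h2⟩ := hω
      rw [mem_iUnion₂]
      refine ⟨z', hz', ?_⟩
      simp only [mem_ofPred_eq, not_le] at h2 ⊢
      exact h2.le
    calc P Eᶜ ≤ P (⋃ z' ∈ net, {ω | Θ ≤ ∏ j ∈ Finset.range n, Z z' j ω}) := measure_mono h1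
      _ ≤ ∑ z' ∈ net, P {ω | Θ ≤ ∏ j ∈ Finset.range n, Z z' j ω} :=
          measure_biUnion_finset_le _ _
      _ ≤ ∑ _z' ∈ net, 4 ^ n / Θ := by
          refine Finset.sum_le_sum fun z' _ => ?_
          refine (meas_ge_le_lintegral_div (hprodm z').aemeasurable hΘ0 hΘtop).trans ?_
          gcongr
          exact hmom z'
      _ = net.card * (4 ^ n / Θ) := by simp
      _ ≤ 1 / 4 := by
          have h2 : (4 : ℝ≥0∞) ^ n / Θ = ENNReal.ofReal ((1 / 2) ^ ((d + 1) * n)) := by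
            have h3 : Θ = 2 ^ ((d + 1) * n) * 4 ^ n := by
              have h40 : (4 : ℝ≥0∞) = 2 ^ 2 := by norm_num
              rw [hΘ, hs, h40, ← pow_mul, ← pow_add]
              congr 1
              ring
            have h4 : (4 : ℝ≥0∞) ^ n ≠ 0 := by positivity
            have h5 : (4 : ℝ≥0∞) ^ n ≠ ∞ := by finiteness
            rw [h3, ENNReal.ofReal_pow (by norm_num), ENNReal.ofReal_div_of_pos (by norm_num),
              ENNReal.ofReal_one, ENNReal.ofReal_ofNat, one_div, ← ENNReal.inv_pow,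
              ENNReal.div_eq_inv_mul, ENNReal.mul_inv (Or.inl (by positivity))
              (Or.inl (by finiteness)), mul_assoc, ENNReal.inv_mul_cancel h4 h5, mul_one]
          rw [h2]
          have h6 : (net.card : ℝ≥0∞) = ENNReal.ofReal net.card := by
            rw [ENNReal.ofReal_natCast]
          rw [h6, ← ENNReal.ofReal_mul (Nat.cast_nonneg _)]
          have h7 : (net.card : ℝ) * (1 / 2) ^ ((d + 1) * n) ≤ 1 / 4 := by
            refine le_trans ?_ hn
            have h8 : (5 : ℝ) * d * (1 / ρ) ≤ 5 * d * 2 ^ (n + 2 * k) := by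
              gcongr
              rw [hρ, one_div_pow, one_div_one_div]
              exact pow_le_pow_right₀ (by norm_num) hN2
            calc (net.card : ℝ) * (1 / 2) ^ ((d + 1) * n)
                ≤ (5 * d * 2 ^ (n + 2 * k)) ^ d * (1 / 2) ^ ((d + 1) * n) := by
                  gcongr
                  exact hcard.trans (pow_le_pow_left₀ (by positivity) h8 d)
              _ = (5 * d : ℝ) ^ d * 2 ^ (2 * k * d) * (1 / 2) ^ n := by
                  rw [mul_pow, ← pow_mul, add_mul, pow_add, add_mul d 1 n, pow_add, one_mul]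
                  have : (2 : ℝ) ^ (n * d) * (1 / 2) ^ (d * n) = 1 := by
                    rw [mul_comm n d, ← mul_pow]; norm_num
                  calc (5 * (d : ℝ)) ^ d * (2 ^ (n * d) * 2 ^ (2 * k * d))
                        * ((1 / 2) ^ (d * n) * (1 / 2) ^ n)
                      = (5 * (d : ℝ)) ^ d * 2 ^ (2 * k * d) * (1 / 2) ^ n
                        * (2 ^ (n * d) * (1 / 2) ^ (d * n)) := by ring
                    _ = _ := by rw [this, mul_one]
          refine (ENNReal.ofReal_le_ofReal h7).trans (le_of_eq ?_)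
          rw [ENNReal.ofReal_div_of_pos (by norm_num), ENNReal.ofReal_one, ENNReal.ofReal_ofNat]
  · intro ω hω U w γ hγ hw
    rw [hE, mem_iInter₂] at hω
    -- logarithms
    have hprod : ∀ z' ∈ net, ∏ j ∈ Finset.range n, Z z' j ω ≤ Θ := fun z' hz' => hω z' hz'
    have hZle : ∀ z' ∈ net, ∀ j < n, Z z' j ω ≤ Θ := fun z' hz' j hj => by
      refine le_trans ?_ (hprod z' hz')
      exact Finset.single_le_prod' (f := fun j => Z z' j ω) (fun i _ => hZ1 z' i ω)
        (Finset.mem_range.2 hj)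
    have hZtop : ∀ z' ∈ net, ∀ j < n, Z z' j ω ≠ ∞ := fun z' hz' j hj =>
      ne_top_of_le_ne_top hΘtop (hZle z' hz' j hj)
    have hZr1 : ∀ z' ∈ net, ∀ j < n, 1 ≤ (Z z' j ω).toReal := fun z' hz' j hj => by
      rw [← ENNReal.toReal_one]
      exact ENNReal.toReal_mono (hZtop z' hz' j hj) (hZ1 z' j ω)
    set t : Eu d → ℕ → ℝ := fun z' j => Real.log (Z z' j ω).toReal with ht
    have ht0 : ∀ z' ∈ net, ∀ j < n, 0 ≤ t z' j := fun z' hz' j hj =>
      Real.log_nonneg (hZr1 z' hz' j hj)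
    have hZexp : ∀ z' ∈ net, ∀ j < n, Z z' j ω = ENNReal.ofReal (Real.exp (t z' j)) :=
      fun z' hz' j hj => by
        rw [ht]; simp only
        rw [Real.exp_log (by linarith [hZr1 z' hz' j hj]),
          ENNReal.ofReal_toReal (hZtop z' hz' j hj)]
    -- sum of the logarithms
    have hT : ∀ z' ∈ net, ∑ j ∈ Finset.range n, t z' j ≤ s * n := by
      intro z' hz'
      rw [ht]; simp only
      rw [← Real.log_prod (fun j hj => by
        have := hZr1 z' hz' j (Finset.mem_range.1 hj); linarith)]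
      rw [← ENNReal.toReal_prod]
      have h1 : (∏ j ∈ Finset.range n, Z z' j ω).toReal ≤ 2 ^ (s * n) := by
        have := ENNReal.toReal_mono hΘtop (hprod z' hz')
        rw [hΘ, ENNReal.toReal_pow, ENNReal.toReal_ofNat] at this
        exact this
      have h2 : 0 < (∏ j ∈ Finset.range n, Z z' j ω).toReal := by
        rw [ENNReal.toReal_prod]
        exact Finset.prod_pos fun j hj => by
          have := hZr1 z' hz' j (Finset.mem_range.1 hj); linarith
      calc Real.log (∏ j ∈ Finset.range n, Z z' j ω).toReal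
          ≤ Real.log (2 ^ (s * n)) := Real.log_le_log h2 h1
        _ = ((s * n : ℕ) : ℝ) * Real.log 2 := by rw [Real.log_pow]
        _ ≤ ((s * n : ℕ) : ℝ) * 1 := by gcongr
        _ = s * n := by push_cast; ring
    -- the crude constants
    set Y : Eu d → ℕ → ℝ := fun z' j => C₂ * √(t z' j + C₁ * k * Real.log 2) with hYdef
    have hgood : ∀ z' ∈ net, ∀ j < n, Good (fun x => φ j x ω) ((1 / 2) ^ j) (2 ^ k) z'
        (Y z' j) := by
      intro z' hz' j hj
      apply Good.scale (hφ.smooth j ω).continuous (by positivity)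
      refine hXgood _ _ ((hφ.smooth j ω).continuous.comp (by fun_prop))
        (by have := ht0 z' hz' j hj; positivity) ?_
      have h1 : X (fun x => φ j (z' + (1 / 2 : ℝ) ^ j • x) ω) / 2 ^ (C₁ * k) ≤ Z z' j ω := by
        rw [hZ]; simp only; unfold XX
        refine le_trans ?_ le_self_add
        refine le_trans ?_ le_self_add
        exact le_add_self
      rw [hZexp z' hz' j hj, ENNReal.div_le_iff (by positivity) (by finiteness)] at h1
      refine h1.trans (le_of_eq ?_)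
      rw [Real.exp_add, ENNReal.ofReal_mul (Real.exp_pos _).le]
      congr 1
      have e1 : (C₁ : ℝ) * k * Real.log 2 = Real.log (2 ^ (C₁ * k)) := by
        rw [Real.log_pow]; push_cast; ring
      rw [e1, Real.exp_log (by positivity), ENNReal.ofReal_pow (by norm_num),
        ENNReal.ofReal_ofNat]
    have hYsq : ∀ z' ∈ net, ∑ j ∈ Finset.range n, Y z' j ^ 2
        ≤ C₂ ^ 2 * ((d + 3 : ℕ) + C₁ * k) * n := by
      intro z' hz'
      have e : ∀ j ∈ Finset.range n, Y z' j ^ 2 = C₂ ^ 2 * (t z' j + C₁ * k * Real.log 2) := by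
        intro j hj
        have := ht0 z' hz' j (Finset.mem_range.1 hj)
        rw [hYdef]; simp only
        rw [mul_pow, Real.sq_sqrt (by positivity)]
      rw [Finset.sum_congr rfl e, ← Finset.mul_sum, Finset.sum_add_distrib, Finset.sum_const,
        Finset.card_range, nsmul_eq_mul]
      have h1 := hT z' hz'
      have h2 : (C₁ : ℝ) * k * Real.log 2 ≤ C₁ * k * 1 := by gcongr
      have h3 : (n : ℝ) * (C₁ * k * Real.log 2) ≤ n * (C₁ * k * 1) := by gcongr
      calc C₂ ^ 2 * (∑ j ∈ Finset.range n, t z' j + n * (C₁ * k * Real.log 2))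
          ≤ C₂ ^ 2 * (s * n + n * (C₁ * k * 1)) := by gcongr
        _ = _ := by rw [hs]; ring
    have hYlin : ∀ z' ∈ net, ∑ j ∈ Finset.range n, Y z' j
        ≤ n + C₂ ^ 2 * ((d + 3 : ℕ) + C₁ * k) * n := by
      intro z' hz'
      have h1 : ∑ j ∈ Finset.range n, Y z' j ≤ ∑ j ∈ Finset.range n, (1 + Y z' j ^ 2) := by
        refine Finset.sum_le_sum fun j _ => ?_
        nlinarith [sq_nonneg (Y z' j - 1), sq_nonneg (Y z' j)]
      rw [Finset.sum_add_distrib, Finset.sum_const, Finset.card_range, nsmul_eq_mul,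
        mul_one] at h1
      have := hYsq z' hz'
      linarith
    -- conclusion
    have hvs := vs_pos
    have key := len_lowerS (φ := fun j x => φ j x ω) (net := net) (Y := Y)
      (cst := fun i z' => costS C' R₀ C ξ κ n k k₀ i (fun j x => φ j x ω) (Y z') z')
      (S := C₂ ^ 2 * ((d + 3 : ℕ) + C₁ * k) * n)
      (K := C' * κ * (N * k * (8 + 8 * LK d + 384 * d) + 24 * (s * n))
        + 144 * k * (4 * k₀ + 2) * ξ ^ 2 * (C₂ ^ 2 * ((d + 3 : ℕ) + C₁ * k) * n)
        + N / 2 ^ k + (6 * d + 21) * (1 / 2) ^ k₀ * ξ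
          * (n + C₂ ^ 2 * ((d + 3 : ℕ) + C₁ * k) * n))
      (c := k₀) hξ hk2 (by omega) hN1 (fun j => (hφ.smooth j ω).continuous) hnet hgood
      (fun z' hz' i _ => hlev ξ κ n k k₀ i (fun j x => φ j x ω) (Y z') z' hξ.le hκ hξκ hκ4 hdk0
        hdk hkk hk0 (hgood z' hz'))
      (fun z' hz' => ?_) hYsq hγ hw
    · exact key
    · have hY0 : ∀ j < n, 0 ≤ Y z' j := fun j hj => (hgood z' hz' j hj).nonneg
      have h1 := totS_le (C' := C') (R₀ := R₀) (C := C) (ξ := ξ) (κ := κ) (n := n) (k := k)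
        (k₀ := k₀) (N := N) (φ := fun j x => φ j x ω) (Y := Y z') (t := t z') (z' := z')
        hC'.le hξ.le hκ hkk hk0 hY0 (ht0 z' hz') hN1 (by
          intro i j hj
          rw [highS, Finset.mem_filter, Finset.mem_range] at hj
          obtain ⟨hjn, hj1, hj2⟩ := hj
          obtain ⟨J, rfl⟩ : ∃ J, j = k * i + J := ⟨j - k * i, by omega⟩
          have eJ : k * i + J - k * i = J := by omega
          rw [eJ]
          refine WJ_le (ht0 z' hz' _ hjn) ?_
          rw [← hZexp z' hz' _ hjn, hZ]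
          simp only
          unfold XX
          have emod : (k * i + J) % k = J % k := Nat.mul_add_mod _ _ _
          rw [emod]
          have huf : (uf (fun x => φ (k * i + J) x ω) (k * i + J) z')
              = fun x => φ (k * i + J) (z' + (1 / 2 : ℝ) ^ (k * i + J) • x) ω := rfl
          rw [huf]
          rcases lt_or_ge J k with hJk | hJk
          · rw [Nat.mod_eq_of_lt hJk]
            refine le_trans ?_ le_self_add
            gcongr
            exact le_self_add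
          · have e2 : J % k + k = J := by
              rw [Nat.mod_eq_sub_mod hJk, Nat.mod_eq_of_lt (by omega)]
              omega
            rw [e2]
            gcongr
            rw [add_assoc]
            exact le_self_add)
      refine h1.trans ?_
      have hT' := hT z' hz'
      have hYs := hYsq z' hz'
      have hYl := hYlin z' hz'
      have hLK := LK_nonneg d
      gcongr

end Pool.Agent.Lib_MP_71c74a_pr
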