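import Pool.Agent.Lib_MP_71c74a_pr.Level
import Pool.Agent.Lib_MP_71c74a_pr.PathBase

/-!
# Lower bound for the length of a curve
-/

open MeasureTheory Set
open scoped Topology

namespace Pool.Agent.Lib_MP_71c74a_pr

variable {E : Type*} [NormedAddCommGroup E] [InnerProductSpace ℝ E]

/-- Total cost from level `i` on. -/
noncomputable def totalCost (ξ : ℝ) (n k N i : ℕ) (Y : ℕ → ℝ) : ℝ :=
  ∑ i' ∈ Finset.Ico i N, cost ξ n k i' Y + baseCost ξ n k N Y

/-- The recursive lower bound. -/
theorem path_bound {γ : ℝ → E} {φ : ℕ → E → ℝ} {ξ s₀ t₀ ρ : ℝ} {L : ℝ → ℝ → ℝ} {n k N : ℕ}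
    {net : Set E} {Y : E → ℕ → ℝ} (hξ : 0 ≤ ξ) (hk : 2 ≤ k)
    (hγ : ContinuousOn γ (Icc s₀ t₀))
    (hL : LenFun γ (fun x => ∑ j ∈ Finset.range n, φ j x) ξ s₀ t₀ L)
    (hnet : ∀ τ ∈ Icc s₀ t₀, ∃ z' ∈ net, ‖γ τ - z'‖ ≤ ρ) (hρ : ρ ≤ (1 / 2) ^ (k * N))
    (hgood : ∀ z' ∈ net, ∀ j < n, Good (φ j) ((1 / 2) ^ j) (2 ^ k) z' (Y z' j))
    (hN : n + k ≤ k * N + 1) {i : ℕ} (hi : i ≤ N) :
    ∀ s t, s₀ ≤ s → t ≤ t₀ → IsPiece γ ((1 / 2) ^ (k * i)) s t →
      0 < L s t ∧ ∃ z' ∈ net, ‖γ s - z'‖ ≤ 2 * (1 / 2) ^ (k * i) + ρ ∧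
        pred ξ n k i φ (γ s) (γ t) - totalCost ξ n k N i (Y z')
          ≤ Real.log (L s t / (1 / 2) ^ (k * i)) := by
  induction hj : N - i generalizing i with
  | zero =>
    have hiN : i = N := by omega
    subst hiN
    intro s t hs ht hp
    have hr : (0 : ℝ) < (1 / 2) ^ (k * i) := by positivity
    obtain ⟨z', hz', hdist⟩ := hnet s ⟨hs, hp.le.trans ht⟩
    -- lower bound of the field on the piece
    have hcoarse : ∀ j < n, j + k ≤ k * i := fun j hj => by omega
    have hfield : ∀ τ ∈ Icc s t, (∑ j ∈ Finset.range n, φ j (γ s))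
        - ∑ j ∈ Finset.range n, Y z' j * ((1 / 2) ^ (k * i) / (1 / 2) ^ j)
        ≤ ∑ j ∈ Finset.range n, φ j (γ τ) := by
      intro τ hτ
      rw [← Finset.sum_sub_distrib]
      refine Finset.sum_le_sum fun j hj => ?_
      have hj' := Finset.mem_range.1 hj
      have hg := hgood z' hz' j hj'
      have hYn := hg.nonneg
      have hrs : (1 / 2 : ℝ) ^ (k * i) ≤ (1 / 2) ^ j := by
        apply pow_le_pow_of_le_one (by norm_num) (by norm_num)
        have := hcoarse j hj'
        omega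
      have hb : (4 : ℝ) * (1 / 2) ^ (k * i) ≤ 4 * (2 ^ k) ^ 2 * (1 / 2) ^ j := by
        have : (1 : ℝ) ≤ (2 ^ k) ^ 2 := one_le_pow₀ (one_le_pow₀ (by norm_num))
        nlinarith
      have m1 : γ s ∈ Metric.closedBall z' (4 * (2 ^ k) ^ 2 * (1 / 2) ^ j) := by
        rw [Metric.mem_closedBall, dist_eq_norm]
        linarith
      have m2 : γ τ ∈ Metric.closedBall z' (4 * (2 ^ k) ^ 2 * (1 / 2) ^ j) := by
        rw [Metric.mem_closedBall, dist_eq_norm]
        have := norm_sub_le_norm_sub_add_norm_sub (γ τ) (γ s) z'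
        have := hp.inside τ hτ
        linarith
      have h1 := hg.lip _ m2 _ m1 ((hp.inside τ hτ).trans hrs)
      have h2 : Y z' j * (‖γ τ - γ s‖ / (1 / 2) ^ j)
          ≤ Y z' j * ((1 / 2) ^ (k * i) / (1 / 2) ^ j) := by
        gcongr
        exact hp.inside τ hτ
      have := (abs_le.1 h1).1
      linarith
    have hlow := hL.lower s t _ hs hp.le ht hfield
    rw [hp.dist_eq] at hlow
    have hLpos : 0 < L s t := lt_of_lt_of_le (by positivity) hlow
    refine ⟨hLpos, z', hz', by linarith, ?_⟩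
    have hlog : Real.log (Real.exp (ξ * ((∑ j ∈ Finset.range n, φ j (γ s))
        - ∑ j ∈ Finset.range n, Y z' j * ((1 / 2) ^ (k * i) / (1 / 2) ^ j))))
        ≤ Real.log (L s t / (1 / 2) ^ (k * i)) := by
      apply Real.log_le_log (by positivity)
      rw [le_div_iff₀ hr]
      exact hlow
    rw [Real.log_exp] at hlog
    have hpred : pred ξ n k i φ (γ s) (γ t) = ξ * ∑ j ∈ Finset.range n, φ j (γ s) := by
      unfold pred
      congr 1
      refine Finset.sum_congr rfl fun j hj => ?_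
      rw [tval, if_pos (hcoarse j (Finset.mem_range.1 hj))]
    rw [hpred, totalCost, Finset.Ico_self, Finset.sum_empty, zero_add, baseCost]
    linarith
  | succ p ih =>
    intro s t hs ht hp
    have hiN : i + 1 ≤ N := by omega
    have ih' := ih hiN (by omega)
    have hr : (0 : ℝ) < (1 / 2) ^ (k * i) := by positivity
    have hr' : (0 : ℝ) < (1 / 2) ^ (k * (i + 1)) := by positivity
    have hR0 : (0 : ℝ) < 2 ^ k := by positivity
    have hki : k * (i + 1) = k * i + k := by ring
    have hrr : (1 / 2 : ℝ) ^ (k * i) = 2 ^ k * (1 / 2) ^ (k * (i + 1)) := by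
      rw [hki, pow_add, ← one_div_two_pow k]; field_simp
    obtain ⟨m, T, hT0, hTm, hTp, hTe⟩ := exists_chain' hr' hp.le
      (hγ.mono (Icc_subset_Icc hs ht))
    have hTmono : ∀ a b, a ≤ b → b ≤ m → T a ≤ T b := by
      intro a b hab hbm
      induction b, hab using Nat.le_induction with
      | base => exact le_rfl
      | succ b hab ih2 => exact (ih2 (by omega)).trans (hTp b (by omega)).le
    have hTa : ∀ a ≤ m, T a ∈ Icc s t := fun a ha =>
      ⟨by rw [← hT0]; exact hTmono 0 a (Nat.zero_le _) ha, (hTmono a m ha le_rfl).trans hTm⟩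
    set z : ℕ → E := fun a => γ (T a) with hz
    have hstep : ∀ a < m, ‖z (a + 1) - z a‖ = (1 / 2) ^ (k * (i + 1)) := fun a ha =>
      (hTp a ha).dist_eq
    have hz0 : ∀ a ≤ m, ‖z a - z 0‖ ≤ (1 / 2) ^ (k * i) := fun a ha => by
      simp only [hz, hT0]
      exact hp.inside _ (hTa a ha)
    have hzy : ‖z 0 - γ t‖ = (1 / 2) ^ (k * i) := by
      simp only [hz, hT0]
      rw [norm_sub_rev]; exact hp.dist_eq
    have hmy : ‖z m - γ t‖ ≤ (1 / 2) ^ (k * (i + 1)) := by
      rw [norm_sub_rev]; exact hTe.le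
    -- number of pieces
    have hm : (2 : ℝ) ^ k ≤ m := by
      have h1 : ‖z m - z 0‖ ≤ m * (1 / 2) ^ (k * (i + 1)) := by
        have : z m - z 0 = ∑ a ∈ Finset.range m, (z (a + 1) - z a) := by
          rw [Finset.sum_range_sub]
        rw [this]
        refine (norm_sum_le _ _).trans ?_
        rw [Finset.sum_congr rfl fun a ha => hstep a (Finset.mem_range.1 ha)]
        simp
      have h2 : (1 / 2 : ℝ) ^ (k * i) < m * (1 / 2) ^ (k * (i + 1)) + (1 / 2) ^ (k * (i + 1)) := by
        have h3 : ‖z 0 - γ t‖ ≤ ‖z m - z 0‖ + ‖z m - γ t‖ := by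
          have e : z 0 - γ t = -(z m - z 0) + (z m - γ t) := by abel
          rw [e]
          refine (norm_add_le _ _).trans ?_
          rw [norm_neg]
        have h4 : ‖z m - γ t‖ < (1 / 2) ^ (k * (i + 1)) := by
          rw [norm_sub_rev]; exact hTe
        rw [hzy] at h3
        linarith
      rw [hrr] at h2
      have h5 : (2 : ℝ) ^ k < m + 1 := by
        by_contra hcon
        push Not at hcon
        have := mul_le_mul_of_nonneg_right hcon hr'.le
        linarith
      have h6 : 2 ^ k < m + 1 := by exact_mod_cast h5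
      have h7 : 2 ^ k ≤ m := by omega
      exact_mod_cast h7
    have hm0 : (0 : ℝ) < m := by linarith
    have hmpos : 0 < m := by exact_mod_cast hm0
    -- induction hypothesis for every piece
    have hpieces : ∀ a < m, 0 < L (T a) (T (a + 1)) ∧ ∃ z' ∈ net,
        ‖z a - z'‖ ≤ 2 * (1 / 2) ^ (k * (i + 1)) + ρ ∧
        pred ξ n k (i + 1) φ (z a) (z (a + 1)) - totalCost ξ n k N (i + 1) (Y z')
          ≤ Real.log (L (T a) (T (a + 1)) / (1 / 2) ^ (k * (i + 1))) := fun a ha =>
      ih' (T a) (T (a + 1)) (hs.trans (hTa a ha.le).1) ((hTa (a + 1) ha).2.trans ht) (hTp a ha)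
    choose! w hw using fun a ha => (hpieces a ha).2
    obtain ⟨b, hb, hbmax⟩ := Finset.exists_max_image (Finset.range m)
      (fun a => totalCost ξ n k N (i + 1) (Y (w a))) ⟨0, Finset.mem_range.2 hmpos⟩
    have hb' := Finset.mem_range.1 hb
    have hsumle := hL.sum_le (T := T) (m := m) (by rw [hT0]; exact hs) (hTm.trans ht)
      (fun a ha => (hTp a ha).le)
    have hLst : L (T 0) (T m) ≤ L s t := by
      have h1 := hL.add s (T m) t hs (hTa m le_rfl).1 hTm ht
      have h2 := hL.nonneg (T m) t (hs.trans (hTa m le_rfl).1) hTm ht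
      rw [hT0]
      linarith
    have hsumpos : 0 < ∑ a ∈ Finset.range m, L (T a) (T (a + 1)) :=
      Finset.sum_pos (fun a ha => (hpieces a (Finset.mem_range.1 ha)).1)
        ⟨0, Finset.mem_range.2 hmpos⟩
    have hLpos : 0 < L s t := lt_of_lt_of_le hsumpos (hsumle.trans hLst)
    have hnear : ‖z 0 - w b‖ ≤ 2 * (1 / 2) ^ (k * i) + ρ := by
      have h1 := (hw b hb').2.1
      have h2 := norm_sub_le_norm_sub_add_norm_sub (z 0) (z b) (w b)
      have h3 := hz0 b hb'.le
      rw [norm_sub_rev] at h3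
      have h4 : 2 * (1 / 2 : ℝ) ^ (k * (i + 1)) ≤ (1 / 2) ^ (k * i) := by
        rw [hrr]
        have : (2 : ℝ) ≤ 2 ^ k := by
          calc (2 : ℝ) = 2 ^ 1 := (pow_one _).symm
            _ ≤ 2 ^ k := pow_le_pow_right₀ (by norm_num) (by omega)
        gcongr
      linarith
    refine ⟨hLpos, w b, (hw b hb').1, by rw [hz] at hnear; simpa [hT0] using hnear, ?_⟩
    have hρ' : ρ ≤ (1 / 2) ^ (k * i) := by
      refine hρ.trans ?_
      apply pow_le_pow_of_le_one (by norm_num) (by norm_num)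
      exact Nat.mul_le_mul_left k hi
    have hlev := level_estimate (φ := φ) (Y := Y (w b)) (n := n) hξ hk
      (fun j hj => hgood (w b) (hw b hb').1 j hj) hstep hz0
      (by linarith) hm hzy hmy
    -- concavity
    have hconc := log_mean_ge hmpos (fun a => L (T a) (T (a + 1)) / (1 / 2) ^ (k * (i + 1)))
      (fun a ha => div_pos (hpieces a ha).1 hr')
    have hmean : (∑ a ∈ Finset.range m, pred ξ n k (i + 1) φ (z a) (z (a + 1))) / m
        - totalCost ξ n k N (i + 1) (Y (w b))
        ≤ (∑ a ∈ Finset.range m, Real.log (L (T a) (T (a + 1)) / (1 / 2) ^ (k * (i + 1)))) / m := by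
      have h1 : ∑ a ∈ Finset.range m, (pred ξ n k (i + 1) φ (z a) (z (a + 1))
          - totalCost ξ n k N (i + 1) (Y (w b)))
          ≤ ∑ a ∈ Finset.range m, Real.log (L (T a) (T (a + 1)) / (1 / 2) ^ (k * (i + 1))) := by
        refine Finset.sum_le_sum fun a ha => ?_
        have h2 := (hw a (Finset.mem_range.1 ha)).2.2
        have h3 := hbmax a ha
        linarith
      rw [Finset.sum_sub_distrib] at h1
      simp only [Finset.sum_const, Finset.card_range, nsmul_eq_mul] at h1
      rw [le_div_iff₀ hm0, sub_mul, div_mul_cancel₀ _ hm0.ne']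
      linarith
    have hlogL : Real.log (m / 2 ^ k)
        + Real.log ((∑ a ∈ Finset.range m, L (T a) (T (a + 1)) / (1 / 2) ^ (k * (i + 1))) / m)
        ≤ Real.log (L s t / (1 / 2) ^ (k * i)) := by
      rw [← Real.log_mul (by positivity)
        (by rw [← Finset.sum_div]; positivity)]
      apply Real.log_le_log (by rw [← Finset.sum_div]; positivity)
      rw [← Finset.sum_div, hrr]
      calc (m : ℝ) / 2 ^ k * ((∑ a ∈ Finset.range m, L (T a) (T (a + 1)))
            / (1 / 2) ^ (k * (i + 1)) / m)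
          = (∑ a ∈ Finset.range m, L (T a) (T (a + 1))) / (2 ^ k * (1 / 2) ^ (k * (i + 1))) := by
            field_simp
        _ ≤ L s t / (2 ^ k * (1 / 2) ^ (k * (i + 1))) := by
            gcongr
            exact hsumle.trans hLst
    have htot : totalCost ξ n k N i (Y (w b))
        = cost ξ n k i (Y (w b)) + totalCost ξ n k N (i + 1) (Y (w b)) := by
      unfold totalCost
      rw [Finset.sum_eq_sum_Ico_succ_bot (by omega : i < N)]
      ring
    have hzz : z 0 = γ s := by rw [hz]; simp [hT0]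
    rw [hzz] at hlev
    rw [htot]
    linarith

end Pool.Agent.Lib_MP_71c74a_pr
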