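import Pool.Agent.Lib_MP_71c74a_pr.Defs
import Pool.Agent.Lib_MP_71c74a_pr.PathBase

/-!
# The length of a piecewise continuously differentiable path
-/

open MeasureTheory Set
open scoped Topology

namespace Pool.Agent.Lib_MP_71c74a_pr

variable {d : ℕ} {U : Set (EuclideanSpace ℝ (Fin d))} {z w : EuclideanSpace ℝ (Fin d)}
  {γ : ℝ → EuclideanSpace ℝ (Fin d)}

lemma IsPath.strictMono_part {m : ℕ} {t : ℕ → ℝ} (h : ∀ i < m, t i < t (i + 1)) :
    ∀ a b, a ≤ b → b ≤ m → t a ≤ t b := by
  intro a b hab hbm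
  induction b, hab using Nat.le_induction with
  | base => exact le_rfl
  | succ b hab ih => exact (ih (by omega)).trans (h b (by omega)).le

/-- Continuously differentiable on a closed interval: the derivative is integrable. -/
lemma deriv_intervalIntegrable_piece {E : Type*} [NormedAddCommGroup E] [NormedSpace ℝ E]
    {γ : ℝ → E} {a b : ℝ} (hab : a < b) (h : ContDiffOn ℝ 1 γ (Icc a b)) :
    IntervalIntegrable (deriv γ) volume a b := by
  have h1 : ContinuousOn (derivWithin γ (Icc a b)) (Icc a b) :=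
    h.continuousOn_derivWithin (uniqueDiffOn_Icc hab) le_rfl
  have h2 : IntervalIntegrable (derivWithin γ (Icc a b)) volume a b := by
    apply ContinuousOn.intervalIntegrable
    rwa [uIcc_of_le hab.le]
  refine h2.congr_ae ?_
  rw [uIoc_of_le hab.le, ← restrict_Ioo_eq_restrict_Ioc]
  refine (ae_restrict_iff' measurableSet_Ioo).2 (Filter.Eventually.of_forall fun x hx => ?_)
  exact derivWithin_of_mem_nhds (Icc_mem_nhds hx.1 hx.2)

lemma IsPath.deriv_intervalIntegrable (h : IsPath U z w γ) :
    IntervalIntegrable (deriv γ) volume 0 1 := by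
  obtain ⟨m, t, h0, h1, hlt, hC⟩ := h.pw
  rw [← h0, ← h1]
  exact IntervalIntegrable.trans_iterate fun i hi =>
    deriv_intervalIntegrable_piece (hlt i hi) (hC i hi)

/-- Off a finite set, the path is differentiable. -/
lemma IsPath.hasDerivAt_off (h : IsPath U z w γ) :
    ∃ s : Set ℝ, s.Countable ∧ ∀ x ∈ Ioo (0 : ℝ) 1 \ s, HasDerivAt γ (deriv γ x) x := by
  obtain ⟨m, t, h0, h1, hlt, hC⟩ := h.pw
  refine ⟨t '' (Finset.range (m + 1) : Set ℕ), ((Finset.range (m + 1)).finite_toSet.image t).countable,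
    fun x hx => ?_⟩
  obtain ⟨⟨hx0, hx1⟩, hxs⟩ := hx
  -- find the piece containing `x`
  have hex : ∃ i, x < t i := ⟨m, by rw [h1]; exact hx1⟩
  classical
  set j := Nat.find hex with hj
  have hjx : x < t j := Nat.find_spec hex
  have hjm : j ≤ m := Nat.find_min' hex (by rw [h1]; exact hx1)
  have hj0 : j ≠ 0 := by
    intro h2
    rw [h2, h0] at hjx
    linarith
  obtain ⟨i, hi⟩ := Nat.exists_eq_succ_of_ne_zero hj0
  have hix : t i ≤ x := by
    have := Nat.find_min hex (m := i) (by omega)
    exact not_lt.1 this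
  have hne : t i ≠ x := by
    intro h2
    apply hxs
    exact ⟨i, by simp; omega, h2⟩
  have hlt' : t i < x := lt_of_le_of_ne hix hne
  rw [hi, Nat.succ_eq_add_one] at hjx
  have hCi := hC i (by omega)
  have hd : DifferentiableAt ℝ γ x :=
    (hCi.differentiableOn (by simp)).differentiableAt (Icc_mem_nhds hlt' hjx)
  exact hd.hasDerivAt

lemma IsPath.norm_sub_le_integral (h : IsPath U z w γ) {s t : ℝ} (hs : 0 ≤ s) (hst : s ≤ t)
    (ht : t ≤ 1) : ‖γ t - γ s‖ ≤ ∫ τ in s..t, ‖deriv γ τ‖ := by
  obtain ⟨S, hS, hd⟩ := h.hasDerivAt_off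
  have hint : IntervalIntegrable (deriv γ) volume s t :=
    h.deriv_intervalIntegrable.mono_set (by
      rw [uIcc_of_le hst, uIcc_of_le zero_le_one]
      exact Icc_subset_Icc hs ht)
  have h1 := integral_eq_of_hasDerivAt_off_countable_of_le γ (deriv γ) hst hS
    (h.cont.mono (Icc_subset_Icc hs ht)) (fun x hx => hd x
      ⟨⟨lt_of_le_of_lt hs hx.1.1, lt_of_lt_of_le hx.1.2 ht⟩, hx.2⟩) hint
  rw [← h1]
  exact intervalIntegral.norm_integral_le_integral_norm hst

/-- The length functional of a path. -/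
lemma IsPath.lenFun (h : IsPath U z w γ) {ξ : ℝ} (hξ : 0 ≤ ξ)
    {f : EuclideanSpace ℝ (Fin d) → ℝ} (hf : Continuous f) :
    LenFun γ f ξ 0 1 (fun s t => ∫ τ in s..t, Real.exp (ξ * f (γ τ)) * ‖deriv γ τ‖) := by
  have hint : ∀ s t, 0 ≤ s → s ≤ t → t ≤ 1 →
      IntervalIntegrable (fun τ => Real.exp (ξ * f (γ τ)) * ‖deriv γ τ‖) volume s t := by
    intro s t hs hst ht
    have hsub : Icc s t ⊆ Icc 0 1 := Icc_subset_Icc hs ht
    apply IntervalIntegrable.continuousOn_mul
    · exact (h.deriv_intervalIntegrable.mono_set (by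
        rw [uIcc_of_le hst, uIcc_of_le zero_le_one]; exact hsub)).norm
    · rw [uIcc_of_le hst]
      have := h.cont.mono hsub
      fun_prop
  refine ⟨?_, ?_, ?_⟩
  · intro s t hs hst ht
    apply intervalIntegral.integral_nonneg hst
    intro τ _
    positivity
  · intro s t u hs hst htu hu
    rw [intervalIntegral.integral_add_adjacent_intervals (hint s t hs hst (htu.trans hu))
      (hint t u (hs.trans hst) htu hu)]
  · intro s t c hs hst ht hc
    calc Real.exp (ξ * c) * ‖γ t - γ s‖
        ≤ Real.exp (ξ * c) * ∫ τ in s..t, ‖deriv γ τ‖ := by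
          gcongr
          exact h.norm_sub_le_integral hs hst ht
      _ = ∫ τ in s..t, Real.exp (ξ * c) * ‖deriv γ τ‖ := by
          rw [intervalIntegral.integral_const_mul]
      _ ≤ ∫ τ in s..t, Real.exp (ξ * f (γ τ)) * ‖deriv γ τ‖ := by
          apply intervalIntegral.integral_mono_on hst _ (hint s t hs hst ht)
          · intro τ hτ
            gcongr
            exact hc τ hτ
          · exact ((h.deriv_intervalIntegrable.mono_set (by
              rw [uIcc_of_le hst, uIcc_of_le zero_le_one]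
              exact Icc_subset_Icc hs ht)).norm).const_mul _

end Pool.Agent.Lib_MP_71c74a_pr
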