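import Pool.Agent.Lib_MP_71c74a_pr.CostSum
import Pool.Agent.Lib_MP_71c74a_pr.PathLen

/-!
# Lower bound for the length of a path leaving the unit ball
-/

open MeasureTheory Set
open scoped Topology

namespace Pool.Agent.Lib_MP_71c74a_pr

/-- The rate in the lower bound. -/
noncomputable def rate (ξ : ℝ) (k : ℕ) : ℝ :=
  3 * ((75 * k * ξ) ^ (4 / 3 : ℝ) * (3 * k) ^ (1 / 3 : ℝ)) + (225 * k * ξ * qr (1 / 2 ^ k)
    + 3 * ξ / 2 ^ k)

/-- Deterministic lower bound. -/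
theorem len_lower {d : ℕ} {φ : ℕ → EuclideanSpace ℝ (Fin d) → ℝ} {ξ C₂ S : ℝ} {n k N : ℕ}
    {net : Finset (EuclideanSpace ℝ (Fin d))} {t : EuclideanSpace ℝ (Fin d) → ℕ → ℝ}
    (hξ : 0 < ξ) (hk : 2 ≤ k) (hN : n + k ≤ k * N + 1) (hφ : ∀ j, Continuous (φ j))
    (hnet : ∀ x : EuclideanSpace ℝ (Fin d), ‖x‖ ≤ 1 → ∃ z' ∈ net, ‖x - z'‖ ≤ (1 / 2) ^ (k * N))
    (ht : ∀ z' ∈ net, ∀ j < n, 0 ≤ t z' j)
    (hgood : ∀ z' ∈ net, ∀ j < n, Good (φ j) ((1 / 2) ^ j) (2 ^ k) z' (C₂ * √(t z' j)))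
    (hS : ∀ z' ∈ net, ∑ j ∈ Finset.range n, t z' j ≤ S)
    {U : Set (EuclideanSpace ℝ (Fin d))} {w : EuclideanSpace ℝ (Fin d)}
    {γ : ℝ → EuclideanSpace ℝ (Fin d)} (hγ : IsPath U 0 w γ) (hw : ‖w‖ = 1) :
    Real.exp (-(k + ξ ^ 2 * (C₂ ^ 2 * S) + rate ξ k * (n + C₂ ^ 2 * S)))
      ≤ pathLen ξ (fun x => ∑ j ∈ Finset.range n, φ j x) γ := by
  set f : EuclideanSpace ℝ (Fin d) → ℝ := fun x => ∑ j ∈ Finset.range n, φ j x with hf
  have hfc : Continuous f := by
    rw [hf]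
    exact continuous_finsetSum _ fun j _ => hφ j
  have hL := hγ.lenFun hξ.le hfc
  set L : ℝ → ℝ → ℝ := fun s t => ∫ τ in s..t, Real.exp (ξ * f (γ τ)) * ‖deriv γ τ‖ with hLdef
  -- first exit from the unit ball
  obtain ⟨σ, hσ, hpiece⟩ := exists_first_exit (γ := γ) (r := 1) (τ := 0) (t := 1) one_pos
    hγ.cont ⟨1, right_mem_Icc.2 zero_le_one, by rw [hγ.target, hγ.source, sub_zero, hw]⟩
  have hLσ : LenFun γ f ξ 0 σ L :=
    ⟨fun s t h1 h2 h3 => hL.nonneg s t h1 h2 (h3.trans hσ.2),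
      fun s t u h1 h2 h3 h4 => hL.add s t u h1 h2 h3 (h4.trans hσ.2),
      fun s t c h1 h2 h3 h4 => hL.lower s t c h1 h2 (h3.trans hσ.2) h4⟩
  have hmain := path_bound (γ := γ) (φ := φ) (ρ := (1 / 2) ^ (k * N)) (net := (net : Set _))
    (Y := fun z' j => C₂ * √(t z' j)) hξ.le hk
    (hγ.cont.mono (Icc_subset_Icc le_rfl hσ.2)) hLσ
    (fun τ hτ => by
      have := hpiece.inside τ hτ
      rw [hγ.source, sub_zero] at this
      exact hnet _ this)
    le_rfl hgood hN (i := 0) (Nat.zero_le _) 0 σ le_rfl le_rfl (by simpa using hpiece)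
  obtain ⟨hLpos, z', hz', hdist, hbound⟩ := hmain
  have hz'net : z' ∈ net := hz'
  simp only [mul_zero, pow_zero, div_one, mul_one] at hbound hdist
  -- total cost
  have hY0 : ∀ j < n, 0 ≤ C₂ * √(t z' j) := fun j hj => (hgood z' hz'net j hj).nonneg
  have htot := totalCost_le hξ.le n k N (by omega) (fun j => C₂ * √(t z' j)) hY0 hN
  have hYsq : ∀ j < n, (C₂ * √(t z' j)) ^ 2 = C₂ ^ 2 * t z' j := fun j hj => by
    rw [mul_pow, Real.sq_sqrt (ht z' hz'net j hj)]
  have hsumsq : ∑ j ∈ Finset.range n, (C₂ * √(t z' j)) ^ 2 ≤ C₂ ^ 2 * S := by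
    rw [Finset.sum_congr rfl fun j hj => hYsq j (Finset.mem_range.1 hj), ← Finset.mul_sum]
    exact mul_le_mul_of_nonneg_left (hS z' hz'net) (sq_nonneg _)
  have hsum1 : ∑ j ∈ Finset.range n, (C₂ * √(t z' j)) ^ (4 / 3 : ℝ) ≤ n + C₂ ^ 2 * S := by
    have h1 : ∑ j ∈ Finset.range n, (C₂ * √(t z' j)) ^ (4 / 3 : ℝ)
        ≤ ∑ j ∈ Finset.range n, (1 + (C₂ * √(t z' j)) ^ 2) := by
      refine Finset.sum_le_sum fun j hj => ?_
      have h0 := hY0 j (Finset.mem_range.1 hj)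
      rcases le_total (C₂ * √(t z' j)) 1 with h | h
      · have := Real.rpow_le_one h0 h (by norm_num : (0 : ℝ) ≤ 4 / 3)
        nlinarith [sq_nonneg (C₂ * √(t z' j))]
      · have := Real.rpow_le_rpow_of_exponent_le h (by norm_num : (4 / 3 : ℝ) ≤ (2 : ℕ))
        rw [Real.rpow_natCast] at this
        linarith
    rw [Finset.sum_add_distrib] at h1
    simp only [Finset.sum_const, Finset.card_range, nsmul_eq_mul, mul_one] at h1
    linarith
  have hsum2 : ∑ j ∈ Finset.range n, C₂ * √(t z' j) ≤ n + C₂ ^ 2 * S := by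
    have h1 : ∑ j ∈ Finset.range n, C₂ * √(t z' j)
        ≤ ∑ j ∈ Finset.range n, (1 + (C₂ * √(t z' j)) ^ 2) := by
      refine Finset.sum_le_sum fun j _ => ?_
      nlinarith [sq_nonneg (C₂ * √(t z' j) - 1), sq_nonneg (C₂ * √(t z' j))]
    rw [Finset.sum_add_distrib] at h1
    simp only [Finset.sum_const, Finset.card_range, nsmul_eq_mul, mul_one] at h1
    linarith
  have hq := qr_nonneg (1 / 2 ^ k)
  have htot' : totalCost ξ n k N 0 (fun j => C₂ * √(t z' j)) ≤ rate ξ k * (n + C₂ ^ 2 * S) := by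
    refine htot.trans ?_
    have e1 := mul_le_mul_of_nonneg_left hsum1
      (by positivity : (0 : ℝ) ≤ 3 * ((75 * k * ξ) ^ (4 / 3 : ℝ) * (3 * k) ^ (1 / 3 : ℝ)))
    have e2 := mul_le_mul_of_nonneg_left hsum2
      (by positivity : (0 : ℝ) ≤ 225 * k * ξ * qr (1 / 2 ^ k) + 3 * ξ / 2 ^ k)
    refine (add_le_add e1 e2).trans (le_of_eq ?_)
    unfold rate
    ring
  -- the prediction at the root
  have hpred : -(k + ξ ^ 2 * (C₂ ^ 2 * S)) ≤ pred ξ n k 0 φ (γ 0) (γ σ) := by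
    unfold pred
    have hterm : ∀ j ∈ Finset.range n, -((if j < k then 1 / ξ else 0) + ξ * (C₂ * √(t z' j)) ^ 2)
        ≤ tval k 0 j (φ j) (γ 0) (γ σ) := by
      intro j hj
      have hj' := Finset.mem_range.1 hj
      have hg := hgood z' hz'net j hj'
      unfold tval
      have e1 : ¬ (j + k ≤ k * 0) := by omega
      rw [if_neg e1]
      by_cases hjk : j < k
      · have e2 : ¬ (k * 0 + k ≤ j) := by omega
        rw [if_neg e2, if_pos hjk]
        have hρ1 : (1 / 2 : ℝ) ^ (k * N) ≤ 1 := pow_le_one₀ (by norm_num) (by norm_num)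
        have hrad : (16 : ℝ) ≤ 4 * (2 ^ k) ^ 2 * (1 / 2) ^ j := by
          have h1 : (1 : ℝ) ≤ 2 ^ k * (1 / 2) ^ j := by
            have : (2 : ℝ) ^ j ≤ 2 ^ k := pow_le_pow_right₀ (by norm_num) hjk.le
            rw [one_div_pow, mul_one_div, le_div_iff₀ (by positivity)]
            linarith
          have h2 : (4 : ℝ) ≤ 2 ^ k := by
            calc (4 : ℝ) = 2 ^ 2 := by norm_num
              _ ≤ 2 ^ k := pow_le_pow_right₀ (by norm_num) hk
          calc (16 : ℝ) = 4 * (4 * 1) := by norm_num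
            _ ≤ 4 * (2 ^ k * (2 ^ k * (1 / 2) ^ j)) := by gcongr
            _ = 4 * (2 ^ k) ^ 2 * (1 / 2) ^ j := by ring
        rw [hγ.source] at hdist ⊢
        have hz'n : ‖z'‖ ≤ 3 := by
          rw [zero_sub, norm_neg] at hdist
          linarith
        have hσn : ‖γ σ‖ = 1 := by
          have := hpiece.dist_eq
          rwa [hγ.source, sub_zero] at this
        have hb : |segAvg (φ j) 0 (γ σ)| ≤ C₂ * √(t z' j) := by
          apply abs_segAvg_le
          intro θ hθ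
          apply hg.bdd
          rw [Metric.mem_closedBall, dist_eq_norm]
          have h1 : ‖(0 : EuclideanSpace ℝ (Fin d)) + θ • (γ σ - 0)‖ ≤ 1 := by
            rw [zero_add, sub_zero, norm_smul, hσn, mul_one, Real.norm_eq_abs,
              abs_of_nonneg hθ.1]
            exact hθ.2
          have h2 := norm_sub_le ((0 : EuclideanSpace ℝ (Fin d)) + θ • (γ σ - 0)) z'
          linarith
        have h1 := (abs_le.1 hb).1
        have h2 : C₂ * √(t z' j) ≤ 1 / ξ + ξ * (C₂ * √(t z' j)) ^ 2 := by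
          have h3 : 0 < 1 / ξ := by positivity
          have h4 : 0 ≤ (1 / ξ) * (ξ * (C₂ * √(t z' j)) - 1) ^ 2 := by positivity
          have h5 : (1 / ξ) * (ξ * (C₂ * √(t z' j)) - 1) ^ 2
              = ξ * (C₂ * √(t z' j)) ^ 2 - 2 * (C₂ * √(t z' j)) + 1 / ξ := by
            field_simp
            ring
          have h6 := hY0 j hj'
          linarith
        linarith
      · rw [if_neg hjk]
        by_cases hjk2 : k * 0 + k ≤ j
        · rw [if_pos hjk2]
          have : 0 ≤ ξ * (C₂ * √(t z' j)) ^ 2 := by positivity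
          linarith
        · omega
    have hsumt := Finset.sum_le_sum hterm
    rw [Finset.sum_neg_distrib, Finset.sum_add_distrib, ← Finset.mul_sum] at hsumt
    have hcard : ∑ j ∈ Finset.range n, (if j < k then 1 / ξ else 0) ≤ k * (1 / ξ) := by
      rw [← Finset.sum_filter, Finset.sum_const, nsmul_eq_mul]
      apply mul_le_mul_of_nonneg_right _ (by positivity)
      have : (Finset.range n).filter (fun j => j < k) ⊆ Finset.range k := by
        intro j hj
        exact Finset.mem_range.2 (Finset.mem_filter.1 hj).2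
      have := Finset.card_le_card this
      rw [Finset.card_range] at this
      exact_mod_cast this
    have h1 : -(k * (1 / ξ) + ξ * (C₂ ^ 2 * S)) ≤
        ∑ j ∈ Finset.range n, tval k 0 j (φ j) (γ 0) (γ σ) := by
      have := mul_le_mul_of_nonneg_left hsumsq hξ.le
      linarith
    calc -(k + ξ ^ 2 * (C₂ ^ 2 * S)) = ξ * -(k * (1 / ξ) + ξ * (C₂ ^ 2 * S)) := by
          field_simp
      _ ≤ _ := mul_le_mul_of_nonneg_left h1 hξ.le
  -- conclusion
  have hlog : -(k + ξ ^ 2 * (C₂ ^ 2 * S) + rate ξ k * (n + C₂ ^ 2 * S)) ≤ Real.log (L 0 σ) := by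
    linarith
  have hle : L 0 σ ≤ pathLen ξ f γ := by
    have h1 := hL.add 0 σ 1 le_rfl hσ.1 hσ.2 le_rfl
    have h2 := hL.nonneg σ 1 hσ.1 hσ.2 le_rfl
    have h3 : pathLen ξ f γ = L 0 1 := rfl
    rw [h3]
    linarith
  calc Real.exp (-(k + ξ ^ 2 * (C₂ ^ 2 * S) + rate ξ k * (n + C₂ ^ 2 * S)))
      ≤ Real.exp (Real.log (L 0 σ)) := Real.exp_le_exp.2 hlog
    _ = L 0 σ := Real.exp_log hLpos
    _ ≤ pathLen ξ f γ := hle

end Pool.Agent.Lib_MP_71c74a_pr
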