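import Pool.Agent.Lib_MP_71c74a_pr.ChainBase
import Pool.Agent.Lib_MP_71c74a_pr.FieldDefs

/-!
# Averages along segments as tests, and their variances
-/

open MeasureTheory ProbabilityTheory Set
open scoped ENNReal NNReal Topology

namespace Pool.Agent.Lib_MP_71c74a_pr

/-- Properties of the covariance: nonnegativity, stationarity, finite range, regularity. -/
structure CovLaw {E H : Type*} [NormedAddCommGroup E] [NormedSpace ℝ E]
    [NormedAddCommGroup H] [InnerProductSpace ℝ H] (G : E → H) (R₀ v₀ C : ℝ) : Prop where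
  R₀_pos : 0 < R₀
  v₀_pos : 0 < v₀
  C_pos : 0 < C
  nonneg : ∀ x y, 0 ≤ inner ℝ (G x) (G y)
  stat : ∀ b x y, inner ℝ (G (b + x)) (G (b + y)) = inner ℝ (G x) (G y)
  range : ∀ x y, R₀ ≤ ‖x - y‖ → inner ℝ (G x) (G y) = 0
  norm_sq : ∀ x, ‖G x‖ ^ 2 = v₀
  norm_le : ∀ x, ‖G x‖ ≤ C
  diff_le : ∀ x y, ‖G x - G y‖ ≤ C * ‖x - y‖

section Banded

variable {H : Type*} [NormedAddCommGroup H] [InnerProductSpace ℝ H]

/-- A sum of vectors with correlations of finite range. -/
lemma banded {M : ℕ} {V : ℕ → H} {B W : ℝ} (hV : ∀ i < M, ‖V i‖ ≤ B) (hW0 : 0 ≤ W)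
    (hW : ∀ i < M, ∀ j < M, W ≤ |(i : ℝ) - j| → inner ℝ (V i) (V j) = 0) :
    ‖∑ i ∈ Finset.range M, V i‖ ^ 2 ≤ M * (2 * W + 1) * B ^ 2 := by
  rw [← real_inner_self_eq_norm_sq, sum_inner]
  have h1 : ∀ i ∈ Finset.range M, inner ℝ (V i) (∑ j ∈ Finset.range M, V j)
      ≤ (2 * W + 1) * B ^ 2 := by
    intro i hi
    have hi' := Finset.mem_range.1 hi
    rw [inner_sum]
    have hB : 0 ≤ B := (norm_nonneg _).trans (hV i hi')
    set w := ⌊W⌋₊ with hw
    have h2 : ∑ j ∈ Finset.range M, inner ℝ (V i) (V j)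
        ≤ ∑ j ∈ Finset.range M, if j ∈ Finset.Icc (i - w) (i + w) then B ^ 2 else 0 := by
      refine Finset.sum_le_sum fun j hj => ?_
      have hj' := Finset.mem_range.1 hj
      by_cases hmem : j ∈ Finset.Icc (i - w) (i + w)
      · rw [if_pos hmem]
        refine (real_inner_le_norm _ _).trans ?_
        rw [sq]
        exact mul_le_mul (hV i hi') (hV j hj') (norm_nonneg _) hB
      · rw [if_neg hmem]
        apply le_of_eq
        apply hW i hi' j hj'
        rw [Finset.mem_Icc, not_and_or, not_le, not_le] at hmem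
        rcases hmem with h | h
        · have h3 : W < w + 1 := Nat.lt_floor_add_one W
          have h4 : j + w + 1 ≤ i := by omega
          have h5 : (j : ℝ) + w + 1 ≤ i := by exact_mod_cast h4
          rw [abs_of_nonneg (by linarith [(Nat.cast_nonneg w : (0 : ℝ) ≤ w)])]
          linarith
        · have h3 : W < w + 1 := Nat.lt_floor_add_one W
          have h4 : i + w + 1 ≤ j := by omega
          have h5 : (i : ℝ) + w + 1 ≤ j := by exact_mod_cast h4
          rw [abs_of_nonpos (by linarith [(Nat.cast_nonneg w : (0 : ℝ) ≤ w)])]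
          linarith
    refine h2.trans ?_
    rw [← Finset.sum_filter, Finset.sum_const, nsmul_eq_mul]
    apply mul_le_mul_of_nonneg_right _ (sq_nonneg B)
    have h3 : ((Finset.range M).filter (fun j => j ∈ Finset.Icc (i - w) (i + w))).card
        ≤ (Finset.Icc (i - w) (i + w)).card := by
      apply Finset.card_le_card
      intro j hj
      exact (Finset.mem_filter.1 hj).2
    rw [Nat.card_Icc] at h3
    have h4 : (((Finset.range M).filter (fun j => j ∈ Finset.Icc (i - w) (i + w))).card : ℝ)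
        ≤ 2 * w + 1 := by
      have h5 : i + w + 1 - (i - w) ≤ 2 * w + 1 := by omega
      exact_mod_cast h3.trans h5
    have h6 : (w : ℝ) ≤ W := Nat.floor_le hW0
    linarith
  refine (Finset.sum_le_sum h1).trans ?_
  rw [Finset.sum_const, Finset.card_range, nsmul_eq_mul, mul_assoc]

end Banded

section Tests

variable {E H : Type*} [NormedAddCommGroup E] [InnerProductSpace ℝ E]
    [NormedAddCommGroup H] [InnerProductSpace ℝ H]

/-- The `i`-th point of the subdivision of a segment into `M` parts. -/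
noncomputable def segPt (M : ℕ) (x y : E) (i : ℕ) : E := x + ((i : ℝ) / M) • (y - x)

/-- The discretised average over a segment, as a test. -/
noncomputable def avgT (M : ℕ) (x y : E) : E →₀ ℝ :=
  (1 / (M : ℝ)) • ∑ i ∈ Finset.range M, Finsupp.single (segPt M x y i) 1

lemma lc_avgT {V : Type*} [AddCommGroup V] [Module ℝ V] (F : E → V) (M : ℕ) (x y : E) :
    lc F (avgT M x y) = (1 / (M : ℝ)) • ∑ i ∈ Finset.range M, F (segPt M x y i) := by
  simp [lc, avgT, map_smul, map_sum, Finsupp.linearCombination_single]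

lemma segPt_sub (M : ℕ) (x y : E) (i j : ℕ) :
    segPt M x y i - segPt M x y j = (((i : ℝ) - j) / M) • (y - x) := by
  unfold segPt
  module

lemma norm_segPt_sub (M : ℕ) (x y : E) (i j : ℕ) :
    ‖segPt M x y i - segPt M x y j‖ = |(i : ℝ) - j| / M * ‖y - x‖ := by
  rw [segPt_sub, norm_smul, Real.norm_eq_abs, abs_div, Nat.abs_cast]

/-- Variance of an average. -/
lemma norm_lc_avgT_sq {G : E → H} {R₀ v₀ C : ℝ} (hG : CovLaw G R₀ v₀ C) {M : ℕ} (hM : 0 < M)
    {x y : E} (hxy : x ≠ y) (hLM : ‖y - x‖ ≤ M) :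
    ‖lc G (avgT M x y)‖ ^ 2 ≤ (2 * R₀ + 1) * C ^ 2 / ‖y - x‖ := by
  have hL : 0 < ‖y - x‖ := norm_pos_iff.2 (sub_ne_zero.2 hxy.symm)
  have hM' : (0 : ℝ) < M := by exact_mod_cast hM
  rw [lc_avgT, norm_smul, mul_pow]
  have h := banded (M := M) (V := fun i => G (segPt M x y i)) (B := C)
    (W := R₀ * M / ‖y - x‖) (fun i _ => hG.norm_le _)
    (div_nonneg (mul_nonneg hG.R₀_pos.le hM'.le) hL.le) (fun i _ j _ hij => by
      apply hG.range
      rw [norm_segPt_sub]
      rw [div_le_iff₀ hL] at hij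
      rw [div_mul_eq_mul_div, le_div_iff₀ hM']
      exact hij)
  have h1 : ‖(1 / (M : ℝ))‖ ^ 2 = 1 / (M : ℝ) ^ 2 := by
    rw [Real.norm_eq_abs, sq_abs]; ring
  rw [h1]
  calc 1 / (M : ℝ) ^ 2 * ‖∑ i ∈ Finset.range M, G (segPt M x y i)‖ ^ 2
      ≤ 1 / (M : ℝ) ^ 2 * (M * (2 * (R₀ * M / ‖y - x‖) + 1) * C ^ 2) := by gcongr
    _ = (2 * R₀ / ‖y - x‖ + 1 / M) * C ^ 2 := by field_simp
    _ ≤ (2 * R₀ / ‖y - x‖ + 1 / ‖y - x‖) * C ^ 2 := by gcongr
    _ = (2 * R₀ + 1) * C ^ 2 / ‖y - x‖ := by ring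

/-- Variance of the difference of two averages over segments from the same point. -/
lemma norm_lc_fan_sq {G : E → H} {R₀ v₀ C : ℝ} (hG : CovLaw G R₀ v₀ C) {M : ℕ} (hM : 0 < M)
    {x w m : E} (hxm : x ≠ m) (hLM : 2 * ‖m - x‖ ≤ M) :
    ‖lc G (avgT M x w) - lc G (avgT M x m)‖ ^ 2
      ≤ (8 * R₀ + 18) * C ^ 2 * ‖w - m‖ / (2 * ‖m - x‖) := by
  have hL : 0 < ‖m - x‖ := norm_pos_iff.2 (sub_ne_zero.2 hxm.symm)
  have hM' : (0 : ℝ) < M := by exact_mod_cast hM
  have hC := hG.C_pos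
  have hR₀ := hG.R₀_pos
  set δ := ‖w - m‖ with hδ
  have hδ0 : 0 ≤ δ := norm_nonneg _
  rw [lc_avgT, lc_avgT, ← smul_sub, norm_smul, mul_pow, ← Finset.sum_sub_distrib]
  -- the points
  have hpt : ∀ i, segPt M x w i - segPt M x m i = ((i : ℝ) / M) • (w - m) := by
    intro i; unfold segPt; module
  have hle : ∀ i < M, (i : ℝ) / M ≤ 1 := fun i hi => by
    rw [div_le_one hM']; exact_mod_cast hi.le
  have hnorm : ∀ i < M, ‖segPt M x w i - segPt M x m i‖ ≤ δ := fun i hi => by
    rw [hpt, norm_smul, Real.norm_eq_abs, abs_of_nonneg (by positivity)]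
    calc (i : ℝ) / M * ‖w - m‖ ≤ 1 * ‖w - m‖ := by gcongr; exact hle i hi
      _ = δ := one_mul _
  have h := banded (M := M) (V := fun i => G (segPt M x w i) - G (segPt M x m i))
    (B := C * min 2 δ) (W := (R₀ + δ) * M / ‖m - x‖) (fun i hi => by
      rw [mul_min_of_nonneg _ _ hC.le, le_min_iff]
      constructor
      · calc ‖G (segPt M x w i) - G (segPt M x m i)‖
            ≤ ‖G (segPt M x w i)‖ + ‖G (segPt M x m i)‖ := norm_sub_le _ _
          _ ≤ C + C := add_le_add (hG.norm_le _) (hG.norm_le _)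
          _ = C * 2 := by ring
      · exact (hG.diff_le _ _).trans (by gcongr; exact hnorm i hi))
    (by positivity) (fun i hi j hj hij => by
      have h0 : R₀ + δ ≤ ‖segPt M x m i - segPt M x m j‖ := by
        rw [norm_segPt_sub]
        rw [div_le_iff₀ hL] at hij
        rw [div_mul_eq_mul_div, le_div_iff₀ hM']
        exact hij
      have e1 : R₀ ≤ ‖segPt M x w i - segPt M x w j‖ := by
        have e : segPt M x m i - segPt M x m j = (segPt M x w i - segPt M x w j)
            - (((i : ℝ) - j) / M) • (w - m) := by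
          unfold segPt; module
        have e' : ‖segPt M x m i - segPt M x m j‖ ≤ ‖segPt M x w i - segPt M x w j‖ + δ := by
          rw [e]
          refine (norm_sub_le _ _).trans ?_
          gcongr
          rw [norm_smul, Real.norm_eq_abs, abs_div, Nat.abs_cast]
          calc |(i : ℝ) - j| / M * ‖w - m‖ ≤ 1 * ‖w - m‖ := by
                gcongr
                rw [div_le_one hM', abs_le]
                have h1 : (i : ℝ) ≤ M := by exact_mod_cast hi.le
                have h2 : (j : ℝ) ≤ M := by exact_mod_cast hj.le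
                have h3 : (0 : ℝ) ≤ i := Nat.cast_nonneg i
                have h4 : (0 : ℝ) ≤ j := Nat.cast_nonneg j
                constructor <;> linarith
            _ = δ := one_mul _
        linarith
      have e2 : R₀ ≤ ‖segPt M x w i - segPt M x m j‖ := by
        have e : segPt M x m i - segPt M x m j = (segPt M x w i - segPt M x m j)
            - (segPt M x w i - segPt M x m i) := by abel
        have e' : ‖segPt M x m i - segPt M x m j‖ ≤ ‖segPt M x w i - segPt M x m j‖ + δ := by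
          rw [e]
          exact (norm_sub_le _ _).trans (by gcongr; exact hnorm i hi)
        linarith
      have e3 : R₀ ≤ ‖segPt M x m i - segPt M x w j‖ := by
        have e : segPt M x m i - segPt M x m j = (segPt M x m i - segPt M x w j)
            + (segPt M x w j - segPt M x m j) := by abel
        have e' : ‖segPt M x m i - segPt M x m j‖ ≤ ‖segPt M x m i - segPt M x w j‖ + δ := by
          rw [e]
          exact (norm_add_le _ _).trans (by gcongr; exact hnorm j hj)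
        linarith
      have e4 : R₀ ≤ ‖segPt M x m i - segPt M x m j‖ := by linarith
      show inner ℝ (G (segPt M x w i) - G (segPt M x m i))
        (G (segPt M x w j) - G (segPt M x m j)) = 0
      rw [inner_sub_left, inner_sub_right, inner_sub_right, hG.range _ _ e1, hG.range _ _ e2,
        hG.range _ _ e3, hG.range _ _ e4]
      simp)
  have h1 : ‖(1 / (M : ℝ))‖ ^ 2 = 1 / (M : ℝ) ^ 2 := by
    rw [Real.norm_eq_abs, sq_abs]; ring
  rw [h1]
  set q := min 2 δ with hq
  have hq0 : 0 ≤ q := le_min (by norm_num) hδ0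
  have hq2 : q ≤ 2 := min_le_left _ _
  have hqδ : q ≤ δ := min_le_right _ _
  have q1 : q ^ 2 ≤ 2 * δ := by nlinarith
  have q2 : δ * q ^ 2 ≤ 4 * δ := by
    have : q ^ 2 ≤ 4 := by nlinarith
    calc δ * q ^ 2 ≤ δ * 4 := by gcongr
      _ = 4 * δ := by ring
  calc 1 / (M : ℝ) ^ 2 * ‖∑ i ∈ Finset.range M, (G (segPt M x w i) - G (segPt M x m i))‖ ^ 2
      ≤ 1 / (M : ℝ) ^ 2 * (M * (2 * ((R₀ + δ) * M / ‖m - x‖) + 1) * (C * q) ^ 2) := by gcongr
    _ = (2 * (R₀ + δ) / ‖m - x‖ + 1 / M) * (C ^ 2 * q ^ 2) := by field_simp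
    _ ≤ (2 * (R₀ + δ) / ‖m - x‖ + 1 / (2 * ‖m - x‖)) * (C ^ 2 * q ^ 2) := by gcongr
    _ = C ^ 2 * (4 * R₀ * q ^ 2 + 4 * (δ * q ^ 2) + q ^ 2) / (2 * ‖m - x‖) := by
        field_simp
        ring
    _ ≤ C ^ 2 * (4 * R₀ * (2 * δ) + 4 * (4 * δ) + 2 * δ) / (2 * ‖m - x‖) := by gcongr
    _ = (8 * R₀ + 18) * C ^ 2 * δ / (2 * ‖m - x‖) := by ring

lemma segPt_symm_aux (M : ℕ) (x y : E) (i : ℕ) :
    segPt M x y i = AffineMap.lineMap x y ((i : ℝ) / M) := by
  rw [AffineMap.lineMap_apply_module']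
  unfold segPt
  module

/-- The discretised broken-segment difference. -/
noncomputable def brkT (M : ℕ) (x w y : E) : E →₀ ℝ :=
  (1 / 2 : ℝ) • (avgT M x w - avgT M x (midpoint ℝ x y))
    + (1 / 2 : ℝ) • (avgT M y w - avgT M y (midpoint ℝ x y))

lemma norm_lc_brkT {G : E → H} {R₀ v₀ C : ℝ} (hG : CovLaw G R₀ v₀ C) {M : ℕ} (hM : 0 < M)
    {x w y : E} (hxy : x ≠ y) (hLM : ‖y - x‖ ≤ M) :
    ‖lc G (brkT M x w y)‖
      ≤ √((8 * R₀ + 18) * C ^ 2 * ‖w - midpoint ℝ x y‖ / ‖y - x‖) := by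
  have e1 : 2 * ‖midpoint ℝ x y - x‖ = ‖y - x‖ := by
    rw [midpoint_sub_left, norm_smul]
    simp only [invOf_eq_inv, norm_inv, Real.norm_ofNat]
    ring
  have e2 : 2 * ‖midpoint ℝ x y - y‖ = ‖y - x‖ := by
    rw [midpoint_sub_right, norm_smul, norm_sub_rev x y]
    simp only [invOf_eq_inv, norm_inv, Real.norm_ofNat]
    ring
  have hL : 0 < ‖y - x‖ := norm_pos_iff.2 (sub_ne_zero.2 hxy.symm)
  have n1 : x ≠ midpoint ℝ x y := by
    intro h
    rw [← h, sub_self, norm_zero, mul_zero] at e1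
    linarith
  have n2 : y ≠ midpoint ℝ x y := by
    intro h
    rw [← h, sub_self, norm_zero, mul_zero] at e2
    linarith
  have h1 := norm_lc_fan_sq hG hM (w := w) n1 (by rw [e1]; exact hLM)
  have h2 := norm_lc_fan_sq hG hM (w := w) n2 (by rw [e2]; exact hLM)
  rw [e1] at h1
  rw [e2] at h2
  have h1' := Real.le_sqrt_of_sq_le h1
  have h2' := Real.le_sqrt_of_sq_le h2
  have e : lc G (brkT M x w y)
      = (1 / 2 : ℝ) • (lc G (avgT M x w) - lc G (avgT M x (midpoint ℝ x y)))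
        + (1 / 2 : ℝ) • (lc G (avgT M y w) - lc G (avgT M y (midpoint ℝ x y))) := by
    simp only [lc, brkT, map_add, map_smul, map_sub]
  rw [e]
  refine (norm_add_le _ _).trans ?_
  rw [norm_smul, norm_smul]
  have : ‖(1 / 2 : ℝ)‖ = 1 / 2 := by norm_num
  rw [this]
  linarith

lemma segAvg_comm (φ : E → ℝ) (x y : E) : segAvg φ x y = segAvg φ y x := by
  unfold segAvg
  have h := intervalIntegral.integral_comp_sub_left (a := 0) (b := 1)
    (fun θ : ℝ => φ (x + θ • (y - x))) 1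
  simp only [sub_self, sub_zero] at h
  rw [← h]
  refine intervalIntegral.integral_congr fun θ _ => ?_
  show φ (x + (1 - θ) • (y - x)) = φ (y + θ • (x - y))
  congr 1
  module

/-- Error in the Riemann sum. -/
lemma riem_error {φ : E → ℝ} (hφ : Continuous φ) {M : ℕ} (hM : 0 < M) {x y : E} {D : ℝ}
    (hD : ∀ θ ∈ Icc (0 : ℝ) 1, ∀ θ' ∈ Icc (0 : ℝ) 1, |θ - θ'| ≤ 1 / M →
      |φ (x + θ • (y - x)) - φ (x + θ' • (y - x))| ≤ D) :
    |segAvg φ x y - lc φ (avgT M x y)| ≤ D := by
  have hM' : (0 : ℝ) < M := by exact_mod_cast hM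
  have hcont := continuous_seg hφ x y
  rw [lc_avgT, segAvg]
  have hsplit : ∫ θ in (0 : ℝ)..1, φ (x + θ • (y - x))
      = ∑ i ∈ Finset.range M, ∫ θ in ((i : ℝ) / M)..(((i + 1 : ℕ) : ℝ) / M),
        φ (x + θ • (y - x)) := by
    rw [intervalIntegral.sum_integral_adjacent_intervals (a := fun i : ℕ => (i : ℝ) / M)]
    · simp [hM'.ne']
    · intro i _
      exact hcont.intervalIntegrable _ _
  rw [hsplit, smul_eq_mul, Finset.mul_sum, ← Finset.sum_sub_distrib]
  refine (Finset.abs_sum_le_sum_abs _ _).trans ?_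
  have hterm : ∀ i ∈ Finset.range M,
      |(∫ θ in ((i : ℝ) / M)..(((i + 1 : ℕ) : ℝ) / M), φ (x + θ • (y - x)))
        - 1 / M * φ (segPt M x y i)| ≤ D / M := by
    intro i hi
    have hi' := Finset.mem_range.1 hi
    have hlen : (((i + 1 : ℕ) : ℝ) / M) - (i : ℝ) / M = 1 / M := by
      push_cast; ring
    have hc : 1 / M * φ (segPt M x y i)
        = ∫ _ in ((i : ℝ) / M)..(((i + 1 : ℕ) : ℝ) / M), φ (segPt M x y i) := by
      rw [intervalIntegral.integral_const, hlen, smul_eq_mul]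
    rw [hc, ← intervalIntegral.integral_sub (hcont.intervalIntegrable _ _)
      intervalIntegrable_const]
    have hb := intervalIntegral.norm_integral_le_of_norm_le_const (a := (i : ℝ) / M)
      (b := ((i + 1 : ℕ) : ℝ) / M) (C := D)
      (f := fun θ => φ (x + θ • (y - x)) - φ (segPt M x y i)) (fun θ hθ => by
        have hle : (i : ℝ) / M ≤ ((i + 1 : ℕ) : ℝ) / M := by
          gcongr; exact_mod_cast Nat.le_succ i
        rw [uIoc_of_le hle] at hθ
        rw [Real.norm_eq_abs]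
        have h0 : (0 : ℝ) ≤ (i : ℝ) / M := by positivity
        have h1 : ((i + 1 : ℕ) : ℝ) / M ≤ 1 := by
          rw [div_le_one hM']; exact_mod_cast hi'
        apply hD θ ⟨h0.trans hθ.1.le, hθ.2.trans h1⟩ _ ⟨h0, hle.trans h1⟩
        rw [abs_of_nonneg (by linarith [hθ.1])]
        linarith [hθ.2])
    rw [Real.norm_eq_abs] at hb
    refine hb.trans (le_of_eq ?_)
    rw [hlen, abs_of_nonneg (by positivity)]
    ring
  refine (Finset.sum_le_sum hterm).trans (le_of_eq ?_)
  rw [Finset.sum_const, Finset.card_range, nsmul_eq_mul]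
  field_simp

/-- Error in the broken-segment difference. -/
lemma brk_error {φ : E → ℝ} (hφ : Continuous φ) {M : ℕ} (hM : 0 < M) {x w y : E} {D : ℝ}
    (h1 : |segAvg φ x w - lc φ (avgT M x w)| ≤ D)
    (h2 : |segAvg φ x (midpoint ℝ x y) - lc φ (avgT M x (midpoint ℝ x y))| ≤ D)
    (h3 : |segAvg φ y w - lc φ (avgT M y w)| ≤ D)
    (h4 : |segAvg φ y (midpoint ℝ x y) - lc φ (avgT M y (midpoint ℝ x y))| ≤ D) :
    |((segAvg φ x w + segAvg φ w y) / 2 - segAvg φ x y) - lc φ (brkT M x w y)| ≤ 2 * D := by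
  have e : lc φ (brkT M x w y)
      = (1 / 2 : ℝ) * (lc φ (avgT M x w) - lc φ (avgT M x (midpoint ℝ x y)))
        + (1 / 2 : ℝ) * (lc φ (avgT M y w) - lc φ (avgT M y (midpoint ℝ x y))) := by
    simp only [lc, brkT, map_add, map_smul, map_sub, smul_eq_mul]
  rw [e, segAvg_split hφ x y, segAvg_comm φ w y, segAvg_comm φ (midpoint ℝ x y) y]
  rw [abs_le] at *
  constructor <;> linarith

end Tests

end Pool.Agent.Lib_MP_71c74a_pr
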